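import Pool.Agent.Lib.MP_0c2f33_an.Par

/-!
Existence of parameters for the self-similar schedule.
-/

open Filter Topology

namespace AdvDiff

/-- A power of two between `2 / r` and `6 / r`. -/
noncomputable def parExM (r : ℝ) : ℕ := 2 ^ Nat.clog 2 ⌈2 / r⌉₊

lemma parExM_ge (r : ℝ) : 2 / r ≤ (parExM r : ℝ) := by
  have h1 : ⌈2 / r⌉₊ ≤ parExM r := Nat.le_pow_clog (by norm_num) _
  exact (Nat.le_ceil _).trans (by exact_mod_cast h1)

lemma parExM_le {r : ℝ} (h0 : 0 < r) (h1 : r ≤ 1) : (parExM r : ℝ) ≤ 6 / r := by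
  have h2 : (2 : ℝ) ≤ 2 / r := by rw [le_div_iff₀ h0]; linarith
  have h3 : 1 < ⌈2 / r⌉₊ := by
    rw [Nat.lt_ceil]
    push_cast
    linarith
  have h4 := Nat.pow_pred_clog_lt_self (b := 2) (by norm_num) h3
  have h5 : 0 < Nat.clog 2 ⌈2 / r⌉₊ := Nat.clog_pos (by norm_num) h3
  have h6 : parExM r = 2 * 2 ^ (Nat.clog 2 ⌈2 / r⌉₊).pred := by
    unfold parExM
    conv_lhs => rw [← Nat.succ_pred_eq_of_pos h5]
    rw [Nat.succ_eq_add_one, pow_succ, mul_comm]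
  have h7 : ((2 ^ (Nat.clog 2 ⌈2 / r⌉₊).pred : ℕ) : ℝ) ≤ (⌈2 / r⌉₊ : ℝ) := by exact_mod_cast h4.le
  have h8 := Nat.ceil_lt_add_one (show (0 : ℝ) ≤ 2 / r by linarith)
  rw [h6, Nat.cast_mul]
  have : (6 : ℝ) / r = 3 * (2 / r) := by ring
  push_cast at h7 ⊢
  linarith

lemma parExM_dvd {r r' : ℝ} (h0 : 0 < r') (h1 : r' ≤ r) : parExM r ∣ parExM r' := by
  unfold parExM
  apply pow_dvd_pow
  apply Nat.clog_mono_right
  apply Nat.ceil_mono
  exact div_le_div_of_nonneg_left (by norm_num) h0 h1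

lemma parEx_S {r g M : ℝ} (h0 : 0 < r) (h1 : r ≤ 1) (hg : r ^ 2 / 2 ≤ g) (hM : 2 / r ≤ M) :
    (1 + 2 / (M * Real.sqrt (6 * g))) * (1 + 2 / Real.sqrt (6 * g)) ≤ 6 / r := by
  have hs : 3 / 2 * r ≤ Real.sqrt (6 * g) := by
    apply Real.le_sqrt_of_sq_le
    nlinarith
  have hM0 : 0 < 2 / r := by positivity
  have h3 : 3 ≤ M * Real.sqrt (6 * g) := by
    calc (3 : ℝ) = 2 / r * (3 / 2 * r) := by field_simp
      _ ≤ M * Real.sqrt (6 * g) := by gcongr; linarith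
  have h4 : 2 / (M * Real.sqrt (6 * g)) ≤ 2 / 3 := by gcongr
  have h5 : 2 / Real.sqrt (6 * g) ≤ 2 / (3 / 2 * r) := by gcongr
  have h6 : 1 ≤ 1 / r := by rw [le_div_iff₀ h0]; linarith
  have h7 : 2 / (3 / 2 * r) = 4 / 3 * (1 / r) := by field_simp; norm_num
  calc _ ≤ (1 + 2 / 3) * (1 / r + 4 / 3 * (1 / r)) := by
        apply mul_le_mul (by linarith) (by linarith) (by positivity) (by norm_num)
    _ = 35 / 9 * (1 / r) := by ring
    _ ≤ 6 * (1 / r) := by gcongr; norm_num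
    _ = 6 / r := by ring

lemma parEx_loss {t c δ η u v ν θ κ0 l0 τ0 M : ℝ} (ht : 0 < t) (hc : 0 < c) (hδ : 0 < δ)
    (hδ1 : δ ≤ 1) (hη : 0 < η) (hu : 0 < u) (hv : 0 < v) (hv1 : v ≤ 1) (hν : 0 < ν) (hθ : 0 < θ)
    (hτ : 0 < τ0) (hM0 : 0 ≤ M) (hM : M ≤ 6 / (δ * c * t * (u * v ^ 2))) (h1 : 192 * δ ^ 2 ≤ η)
    (h2 : κ0 = η * (δ * c * t) * (ν * θ ^ 2) / (144 * t))
    (h3 : l0 = η * (δ * c * t) * (ν * θ ^ 2) / 12)
    (h4 : τ0 * (666 * t * (100 * (1 / κ0 + 12 / c)) ^ 2) ≤ η * (δ * c * t) ^ 2 * l0) :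
    192 * (δ * c * t * (u * v ^ 2)) ^ 2 / (c * t * (u * v)) ^ 2
      + 8 * (6 / (δ * c * t * (u * ν * (v * θ) ^ 2))) * (κ0 * v ^ 3) * (t * u + t * u * (1 + v))
      + 2 * (l0 * (u * v ^ 3)) * (6 / (δ * c * t * (u * ν * (v * θ) ^ 2)))
      + 6 * (τ0 * (u ^ 2 * v ^ 14)) * (t * u + t * u * (1 + v))
        * (100 * (1 / (κ0 * v ^ 3) + 4 * (t * u + t * u * (1 + v)) / (c * t * (u * v)))) ^ 2
        * (M ^ 2 + 1 / (c * t * (u * v)) ^ 2) / (l0 * (u * v ^ 3)) ≤ 4 * η * v := by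
  have hκ : 0 < κ0 := by rw [h2]; positivity
  have hl : 0 < l0 := by rw [h3]; positivity
  have hH : t * u + t * u * (1 + v) ≤ 3 * (t * u) := by nlinarith [mul_pos ht hu]
  have e1 : 192 * (δ * c * t * (u * v ^ 2)) ^ 2 / (c * t * (u * v)) ^ 2 ≤ η * v := by
    have : 192 * (δ * c * t * (u * v ^ 2)) ^ 2 / (c * t * (u * v)) ^ 2
        = 192 * δ ^ 2 * v * v := by field_simp
    rw [this]
    calc 192 * δ ^ 2 * v * v ≤ η * 1 * v := by gcongr
      _ = η * v := by ring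
  have e2 : 8 * (6 / (δ * c * t * (u * ν * (v * θ) ^ 2))) * (κ0 * v ^ 3)
      * (t * u + t * u * (1 + v)) ≤ η * v := by
    calc _ ≤ 8 * (6 / (δ * c * t * (u * ν * (v * θ) ^ 2))) * (κ0 * v ^ 3) * (3 * (t * u)) := by
          gcongr
      _ = η * v := by rw [h2]; field_simp; norm_num
  have e3 : 2 * (l0 * (u * v ^ 3)) * (6 / (δ * c * t * (u * ν * (v * θ) ^ 2))) = η * v := by
    rw [h3]; field_simp; norm_num
  have e4 : 6 * (τ0 * (u ^ 2 * v ^ 14)) * (t * u + t * u * (1 + v))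
      * (100 * (1 / (κ0 * v ^ 3) + 4 * (t * u + t * u * (1 + v)) / (c * t * (u * v)))) ^ 2
      * (M ^ 2 + 1 / (c * t * (u * v)) ^ 2) / (l0 * (u * v ^ 3)) ≤ η * v := by
    have a1 : 4 * (t * u + t * u * (1 + v)) / (c * t * (u * v)) ≤ 12 / c / v ^ 3 := by
      calc _ ≤ 4 * (3 * (t * u)) / (c * t * (u * v)) := by gcongr
        _ = 12 / c / v := by field_simp; norm_num
        _ ≤ 12 / c / v ^ 3 := by
          apply div_le_div_of_nonneg_left (by positivity) (by positivity)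
          calc v ^ 3 = v * v * v := by ring
            _ ≤ 1 * 1 * v := by gcongr
            _ = v := by ring
    have a2 : 1 / (c * t * (u * v)) ^ 2 ≤ 1 / (δ * c * t * (u * v ^ 2)) ^ 2 := by
      apply div_le_div_of_nonneg_left (by positivity) (by positivity)
      apply pow_le_pow_left₀ (by positivity)
      calc δ * c * t * (u * v ^ 2) = δ * v * (c * t * (u * v)) := by ring
        _ ≤ 1 * 1 * (c * t * (u * v)) := by gcongr
        _ = c * t * (u * v) := by ring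
    calc _ ≤ 6 * (τ0 * (u ^ 2 * v ^ 14)) * (3 * (t * u))
          * (100 * (1 / (κ0 * v ^ 3) + 12 / c / v ^ 3)) ^ 2
          * ((6 / (δ * c * t * (u * v ^ 2))) ^ 2 + 1 / (δ * c * t * (u * v ^ 2)) ^ 2)
          / (l0 * (u * v ^ 3)) := by gcongr
      _ = τ0 * (666 * t * (100 * (1 / κ0 + 12 / c)) ^ 2) / ((δ * c * t) ^ 2 * l0) * v := by
          field_simp; norm_num
      _ ≤ η * (δ * c * t) ^ 2 * l0 / ((δ * c * t) ^ 2 * l0) * v := by gcongr
      _ = η * v := by field_simp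
  linarith

lemma parEx_cost {t u v τ0 ν e : ℝ} {k : ℕ} (ht : 0 < t) (hν : 0 < ν) (hu : u = ν ^ k)
    (hv : 0 < v) (hv1 : v ≤ 1) (hτ : 0 < τ0) (he : 0 ≤ e) :
    τ0 * (u ^ 2 * v ^ 14) * (4 / (τ0 * (u ^ 2 * v ^ 14)) * (t * u + t * u * (1 + v))) ^ 2
      * (2 * (t * u + t * u * (1 + v))) ^ e
      ≤ 144 * t ^ 2 * (6 * t) ^ e / τ0 * ((ν ^ e) ^ k / v ^ 14) := by
  have hu0 : 0 < u := by rw [hu]; positivity
  have hH : t * u + t * u * (1 + v) ≤ 3 * (t * u) := by nlinarith [mul_pos ht hu0]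
  have hue : (2 * (3 * (t * u))) ^ e = (6 * t) ^ e * (ν ^ e) ^ k := by
    rw [show 2 * (3 * (t * u)) = 6 * t * u by ring, Real.mul_rpow (by positivity) hu0.le, hu,
      ← Real.rpow_natCast, ← Real.rpow_natCast, ← Real.rpow_mul hν.le, ← Real.rpow_mul hν.le,
      mul_comm e]
  calc _ ≤ τ0 * (u ^ 2 * v ^ 14) * (4 / (τ0 * (u ^ 2 * v ^ 14)) * (3 * (t * u))) ^ 2
        * (2 * (3 * (t * u))) ^ e := by gcongr
    _ = _ := by rw [hue]; field_simp; norm_num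

lemma parEx_H3 {a v : ℝ} (ha : 0 < a) (hv : v ≤ 1) : a + a * (1 + v) ≤ 3 * a := by nlinarith

lemma parEx_H2 {a v : ℝ} (ha : 0 < a) (hv : 0 < v) : 2 * a ≤ a + a * (1 + v) := by nlinarith

lemma parEx_W {a v : ℝ} (ha : 0 < a) (hv : 0 < v) : a ≤ a * (1 + v) := by nlinarith

lemma parEx_sq {r t : ℝ} (h0 : 0 < r) (h1 : r ≤ t) (h2 : t ≤ 1 / 24) :
    r ^ 2 ≤ 1 / 48 ∧ r ^ 2 ≤ t := by
  constructor <;> nlinarith

lemma parEx {T p : ℝ} (hT : 0 < T) (hp : 0 < p) (N L : ℕ) {ν θ : ℝ} (hL : 0 < L) (hLN : L ≤ N)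
    (hν : 0 < ν) (hν3 : ν ≤ 1 / 3) (hθ : 0 < θ) (hθ1 : θ < 1) (h1 : L * ν ≤ 1)
    (h2 : 4 * N * ν ^ 2 ≤ 1) (c1 : N * ν ^ (2 / p) < θ ^ 14) (c2 : (L : ℝ) ^ 2 * ν < N * θ ^ 4)
    (c3 : N * ν < L) :
    ∃ P : Par T p, ∃ r t : ℝ, 0 < r ∧ 0 < t ∧ P.Nt = N ∧ P.Nl = L ∧
      (∀ k, P.S k = 6 / (r * (ν * θ ^ 2) ^ k)) ∧ (∀ k, r * (ν * θ ^ 2) ^ k ≤ P.W k) ∧
      ∀ k, t * ν ^ k ≤ P.W k := by
  have hL' : (0 : ℝ) < L := by exact_mod_cast hL
  have hN' : (0 : ℝ) < N := by exact_mod_cast hL.trans_le hLN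
  obtain ⟨t, ht, ht1, ht2⟩ : ∃ t : ℝ, 0 < t ∧ t ≤ 1 / 24 ∧ t < T :=
    ⟨min (1 / 24) (T / 2), by positivity, min_le_left _ _,
      (min_le_right _ _).trans_lt (by linarith)⟩
  obtain ⟨c, hc, hc1, hc2⟩ : ∃ c : ℝ, 0 < c ∧ c ≤ ν / 2 ∧ 4 * L * c ≤ 1 - θ := by
    refine ⟨min (ν / 2) ((1 - θ) / (4 * L)), lt_min (by positivity)
      (div_pos (by linarith) (by positivity)), min_le_left _ _, ?_⟩
    have := min_le_right (ν / 2) ((1 - θ) / (4 * L))
    rw [le_div_iff₀ (by positivity)] at this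
    linarith
  obtain ⟨η, hη⟩ : ∃ η : ℝ, η = (1 - θ) / 8 := ⟨_, rfl⟩
  have hη0 : 0 < η := by rw [hη]; linarith
  have hη1 : η ≤ 1 := by rw [hη]; linarith
  obtain ⟨δ, hδ, hδ1, hδ2⟩ : ∃ δ : ℝ, 0 < δ ∧ δ ≤ 1 ∧ 192 * δ ^ 2 ≤ η :=
    ⟨η / 192, by positivity, by linarith only [hη1], by nlinarith only [hη0, hη1]⟩
  obtain ⟨κ0, hκ⟩ : ∃ κ0 : ℝ, κ0 = η * (δ * c * t) * (ν * θ ^ 2) / (144 * t) := ⟨_, rfl⟩
  obtain ⟨l0, hl⟩ : ∃ l0 : ℝ, l0 = η * (δ * c * t) * (ν * θ ^ 2) / 12 := ⟨_, rfl⟩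
  have hκ0 : 0 < κ0 := by rw [hκ]; positivity
  have hl0 : 0 < l0 := by rw [hl]; positivity
  have hc3 : c ≤ 1 := by linarith
  have hκ1 : κ0 ≤ 1 := by
    have : κ0 = η * δ * c * ν * θ * θ / 144 := by rw [hκ]; field_simp
    rw [this]
    calc η * δ * c * ν * θ * θ / 144 ≤ 1 * 1 * 1 * 1 * 1 * 1 / 144 := by gcongr; linarith
      _ ≤ 1 := by norm_num
  obtain ⟨τ0, hτ, hτ1, hτ2, hτ3⟩ : ∃ τ0 : ℝ, 0 < τ0 ∧ 4 * N * τ0 ≤ (δ * c * t) ^ 2 ∧
      τ0 ≤ t ^ 2 ∧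
      τ0 * (666 * t * (100 * (1 / κ0 + 12 / c)) ^ 2) ≤ η * (δ * c * t) ^ 2 * l0 := by
    refine ⟨min ((δ * c * t) ^ 2 / (4 * N)) (min (t ^ 2)
      (η * (δ * c * t) ^ 2 * l0 / (666 * t * (100 * (1 / κ0 + 12 / c)) ^ 2))),
      by positivity, ?_, (min_le_right _ _).trans (min_le_left _ _), ?_⟩
    · rw [mul_comm, ← le_div_iff₀ (by positivity)]
      exact min_le_left _ _
    · rw [← le_div_iff₀ (by positivity)]
      exact (min_le_right _ _).trans (min_le_right _ _)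
  obtain ⟨x, hx⟩ : ∃ x : ℝ, x = ν ^ (2 / p) / θ ^ 14 := ⟨_, rfl⟩
  have hx0 : 0 < x := by rw [hx]; positivity
  have hx1 : N * x < 1 := by
    rw [hx, ← mul_div_assoc, div_lt_one (by positivity)]
    exact c1
  obtain ⟨a, ha⟩ : ∃ a : ℝ, a = 144 * t ^ 2 * (6 * t) ^ (2 / p) / τ0 := ⟨_, rfl⟩
  have ha0 : 0 < a := by rw [ha]; positivity
  have hu : ∀ k : ℕ, 0 < ν ^ k := fun k => by positivity
  have hu1 : ∀ k : ℕ, ν ^ k ≤ 1 := fun k => pow_le_one₀ hν.le (by linarith)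
  have hv : ∀ k : ℕ, 0 < θ ^ k := fun k => by positivity
  have hv1 : ∀ k : ℕ, θ ^ k ≤ 1 := fun k => pow_le_one₀ hθ.le hθ1.le
  obtain ⟨ρ, hρ⟩ : ∃ ρ : ℕ → ℝ, ρ = fun k => δ * c * t * (ν ^ k * (θ ^ k) ^ 2) := ⟨_, rfl⟩
  have hρk : ∀ k, ρ k = δ * c * t * (ν ^ k * (θ ^ k) ^ 2) := fun k => by rw [hρ]
  have hρ0 : ∀ k, 0 < ρ k := fun k => by rw [hρk]; positivity
  have hρs : ∀ k, ρ (k + 1) = ρ k * (ν * θ ^ 2) := fun k => by rw [hρk, hρk]; ring
  have hρt : ∀ k, ρ k ≤ t * ν ^ k := fun k => by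
    rw [hρk]
    have := hv1 k
    have := hv k
    calc δ * c * t * (ν ^ k * (θ ^ k) ^ 2) = δ * c * θ ^ k * θ ^ k * (t * ν ^ k) := by ring
      _ ≤ 1 * 1 * 1 * 1 * (t * ν ^ k) := by gcongr
      _ = t * ν ^ k := by ring
  have htu : ∀ k, t * ν ^ k ≤ t := fun k => mul_le_of_le_one_right ht.le (hu1 k)
  have hρ1 : ∀ k, ρ k ≤ 1 := fun k => by linarith [hρt k, htu k]
  have hla : ν * θ ^ 2 ≤ ν := mul_le_of_le_one_right hν.le (hv1 2)
  have hla2 : 4 * N * (ν * θ ^ 2) ^ 2 ≤ 1 := le_trans (by gcongr) h2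
  have hg : ∀ k, ρ k ^ 2 / 2 ≤
      ρ k ^ 2 - N * (ρ (k + 1) ^ 2 + τ0 * ((ν ^ k) ^ 2 * (θ ^ k) ^ 14)) := by
    intro k
    have b1 : 4 * N * ρ (k + 1) ^ 2 ≤ ρ k ^ 2 := by
      rw [hρs]
      calc 4 * N * (ρ k * (ν * θ ^ 2)) ^ 2 = 4 * N * (ν * θ ^ 2) ^ 2 * ρ k ^ 2 := by ring
        _ ≤ 1 * ρ k ^ 2 := by gcongr
        _ = _ := by ring
    have b2 : 4 * N * (τ0 * ((ν ^ k) ^ 2 * (θ ^ k) ^ 14)) ≤ ρ k ^ 2 := by
      rw [hρk]
      have := hv k
      have : (θ ^ k) ^ 10 ≤ 1 := pow_le_one₀ (hv k).le (hv1 k)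
      calc 4 * N * (τ0 * ((ν ^ k) ^ 2 * (θ ^ k) ^ 14))
          = 4 * N * τ0 * (θ ^ k) ^ 10 * ((ν ^ k) ^ 2 * (θ ^ k) ^ 4) := by ring
        _ ≤ (δ * c * t) ^ 2 * 1 * ((ν ^ k) ^ 2 * (θ ^ k) ^ 4) := by gcongr
        _ = _ := by ring
    linarith
  have hH3 : ∀ k, t * ν ^ k + t * ν ^ k * (1 + θ ^ k) ≤ 3 * (t * ν ^ k) := fun k =>
    parEx_H3 (mul_pos ht (hu k)) (hv1 k)
  have hH2 : ∀ k, 2 * (t * ν ^ k) ≤ t * ν ^ k + t * ν ^ k * (1 + θ ^ k) := fun k =>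
    parEx_H2 (mul_pos ht (hu k)) (hv k)
  refine ⟨{ Nt := N
            Nl := L
            W := fun k => t * ν ^ k * (1 + θ ^ k)
            y := fun k => t * ν ^ k
            ℓ := fun k => c * t * (ν ^ k * θ ^ k)
            g := fun k => ρ k ^ 2 - N * (ρ (k + 1) ^ 2 + τ0 * ((ν ^ k) ^ 2 * (θ ^ k) ^ 14))
            τ := fun k => τ0 * ((ν ^ k) ^ 2 * (θ ^ k) ^ 14)
            D := fun k => ρ k ^ 2
            κ := fun k => κ0 * (θ ^ k) ^ 3
            lam := fun k => l0 * (ν ^ k * (θ ^ k) ^ 3)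
            ε := fun k => 4 * η * θ ^ k
            S := fun k => 6 / ρ k
            R := fun k => N * a / (1 - N * x) * x ^ k
            M := fun k => parExM (ρ k)
            Nl_pos := hL
            Nl_le := hLN
            W_pos := fun k => by positivity
            y_pos := fun k => by positivity
            ℓ_pos := fun k => by positivity
            g_pos := fun k => lt_of_lt_of_le (by have := hρ0 k; positivity) (hg k)
            τ_pos := fun k => by positivity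
            D_pos := fun k => by have := hρ0 k; positivity
            κ_pos := fun k => by positivity
            κ_le := fun k => mul_le_one₀ hκ1 (by positivity) (pow_le_one₀ (hv k).le (hv1 k))
            lam_pos := fun k => by positivity
            R_nonneg := fun k => by
              have : 0 < 1 - N * x := by linarith
              positivity
            M_pos := fun k => by unfold parExM; positivity
            M_dvd := fun k => parExM_dvd (hρ0 _) (by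
              rw [hρs]
              exact mul_le_of_le_one_right (hρ0 k).le (by linarith only [hla, hν3]))
            D_eq := fun k => by ring
            D_le := fun k => (parEx_sq (hρ0 k) ((hρt k).trans (htu k)) ht1).1
            D_lt := (parEx_sq (hρ0 0) ((hρt 0).trans (htu 0)) ht1).2.trans_lt ht2
            W_ge := ?_
            y_ge := ?_
            y_low := ?_
            H_le := fun k => by linarith [hH3 k, htu k]
            S_ge := fun k => parEx_S (hρ0 k) (hρ1 k) (hg k) (parExM_ge _)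
            τ_le := ?_
            M_ge := ?_
            loss := ?_
            ε_sum := ?_
            src_err := ?_
            R_ge := ?_
            R_lim := ?_
            D_sum := ?_
            mark_lim := ?_ }, δ * c * t, t, by positivity, ht, rfl, rfl, ?_, ?_, ?_⟩
  · intro k
    have a0 := mul_pos ht (hu k)
    have a1 := hv k
    calc L * (t * ν ^ (k + 1) * (1 + θ ^ (k + 1)) + 4 * (c * t * (ν ^ k * θ ^ k)))
        = L * ν * (t * ν ^ k * (1 + θ ^ k * θ)) + 4 * L * c * (t * ν ^ k * θ ^ k) := by ring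
      _ ≤ 1 * (t * ν ^ k * (1 + θ ^ k * θ)) + (1 - θ) * (t * ν ^ k * θ ^ k) := by gcongr
      _ = t * ν ^ k * (1 + θ ^ k) := by ring
  · intro k
    have a0 := mul_pos ht (hu k)
    calc _ ≤ 3 * (t * ν ^ (k + 1)) := hH3 (k + 1)
      _ = 3 * ν * (t * ν ^ k) := by ring
      _ ≤ _ := mul_le_of_le_one_left a0.le (by linarith only [hν3])
  · intro k
    have a0 := mul_pos ht (hu k)
    have := hH3 (k + 1)
    have a2 : c * t * (ν ^ k * θ ^ k) ≤ t * ν ^ (k + 1) / 2 := by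
      have := hv k
      have := hv1 k
      calc c * t * (ν ^ k * θ ^ k) = c * θ ^ k * (t * ν ^ k) := by ring
        _ ≤ ν / 2 * 1 * (t * ν ^ k) := by gcongr
        _ = t * ν ^ (k + 1) / 2 := by ring
    linarith
  · intro k
    have a0 := mul_pos ht (hu k)
    have a1 : (θ ^ k) ^ 14 ≤ 1 := pow_le_one₀ (hv k).le (hv1 k)
    have := hu k
    calc 3 * (τ0 * ((ν ^ k) ^ 2 * (θ ^ k) ^ 14)) ≤ 4 * (t ^ 2 * ((ν ^ k) ^ 2 * 1)) := by
          gcongr; norm_num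
      _ = (2 * (t * ν ^ k)) ^ 2 := by ring
      _ ≤ _ := pow_le_pow_left₀ (by positivity) (hH2 k) 2
  · intro k
    have a0 := mul_pos ht (hu k)
    have a1 := hρ0 k
    calc 1 / (parExM (ρ k) : ℝ) ≤ 1 / (2 / ρ k) :=
          div_le_div_of_nonneg_left (by norm_num) (by positivity) (parExM_ge _)
      _ = ρ k / 2 := by field_simp
      _ ≤ _ := by linarith [hρt k, hH2 k]
  · intro k
    have hM := parExM_le (hρ0 k) (hρ1 k)
    have hM0 : (0 : ℝ) ≤ parExM (ρ k) := Nat.cast_nonneg _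
    generalize (parExM (ρ k) : ℝ) = M at hM hM0 ⊢
    rw [hρk] at hM
    rw [hρk, hρk, pow_succ ν, pow_succ θ k]
    exact parEx_loss ht hc hδ hδ1 hη0 (hu k) (hv k) (hv1 k) hν hθ hτ hM0 hM hδ2 hκ hl hτ3
  · intro n
    rw [← Finset.mul_sum]
    have a1 : ∑ k ∈ Finset.range n, θ ^ k ≤ (1 - θ)⁻¹ := by
      rw [← tsum_geometric_of_lt_one hθ.le hθ1]
      exact (summable_geometric_of_lt_one hθ.le hθ1).sum_le_tsum _ fun k _ => (hv k).le
    have a2 : 0 < 1 - θ := by linarith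
    calc 4 * η * ∑ k ∈ Finset.range n, θ ^ k ≤ 4 * η * (1 - θ)⁻¹ := by gcongr
      _ = 1 / 2 := by rw [hη]; field_simp; norm_num
  · have a1 : Tendsto (fun k : ℕ => 3 * t * (N * ν / L) ^ k) atTop (𝓝 (3 * t * 0)) :=
      (tendsto_pow_atTop_nhds_zero_of_lt_one (by positivity)
        (by rw [div_lt_one hL']; exact c3)).const_mul _
    rw [mul_zero] at a1
    refine squeeze_zero (fun k => by positivity) (fun k => ?_) a1
    calc (N : ℝ) ^ k / (L : ℝ) ^ k * (t * ν ^ k + t * ν ^ k * (1 + θ ^ k))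
        ≤ (N : ℝ) ^ k / (L : ℝ) ^ k * (3 * (t * ν ^ k)) := by gcongr; exact hH3 k
      _ = 3 * t * (N * ν / L) ^ k := by rw [div_pow, mul_pow]; ring
  · intro k
    have a1 := parEx_cost (e := 2 / p) ht hν rfl (hv k) (hv1 k) hτ (by positivity) (k := k)
    have a2 : (ν ^ (2 / p)) ^ k / (θ ^ k) ^ 14 = x ^ k := by
      rw [hx, div_pow, ← pow_mul, ← pow_mul, mul_comm k]
    rw [a2, ← ha] at a1
    have a3 : 0 < 1 - N * x := by linarith
    calc _ ≤ N * (N * a / (1 - N * x) * x ^ (k + 1) + a * x ^ k) := by gcongr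
      _ = N * a / (1 - N * x) * x ^ k := by field_simp; ring
  · have a1 : Tendsto (fun k : ℕ => N * a / (1 - N * x) * (N * x) ^ k) atTop
        (𝓝 (N * a / (1 - N * x) * 0)) :=
      (tendsto_pow_atTop_nhds_zero_of_lt_one (by positivity) hx1).const_mul _
    rw [mul_zero] at a1
    refine a1.congr fun k => ?_
    rw [mul_pow]; ring
  · have a1 : Summable fun k : ℕ => (δ * c * t) ^ 2 * (N * (ν * θ ^ 2) ^ 2) ^ k :=
      (summable_geometric_of_lt_one (by positivity) (by linarith)).mul_left _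
    refine a1.congr fun k => ?_
    rw [hρk, mul_pow (N : ℝ), ← pow_mul, mul_comm 2 k, pow_mul, mul_pow ν, ← pow_mul θ 2 k,
      mul_comm 2 k, pow_mul]
    ring
  · have a1 : Tendsto (fun k : ℕ => (δ * c * t) ^ 2 / (54 * t ^ 3) * (N * θ ^ 4 / (L ^ 2 * ν)) ^ k)
        atTop atTop :=
      (tendsto_pow_atTop_atTop_of_one_lt
        (by rw [one_lt_div (by positivity)]; exact c2)).const_mul_atTop (by positivity)
    refine tendsto_atTop_mono (fun k => ?_) a1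
    have := hu k
    have := hv k
    have := hρ0 k
    have g0 := lt_of_lt_of_le (by positivity) (hg k)
    calc (δ * c * t) ^ 2 / (54 * t ^ 3) * (N * θ ^ 4 / (L ^ 2 * ν)) ^ k
        = (N : ℝ) ^ k * (ρ k ^ 2 / 2) / ((L : ℝ) ^ (2 * k) * (3 * (t * ν ^ k)) ^ 3) := by
          rw [hρk, div_pow, mul_pow (N : ℝ), mul_pow ((L : ℝ) ^ 2), ← pow_mul θ 4 k, mul_comm 4 k,
            pow_mul θ k 4, ← pow_mul (L : ℝ) 2 k]
          field_simp
          norm_num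
      _ ≤ _ := by
          gcongr
          · exact hg k
          · exact hH3 k
  · intro k
    simp only [hρk]
    rw [mul_pow ν, ← pow_mul θ 2 k, mul_comm 2 k, pow_mul]
  · intro k
    have a1 := hρt k
    rw [hρk] at a1
    rw [mul_pow ν, ← pow_mul θ 2 k, mul_comm 2 k, pow_mul]
    exact a1.trans (parEx_W (mul_pos ht (hu k)) (hv k))
  · intro k
    exact parEx_W (mul_pos ht (hu k)) (hv k)

lemma parEx_near {P : ℝ → Prop} (h : ∀ᶠ θ in 𝓝 (1 : ℝ), P θ) : ∃ θ, 0 < θ ∧ θ < 1 ∧ P θ := by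
  have h1 : ∀ᶠ θ in 𝓝[<] (1 : ℝ), P θ := h.filter_mono nhdsWithin_le_nhds
  have h2 : ∀ᶠ θ in 𝓝[<] (1 : ℝ), 0 < θ :=
    (lt_mem_nhds (show (0 : ℝ) < 1 by norm_num)).filter_mono nhdsWithin_le_nhds
  have h3 : ∀ᶠ θ in 𝓝[<] (1 : ℝ), θ < 1 := self_mem_nhdsWithin
  obtain ⟨θ, a, b, c⟩ := (h2.and (h3.and h1)).exists
  exact ⟨θ, a, b, c⟩

lemma parEx_pow {a : ℝ} (h : a < 1) (n : ℕ) : ∀ᶠ θ in 𝓝 (1 : ℝ), a < θ ^ n :=
  continuousAt_const.eventually_lt (continuous_pow n).continuousAt (by simpa using h)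

theorem exists_par_fin {T p q : ℝ} (hT : 0 < T) (hp : 0 < p) (hq : 1 < q)
    (hpq : 1 < 2 / p + 1 / q) :
    ∃ P : Par T p, P.Nt = P.Nl ∧ (∀ k, 1 / P.W k ≤ 2 * P.S k) ∧ ∃ B : ℕ → ℝ,
      (∀ k, 2 / (P.Nl : ℝ) ^ k * P.S k ^ (1 - 1 / q) ≤ B k) ∧
      (∀ k, P.Nt * (2 / (P.Nl : ℝ) ^ (k + 1) * P.S (k + 1) ^ (1 - 1 / q)) + B (k + 1) ≤ B k) := by
  obtain ⟨r, hr⟩ : ∃ r : ℝ, r = 1 - 1 / q := ⟨_, rfl⟩
  have hq1 : 0 < 1 / q := by positivity
  have hq2 : 1 / q < 1 := by rw [div_lt_one (by linarith)]; exact hq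
  have hr0 : 0 < r := by linarith
  obtain ⟨γ, hγ1, hγ2⟩ := exists_between (show r < min 1 (2 / p) from lt_min (by linarith)
    (by linarith))
  have hγ0 : 0 < γ := by linarith
  have hγ3 : γ < 1 := hγ2.trans_le (min_le_left _ _)
  have hγ4 : γ < 2 / p := hγ2.trans_le (min_le_right _ _)
  obtain ⟨ν, hν⟩ : ∃ ν : ℝ, ν = (1 / 4 : ℝ) ^ (1 / γ) := ⟨_, rfl⟩
  have hν0 : 0 < ν := by rw [hν]; positivity
  have hνγ : ν ^ γ = 1 / 4 := by
    rw [hν, ← Real.rpow_mul (by norm_num), one_div_mul_cancel hγ0.ne', Real.rpow_one]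
  have hν1 : ν < 1 := by
    rw [hν]
    exact Real.rpow_lt_one (by norm_num) (by norm_num) (by positivity)
  have a1 : ν < 1 / 4 := by
    have := Real.rpow_lt_rpow_of_exponent_gt hν0 hν1 hγ3
    rwa [Real.rpow_one, hνγ] at this
  have a2 : ν ^ (2 / p) < 1 / 4 := by
    have := Real.rpow_lt_rpow_of_exponent_gt hν0 hν1 hγ4
    rwa [hνγ] at this
  have a3 : 1 / 4 < ν ^ r := by
    have := Real.rpow_lt_rpow_of_exponent_gt hν0 hν1 hγ1
    rwa [hνγ] at this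
  have e3 : ∀ᶠ θ in 𝓝 (1 : ℝ), 1 / 4 < (ν * θ ^ 2) ^ r := by
    refine continuousAt_const.eventually_lt ?_ (by simpa using a3)
    exact ContinuousAt.rpow_const (by fun_prop) (Or.inr hr0.le)
  obtain ⟨θ, hθ, hθ1, b1, b2, b3⟩ := parEx_near
    ((parEx_pow (show 4 * ν ^ (2 / p) < 1 by linarith) 14).and
      ((parEx_pow (show 4 * ν < 1 by linarith) 4).and e3))
  obtain ⟨P, ρ, t, hρ, ht, hN, hL, hS, hW, -⟩ := parEx hT hp 4 4 (by norm_num) le_rfl hν0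
    (by linarith) hθ hθ1 (by push_cast; linarith) (by push_cast; nlinarith)
    (by push_cast; exact b1) (by push_cast; linarith) (by push_cast; linarith)
  obtain ⟨la, hla⟩ : ∃ la : ℝ, la = ν * θ ^ 2 := ⟨_, rfl⟩
  rw [← hla] at hS hW b3
  have hla0 : 0 < la := by rw [hla]; positivity
  refine ⟨P, by rw [hN, hL], fun k => ?_, ?_⟩
  · rw [hS]
    have h0 : 0 < ρ * la ^ k := by positivity
    calc 1 / P.W k ≤ 1 / (ρ * la ^ k) := div_le_div_of_nonneg_left (by norm_num) h0 (hW k)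
      _ ≤ 12 / (ρ * la ^ k) := by gcongr; norm_num
      _ = 2 * (6 / (ρ * la ^ k)) := by ring
  · obtain ⟨z, hz⟩ : ∃ z : ℝ, z = 1 / (4 * la ^ r) := ⟨_, rfl⟩
    have hz0 : 0 < z := by rw [hz]; positivity
    have hz1 : z < 1 := by rw [hz, div_lt_one (by positivity)]; linarith
    have hb : ∀ k, 2 / (P.Nl : ℝ) ^ k * P.S k ^ (1 - 1 / q) = 2 * (6 / ρ) ^ r * z ^ k := by
      intro k
      rw [← hr, hS, hL, ← div_div, Real.div_rpow (by positivity) (by positivity), hz,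
        ← Real.rpow_natCast la k, ← Real.rpow_mul hla0.le, mul_comm (k : ℝ) r,
        Real.rpow_mul hla0.le, Real.rpow_natCast, div_pow, mul_pow, one_pow]
      push_cast
      field_simp
    have h1 : 0 < 1 - z := by linarith
    refine ⟨fun k => (1 + 4 / (1 - z)) * (2 * (6 / ρ) ^ r * z ^ k), fun k => ?_, fun k => ?_⟩
    · rw [hb]
      exact le_mul_of_one_le_left (by positivity) (le_add_of_nonneg_right (by positivity))
    · rw [hb, hN]
      have h2 : (4 + (1 + 4 / (1 - z))) * z ≤ 1 + 4 / (1 - z) := by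
        have : 4 / (1 - z) * (1 - z) = 4 := by field_simp
        nlinarith
      push_cast
      calc _ = (4 + (1 + 4 / (1 - z))) * z * (2 * (6 / ρ) ^ r * z ^ k) := by ring
        _ ≤ _ := by gcongr

theorem exists_par_top {T p : ℝ} (hT : 0 < T) (hp : 0 < p) (hp2 : p < 2) :
    ∃ P : Par T p, ∃ A : ℝ, ∀ k, 1 / ((P.Nl : ℝ) ^ k * P.W k) ≤ A := by
  have he : 0 < 2 / p - 1 := by rw [sub_pos, one_lt_div hp]; exact hp2
  have e1 : ∀ᶠ L : ℕ in atTop, (L : ℝ) ^ (-(2 / p - 1)) < 1 / 2 :=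
    ((tendsto_rpow_neg_atTop he).comp tendsto_natCast_atTop_atTop).eventually
      (gt_mem_nhds (by norm_num))
  obtain ⟨L, h8, hL⟩ := ((eventually_ge_atTop 8).and e1).exists
  have h8' : (8 : ℝ) ≤ L := by exact_mod_cast h8
  have hL0 : (0 : ℝ) < L := by linarith
  have a1 : 2 * L * (1 / (L : ℝ)) ^ (2 / p) < 1 := by
    have : (L : ℝ) ^ (-(2 / p - 1)) = L * (1 / (L : ℝ)) ^ (2 / p) := by
      rw [neg_sub, Real.rpow_sub hL0, Real.rpow_one, Real.div_rpow (by norm_num) hL0.le,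
        Real.one_rpow]
      ring
    rw [this] at hL
    linarith
  obtain ⟨θ, hθ, hθ1, b1, b2⟩ := parEx_near
    ((parEx_pow a1 14).and (parEx_pow (show (1 / 2 : ℝ) < 1 by norm_num) 4))
  obtain ⟨P, ρ, t, -, ht, -, hN, -, -, hW⟩ := parEx hT hp (2 * L) L (ν := 1 / L) (by omega)
    (by omega) (by positivity) (by gcongr; linarith) hθ hθ1 (by rw [mul_one_div_cancel hL0.ne'])
    (by
      push_cast
      rw [show 4 * (2 * (L : ℝ)) * (1 / L) ^ 2 = 8 / L by field_simp; norm_num, div_le_one hL0]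
      exact h8')
    (by push_cast; exact b1)
    (by
      push_cast
      rw [show (L : ℝ) ^ 2 * (1 / L) = L by field_simp]
      nlinarith)
    (by
      push_cast
      rw [show 2 * (L : ℝ) * (1 / L) = 2 by field_simp]
      linarith)
  refine ⟨P, 1 / t, fun k => ?_⟩
  rw [hN]
  apply div_le_div_of_nonneg_left (by norm_num) ht
  calc t = (L : ℝ) ^ k * (t * (1 / L) ^ k) := by rw [div_pow, one_pow]; field_simp
    _ ≤ _ := by gcongr; exact hW k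

end AdvDiff
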