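import Pool.Agent.Lib.MP_0c2f33_an.Field
import Pool.Agent.Lib.MP_0c2f33_an.ParEx

/-!
The approximate solutions produced by the schedule.
-/

open MeasureTheory Set Filter Topology
open scoped ENNReal NNReal

namespace AdvDiff

theorem exists_vel_bound (l : List Phase) : ∃ V, 0 ≤ V ∧ ∀ P ∈ l, P.vel ≤ V := by
  induction l with
  | nil => exact ⟨0, le_rfl, by simp⟩
  | cons P l ih =>
    obtain ⟨V, h0, h⟩ := ih
    refine ⟨max V P.vel, h0.trans (le_max_left _ _), fun Q hQ => ?_⟩
    rcases List.mem_cons.1 hQ with rfl | hQ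
    · exact le_max_right _ _
    · exact (h Q hQ).trans (le_max_left _ _)

theorem exists_steps {K : ℝ} (hK : 0 ≤ K) (n : ℕ) :
    ∃ m : ℕ, 0 < m ∧ K * Real.sqrt (1 / m) ≤ 1 / (n + 1) := by
  obtain ⟨m, hm⟩ := exists_nat_gt ((K * (n + 1)) ^ 2)
  have hm0 : (0 : ℝ) < m := lt_of_le_of_lt (by positivity) hm
  refine ⟨m, by exact_mod_cast hm0, ?_⟩
  have h1 : K * (n + 1) ≤ Real.sqrt m := Real.le_sqrt_of_sq_le hm.le
  have h2 := Real.sqrt_pos.2 hm0
  rw [one_div, Real.sqrt_inv, ← div_eq_mul_inv, div_le_div_iff₀ h2 (by positivity), one_mul]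
  exact h1

theorem tot_serr_expand (m : ℕ) (l : List Phase) :
    tot Phase.serr (expand m l) = tot Phase.serr l := by
  induction l with
  | nil => rfl
  | cons P l ih =>
    rw [expand_cons, tot_append, tot_replicate, ih, tot_cons]
    cases P <;> simp [Phase.cnt, Phase.serr]

namespace Par

variable {T : ℝ} {p : ℝ≥0∞} (P : Par T p.toReal)

theorem approx (hp : 0 < p.toReal) {q : ℝ≥0∞} (C : ℝ≥0)
    (hC : ∀ m n, 0 < m → ∀ t, 0 ≤ t →
      eLpNorm (traj m (expand m (P.node n 0)) (fun _ => 0) t) q volume ≤ C) :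
    Nonempty (Approx2D T p q) := by
  classical
  choose V hV0 hV using fun n => exists_vel_bound (P.node n 0)
  have hD := P.D_pos 0
  choose m hm hm' using fun n => exists_steps
    (K := P.amp n * (110 * (1 + V n) ^ 2) * P.D 0) (by have := P.amp_pos n; positivity) n
  set c := T - P.D 0 with hc
  have hc0 : 0 < c := sub_pos.2 P.D_lt
  have ok := fun n => forall_expand (m := m n) (P.node_OK n 0)
  have am := fun n => forall_expand (m := m n) (P.node_amp (B := P.amp n) n 0 (by rw [zero_add]))
  have bb : ∀ n t x, |(look Phase.dur (P.node n 0) t).b₁ x| ≤ V n ∧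
      |(look Phase.dur (P.node n 0) t).b₂ x| ≤ V n := by
    intro n t x
    rcases look_mem (d := Phase.dur) (l := P.node n 0) t with h | h
    · exact ⟨(Phase.abs_b_le (P.node_OK _ _ _ h) x).1.trans (hV n _ h),
        (Phase.abs_b_le (P.node_OK _ _ _ h) x).2.trans (hV n _ h)⟩
    · rw [h]; simpa [Phase.b₁, Phase.b₂] using hV0 n
  have mlt : MeasurableSet {z : ℝ × X2 | z.1 < c} := measurableSet_lt measurable_fst measurable_const
  have mu : ∀ n, Measurable fun z : ℝ × X2 => if z.1 < c then 0 else
      traj (m n) (expand (m n) (P.node n 0)) (fun _ => 0) (z.1 - c) z.2 := fun n =>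
    Measurable.ite mlt measurable_const (measurable_traj (hm n) (ok n) Cone.zero c)
  have bu : ∀ n (z : ℝ × X2), |if z.1 < c then 0 else
      traj (m n) (expand (m n) (P.node n 0)) (fun _ => 0) (z.1 - c) z.2| ≤ P.amp n := by
    intro n z
    split_ifs
    · simpa using (P.amp_pos n).le
    · exact abs_traj_le (ok n) (am n) (fun _ => by simpa using (P.amp_pos n).le) _ _
  refine ⟨{
    u := fun n z => if z.1 < c then 0 else
      traj (m n) (expand (m n) (P.node n 0)) (fun _ => 0) (z.1 - c) z.2
    b₁ := fun n z => if z.1 < c then 0 else (look Phase.dur (P.node n 0) (z.1 - c)).b₁ z.2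
    b₂ := fun n z => if z.1 < c then 0 else (look Phase.dur (P.node n 0) (z.1 - c)).b₂ z.2
    C := C
    meas_u := mu
    meas_b₁ := fun n => Measurable.ite mlt measurable_const (measurable_look
      (F := fun Q z => Q.b₁ z.2) (fun Q => Q.measurable_b₁.comp measurable_snd) c)
    meas_b₂ := fun n => Measurable.ite mlt measurable_const (measurable_look
      (F := fun Q z => Q.b₂ z.2) (fun Q => Q.measurable_b₂.comp measurable_snd) c)
    bdd_u := fun n => ⟨P.amp n, bu n⟩
    bdd_b := fun n => ⟨V n, fun z => ?_⟩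
    norm_u := fun n t => ?_
    stab := ?_
    tail := fun ε hε => ?_
    div := fun Λ φ φt φx φy φxx φyy hφ n t ht => ?_
    weak := fun Λ φ φt φx φy φxx φyy hφ hT => ?_
    marks := fun K => ?_ }⟩
  · split_ifs
    · simpa using hV0 n
    · exact bb n _ _
  · by_cases ht : t < c
    · simp [ht]
    · simp only [ht, if_false]
      exact hC _ n (hm n) _ (by linarith)
  · refine ae_restrict_of_ae ?_
    have h1 : ∑' n, volume ((fun t => t - c) ⁻¹' {t | 0 ≤ t ∧
        look Phase.dur (P.node (n + 1) 0) t ≠ look Phase.dur (P.node n 0) t}) ≠ ⊤ := by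
      refine ne_top_of_le_ne_top ?_ (ENNReal.tsum_le_tsum fun n =>
        ((measurePreserving_sub_right volume c).measure_preimage_le _).trans (P.volume_mis n))
      rw [← ENNReal.ofReal_tsum_of_nonneg (fun n => by have := P.D_pos n; positivity) P.D_sum]
      exact ENNReal.ofReal_ne_top
    filter_upwards [ae_eventually_notMem h1] with t ht
    obtain ⟨N, hN⟩ := eventually_atTop.1 ht
    refine ⟨N, fun n hn x => ?_⟩
    by_cases h : t < c
    · simp [h]
    · have e : look Phase.dur (P.node n 0) (t - c) = look Phase.dur (P.node N 0) (t - c) := by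
        induction n, hn using Nat.le_induction with
        | base => rfl
        | succ n hn ih =>
          rw [← ih]
          by_contra hne
          exact hN n hn ⟨by linarith, hne⟩
      simp only [h, if_false, e, and_self]
  · have h1 := (ENNReal.tendsto_ofReal P.R_lim)
    rw [ENNReal.ofReal_zero] at h1
    obtain ⟨N, hN⟩ := eventually_atTop.1 (h1.eventually (ge_mem_nhds hε))
    refine ⟨N, fun k n hk hn => ?_⟩
    have key : ∀ b : Phase → X2 → ℝ, ∫⁻ t in Ioo 0 T, eLpNorm (fun x =>
        (if t < c then 0 else b (look Phase.dur (P.node n 0) (t - c)) x)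
        - if t < c then 0 else b (look Phase.dur (P.node k 0) (t - c)) x) p volume ^ 2
        ≤ Cost (fun Q Q' => eLpNorm (fun x => b Q x - b Q' x) p volume ^ 2)
          (P.node n 0) (P.node k 0) := by
      intro b
      refine (setLIntegral_le_lintegral _ _).trans (le_of_eq ?_)
      rw [Cost, ← setLIntegral_shift _ c, ← lintegral_indicator measurableSet_Ici]
      congr 1
      funext t
      by_cases h : t < c
      · rw [indicator_of_notMem (by simpa using h)]; simp [h]
      · rw [indicator_of_mem (by simpa using h)]; simp only [h, if_false]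
    exact ⟨(key Phase.b₁).trans ((cost_b p P hp hn).1.trans (hN k hk)),
      (key Phase.b₂).trans ((cost_b p P hp hn).2.trans (hN k hk))⟩
  · by_cases h : t < c
    · simp [h]
    · simp only [h, if_false]
      exact hφ.div_zero ⟨ht.1.le, ht.2.le⟩ _
  · have hΛ := hφ.nonneg (t := c) ⟨hc0.le, by linarith⟩
    have lim : Tendsto (fun n : ℕ => Λ * (1 / ((n : ℝ) + 1))
        + Λ * (2 * ((P.Nt : ℝ) ^ n / (P.Nl : ℝ) ^ n * (P.y n + P.W n)))) atTop (𝓝 0) := by
      have := (tendsto_one_div_add_atTop_nhds_zero_nat.const_mul Λ).add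
        ((P.src_err.const_mul 2).const_mul Λ)
      simpa using this
    refine squeeze_zero_norm (fun n => ?_) lim
    have hm1 : (1 : ℝ) ≤ m n := by exact_mod_cast hm n
    have w := hφ.weak_run (hm n) (ok n) (am n) (forall_expand (hV n)) (hV0 n) (η := 1 / m n)
      (forall_expand fun Q hQ => ?_) ((div_le_one (by linarith)).2 hm1) hc0.le
      (by rw [tot_expand (hm n), tot_node]; linarith) Cone.zero
      (fun _ => by simpa using (P.amp_pos n).le)
    · rw [tot_expand (hm n), tot_node, tot_serr_expand, show c + P.D 0 = T by linarith] at w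
      simp only [hT, mul_zero, zero_mul, integral_zero, sub_zero, zero_sub, abs_neg] at w
      have e1 : tot Phase.serr (P.node n 0)
          = 2 * ((P.Nt : ℝ) ^ n / (P.Nl : ℝ) ^ n * (P.y n + P.W n)) := by
        have hW := P.W_pos n
        have hNl : (0 : ℝ) < P.Nl := by exact_mod_cast P.Nl_pos
        rw [node, tot_append, P.tot_pre_src (fun _ _ => rfl) (fun _ _ => rfl)]
        simp only [zero_add, Phase.serr, amp, H, add_sub_cancel_left, last, tot_cons, tot_nil,
          add_zero]
        field_simp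
      have e2 := mul_le_mul_of_nonneg_left (hm' n) hΛ
      rw [e1] at w
      rw [Real.norm_eq_abs, setIntegral_eq_of_subset_of_forall_sdiff_eq_zero (s := Ico c T)
        measurableSet_Ioo (fun t ht => ⟨hc0.trans_le ht.1, ht.2⟩) fun t ht => by
          have : t < c := by
            by_contra h
            exact ht.2 ⟨not_lt.1 h, ht.1.2⟩
          simp [this]]
      rw [intervalIntegral.integral_of_le (by linarith), integral_Ioc_eq_integral_Ioo,
        ← integral_Ico_eq_integral_Ioo] at w
      refine le_trans (le_of_eq ?_) (w.trans (by linarith))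
      congr 1
      refine setIntegral_congr_fun measurableSet_Ico fun t ht => ?_
      have h1 : ¬ t < c := not_lt.2 ht.1
      simp only [h1, if_false, Lop]
      rw [look_expand (hm n) (P.node_OK n 0) (by linarith [ht.1])]
    · have h1 := P.node_OK n 0 Q hQ
      have h2 : Q.dur ≤ 1 := by
        cases Q with
        | rest D l => exact h1.2.trans (by norm_num)
        | flip τ F => exact h1.2.trans (by norm_num)
        | src A lo hi => exact zero_le_one
      rw [Phase.sdur, div_le_div_iff₀ (by linarith) (by linarith)]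
      nlinarith
  · obtain ⟨k, hk⟩ := (((tendsto_add_atTop_iff_nat 1).2 P.mark_lim).eventually
      (eventually_ge_atTop ((20000 * K) ^ 2))).exists
    have hNl : (0 : ℝ) < P.Nl := by exact_mod_cast P.Nl_pos
    have hNt := P.one_le_Nt
    have hg := P.g_pos (k + 1)
    have hH := P.H_pos (k + 1)
    set G := (fun t => t - c) ⁻¹' P.marked (k + 1) with hG
    have mG : MeasurableSet G := (P.measurableSet_marked _).preimage (by fun_prop)
    have vG : volume G = ENNReal.ofReal ((P.Nt : ℝ) ^ (k + 1) * P.g (k + 1)) := by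
      rw [(measurePreserving_sub_right volume c).measure_preimage
        (P.measurableSet_marked _).nullMeasurableSet, volume_marked]
    have vG' : (volume G).toReal = (P.Nt : ℝ) ^ (k + 1) * P.g (k + 1) := by
      rw [vG, ENNReal.toReal_ofReal (by positivity)]
    have sG : G ⊆ Ioo 0 T := fun t ht =>
      ⟨by linarith [ht.1], by linarith [P.marked_lt ht]⟩
    refine ⟨G, P.H (k + 1), mG, sG, hH, by rw [vG']; positivity, ?_⟩
    filter_upwards [eventually_ge_atTop (k + 1)] with n hn
    obtain ⟨r, rfl⟩ : ∃ r, n = r + (k + 1) := ⟨n - (k + 1), by omega⟩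
    obtain ⟨A, hA⟩ := (dpsi_cone hH).bm.2
    have ii := ii_of_bound (F := fun z => (if z.1 < c then 0 else
        traj (m (r + (k + 1))) (expand (m (r + (k + 1))) (P.node (r + (k + 1)) 0)) (fun _ => 0)
          (z.1 - c) z.2) * dpsi (P.H (k + 1)) z.2.2)
      ((mu _).mul ((dpsi_cone hH).bm.1.comp measurable_snd)) (a := 0) (b := T) (by linarith)
      (C := P.amp (r + (k + 1)) * A) fun t _ x => by
        rw [abs_mul]
        exact mul_le_mul (bu _ (t, x)) (hA x) (abs_nonneg _) (P.amp_pos _).le
    have i2 := ((intervalIntegrable_iff_integrableOn_Ioo_of_le (by linarith)).1 ii).mono_set sG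
    have low := setIntegral_ge_of_const_le mG (by rw [vG]; exact ENNReal.ofReal_ne_top)
      (c := 1 / (20000 * (P.Nl : ℝ) ^ (k + 1))) (fun t ht => ?_) i2
    · refine le_trans ?_ low
      rw [measureReal_def, vG', smul_eq_mul]
      set a := (P.Nt : ℝ) ^ (k + 1) * P.g (k + 1) with ha
      have ha0 : 0 < a := by positivity
      refine (le_abs_self _).trans (abs_le_of_sq_le_sq' ?_ (by positivity)).2
      change (20000 * K) ^ 2 ≤ a / ((P.Nl : ℝ) ^ (2 * (k + 1)) * P.H (k + 1) ^ 3) at hk
      rw [le_div_iff₀ (by positivity), pow_mul'] at hk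
      rw [sq_abs, mul_pow, Real.sq_sqrt (by positivity), mul_one_div, div_pow,
        le_div_iff₀ (by positivity)]
      calc _ = a * ((20000 * K) ^ 2 * (((P.Nl : ℝ) ^ (k + 1)) ^ 2 * P.H (k + 1) ^ 3)) := by ring
        _ ≤ a * a := by gcongr
        _ = _ := by ring
    · have h0 : 0 ≤ t - c := ht.1
      have h1 : ¬ t < c := by linarith
      simp only [h1, if_false]
      refine P.mk_node (hm _) r k (k + 1) 0 (zero_add _) _ Cone.zero _ h0 ?_
      rw [look_expand (hm _) (P.node_OK _ 0) h0]
      exact (P.sameL_node r (k + 1) (k + 1) 0 (zero_add _) _ h0).2 ht.2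

end Par

theorem exists_approx {T : ℝ} (hT : 0 < T) {p q : ℝ≥0∞} (hp0 : p ≠ 0) (hp : p ≠ ⊤) (hq2 : 2 ≤ q)
    (hpq : 1 < 2 * p⁻¹ + q⁻¹) : Nonempty (Approx2D T p q) := by
  have hp' : 0 < p.toReal := ENNReal.toReal_pos hp0 hp
  have hq0 : q ≠ 0 := by rintro rfl; simp at hq2
  have h1 : 1 < 2 / p.toReal + 1 / q.toReal := by
    have a : 2 * p⁻¹ ≠ ⊤ := ENNReal.mul_ne_top (by simp) (ENNReal.inv_ne_top.2 hp0)
    have b : q⁻¹ ≠ ⊤ := ENNReal.inv_ne_top.2 hq0
    have := (ENNReal.toReal_lt_toReal ENNReal.one_ne_top (ENNReal.add_ne_top.2 ⟨a, b⟩)).2 hpq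
    rw [ENNReal.toReal_add a b, ENNReal.toReal_mul, ENNReal.toReal_inv, ENNReal.toReal_inv] at this
    simpa [div_eq_mul_inv] using this
  by_cases hq : q = ⊤
  · subst hq
    simp only [ENNReal.toReal_top, div_zero, add_zero] at h1
    obtain ⟨P, A, hA⟩ := exists_par_top hT hp' (by rwa [one_lt_div hp'] at h1)
    refine P.approx hp' A.toNNReal fun m n hm t _ => ?_
    rw [eLpNorm_exponent_top]
    refine eLpNormEssSup_le_of_ae_bound (Eventually.of_forall fun x => ?_)
    exact abs_traj_le (forall_expand (P.node_OK n 0)) (forall_expand (P.node_amp n 0 (hA _)))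
      (fun _ => by simpa using (P.amp_pos 0).le.trans (hA 0)) t x
  · have hq' : 1 < q.toReal := by
      have := ENNReal.toReal_mono hq hq2
      simp only [ENNReal.toReal_ofNat] at this
      linarith
    obtain ⟨P, hN, hW, B, hB1, hB2⟩ := exists_par_fin hT hp' hq' h1
    refine P.approx hp' (B 0).toNNReal fun m n hm t ht => ?_
    have := (P.nb_node hm hN (le_trans (by norm_num) hq2) hq hW hB1 hB2 n 0 _ Cone.zero).1 t ht
    simpa [ENNReal.ofReal] using this

end AdvDiff
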