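import Pool.Agent.Lib.MP_0c2f33_an.PosDefs

/-!
Averaging operators along a line of the torus.
-/

open MeasureTheory Set
open scoped ENNReal

namespace AdvDiff

instance probCircleP : IsProbabilityMeasure (volume : Measure UnitAddCircle) :=
  ⟨by simp [AddCircle.measure_univ]⟩

instance probX2P : IsProbabilityMeasure (volume : Measure X2) :=
  inferInstanceAs (IsProbabilityMeasure ((volume : Measure UnitAddCircle).prod volume))

instance invX2P : (volume : Measure X2).IsAddRightInvariant :=
  inferInstanceAs ((volume : Measure UnitAddCircle).prod volume).IsAddRightInvariant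

/-- Bounded and measurable. -/
def BM (v : X2 → ℝ) : Prop := Measurable v ∧ ∃ A : ℝ, ∀ x, |v x| ≤ A

namespace BM

variable {v w : X2 → ℝ}

theorem const (c : ℝ) : BM (fun _ => c) := ⟨measurable_const, |c|, fun _ => le_rfl⟩

theorem add (hv : BM v) (hw : BM w) : BM (fun x => v x + w x) := by
  obtain ⟨hv, A, hA⟩ := hv
  obtain ⟨hw, B, hB⟩ := hw
  exact ⟨hv.add hw, A + B, fun x => (abs_add_le _ _).trans (add_le_add (hA x) (hB x))⟩

theorem neg (hv : BM v) : BM (fun x => -v x) := by
  obtain ⟨hv, A, hA⟩ := hv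
  exact ⟨hv.neg, A, fun x => by rw [abs_neg]; exact hA x⟩

theorem sub (hv : BM v) (hw : BM w) : BM (fun x => v x - w x) := by
  simpa [sub_eq_add_neg] using hv.add hw.neg

theorem mul (hv : BM v) (hw : BM w) : BM (fun x => v x * w x) := by
  obtain ⟨hv, A, hA⟩ := hv
  obtain ⟨hw, B, hB⟩ := hw
  refine ⟨hv.mul hw, A * B, fun x => ?_⟩
  rw [abs_mul]
  exact mul_le_mul (hA x) (hB x) (abs_nonneg _) ((abs_nonneg _).trans (hA x))

theorem cmul (c : ℝ) (hv : BM v) : BM (fun x => c * v x) := (const c).mul hv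

theorem abs (hv : BM v) : BM (fun x => |v x|) := by
  obtain ⟨hv, A, hA⟩ := hv
  exact ⟨hv.abs, A, fun x => by rw [abs_abs]; exact hA x⟩

theorem sq (hv : BM v) : BM (fun x => v x ^ 2) := by
  simpa [pow_two] using hv.mul hv

theorem comp (hv : BM v) {f : X2 → X2} (hf : Measurable f) : BM (fun x => v (f x)) := by
  obtain ⟨hv, A, hA⟩ := hv
  exact ⟨hv.comp hf, A, fun x => hA _⟩

theorem integrable_comp (hv : BM v) {α : Type*} [MeasurableSpace α] {μ : Measure α}
    [IsFiniteMeasure μ] {f : α → X2} (hf : Measurable f) : Integrable (fun a => v (f a)) μ := by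
  obtain ⟨hv, A, hA⟩ := hv
  exact Integrable.of_bound (hv.comp hf).aestronglyMeasurable A
    (Filter.Eventually.of_forall fun a => by rw [Real.norm_eq_abs]; exact hA _)

theorem integrable (hv : BM v) : Integrable v := hv.integrable_comp measurable_id

theorem of_cont (hv : Continuous v) : BM v := by
  refine ⟨hv.measurable, ?_⟩
  obtain ⟨A, hA⟩ := (isCompact_univ.image hv).isBounded.exists_norm_le
  exact ⟨A, fun x => hA _ ⟨x, trivial, rfl⟩⟩

end BM

/-- Average of `v` along the line `s ↦ x + e s` with respect to `ν`. -/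
noncomputable def av (e : ℝ →+ X2) (ν : Measure ℝ) (v : X2 → ℝ) (x : X2) : ℝ :=
  ∫ s, v (x + e s) ∂ν

section general

variable {e e' : ℝ →+ X2} {ν ν' : Measure ℝ} [IsProbabilityMeasure ν] [IsProbabilityMeasure ν']
  {v w : X2 → ℝ}

theorem int_line (he : Continuous e) (hv : BM v) (x : X2) :
    Integrable (fun s => v (x + e s)) ν :=
  hv.integrable_comp (by have := he.measurable; fun_prop)

theorem abs_av_le {A : ℝ} (hA : ∀ x, |v x| ≤ A) (x : X2) : |av e ν v x| ≤ A := by
  have := norm_integral_le_of_norm_le_const (μ := ν) (f := fun s => v (x + e s)) (C := A)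
    (Filter.Eventually.of_forall fun s => by rw [Real.norm_eq_abs]; exact hA _)
  simpa [av] using this

theorem BM.av (he : Continuous e) (hv : BM v) : BM (av e ν v) := by
  obtain ⟨hm, A, hA⟩ := hv
  refine ⟨?_, A, abs_av_le hA⟩
  have hf : StronglyMeasurable (fun z : X2 × ℝ => v (z.1 + e z.2)) := by
    have := he.measurable
    exact (hm.comp (by fun_prop)).stronglyMeasurable
  exact hf.integral_prod_right'.measurable

theorem av_add (he : Continuous e) (hv : BM v) (hw : BM w) :
    av e ν (fun x => v x + w x) = fun x => av e ν v x + av e ν w x := by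
  funext x
  exact integral_add (int_line he hv x) (int_line he hw x)

theorem av_sub (he : Continuous e) (hv : BM v) (hw : BM w) :
    av e ν (fun x => v x - w x) = fun x => av e ν v x - av e ν w x := by
  funext x
  exact integral_sub (int_line he hv x) (int_line he hw x)

omit [IsProbabilityMeasure ν] in
theorem av_cmul (c : ℝ) : av e ν (fun x => c * v x) = fun x => c * av e ν v x := by
  funext x
  exact integral_const_mul _ _

theorem av_const (c : ℝ) : av e ν (fun _ => c) = fun _ => c := by
  funext x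
  simp [av]

theorem av_mono (he : Continuous e) (hv : BM v) (hw : BM w) (h : ∀ x, v x ≤ w x) (x : X2) :
    av e ν v x ≤ av e ν w x :=
  integral_mono (int_line he hv x) (int_line he hw x) fun _ => h _

omit [IsProbabilityMeasure ν] in
theorem av_nonneg (h : ∀ x, 0 ≤ v x) (x : X2) : 0 ≤ av e ν v x :=
  integral_nonneg fun _ => h _

omit [IsProbabilityMeasure ν] in
theorem abs_av_le_av (x : X2) : |av e ν v x| ≤ av e ν (fun x => |v x|) x :=
  abs_integral_le_integral_abs

theorem av_comm (he : Continuous e) (he' : Continuous e') (hv : BM v) :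
    av e ν (av e' ν' v) = av e' ν' (av e ν v) := by
  funext x
  have hi : Integrable (Function.uncurry fun (s : ℝ) (s' : ℝ) => v (x + e s + e' s'))
      (ν.prod ν') :=
    hv.integrable_comp (f := fun z : ℝ × ℝ => x + e z.1 + e' z.2)
      (by have := he.measurable; have := he'.measurable; fun_prop)
  have := integral_integral_swap hi
  simp only [av]
  rw [this]
  congr 1
  funext s'
  congr 1
  funext s
  congr 1
  abel

theorem integral_av_mul' (he : Continuous e) (hv : BM v) (hw : BM w) :
    ∫ x, av e ν v x * w x = ∫ s, (∫ x, v (x + e s) * w x) ∂ν := by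
  have hm := he.measurable
  have hi : Integrable (Function.uncurry fun (x : X2) (s : ℝ) => v (x + e s) * w x)
      ((volume : Measure X2).prod ν) := by
    obtain ⟨hv, A, hA⟩ := hv
    obtain ⟨hw, B, hB⟩ := hw
    refine Integrable.of_bound (Measurable.aestronglyMeasurable (by
      unfold Function.uncurry; fun_prop)) (A * B) (Filter.Eventually.of_forall fun z => ?_)
    simp only [Function.uncurry, Real.norm_eq_abs, abs_mul]
    exact mul_le_mul (hA _) (hB _) (abs_nonneg _) ((abs_nonneg _).trans (hA 0))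
  rw [← integral_integral_swap hi]
  congr 1
  funext x
  rw [av, integral_mul_const]

theorem integral_av (he : Continuous e) (hv : BM v) : ∫ x, av e ν v x = ∫ x, v x := by
  have := integral_av_mul' (ν := ν) he hv (BM.const 1)
  simp only [mul_one] at this
  rw [this]
  simp [integral_add_right_eq_self]

theorem integral_av_mul (he : Continuous e) (hs : ν.map (fun s => -s) = ν) (hv : BM v)
    (hw : BM w) : ∫ x, av e ν v x * w x = ∫ x, v x * av e ν w x := by
  have h2 : ∫ x, v x * av e ν w x = ∫ x, av e ν w x * v x := by simp [mul_comm]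
  rw [h2, integral_av_mul' he hv hw, integral_av_mul' he hw hv]
  have h3 : ∀ s, ∫ x, v (x + e s) * w x = ∫ x, w (x + e (-s)) * v x := by
    intro s
    rw [← integral_add_right_eq_self (fun x => w (x + e (-s)) * v x) (e s)]
    congr 1
    funext x
    simp [mul_comm]
  simp_rw [h3]
  conv_rhs => rw [← hs]
  exact ((MeasurableEquiv.neg ℝ).measurableEmbedding.integral_map
    (fun s => ∫ x, w (x + e s) * v x)).symm

theorem eLpNorm_av_le (he : Continuous e) (hv : BM v) {q : ℝ≥0∞} (hq : 1 ≤ q) (hq' : q ≠ ⊤) :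
    eLpNorm (av e ν v) q volume ≤ eLpNorm v q volume := by
  have hm := he.measurable
  have hq0 : q ≠ 0 := by rintro rfl; simp at hq
  have hqr : 0 < q.toReal := ENNReal.toReal_pos hq0 hq'
  have h1 : ∀ x, ‖av e ν v x‖ₑ ^ q.toReal ≤ ∫⁻ s, ‖v (x + e s)‖ₑ ^ q.toReal ∂ν := by
    intro x
    have hms : AEStronglyMeasurable (fun s => v (x + e s)) ν :=
      (hv.1.comp (by fun_prop)).aestronglyMeasurable
    have a1 : ‖av e ν v x‖ₑ ≤ eLpNorm (fun s => v (x + e s)) 1 ν := by
      rw [eLpNorm_one_eq_lintegral_enorm]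
      exact enorm_integral_le_lintegral_enorm _
    have a2 := a1.trans (eLpNorm_le_eLpNorm_of_exponent_le hq hms)
    rw [eLpNorm_eq_lintegral_rpow_enorm_toReal hq0 hq'] at a2
    have a3 := ENNReal.rpow_le_rpow a2 hqr.le
    rwa [← ENNReal.rpow_mul, one_div, inv_mul_cancel₀ hqr.ne', ENNReal.rpow_one] at a3
  rw [eLpNorm_eq_lintegral_rpow_enorm_toReal hq0 hq',
    eLpNorm_eq_lintegral_rpow_enorm_toReal hq0 hq']
  refine ENNReal.rpow_le_rpow ?_ (by positivity)
  refine (lintegral_mono h1).trans ?_
  have hv1 := hv.1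
  rw [lintegral_lintegral_swap (by
    refine Measurable.aemeasurable ?_
    unfold Function.uncurry
    fun_prop)]
  have h2 : ∀ s, ∫⁻ x, ‖v (x + e s)‖ₑ ^ q.toReal = ∫⁻ x, ‖v x‖ₑ ^ q.toReal := fun s =>
    lintegral_add_right_eq_self (fun x => ‖v x‖ₑ ^ q.toReal) (e s)
  simp [h2]

theorem integral_abs_av_le (he : Continuous e) (hv : BM v) :
    ∫ x, |av e ν v x| ≤ ∫ x, |v x| := by
  rw [← integral_av (ν := ν) he hv.abs]
  exact integral_mono (hv.av he).abs.integrable (hv.abs.av he).integrable abs_av_le_av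

/-- The variance is at most the mean square deviation from any constant. -/
theorem av_var_le (he : Continuous e) (hv : BM v) (x : X2) (c : ℝ) :
    av e ν (fun x => v x ^ 2) x - av e ν v x ^ 2 ≤ av e ν (fun x => (v x - c) ^ 2) x := by
  have h1 : (fun x => (v x - c) ^ 2) = fun x => (v x ^ 2 + (-2 * c) * v x) + c ^ 2 := by
    funext x; ring
  rw [h1, av_add he (hv.sq.add (hv.cmul _)) (BM.const _), av_add he hv.sq (hv.cmul _), av_cmul,
    av_const]
  nlinarith [sq_nonneg (av e ν v x - c)]

theorem sq_av_le (he : Continuous e) (hv : BM v) (x : X2) :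
    av e ν v x ^ 2 ≤ av e ν (fun x => v x ^ 2) x := by
  set c := av e ν v x with hc
  have h1 : (fun x => (v x - c) ^ 2) = fun x => (v x ^ 2 + (-2 * c) * v x) + c ^ 2 := by
    funext x; ring
  have h2 : 0 ≤ av e ν (fun x => (v x - c) ^ 2) x := av_nonneg (fun _ => sq_nonneg _) x
  rw [h1, av_add he (hv.sq.add (hv.cmul _)) (BM.const _), av_add he hv.sq (hv.cmul _), av_cmul,
    av_const] at h2
  simp only [← hc] at h2
  nlinarith

theorem integral_sq_av_le (he : Continuous e) (hv : BM v) :
    ∫ x, av e ν v x ^ 2 ≤ ∫ x, v x ^ 2 := by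
  rw [← integral_av (ν := ν) he hv.sq]
  exact integral_mono (hv.av he).sq.integrable (hv.sq.av he).integrable (sq_av_le he hv)

/-- The energy inequality for the positive operator `av ∘ av`. -/
theorem energy_av (he : Continuous e) (hs : ν.map (fun s => -s) = ν) (hv : BM v) (hw : BM w)
    {l : ℝ} (hl : 0 < l) :
    (∫ x, v x * w x) - l / 2 * ((∫ x, v x ^ 2) - ∫ x, av e ν (av e ν v) x ^ 2)
      - 1 / (2 * l) * ((∫ x, w x ^ 2) - ∫ x, av e ν w x ^ 2)
      ≤ ∫ x, av e ν (av e ν v) x * w x := by
  have hav := hv.av (ν := ν) he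
  have haw := hw.av (ν := ν) he
  rw [integral_av_mul he hs hav hw]
  have h1 := integral_sq_av_le (ν := ν) he hav
  have h2 := integral_sq_av_le (ν := ν) he ((hv.cmul l).sub hw)
  rw [av_sub he (hv.cmul l) hw, av_cmul] at h2
  have e1 : ∀ {f g : X2 → ℝ}, BM f → BM g → ∫ x, (l * f x - g x) ^ 2 =
      l ^ 2 * (∫ x, f x ^ 2) - 2 * l * (∫ x, f x * g x) + ∫ x, g x ^ 2 := by
    intro f g hf hg
    have : (fun x => (l * f x - g x) ^ 2)
        = fun x => (l ^ 2 * f x ^ 2 - 2 * l * (f x * g x)) + g x ^ 2 := by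
      funext x; ring
    rw [this, integral_add ((hf.sq.cmul _).sub ((hf.mul hg).cmul _)).integrable hg.sq.integrable,
      integral_sub (hf.sq.cmul _).integrable ((hf.mul hg).cmul _).integrable,
      integral_const_mul, integral_const_mul]
  rw [e1 hv hw, e1 hav haw] at h2
  set a := ∫ x, v x * w x
  set b := ∫ x, v x ^ 2
  set c := ∫ x, av e ν (av e ν v) x ^ 2
  set d := ∫ x, w x ^ 2
  set f := ∫ x, av e ν w x ^ 2
  set g := ∫ x, av e ν v x * av e ν w x
  set k := ∫ x, av e ν v x ^ 2
  have h3 : 2 * l * (a - g) ≤ l ^ 2 * (b - c) + (d - f) := by nlinarith [sq_nonneg l]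
  have h4 : a - g ≤ l / 2 * (b - c) + 1 / (2 * l) * (d - f) := by
    have : l / 2 * (b - c) + 1 / (2 * l) * (d - f)
        = (l ^ 2 * (b - c) + (d - f)) / (2 * l) := by field_simp
    rw [this, le_div_iff₀ (by positivity)]
    linarith
  linarith

end general

end AdvDiff
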