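import Mathlib

/-!
Definitions for the advection-diffusion problem on the flat torus `T^d = ℝ^d / ℤ^d`.
-/

open MeasureTheory Set
open scoped ENNReal

namespace AdvDiff

/-- The flat torus `T^d`; its `volume` is the product of the Haar probability measures. -/
abbrev Tor (d : ℕ) : Type := Fin d → UnitAddCircle

/-- Lebesgue measure on the space-time cylinder `(0,T) × T^d`. -/
noncomputable def cyl (d : ℕ) (T : ℝ) : Measure (ℝ × Tor d) :=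
  (volume.restrict (Ioo (0 : ℝ) T)).prod (volume : Measure (Tor d))

/-- `φ : ℝ × T^d → ℝ` is smooth: its periodic lift to `ℝ × ℝ^d` is `C^∞`. -/
def Smooth {d : ℕ} (φ : ℝ × Tor d → ℝ) : Prop :=
  ContDiff ℝ ((⊤ : ℕ∞) : WithTop ℕ∞) (fun z : ℝ × (Fin d → ℝ) => φ (z.1, fun i => ((z.2 i : ℝ) : UnitAddCircle)))

/-- The time derivative `∂_t φ`. -/
noncomputable def dT {d : ℕ} (φ : ℝ × Tor d → ℝ) (z : ℝ × Tor d) : ℝ :=
  deriv (fun s : ℝ => φ (s, z.2)) z.1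

/-- The space derivative `∂_{x_i} φ`. -/
noncomputable def dX {d : ℕ} (i : Fin d) (φ : ℝ × Tor d → ℝ) (z : ℝ × Tor d) : ℝ :=
  deriv (fun s : ℝ => φ (z.1, z.2 + Pi.single i ((s : ℝ) : UnitAddCircle))) 0

/-- The Laplacian `Δ φ` in the space variables. -/
noncomputable def lap {d : ℕ} (φ : ℝ × Tor d → ℝ) (z : ℝ × Tor d) : ℝ :=
  ∑ i, dX i (dX i φ) z

/-- `φ ∈ C_c^∞([0,T) × T^d)`: smooth and zero from some time `T' < T` on. -/
def TestInit {d : ℕ} (T : ℝ) (φ : ℝ × Tor d → ℝ) : Prop :=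
  Smooth φ ∧ ∃ T' < T, ∀ z : ℝ × Tor d, T' ≤ z.1 → φ z = 0

/-- `φ ∈ C_c^∞((0,T) × T^d)`: smooth and zero outside some `(a, T') × T^d`, `0 < a`, `T' < T`. -/
def TestInt {d : ℕ} (T : ℝ) (φ : ℝ × Tor d → ℝ) : Prop :=
  TestInit T φ ∧ ∃ a > 0, ∀ z : ℝ × Tor d, z.1 ≤ a → φ z = 0

/-- `f ∈ L^r([0,T]; L^p(T^d))`: `f` is measurable on the cylinder and
`t ↦ ‖f(t,·)‖_{L^p(T^d)}` has finite `L^r(0,T)` norm. -/
def MemMixed {d : ℕ} (T : ℝ) (r p : ℝ≥0∞) (f : ℝ × Tor d → ℝ) : Prop :=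
  AEStronglyMeasurable f (cyl d T) ∧
    eLpNorm (fun t : ℝ => eLpNorm (fun x : Tor d => f (t, x)) p volume) r
      (volume.restrict (Ioo (0 : ℝ) T)) < ⊤

/-- The vector field with components `b i` is divergence-free in the sense of distributions. -/
def DivFree {d : ℕ} (T : ℝ) (b : Fin d → ℝ × Tor d → ℝ) : Prop :=
  ∀ φ, TestInt T φ → ∫ z, ∑ i, b i z * dX i φ z ∂(cyl d T) = 0

/-- `u` is a distributional solution of `∂_t u + div (b u) = Δ u` with initial datum `u₀`. -/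
def IsSolution {d : ℕ} (T : ℝ) (b : Fin d → ℝ × Tor d → ℝ) (u₀ : Tor d → ℝ)
    (u : ℝ × Tor d → ℝ) : Prop :=
  ∀ φ, TestInit T φ →
    ∫ z, u z * (dT φ z + ∑ i, b i z * dX i φ z + lap φ z) ∂(cyl d T)
      + ∫ x, u₀ x * φ (0, x) = 0

/-- `u ∈ L²([0,T]; H¹(T^d))`: `u` is square integrable and has a square integrable weak spatial
gradient. -/
def Parabolic {d : ℕ} (T : ℝ) (u : ℝ × Tor d → ℝ) : Prop :=
  MemLp u 2 (cyl d T) ∧ ∃ g : Fin d → ℝ × Tor d → ℝ, (∀ i, MemLp (g i) 2 (cyl d T)) ∧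
    ∀ φ, TestInt T φ → ∀ i,
      ∫ z, u z * dX i φ z ∂(cyl d T) = -∫ z, g i z * φ z ∂(cyl d T)

/-- There are a divergence-free `b ∈ L²([0,T]; L^p)`, a datum `u₀ ∈ L^q` and a distributional
solution `u ∈ L^∞([0,T]; L^q)` with datum `u₀` that is not parabolic. -/
def NonParabolicExists (d : ℕ) (T : ℝ) (p q : ℝ≥0∞) : Prop :=
  ∃ (b : Fin d → ℝ × Tor d → ℝ) (u₀ : Tor d → ℝ) (u : ℝ × Tor d → ℝ),
    (∀ i, MemMixed T 2 p (b i)) ∧ DivFree T b ∧ MemLp u₀ q volume ∧ MemMixed T ⊤ q u ∧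
      IsSolution T b u₀ u ∧ ¬ Parabolic T u

end AdvDiff
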