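import Pool.Agent.Lib.MP_0c2f33_an.Weak

/-!
Consistency of a whole run with the weak formulation.
-/

open MeasureTheory Set
open scoped ENNReal

namespace AdvDiff

variable {T Λ : ℝ} {φ φt φx φy φxx φyy : ℝ × X2 → ℝ}

/-- The adjoint operator applied to the test function, with the drift of the phase `P`. -/
noncomputable def Lop (φt φx φy φxx φyy : ℝ × X2 → ℝ) (P : Phase) (z : ℝ × X2) : ℝ :=
  φt z + (P.b₁ z.2 * φx z + P.b₂ z.2 * φy z) + (φxx z + φyy z)

theorem Phase.vel_nonneg {P : Phase} (hP : P.OK) : 0 ≤ P.vel :=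
  (abs_nonneg _).trans (Phase.abs_b_le hP 0).1

namespace TestData

theorem measurable_Lop (hφ : TestData T Λ φ φt φx φy φxx φyy) (P : Phase) :
    Measurable (Lop φt φx φy φxx φyy P) := by
  have := P.measurable_b₁
  have := P.measurable_b₂
  have := hφ.ht.cont.measurable
  have := hφ.hx.cont.measurable
  have := hφ.hy.cont.measurable
  have := hφ.hxx.cont.measurable
  have := hφ.hyy.cont.measurable
  unfold Lop
  fun_prop

theorem abs_Lop_le (hφ : TestData T Λ φ φt φx φy φxx φyy) {P : Phase} {V : ℝ}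
    (hb : ∀ x, |P.b₁ x| ≤ V ∧ |P.b₂ x| ≤ V) {t : ℝ} (ht : t ∈ Icc 0 T) (x : X2) :
    |Lop φt φx φy φxx φyy P (t, x)| ≤ Λ * (3 + 2 * V) := by
  have hV : 0 ≤ V := (abs_nonneg _).trans (hb 0).1
  have c1 := abs_le.1 (hφ.ht.bound t ht x)
  have c2 := abs_le.1 (hφ.hxx.bound t ht x)
  have c3 := abs_le.1 (hφ.hyy.bound t ht x)
  have c4 : |P.b₁ x * φx (t, x)| ≤ V * Λ := by
    rw [abs_mul]; exact mul_le_mul (hb x).1 (hφ.hx.bound t ht x) (abs_nonneg _) hV
  have c5 : |P.b₂ x * φy (t, x)| ≤ V * Λ := by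
    rw [abs_mul]; exact mul_le_mul (hb x).2 (hφ.hy.bound t ht x) (abs_nonneg _) hV
  have c4' := abs_le.1 c4
  have c5' := abs_le.1 c5
  simp only [Lop]
  rw [abs_le]
  constructor <;> linarith [c1.1, c1.2, c2.1, c2.2, c3.1, c3.2, c4'.1, c4'.2, c5'.1, c5'.2]

theorem one_step (hφ : TestData T Λ φ φt φx φy φxx φyy) {m : ℕ} (hm : 0 < m) {P : Phase}
    (hP : P.OK) {B V η c : ℝ} (hV : P.vel ≤ V) (hη : P.sdur m ≤ η) (hη1 : η ≤ 1) (hc : 0 ≤ c)
    (hT : c + P.sdur m ≤ T) {v : X2 → ℝ} (hv : Cone v) (hB : ∀ x, |v x| ≤ B) :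
    |(∫ x, P.nl m v x * φ (c + P.sdur m, x)) - (∫ x, v x * φ (c, x))
      - ∫ t in c..(c + P.sdur m), ∫ x, v x * Lop φt φx φy φxx φyy P (t, x)|
      ≤ B * Λ * (110 * (1 + V) ^ 2 * Real.sqrt η) * P.sdur m + Λ * P.serr := by
  have hh := hP.sdur_nonneg m
  have hΛ := hφ.nonneg (t := c) ⟨hc, by linarith⟩
  have hB0 : 0 ≤ B := (abs_nonneg _).trans (hB 0)
  have hV0 := Phase.vel_nonneg hP
  have fin : ∀ ζ, ζ ≤ 16 * (P.sdur m * P.vel) →
      B * Λ * (6 * P.box m ^ 3 + 10 * (1 + P.vel) ^ 2 * P.sdur m ^ 2 + 4 * P.sdur m * P.vel * ζ)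
        ≤ B * Λ * (110 * (1 + V) ^ 2 * Real.sqrt η) * P.sdur m := by
    intro ζ hζ
    rw [mul_assoc (B * Λ)]
    refine mul_le_mul_of_nonneg_left ?_ (by positivity)
    have hη0 : 0 ≤ η := hh.trans hη
    have r0 := Real.sqrt_nonneg η
    have r1 : η ≤ Real.sqrt η := Real.le_sqrt_of_sq_le (by nlinarith)
    have r2 : P.box m ≤ 2 * Real.sqrt η :=
      Real.sqrt_le_iff.2 ⟨by positivity, by rw [mul_pow, Real.sq_sqrt hη0]; linarith⟩
    set h := P.sdur m
    set r := Real.sqrt η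
    have a1 : P.box m ^ 3 ≤ 6 * (r * h) := by
      calc P.box m ^ 3 = P.box m * (3 * h) := by rw [← Phase.box_sq hP]; ring
        _ ≤ 2 * r * (3 * h) := by gcongr
        _ = _ := by ring
    have a2 : h ^ 2 ≤ r * h := by nlinarith
    have a3 : (1 + P.vel) ^ 2 * h ^ 2 ≤ (1 + V) ^ 2 * (r * h) := by gcongr
    have a4 : 4 * h * P.vel * ζ ≤ 64 * ((1 + V) ^ 2 * (r * h)) := by
      calc 4 * h * P.vel * ζ ≤ 4 * h * P.vel * (16 * (h * P.vel)) := by gcongr
        _ = 64 * (P.vel ^ 2 * h ^ 2) := by ring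
        _ ≤ _ := by gcongr; linarith
    have a5 : r * h ≤ (1 + V) ^ 2 * (r * h) :=
      le_mul_of_one_le_left (by positivity) (one_le_pow₀ (by linarith))
    linarith
  cases P with
  | rest D l =>
    have := hφ.move_step (MeasurePreserving.id volume) (b₁ := fun _ => 0) (b₂ := fun _ => 0)
      measurable_const measurable_const (V := 0) (by simp) hh (Phase.box_nonneg m _)
      (Phase.box_sq hP m) hc hT le_rfl MeasurableSet.empty (by simp)
      (fun x => ⟨0, 0, by simp, by simp, by simp, fun _ => by simp⟩) hv.bm hB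
    refine this.trans (le_trans (fin 0 (by simp [Phase.vel])) ?_)
    simp [Phase.serr]
  | flip τ F =>
    obtain ⟨a0, a2⟩ := Phase.two_div_bounds hm
    obtain ⟨Z, hZ, hZ', hd⟩ := F.map_consistent a0 a2
    have hτ : 0 < τ := hP.1
    have hm' : (0 : ℝ) < m := by exact_mod_cast hm
    have e : (Phase.flip τ F).sdur m * (4 / τ) = 2 / m := by
      simp only [Phase.sdur, Phase.dur]; field_simp; ring
    have := hφ.move_step (F.map_mp a0 a2) (Phase.flip τ F).measurable_b₁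
      (Phase.flip τ F).measurable_b₂ (Phase.abs_b_le hP) hh (Phase.box_nonneg m _)
      (Phase.box_sq hP m) hc hT (by positivity) hZ hZ' (fun x => by
        obtain ⟨d₁, d₂, q0, q1, q2, q3⟩ := hd x
        refine ⟨d₁, d₂, q0, q1.trans e.ge, q2.trans e.ge, fun hx => ?_⟩
        obtain ⟨z1, z2, z3, z4⟩ := q3 hx
        simp only [Phase.b₁, Phase.b₂, z3, z4, mul_neg, neg_neg, ← mul_assoc, e, and_true]
        exact ⟨z1, z2⟩) hv.bm hB
    refine this.trans (le_trans (fin _ (le_of_eq (by rw [← e]; rfl))) ?_)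
    simp [Phase.serr]
  | src A lo hi =>
    have e : (Phase.src A lo hi).sdur m = 0 := by simp [Phase.sdur, Phase.dur]
    rw [e] at hT ⊢
    simp only [add_zero, intervalIntegral.integral_same, sub_zero, mul_zero, zero_add] at hT ⊢
    exact hφ.src_step ⟨hc, hT⟩ hP hv

theorem ii_traj (hφ : TestData T Λ φ φt φx φy φxx φyy) {m : ℕ} (hm : 0 < m) {l : List Phase}
    (hl : ∀ P ∈ l, P.OK) {B V c a b : ℝ} (hA : ∀ P ∈ l, P.Amp B) (hV : ∀ P ∈ l, P.vel ≤ V)
    (hV0 : 0 ≤ V) {v : X2 → ℝ} (hv : Cone v) (hB : ∀ x, |v x| ≤ B) (ha : 0 ≤ a) (hab : a ≤ b)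
    (hb : b ≤ T) : IntervalIntegrable (fun t => ∫ x, traj m l v (t - c) x
      * Lop φt φx φy φxx φyy (look (Phase.sdur m) l (t - c)) (t, x)) volume a b := by
  refine ii_of_bound (F := fun z => traj m l v (z.1 - c) z.2
    * Lop φt φx φy φxx φyy (look (Phase.sdur m) l (z.1 - c)) z)
    ((measurable_traj hm hl hv c).mul (measurable_look hφ.measurable_Lop c)) hab
    (C := B * (Λ * (3 + 2 * V))) fun t ht x => ?_
  rw [abs_mul]
  refine mul_le_mul (abs_traj_le hl hA hB _ _) (hφ.abs_Lop_le (fun x => ?_)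
    ⟨ha.trans ht.1, ht.2.trans hb⟩ x) (abs_nonneg _) ((abs_nonneg _).trans (hB 0))
  rcases look_mem (d := Phase.sdur m) (l := l) (t - c) with h | h
  · exact ⟨(Phase.abs_b_le (hl _ h) x).1.trans (hV _ h),
      (Phase.abs_b_le (hl _ h) x).2.trans (hV _ h)⟩
  · rw [h]; simpa [Phase.b₁, Phase.b₂] using hV0

theorem weak_run (hφ : TestData T Λ φ φt φx φy φxx φyy) {m : ℕ} (hm : 0 < m) {l : List Phase}
    (hl : ∀ P ∈ l, P.OK) {B V η c : ℝ} (hA : ∀ P ∈ l, P.Amp B) (hV : ∀ P ∈ l, P.vel ≤ V)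
    (hV0 : 0 ≤ V) (hη : ∀ P ∈ l, P.sdur m ≤ η) (hη1 : η ≤ 1) (hc : 0 ≤ c)
    (hT : c + tot (Phase.sdur m) l ≤ T) {v : X2 → ℝ} (hv : Cone v) (hB : ∀ x, |v x| ≤ B) :
    |(∫ x, run (Phase.nl m) l v x * φ (c + tot (Phase.sdur m) l, x)) - (∫ x, v x * φ (c, x))
      - ∫ t in c..(c + tot (Phase.sdur m) l), ∫ x, traj m l v (t - c) x
        * Lop φt φx φy φxx φyy (look (Phase.sdur m) l (t - c)) (t, x)|
      ≤ B * Λ * (110 * (1 + V) ^ 2 * Real.sqrt η) * tot (Phase.sdur m) l
        + Λ * tot Phase.serr l := by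
  induction l generalizing c v with
  | nil => simp
  | cons P l ih =>
    have hP := hl P (by simp)
    have hl' : ∀ Q ∈ l, Q.OK := fun Q hQ => hl Q (by simp [hQ])
    have hh := hP.sdur_nonneg m
    have ht := tot_nonneg (d := Phase.sdur m) (l := l) fun Q hQ => (hl' Q hQ).sdur_nonneg m
    rw [tot_cons, ← add_assoc] at hT
    have s1 := hφ.one_step hm hP (hV P (by simp)) (hη P (by simp)) hη1 hc (by linarith) hv hB
    have s2 := ih hl' (fun Q hQ => hA Q (by simp [hQ])) (fun Q hQ => hV Q (by simp [hQ]))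
      (fun Q hQ => hη Q (by simp [hQ])) (c := c + P.sdur m) (by linarith) hT
      (Phase.nl_cone hm hP hv) (Phase.abs_nl_le hP (hA P (by simp)) hB)
    have e1 : ∫ t in c..(c + P.sdur m), ∫ x, traj m (P :: l) v (t - c) x
        * Lop φt φx φy φxx φyy (look (Phase.sdur m) (P :: l) (t - c)) (t, x)
        = ∫ t in c..(c + P.sdur m), ∫ x, v x * Lop φt φx φy φxx φyy P (t, x) := by
      refine intervalIntegral.integral_congr_ae ?_
      filter_upwards [compl_mem_ae_iff.2 (measure_singleton (c + P.sdur m))] with t h1 h2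
      rw [uIoc_of_le (by linarith)] at h2
      have : t - c < P.sdur m := by
        have := lt_of_le_of_ne h2.2 h1
        linarith
      rw [traj, look, if_pos this, if_pos this]
    have e2 : ∫ t in (c + P.sdur m)..(c + P.sdur m + tot (Phase.sdur m) l),
        ∫ x, traj m (P :: l) v (t - c) x
          * Lop φt φx φy φxx φyy (look (Phase.sdur m) (P :: l) (t - c)) (t, x)
        = ∫ t in (c + P.sdur m)..(c + P.sdur m + tot (Phase.sdur m) l),
          ∫ x, traj m l (P.nl m v) (t - (c + P.sdur m)) x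
          * Lop φt φx φy φxx φyy (look (Phase.sdur m) l (t - (c + P.sdur m))) (t, x) := by
      refine intervalIntegral.integral_congr fun t h2 => ?_
      rw [uIcc_of_le (by linarith)] at h2
      have : ¬ t - c < P.sdur m := by
        have := h2.1
        linarith
      rw [traj, look, if_neg this, if_neg this, sub_sub]
    rw [tot_cons, tot_cons, ← add_assoc, run_cons,
      ← intervalIntegral.integral_add_adjacent_intervals
        (hφ.ii_traj hm hl hA hV hV0 hv hB hc (b := c + P.sdur m) (by linarith) (by linarith))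
        (hφ.ii_traj hm hl hA hV hV0 hv hB (by linarith) (by linarith) hT), e1, e2]
    have j1 := abs_le.1 s1
    have j2 := abs_le.1 s2
    rw [abs_le]
    constructor <;> linarith [j1.1, j1.2, j2.1, j2.2]

end TestData

end AdvDiff
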