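import Pool.Agent.Lib.MP_0c2f33_an.Marks
import Pool.Agent.Lib.MP_0c2f33_an.WeakRun

/-!
The drift of the schedule: stabilisation, size, and the marked times.
-/

open MeasureTheory Set
open scoped ENNReal

namespace AdvDiff

theorem setLIntegral_shift (f : ℝ → ℝ≥0∞) (d : ℝ) :
    ∫⁻ t in Ici d, f (t - d) = ∫⁻ t in Ici 0, f t := by
  have := (measurePreserving_sub_right (volume : Measure ℝ) d).setLIntegral_comp_preimage_emb
    (measurableEmbedding_subRight d) f (Ici 0)
  rwa [show (fun t => t - d) ⁻¹' Ici 0 = Ici d by ext t; simp] at this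

theorem setLIntegral_split (f : ℝ → ℝ≥0∞) {d : ℝ} (hd : 0 ≤ d) :
    ∫⁻ t in Ici 0, f t = (∫⁻ t in Ico 0 d, f t) + ∫⁻ t in Ici d, f t := by
  rw [← lintegral_union measurableSet_Ici (disjoint_left.2 fun t h1 h2 => h1.2.not_ge h2),
    Ico_union_Ici_eq_Ici hd]

theorem measurable_look₀ {Z : Type*} [MeasurableSpace Z] {d : Phase → ℝ} {l : List Phase}
    {F : Phase → ℝ → Z} (hF : ∀ P, Measurable (F P)) : Measurable fun t => F (look d l t) t := by
  have := (measurable_look (d := d) (l := l) (Y := Unit) (F := fun P z => F P z.1)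
    (fun P => (hF P).comp measurable_fst) 0).comp (measurable_prodMk_right (y := ()))
  simpa [Function.comp_def] using this

/-- The integrated discrepancy of two schedules. -/
noncomputable def Cost (ω : Phase → Phase → ℝ≥0∞) (l l' : List Phase) : ℝ≥0∞ :=
  ∫⁻ t in Ici 0, ω (look Phase.dur l t) (look Phase.dur l' t)

theorem cost_append {ω : Phase → Phase → ℝ≥0∞} {l₁ l₂ l₁' l₂' : List Phase}
    (h : ∀ P ∈ l₁, P.OK) (h' : ∀ P ∈ l₁', P.OK) (e : tot Phase.dur l₁' = tot Phase.dur l₁) :
    Cost ω (l₁ ++ l₂) (l₁' ++ l₂') ≤ Cost ω l₁ l₁' + Cost ω l₂ l₂' := by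
  have a := fun P hP => (h P hP).dur_nonneg
  have a' := fun P hP => (h' P hP).dur_nonneg
  have hd := tot_nonneg a
  unfold Cost
  rw [setLIntegral_split _ hd]
  refine add_le_add ?_ (le_of_eq ?_)
  · refine le_trans (le_of_eq ?_) 
      (lintegral_mono_set (s := Ico 0 (tot Phase.dur l₁)) Ico_subset_Ici_self)
    refine setLIntegral_congr_fun measurableSet_Ico fun t ht => ?_
    rw [look_append a ht.1, look_append a' ht.1, e, if_pos ht.2, if_pos ht.2]
  · rw [← setLIntegral_shift _ (tot Phase.dur l₁)]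
    refine setLIntegral_congr_fun measurableSet_Ici fun t ht => ?_
    have h1 : ¬ t < tot Phase.dur l₁ := not_lt.2 ht
    rw [look_append a (hd.trans ht), look_append a' (hd.trans ht), e, if_neg h1, if_neg h1]

theorem cost_self {ω : Phase → Phase → ℝ≥0∞} (h : ∀ P, ω P P = 0) (l : List Phase) :
    Cost ω l l = 0 := by simp [Cost, h]

theorem cost_blocks {ω : Phase → Phase → ℝ≥0∞} (h0 : ∀ P, ω P P = 0) {f f' : ℕ → List Phase}
    (h : ∀ j, ∀ P ∈ f j, P.OK) (h' : ∀ j, ∀ P ∈ f' j, P.OK)
    (e : ∀ j, tot Phase.dur (f' j) = tot Phase.dur (f j)) {c : ℝ≥0∞}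
    (hc : ∀ j, Cost ω (f j) (f' j) ≤ c) (n : ℕ) : Cost ω (blocks n f) (blocks n f') ≤ n * c := by
  induction n with
  | zero => rw [blocks_zero, blocks_zero, cost_self h0]; exact zero_le
  | succ n ih =>
    rw [blocks_succ, blocks_succ]
    refine (cost_append (forall_blocks fun j _ => h j) (forall_blocks fun j _ => h' j)
      (by simp only [tot_blocks, e])).trans ?_
    push_cast
    rw [add_mul, one_mul]
    exact add_le_add ih (hc n)

theorem lintegral_look {w : Phase → ℝ} (h0 : ∀ P, 0 ≤ w P) (h1 : w (Phase.rest 0 none) = 0)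
    {l : List Phase} (h : ∀ P ∈ l, P.OK) :
    ∫⁻ t in Ici 0, ENNReal.ofReal (w (look Phase.dur l t))
      = ENNReal.ofReal (tot (fun P => P.dur * w P) l) := by
  induction l with
  | nil => simp [look, h1]
  | cons P l ih =>
    have hP := (h P (by simp)).dur_nonneg
    have hl : ∀ Q ∈ l, Q.OK := fun Q hQ => h Q (by simp [hQ])
    rw [setLIntegral_split _ hP, tot_cons, ENNReal.ofReal_add (mul_nonneg hP (h0 P))
      (tot_nonneg fun Q hQ => mul_nonneg (hl Q hQ).dur_nonneg (h0 Q)), ← ih hl,
      ← setLIntegral_shift _ P.dur]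
    congr 1
    · rw [setLIntegral_congr_fun (g := fun _ => ENNReal.ofReal (w P)) measurableSet_Ico
        fun t ht => by simp only [look]; rw [if_pos ht.2]]
      rw [setLIntegral_const, Real.volume_Ico, sub_zero, mul_comm, ENNReal.ofReal_mul hP]
    · refine setLIntegral_congr_fun measurableSet_Ici fun t ht => ?_
      simp only [look]
      rw [if_neg (not_lt.2 ht)]

/-- A bound for the squared `L^p` norm of the drift. -/
noncomputable def Phase.cst (p : ℝ) : Phase → ℝ
  | Phase.flip τ F => (4 / τ * max (1 / (F.M : ℝ)) F.β) ^ 2 * (2 * F.β) ^ (2 / p)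
  | _ => 0

theorem Phase.cst_nonneg (p : ℝ) (P : Phase) : 0 ≤ P.cst p := by
  cases P with
  | rest D l => exact le_rfl
  | flip τ F =>
    have := F.hα.trans F.hαβ.le
    simp only [Phase.cst]
    positivity
  | src A lo hi => exact le_rfl

theorem eLpNorm_sq_le_band {f : X2 → ℝ} {V β : ℝ} (hV : 0 ≤ V) (hβ : 0 ≤ β)
    (h1 : ∀ x, |f x| ≤ V) (h2 : ∀ x : X2, β < ‖x.2‖ → f x = 0) (p : ℝ≥0∞) :
    eLpNorm f p volume ^ 2 ≤ ENNReal.ofReal (V ^ 2 * (2 * β) ^ (2 / p.toReal)) := by
  have a : eLpNorm f p volume ≤ eLpNorm ({x : X2 | ‖x.2‖ ≤ β}.indicator fun _ => V) p volume :=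
    eLpNorm_mono_real fun x => by
      by_cases hx : ‖x.2‖ ≤ β
      · rw [indicator_of_mem (by exact hx)]; exact h1 x
      · rw [indicator_of_notMem (by exact hx), h2 x (not_le.1 hx), norm_zero]
  have b := a.trans (eLpNorm_indicator_const_le V p)
  have hp : 0 ≤ 1 / p.toReal := by positivity
  have c : ‖V‖ₑ * volume {x : X2 | ‖x.2‖ ≤ β} ^ (1 / p.toReal)
      ≤ ENNReal.ofReal (V * (2 * β) ^ (1 / p.toReal)) := by
    rw [ENNReal.ofReal_mul hV, ← ENNReal.ofReal_rpow_of_nonneg (by positivity) hp,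
      Real.enorm_eq_ofReal hV]
    gcongr
    exact volume_band
  refine (pow_le_pow_left' (b.trans c) 2).trans (le_of_eq ?_)
  rw [← ENNReal.ofReal_pow (by positivity), mul_pow, ← Real.rpow_natCast ((2 * β) ^ _),
    ← Real.rpow_mul (by positivity)]
  congr 3
  push_cast
  ring

theorem Phase.eLpNorm_b_le {P : Phase} (hP : P.OK) (p : ℝ≥0∞) :
    eLpNorm P.b₁ p volume ^ 2 ≤ ENNReal.ofReal (P.cst p.toReal) ∧
      eLpNorm P.b₂ p volume ^ 2 ≤ ENNReal.ofReal (P.cst p.toReal) := by
  cases P with
  | rest D l => simp [Phase.b₁, Phase.b₂]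
  | src A lo hi => simp [Phase.b₁, Phase.b₂]
  | flip τ F =>
    have h0 : 0 < 4 / τ := by have := hP.1; positivity
    have hβ := F.hα.trans F.hαβ.le
    have hV : 0 ≤ 4 / τ * max (1 / (F.M : ℝ)) F.β := by positivity
    constructor
    · refine eLpNorm_sq_le_band hV hβ (fun x => ?_) (fun x hx => ?_) p
      · simp only [Phase.b₁, abs_neg, abs_mul, abs_of_pos h0]
        gcongr
        exact (F.abs_W₁_le x).trans (le_max_left _ _)
      · simp [Phase.b₁, (F.W_eq_zero hx).1]
    · refine eLpNorm_sq_le_band hV hβ (fun x => ?_) (fun x hx => ?_) p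
      · simp only [Phase.b₂, abs_neg, abs_mul, abs_of_pos h0]
        gcongr
        exact (F.abs_W₂_le x).trans (le_max_right _ _)
      · simp [Phase.b₂, (F.W_eq_zero hx).2]

/-- Two schedules carry the label `k` at the same times. -/
def SameL (k : ℕ) (l l' : List Phase) : Prop :=
  ∀ t, 0 ≤ t → ((look Phase.dur l t).lab = some k ↔ (look Phase.dur l' t).lab = some k)

theorem SameL.append {k : ℕ} {l₁ l₂ l₁' l₂' : List Phase} (h : ∀ P ∈ l₁, P.OK)
    (h' : ∀ P ∈ l₁', P.OK) (e : tot Phase.dur l₁' = tot Phase.dur l₁) (h₁ : SameL k l₁ l₁')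
    (h₂ : SameL k l₂ l₂') : SameL k (l₁ ++ l₂) (l₁' ++ l₂') := by
  intro t ht
  rw [look_append (fun P hP => (h P hP).dur_nonneg) ht,
    look_append (fun P hP => (h' P hP).dur_nonneg) ht, e]
  split_ifs with h3
  · exact h₁ t ht
  · exact h₂ _ (by linarith)

theorem SameL.blocks {k : ℕ} {f f' : ℕ → List Phase} (h : ∀ j, ∀ P ∈ f j, P.OK)
    (h' : ∀ j, ∀ P ∈ f' j, P.OK) (e : ∀ j, tot Phase.dur (f' j) = tot Phase.dur (f j))
    (hc : ∀ j, SameL k (f j) (f' j)) (n : ℕ) : SameL k (blocks n f) (blocks n f') := by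
  induction n with
  | zero => exact fun _ _ => Iff.rfl
  | succ n ih =>
    rw [blocks_succ, blocks_succ]
    exact ih.append (forall_blocks fun j _ => h j) (forall_blocks fun j _ => h' j)
      (by simp only [tot_blocks, e]) (hc n)

theorem lab_look_ne {k : ℕ} {d : Phase → ℝ} {l : List Phase} (h : ∀ P ∈ l, P.lab ≠ some k)
    (t : ℝ) : (look d l t).lab ≠ some k := by
  rcases look_mem (d := d) (l := l) t with h1 | h1
  · exact h _ h1
  · rw [h1]; simp [Phase.lab]

namespace Par

variable {T p : ℝ} (P : Par T p)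

theorem child_OK (r k j : ℕ) : ∀ Q ∈ P.node r (k + 1) ++ [P.mid k j], Q.OK :=
  forall_append (P.node_OK _ _) (forall_single (P.mid_OK _ _))

theorem cost_node {ω : Phase → Phase → ℝ≥0∞} (h0 : ∀ Q, ω Q Q = 0) {s : ℕ} {c : ℕ → ℝ≥0∞}
    (hc : ∀ k, Cost ω (P.node s k) (P.node 0 k) ≤ c k) (r k : ℕ) :
    Cost ω (P.node (s + r) k) (P.node r k) ≤ (P.Nt : ℝ≥0∞) ^ r * c (k + r) := by
  induction r generalizing k with
  | zero => simpa using hc k
  | succ r ih =>
    rw [node, node, ← add_assoc]
    refine (cost_append (P.pre_OK _ _) (P.pre_OK _ _) (by rw [tot_pre, tot_pre])).trans ?_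
    rw [cost_self h0, add_zero, pre_succ, pre_succ]
    refine (cost_blocks h0 (P.child_OK _ k) (P.child_OK _ k)
      (fun j => by simp only [tot_append, tot_node])
      (c := (P.Nt : ℝ≥0∞) ^ r * c (k + 1 + r)) (fun j => ?_) _).trans (le_of_eq ?_)
    · refine (cost_append (P.node_OK _ _) (P.node_OK _ _) (by rw [tot_node, tot_node])).trans ?_
      rw [cost_self h0, add_zero]
      exact ih (k + 1)
    · rw [show k + 1 + r = k + (r + 1) by ring]; ring

theorem volume_mis (n : ℕ) :
    volume {t | 0 ≤ t ∧ look Phase.dur (P.node (n + 1) 0) t ≠ look Phase.dur (P.node n 0) t}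
      ≤ ENNReal.ofReal ((P.Nt : ℝ) ^ n * P.D n) := by
  classical
  set ω : Phase → Phase → ℝ≥0∞ := fun Q Q' => if Q = Q' then 0 else 1 with hω
  have hm : Measurable fun t => ω (look Phase.dur (P.node (n + 1) 0) t)
      (look Phase.dur (P.node n 0) t) :=
    measurable_look₀ (F := fun Q t => ω Q (look Phase.dur (P.node n 0) t)) fun Q =>
      measurable_look₀ (F := fun Q' _ => ω Q Q') fun _ => measurable_const
  have h1 := P.cost_node (ω := ω) (fun Q => by simp [hω]) (s := 1)
    (c := fun k => ENNReal.ofReal (P.D k)) (fun k => ?_) n 0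
  · rw [add_comm 1 n, zero_add] at h1
    rw [ENNReal.ofReal_mul (by positivity), ENNReal.ofReal_pow (by positivity),
      ENNReal.ofReal_natCast]
    refine le_trans ?_ h1
    have h2 := meas_le_lintegral₀ (μ := volume.restrict (Ici 0)) hm.aemeasurable
      (s := {t | look Phase.dur (P.node (n + 1) 0) t ≠ look Phase.dur (P.node n 0) t})
      fun t ht => by simp only [hω]; rw [if_neg ht]
    rw [Measure.restrict_apply' measurableSet_Ici] at h2
    refine le_trans (measure_mono ?_) h2
    exact fun t ht => ⟨ht.2, ht.1⟩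
  · unfold Cost
    rw [setLIntegral_split _ (P.D_pos k).le]
    have a : ∫⁻ t in Ici (P.D k), ω (look Phase.dur (P.node 1 k) t)
        (look Phase.dur (P.node 0 k) t) = 0 := by
      rw [setLIntegral_congr_fun (g := fun _ => 0) measurableSet_Ici fun t ht => by
        simp only
        rw [look_of_ge (fun Q hQ => (P.node_OK _ _ Q hQ).dur_nonneg) (by rw [tot_node]; exact ht),
          look_of_ge (fun Q hQ => (P.node_OK _ _ Q hQ).dur_nonneg) (by rw [tot_node]; exact ht)]
        simp [hω]]
      simp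
    rw [a, add_zero]
    refine (lintegral_mono (g := fun _ => 1) fun t => ?_).trans (by simp)
    simp only [hω]
    split_ifs <;> simp

theorem tot_cst_le (hp : 0 < p) (s k : ℕ) :
    tot (fun Q => Q.dur * Q.cst p) (P.node s k) ≤ P.R k := by
  induction s generalizing k with
  | zero => simpa [node, pre, last, Phase.cst] using P.R_nonneg k
  | succ s ih =>
    have hτ := P.τ_pos k
    have hH : 0 < P.y k + P.W k := P.H_pos k
    have h1 : ∀ j, (P.mid k j).dur * (P.mid k j).cst p
        ≤ P.τ k * (4 / P.τ k * (P.y k + P.W k)) ^ 2 * (2 * (P.y k + P.W k)) ^ (2 / p) := by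
      intro j
      rw [mid_dur, mid]
      split_ifs with hj
      · have hβ : (P.band k j hj).β ≤ P.y k + P.W k := by
          change P.top k j ≤ P.H k
          linarith [P.top_le k j, P.ℓ_pos k]
        have hβ0 := (P.band k j hj).hα.trans (P.band k j hj).hαβ.le
        simp only [Phase.cst]
        rw [mul_assoc]
        gcongr
        exact max_le (P.M_ge k) hβ
      · simp only [Phase.cst, mul_zero]
        positivity
    rw [node, tot_append, pre_succ, tot_blocks]
    simp only [tot_append, tot_cons, tot_nil, add_zero, last, Phase.cst, mul_zero]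
    refine le_trans ?_ (P.R_ge k)
    rw [← nsmul_eq_mul, ← Finset.card_range P.Nt]
    refine Finset.sum_le_card_nsmul _ _ _ ?_ |>.trans (by rw [Finset.card_range])
    exact fun j _ => add_le_add (ih (k + 1)) (h1 j)

theorem cost_b (q : ℝ≥0∞) {T : ℝ} (P : Par T q.toReal) (hq : 0 < q.toReal) {m n : ℕ}
    (h : m ≤ n) :
    Cost (fun Q Q' => eLpNorm (fun x => Q.b₁ x - Q'.b₁ x) q volume ^ 2) (P.node n 0) (P.node m 0)
      ≤ ENNReal.ofReal ((P.Nt : ℝ) ^ m * P.R m) ∧
    Cost (fun Q Q' => eLpNorm (fun x => Q.b₂ x - Q'.b₂ x) q volume ^ 2) (P.node n 0) (P.node m 0)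
      ≤ ENNReal.ofReal ((P.Nt : ℝ) ^ m * P.R m) := by
  obtain ⟨s, rfl⟩ : ∃ s, n = s + m := ⟨n - m, by omega⟩
  have key : ∀ b : Phase → X2 → ℝ, (∀ D l, b (Phase.rest D l) = fun _ => 0) →
      (∀ A lo hi, b (Phase.src A lo hi) = fun _ => 0) →
      (∀ Q, Q.OK → eLpNorm (b Q) q volume ^ 2 ≤ ENNReal.ofReal (Q.cst q.toReal)) →
      Cost (fun Q Q' => eLpNorm (fun x => b Q x - b Q' x) q volume ^ 2) (P.node (s + m) 0)
        (P.node m 0) ≤ ENNReal.ofReal ((P.Nt : ℝ) ^ m * P.R m) := by
    intro b h1 h2 h3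
    have := P.cost_node (ω := fun Q Q' => eLpNorm (fun x => b Q x - b Q' x) q volume ^ 2)
      (fun Q => by simp) (s := s) (c := fun k => ENNReal.ofReal (P.R k)) (fun k => ?_) m 0
    · rw [zero_add] at this
      rwa [ENNReal.ofReal_mul (by positivity), ENNReal.ofReal_pow (by positivity),
        ENNReal.ofReal_natCast]
    · refine le_trans ?_ (ENNReal.ofReal_le_ofReal (P.tot_cst_le hq s k))
      rw [← lintegral_look (Phase.cst_nonneg _) rfl (P.node_OK s k)]
      refine lintegral_mono fun t => ?_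
      have z : b (look Phase.dur (P.node 0 k) t) = fun _ => 0 := by
        rcases look_mem (d := Phase.dur) (l := P.node 0 k) t with h | h
        · simp only [node, pre, last, List.cons_append, List.nil_append, List.mem_cons,
            List.not_mem_nil, or_false] at h ⊢
          rcases h with h | h | h <;> rw [h]
          · exact h1 _ _
          · exact h2 _ _ _
          · exact h1 _ _
        · rw [h]; exact h1 _ _
      simp only [z, sub_zero]
      rcases look_mem (d := Phase.dur) (l := P.node s k) t with h | h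
      · exact h3 _ (P.node_OK s k _ h)
      · rw [h, h1]; simp
  exact ⟨key Phase.b₁ (fun _ _ => rfl) (fun _ _ _ => rfl) fun Q hQ => (Phase.eLpNorm_b_le hQ q).1,
    key Phase.b₂ (fun _ _ => rfl) (fun _ _ _ => rfl) fun Q hQ => (Phase.eLpNorm_b_le hQ q).2⟩

theorem sameL_node (r k s j : ℕ) (h : j + s = k) : SameL k (P.node (r + s) j) (P.node s j) := by
  induction s generalizing j with
  | zero =>
    rw [add_zero] at h
    subst h
    refine SameL.append (P.pre_OK _ _) (P.pre_OK _ _) (by rw [tot_pre, tot_pre])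
      (fun t _ => iff_of_false ?_ ?_) fun _ _ => Iff.rfl
    · exact lab_look_ne (fun Q hQ h => lt_irrefl _ (P.pre_lab _ _ Q hQ _ h)) t
    · exact lab_look_ne (fun Q hQ h => lt_irrefl _ (P.pre_lab _ _ Q hQ _ h)) t
  | succ s ih =>
    rw [node, node, ← add_assoc]
    refine SameL.append (P.pre_OK _ _) (P.pre_OK _ _) (by rw [tot_pre, tot_pre]) ?_
      fun _ _ => Iff.rfl
    rw [pre_succ, pre_succ]
    exact SameL.blocks (P.child_OK _ j) (P.child_OK _ j)
      (fun i => by simp only [tot_append, tot_node]) (fun i => SameL.append (P.node_OK _ _)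
        (P.node_OK _ _) (by rw [tot_node, tot_node]) (ih (j + 1) (by omega)) fun _ _ => Iff.rfl) _

theorem tot_mark (k s j : ℕ) (h : j + s = k) :
    tot (fun Q => Q.dur * if Q.lab = some k then 1 else 0) (P.node s j)
      = (P.Nt : ℝ) ^ s * P.g k := by
  induction s generalizing j with
  | zero =>
    rw [add_zero] at h
    subst h
    simp [node, pre, last, Phase.lab, Phase.dur]
  | succ s ih =>
    have h1 : (P.last j).lab ≠ some k := by
      simp only [last, Phase.lab, ne_eq, Option.some.injEq]; omega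
    rw [node, tot_append, pre_succ, tot_blocks]
    simp only [tot_append, tot_cons, tot_nil, ih (j + 1) (by omega), mid_lab, if_neg h1]
    simp
    ring

/-- The marked times of level `k`. -/
def marked (k : ℕ) : Set ℝ := {t | 0 ≤ t ∧ (look Phase.dur (P.node k 0) t).lab = some k}

theorem measurableSet_marked (k : ℕ) : MeasurableSet (P.marked k) := by
  refine measurableSet_Ici.inter (measurableSet_setOfPred.2 ?_)
  exact measurable_look₀ (F := fun Q _ => Q.lab = some k) fun _ => measurable_const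

theorem volume_marked (k : ℕ) : volume (P.marked k) = ENNReal.ofReal ((P.Nt : ℝ) ^ k * P.g k) := by
  rw [← P.tot_mark k k 0 (zero_add k), ← lintegral_look (fun Q => by split_ifs <;> norm_num)
    (by simp [Phase.lab]) (P.node_OK k 0), ← lintegral_indicator_one (P.measurableSet_marked k),
    ← lintegral_indicator measurableSet_Ici]
  congr 1
  funext t
  by_cases h0 : 0 ≤ t
  · by_cases h1 : (look Phase.dur (P.node k 0) t).lab = some k
    · rw [indicator_of_mem (by exact ⟨h0, h1⟩), indicator_of_mem (by exact h0), if_pos h1]; simp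
    · rw [indicator_of_notMem (fun h => h1 h.2), indicator_of_mem (by exact h0), if_neg h1]; simp
  · rw [indicator_of_notMem (fun h => h0 h.1), indicator_of_notMem (by exact h0)]

theorem marked_lt {k : ℕ} {t : ℝ} (ht : t ∈ P.marked k) : t < P.D 0 := by
  by_contra hc
  have := ht.2
  rw [look_of_ge (fun Q hQ => (P.node_OK _ _ Q hQ).dur_nonneg)
    (by rw [tot_node]; exact not_lt.1 hc)] at this
  simp [Phase.lab] at this

end Par

end AdvDiff
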