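import Pool.Agent.Lib.MP_0c2f33_an.FlipA

/-!
The band flip on the torus: symmetries, consistency with its velocity, transported test functions.
-/

open MeasureTheory Set

namespace AdvDiff

theorem vol_prod_le {Z : Set X2} (hZ : MeasurableSet Z) {c : ENNReal}
    (h : ∀ y : UnitAddCircle, volume {z : UnitAddCircle | (z, y) ∈ Z} ≤ c) : volume Z ≤ c := by
  rw [Measure.volume_eq_prod, Measure.prod_apply_symm hZ]
  calc ∫⁻ y, volume ((fun z : UnitAddCircle => (z, y)) ⁻¹' Z)
      ≤ ∫⁻ _ : UnitAddCircle, c := lintegral_mono fun y => h y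
    _ = c := by simp

theorem lip_fract {g : ℝ → ℝ} {K : ℝ} (hK : 0 ≤ K) (hg : ∀ u v, |g u - g v| ≤ K * |u - v|)
    (g0 : g 0 = 0) (g1 : g 1 = 0) (s t : ℝ) :
    |g (Int.fract s) - g (Int.fract t)| ≤ K * |s - t| := by
  wlog hst : s ≤ t generalizing s t
  · rw [abs_sub_comm, abs_sub_comm s]; exact this t s (le_of_not_ge hst)
  rcases eq_or_lt_of_le (Int.floor_mono hst) with e | e
  · have : Int.fract s - Int.fract t = s - t := by unfold Int.fract; rw [e]; ring
    rw [← this]; exact hg _ _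
  · have e' : (⌊s⌋ : ℝ) + 1 ≤ ⌊t⌋ := by exact_mod_cast e
    have a := hg (Int.fract s) 1
    have b := hg (Int.fract t) 0
    rw [g1, sub_zero, abs_of_nonpos (by linarith [Int.fract_lt_one s] : Int.fract s - 1 ≤ 0)] at a
    rw [g0, sub_zero, sub_zero, abs_of_nonneg (Int.fract_nonneg t)] at b
    rw [abs_of_nonpos (by linarith : s - t ≤ 0)]
    have c : -(Int.fract s - 1) + Int.fract t ≤ -(s - t) := by unfold Int.fract; linarith
    calc |g (Int.fract s) - g (Int.fract t)| ≤ |g (Int.fract s)| + |g (Int.fract t)| := abs_sub _ _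
      _ ≤ K * (-(Int.fract s - 1) + Int.fract t) := by rw [mul_add]; exact add_le_add a b
      _ ≤ K * -(s - t) := mul_le_mul_of_nonneg_left c hK

theorem lip_fr {g : ℝ → ℝ} {K : ℝ} (hK : 0 ≤ K) (hg : ∀ u v, |g u - g v| ≤ K * |u - v|)
    (g0 : g 0 = 0) (g1 : g 1 = 0) (z : UnitAddCircle) (s : ℝ) :
    |g (fr (z + (s : UnitAddCircle))) - g (fr z)| ≤ K * |s| := by
  have := lip_fract hK hg g0 g1 (fr z + s) (fr z)
  rwa [← fr_add, Int.fract_eq_self.2 (fr_mem z), add_sub_cancel_left] at this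

/-- The radial cutoff. -/
noncomputable def cut (κ r : ℝ) : ℝ := min 1 (max 0 ((1 - r) / κ))

theorem cut_nonneg (κ r : ℝ) : 0 ≤ cut κ r := le_min zero_le_one (le_max_left _ _)

theorem cut_le_one (κ r : ℝ) : cut κ r ≤ 1 := min_le_left _ _

theorem cut_eq_zero {κ r : ℝ} (hκ : 0 < κ) (hr : ¬ r < 1) : cut κ r = 0 := by
  have : (1 - r) / κ ≤ 0 := div_nonpos_of_nonpos_of_nonneg (by linarith [not_lt.1 hr]) hκ.le
  rw [cut, max_eq_left this, min_eq_right zero_le_one]

theorem cut_eq_one {κ r : ℝ} (hκ : 0 < κ) (hr : r ≤ 1 - κ) : cut κ r = 1 := by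
  have : 1 ≤ (1 - r) / κ := by rw [le_div_iff₀ hκ]; linarith
  rw [cut, min_eq_left (this.trans (le_max_right _ _))]

theorem cut_lip {κ : ℝ} (hκ : 0 < κ) (r r' : ℝ) : |cut κ r - cut κ r'| ≤ 1 / κ * |r - r'| := by
  have h0 : 0 ≤ 1 / κ * |r - r'| := by positivity
  refine min_close (by simpa using h0) ((abs_max_sub_max_le_max _ _ _ _).trans (max_le ?_ ?_))
  · simpa using h0
  · have : (1 - r) / κ - (1 - r') / κ = -(1 / κ * (r - r')) := by ring
    rw [this, abs_neg, abs_mul, abs_of_pos (by positivity : 0 < 1 / κ)]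

theorem continuous_cut (κ : ℝ) : Continuous (cut κ) := by
  unfold cut; fun_prop

namespace Band

variable (F : Band)

theorem map_mir {h : ℝ} (h0 : 0 ≤ h) (h2 : h ≤ 2) (x : X2) :
    F.map h (mir x) = mir (F.map h x) := by
  by_cases hx : rad (F.co x) < 1
  · rw [F.map_of_not h (F.not_cell_mir hx), mir_mir, F.map_of_cell h hx]
  · rw [F.map_of_not h hx, mir_mir]
    by_cases hy : rad (F.co (mir x)) < 1
    · rw [F.map_of_cell h hy]
    · rw [F.map_of_not h hy, mir_mir, F.up_of_not h hx, F.up_of_not h hy]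

theorem map_upper {h : ℝ} (h0 : 0 ≤ h) (h2 : h ≤ 2) (x₁ : UnitAddCircle) {s : ℝ}
    (hs : s ∈ Icc (0 : ℝ) (1 / 2)) :
    ∃ s' ∈ Icc (0 : ℝ) (1 / 2), (F.map h (x₁, (s : UnitAddCircle))).2 = (s' : UnitAddCircle) := by
  have hα := F.hα
  have hβ := F.hβ
  by_cases hx : rad (F.co (x₁, (s : UnitAddCircle))) < 1
  · obtain ⟨_, c2, c3⟩ := (F.cell_iff _).1 ((F.cell_map h0 h2 _).2 hx)
    exact ⟨_, ⟨by linarith, by linarith⟩, (coe_fr _).symm⟩
  · refine ⟨s, hs, ?_⟩
    have hy : ¬ rad (F.co (mir (x₁, (s : UnitAddCircle)))) < 1 := by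
      intro hy
      obtain ⟨_, c2, c3⟩ := (F.cell_iff _).1 hy
      simp only [mir] at c2 c3
      have e : fr (s : UnitAddCircle) = s := fr_coe_of_mem hs.1 (by linarith [hs.2])
      rcases eq_or_lt_of_le hs.1 with e0 | e0
      · subst e0
        rw [← AddCircle.coe_neg, neg_zero, e] at c2
        linarith
      · rw [fr_neg (by rwa [e]), e] at c3
        linarith [hs.2]
    rw [F.map_of_not h hx, F.up_of_not h hy, mir_mir]

theorem map_transl (h : ℝ) {c : UnitAddCircle} (hc : F.M • c = 0) (x : X2) :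
    F.map h (x.1 + c, x.2) = ((F.map h x).1 + c, (F.map h x).2) := by
  have e : ∀ y : X2, F.co (y.1 + c, y.2) = F.co y := by
    intro y; simp only [co, nsmul_add, hc, add_zero]
  have u : ∀ y : X2, F.up h (y.1 + c, y.2) = ((F.up h y).1 + c, (F.up h y).2) := by
    intro y
    unfold up
    rw [e y]
    split_ifs
    · simp only [Prod.mk.injEq, and_true]; abel
    · rfl
  unfold map
  rw [e x]
  split_ifs
  · exact u x
  · have : mir (x.1 + c, x.2) = ((mir x).1 + c, (mir x).2) := rfl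
    rw [this, u (mir x)]
    rfl

theorem map_band {h : ℝ} (h0 : 0 ≤ h) (h2 : h ≤ 2) (x : X2) :
    F.map h x = x ∨ (‖x.2‖ ≤ F.β ∧ ‖(F.map h x).2‖ ≤ F.β) := by
  by_cases hx : rad (F.co x) < 1
  · exact Or.inr ⟨F.norm_le_of_cell hx, F.norm_le_of_cell ((F.cell_map h0 h2 x).2 hx)⟩
  · by_cases hy : rad (F.co (mir x)) < 1
    · refine Or.inr ⟨F.norm_le_of_cell_mir hy, F.norm_le_of_cell_mir ?_⟩
      rw [← F.map_mir h0 h2]
      exact (F.cell_map h0 h2 _).2 hy
    · left
      rw [F.map_of_not h hx, F.up_of_not h hy, mir_mir]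

theorem measurable_sqVel : Measurable sqVel := by
  unfold sqVel
  refine Measurable.ite (measurableSet_le (by fun_prop) (by fun_prop)) ?_ ?_ <;> fun_prop

theorem measurable_W₁ : Measurable F.W₁ := by
  have h1 : Measurable fun x => sqVel (F.co x) := measurable_sqVel.comp F.measurable_co
  have h2 : Measurable fun x => sqVel (F.co (mir x)) := h1.comp mp_mir.measurable
  unfold W₁
  exact Measurable.ite F.measurableSet_cell (h1.fst.div_const _)
    (Measurable.ite (mp_mir.measurable F.measurableSet_cell) (h2.fst.div_const _) measurable_const)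

theorem measurable_W₂ : Measurable F.W₂ := by
  have h1 : Measurable fun x => sqVel (F.co x) := measurable_sqVel.comp F.measurable_co
  have h2 : Measurable fun x => sqVel (F.co (mir x)) := h1.comp mp_mir.measurable
  unfold W₂
  exact Measurable.ite F.measurableSet_cell ((h1.snd.mul_const _).div_const _)
    (Measurable.ite (mp_mir.measurable F.measurableSet_cell)
      ((h2.snd.mul_const _).div_const _).neg measurable_const)

theorem abs_W₁_le (x : X2) : |F.W₁ x| ≤ 1 / F.M := by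
  have hM := F.M_pos
  have key : ∀ w : ℝ × ℝ, rad w < 1 → |(sqVel w).1 / (2 * F.M)| ≤ 1 / F.M := by
    intro w hw
    have := (sqVel_le w).1
    rw [abs_div, abs_of_pos (by positivity : (0 : ℝ) < 2 * F.M), div_le_div_iff₀ (by positivity) hM]
    nlinarith
  unfold W₁
  split_ifs with h1 h2
  · exact key _ h1
  · exact key _ h2
  · simp

theorem abs_W₂_le (x : X2) : |F.W₂ x| ≤ F.β := by
  have hg := F.gap_pos
  have hα := F.hα
  have key : ∀ w : ℝ × ℝ, rad w < 1 → |(sqVel w).2 * (F.β - F.α) / 2| ≤ F.β := by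
    intro w hw
    have := (sqVel_le w).2
    rw [abs_div, abs_mul, abs_of_pos hg, abs_two]
    nlinarith
  unfold W₂
  split_ifs with h1 h2
  · exact key _ h1
  · rw [abs_neg]; exact key _ h2
  · simp; linarith

theorem W_eq_zero {x : X2} (hx : F.β < ‖x.2‖) : F.W₁ x = 0 ∧ F.W₂ x = 0 := by
  have h1 : ¬ rad (F.co x) < 1 := fun h => absurd (F.norm_le_of_cell h) (not_le.2 hx)
  have h2 : ¬ rad (F.co (mir x)) < 1 := fun h => absurd (F.norm_le_of_cell_mir h) (not_le.2 hx)
  simp [W₁, W₂, h1, h2]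

theorem W_mir (x : X2) : F.W₁ (mir x) = F.W₁ x ∧ F.W₂ (mir x) = -F.W₂ x := by
  by_cases hx : rad (F.co x) < 1
  · have := F.not_cell_mir hx
    simp [W₁, W₂, hx, this, mir_mir]
  · by_cases hy : rad (F.co (mir x)) < 1
    · simp [W₁, W₂, hx, hy]
    · simp [W₁, W₂, hx, hy, mir_mir]

/-- The neighbourhood of the diagonals of the cells. -/
def diag (h : ℝ) : Set X2 := {x | |(|(F.co x).1| - |(F.co x).2|)| ≤ h}

theorem measurableSet_diag (h : ℝ) : MeasurableSet (F.diag h) := by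
  have h1 := F.measurable_co
  exact measurableSet_le ((h1.fst.abs.sub h1.snd.abs).abs) measurable_const

theorem vol_diag {h : ℝ} (h0 : 0 ≤ h) : volume (F.diag h) ≤ ENNReal.ofReal (2 * h) := by
  refine vol_prod_le (F.measurableSet_diag h) fun y => ?_
  set c := |(2 * fr y - F.α - F.β) / (F.β - F.α)| with hc
  calc volume {z : UnitAddCircle | (z, y) ∈ F.diag h}
      ≤ volume {z : UnitAddCircle | fr (F.M • z) ∈
          Icc ((1 + c - h) / 2) ((1 + c + h) / 2) ∪ Icc ((1 - c - h) / 2) ((1 - c + h) / 2)} := by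
        refine measure_mono fun z hz => ?_
        have hz' : |(|2 * fr (F.M • z) - 1| - c)| ≤ h := hz
        have := abs_le.1 hz'
        rcases abs_cases (2 * fr (F.M • z) - 1) with ⟨e, _⟩ | ⟨e, _⟩
        · left; rw [e] at this; constructor <;> linarith
        · right; rw [e] at this; constructor <;> linarith
    _ ≤ volume (Icc ((1 + c - h) / 2) ((1 + c + h) / 2) ∪
          Icc ((1 - c - h) / 2) ((1 - c + h) / 2)) :=
        vol_frM_le F.hM (measurableSet_Icc.union measurableSet_Icc)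
    _ ≤ volume (Icc ((1 + c - h) / 2) ((1 + c + h) / 2)) +
          volume (Icc ((1 - c - h) / 2) ((1 - c + h) / 2)) := measure_union_le _ _
    _ = ENNReal.ofReal (2 * h) := by
        rw [Real.volume_Icc, Real.volume_Icc, ← ENNReal.ofReal_add (by linarith) (by linarith)]
        congr 1; ring

theorem consistent_cell {h : ℝ} (h0 : 0 ≤ h) (h2 : h ≤ 2) {x : X2} (hx : rad (F.co x) < 1) :
    ∃ d₁ d₂ : ℝ, F.map h x = (x.1 + (d₁ : UnitAddCircle), x.2 + (d₂ : UnitAddCircle)) ∧
      |d₁| ≤ h ∧ |d₂| ≤ h ∧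
      (x ∉ F.diag h → d₁ = h * F.W₁ x ∧ d₂ = h * F.W₂ x ∧
        F.W₁ (F.map h x) = F.W₁ x ∧ F.W₂ (F.map h x) = F.W₂ x) := by
  have hM : (1 : ℝ) ≤ F.M := by exact_mod_cast F.hM
  have hg := F.gap_pos
  have hα := F.hα
  have hβ := F.hβ
  obtain ⟨s1, s2⟩ := sqRot_sub h0 h2 (F.co x)
  have hr : h * rad (F.co x) ≤ h := by nlinarith
  refine ⟨((sqRot h (F.co x)).1 - (F.co x).1) / (2 * F.M),
    ((sqRot h (F.co x)).2 - (F.co x).2) * (F.β - F.α) / 2, ?_, ?_, ?_, ?_⟩
  · rw [F.map_of_cell h hx]; simp only [up, if_pos hx]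
  · rw [abs_div, abs_of_pos (by positivity : (0 : ℝ) < 2 * F.M), div_le_iff₀ (by positivity)]
    nlinarith
  · rw [abs_div, abs_mul, abs_of_pos hg, abs_two]
    nlinarith [abs_nonneg ((sqRot h (F.co x)).2 - (F.co x).2)]
  · intro hZ
    have hZ' : h < |(|(F.co x).1| - |(F.co x).2|)| := not_le.1 hZ
    obtain ⟨e1, e2, _⟩ := sqRot_free h0 h2 (F.co x) (hr.trans_lt hZ')
    have hx' := (F.cell_map h0 h2 x).2 hx
    have e3 : F.co (F.map h x) = sqRot h (F.co x) := by rw [F.map_of_cell h hx, F.co_up h0 h2 hx]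
    refine ⟨?_, ?_, ?_, ?_⟩
    · simp only [W₁, if_pos hx]; rw [e1]; ring
    · simp only [W₂, if_pos hx]; rw [e1]; ring
    · simp only [W₁, if_pos hx, if_pos hx']; rw [e3, e2]
    · simp only [W₂, if_pos hx, if_pos hx']; rw [e3, e2]

theorem map_consistent {h : ℝ} (h0 : 0 ≤ h) (h2 : h ≤ 2) :
    ∃ Z : Set X2, MeasurableSet Z ∧ volume Z ≤ ENNReal.ofReal (16 * h) ∧ ∀ x : X2, ∃ d₁ d₂ : ℝ,
      F.map h x = (x.1 + (d₁ : UnitAddCircle), x.2 + (d₂ : UnitAddCircle)) ∧
      |d₁| ≤ h ∧ |d₂| ≤ h ∧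
      (x ∉ Z → d₁ = h * F.W₁ x ∧ d₂ = h * F.W₂ x ∧
        F.W₁ (F.map h x) = F.W₁ x ∧ F.W₂ (F.map h x) = F.W₂ x) := by
  have mD := F.measurableSet_diag h
  refine ⟨F.diag h ∪ mir ⁻¹' F.diag h, mD.union (mp_mir.measurable mD), ?_, fun x => ?_⟩
  · calc volume (F.diag h ∪ mir ⁻¹' F.diag h)
        ≤ volume (F.diag h) + volume (mir ⁻¹' F.diag h) := measure_union_le _ _
      _ ≤ ENNReal.ofReal (2 * h) + ENNReal.ofReal (2 * h) := by
          rw [mp_mir.measure_preimage mD.nullMeasurableSet]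
          exact add_le_add (F.vol_diag h0) (F.vol_diag h0)
      _ ≤ ENNReal.ofReal (16 * h) := by
          rw [← ENNReal.ofReal_add (by linarith) (by linarith)]
          exact ENNReal.ofReal_le_ofReal (by linarith)
  by_cases hx : rad (F.co x) < 1
  · obtain ⟨d₁, d₂, a, b, c, d⟩ := F.consistent_cell h0 h2 hx
    exact ⟨d₁, d₂, a, b, c, fun hZ => d fun hd => hZ (Or.inl hd)⟩
  by_cases hy : rad (F.co (mir x)) < 1
  · obtain ⟨d₁, d₂, a, b, c, d⟩ := F.consistent_cell h0 h2 hy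
    rw [F.map_mir h0 h2] at a d
    refine ⟨d₁, -d₂, ?_, b, by rwa [abs_neg], fun hZ => ?_⟩
    · rw [← mir_mir (F.map h x), a]
      simp only [mir, AddCircle.coe_neg, neg_add_rev, neg_neg, Prod.mk.injEq, true_and]
      abel
    · obtain ⟨e1, e2, e3, e4⟩ := d fun hd => hZ (Or.inr hd)
      rw [(F.W_mir _).1] at e1
      rw [(F.W_mir _).2] at e2
      rw [(F.W_mir _).1, (F.W_mir _).1] at e3
      rw [(F.W_mir _).2, (F.W_mir _).2] at e4
      exact ⟨e1, by rw [e2]; ring, e3, neg_injective e4⟩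
  · have e : F.map h x = x := by rw [F.map_of_not h hx, F.up_of_not h hy, mir_mir]
    refine ⟨0, 0, by simp [e], by simpa using h0, by simpa using h0, fun _ => ?_⟩
    simp [e, W₁, W₂, hx, hy]

theorem co_iter {h : ℝ} (h0 : 0 ≤ h) (h2 : h ≤ 2) (j : ℕ) {x : X2} (hx : rad (F.co x) < 1) :
    F.co ((F.map h)^[j] x) = (sqRot h)^[j] (F.co x) := by
  induction j with
  | zero => rfl
  | succ j ih =>
    have hr : rad (F.co ((F.map h)^[j] x)) < 1 := by rwa [ih, rad_iter h0 h2]
    rw [Function.iterate_succ_apply', Function.iterate_succ_apply', F.map_of_cell h hr,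
      F.co_up h0 h2 hr, ih]

theorem not_cell_iter {h : ℝ} (h0 : 0 ≤ h) (h2 : h ≤ 2) (j : ℕ) {x : X2}
    (hx : ¬ rad (F.co x) < 1) : ¬ rad (F.co ((F.map h)^[j] x)) < 1 := by
  induction j with
  | zero => exact hx
  | succ j ih => rwa [Function.iterate_succ_apply', F.cell_map h0 h2]

/-- The test functions carried along a flip made of `2 m` steps of size `2 / m`. -/
theorem flip_test {θ : ℝ → ℝ} {L κ : ℝ} (hL : 0 ≤ L) (hκ : 0 < κ) (hκ1 : κ ≤ 1)
    (hθ0 : ∀ s, 0 ≤ θ s) (hθ1 : ∀ s, θ s ≤ 1) (hlip : ∀ s s', |θ s' - θ s| ≤ L * |s' - s|)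
    (hsupp : ∀ s, s ≤ F.α ∨ F.β ≤ s → θ s = 0) {m : ℕ} (hm : 0 < m) :
    ∃ χ : ℕ → X2 → ℝ, (∀ j, χ (j + 1) = χ j ∘ F.map (2 / m)) ∧ (∀ j, Measurable (χ j)) ∧
      (∀ j x, 0 ≤ χ j x ∧ χ j x ≤ 1) ∧ (∀ j (x : X2), F.β < ‖x.2‖ → χ j x = 0) ∧
      (∀ j ≤ 2 * m, ∀ (x : X2) (s : ℝ),
        |χ j (x.1 + (s : UnitAddCircle), x.2) - χ j x|
          ≤ 100 * F.M * (1 / κ + L * (F.β - F.α)) * |s| ∧
        |χ j (x.1, x.2 + (s : UnitAddCircle)) - χ j x|
          ≤ 100 * (1 / κ + L * (F.β - F.α)) / (F.β - F.α) * |s|) ∧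
      volume {x : X2 | χ 0 x ≠ θ (fr x.2)} ≤ ENNReal.ofReal (4 * κ * F.β) ∧
      (∀ x : X2, χ (2 * m) x ≤ θ (F.α + F.β - fr x.2)) := by
  have hm1 : (1 : ℝ) ≤ m := by exact_mod_cast hm
  have h0 : (0 : ℝ) ≤ 2 / m := by positivity
  have h2 : (2 : ℝ) / m ≤ 2 := by rw [div_le_iff₀ (by linarith)]; linarith
  have hM := F.M_pos
  have hg := F.gap_pos
  have hα := F.hα
  have hβ := F.hβ
  have cθ : Continuous θ := by
    have : LipschitzWith ⟨L, hL⟩ θ := LipschitzWith.of_dist_le_mul fun s s' => by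
      rw [Real.dist_eq, Real.dist_eq]; exact hlip s' s
    exact this.continuous
  set χ0 : X2 → ℝ := fun x => cut κ (rad (F.co x)) * θ (fr x.2) with hχ0
  have mχ0 : Measurable χ0 :=
    ((continuous_cut κ).measurable.comp (continuous_rad.measurable.comp F.measurable_co)).mul
      (cθ.measurable.comp (measurable_fr.comp measurable_snd))
  set G : ℕ → ℝ × ℝ → ℝ := fun j w => cut κ (rad w) *
    θ ((((sqRot (2 / m))^[j] w).2 * (F.β - F.α) + F.α + F.β) / 2) with hG
  have G0 : ∀ j w, ¬ rad w < 1 → G j w = 0 := by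
    intro j w hw
    simp only [hG, cut_eq_zero hκ hw, zero_mul]
  have eG : ∀ j x, χ0 ((F.map (2 / m))^[j] x) = G j (F.co x) := by
    intro j x
    by_cases hx : rad (F.co x) < 1
    · simp only [hχ0, hG]
      rw [F.fr_snd, F.co_iter h0 h2 j hx, rad_iter h0 h2]
    · rw [G0 j _ hx]
      simp only [hχ0, cut_eq_zero hκ (F.not_cell_iter h0 h2 j hx), zero_mul]
  set K : ℝ := 50 * (1 / κ + L * (F.β - F.α)) with hK
  have K0 : 0 ≤ K := by positivity
  have lipG : ∀ j ≤ 2 * m, ∀ (d : ℝ) (w w' : ℝ × ℝ), Near d w w' → |G j w - G j w'| ≤ K * d := by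
    intro j hj d w w' hd
    have d0 : 0 ≤ d := (abs_nonneg _).trans hd.1
    have n1 := (near_iter hm hj hd).2
    have n2 := (cut_lip hκ (rad w) (rad w')).trans
      (mul_le_mul_of_nonneg_left (near_rad hd) (by positivity))
    set a := (((sqRot (2 / m))^[j] w).2 * (F.β - F.α) + F.α + F.β) / 2 with ha
    set a' := (((sqRot (2 / m))^[j] w').2 * (F.β - F.α) + F.α + F.β) / 2 with ha'
    have n3 : |a - a'| ≤ 25 * d * (F.β - F.α) / 2 := by
      have : a - a' = (((sqRot (2 / m))^[j] w).2 - ((sqRot (2 / m))^[j] w').2)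
          * (F.β - F.α) / 2 := by rw [ha, ha']; ring
      rw [this, abs_div, abs_mul, abs_of_pos hg, abs_two]
      gcongr
    have n4 := (hlip a' a).trans (mul_le_mul_of_nonneg_left n3 hL)
    have e : G j w - G j w' = (cut κ (rad w) - cut κ (rad w')) * θ a
        + cut κ (rad w') * (θ a - θ a') := by simp only [hG]; ring
    rw [e]
    refine (abs_add_le _ _).trans ?_
    rw [abs_mul, abs_mul, abs_of_nonneg (hθ0 a), abs_of_nonneg (cut_nonneg _ _)]
    have p1 : |cut κ (rad w) - cut κ (rad w')| * θ a ≤ 1 / κ * d :=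
      (mul_le_of_le_one_right (abs_nonneg _) (hθ1 a)).trans n2
    have p2 : cut κ (rad w') * |θ a - θ a'| ≤ L * (25 * d * (F.β - F.α) / 2) :=
      (mul_le_of_le_one_left (abs_nonneg _) (cut_le_one _ _)).trans n4
    have q1 : 0 ≤ 1 / κ * d := by positivity
    have q2 : 0 ≤ L * (F.β - F.α) * d := by positivity
    rw [hK]
    nlinarith
  refine ⟨fun j x => χ0 ((F.map (2 / m))^[j] x), fun j => ?_, fun j => ?_, fun j x => ?_,
    fun j x hx => ?_, fun j hj x s => ⟨?_, ?_⟩, ?_, fun x => ?_⟩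
  · funext x; simp [Function.iterate_succ_apply]
  · exact mχ0.comp ((F.map_mp h0 h2).measurable.iterate j)
  · exact ⟨mul_nonneg (cut_nonneg _ _) (hθ0 _),
      mul_le_one₀ (cut_le_one _ _) (hθ0 _) (hθ1 _)⟩
  · simp only
    rw [eG, G0 j _ fun h => absurd (F.norm_le_of_cell h) (not_le.2 hx)]
  · simp only
    rw [eG, eG]
    have := lip_fr (g := fun u => G j (2 * u - 1, (F.co x).2)) (K := 2 * K) (by positivity)
      (fun u v => ?_) (G0 j _ ?_) (G0 j _ ?_) (F.M • x.1) (F.M * s)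
    · have e : F.co (x.1 + (s : UnitAddCircle), x.2)
          = (2 * fr (F.M • x.1 + ((F.M * s : ℝ) : UnitAddCircle)) - 1, (F.co x).2) := by
        simp only [co]
        rw [nsmul_add, ← AddCircle.coe_nsmul, nsmul_eq_mul]
      rw [e]
      refine le_trans this (le_of_eq ?_)
      rw [abs_mul, abs_of_pos hM, hK]; ring
    · refine (lipG j hj (2 * |u - v|) _ _ ⟨?_, by simp⟩).trans (le_of_eq (by ring))
      have : 2 * u - 1 - (2 * v - 1) = 2 * (u - v) := by ring
      simp only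
      rw [this, abs_mul, abs_two]
    · rw [rad_lt_one]; norm_num
    · rw [rad_lt_one]; norm_num
  · simp only
    rw [eG, eG]
    have := lip_fr (g := fun u => G j ((F.co x).1, (2 * u - F.α - F.β) / (F.β - F.α)))
      (K := 2 / (F.β - F.α) * K) (by positivity)
      (fun u v => ?_) (G0 j _ ?_) (G0 j _ ?_) x.2 s
    · refine le_trans this (le_of_eq ?_)
      rw [hK]; ring
    · refine (lipG j hj (2 / (F.β - F.α) * |u - v|) _ _ ⟨by simp; positivity, ?_⟩).trans
        (le_of_eq (by ring))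
      have : (2 * u - F.α - F.β) / (F.β - F.α) - (2 * v - F.α - F.β) / (F.β - F.α)
          = 2 / (F.β - F.α) * (u - v) := by ring
      simp only
      rw [this, abs_mul, abs_of_pos (by positivity : 0 < 2 / (F.β - F.α))]
    · rw [rad_lt_one, F.snd_lt_iff]; rintro ⟨_, h, _⟩; linarith
    · rw [rad_lt_one, F.snd_lt_iff]; rintro ⟨_, _, h⟩; linarith
  · set S₁ : Set ℝ := Icc 0 (κ / 2) ∪ Icc (1 - κ / 2) 1 with hS₁
    set S₂ : Set ℝ := Icc F.α (F.α + κ * (F.β - F.α) / 2) ∪
      Icc (F.β - κ * (F.β - F.α) / 2) F.β with hS₂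
    have v1 : volume S₁ ≤ ENNReal.ofReal κ := by
      refine (measure_union_le _ _).trans (le_of_eq ?_)
      rw [Real.volume_Icc, Real.volume_Icc, ← ENNReal.ofReal_add (by linarith) (by linarith)]
      congr 1; ring
    have kg : 0 < κ * (F.β - F.α) := by positivity
    have v2 : volume S₂ ≤ ENNReal.ofReal (κ * (F.β - F.α)) := by
      refine (measure_union_le _ _).trans (le_of_eq ?_)
      rw [Real.volume_Icc, Real.volume_Icc, ← ENNReal.ofReal_add (by linarith) (by linarith)]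
      congr 1; ring
    calc volume {x : X2 | χ0 ((F.map (2 / m))^[0] x) ≠ θ (fr x.2)}
        ≤ volume ({z : UnitAddCircle | fr (F.M • z) ∈ S₁} ×ˢ (fr ⁻¹' Icc F.α F.β) ∪
            (univ : Set UnitAddCircle) ×ˢ (fr ⁻¹' S₂)) := by
          refine measure_mono fun x hx => ?_
          have hx' : cut κ (rad (F.co x)) * θ (fr x.2) ≠ θ (fr x.2) := hx
          have a1 : θ (fr x.2) ≠ 0 := fun e => hx' (by rw [e, mul_zero])
          have a2 : F.α < fr x.2 := by
            by_contra hc; exact a1 (hsupp _ (Or.inl (not_lt.1 hc)))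
          have a3 : fr x.2 < F.β := by
            by_contra hc; exact a1 (hsupp _ (Or.inr (not_lt.1 hc)))
          have a4 : 1 - κ < rad (F.co x) := by
            by_contra hc; exact hx' (by rw [cut_eq_one hκ (not_lt.1 hc), one_mul])
          rcases lt_max_iff.1 a4 with a5 | a5
          · left
            refine ⟨?_, a2.le, a3.le⟩
            have b := fr_mem (F.M • x.1)
            simp only [co] at a5
            rcases lt_abs.1 a5 with a6 | a6
            · right; exact ⟨by linarith, b.2.le⟩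
            · left; exact ⟨b.1, by linarith⟩
          · right
            refine ⟨mem_univ _, ?_⟩
            have b := F.fr_snd x
            rcases lt_abs.1 a5 with a6 | a6
            · right; exact ⟨by rw [b]; nlinarith, a3.le⟩
            · left; exact ⟨a2.le, by rw [b]; nlinarith⟩
      _ ≤ volume ({z : UnitAddCircle | fr (F.M • z) ∈ S₁} ×ˢ (fr ⁻¹' Icc F.α F.β)) +
            volume ((univ : Set UnitAddCircle) ×ˢ (fr ⁻¹' S₂)) := measure_union_le _ _
      _ ≤ ENNReal.ofReal κ * ENNReal.ofReal (F.β - F.α) + ENNReal.ofReal (κ * (F.β - F.α)) := by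
          rw [Measure.volume_eq_prod, Measure.prod_prod, Measure.prod_prod]
          refine add_le_add (mul_le_mul' ?_ ?_) ?_
          · exact (vol_frM_le F.hM (measurableSet_Icc.union measurableSet_Icc)).trans v1
          · exact (vol_fr_le measurableSet_Icc).trans (le_of_eq Real.volume_Icc)
          · rw [UnitAddCircle.measure_univ, one_mul]
            exact (vol_fr_le (measurableSet_Icc.union measurableSet_Icc)).trans v2
      _ ≤ ENNReal.ofReal (4 * κ * F.β) := by
          rw [← ENNReal.ofReal_mul hκ.le, ← ENNReal.ofReal_add kg.le kg.le]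
          exact ENNReal.ofReal_le_ofReal (by nlinarith)
  · simp only
    rw [eG]
    simp only [hG]
    rw [sqRot_iter_two hm]
    have e : ((-F.co x).2 * (F.β - F.α) + F.α + F.β) / 2 = F.α + F.β - fr x.2 := by
      rw [F.fr_snd x, Prod.snd_neg]; ring
    rw [e]
    exact mul_le_of_le_one_left (hθ0 _) (cut_le_one _ _)

end Band

end AdvDiff
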