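import Pool.Agent.Lib.MP_0c2f33_an.Square

/-!
The band flip on the torus: basic properties and preservation of measure.
-/

open MeasureTheory Set

namespace AdvDiff

theorem fr_coe (s : ℝ) : fr (s : UnitAddCircle) = Int.fract s := by
  simp [fr]

theorem coe_fr (z : UnitAddCircle) : ((fr z : ℝ) : UnitAddCircle) = z :=
  (AddCircle.equivIco 1 0).symm_apply_apply z

theorem fr_mem (z : UnitAddCircle) : fr z ∈ Ico (0 : ℝ) 1 := by
  have := (AddCircle.equivIco (1 : ℝ) 0 z).2
  simpa [fr] using this

theorem measurable_fr : Measurable fr :=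
  measurable_subtype_coe.comp (AddCircle.measurableEquivIco (1 : ℝ) 0).measurable

theorem fr_coe_of_mem {s : ℝ} (h0 : 0 ≤ s) (h1 : s < 1) : fr (s : UnitAddCircle) = s := by
  rw [fr_coe, Int.fract_eq_self.2 ⟨h0, h1⟩]

theorem fr_add (z : UnitAddCircle) (d : ℝ) :
    fr (z + (d : UnitAddCircle)) = Int.fract (fr z + d) := by
  conv_lhs => rw [← coe_fr z, ← AddCircle.coe_add, fr_coe]

theorem fr_add_of_mem {z : UnitAddCircle} {d : ℝ} (h0 : 0 ≤ fr z + d) (h1 : fr z + d < 1) :
    fr (z + (d : UnitAddCircle)) = fr z + d := by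
  rw [fr_add, Int.fract_eq_self.2 ⟨h0, h1⟩]

theorem norm_coe_le (s : ℝ) : ‖(s : UnitAddCircle)‖ ≤ |s| :=
  QuotientAddGroup.norm_mk_le_norm

theorem norm_le_fr (z : UnitAddCircle) : ‖z‖ ≤ fr z := by
  have := norm_coe_le (fr z)
  rwa [coe_fr, abs_of_nonneg (fr_mem z).1] at this

theorem fr_neg {z : UnitAddCircle} (hz : 0 < fr z) : fr (-z) = 1 - fr z := by
  have h1 := (fr_mem z).2
  have : -z = ((1 - fr z : ℝ) : UnitAddCircle) := by
    rw [AddCircle.coe_sub, coe_fr, AddCircle.coe_period, zero_sub]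
  rw [this, fr_coe_of_mem (by linarith) (by linarith)]

theorem measurable_coe : Measurable ((↑) : ℝ → UnitAddCircle) := AddCircle.measurable_mk'

theorem vol_fr_le {S : Set ℝ} (hS : MeasurableSet S) : volume (fr ⁻¹' S) ≤ volume S := by
  rw [← (UnitAddCircle.measurePreserving_mk 0).measure_preimage
    (measurable_fr hS).nullMeasurableSet,
    Measure.restrict_apply (measurable_coe (measurable_fr hS))]
  calc volume ((((↑) : ℝ → UnitAddCircle) ⁻¹' (fr ⁻¹' S)) ∩ Ioc 0 (0 + 1))
      ≤ volume (S ∪ {1}) := by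
        refine measure_mono fun t ht => ?_
        rcases eq_or_lt_of_le ht.2.2 with e | e
        · right; simpa using e
        · left
          have := ht.1
          rwa [mem_preimage, mem_preimage, fr_coe_of_mem ht.2.1.le (by simpa using e)] at this
    _ ≤ volume S + volume ({1} : Set ℝ) := measure_union_le _ _
    _ = volume S := by simp

theorem mp_nsmul {M : ℕ} (hM : 0 < M) :
    MeasurePreserving (fun z : UnitAddCircle => M • z) volume volume := by
  have := Measure.measurePreserving_zsmul (volume : Measure UnitAddCircle) (n := (M : ℤ))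
    (by exact_mod_cast hM.ne')
  simpa using this

theorem vol_frM_le {M : ℕ} (hM : 0 < M) {S : Set ℝ} (hS : MeasurableSet S) :
    volume {z : UnitAddCircle | fr (M • z) ∈ S} ≤ volume S := by
  have := (mp_nsmul hM).measure_preimage (measurable_fr hS).nullMeasurableSet
  exact this.le.trans (vol_fr_le hS)

theorem mir_mir (x : X2) : mir (mir x) = x := by simp [mir]

theorem mp_mir : MeasurePreserving mir (volume : Measure X2) volume :=
  (MeasurePreserving.id (volume : Measure UnitAddCircle)).prod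
    (Measure.measurePreserving_neg (volume : Measure UnitAddCircle))

namespace Band

variable (F : Band)

theorem gap_pos : 0 < F.β - F.α := sub_pos.2 F.hαβ

theorem M_pos : (0 : ℝ) < F.M := by exact_mod_cast F.hM

theorem measurable_co : Measurable F.co := by
  have h1 : Measurable fun x : X2 => fr (F.M • x.1) :=
    measurable_fr.comp ((mp_nsmul F.hM).measurable.comp measurable_fst)
  have h2 : Measurable fun x : X2 => fr x.2 := measurable_fr.comp measurable_snd
  unfold co
  fun_prop

theorem measurableSet_cell : MeasurableSet {x : X2 | rad (F.co x) < 1} :=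
  measurableSet_lt (continuous_rad.measurable.comp F.measurable_co) measurable_const

theorem snd_lt_iff (s : ℝ) :
    |(2 * s - F.α - F.β) / (F.β - F.α)| < 1 ↔ F.α < s ∧ s < F.β := by
  have := F.gap_pos
  rw [abs_lt, lt_div_iff₀ this, div_lt_iff₀ this]
  constructor <;> rintro ⟨h1, h2⟩ <;> constructor <;> linarith

theorem cell_iff (x : X2) :
    rad (F.co x) < 1 ↔ 0 < fr (F.M • x.1) ∧ F.α < fr x.2 ∧ fr x.2 < F.β := by
  rw [rad_lt_one]
  simp only [co]
  rw [F.snd_lt_iff, abs_lt]
  have := (fr_mem (F.M • x.1)).2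
  constructor
  · rintro ⟨⟨h1, _⟩, h2⟩; exact ⟨by linarith, h2⟩
  · rintro ⟨h1, h2⟩; exact ⟨⟨by linarith, by linarith⟩, h2⟩

theorem fr_snd (x : X2) : fr x.2 = ((F.co x).2 * (F.β - F.α) + F.α + F.β) / 2 := by
  have := F.gap_pos.ne'
  simp only [co]
  field_simp
  ring

theorem not_cell_mir {x : X2} (hx : rad (F.co x) < 1) : ¬ rad (F.co (mir x)) < 1 := by
  rw [cell_iff] at hx ⊢
  rintro ⟨_, _, h3⟩
  have h0 := F.hα
  have h1 := F.hβ
  simp only [mir] at h3
  rw [fr_neg (by linarith [hx.2.1])] at h3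
  linarith [hx.2.2]

theorem norm_le_of_cell {x : X2} (hx : rad (F.co x) < 1) : ‖x.2‖ ≤ F.β :=
  (norm_le_fr _).trans ((F.cell_iff x).1 hx).2.2.le

theorem norm_le_of_cell_mir {x : X2} (hx : rad (F.co (mir x)) < 1) : ‖x.2‖ ≤ F.β := by
  have := F.norm_le_of_cell hx
  simpa [mir] using this

theorem up_of_not (h : ℝ) {x : X2} (hx : ¬ rad (F.co x) < 1) : F.up h x = x := by
  simp [up, hx]

theorem co_up {h : ℝ} (h0 : 0 ≤ h) (h2 : h ≤ 2) {x : X2} (hx : rad (F.co x) < 1) :
    F.co (F.up h x) = sqRot h (F.co x) := by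
  have hr : rad (sqRot h (F.co x)) < 1 := by rwa [rad_sqRot h0 h2]
  obtain ⟨r1, r2⟩ := rad_lt_one.1 hr
  have r1' := abs_lt.1 r1
  have r2' := abs_lt.1 r2
  have hM := F.M_pos
  have hg := F.gap_pos
  have hα := F.hα
  have hβ := F.hβ
  have e1 : fr (F.M • x.1) = ((F.co x).1 + 1) / 2 := by simp [co]
  have e2 := F.fr_snd x
  have f1 : fr (F.M • (F.up h x).1) = ((sqRot h (F.co x)).1 + 1) / 2 := by
    simp only [up, if_pos hx]
    rw [nsmul_add, ← AddCircle.coe_nsmul, nsmul_eq_mul]
    have : (F.M : ℝ) * (((sqRot h (F.co x)).1 - (F.co x).1) / (2 * F.M))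
        = ((sqRot h (F.co x)).1 - (F.co x).1) / 2 := by field_simp
    rw [this, fr_add_of_mem (by rw [e1]; linarith) (by rw [e1]; linarith), e1]
    ring
  have f2 : fr (F.up h x).2 = ((sqRot h (F.co x)).2 * (F.β - F.α) + F.α + F.β) / 2 := by
    simp only [up, if_pos hx]
    rw [fr_add_of_mem (by rw [e2]; nlinarith) (by rw [e2]; nlinarith), e2]
    ring
  ext
  · simp only [co] at f1 ⊢
    rw [f1]; ring
  · conv_lhs => simp only [co]
    rw [f2]
    field_simp
    ring

theorem cell_up {h : ℝ} (h0 : 0 ≤ h) (h2 : h ≤ 2) (x : X2) :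
    rad (F.co (F.up h x)) < 1 ↔ rad (F.co x) < 1 := by
  by_cases hx : rad (F.co x) < 1
  · rw [F.co_up h0 h2 hx, rad_sqRot h0 h2]
  · rw [F.up_of_not h hx]

theorem map_of_cell (h : ℝ) {x : X2} (hx : rad (F.co x) < 1) : F.map h x = F.up h x := by
  simp [map, hx]

theorem map_of_not (h : ℝ) {x : X2} (hx : ¬ rad (F.co x) < 1) :
    F.map h x = mir (F.up h (mir x)) := by
  simp [map, hx]

theorem cell_map {h : ℝ} (h0 : 0 ≤ h) (h2 : h ≤ 2) (x : X2) :
    rad (F.co (F.map h x)) < 1 ↔ rad (F.co x) < 1 := by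
  by_cases hx : rad (F.co x) < 1
  · rw [F.map_of_cell h hx, F.cell_up h0 h2]
  · rw [F.map_of_not h hx]
    by_cases hy : rad (F.co (mir x)) < 1
    · exact iff_of_false (F.not_cell_mir ((F.cell_up h0 h2 _).2 hy)) hx
    · rw [F.up_of_not h hy, mir_mir]

theorem map_eq_comp {h : ℝ} (h0 : 0 ≤ h) (h2 : h ≤ 2) :
    F.map h = F.up h ∘ mir ∘ F.up h ∘ mir := by
  funext x
  simp only [Function.comp]
  by_cases hx : rad (F.co x) < 1
  · rw [F.map_of_cell h hx, F.up_of_not h (F.not_cell_mir hx), mir_mir]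
  · rw [← F.map_of_not h hx, F.up_of_not h (by rwa [F.cell_map h0 h2])]

theorem measurable_up {h : ℝ} (h0 : 0 ≤ h) (h2 : h ≤ 2) : Measurable (F.up h) := by
  have h1 := F.measurable_co
  have h3 : Measurable fun x : X2 => sqRot h (F.co x) := (continuous_sqRot h0 h2).measurable.comp h1
  unfold up
  refine Measurable.ite F.measurableSet_cell ?_ measurable_id
  exact Measurable.prodMk
    (measurable_fst.add (measurable_coe.comp ((h3.fst.sub h1.fst).div_const _)))
    (measurable_snd.add (measurable_coe.comp (((h3.snd.sub h1.snd).mul_const _).div_const _)))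

/-- The open rectangle of the `i`-th cell in the plane. -/
def rect (i : ℕ) : Set (ℝ × ℝ) :=
  {p | (i : ℝ) < F.M * p.1 ∧ F.M * p.1 < i + 1 ∧ F.α < p.2 ∧ p.2 < F.β}

theorem measurableSet_rect (i : ℕ) : MeasurableSet (F.rect i) := by
  have m1 : MeasurableSet {p : ℝ × ℝ | (i : ℝ) < F.M * p.1} :=
    measurableSet_lt (by fun_prop) (by fun_prop)
  have m2 : MeasurableSet {p : ℝ × ℝ | F.M * p.1 < i + 1} :=
    measurableSet_lt (by fun_prop) (by fun_prop)
  have m3 : MeasurableSet {p : ℝ × ℝ | F.α < p.2} := measurableSet_lt (by fun_prop) (by fun_prop)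
  have m4 : MeasurableSet {p : ℝ × ℝ | p.2 < F.β} := measurableSet_lt (by fun_prop) (by fun_prop)
  exact m1.inter (m2.inter (m3.inter m4))

/-- The covering map of the torus. -/
def pr (p : ℝ × ℝ) : X2 := ((p.1 : UnitAddCircle), (p.2 : UnitAddCircle))

theorem co_pr {i : ℕ} {p : ℝ × ℝ} (hp : p ∈ F.rect i) :
    F.co (pr p) = (2 * F.M * p.1 + (-2 * i - 1),
      2 / (F.β - F.α) * p.2 + (-(F.α + F.β) / (F.β - F.α))) := by
  obtain ⟨h1, h2, h3, h4⟩ := hp
  have hα := F.hα
  have hβ := F.hβ
  have hg := F.gap_pos.ne'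
  have e1 : fr (F.M • (p.1 : UnitAddCircle)) = F.M * p.1 - i := by
    rw [← AddCircle.coe_nsmul, nsmul_eq_mul, fr_coe, ← Int.fract_sub_natCast _ i,
      Int.fract_eq_self.2 ⟨by linarith, by linarith⟩]
  have e2 : fr (p.2 : UnitAddCircle) = p.2 := fr_coe_of_mem (by linarith) (by linarith)
  simp only [co, pr, e1, e2, Prod.mk.injEq]
  constructor
  · ring
  · field_simp; ring

theorem cell_pr {i : ℕ} {p : ℝ × ℝ} (hp : p ∈ F.rect i) : rad (F.co (pr p)) < 1 := by
  rw [F.co_pr hp, rad_lt_one]
  obtain ⟨h1, h2, h3, h4⟩ := hp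
  have hg := F.gap_pos.ne'
  constructor
  · rw [abs_lt]; constructor <;> simp only <;> linarith
  · have := (F.snd_lt_iff p.2).2 ⟨h3, h4⟩
    convert this using 2
    field_simp; ring

theorem up_preimage_le {h : ℝ} (h0 : 0 ≤ h) (h2 : h ≤ 2) {B : Set X2} (hB : MeasurableSet B) :
    volume (F.up h ⁻¹' B) ≤ volume B := by
  have hM := F.M_pos
  have hg := F.gap_pos
  have hα := F.hα
  have hβ := F.hβ
  set Q : Set (ℝ × ℝ) := Ioc (0 : ℝ) (0 + 1) ×ˢ Ioc (0 : ℝ) (0 + 1) with hQ
  have mQ : MeasurableSet Q := measurableSet_Ioc.prod measurableSet_Ioc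
  have hpr : MeasurePreserving pr ((volume : Measure (ℝ × ℝ)).restrict Q) volume := by
    have := (UnitAddCircle.measurePreserving_mk 0).prod (UnitAddCircle.measurePreserving_mk 0)
    rwa [Measure.prod_restrict] at this
  have vol : ∀ S : Set X2, MeasurableSet S → volume S = volume (pr ⁻¹' S ∩ Q) := by
    intro S hS
    rw [← hpr.measure_preimage hS.nullMeasurableSet, Measure.restrict_apply (hpr.measurable hS)]
  set U : Set X2 := {x | rad (F.co x) < 1} with hU
  have mU : MeasurableSet U := F.measurableSet_cell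
  have mB' : MeasurableSet (pr ⁻¹' B) := hpr.measurable hB
  have key : volume (F.up h ⁻¹' B ∩ U) ≤ volume (B ∩ U) := by
    rw [vol _ ((F.measurable_up h0 h2 hB).inter mU), vol _ (hB.inter mU)]
    calc volume (pr ⁻¹' (F.up h ⁻¹' B ∩ U) ∩ Q)
        ≤ volume (⋃ i ∈ Finset.range F.M, (pr ⁻¹' (F.up h ⁻¹' B) ∩ F.rect i)) := by
          refine measure_mono ?_
          rintro p ⟨⟨hp1, hp2⟩, hq1, hq2⟩
          obtain ⟨c1, c2, c3⟩ := (F.cell_iff _).1 hp2
          simp only [pr] at c1 c2 c3
          rw [← AddCircle.coe_nsmul, nsmul_eq_mul, fr_coe] at c1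
          have hq2' : p.2 < 1 := by
            rcases eq_or_lt_of_le hq2.2 with e | e
            · rw [e, fr_coe] at c2
              simp at c2
              linarith
            · simpa using e
          rw [fr_coe_of_mem hq2.1.le hq2'] at c2 c3
          have hpos : 0 ≤ F.M * p.1 := mul_nonneg hM.le hq1.1.le
          have hle : F.M * p.1 ≤ F.M := by
            have := hq1.2
            nlinarith
          have hfl : (⌊F.M * p.1⌋₊ : ℝ) < F.M * p.1 := by
            have e := natCast_floor_eq_intCast_floor hpos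
            rw [e]
            unfold Int.fract at c1
            linarith
          simp only [mem_iUnion, Finset.mem_range]
          refine ⟨⌊F.M * p.1⌋₊, ?_, hp1, hfl, Nat.lt_floor_add_one _, c2, c3⟩
          exact_mod_cast hfl.trans_le hle
      _ ≤ ∑ i ∈ Finset.range F.M, volume (pr ⁻¹' (F.up h ⁻¹' B) ∩ F.rect i) :=
          measure_biUnion_finset_le _ _
      _ ≤ ∑ i ∈ Finset.range F.M, volume (pr ⁻¹' B ∩ F.rect i) := by
          refine Finset.sum_le_sum fun i _ => ?_
          refine le_trans (measure_mono ?_) (conj_preimage_le h0 h2 (a := 2 * F.M)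
            (c := 2 / (F.β - F.α)) (by positivity) (by positivity) (-2 * i - 1)
            (-(F.α + F.β) / (F.β - F.α)) (mB'.inter (F.measurableSet_rect i)))
          rintro p ⟨hp1, hp2⟩
          have c := F.cell_pr hp2
          have e := F.co_pr hp2
          have hr : rad (sqRot h (F.co (pr p))) < 1 := by rwa [rad_sqRot h0 h2]
          obtain ⟨r1, r2⟩ := rad_lt_one.1 hr
          have r1' := abs_lt.1 r1
          have r2' := abs_lt.1 r2
          rw [mem_ofPred_eq, ← e]
          set w' := sqRot h (F.co (pr p)) with hw'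
          have g1 : (w'.1 - (-2 * i - 1)) / (2 * F.M)
              = p.1 + (w'.1 - (F.co (pr p)).1) / (2 * F.M) := by
            rw [e]; field_simp; ring
          have g2 : (w'.2 - -(F.α + F.β) / (F.β - F.α)) / (2 / (F.β - F.α))
              = p.2 + (w'.2 - (F.co (pr p)).2) * (F.β - F.α) / 2 := by
            rw [e]; field_simp; ring
          constructor
          · rw [mem_preimage, mem_preimage] at hp1
            rw [mem_preimage, g1, g2]
            convert hp1 using 1
            simp only [up, if_pos c, ← hw']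
            simp only [pr, AddCircle.coe_add]
          · have k1 : F.M * ((w'.1 - (-2 * i - 1)) / (2 * F.M)) = i + (w'.1 + 1) / 2 := by
              field_simp; ring
            have k2 : (w'.2 - -(F.α + F.β) / (F.β - F.α)) / (2 / (F.β - F.α))
                = (w'.2 * (F.β - F.α) + F.α + F.β) / 2 := by
              field_simp; ring
            refine ⟨?_, ?_, ?_, ?_⟩
            · rw [k1]; linarith
            · rw [k1]; linarith
            · rw [k2]; nlinarith
            · rw [k2]; nlinarith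
      _ = volume (⋃ i ∈ Finset.range F.M, (pr ⁻¹' B ∩ F.rect i)) := by
          refine (measure_biUnion_finset ?_ fun i _ => mB'.inter (F.measurableSet_rect i)).symm
          intro i _ j _ hij
          refine Set.disjoint_left.2 fun p hp hq => hij ?_
          have a1 := hp.2.1
          have a2 := hp.2.2.1
          have b1 := hq.2.1
          have b2 := hq.2.2.1
          have c1 : (i : ℝ) < j + 1 := by linarith
          have c2 : (j : ℝ) < i + 1 := by linarith
          have c1' : i < j + 1 := by exact_mod_cast c1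
          have c2' : j < i + 1 := by exact_mod_cast c2
          omega
      _ ≤ volume (pr ⁻¹' (B ∩ U) ∩ Q) := by
          refine measure_mono fun p hp => ?_
          simp only [mem_iUnion, Finset.mem_range] at hp
          obtain ⟨i, hi, hp1, hp2⟩ := hp
          refine ⟨⟨hp1, F.cell_pr hp2⟩, ?_⟩
          obtain ⟨a1, a2, a3, a4⟩ := hp2
          have hi' : (i : ℝ) + 1 ≤ F.M := by exact_mod_cast hi
          have hi0 : (0 : ℝ) ≤ i := Nat.cast_nonneg i
          refine ⟨⟨?_, ?_⟩, by linarith, by linarith⟩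
          · by_contra hc
            nlinarith
          · by_contra hc
            nlinarith
  calc volume (F.up h ⁻¹' B) = volume (F.up h ⁻¹' B ∩ U) + volume (F.up h ⁻¹' B \ U) :=
        (measure_inter_add_sdiff _ mU).symm
    _ ≤ volume (B ∩ U) + volume (B \ U) := by
        refine add_le_add key (measure_mono ?_)
        rintro x ⟨hx1, hx2⟩
        refine ⟨?_, hx2⟩
        rwa [mem_preimage, F.up_of_not h hx2] at hx1
    _ = volume B := measure_inter_add_sdiff _ mU

theorem up_mp {h : ℝ} (h0 : 0 ≤ h) (h2 : h ≤ 2) : MeasurePreserving (F.up h) volume volume := by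
  have hm := F.measurable_up h0 h2
  refine ⟨hm, ?_⟩
  ext B hB
  rw [Measure.map_apply hm hB]
  refine le_antisymm (F.up_preimage_le h0 h2 hB) ?_
  have h1 := F.up_preimage_le h0 h2 hB.compl
  rw [preimage_compl, measure_compl (hm hB) (measure_ne_top _ _),
    measure_compl hB (measure_ne_top _ _)] at h1
  exact (ENNReal.sub_le_sub_iff_left (measure_mono (subset_univ _)) (measure_ne_top _ _)).1 h1

theorem map_mp {h : ℝ} (h0 : 0 ≤ h) (h2 : h ≤ 2) :
    MeasurePreserving (F.map h) volume volume := by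
  rw [F.map_eq_comp h0 h2]
  exact (F.up_mp h0 h2).comp (mp_mir.comp ((F.up_mp h0 h2).comp mp_mir))

end Band

end AdvDiff
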