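import Pool.Agent.Lib.MP_0c2f33_an.PosDefs

/-!
Rotation along concentric squares, and the induced flip of a horizontal band of the torus.
-/

open MeasureTheory Set

namespace AdvDiff

/-- The representative in `[0,1)` of a point of the circle. -/
noncomputable def fr (z : UnitAddCircle) : ℝ := (AddCircle.equivIco 1 0 z : ℝ)

/-- The sup norm on the plane. -/
noncomputable def rad (w : ℝ × ℝ) : ℝ := max |w.1| |w.2|

/-- Counterclockwise motion along the square `rad = r` by arc length `h r`, for `0 ≤ h ≤ 2`. -/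
noncomputable def sqRot (h : ℝ) (w : ℝ × ℝ) : ℝ × ℝ :=
  if |w.2| ≤ w.1 then (min w.1 (2 * w.1 - w.2 - h * w.1), min w.1 (w.2 + h * w.1))
  else if |w.1| ≤ w.2 then (max (-w.2) (w.1 - h * w.2), min w.2 (2 * w.2 + w.1 - h * w.2))
  else if |w.2| ≤ -w.1 then (max w.1 (2 * w.1 - w.2 - h * w.1), max w.1 (w.2 + h * w.1))
  else (min (-w.2) (w.1 - h * w.2), max w.2 (2 * w.2 + w.1 - h * w.2))

/-- The velocity of `sqRot`. -/
noncomputable def sqVel (w : ℝ × ℝ) : ℝ × ℝ := if |w.2| ≤ |w.1| then (0, w.1) else (-w.2, 0)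

/-- The band `α < y < β` of the torus, cut into `M` cells of width `1 / M`. -/
structure Band where
  M : ℕ
  α : ℝ
  β : ℝ
  hM : 0 < M
  hα : 0 ≤ α
  hαβ : α < β
  hβ : β ≤ 1 / 2

/-- The reflection `y ↦ -y`. -/
def mir (x : X2) : X2 := (x.1, -x.2)

namespace Band

variable (F : Band)

/-- Normalised cell coordinates: the open cells of the upper band are `rad (co x) < 1`. -/
noncomputable def co (x : X2) : ℝ × ℝ :=
  (2 * fr (F.M • x.1) - 1, (2 * fr x.2 - F.α - F.β) / (F.β - F.α))

/-- The square rotation in every cell of the upper band. -/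
noncomputable def up (h : ℝ) (x : X2) : X2 :=
  if rad (F.co x) < 1 then
    (x.1 + ((((sqRot h (F.co x)).1 - (F.co x).1) / (2 * F.M) : ℝ) : UnitAddCircle),
     x.2 + ((((sqRot h (F.co x)).2 - (F.co x).2) * (F.β - F.α) / 2 : ℝ) : UnitAddCircle))
  else x

/-- The rotation in the upper band together with its mirror image in the lower band. -/
noncomputable def map (h : ℝ) (x : X2) : X2 :=
  if rad (F.co x) < 1 then F.up h x else mir (F.up h (mir x))

/-- First component of the velocity of `map`. -/
noncomputable def W₁ (x : X2) : ℝ :=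
  if rad (F.co x) < 1 then (sqVel (F.co x)).1 / (2 * F.M)
  else if rad (F.co (mir x)) < 1 then (sqVel (F.co (mir x))).1 / (2 * F.M) else 0

/-- Second component of the velocity of `map`. -/
noncomputable def W₂ (x : X2) : ℝ :=
  if rad (F.co x) < 1 then (sqVel (F.co x)).2 * (F.β - F.α) / 2
  else if rad (F.co (mir x)) < 1 then -((sqVel (F.co (mir x))).2 * (F.β - F.α) / 2) else 0

end Band

end AdvDiff
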