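import Pool.Agent.Lib.MP_0c2f33_an.Unif
import Pool.Agent.Lib.MP_0c2f33_an.FlipDefs

/-!
The cone of odd functions that are nonnegative on the upper half torus, and the discrete heat step.
-/

open MeasureTheory Set
open scoped ENNReal

namespace AdvDiff

/-- Bounded measurable functions, odd in `y` and nonnegative for `0 ≤ y ≤ 1/2`. -/
structure Cone (v : X2 → ℝ) : Prop where
  bm : BM v
  odd : ∀ x, v (mir x) = -v x
  pos : ∀ x₁ : UnitAddCircle, ∀ s ∈ Icc (0 : ℝ) (1 / 2), 0 ≤ v (x₁, (s : UnitAddCircle))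

/-- Invariance under horizontal translations by multiples of `1 / M`. -/
def Per (M : ℕ) (v : X2 → ℝ) : Prop :=
  ∀ c : UnitAddCircle, M • c = 0 → ∀ x : X2, v (x.1 + c, x.2) = v x

theorem Per.of_dvd {M M' : ℕ} (h : M ∣ M') {v : X2 → ℝ} (hv : Per M' v) : Per M v := by
  intro c hc x
  obtain ⟨k, rfl⟩ := h
  exact hv c (by rw [mul_comm, mul_smul, hc, smul_zero]) x

theorem mir_mir' (x : X2) : mir (mir x) = x := by simp [mir]

theorem measurable_mir : Measurable mir := by unfold mir; fun_prop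

theorem circle_cases (y : UnitAddCircle) :
    ∃ s ∈ Icc (0 : ℝ) (1 / 2), y = (s : UnitAddCircle) ∨ y = -(s : UnitAddCircle) := by
  obtain ⟨r, rfl⟩ := QuotientAddGroup.mk_surjective y
  have h1 : ((r - round r : ℝ) : UnitAddCircle) = (r : UnitAddCircle) := by
    rw [AddCircle.coe_sub, sub_eq_self, AddCircle.coe_eq_zero_iff]
    exact ⟨round r, by simp⟩
  refine ⟨|r - round r|, ⟨abs_nonneg _, abs_sub_round r⟩, ?_⟩
  rcases abs_cases (r - round r) with h | h
  · left; rw [h.1, h1]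
  · right; rw [h.1, AddCircle.coe_neg, neg_neg, h1]

namespace Cone

variable {u v w : X2 → ℝ}

theorem zero : Cone (fun _ => 0) := ⟨BM.const 0, fun _ => by simp, fun _ _ _ => le_rfl⟩

theorem add (hv : Cone v) (hw : Cone w) : Cone (fun x => v x + w x) :=
  ⟨hv.bm.add hw.bm, fun x => by rw [hv.odd, hw.odd]; ring,
    fun x s hs => add_nonneg (hv.pos x s hs) (hw.pos x s hs)⟩

theorem cmul (hv : Cone v) {c : ℝ} (hc : 0 ≤ c) : Cone (fun x => c * v x) :=
  ⟨hv.bm.cmul c, fun x => by rw [hv.odd]; ring, fun x s hs => mul_nonneg hc (hv.pos x s hs)⟩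

theorem congr (hv : Cone v) (h : ∀ x, w x = v x) : Cone w := by
  rwa [show w = v from funext h]

theorem neg_lower (hv : Cone v) (x₁ : UnitAddCircle) {s : ℝ} (hs : s ∈ Icc (0 : ℝ) (1 / 2)) :
    v (x₁, -(s : UnitAddCircle)) ≤ 0 := by
  have := hv.odd (x₁, (s : UnitAddCircle))
  simp only [mir] at this
  rw [this]
  linarith [hv.pos x₁ s hs]

theorem abs_le (hv : Cone v) (hw : Cone (fun x => w x - v x)) (x : X2) : |v x| ≤ |w x| := by
  obtain ⟨x₁, y⟩ := x
  obtain ⟨s, hs, rfl | rfl⟩ := circle_cases y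
  · have h1 := hv.pos x₁ s hs
    have h2 := hw.pos x₁ s hs
    rw [abs_of_nonneg h1]
    exact le_trans (by linarith) (le_abs_self _)
  · have h1 := hv.neg_lower x₁ hs
    have h2 := hw.neg_lower x₁ hs
    rw [abs_of_nonpos h1]
    exact le_trans (by linarith) (neg_le_abs _)

theorem mul_nonneg' (hv : Cone v) (hw : Cone w) (x : X2) : 0 ≤ v x * w x := by
  obtain ⟨x₁, y⟩ := x
  obtain ⟨s, hs, rfl | rfl⟩ := circle_cases y
  · exact mul_nonneg (hv.pos x₁ s hs) (hw.pos x₁ s hs)
  · exact mul_nonneg_of_nonpos_of_nonpos (hv.neg_lower x₁ hs) (hw.neg_lower x₁ hs)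

theorem av_ex (hv : Cone v) (a : ℝ) : Cone (av ex (unif a) v) := by
  refine ⟨hv.bm.av cont_ex, fun x => ?_, fun x s hs => ?_⟩
  · simp only [av, add_ex, ← integral_neg]
    congr 1
    funext s
    exact hv.odd (x.1 + (s : UnitAddCircle), x.2)
  · exact integral_nonneg fun r => by
      simp only [add_ex]; exact hv.pos _ s hs

theorem av_ey (hv : Cone v) {a : ℝ} (ha : 0 < a) (ha4 : a ≤ 1 / 4) :
    Cone (av ey (unif a) v) := by
  refine ⟨hv.bm.av cont_ey, fun x => ?_, fun x s hs => ?_⟩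
  · rw [av_symm (mir x)]
    simp only [av, add_ey, ← integral_neg]
    congr 1
    funext s
    have := hv.odd (x.1, x.2 + (s : UnitAddCircle))
    simp only [mir, neg_add] at this ⊢
    rw [← this, AddCircle.coe_neg]
  · set f : ℝ → ℝ := fun r => v (x, (r : UnitAddCircle)) with hf
    have hfm : Measurable f := hv.bm.1.comp
      (measurable_const.prodMk (AddCircle.continuous_mk' 1).measurable)
    have hfi : ∀ c d, IntervalIntegrable f volume c d := by
      intro c d
      obtain ⟨A, hA⟩ := hv.bm.2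
      refine (intervalIntegrable_const (c := A)).mono_fun hfm.aestronglyMeasurable
        (Filter.Eventually.of_forall fun r => ?_)
      simp only [Real.norm_eq_abs]
      exact (hA _).trans (le_abs_self _)
    have hodd : ∀ r, f (-r) = -f r := fun r => by
      have := hv.odd (x, (r : UnitAddCircle))
      simpa [hf, mir] using this
    have hodd' : ∀ r, f (1 - r) = -f r := fun r => by
      rw [← hodd]
      simp only [hf]
      congr 2
      rw [sub_eq_add_neg, AddCircle.coe_add, AddCircle.coe_period, zero_add]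
    have hpos : ∀ c d, 0 ≤ c → c ≤ d → d ≤ 1 / 2 → 0 ≤ ∫ r in c..d, f r := fun c d h1 h2 h3 =>
      intervalIntegral.integral_nonneg h2 fun r hr => hv.pos x r ⟨h1.trans hr.1, hr.2.trans h3⟩
    have h1 : av ey (unif a) v (x, (s : UnitAddCircle))
        = (2 * a)⁻¹ * ∫ r in (s - a)..(s + a), f r := by
      have : (fun r : ℝ => v ((x, (s : UnitAddCircle)) + ey r)) = fun r => f (s + r) := by
        funext r
        simp [hf, add_ey]
      rw [av, this, integral_unif ha (by fun_prop), intervalIntegral.integral_comp_add_left f s,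
        ← sub_eq_add_neg]
    rw [h1]
    refine mul_nonneg (by positivity) ?_
    obtain ⟨hs0, hs1⟩ := hs
    by_cases c1 : s < a
    · have z : ∫ r in (s - a)..(a - s), f r = 0 := by
        have := intervalIntegral.integral_comp_neg (a := s - a) (b := a - s) f
        simp only [hodd, intervalIntegral.integral_neg, neg_sub] at this
        linarith
      rw [← intervalIntegral.integral_add_adjacent_intervals (hfi _ (a - s)) (hfi _ _), z,
        zero_add]
      exact hpos _ _ (by linarith) (by linarith) (by linarith)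
    · by_cases c2 : 1 / 2 < s + a
      · have z : ∫ r in (1 - (s + a))..(s + a), f r = 0 := by
          have := intervalIntegral.integral_comp_sub_left (a := 1 - (s + a)) (b := s + a) f 1
          simp only [hodd', intervalIntegral.integral_neg, sub_sub_cancel] at this
          linarith
        rw [← intervalIntegral.integral_add_adjacent_intervals (hfi _ (1 - (s + a))) (hfi _ _), z,
          add_zero]
        exact hpos _ _ (by linarith) (by linarith) (by linarith)
      · exact hpos _ _ (by linarith) (by linarith) (by linarith)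

end Cone

theorem Per.av {M : ℕ} {v : X2 → ℝ} (hv : Per M v) (e : ℝ →+ X2) (ν : Measure ℝ) :
    Per M (av e ν v) := by
  intro c hc x
  simp only [AdvDiff.av]
  congr 1
  funext s
  rw [← hv c hc (x + e s)]
  congr 1
  ext
  · simp only [Prod.fst_add]; abel
  · simp

/-- The discrete heat step: two horizontal and two vertical box averages. -/
noncomputable def heat (a : ℝ) (v : X2 → ℝ) : X2 → ℝ :=
  av ey (unif a) (av ey (unif a) (av ex (unif a) (av ex (unif a) v)))

section heat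

variable {a : ℝ} {u v w : X2 → ℝ}

theorem BM.heat (hv : BM v) (a : ℝ) : BM (heat a v) :=
  (((hv.av cont_ex).av cont_ex).av cont_ey).av cont_ey

theorem Cone.heat (hv : Cone v) (ha : 0 < a) (ha4 : a ≤ 1 / 4) : Cone (heat a v) :=
  (((hv.av_ex a).av_ex a).av_ey ha ha4).av_ey ha ha4

theorem Per.heat {M : ℕ} (hv : Per M v) (a : ℝ) : Per M (heat a v) :=
  (((hv.av _ _).av _ _).av _ _).av _ _

theorem heat_sub (hv : BM v) (hw : BM w) :
    heat a (fun x => v x - w x) = fun x => heat a v x - heat a w x := by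
  unfold heat
  rw [av_sub cont_ex hv hw, av_sub cont_ex (hv.av cont_ex) (hw.av cont_ex),
    av_sub cont_ey ((hv.av cont_ex).av cont_ex) ((hw.av cont_ex).av cont_ex),
    av_sub cont_ey (((hv.av cont_ex).av cont_ex).av cont_ey)
      (((hw.av cont_ex).av cont_ex).av cont_ey)]

theorem heat_add (hv : BM v) (hw : BM w) :
    heat a (fun x => v x + w x) = fun x => heat a v x + heat a w x := by
  unfold heat
  rw [av_add cont_ex hv hw, av_add cont_ex (hv.av cont_ex) (hw.av cont_ex),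
    av_add cont_ey ((hv.av cont_ex).av cont_ex) ((hw.av cont_ex).av cont_ex),
    av_add cont_ey (((hv.av cont_ex).av cont_ex).av cont_ey)
      (((hw.av cont_ex).av cont_ex).av cont_ey)]

theorem abs_heat_le {A : ℝ} (hA : ∀ x, |v x| ≤ A) (x : X2) : |heat a v x| ≤ A :=
  abs_av_le (abs_av_le (abs_av_le (abs_av_le hA))) x

theorem eLpNorm_heat_le (hv : BM v) {q : ℝ≥0∞} (hq : 1 ≤ q) (hq' : q ≠ ⊤) :
    eLpNorm (heat a v) q volume ≤ eLpNorm v q volume :=
  (eLpNorm_av_le cont_ey (((hv.av cont_ex).av cont_ex).av cont_ey) hq hq').trans <|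
    (eLpNorm_av_le cont_ey ((hv.av cont_ex).av cont_ex) hq hq').trans <|
      (eLpNorm_av_le cont_ex (hv.av cont_ex) hq hq').trans (eLpNorm_av_le cont_ex hv hq hq')

theorem integral_abs_heat_le (hv : BM v) : ∫ x, |heat a v x| ≤ ∫ x, |v x| :=
  (integral_abs_av_le cont_ey (((hv.av cont_ex).av cont_ex).av cont_ey)).trans <|
    (integral_abs_av_le cont_ey ((hv.av cont_ex).av cont_ex)).trans <|
      (integral_abs_av_le cont_ex (hv.av cont_ex)).trans (integral_abs_av_le cont_ex hv)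

theorem integral_heat_mul (hv : BM v) (hw : BM w) :
    ∫ x, heat a v x * w x
      = ∫ x, v x * av ex (unif a) (av ex (unif a) (av ey (unif a) (av ey (unif a) w))) x := by
  unfold heat
  rw [integral_av_mul cont_ey (unif_neg a) (((hv.av cont_ex).av cont_ex).av cont_ey) hw,
    integral_av_mul cont_ey (unif_neg a) ((hv.av cont_ex).av cont_ex) (hw.av cont_ey),
    integral_av_mul cont_ex (unif_neg a) (hv.av cont_ex) ((hw.av cont_ey).av cont_ey),
    integral_av_mul cont_ex (unif_neg a) hv (((hw.av cont_ey).av cont_ey).av cont_ex)]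

theorem abs_integral_mul_le (hv : BM v) (hw : BM w) {B : ℝ} (hB : ∀ x, |w x| ≤ B) :
    |∫ x, v x * w x| ≤ B * ∫ x, |v x| := by
  refine abs_integral_le_integral_abs.trans ?_
  rw [← integral_const_mul]
  refine integral_mono (hv.mul hw).abs.integrable (hv.abs.cmul B).integrable fun x => ?_
  simp only [abs_mul]
  rw [mul_comm]
  exact mul_le_mul_of_nonneg_right (hB x) (abs_nonneg _)

theorem abs_av_sub_av_le {e : ℝ →+ X2} (he : Continuous e) (hv : BM v) (hw : BM w) {B : ℝ}
    (h : ∀ x, |v x - w x| ≤ B) (x : X2) : |av e (unif a) v x - av e (unif a) w x| ≤ B := by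
  have := abs_av_le (e := e) (ν := unif a) (v := fun x => v x - w x) h x
  rwa [av_sub he hv hw] at this

/-- A test function of `y` with bounded second differences barely feels the heat step. -/
theorem heat_static (ha : 0 ≤ a) (hv : BM v) (hw : BM w) {Λ : ℝ} (hΛ : 0 ≤ Λ)
    (hx : ∀ x s, w (x + ex s) = w x)
    (hy : ∀ x s, |s| ≤ a → |w (x + ey s) + w (x + ey (-s)) - 2 * w x| ≤ Λ * s ^ 2) :
    |(∫ x, heat a v x * w x) - ∫ x, v x * w x| ≤ Λ * a ^ 2 * ∫ x, |v x| := by
  have h1 : ∀ x, |av ey (unif a) w x - w x| ≤ Λ * a ^ 2 / 2 := fun x =>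
    abs_av_sub_le cont_ey ha hw hΛ x (hy x)
  have h2 : ∀ x, |av ey (unif a) (av ey (unif a) w) x - w x| ≤ Λ * a ^ 2 := fun x => by
    have := abs_av_sub_av_le (a := a) cont_ey (hw.av cont_ey) hw h1 x
    have h3 := abs_sub_le (av ey (unif a) (av ey (unif a) w) x) (av ey (unif a) w x) (w x)
    linarith [h1 x]
  have h0 : av ex (unif a) w = w := by
    funext x; simp [av, hx]
  have b2 := (hw.av (ν := unif a) cont_ey).av (ν := unif a) cont_ey
  have h3 := abs_av_sub_av_le (a := a) cont_ex b2 hw h2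
  rw [h0] at h3
  have h4 := abs_av_sub_av_le (a := a) cont_ex (b2.av cont_ex) hw h3
  rw [h0] at h4
  have b4 := (b2.av (ν := unif a) cont_ex).av (ν := unif a) cont_ex
  rw [integral_heat_mul hv hw, ← integral_sub (hv.mul b4).integrable (hv.mul hw).integrable]
  simp_rw [← mul_sub]
  exact abs_integral_mul_le hv (b4.sub hw) h4

/-- The energy inequality for the heat step against a Lipschitz function in a band. -/
theorem heat_energy (ha : 0 ≤ a) (hv : BM v) (hw : BM w) {l L₁ L₂ β : ℝ} (hl : 0 < l)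
    (hβ : 0 ≤ β) (h1 : ∀ x s, |w (x + ex s) - w x| ≤ L₁ * |s|)
    (h2 : ∀ x s, |w (x + ey s) - w x| ≤ L₂ * |s|) (h0 : ∀ x : X2, β < ‖x.2‖ → w x = 0) :
    (∫ x, v x * w x) - l / 2 * ((∫ x, v x ^ 2) - ∫ x, heat a v x ^ 2)
      - 1 / l * ((L₁ ^ 2 + L₂ ^ 2) * a ^ 2 * (β + a)) ≤ ∫ x, heat a v x * w x := by
  have e1 := energy_av cont_ex (unif_neg a) hv hw hl
  have e2 := energy_av cont_ey (unif_neg a)
    ((hv.av (ν := unif a) cont_ex).av (ν := unif a) cont_ex) hw hl
  have d1 := dirichlet_le cont_ex norm_ex_le ha hw hβ h1 h0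
  have d2 := dirichlet_le cont_ey norm_ey_le ha hw hβ h2 h0
  have hl' : 0 < 1 / (2 * l) := by positivity
  have d1' := mul_le_mul_of_nonneg_left d1 hl'.le
  have d2' := mul_le_mul_of_nonneg_left d2 hl'.le
  have : 1 / l * ((L₁ ^ 2 + L₂ ^ 2) * a ^ 2 * (β + a))
      = 1 / (2 * l) * (L₁ ^ 2 * a ^ 2 * (2 * (β + a)))
        + 1 / (2 * l) * (L₂ ^ 2 * a ^ 2 * (2 * (β + a))) := by field_simp
  unfold heat
  linarith

/-- Consistency of the heat step with the Laplacian. -/
theorem heat_taylor (ha : 0 ≤ a) {F Fx Fy Fxx Fyy : X2 → ℝ} (hF : BM F) (hFxx : BM Fxx)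
    (hFyy : BM Fyy) {Λ : ℝ} (hΛ : 0 ≤ Λ)
    (dx : ∀ x, HasDerivAt (fun s => F (x + ex s)) (Fx x) 0)
    (dxx : ∀ x, HasDerivAt (fun s => Fx (x + ex s)) (Fxx x) 0)
    (dy : ∀ x, HasDerivAt (fun s => F (x + ey s)) (Fy x) 0)
    (dyy : ∀ x, HasDerivAt (fun s => Fy (x + ey s)) (Fyy x) 0)
    (l1 : ∀ x s, |Fxx (x + ex s) - Fxx x| ≤ Λ * |s|)
    (l2 : ∀ x s, |Fyy (x + ex s) - Fyy x| ≤ Λ * |s|)
    (l3 : ∀ x s, |Fyy (x + ey s) - Fyy x| ≤ Λ * |s|) (x : X2) :
    |av ex (unif a) (av ex (unif a) (av ey (unif a) (av ey (unif a) F))) x - F x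
      - a ^ 2 / 3 * (Fxx x + Fyy x)| ≤ 6 * Λ * a ^ 3 := by
  have t1 := av_taylor cont_ex ha hF hΛ dx dxx l1
  have t2 := av_taylor cont_ey ha hF hΛ dy dyy l3
  have s1 := fun x => abs_av_sub_le_lip cont_ex ha hFxx hΛ x (l1 x)
  have s2 := fun x => abs_av_sub_le_lip cont_ex ha hFyy hΛ x (l2 x)
  have s3 := fun x => abs_av_sub_le_lip cont_ey ha hFyy hΛ x (l3 x)
  have hc : 0 ≤ a ^ 2 := sq_nonneg a
  have key : ∀ {e : ℝ →+ X2} (_ : Continuous e) {G : X2 → ℝ} (_ : BM G) (c₁ c₂ B : ℝ),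
      (∀ x, |G x - F x - (c₁ * Fxx x + c₂ * Fyy x)| ≤ B) → ∀ x,
      |av e (unif a) G x - av e (unif a) F x
        - (c₁ * av e (unif a) Fxx x + c₂ * av e (unif a) Fyy x)| ≤ B := by
    intro e he G hG c₁ c₂ B h x
    have := abs_av_le (e := e) (ν := unif a)
      (v := fun x => G x - F x - (c₁ * Fxx x + c₂ * Fyy x)) h x
    rwa [av_sub he (hG.sub hF) ((hFxx.cmul _).add (hFyy.cmul _)), av_sub he hG hF,
      av_add he (hFxx.cmul _) (hFyy.cmul _), av_cmul, av_cmul] at this
  have b1 := hF.av (ν := unif a) cont_ey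
  have b2 := b1.av (ν := unif a) cont_ey
  have b3 := b2.av (ν := unif a) cont_ex
  have m : ∀ {p : ℝ} (c : ℝ), 0 ≤ c → c ≤ 1 → |p| ≤ Λ * a → |c * a ^ 2 * p| ≤ c * (Λ * a ^ 3) := by
    intro p c h0 _ hp
    rw [abs_mul, abs_of_nonneg (by positivity)]
    calc c * a ^ 2 * |p| ≤ c * a ^ 2 * (Λ * a) := by gcongr
      _ = _ := by ring
  have k1 : ∀ x, |av ey (unif a) F x - F x - (0 * Fxx x + a ^ 2 / 6 * Fyy x)| ≤ Λ * a ^ 3 :=
    fun x => by simpa using t2 x
  have k2 : ∀ x, |av ey (unif a) (av ey (unif a) F) x - F x - (0 * Fxx x + a ^ 2 / 3 * Fyy x)|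
      ≤ 13 / 6 * (Λ * a ^ 3) := fun x => by
    have h1 := abs_le.1 (key cont_ey b1 _ _ _ k1 x)
    have h2 := abs_le.1 (t2 x)
    have h3 := abs_le.1 (m (1 / 6) (by norm_num) (by norm_num) (s3 x))
    rw [abs_le]; constructor <;> nlinarith
  have k3 : ∀ x, |av ex (unif a) (av ey (unif a) (av ey (unif a) F)) x - F x
      - (a ^ 2 / 6 * Fxx x + a ^ 2 / 3 * Fyy x)| ≤ 7 / 2 * (Λ * a ^ 3) := fun x => by
    have h1 := abs_le.1 (key cont_ex b2 _ _ _ k2 x)
    have h2 := abs_le.1 (t1 x)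
    have h3 := abs_le.1 (m (1 / 3) (by norm_num) (by norm_num) (s2 x))
    rw [abs_le]; constructor <;> nlinarith
  have h1 := abs_le.1 (key cont_ex b3 _ _ _ k3 x)
  have h2 := abs_le.1 (t1 x)
  have h3 := abs_le.1 (m (1 / 3) (by norm_num) (by norm_num) (s2 x))
  have h4 := abs_le.1 (m (1 / 6) (by norm_num) (by norm_num) (s1 x))
  have h5 : 0 ≤ Λ * a ^ 3 := by positivity
  rw [abs_le]; constructor <;> nlinarith

end heat

end AdvDiff
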