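import Pool.Agent.Lib.MP_0c2f33_an.PosDefs

/-!
Limits on a product of a finite measure space (time) and a probability space (space).
-/

set_option maxHeartbeats 400000

open MeasureTheory Set Filter Topology
open scoped ENNReal NNReal

namespace AdvDiff

variable {α β : Type*} [MeasurableSpace α] [MeasurableSpace β] {ν : Measure α} {lam : Measure β}

lemma lim_slice {f : α × β → ℝ} (hf : Measurable f) (t : α) :
    AEStronglyMeasurable (fun x => f (t, x)) lam :=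
  (hf.comp measurable_prodMk_left).aestronglyMeasurable

lemma lim_meas_norm [SFinite lam] {f : α × β → ℝ} (hf : Measurable f) (p : ℝ≥0∞) :
    Measurable fun t => eLpNorm (fun x => f (t, x)) p lam := by
  rcases eq_or_ne p 0 with rfl | h0
  · simp
  rcases eq_or_ne p ⊤ with rfl | ht
  · refine measurable_of_Iic fun c => ?_
    have h1 : (fun t => eLpNorm (fun x => f (t, x)) ⊤ lam) ⁻¹' Iic c =
        (fun t => lam (Prod.mk t ⁻¹' {z | c < ‖f z‖ₑ})) ⁻¹' {0} := by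
      ext t
      simp only [mem_preimage, mem_Iic, mem_singleton_iff, eLpNorm_exponent_top]
      constructor
      · intro h
        have h2 : ∀ᵐ x ∂lam, ‖f (t, x)‖ₑ ≤ c :=
          (ae_le_eLpNormEssSup (f := fun x => f (t, x))).mono fun x hx => hx.trans h
        simpa [ae_iff, preimage] using h2
      · intro h
        refine eLpNormEssSup_le_of_ae_enorm_bound ?_
        simpa [ae_iff, preimage] using h
    rw [h1]
    exact measurable_measure_prodMk_left (measurableSet_lt measurable_const hf.enorm)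
      (measurableSet_singleton 0)
  · simp only [eLpNorm_eq_lintegral_rpow_enorm_toReal h0 ht]
    exact (Measurable.lintegral_prod_right' (f := fun z => ‖f z‖ₑ ^ p.toReal)
      (hf.enorm.pow_const _)).pow_const _

lemma lim_sq {γ : Type*} [MeasurableSpace γ] {m : Measure γ} {ε : Type*} [ENorm ε] (f : γ → ε) :
    eLpNorm f 2 m ^ 2 = ∫⁻ x, ‖f x‖ₑ ^ 2 ∂m := by
  have h := eLpNorm_nnreal_pow_eq_lintegral (f := f) (μ := m) (p := 2) two_ne_zero
  simpa using h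

/-- The limit of an eventually constant sequence of fields. -/
lemma lim_field [SFinite lam] {f : ℕ → α × β → ℝ} (hf : ∀ n, Measurable (f n)) {p : ℝ≥0∞}
    (stab : ∀ᵐ t ∂ν, ∃ m, ∀ n, m ≤ n → ∀ x, f n (t, x) = f m (t, x))
    (tail : ∀ ε : ℝ≥0∞, 0 < ε → ∃ m₀, ∀ m n, m₀ ≤ m → m ≤ n →
      ∫⁻ t, eLpNorm (fun x => f n (t, x) - f m (t, x)) p lam ^ 2 ∂ν ≤ ε) :
    ∃ g : α × β → ℝ, Measurable g ∧ ∀ ε : ℝ≥0∞, 0 < ε → ∃ m₀, ∀ m, m₀ ≤ m →
      ∫⁻ t, eLpNorm (fun x => g (t, x) - f m (t, x)) p lam ^ 2 ∂ν ≤ ε := by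
  refine ⟨fun z => limUnder atTop fun n => f n z,
    (StronglyMeasurable.limUnder fun n => (hf n).stronglyMeasurable).measurable, fun ε hε => ?_⟩
  obtain ⟨m₀, h⟩ := tail ε hε
  refine ⟨m₀, fun m hm => ?_⟩
  have h1 := lintegral_liminf_le (μ := ν) (u := atTop)
    (f := fun n t => eLpNorm (fun x => f n (t, x) - f m (t, x)) p lam ^ 2)
    fun n => (lim_meas_norm ((hf n).sub (hf m)) p).pow_const 2
  refine le_trans (le_of_eq (lintegral_congr_ae ?_)) (h1.trans ?_)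
  · filter_upwards [stab] with t ⟨k, hk⟩
    have h2 : ∀ x, (limUnder atTop fun n => f n (t, x)) = f k (t, x) := fun x =>
      (tendsto_atTop_of_eventually_const fun n hn => hk n hn x).limUnder_eq
    refine (Tendsto.liminf_eq (tendsto_atTop_of_eventually_const (i₀ := k) fun n hn => ?_)).symm
    simp only [h2, hk n hn]
  · exact liminf_le_of_frequently_le' (Eventually.frequently
      (eventually_atTop.2 ⟨m, fun n hn => h m n hm hn⟩))

lemma lim_l1 [IsFiniteMeasure ν] {F : ℕ → α → ℝ≥0∞} (hF : ∀ n, Measurable (F n))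
    (h : ∀ ε : ℝ≥0∞, 0 < ε → ∃ m₀, ∀ m, m₀ ≤ m → ∫⁻ t, F m t ^ 2 ∂ν ≤ ε) :
    Tendsto (fun m => ∫⁻ t, F m t ∂ν) atTop (𝓝 0) := by
  have h1 : Tendsto (fun m => ∫⁻ t, F m t ^ 2 ∂ν) atTop (𝓝 0) :=
    ENNReal.tendsto_atTop_zero.2 h
  have h2 : ∀ m, ∫⁻ t, F m t ∂ν ≤
      (∫⁻ t, F m t ^ 2 ∂ν) ^ (1 / 2 : ℝ) * (ν univ) ^ (1 / 2 : ℝ) := fun m => by
    have h3 := ENNReal.lintegral_mul_le_Lp_mul_Lq ν Real.HolderConjugate.two_two
      (hF m).aemeasurable (aemeasurable_const (b := 1))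
    simpa using h3
  have h3 : Tendsto (fun m => (∫⁻ t, F m t ^ 2 ∂ν) ^ (1 / 2 : ℝ) * (ν univ) ^ (1 / 2 : ℝ))
      atTop (𝓝 0) := by
    have h4 := ENNReal.Tendsto.mul_const (b := (ν univ) ^ (1 / 2 : ℝ))
      ((ENNReal.continuous_rpow_const (y := 1 / 2)).continuousAt.tendsto.comp h1)
      (Or.inr (ENNReal.rpow_ne_top_of_nonneg (by norm_num) (measure_ne_top _ _)))
    simpa using h4
  exact tendsto_of_tendsto_of_tendsto_of_le_of_le tendsto_const_nhds h3 (fun _ => zero_le) h2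

lemma lim_holder [IsProbabilityMeasure lam] [SFinite ν] {p q C : ℝ≥0∞} (hpq : p⁻¹ + q⁻¹ ≤ 1)
    {w h : α × β → ℝ} (hw : Measurable w) (hh : Measurable h) (hC : C ≠ ⊤)
    (hb : ∀ᵐ t ∂ν, eLpNorm (fun x => w (t, x)) q lam ≤ C) :
    ∫⁻ z, ‖w z * h z‖ₑ ∂ν.prod lam ≤ C * ∫⁻ t, eLpNorm (fun x => h (t, x)) p lam ∂ν := by
  rw [lintegral_prod (fun z => ‖w z * h z‖ₑ) (hw.mul hh).enorm.aemeasurable,
    ← lintegral_const_mul' _ _ hC]
  refine lintegral_mono_ae (hb.mono fun t ht => ?_)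
  have : ENNReal.HolderTriple q p (p⁻¹ + q⁻¹)⁻¹ := ⟨by rw [inv_inv, add_comm]⟩
  have h1 := eLpNorm_smul_le_mul_eLpNorm (p := q) (q := p) (r := (p⁻¹ + q⁻¹)⁻¹)
    (lim_slice (lam := lam) hh t) (lim_slice hw t)
  have h2 := eLpNorm_le_eLpNorm_of_exponent_le (μ := lam) (ENNReal.one_le_inv.2 hpq)
    (lim_slice (hw.mul hh) t)
  rw [eLpNorm_one_eq_lintegral_enorm] at h2
  exact h2.trans (h1.trans (mul_le_mul_left ht _))

lemma lim_l2 [IsProbabilityMeasure lam] [SFinite ν] {q C : ℝ≥0∞} (hq : 2 ≤ q)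
    {w : α × β → ℝ} (hw : Measurable w) (hb : ∀ᵐ t ∂ν, eLpNorm (fun x => w (t, x)) q lam ≤ C) :
    eLpNorm w 2 (ν.prod lam) ^ 2 ≤ C ^ 2 * ν univ := by
  rw [lim_sq, lintegral_prod _ (hw.enorm.pow_const 2).aemeasurable, ← lintegral_const]
  refine lintegral_mono_ae (hb.mono fun t ht => ?_)
  rw [← lim_sq fun x => w (t, x)]
  exact pow_le_pow_left' ((eLpNorm_le_eLpNorm_of_exponent_le hq (lim_slice hw t)).trans ht) 2

lemma lim_memLp [IsProbabilityMeasure lam] [IsFiniteMeasure ν] {q C : ℝ≥0∞} (hq : 2 ≤ q)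
    (hC : C ≠ ⊤) {w : α × β → ℝ} (hw : Measurable w)
    (hb : ∀ᵐ t ∂ν, eLpNorm (fun x => w (t, x)) q lam ≤ C) : MemLp w 2 (ν.prod lam) := by
  refine ⟨hw.aestronglyMeasurable, lt_top_iff_ne_top.2 fun h => ?_⟩
  have h1 := lim_l2 hq hw hb
  rw [h, ENNReal.top_pow two_ne_zero, top_le_iff] at h1
  exact ENNReal.mul_ne_top (ENNReal.pow_ne_top hC) (measure_ne_top _ _) h1

/-- A weak limit along an ultrafilter keeps the bound of the slices. -/
lemma lim_weak [IsProbabilityMeasure lam] [IsFiniteMeasure ν] {q C : ℝ≥0∞} (hq : 2 ≤ q)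
    (hC : C ≠ ⊤) {v : ℕ → α × β → ℝ} (hv : ∀ n, Measurable (v n))
    (hb : ∀ n, ∀ᵐ t ∂ν, eLpNorm (fun x => v n (t, x)) q lam ≤ C) (U : Ultrafilter ℕ) :
    ∃ u : α × β → ℝ, Measurable u ∧ (∀ᵐ t ∂ν, eLpNorm (fun x => u (t, x)) q lam ≤ C) ∧
      ∀ f, MemLp f 2 (ν.prod lam) →
        Tendsto (fun n => ∫ z, v n z * f z ∂ν.prod lam) U (𝓝 (∫ z, u z * f z ∂ν.prod lam)) := by
  have hm := fun n => lim_memLp hq hC (hv n) (hb n)
  let V : ℕ → Lp ℝ 2 (ν.prod lam) := fun n => (hm n).toLp _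
  obtain ⟨R, hR⟩ : ∃ R : ℝ, ∀ n, ‖V n‖ ≤ R := by
    refine ⟨√(C ^ 2 * ν univ).toReal, fun n => Real.le_sqrt_of_sq_le ?_⟩
    rw [Lp.norm_toLp, ← ENNReal.toReal_pow]
    exact ENNReal.toReal_mono (ENNReal.mul_ne_top (ENNReal.pow_ne_top hC) (measure_ne_top _ _))
      (lim_l2 hq (hv n) (hb n))
  obtain ⟨L, -, hL⟩ := (WeakDual.isCompact_closedBall (𝕜 := ℝ) (E := Lp ℝ 2 (ν.prod lam)) 0
    R).ultrafilter_le_nhds (U.map fun n => StrongDual.toWeakDual (innerSL ℝ (V n))) (by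
      rw [Ultrafilter.coe_map, le_principal_iff, mem_map]
      refine univ_mem' fun n => ?_
      simpa using hR n)
  let W := (InnerProductSpace.toDual ℝ _).symm (WeakDual.toStrongDual L)
  have hW : ∀ g, Tendsto (fun n => inner ℝ (V n) g) U (𝓝 (inner ℝ W g)) := fun g => by
    rw [InnerProductSpace.toDual_symm_apply]
    exact ((WeakDual.eval_continuous g).tendsto L).comp hL
  let K : Set (Lp ℝ 2 (ν.prod lam)) := {w | ∀ᵐ t ∂ν, eLpNorm (fun x => w (t, x)) q lam ≤ C}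
  have hme : ∀ w : Lp ℝ 2 (ν.prod lam), Measurable w := fun w =>
    (Lp.stronglyMeasurable w).measurable
  have hK1 : Convex ℝ K := by
    intro a ha b hb' s r hs hr hsr
    have h1 : ∀ᵐ z ∂ν.prod lam, (s • a + r • b) z = s * a z + r * b z := by
      filter_upwards [Lp.coeFn_add (s • a) (r • b), Lp.coeFn_smul s a, Lp.coeFn_smul r b]
        with z h1 h2 h3
      rw [h1, Pi.add_apply, h2, h3]
      rfl
    change ∀ᵐ t ∂ν, _ at ha hb' ⊢
    filter_upwards [Measure.ae_ae_of_ae_prod h1, ha, hb'] with t h2 h3 h4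
    rw [eLpNorm_congr_ae h2]
    have h5 := eLpNorm_add_le (μ := lam) ((lim_slice (hme a) t).const_smul s)
      ((lim_slice (hme b) t).const_smul r) (one_le_two.trans hq)
    rw [eLpNorm_const_smul, eLpNorm_const_smul] at h5
    refine h5.trans ((add_le_add (mul_le_mul_right h3 _) (mul_le_mul_right h4 _)).trans ?_)
    rw [← add_mul, Real.enorm_of_nonneg hs, Real.enorm_of_nonneg hr, ← ENNReal.ofReal_add hs hr,
      hsr, ENNReal.ofReal_one, one_mul]
  have hK2 : IsClosed K := by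
    refine IsSeqClosed.isClosed fun w a hw hwa => ?_
    obtain ⟨ns, -, hns⟩ := (tendstoInMeasure_of_tendsto_Lp hwa).exists_seq_tendsto_ae
    filter_upwards [Measure.ae_ae_of_ae_prod hns, ae_all_iff.2 fun n => hw (ns n)] with t h1 h2
    exact (Lp.eLpNorm_lim_le_liminf_eLpNorm (fun n => lim_slice (hme _) t) _ h1).trans
      (liminf_le_of_frequently_le' (Frequently.of_forall h2))
  have hV : ∀ n, V n ∈ K := fun n => by
    filter_upwards [Measure.ae_ae_of_ae_prod (hm n).coeFn_toLp, hb n] with t h1 h2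
    rwa [eLpNorm_congr_ae h1]
  refine ⟨W, hme W, ?_, fun f hf => ?_⟩
  · by_contra hc
    obtain ⟨φ, c, h1, h2⟩ := geometric_hahn_banach_point_closed hK1 hK2 (x := W) hc
    have h3 := hW ((InnerProductSpace.toDual ℝ _).symm φ)
    simp only [real_inner_comm ((InnerProductSpace.toDual ℝ _).symm φ),
      InnerProductSpace.toDual_symm_apply] at h3
    exact absurd (ge_of_tendsto' h3 fun n => (h2 _ (hV n)).le) (not_le.2 h1)
  · have h3 := hW (hf.toLp f)
    have h4 : ∀ (w : Lp ℝ 2 (ν.prod lam)) (w' : α × β → ℝ), w =ᵐ[ν.prod lam] w' →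
        inner ℝ w (hf.toLp f) = ∫ z, w' z * f z ∂ν.prod lam := fun w w' h => by
      rw [L2.inner_def]
      refine integral_congr_ae ?_
      filter_upwards [h, hf.coeFn_toLp] with z h1 h2
      rw [h1, h2]
      simp [mul_comm]
    rw [h4 W W EventuallyEq.rfl] at h3
    exact h3.congr fun n => h4 _ _ (hm n).coeFn_toLp

lemma lim_est [IsProbabilityMeasure lam] [SFinite ν] {p q : ℝ≥0∞} {C : ℝ≥0}
    (hpq : p⁻¹ + q⁻¹ ≤ 1) {w h g : α × β → ℝ} (hw : Measurable w) (hh : Measurable h)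
    (hg : Measurable g) {Λ : ℝ} (hΛ : 0 ≤ Λ) (hgb : ∀ᵐ z ∂ν.prod lam, |g z| ≤ Λ)
    (hb : ∀ᵐ t ∂ν, eLpNorm (fun x => w (t, x)) q lam ≤ C)
    (hfin : ∫⁻ t, eLpNorm (fun x => h (t, x)) p lam ∂ν ≠ ⊤) :
    Integrable (fun z => w z * (h z * g z)) (ν.prod lam) ∧
      |∫ z, w z * (h z * g z) ∂ν.prod lam| ≤
        Λ * C * (∫⁻ t, eLpNorm (fun x => h (t, x)) p lam ∂ν).toReal := by
  have h1 := lim_holder hpq hw hh ENNReal.coe_ne_top hb
  have h2 : Integrable (fun z => w z * h z) (ν.prod lam) :=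
    ⟨(hw.mul hh).aestronglyMeasurable,
      h1.trans_lt (ENNReal.mul_lt_top ENNReal.coe_lt_top hfin.lt_top)⟩
  have h3 : ∀ᵐ z ∂ν.prod lam, ‖w z * (h z * g z)‖ ≤ Λ * ‖w z * h z‖ := hgb.mono fun z hz => by
    rw [← mul_assoc, norm_mul, mul_comm]
    exact mul_le_mul_of_nonneg_right hz (norm_nonneg _)
  refine ⟨(h2.norm.const_mul Λ).mono' (hw.mul (hh.mul hg)).aestronglyMeasurable h3,
    (norm_integral_le_of_norm_le (h2.norm.const_mul Λ) h3).trans ?_⟩
  rw [integral_const_mul, mul_assoc, integral_norm_eq_lintegral_enorm h2.1]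
  refine mul_le_mul_of_nonneg_left ?_ hΛ
  have h4 := ENNReal.toReal_mono (ENNReal.mul_ne_top ENNReal.coe_ne_top hfin) h1
  rwa [ENNReal.toReal_mul, ENNReal.coe_toReal] at h4

/-- The product of a weakly convergent and a strongly convergent sequence. -/
lemma lim_prod [IsProbabilityMeasure lam] [IsFiniteMeasure ν] {p q : ℝ≥0∞} {C : ℝ≥0}
    (hq : 2 ≤ q) (hpq : p⁻¹ + q⁻¹ ≤ 1) {v f : ℕ → α × β → ℝ} {u b g : α × β → ℝ}
    (hv : ∀ n, Measurable (v n)) (hu : Measurable u) (hf : ∀ n, Measurable (f n))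
    (hb : Measurable b) (hg : Measurable g) {Λ : ℝ} (hΛ : 0 ≤ Λ)
    (hgb : ∀ᵐ z ∂ν.prod lam, |g z| ≤ Λ) (hfb : ∀ n, ∃ A : ℝ, ∀ z, |f n z| ≤ A)
    (hvC : ∀ n, ∀ᵐ t ∂ν, eLpNorm (fun x => v n (t, x)) q lam ≤ C)
    (huC : ∀ᵐ t ∂ν, eLpNorm (fun x => u (t, x)) q lam ≤ C) {U : Filter ℕ} (hU : U ≤ atTop)
    (hweak : ∀ f, MemLp f 2 (ν.prod lam) →
      Tendsto (fun n => ∫ z, v n z * f z ∂ν.prod lam) U (𝓝 (∫ z, u z * f z ∂ν.prod lam)))
    (tail : ∀ ε : ℝ≥0∞, 0 < ε → ∃ m₀, ∀ m, m₀ ≤ m →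
      ∫⁻ t, eLpNorm (fun x => b (t, x) - f m (t, x)) p lam ^ 2 ∂ν ≤ ε) :
    Integrable (fun z => u z * (b z * g z)) (ν.prod lam) ∧
      Tendsto (fun n => ∫ z, v n z * (f n z * g z) ∂ν.prod lam) U
        (𝓝 (∫ z, u z * (b z * g z) ∂ν.prod lam)) := by
  have hD := lim_l1 (ν := ν) (fun m => lim_meas_norm (lam := lam) (hb.sub (hf m)) p)
    tail
  have hfg : ∀ m, MemLp (fun z => f m z * g z) 2 (ν.prod lam) := fun m => by
    obtain ⟨A, hA⟩ := hfb m
    refine MemLp.of_bound ((hf m).mul hg).aestronglyMeasurable (A * Λ) (hgb.mono fun z hz => ?_)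
    rw [norm_mul]
    exact mul_le_mul (hA z) hz (norm_nonneg _) ((abs_nonneg _).trans (hA z))
  obtain ⟨D, hDd⟩ : ∃ D : ℕ → ℝ≥0∞, ∀ m,
    D m = ∫⁻ t, eLpNorm (fun x => b (t, x) - f m (t, x)) p lam ∂ν := ⟨_, fun _ => rfl⟩
  replace hD : Tendsto D atTop (𝓝 0) := hD.congr fun m => (hDd m).symm
  have key : ∀ w : α × β → ℝ, Measurable w → (∀ᵐ t ∂ν, eLpNorm (fun x => w (t, x)) q lam ≤ C) →
      ∀ m, D m ≠ ⊤ → Integrable (fun z => w z * (b z * g z)) (ν.prod lam) ∧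
        |∫ z, w z * (b z * g z) ∂ν.prod lam - ∫ z, w z * (f m z * g z) ∂ν.prod lam| ≤
          Λ * C * (D m).toReal := fun w hw hwC m hm => by
    obtain ⟨h1, h2⟩ := lim_est (h := fun z => b z - f m z) hpq hw (hb.sub (hf m)) hg hΛ hgb hwC
      (by rwa [hDd] at hm)
    have h3 : Integrable (fun z => w z * (f m z * g z)) (ν.prod lam) :=
      (lim_memLp hq ENNReal.coe_ne_top hw hwC).integrable_mul (hfg m)
    have h4 : Integrable (fun z => w z * (b z * g z)) (ν.prod lam) :=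
      (h1.add h3).congr (Eventually.of_forall fun z => by simp only [Pi.add_apply]; ring)
    refine ⟨h4, ?_⟩
    rw [← integral_sub h4 h3, hDd]
    convert h2 using 4 with z
    ring
  have hfin : ∀ᶠ m in atTop, D m ≠ ⊤ :=
    (hD.eventually (gt_mem_nhds zero_lt_one)).mono fun m hm => (hm.trans ENNReal.one_lt_top).ne
  have hD' : Tendsto (fun m => Λ * C * (D m).toReal) atTop (𝓝 0) := by
    simpa using ((ENNReal.tendsto_toReal ENNReal.zero_ne_top).comp hD).const_mul (Λ * C)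
  obtain ⟨m₁, hm₁⟩ := hfin.exists
  refine ⟨(key u hu huC m₁ hm₁).1, Metric.tendsto_nhds.2 fun ε hε => ?_⟩
  have hs := hfin.and (hD'.eventually (gt_mem_nhds (show 0 < ε / 4 by positivity)))
  obtain ⟨m, hm, hm'⟩ := hs.exists
  filter_upwards [hU hs, Metric.tendsto_nhds.1 (hweak _ (hfg m)) (ε / 4) (by positivity)]
    with n hn h1
  have h2 := abs_le.1 (key _ (hv n) (hvC n) n hn.1).2
  have h3 := abs_le.1 (key _ (hv n) (hvC n) m hm).2
  have h4 := abs_le.1 (key u hu huC m hm).2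
  have h5 := hn.2
  rw [Real.dist_eq, abs_lt] at h1 ⊢
  constructor <;> linarith [h1.1, h1.2, h2.1, h2.2, h3.1, h3.2, h4.1, h4.2]

lemma lim_mixed [IsProbabilityMeasure lam] [IsFiniteMeasure ν] {p : ℝ≥0∞} (hp : 1 ≤ p)
    {f b : α × β → ℝ} (hf : Measurable f) (hb : Measurable b) {A : ℝ} (hA : ∀ z, |f z| ≤ A)
    (h : ∫⁻ t, eLpNorm (fun x => b (t, x) - f (t, x)) p lam ^ 2 ∂ν ≤ 1) :
    eLpNorm (fun t => eLpNorm (fun x => b (t, x)) p lam) 2 ν < ⊤ := by
  have h1 : ∀ t, eLpNorm (fun x => b (t, x)) p lam ≤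
      eLpNorm (fun x => b (t, x) - f (t, x)) p lam + ENNReal.ofReal A := fun t => by
    have h2 := eLpNorm_add_le (μ := lam) (lim_slice (hb.sub hf) t) (lim_slice hf t) hp
    have h3 := eLpNorm_le_of_ae_bound (μ := lam) (p := p) (f := fun x => f (t, x)) (C := A)
      (Eventually.of_forall fun x => hA _)
    rw [measure_univ, ENNReal.one_rpow, one_mul] at h3
    refine le_trans (le_of_eq ?_) (h2.trans (add_le_add le_rfl h3))
    congr 1
    funext x
    simp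
  have h2 : ∀ a c : ℝ≥0∞, (a + c) ^ 2 ≤ 4 * a ^ 2 + 4 * c ^ 2 := fun a c => by
    rcases le_total a c with h | h
    · refine (pow_le_pow_left' (add_le_add h le_rfl) 2).trans (le_add_left (le_of_eq ?_))
      ring
    · refine (pow_le_pow_left' (add_le_add le_rfl h) 2).trans (le_add_right (le_of_eq ?_))
      ring
  refine lt_top_iff_ne_top.2 fun hc => ?_
  have h3 := lim_sq (m := ν) fun t => eLpNorm (fun x => b (t, x)) p lam
  rw [hc, ENNReal.top_pow two_ne_zero] at h3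
  have h4 : ∫⁻ t, ‖eLpNorm (fun x => b (t, x)) p lam‖ₑ ^ 2 ∂ν ≤
      ∫⁻ t, (4 * eLpNorm (fun x => b (t, x) - f (t, x)) p lam ^ 2 + 4 * ENNReal.ofReal A ^ 2) ∂ν :=
    lintegral_mono fun t => (pow_le_pow_left' (h1 t) 2).trans (h2 _ _)
  rw [lintegral_add_right _ measurable_const, lintegral_const_mul' _ _ (by simp), lintegral_const,
    ← h3, top_le_iff] at h4
  refine ENNReal.add_ne_top.2 ⟨ENNReal.mul_ne_top (by simp) (h.trans_lt ENNReal.one_lt_top).ne,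
    ENNReal.mul_ne_top (ENNReal.mul_ne_top (by simp) (ENNReal.pow_ne_top ENNReal.ofReal_ne_top))
      (measure_ne_top _ _)⟩ h4

end AdvDiff
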