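import Pool.Agent.Lib.MP_0c2f33_an.Lim1

/-!
Smooth functions on the torus and their two-dimensional slices.
-/

set_option maxHeartbeats 400000

open MeasureTheory Set Filter Topology
open scoped ENNReal NNReal

namespace AdvDiff

instance lim_prob1 : IsProbabilityMeasure (volume : Measure UnitAddCircle) :=
  ⟨UnitAddCircle.measure_univ⟩

instance lim_prob2 : IsProbabilityMeasure (volume : Measure X2) := by
  rw [Measure.volume_eq_prod]; infer_instance

instance lim_prob3 (d : ℕ) : IsProbabilityMeasure (volume : Measure (Tor d)) := by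
  rw [volume_pi]; infer_instance

variable {d : ℕ} {φ : ℝ × Tor d → ℝ}

/-- The covering map. -/
def limCov (d : ℕ) (z : ℝ × (Fin d → ℝ)) : ℝ × Tor d := (z.1, fun i => ((z.2 i : ℝ) : UnitAddCircle))

lemma lim_cov : IsOpenQuotientMap (limCov d) :=
  IsOpenQuotientMap.id.prodMap
    (IsOpenQuotientMap.piMap fun _ => QuotientAddGroup.isOpenQuotientMap_mk)

lemma lim_cont (h : Smooth φ) : Continuous φ := lim_cov.continuous_comp_iff.1 h.continuous

lemma lim_dT_lift (h : Smooth φ) (z : ℝ × (Fin d → ℝ)) :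
    HasDerivAt (fun s : ℝ => φ (s, (limCov d z).2)) (fderiv ℝ (φ ∘ limCov d) z (1, 0)) z.1 :=
  ((ContDiff.differentiable (f := φ ∘ limCov d) h (by simp)) z).hasFDerivAt.comp_hasDerivAt
    (f := fun s : ℝ => (s, z.2)) z.1 ((hasDerivAt_id _).prodMk (hasDerivAt_const _ _))

lemma lim_dX_lift (h : Smooth φ) (i : Fin d) (z : ℝ × (Fin d → ℝ)) :
    HasDerivAt (fun s : ℝ => φ (z.1, (limCov d z).2 + Pi.single i ((s : ℝ) : UnitAddCircle)))
      (fderiv ℝ (φ ∘ limCov d) z (0, Pi.single i 1)) 0 := by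
  have h1 : HasDerivAt (fun s : ℝ => (z.1, z.2 + s • (Pi.single i 1 : Fin d → ℝ)))
      (0, Pi.single i 1) 0 := by
    simpa using (hasDerivAt_const (0 : ℝ) z.1).prodMk
      (((hasDerivAt_id (0 : ℝ)).smul_const (Pi.single i 1 : Fin d → ℝ)).const_add z.2)
  have h2 := ((ContDiff.differentiable (f := φ ∘ limCov d) h (by simp)) z).hasFDerivAt
    |>.comp_hasDerivAt_of_eq 0 h1 (by simp)
  refine h2.congr_of_eventuallyEq (Eventually.of_forall fun s => ?_)
  simp only [Function.comp, limCov]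
  congr 2
  funext j
  by_cases hj : j = i
  · subst hj; simp
  · simp [hj]

lemma lim_dT (h : Smooth φ) (t : ℝ) (x : Tor d) :
    HasDerivAt (fun s : ℝ => φ (s, x)) (dT φ (t, x)) t := by
  obtain ⟨z, hz⟩ := lim_cov.surjective (t, x)
  obtain ⟨rfl, rfl⟩ := Prod.mk.inj hz
  exact (lim_dT_lift h z).differentiableAt.hasDerivAt

lemma lim_dX (h : Smooth φ) (i : Fin d) (t : ℝ) (x : Tor d) :
    HasDerivAt (fun s : ℝ => φ (t, x + Pi.single i ((s : ℝ) : UnitAddCircle))) (dX i φ (t, x)) 0 := by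
  obtain ⟨z, hz⟩ := lim_cov.surjective (t, x)
  obtain ⟨rfl, rfl⟩ := Prod.mk.inj hz
  exact (lim_dX_lift h i z).differentiableAt.hasDerivAt

lemma lim_dX' (h : Smooth φ) (i : Fin d) (t : ℝ) (x : Tor d) (r : ℝ) :
    HasDerivAt (fun s : ℝ => φ (t, x + Pi.single i ((s : ℝ) : UnitAddCircle)))
      (dX i φ (t, x + Pi.single i ((r : ℝ) : UnitAddCircle))) r := by
  have h1 := (lim_dX h i t (x + Pi.single i ((r : ℝ) : UnitAddCircle))).comp_of_eq r
    ((hasDerivAt_id r).sub_const r) (by simp)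
  rw [mul_one] at h1
  refine h1.congr_of_eventuallyEq (Eventually.of_forall fun s => ?_)
  simp only [Function.comp, id, add_assoc, ← Pi.single_add, ← AddCircle.coe_add, add_sub_cancel]

lemma lim_smooth_fderiv (h : Smooth φ) (v : ℝ × (Fin d → ℝ)) :
    ContDiff ℝ ((⊤ : ℕ∞) : WithTop ℕ∞) fun z => fderiv ℝ (φ ∘ limCov d) z v :=
  (ContDiff.fderiv_right (f := φ ∘ limCov d) h (by simp)).clm_apply contDiff_const

lemma lim_smooth_dT (h : Smooth φ) : Smooth (dT φ) := by
  convert lim_smooth_fderiv h (1, 0) using 1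
  refine iff_of_eq (congrArg _ (funext fun z => (lim_dT_lift h z).deriv))

lemma lim_smooth_dX (h : Smooth φ) (i : Fin d) : Smooth (dX i φ) := by
  convert lim_smooth_fderiv h (0, Pi.single i 1) using 1
  refine iff_of_eq (congrArg _ (funext fun z => (lim_dX_lift h i z).deriv))

lemma lim_bound (h : Smooth φ) (T : ℝ) :
    ∃ Λ, 0 ≤ Λ ∧ ∀ t ∈ Icc (0 : ℝ) T, ∀ x, |φ (t, x)| ≤ Λ := by
  obtain ⟨Λ, hΛ⟩ := ((isCompact_Icc (a := (0 : ℝ)) (b := T)).prod
    (isCompact_univ (X := Tor d))).exists_bound_of_continuousOn (lim_cont h).continuousOn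
  exact ⟨max Λ 0, le_max_right _ _, fun t ht x => (hΛ (t, x) ⟨ht, trivial⟩).trans (le_max_left _ _)⟩

lemma lim_ae_bound {γ : Type*} [MeasurableSpace γ] {m : Measure γ} [SFinite m] {T Λ : ℝ}
    {g : ℝ × γ → ℝ} (hg : Measurable g) (h : ∀ t ∈ Icc (0 : ℝ) T, ∀ x, |g (t, x)| ≤ Λ) :
    ∀ᵐ z ∂(volume.restrict (Ioo (0 : ℝ) T)).prod m, |g z| ≤ Λ := by
  rw [Measure.ae_prod_iff_ae_ae (measurableSet_le hg.abs measurable_const)]
  filter_upwards [ae_restrict_mem measurableSet_Ioo] with t ht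
  exact Eventually.of_forall (h t (Ioo_subset_Icc_self ht))

variable {n : ℕ}

/-- A point of the torus from its first two coordinates and the others. -/
def limCons (x : X2) (z : Tor n) : Tor (n + 2) := Fin.cons x.1 (Fin.cons x.2 z)

lemma limCons_add0 (x : X2) (z : Tor n) (s : UnitAddCircle) :
    limCons (x.1 + s, x.2) z = limCons x z + Pi.single (0 : Fin (n + 2)) s := by
  funext i
  refine Fin.cases ?_ (fun j => ?_) i <;> simp [limCons]

lemma limCons_add1 (x : X2) (z : Tor n) (s : UnitAddCircle) :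
    limCons (x.1, x.2 + s) z = limCons x z + Pi.single (1 : Fin (n + 2)) s := by
  funext i
  refine Fin.cases ?_ (fun j => Fin.cases ?_ (fun k => ?_) j) i
  · simp [limCons]
  · simp [limCons]
  · have : k.succ.succ ≠ 1 := Fin.succ_succ_ne_one k
    simp [limCons, this]

lemma limCons_cont (z : Tor n) : Continuous fun x : X2 => limCons x z := by
  refine continuous_pi fun i => ?_
  refine Fin.cases ?_ (fun j => Fin.cases ?_ (fun k => ?_) j) i
  · exact continuous_fst
  · exact continuous_snd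
  · exact continuous_const

lemma BLip.lim_mono {T Λ Λ' : ℝ} {f : ℝ × X2 → ℝ} (h : BLip T Λ f) (hΛ : Λ ≤ Λ') : BLip T Λ' f :=
  ⟨h.cont, fun t ht x => (h.bound t ht x).trans hΛ, fun t ht t' ht' x s₁ s₂ =>
    (h.lip t ht t' ht' x s₁ s₂).trans (mul_le_mul_of_nonneg_right hΛ (by positivity))⟩

lemma lim_blip {f : ℝ × Tor (n + 2) → ℝ} (h : Smooth f) (T : ℝ) :
    ∃ Λ, ∀ z : Tor n, BLip T Λ fun p => f (p.1, limCons p.2 z) := by
  obtain ⟨A, hA0, hA⟩ := lim_bound h T
  obtain ⟨B, hB0, hB⟩ := lim_bound (lim_smooth_dT h) T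
  obtain ⟨C, hC0, hC⟩ := lim_bound (lim_smooth_dX h 0) T
  obtain ⟨D, hD0, hD⟩ := lim_bound (lim_smooth_dX h 1) T
  refine ⟨A + B + C + D, fun z => ⟨(lim_cont h).comp
    (continuous_fst.prodMk ((limCons_cont z).comp continuous_snd)),
    fun t ht x => (hA t ht _).trans (by linarith), fun t ht t' ht' x s₁ s₂ => ?_⟩⟩
  have key : ∀ (i : Fin (n + 2)) (E : ℝ), (∀ t ∈ Icc (0 : ℝ) T, ∀ x, |dX i f (t, x)| ≤ E) →
      ∀ (y : Tor (n + 2)) (s : ℝ),
        |f (t, y + Pi.single i ((s : ℝ) : UnitAddCircle)) - f (t, y)| ≤ E * |s| := by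
    intro i E hE y s
    have h1 := convex_univ.norm_image_sub_le_of_norm_hasDerivWithin_le
      (fun r _ => (lim_dX' h i t y r).hasDerivWithinAt) (fun r _ => hE t ht _)
      (mem_univ 0) (mem_univ s)
    simpa using h1
  have h1 := (convex_Icc (0 : ℝ) T).norm_image_sub_le_of_norm_hasDerivWithin_le
    (fun r _ => (lim_dT h r (limCons (x.1 + s₁, x.2 + s₂) z)).hasDerivWithinAt)
    (fun r hr => hB r hr _) ht ht'
  have h2 := key 1 D hD (limCons (x.1 + s₁, x.2) z) s₂
  have h3 := key 0 C hC (limCons x z) s₁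
  rw [← limCons_add1] at h2
  rw [← limCons_add0] at h3
  simp only [Real.norm_eq_abs] at h1 h2 ⊢
  have h4 := abs_nonneg (t' - t)
  have h5 := abs_nonneg s₁
  have h6 := abs_nonneg s₂
  refine ((abs_sub_le _ _ _).trans (add_le_add h1 ((abs_sub_le _ _ _).trans
    (add_le_add h2 h3)))).trans ?_
  nlinarith [mul_nonneg hA0 h4, mul_nonneg hA0 h5, mul_nonneg hA0 h6, mul_nonneg hB0 h5,
    mul_nonneg hB0 h6, mul_nonneg hC0 h4, mul_nonneg hC0 h6, mul_nonneg hD0 h4, mul_nonneg hD0 h5]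

lemma lim_testData {f : ℝ × Tor (n + 2) → ℝ} (h : Smooth f) (T : ℝ) (z : Tor n) :
    ∃ Λ, TestData T Λ (fun p => f (p.1, limCons p.2 z)) (fun p => dT f (p.1, limCons p.2 z))
      (fun p => dX 0 f (p.1, limCons p.2 z)) (fun p => dX 1 f (p.1, limCons p.2 z))
      (fun p => dX 0 (dX 0 f) (p.1, limCons p.2 z))
      (fun p => dX 1 (dX 1 f) (p.1, limCons p.2 z)) := by
  obtain ⟨A₀, h0⟩ := lim_blip h T
  obtain ⟨A₁, h1⟩ := lim_blip (lim_smooth_dT h) T
  obtain ⟨A₂, h2⟩ := lim_blip (lim_smooth_dX h 0) T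
  obtain ⟨A₃, h3⟩ := lim_blip (lim_smooth_dX h 1) T
  obtain ⟨A₄, h4⟩ := lim_blip (lim_smooth_dX (lim_smooth_dX h 0) 0) T
  obtain ⟨A₅, h5⟩ := lim_blip (lim_smooth_dX (lim_smooth_dX h 1) 1) T
  refine ⟨max (max (max A₀ A₁) (max A₂ A₃)) (max A₄ A₅), (h0 z).lim_mono (by simp),
    (h1 z).lim_mono (by simp), (h2 z).lim_mono (by simp), (h3 z).lim_mono (by simp),
    (h4 z).lim_mono (by simp), (h5 z).lim_mono (by simp), fun t x => lim_dT h t (limCons x z),
    fun t x => ?_,
    fun t x => ?_, fun t x => ?_, fun t x => ?_⟩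
  · simpa only [limCons_add0] using lim_dX h 0 t _
  · simpa only [limCons_add1] using lim_dX h 1 t _
  · simpa only [limCons_add0] using lim_dX (lim_smooth_dX h 0) 0 t _
  · simpa only [limCons_add1] using lim_dX (lim_smooth_dX h 1) 1 t _

/-- Splitting off the first two coordinates. -/
noncomputable def limEquiv (n : ℕ) : X2 × Tor n ≃ᵐ Tor (n + 2) :=
  (MeasurableEquiv.prodAssoc.trans ((MeasurableEquiv.refl _).prodCongr
    (MeasurableEquiv.piFinSuccAbove (fun _ => UnitAddCircle) 0).symm)).trans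
    (MeasurableEquiv.piFinSuccAbove (fun _ => UnitAddCircle) 0).symm

lemma limEquiv_apply (x : X2) (z : Tor n) : limEquiv n (x, z) = limCons x z := by
  simp [limEquiv, limCons, MeasurableEquiv.piFinSuccAbove, MeasurableEquiv.prodCongr,
    MeasurableEquiv.prodAssoc, Fin.insertNthEquiv]

lemma limEquiv_mp : MeasurePreserving (limEquiv n) (volume.prod volume) volume :=
  (volume_preserving_piFinSuccAbove (fun _ => UnitAddCircle) 0).symm.comp
    (((MeasurePreserving.id volume).prod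
      (volume_preserving_piFinSuccAbove (fun _ => UnitAddCircle) 0).symm).comp
      (measurePreserving_prodAssoc volume volume volume))

/-- The first two coordinates. -/
def limPr (x : Tor (n + 2)) : X2 := (x 0, x 1)

lemma limPr_cons (x : X2) (z : Tor n) : limPr (limCons x z) = x := rfl

lemma limPr_mp : MeasurePreserving (limPr (n := n)) volume volume := by
  have h := (measurePreserving_fst (μ := (volume : Measure X2)) (ν := (volume : Measure (Tor n)))).comp
    (limEquiv_mp.symm (limEquiv n))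
  have e : limPr = Prod.fst ∘ (limEquiv n).symm := by
    funext x
    obtain ⟨⟨y, z⟩, rfl⟩ := (limEquiv n).surjective x
    rw [Function.comp, MeasurableEquiv.symm_apply_apply, limEquiv_apply, limPr_cons]
  rw [e]
  exact h

lemma lim_fubini {T : ℝ} {F : ℝ × Tor (n + 2) → ℝ} (hF : Integrable F (cyl (n + 2) T))
    (h : ∀ z : Tor n, ∫ p : ℝ × X2, F (p.1, limCons p.2 z)
      ∂(volume.restrict (Ioo (0 : ℝ) T)).prod volume = 0) : ∫ z, F z ∂cyl (n + 2) T = 0 := by
  let E : (ℝ × X2) × Tor n ≃ᵐ ℝ × Tor (n + 2) :=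
    MeasurableEquiv.prodAssoc.trans ((MeasurableEquiv.refl _).prodCongr (limEquiv n))
  have hE : MeasurePreserving E (((volume.restrict (Ioo (0 : ℝ) T)).prod volume).prod volume)
      (cyl (n + 2) T) :=
    ((MeasurePreserving.id _).prod limEquiv_mp).comp (measurePreserving_prodAssoc _ _ _)
  rw [← hE.integral_comp', 
    integral_prod_symm (fun x => F (E x)) (hE.integrable_comp_of_integrable hF)]
  refine integral_eq_zero_of_ae (Eventually.of_forall fun z => ?_)
  refine Eq.trans (integral_congr_ae (Eventually.of_forall fun p => ?_)) (h z)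
  exact congrArg (fun y => F (p.1, y)) (limEquiv_apply p.2 z)

lemma lim_mem (d : ℕ) (T : ℝ) : ∀ᵐ z ∂cyl d T, z.1 ∈ Icc (0 : ℝ) T :=
  (Measure.quasiMeasurePreserving_fst (μ := volume.restrict (Ioo (0 : ℝ) T))
    (ν := (volume : Measure (Tor d)))).ae
    ((ae_restrict_mem measurableSet_Ioo).mono fun _ h => Ioo_subset_Icc_self h)

lemma lim_shift (T : ℝ) (F : ℝ × Tor d → ℝ) (a : Tor d) :
    ∫ z, F (z.1, z.2 + a) ∂cyl d T = ∫ z, F z ∂cyl d T := by
  let E : ℝ × Tor d ≃ᵐ ℝ × Tor d :=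
    (MeasurableEquiv.refl _).prodCongr (MeasurableEquiv.addRight a)
  have hE : MeasurePreserving E (cyl d T) (cyl d T) :=
    (MeasurePreserving.id _).prod (measurePreserving_add_right volume a)
  exact hE.integral_comp' F

lemma lim_shift_meas {T : ℝ} {g : ℝ × Tor d → ℝ} (hg : Smooth g) (a : Tor d) :
    AEStronglyMeasurable (fun z : ℝ × Tor d => g (z.1, z.2 + a)) (cyl d T) :=
  ((lim_cont hg).comp
    (continuous_fst.prodMk (continuous_snd.add continuous_const))).aestronglyMeasurable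

lemma lim_extra {T : ℝ} {w f : ℝ × Tor d → ℝ} (i : Fin d) (hw : Integrable w (cyl d T))
    (hinv : ∀ t x s, w (t, x + Pi.single i s) = w (t, x)) (hf : Smooth f) :
    ∫ z, w z * dX i f z ∂cyl d T = 0 := by
  obtain ⟨A, -, hA⟩ := lim_bound hf T
  obtain ⟨B, -, hB⟩ := lim_bound (lim_smooth_dX hf i) T
  obtain ⟨e, he⟩ : ∃ e : ℝ → Tor d, ∀ s, e s = Pi.single i ((s : ℝ) : UnitAddCircle) :=
    ⟨_, fun _ => rfl⟩
  have a1 : Integrable (fun z : ℝ × Tor d => w z * f (z.1, z.2 + e 0)) (cyl d T) :=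
    hw.mul_bdd (lim_shift_meas hf _) ((lim_mem d T).mono fun z hz => hA _ hz _)
  have a2 : ∀ᵐ z ∂cyl d T, ∀ s ∈ (univ : Set ℝ), ‖w z * dX i f (z.1, z.2 + e s)‖ ≤ ‖w z‖ * B :=
    (lim_mem d T).mono fun z hz s _ => by
      rw [norm_mul]
      exact mul_le_mul_of_nonneg_left (hB _ hz _) (norm_nonneg _)
  have a3 : ∀ (z : ℝ × Tor d) (s : ℝ), HasDerivAt (fun s => w z * f (z.1, z.2 + e s))
      (w z * dX i f (z.1, z.2 + e s)) s := fun z s => by
    simp only [he]
    exact (lim_dX' hf i z.1 z.2 s).const_mul _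
  have h1 := (hasDerivAt_integral_of_dominated_loc_of_deriv_le (μ := cyl d T) (x₀ := (0 : ℝ))
    (F := fun s z => w z * f (z.1, z.2 + e s)) (F' := fun s z => w z * dX i f (z.1, z.2 + e s))
    (bound := fun z => ‖w z‖ * B) univ_mem
    (Eventually.of_forall fun s => hw.1.mul (lim_shift_meas hf _)) a1
    (hw.1.mul (lim_shift_meas (lim_smooth_dX hf i) _)) a2 (hw.norm.mul_const B)
    (Eventually.of_forall fun z s _ => a3 z s)).2
  have h2 : ∀ s : ℝ, ∫ z, w z * f (z.1, z.2 + e s) ∂cyl d T = ∫ z, w z * f z ∂cyl d T := fun s => by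
    rw [← lim_shift T (fun z => w z * f z) (e s)]
    simp only [he, hinv]
  simp only [h2] at h1
  have h3 := h1.unique (hasDerivAt_const _ _)
  simpa [he] using h3

end AdvDiff
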