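import Pool.Agent.Lib.MP_0c2f33_an.Lim2

/-!
The limit of the two-dimensional approximate solutions.
-/

set_option maxHeartbeats 400000

open MeasureTheory Set Filter Topology
open scoped ENNReal NNReal

namespace AdvDiff

/-- Lebesgue measure on `(0,T) × X2`. -/
noncomputable abbrev cyl2 (T : ℝ) : Measure (ℝ × X2) :=
  (volume.restrict (Ioo (0 : ℝ) T)).prod volume

instance lim_fin (T : ℝ) : IsFiniteMeasure (volume.restrict (Ioo (0 : ℝ) T)) :=
  isFiniteMeasure_restrict.2 measure_Ioo_lt_top.ne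

/-- The limit objects in dimension two. -/
structure Limit2D (T : ℝ) (p q : ℝ≥0∞) (u b₁ b₂ : ℝ × X2 → ℝ) : Prop where
  meas_u : Measurable u
  meas_b₁ : Measurable b₁
  meas_b₂ : Measurable b₂
  norm_u : ∃ C : ℝ≥0, ∀ᵐ t ∂volume.restrict (Ioo (0 : ℝ) T),
    eLpNorm (fun x => u (t, x)) q volume ≤ C
  norm_b₁ : eLpNorm (fun t => eLpNorm (fun x => b₁ (t, x)) p volume) 2
    (volume.restrict (Ioo (0 : ℝ) T)) < ⊤
  norm_b₂ : eLpNorm (fun t => eLpNorm (fun x => b₂ (t, x)) p volume) 2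
    (volume.restrict (Ioo (0 : ℝ) T)) < ⊤
  int_u : Integrable u (cyl2 T)
  int_b₁ : Integrable b₁ (cyl2 T)
  int_b₂ : Integrable b₂ (cyl2 T)
  int_ub₁ : Integrable (fun z => u z * b₁ z) (cyl2 T)
  int_ub₂ : Integrable (fun z => u z * b₂ z) (cyl2 T)
  div : ∀ Λ φ φt φx φy φxx φyy, TestData T Λ φ φt φx φy φxx φyy →
    ∫ z, (b₁ z * φx z + b₂ z * φy z) ∂cyl2 T = 0
  weak : ∀ Λ φ φt φx φy φxx φyy, TestData T Λ φ φt φx φy φxx φyy → (∀ x, φ (T, x) = 0) →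
    ∫ z, u z * (φt z + (b₁ z * φx z + b₂ z * φy z) + (φxx z + φyy z)) ∂cyl2 T = 0
  marks : ∀ K : ℝ, ∃ (G : Set ℝ) (H : ℝ), MeasurableSet G ∧ G ⊆ Ioo (0 : ℝ) T ∧ 0 < H ∧
    0 < (volume G).toReal ∧ K * Real.sqrt ((volume G).toReal * H ^ 3) ≤
      ∫ z, u z * (G.indicator 1 z.1 * dpsi H z.2.2) ∂cyl2 T

lemma BLip.lim_ae {T Λ : ℝ} {f : ℝ × X2 → ℝ} (h : BLip T Λ f) : ∀ᵐ z ∂cyl2 T, |f z| ≤ |Λ| :=
  (lim_ae_bound h.cont.measurable h.bound).mono fun _ hz => hz.trans (le_abs_self _)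

lemma BLip.lim_memLp {T Λ : ℝ} {f : ℝ × X2 → ℝ} (h : BLip T Λ f) : MemLp f 2 (cyl2 T) :=
  MemLp.of_bound h.cont.aestronglyMeasurable _ h.lim_ae

lemma lim_cosT (s : ℝ) : cosT (s : UnitAddCircle) = Real.cos (2 * Real.pi * s) := by
  rw [cosT, fourier_coe_apply, ← Complex.exp_ofReal_mul_I_re]
  congr 2
  push_cast
  ring

lemma lim_sinT (s : ℝ) : sinT (s : UnitAddCircle) = Real.sin (2 * Real.pi * s) := by
  rw [sinT, fourier_coe_apply, ← Complex.exp_ofReal_mul_I_im]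
  congr 2
  push_cast
  ring

lemma lim_den {H : ℝ} (hH : 0 < H) (y : UnitAddCircle) : 0 < H ^ 2 + 1 - cosT y := by
  induction y using QuotientAddGroup.induction_on with
  | H s =>
    rw [lim_cosT]
    have := Real.cos_le_one (2 * Real.pi * s)
    have := pow_pos hH 2
    linarith

lemma lim_cosT_cont : Continuous cosT := Complex.continuous_re.comp (fourier 1).continuous

lemma lim_sinT_cont : Continuous sinT := Complex.continuous_im.comp (fourier 1).continuous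

lemma lim_psi_cont {H : ℝ} (hH : 0 < H) : Continuous (psi H) :=
  continuous_const.div (continuous_const.sub lim_cosT_cont) fun y => (lim_den hH y).ne'

lemma lim_dpsi_cont {H : ℝ} (hH : 0 < H) : Continuous (dpsi H) :=
  (continuous_const.mul (continuous_const.mul lim_sinT_cont)).div
    ((continuous_const.sub lim_cosT_cont).pow 2) fun y => (pow_pos (lim_den hH y) 2).ne'

lemma lim_ind_memLp {γ : Type*} [MeasurableSpace γ] {m : Measure (ℝ × γ)} [IsFiniteMeasure m]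
    {G : Set ℝ} (hG : MeasurableSet G) {f : UnitAddCircle → ℝ} (hf : Continuous f)
    {c : γ → UnitAddCircle} (hc : Measurable c) (r : ℝ≥0∞) :
    MemLp (fun z : ℝ × γ => G.indicator 1 z.1 * f (c z.2)) r m := by
  obtain ⟨A, hA⟩ := isCompact_univ.exists_bound_of_continuousOn hf.continuousOn
  refine MemLp.of_bound ((((measurable_one.indicator hG).comp measurable_fst).mul
    (hf.measurable.comp (hc.comp measurable_snd))).aestronglyMeasurable) A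
    (Eventually.of_forall fun z => ?_)
  by_cases hz : z.1 ∈ G
  · simpa [hz] using hA _ (mem_univ (c z.2))
  · simpa [hz] using (norm_nonneg _).trans (hA _ (mem_univ (c z.2)))

theorem lim_2d {T : ℝ} {p q : ℝ≥0∞} (hq : 2 ≤ q) (hpq : p⁻¹ + q⁻¹ ≤ 1) (A : Approx2D T p q) :
    ∃ u b₁ b₂, Limit2D T p q u b₁ b₂ := by
  have hp : 1 ≤ p := ENNReal.inv_le_one.1 (le_self_add.trans hpq)
  obtain ⟨b₁, m₁, t₁⟩ := lim_field (ν := volume.restrict (Ioo (0 : ℝ) T)) (lam := volume) (p := p)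
    A.meas_b₁ (A.stab.mono fun t ⟨m, h⟩ => ⟨m, fun n hn x => (h n hn x).1⟩)
    fun ε hε => (A.tail ε hε).imp fun m₀ h m n h1 h2 => (h m n h1 h2).1
  obtain ⟨b₂, m₂, t₂⟩ := lim_field (ν := volume.restrict (Ioo (0 : ℝ) T)) (lam := volume) (p := p)
    A.meas_b₂ (A.stab.mono fun t ⟨m, h⟩ => ⟨m, fun n hn x => (h n hn x).2⟩)
    fun ε hε => (A.tail ε hε).imp fun m₀ h m n h1 h2 => (h m n h1 h2).2
  have c₁ : ∀ n, ∃ B : ℝ, ∀ z, |A.b₁ n z| ≤ B := fun n => (A.bdd_b n).imp fun _ h z => (h z).1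
  have c₂ : ∀ n, ∃ B : ℝ, ∀ z, |A.b₂ n z| ≤ B := fun n => (A.bdd_b n).imp fun _ h z => (h z).2
  have hvC : ∀ n, ∀ᵐ t ∂volume.restrict (Ioo (0 : ℝ) T),
      eLpNorm (fun x => A.u n (t, x)) q volume ≤ A.C := fun n => Eventually.of_forall (A.norm_u n)
  have hU : (hyperfilter ℕ : Filter ℕ) ≤ atTop := Nat.hyperfilter_le_atTop
  obtain ⟨u, mu, huC, hw⟩ := lim_weak hq ENNReal.coe_ne_top A.meas_u hvC (hyperfilter ℕ)
  have hu2 := lim_memLp hq ENNReal.coe_ne_top mu huC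
  have hv2 := fun n => lim_memLp hq ENNReal.coe_ne_top (A.meas_u n) (hvC n)
  have h1C : ∀ᵐ t ∂volume.restrict (Ioo (0 : ℝ) T),
      eLpNorm (fun x => (fun _ : ℝ × X2 => (1 : ℝ)) (t, x)) q volume ≤ (1 : ℝ≥0) :=
    Eventually.of_forall fun t => by
      simpa using eLpNorm_le_of_ae_bound (μ := (volume : Measure X2)) (p := q)
        (f := fun _ => (1 : ℝ)) (C := 1) (by simp)
  have P : ∀ {f : ℕ → ℝ × X2 → ℝ} {b g : ℝ × X2 → ℝ} {Λ : ℝ}, (∀ n, Measurable (f n)) →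
      Measurable b → (∀ n, ∃ B : ℝ, ∀ z, |f n z| ≤ B) → _ → Measurable g →
      (∀ᵐ z ∂cyl2 T, |g z| ≤ |Λ|) → _ := fun hf hb hfb tl hg hgb =>
    And.intro (lim_prod hq hpq A.meas_u mu hf hb hg (abs_nonneg _) hgb hfb hvC huC hU hw tl)
      (lim_prod hq hpq (fun _ => measurable_const) measurable_const hf hb hg (abs_nonneg _) hgb hfb
        (fun _ => h1C) h1C hU (fun _ _ => tendsto_const_nhds) tl)
  have Q : ∀ {f g : ℝ × X2 → ℝ} {Λ : ℝ}, Measurable f → (∃ B : ℝ, ∀ z, |f z| ≤ B) → BLip T Λ g →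
      MemLp (fun z => f z * g z) 2 (cyl2 T) := fun hf ⟨B, hB⟩ hg =>
    hg.lim_memLp.mul' (r := 2) (MemLp.of_bound (p := ⊤) hf.aestronglyMeasurable B
      (Eventually.of_forall hB))
  have e₁ := P (Λ := 1) A.meas_b₁ m₁ c₁ t₁ (measurable_const (a := 1)) (by simp)
  have e₂ := P (Λ := 1) A.meas_b₂ m₂ c₂ t₂ (measurable_const (a := 1)) (by simp)
  obtain ⟨k₁, hk₁⟩ := t₁ 1 one_pos
  obtain ⟨k₂, hk₂⟩ := t₂ 1 one_pos
  obtain ⟨B₁, hB₁⟩ := c₁ k₁
  obtain ⟨B₂, hB₂⟩ := c₂ k₂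
  refine ⟨u, b₁, b₂, mu, m₁, m₂, ⟨A.C, huC⟩, lim_mixed hp (A.meas_b₁ k₁) m₁ hB₁ (hk₁ k₁ le_rfl),
    lim_mixed hp (A.meas_b₂ k₂) m₂ hB₂ (hk₂ k₂ le_rfl), hu2.integrable one_le_two,
    by simpa using e₁.2.1, by simpa using e₂.2.1, by simpa using e₁.1.1, by simpa using e₂.1.1,
    fun Λ φ φt φx φy φxx φyy h => ?_, fun Λ φ φt φx φy φxx φyy h h0 => ?_, fun K => ?_⟩
  · obtain ⟨i₁, l₁⟩ := (P A.meas_b₁ m₁ c₁ t₁ h.hx.cont.measurable h.hx.lim_ae).2
    obtain ⟨i₂, l₂⟩ := (P A.meas_b₂ m₂ c₂ t₂ h.hy.cont.measurable h.hy.lim_ae).2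
    simp only [one_mul] at i₁ i₂ l₁ l₂
    rw [integral_add i₁ i₂]
    refine tendsto_nhds_unique (l₁.add l₂) (tendsto_const_nhds.congr fun n => ?_)
    have j₁ := (Q (A.meas_b₁ n) (c₁ n) h.hx).integrable one_le_two
    have j₂ := (Q (A.meas_b₂ n) (c₂ n) h.hy).integrable one_le_two
    rw [← integral_add j₁ j₂,
      integral_prod (fun z => A.b₁ n z * φx z + A.b₂ n z * φy z) (j₁.add j₂)]
    exact (setIntegral_eq_zero_of_forall_eq_zero (A.div _ _ _ _ _ _ _ h n)).symm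
  · obtain ⟨i₁, l₁⟩ := (P A.meas_b₁ m₁ c₁ t₁ h.hx.cont.measurable h.hx.lim_ae).1
    obtain ⟨i₂, l₂⟩ := (P A.meas_b₂ m₂ c₂ t₂ h.hy.cont.measurable h.hy.lim_ae).1
    have g2 : MemLp (fun z => φt z + (φxx z + φyy z)) 2 (cyl2 T) :=
      h.ht.lim_memLp.add (h.hxx.lim_memLp.add h.hyy.lim_memLp)
    have split : ∀ w c₁ c₂ : ℝ × X2 → ℝ, MemLp w 2 (cyl2 T) →
        Integrable (fun z => w z * (c₁ z * φx z)) (cyl2 T) →
        Integrable (fun z => w z * (c₂ z * φy z)) (cyl2 T) →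
        Integrable (fun z => w z * (φt z + (c₁ z * φx z + c₂ z * φy z) + (φxx z + φyy z)))
          (cyl2 T) ∧
        ∫ z, w z * (φt z + (c₁ z * φx z + c₂ z * φy z) + (φxx z + φyy z)) ∂cyl2 T =
          ∫ z, w z * (φt z + (φxx z + φyy z)) ∂cyl2 T + (∫ z, w z * (c₁ z * φx z) ∂cyl2 T +
            ∫ z, w z * (c₂ z * φy z) ∂cyl2 T) := fun w c₁ c₂ a0 a1 a2 => by
      have a3 : Integrable (fun z => w z * (φt z + (φxx z + φyy z))) (cyl2 T) :=
        a0.integrable_mul g2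
      have a4 : Integrable (fun z => w z * (c₁ z * φx z) + w z * (c₂ z * φy z)) (cyl2 T) := a1.add a2
      refine ⟨(a3.add a4).congr (Eventually.of_forall fun z => by simp only [Pi.add_apply]; ring),
        ?_⟩
      rw [← integral_add a1 a2, ← integral_add a3 a4]
      congr 1
      funext z
      ring
    rw [(split u b₁ b₂ hu2 i₁ i₂).2]
    refine tendsto_nhds_unique ((hw _ g2).add (l₁.add l₂))
      (((A.weak _ _ _ _ _ _ _ h h0).mono_left hU).congr fun n => ?_)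
    obtain ⟨s1, s2⟩ := split (A.u n) (A.b₁ n) (A.b₂ n) (hv2 n)
      ((hv2 n).integrable_mul (Q (A.meas_b₁ n) (c₁ n) h.hx))
      ((hv2 n).integrable_mul (Q (A.meas_b₂ n) (c₂ n) h.hy))
    rw [← s2, integral_prod _ s1]
  · obtain ⟨G, H, hG, hGT, hH, hG0, hK⟩ := A.marks K
    have f2 := lim_ind_memLp (m := cyl2 T) hG (lim_dpsi_cont hH) measurable_snd 2
    refine ⟨G, H, hG, hGT, hH, hG0, ge_of_tendsto (hw _ f2) ((hK.filter_mono hU).mono fun n hn => ?_)⟩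
    refine le_of_le_of_eq hn ?_
    rw [integral_prod (fun z : ℝ × X2 => A.u n z * (G.indicator 1 z.1 * dpsi H z.2.2))
      ((hv2 n).integrable_mul f2), ← inter_eq_left.2 hGT, ← Measure.restrict_restrict hG,
      ← integral_indicator hG, inter_eq_left.2 hGT]
    congr 1
    funext t
    by_cases ht : t ∈ G <;> simp [ht]

end AdvDiff
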