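import Pool.Agent.Lib.MP_0c2f33_an.Lim3

/-!
Lifting the two-dimensional limit to the torus of dimension `d`.
-/

set_option maxHeartbeats 400000

open MeasureTheory Set Filter Topology
open scoped ENNReal NNReal

namespace AdvDiff

lemma lim_psi_sq {H : ℝ} (hH : 0 < H) : ∫ y, psi H y ^ 2 ≤ Real.pi * H ^ 3 := by
  rw [← UnitAddCircle.intervalIntegral_preimage (-1 / 2)]
  have h1 : ∫ s in (-1 / 2 : ℝ)..(-1 / 2 + 1), psi H (s : UnitAddCircle) ^ 2 ≤
      ∫ s in (-1 / 2 : ℝ)..(-1 / 2 + 1), H ^ 3 * (H / (H ^ 2 + s ^ 2)) := by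
    refine intervalIntegral.integral_mono_on (by norm_num)
      ((((lim_psi_cont hH).comp (AddCircle.continuous_mk' 1)).pow 2).intervalIntegrable _ _)
      ((continuous_const.mul (continuous_const.div (by fun_prop)
        fun s => by positivity)).intervalIntegrable _ _) fun s hs => ?_
    have h2 := lim_den hH s
    have h3 : |2 * Real.pi * s| ≤ Real.pi := by
      rw [abs_le]
      constructor <;> nlinarith [hs.1, hs.2, Real.pi_pos]
    have h4 := Real.cos_le_one_sub_mul_cos_sq h3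
    rw [show 2 / Real.pi ^ 2 * (2 * Real.pi * s) ^ 2 = 8 * s ^ 2 by field_simp; ring,
      ← lim_cosT] at h4
    rw [psi, div_pow, mul_div_assoc', div_le_div_iff₀ (by positivity) (by positivity)]
    generalize cosT s = c at h2 h4
    have h5 : H ^ 2 * (H ^ 2 + s ^ 2) ≤ (H ^ 2 + 1 - c) ^ 2 := by
      rw [sq (H ^ 2 + 1 - c)]
      exact mul_le_mul (by nlinarith [sq_nonneg s]) (by nlinarith [sq_nonneg s]) (by positivity)
        h2.le
    have h6 := mul_le_mul_of_nonneg_left h5 (show 0 ≤ H ^ 4 by positivity)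
    linarith
  refine h1.trans ?_
  rw [intervalIntegral.integral_const_mul, integral_div_sq_add_sq, mul_comm]
  refine mul_le_mul_of_nonneg_right ?_ (by positivity)
  linarith [Real.arctan_lt_pi_div_two ((-1 / 2 + 1) / H), Real.neg_pi_div_two_lt_arctan (-1 / 2 / H)]

lemma lim_psi_deriv {H : ℝ} (hH : 0 < H) (y : UnitAddCircle) :
    HasDerivAt (fun s : ℝ => psi H (y + (s : UnitAddCircle))) (dpsi H y) 0 := by
  induction y using QuotientAddGroup.induction_on with
  | H r =>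
    have h0 := lim_den hH r
    have h1 : HasDerivAt (fun s : ℝ => H ^ 2 + 1 - Real.cos (2 * Real.pi * (r + s)))
        (2 * Real.pi * Real.sin (2 * Real.pi * r)) 0 := by
      have h2 := ((((hasDerivAt_id (0 : ℝ)).const_add r).const_mul (2 * Real.pi)).cos).const_sub
        (H ^ 2 + 1)
      simpa [mul_comm] using h2
    rw [lim_cosT] at h0
    have h3 := (hasDerivAt_const (0 : ℝ) (-H ^ 3)).div h1 (by simpa using h0.ne')
    simp only [psi, dpsi, ← AddCircle.coe_add, lim_cosT, lim_sinT]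
    refine h3.congr_deriv ?_
    simp

lemma lim_test {n : ℕ} {T H : ℝ} (hT : 0 < T) (hH : 0 < H) {η : ℝ → ℝ}
    (h1 : ContDiff ℝ ((⊤ : ℕ∞) : WithTop ℕ∞) η) (h2 : HasCompactSupport η)
    (h3 : tsupport η ⊆ Ioo 0 T) :
    TestInt T fun z : ℝ × Tor (n + 2) => η z.1 * psi H (z.2 1) := by
  obtain ⟨a, b, ha, hb, h⟩ : ∃ a b, 0 < a ∧ b < T ∧ tsupport η ⊆ Ioo a b := by
    rcases (tsupport η).eq_empty_or_nonempty with h | h
    · exact ⟨1, 0, one_pos, hT, by simp [h]⟩
    · have a1 := h3 (h2.isCompact.sInf_mem h)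
      have a2 := h3 (h2.isCompact.sSup_mem h)
      refine ⟨sInf (tsupport η) / 2, (sSup (tsupport η) + T) / 2, by linarith [a1.1],
        by linarith [a2.2], fun t ht => ⟨?_, ?_⟩⟩
      · linarith [csInf_le h2.isCompact.bddBelow ht, a1.1]
      · linarith [le_csSup h2.isCompact.bddAbove ht, a2.2]
  have h0 : ∀ t, t ∉ Ioo a b → η t = 0 := fun t ht =>
    image_eq_zero_of_notMem_tsupport fun h4 => ht (h h4)
  refine ⟨⟨?_, b, hb, fun z hz => ?_⟩, a, ha, fun z hz => ?_⟩
  · unfold Smooth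
    simp only [psi, lim_cosT]
    refine (h1.comp contDiff_fst).mul (contDiff_const.div (by fun_prop) fun z => ?_)
    rw [← lim_cosT]
    exact (lim_den hH _).ne'
  · simp only [h0 z.1 fun h4 => absurd h4.2 (not_lt.2 hz), zero_mul]
  · simp only [h0 z.1 fun h4 => absurd h4.1 (not_lt.2 hz), zero_mul]

variable {n : ℕ}

lemma lim_lift_mp (n : ℕ) (T : ℝ) : MeasurePreserving
    (fun z : ℝ × Tor (n + 2) => (z.1, limPr z.2)) (cyl (n + 2) T) (cyl2 T) :=
  (MeasurePreserving.id _).prod limPr_mp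

instance lim_fin_cyl (d : ℕ) (T : ℝ) : IsFiniteMeasure (cyl d T) := by
  unfold cyl; infer_instance

lemma lim_pairing {T H : ℝ} (hT : 0 < T) (hH : 0 < H) {w g : ℝ × Tor (n + 2) → ℝ}
    (hw : MemLp w 2 (cyl (n + 2) T)) (hg : MemLp g 2 (cyl (n + 2) T))
    (h : ∀ φ, TestInt T φ → ∫ z, w z * dX 1 φ z ∂cyl (n + 2) T = -∫ z, g z * φ z ∂cyl (n + 2) T)
    {G : Set ℝ} (hG : MeasurableSet G) :
    ∫ z, w z * (G.indicator 1 z.1 * dpsi H (z.2 1)) ∂cyl (n + 2) T =
      -∫ z, g z * (G.indicator 1 z.1 * psi H (z.2 1)) ∂cyl (n + 2) T := by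
  have I : ∀ {v : ℝ × Tor (n + 2) → ℝ} {f : UnitAddCircle → ℝ} {G : Set ℝ},
      MemLp v 2 (cyl (n + 2) T) → Continuous f → MeasurableSet G →
      Integrable (fun z => v z * (G.indicator 1 z.1 * f (z.2 1))) (cyl (n + 2) T) :=
    fun hv hf hG => hv.integrable_mul
      (lim_ind_memLp (c := fun x : Tor (n + 2) => x 1) hG hf (measurable_pi_apply _) 2)
  have i1 : Integrable (fun z => w z * dpsi H (z.2 1)) (cyl (n + 2) T) := by
    simpa using I hw (lim_dpsi_cont hH) MeasurableSet.univ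
  have i2 : Integrable (fun z => g z * psi H (z.2 1)) (cyl (n + 2) T) := by
    simpa using I hg (lim_psi_cont hH) MeasurableSet.univ
  obtain ⟨F, hF⟩ : ∃ F : ℝ × Tor (n + 2) → ℝ,
    F = fun z => w z * dpsi H (z.2 1) + g z * psi H (z.2 1) := ⟨_, rfl⟩
  have iF : Integrable F ((volume.restrict (Ioo (0 : ℝ) T)).prod volume) := hF ▸ i1.add i2
  have key : ∀ (η : ℝ → ℝ) (B : ℝ), Measurable η → (∀ t, ‖η t‖ ≤ B) →
      ∫ z, η z.1 * F z ∂cyl (n + 2) T = ∫ t in Ioo 0 T, η t • ∫ x, F (t, x) := fun η B h1 h2 => by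
    rw [cyl, integral_prod (fun z => η z.1 * F z) (iF.bdd_mul
      (h1.comp measurable_fst).aestronglyMeasurable (Eventually.of_forall fun z => h2 z.1))]
    simp only [integral_const_mul, smul_eq_mul]
  have h0 := isOpen_Ioo.ae_eq_zero_of_integral_contDiff_smul_eq_zero
    (μ := volume.restrict (Ioo (0 : ℝ) T)) (U := Ioo 0 T) (f := fun t => ∫ x, F (t, x))
    (iF.integral_prod_left.locallyIntegrable.locallyIntegrableOn _) fun η h1 h2 h3 => by
      obtain ⟨B, hB⟩ := h1.continuous.bounded_above_of_compact_support h2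
      have h4 := h _ (lim_test hT hH h1 h2 h3)
      have h5 : ∀ z : ℝ × Tor (n + 2),
          dX 1 (fun z : ℝ × Tor (n + 2) => η z.1 * psi H (z.2 1)) z = η z.1 * dpsi H (z.2 1) :=
        fun z => by simpa [dX] using ((lim_psi_deriv hH (z.2 1)).const_mul (η z.1)).deriv
      have hm : AEStronglyMeasurable (fun z : ℝ × Tor (n + 2) => η z.1) (cyl (n + 2) T) :=
        (h1.continuous.comp continuous_fst).aestronglyMeasurable
      rw [← key η B h1.continuous.measurable hB, hF]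
      simp only [mul_add]
      rw [integral_add (i1.bdd_mul hm (Eventually.of_forall fun z => hB z.1))
        (i2.bdd_mul hm (Eventually.of_forall fun z => hB z.1))]
      simp only [h5, mul_left_comm _ (η _)] at h4
      rw [h4, neg_add_cancel]
  have h6 := key (G.indicator 1) 1 (measurable_one.indicator hG) fun t => by
    by_cases ht : t ∈ G <;> simp [ht]
  rw [integral_eq_zero_of_ae (μ := volume.restrict (Ioo (0 : ℝ) T)) (by
    filter_upwards [h0, ae_restrict_mem measurableSet_Ioo] with t h7 h8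
    simp [h7 h8])] at h6
  rw [eq_neg_iff_add_eq_zero,
    ← integral_add (I hw (lim_dpsi_cont hH) hG) (I hg (lim_psi_cont hH) hG), ← h6, hF]
  congr 1
  funext z
  ring

lemma lim_not_parabolic {T : ℝ} (hT : 0 < T) {p q : ℝ≥0∞} {u b₁ b₂ : ℝ × X2 → ℝ}
    (L : Limit2D T p q u b₁ b₂) : ¬ Parabolic T fun z : ℝ × Tor (n + 2) => u (z.1, limPr z.2) := by
  rintro ⟨hw, g, hg, h⟩
  obtain ⟨S, hS⟩ : ∃ S, S = ∫ z, g 1 z ^ 2 ∂cyl (n + 2) T := ⟨_, rfl⟩
  obtain ⟨G, H, hG, hGT, hH, hG0, hK⟩ := L.marks ((S + Real.pi) / 2 + 1)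
  have h1 := lim_pairing hT hH hw (hg 1) (fun φ hφ => h φ hφ 1) hG
  have h2 : ∫ z, u z * (G.indicator 1 z.1 * dpsi H z.2.2) ∂cyl2 T =
      ∫ z, u (z.1, limPr z.2) * (G.indicator 1 z.1 * dpsi H (z.2 1)) ∂cyl (n + 2) T := by
    rw [← (lim_lift_mp n T).map_eq, integral_map (lim_lift_mp n T).measurable.aemeasurable]
    · rfl
    · exact (L.meas_u.mul (((measurable_one.indicator hG).comp measurable_fst).mul
        ((lim_dpsi_cont hH).measurable.comp measurable_snd.snd))).aestronglyMeasurable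
  have f2 := lim_ind_memLp (m := cyl (n + 2) T) hG (lim_psi_cont hH) (measurable_pi_apply 1) 2
  have h3 : ∫ z, (G.indicator 1 z.1 * psi H (z.2 1)) ^ 2 ∂cyl (n + 2) T ≤
      (volume G).toReal * (Real.pi * H ^ 3) := by
    have e1 : ∀ z : ℝ × Tor (n + 2), (G.indicator 1 z.1 * psi H (z.2 1)) ^ 2 =
        G.indicator 1 z.1 * psi H (z.2 1) ^ 2 := fun z => by
      by_cases hz : z.1 ∈ G <;> simp [hz]
    have e2 : ∫ x : Tor (n + 2), psi H (x 1) ^ 2 = ∫ y, psi H y ^ 2 := by
      have m := measurePreserving_eval (fun _ : Fin (n + 2) => (volume : Measure UnitAddCircle)) 1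
      rw [← m.map_eq, integral_map (f := fun y => psi H y ^ 2) m.measurable.aemeasurable
        ((lim_psi_cont hH).pow 2).aestronglyMeasurable]
      rfl
    simp only [e1]
    rw [cyl, integral_prod_mul (G.indicator 1) fun x : Tor (n + 2) => psi H (x 1) ^ 2, e2,
      integral_indicator_one hG, Measure.real, Measure.restrict_apply hG, inter_eq_left.2 hGT]
    exact mul_le_mul_of_nonneg_left (lim_psi_sq hH) hG0.le
  have hθ := Real.sqrt_pos.2 (mul_pos hG0 (pow_pos hH 3))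
  have hθ2 := Real.sq_sqrt (mul_pos hG0 (pow_pos hH 3)).le
  generalize √((volume G).toReal * H ^ 3) = θ at hθ hθ2 hK
  have h4 := integral_nonneg (μ := cyl (n + 2) T)
    (f := fun z => (θ * g 1 z + G.indicator 1 z.1 * psi H (z.2 1)) ^ 2) fun z => sq_nonneg _
  have i1 : Integrable (fun z => θ ^ 2 * g 1 z ^ 2) (cyl (n + 2) T) :=
    (hg 1).integrable_sq.const_mul _
  have i2 : Integrable (fun z => 2 * θ * (g 1 z * (G.indicator 1 z.1 * psi H (z.2 1))))
      (cyl (n + 2) T) := ((hg 1).integrable_mul f2).const_mul _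
  have i3 : Integrable (fun z => θ ^ 2 * g 1 z ^ 2 +
      2 * θ * (g 1 z * (G.indicator 1 z.1 * psi H (z.2 1)))) (cyl (n + 2) T) := i1.add i2
  have h5 : ∀ z : ℝ × Tor (n + 2), (θ * g 1 z + G.indicator 1 z.1 * psi H (z.2 1)) ^ 2 =
      θ ^ 2 * g 1 z ^ 2 + 2 * θ * (g 1 z * (G.indicator 1 z.1 * psi H (z.2 1))) +
        (G.indicator 1 z.1 * psi H (z.2 1)) ^ 2 := fun z => by ring
  simp only [h5] at h4
  rw [integral_add i3 f2.integrable_sq, integral_add i1 i2, integral_const_mul, integral_const_mul,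
    ← hS] at h4
  rw [h2, h1] at hK
  have h6 := mul_le_mul_of_nonneg_left hK hθ.le
  have h7 : (volume G).toReal * (Real.pi * H ^ 3) = Real.pi * θ ^ 2 := by rw [hθ2]; ring
  nlinarith [pow_pos hθ 2]

lemma lim_mul_int {d : ℕ} {T : ℝ} {w f : ℝ × Tor d → ℝ} (hw : Integrable w (cyl d T))
    (hf : Smooth f) : Integrable (fun z => w z * f z) (cyl d T) := by
  obtain ⟨A, -, hA⟩ := lim_bound hf T
  exact hw.mul_bdd (lim_cont hf).aestronglyMeasurable ((lim_mem d T).mono fun z hz => hA _ hz _)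

lemma lim_norm_lift {f : ℝ × X2 → ℝ} (hf : Measurable f) (p : ℝ≥0∞) (t : ℝ) :
    eLpNorm (fun x : Tor (n + 2) => f (t, limPr x)) p volume =
      eLpNorm (fun x => f (t, x)) p volume :=
  eLpNorm_comp_measurePreserving (lim_slice hf t) limPr_mp

theorem nonParabolic_of_approx {d : ℕ} (hd : 2 ≤ d) {T : ℝ} (hT : 0 < T) {p q : ℝ≥0∞}
    (hq2 : 2 ≤ q) (hpq : p⁻¹ + q⁻¹ ≤ 1) (A : Approx2D T p q) : NonParabolicExists d T p q := by
  obtain ⟨n, rfl⟩ : ∃ n, d = n + 2 := ⟨d - 2, by omega⟩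
  obtain ⟨u, b₁, b₂, L⟩ := lim_2d hq2 hpq A
  have M := lim_lift_mp n T
  have am : ∀ {f : ℝ × X2 → ℝ}, Measurable f →
      AEStronglyMeasurable (fun z : ℝ × Tor (n + 2) => f (z.1, limPr z.2)) (cyl (n + 2) T) :=
    fun hf => (hf.comp M.measurable).aestronglyMeasurable
  have il : ∀ {f : ℝ × X2 → ℝ}, Integrable f (cyl2 T) →
      Integrable (fun z : ℝ × Tor (n + 2) => f (z.1, limPr z.2)) (cyl (n + 2) T) :=
    fun hf => M.integrable_comp_of_integrable hf
  refine ⟨Fin.cons (fun z => b₁ (z.1, limPr z.2)) (Fin.cons (fun z => b₂ (z.1, limPr z.2)) 0), 0,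
    fun z => u (z.1, limPr z.2), fun i => ?_, fun φ hφ => ?_, MemLp.zero, ⟨am L.meas_u, ?_⟩,
    fun φ hφ => ?_, lim_not_parabolic hT L⟩
  · refine Fin.cases ⟨am L.meas_b₁, ?_⟩ (fun j => Fin.cases ⟨am L.meas_b₂, ?_⟩
      (fun k => ⟨aestronglyMeasurable_zero, ?_⟩) j) i
    · simpa only [Fin.cons_zero, lim_norm_lift L.meas_b₁] using L.norm_b₁
    · simpa only [Fin.cons_succ, Fin.cons_zero, lim_norm_lift L.meas_b₂] using L.norm_b₂
    · simp
  · have hs := hφ.1.1
    simp only [Fin.sum_univ_succ, Fin.cons_zero, Fin.cons_succ, Fin.succ_zero_eq_one, Pi.zero_apply,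
      zero_mul, Finset.sum_const_zero, add_zero]
    refine lim_fubini ((lim_mul_int (il L.int_b₁) (lim_smooth_dX hs 0)).add
      (lim_mul_int (il L.int_b₂) (lim_smooth_dX hs 1))) fun z => ?_
    obtain ⟨Λ, h⟩ := lim_testData hs T z
    exact L.div _ _ _ _ _ _ _ h
  · obtain ⟨C, hC⟩ := L.norm_u
    simp only [lim_norm_lift L.meas_u, eLpNorm_exponent_top]
    exact (eLpNormEssSup_le_of_ae_enorm_bound hC).trans_lt ENNReal.coe_lt_top
  · obtain ⟨hs, T', hT', h0⟩ := hφ
    have s0 := lim_smooth_dX hs 0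
    have s1 := lim_smooth_dX hs 1
    have i1 : Integrable (fun z : ℝ × Tor (n + 2) => u (z.1, limPr z.2) * (dT φ z +
        (b₁ (z.1, limPr z.2) * dX 0 φ z + b₂ (z.1, limPr z.2) * dX 1 φ z) +
        (dX 0 (dX 0 φ) z + dX 1 (dX 1 φ) z))) (cyl (n + 2) T) := by
      refine (((lim_mul_int (il L.int_u) (lim_smooth_dT hs)).add
        ((lim_mul_int (il L.int_ub₁) s0).add (lim_mul_int (il L.int_ub₂) s1))).add
        ((lim_mul_int (il L.int_u) (lim_smooth_dX s0 0)).add
          (lim_mul_int (il L.int_u) (lim_smooth_dX s1 1)))).congr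
        (Eventually.of_forall fun z => ?_)
      simp only [Pi.add_apply]
      ring
    have i2 : ∀ k : Fin n, Integrable (fun z : ℝ × Tor (n + 2) =>
        u (z.1, limPr z.2) * dX k.succ.succ (dX k.succ.succ φ) z) (cyl (n + 2) T) := fun k =>
      lim_mul_int (il L.int_u) (lim_smooth_dX (lim_smooth_dX hs _) _)
    have e1 := lim_fubini i1 fun z => by
      obtain ⟨Λ, h⟩ := lim_testData hs T z
      exact L.weak _ _ _ _ _ _ _ h fun x => h0 _ hT'.le
    have e2 : ∀ k : Fin n, ∫ z, u (z.1, limPr z.2) * dX k.succ.succ (dX k.succ.succ φ) z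
        ∂cyl (n + 2) T = 0 := fun k =>
      lim_extra (w := fun z => u (z.1, limPr z.2)) _ (il L.int_u) (fun t x s => by
        have h1 : (1 : Fin (n + 2)) ≠ k.succ.succ := (Fin.succ_succ_ne_one k).symm
        simp [limPr, h1, (Fin.succ_ne_zero k.succ).symm]) (lim_smooth_dX hs _)
    have e3 := integral_add i1 (integrable_finsetSum Finset.univ fun k _ => i2 k)
    rw [e1, integral_finsetSum _ fun k _ => i2 k] at e3
    simp only [e2, Finset.sum_const_zero, add_zero] at e3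
    simp only [Pi.zero_apply, zero_mul, integral_zero, add_zero]
    refine Eq.trans (integral_congr_ae (Eventually.of_forall fun z => ?_)) e3
    simp only [lap, Fin.sum_univ_succ, Fin.cons_zero, Fin.cons_succ, Fin.succ_zero_eq_one,
      Pi.zero_apply, zero_mul, Finset.sum_const_zero, add_zero, ← Finset.mul_sum]
    ring

end AdvDiff
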