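import Pool.Agent.Lib.MP_0c2f33_an.Track
import Pool.Agent.Lib.MP_0c2f33_an.Lim3

/-!
Lower bounds at the marked times and upper bounds for the norm of the trajectory.
-/

open MeasureTheory Set
open scoped ENNReal

namespace AdvDiff

theorem dpsi_cone {H : ℝ} (hH : 0 < H) : Cone (fun x : X2 => dpsi H x.2) := by
  refine ⟨BM.of_cont ((lim_dpsi_cont hH).comp continuous_snd), fun x => ?_, fun x s hs => ?_⟩
  · obtain ⟨s, hs⟩ := QuotientAddGroup.mk_surjective x.2
    simp only [mir, ← hs, ← AddCircle.coe_neg, dpsi, lim_cosT, lim_sinT, mul_neg, Real.cos_neg,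
      Real.sin_neg, neg_div]
  · simp only [dpsi, lim_sinT]
    have := Real.sin_nonneg_of_mem_Icc (x := 2 * Real.pi * s)
      ⟨by have := hs.1; positivity, by nlinarith [hs.2, Real.pi_pos]⟩
    positivity

theorem dpsi_ge {H s : ℝ} (hH : 0 < H) (hH' : H ≤ 1 / 8) (h1 : H ≤ 6 * s) (h2 : s ≤ 2 * H) :
    1 / 5000 ≤ dpsi H (s : UnitAddCircle) := by
  have hs : 0 < s := by linarith
  have hd := lim_den hH (s : UnitAddCircle)
  have p3 := Real.pi_gt_three
  have p4 := Real.pi_lt_four
  have a := Real.mul_le_sin (x := 2 * Real.pi * s) (by positivity) (by nlinarith)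
  rw [show 2 / Real.pi * (2 * Real.pi * s) = 4 * s by field_simp; ring, ← lim_sinT] at a
  have b := Real.one_sub_sq_div_two_le_cos (x := 2 * Real.pi * s)
  rw [← lim_cosT] at b
  have c : (2 * Real.pi * s) ^ 2 ≤ (16 * H) ^ 2 :=
    pow_le_pow_left₀ (by positivity) (by nlinarith) 2
  have d : (H ^ 2 + 1 - cosT s) ^ 2 ≤ (129 * H ^ 2) ^ 2 :=
    pow_le_pow_left₀ hd.le (by nlinarith) 2
  have e : 4 * H ≤ 2 * Real.pi * sinT s := by nlinarith
  have f : H ^ 3 * (4 * H) ≤ H ^ 3 * (2 * Real.pi * sinT s) := by gcongr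
  rw [dpsi, le_div_iff₀ (by positivity)]
  have g : 0 < H ^ 4 := by positivity
  nlinarith

/-- At all times with label `k` the state pairs with `w` to at least `c`. -/
def Mk (m : ℕ) (l : List Phase) (k : ℕ) (c : ℝ) (w : X2 → ℝ) : Prop :=
  ∀ u, Cone u → ∀ t, 0 ≤ t → (look (Phase.sdur m) l t).lab = some k →
    c ≤ ∫ x, traj m l u t x * w x

theorem Mk.append {m k : ℕ} {c : ℝ} {w : X2 → ℝ} {l₁ l₂ : List Phase} (hm : 0 < m)
    (h : ∀ P ∈ l₁, P.OK) (h₁ : Mk m l₁ k c w) (h₂ : Mk m l₂ k c w) : Mk m (l₁ ++ l₂) k c w := by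
  intro u hu t ht hl
  rw [look_append (fun P hP => (h P hP).sdur_nonneg m) ht] at hl
  rw [traj_append h ht]
  split_ifs at hl ⊢ with h3
  · exact h₁ u hu t ht hl
  · exact h₂ _ (run_nl_cone hm h hu) _ (by linarith) hl

theorem Mk.of_not {m k : ℕ} {c : ℝ} {w : X2 → ℝ} {l : List Phase}
    (h : ∀ P ∈ l, P.lab ≠ some k) : Mk m l k c w := by
  intro u _ t _ hl
  rcases look_mem (d := Phase.sdur m) (l := l) t with h1 | h1
  · exact absurd hl (h _ h1)
  · rw [h1] at hl
    simp [Phase.lab] at hl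

theorem expand_blocks (m n : ℕ) (f : ℕ → List Phase) :
    expand m (blocks n f) = blocks n fun j => expand m (f j) := by
  induction n with
  | zero => rfl
  | succ n ih => rw [blocks_succ, blocks_succ, expand_append, ih]

theorem Mk.blocks {m k n : ℕ} {c : ℝ} {w : X2 → ℝ} {f : ℕ → List Phase} (hm : 0 < m)
    (h : ∀ j, ∀ P ∈ f j, P.OK) (h₁ : ∀ j, Mk m (f j) k c w) : Mk m (blocks n f) k c w := by
  induction n with
  | zero => exact Mk.of_not (by simp [blocks_zero])
  | succ n ih =>
    rw [blocks_succ]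
    exact ih.append hm (forall_blocks fun j _ => h j) (h₁ n)

/-- Along the run the norm grows by at most `B`, at the end by at most `b`. -/
def Nb (m : ℕ) (q : ℝ≥0∞) (l : List Phase) (B b : ℝ≥0∞) : Prop :=
  ∀ u, Cone u → (∀ t, 0 ≤ t → eLpNorm (traj m l u t) q volume ≤ eLpNorm u q volume + B) ∧
    eLpNorm (run (Phase.nl m) l u) q volume ≤ eLpNorm u q volume + b

theorem Nb.append {m : ℕ} {q B₁ B₂ b₁ b₂ B : ℝ≥0∞} {l₁ l₂ : List Phase} (hm : 0 < m)
    (h : ∀ P ∈ l₁, P.OK) (h₁ : Nb m q l₁ B₁ b₁) (h₂ : Nb m q l₂ B₂ b₂) (e₁ : B₁ ≤ B)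
    (e₂ : b₁ + B₂ ≤ B) : Nb m q (l₁ ++ l₂) B (b₁ + b₂) := by
  intro u hu
  have c := run_nl_cone hm h hu
  refine ⟨fun t ht => ?_, ?_⟩
  · rw [traj_append h ht]
    split_ifs with h3
    · exact ((h₁ u hu).1 t ht).trans (by gcongr)
    · refine ((h₂ _ c).1 _ (by linarith)).trans ?_
      calc _ ≤ eLpNorm u q volume + b₁ + B₂ := by gcongr; exact (h₁ u hu).2
        _ ≤ _ := by rw [add_assoc]; gcongr
  · rw [run_append, ← add_assoc]
    exact (h₂ _ c).2.trans (by gcongr; exact (h₁ u hu).2)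

theorem Nb.mono {m : ℕ} {q B b B' b' : ℝ≥0∞} {l : List Phase} (h : Nb m q l B b) (e₁ : B ≤ B')
    (e₂ : b ≤ b') : Nb m q l B' b' := fun u hu =>
  ⟨fun t ht => ((h u hu).1 t ht).trans (by gcongr), (h u hu).2.trans (by gcongr)⟩

theorem Nb.of_lin {m : ℕ} {q : ℝ≥0∞} {l : List Phase} (hm : 0 < m) (hq : 1 ≤ q) (hq' : q ≠ ⊤)
    (h : ∀ P ∈ l, P.nl m = P.lin m) : Nb m q l 0 0 := by
  have key : ∀ l' : List Phase, (∀ P ∈ l', P.nl m = P.lin m) → ∀ u, BM u →
      eLpNorm (run (Phase.nl m) l' u) q volume ≤ eLpNorm u q volume := by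
    intro l' h'
    induction l' with
    | nil => exact fun u _ => le_rfl
    | cons P l ih =>
      intro u hu
      rw [run_cons, h' P (by simp)]
      exact (ih (fun Q hQ => h' Q (by simp [hQ])) _ (Phase.lin_bm hm hu)).trans
        (Phase.eLpNorm_lin_le hm hu hq hq')
  intro u hu
  refine ⟨fun t _ => ?_, by rw [add_zero]; exact key l h u hu.bm⟩
  obtain ⟨l', h1, h2⟩ := traj_prefix (m := m) (l := l) (v := u) t
  rw [h2, add_zero]
  exact key l' (fun P hP => h P (h1.subset hP)) u hu.bm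

theorem Nb.blocks {m n : ℕ} {q B b : ℝ≥0∞} {f : ℕ → List Phase} (hm : 0 < m)
    (h : ∀ j, ∀ P ∈ f j, P.OK) (h₁ : ∀ j, Nb m q (f j) B b) :
    Nb m q (blocks n f) (n * b + B) (n * b) := by
  induction n with
  | zero => exact fun u _ => ⟨fun t _ => le_self_add, le_self_add⟩
  | succ n ih =>
    rw [blocks_succ]
    have := ih.append hm (forall_blocks fun j _ => h j) (h₁ n) (B := ((n + 1 : ℕ) : ℝ≥0∞) * b + B)
      (by gcongr; exact Nat.le_succ n) (by gcongr; exact Nat.le_succ n)
    refine this.mono le_rfl (le_of_eq ?_)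
    push_cast
    ring

theorem eLpNorm_le_interp {v : X2 → ℝ} (hv : BM v) {s a : ℝ} (hs : 0 ≤ s) (ha : 0 < a)
    (h1 : ∀ x, |v x| ≤ s * a) (h2 : ∫ x, |v x| ≤ a) {q : ℝ≥0∞} (hq : 1 ≤ q) (hq' : q ≠ ⊤) :
    eLpNorm v q volume ≤ ENNReal.ofReal (a * s ^ (1 - 1 / q.toReal)) := by
  have hq0 : q ≠ 0 := by rintro rfl; simp at hq
  have hr : 1 ≤ q.toReal := by
    have := ENNReal.toReal_mono hq' hq
    simpa using this
  set r := q.toReal with hr'
  have hr0 : 0 < r := by linarith
  rw [eLpNorm_eq_lintegral_rpow_enorm_toReal hq0 hq', ← hr']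
  have e1 : ∀ x, ‖v x‖ₑ ^ r ≤ ENNReal.ofReal ((s * a) ^ (r - 1) * |v x|) := by
    intro x
    rw [← ofReal_norm, Real.norm_eq_abs,
      ENNReal.ofReal_rpow_of_nonneg (abs_nonneg _) hr0.le]
    refine ENNReal.ofReal_le_ofReal ?_
    calc |v x| ^ r = |v x| ^ (r - 1) * |v x| := by
          rw [← Real.rpow_add_one' (abs_nonneg _) (by linarith), sub_add_cancel]
      _ ≤ _ := by gcongr; exact h1 x
  have e2 : ∫⁻ x, ‖v x‖ₑ ^ r ≤ ENNReal.ofReal ((s * a) ^ (r - 1) * a) := by
    refine (lintegral_mono e1).trans ?_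
    rw [← ofReal_integral_eq_lintegral_ofReal (hv.abs.cmul _).integrable
      (Filter.Eventually.of_forall fun x => by positivity), integral_const_mul]
    exact ENNReal.ofReal_le_ofReal (by gcongr)
  refine (ENNReal.rpow_le_rpow e2 (by positivity)).trans (le_of_eq ?_)
  rw [ENNReal.ofReal_rpow_of_nonneg (by positivity) (by positivity)]
  congr 1
  rw [Real.mul_rpow hs ha.le, mul_assoc, ← Real.rpow_add_one ha.ne', sub_add_cancel,
    Real.mul_rpow (by positivity) (by positivity), ← Real.rpow_mul hs, ← Real.rpow_mul ha.le,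
    mul_one_div_cancel hr0.ne', Real.rpow_one, mul_comm]
  congr 2
  field_simp

namespace Par

variable {T p : ℝ} (P : Par T p) {m : ℕ}

theorem mid_lab (k j : ℕ) : (P.mid k j).lab = none := by
  unfold mid
  split_ifs <;> rfl

theorem pre_lab (r k : ℕ) : ∀ Q ∈ P.pre r k, ∀ i, Q.lab = some i → k < i := by
  induction r generalizing k with
  | zero =>
    intro Q hQ i hi
    simp only [pre, List.mem_cons, List.not_mem_nil, or_false] at hQ
    rcases hQ with rfl | rfl <;> simp [Phase.lab] at hi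
  | succ r ih =>
    refine forall_blocks fun j _ => forall_append (forall_append
      (fun Q hQ i hi => by have := ih (k + 1) Q hQ i hi; omega) (forall_single fun i hi => ?_))
      (forall_single fun i hi => ?_)
    · simp only [last, Phase.lab, Option.some.injEq] at hi
      omega
    · rw [mid_lab] at hi
      simp at hi

theorem mk_base (hm : 0 < m) (r k : ℕ) :
    Mk m (expand m (P.node r (k + 1))) (k + 1) (1 / (20000 * (P.Nl : ℝ) ^ (k + 1)))
      (fun x => dpsi (P.H (k + 1)) x.2) := by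
  intro u hu t ht hl
  have ok := forall_expand (m := m) (P.pre_OK r (k + 1))
  rw [node, expand_append] at hl ⊢
  rw [look_append (fun Q hQ => (ok Q hQ).sdur_nonneg m) ht] at hl
  rw [traj_append ok ht]
  split_ifs at hl ⊢ with h3
  · exact Mk.of_not (forall_expand fun Q hQ h => lt_irrefl _ (P.pre_lab r (k + 1) Q hQ _ h))
      u hu t ht hl
  · obtain ⟨w, hw, hw'⟩ := exists_seed (P := P) hm r (k + 1)
    obtain ⟨l', h1, h2⟩ := traj_prefix (m := m) (l := expand m [P.last (k + 1)])
      (v := run (Phase.nl m) (expand m (P.pre r (k + 1))) u)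
      (t - tot (Phase.sdur m) (expand m (P.pre r (k + 1))))
    rw [expand_single, List.prefix_replicate_iff] at h1
    rw [h2, h1.2]
    have ok' : ∀ Q ∈ List.replicate l'.length (P.last (k + 1)), Q.OK := fun Q hQ => by
      rw [List.eq_of_mem_replicate hQ]; exact P.last_OK _
    have c1 := run_nl_cone hm ok hu
    have c2 := run_nl_cone hm ok' c1
    have c3 := run_nl_sub_lin hm ok' c1 hw.cone.bm (hw' u hu)
    have a1 := hw.rest hm h1.1
    have a2 := integral_mono_state c2.bm (run_lin_bm hm hw.cone.bm) c3 (P.platA_up k)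
    set U := run (Phase.nl m) (List.replicate l'.length (P.last (k + 1)))
      (run (Phase.nl m) (expand m (P.pre r (k + 1))) u)
    have hH := P.H_pos (k + 1)
    have a3 : ∫ x, 1 / 5000 * (U x * upf (P.platA k) x) ≤ ∫ x, U x * dpsi (P.H (k + 1)) x.2 := by
      refine integral_mono ((c2.bm.mul (P.platA_up k).bm).cmul _).integrable
        (c2.bm.mul (dpsi_cone hH).bm).integrable fun x => ?_
      simp only
      by_cases hx : upf (P.platA k) x = 0
      · rw [hx, mul_zero, mul_zero]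
        exact c2.mul_nonneg' (dpsi_cone hH) x
      · have hℓ := P.ℓ_pos k
        have b1 : P.y (k + 1) - P.ℓ k < fr x.2 :=
          not_le.1 fun h => hx (plat_low hℓ (P.y_le_H _) h)
        have b2 : fr x.2 < P.H (k + 1) + P.ℓ k :=
          not_le.1 fun h => hx (plat_high hℓ (P.y_le_H _) h)
        have b3 := P.y_low k
        have b4 := P.ℓ_lt k
        have b5 := P.y_le_H (k + 1)
        have b6 := P.H_le' (k + 1)
        have b7 := dpsi_ge (s := fr x.2) hH b6 (by unfold H; linarith) (by linarith)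
        rw [coe_fr] at b7
        have b8 := c2.nonneg_of_fr (x := x) (by linarith)
        have b9 := mul_le_mul_of_nonneg_left ((P.platA_up k).le_one (fr x.2)) b8
        have b10 := mul_le_mul_of_nonneg_left b7 b8
        rw [upf]
        linarith
    rw [integral_const_mul] at a3
    have a4 := P.mu_ge r (k + 1)
    have a5 := mul_le_mul_of_nonneg_right ((P.loss_parts k).2.trans (P.ε_le k))
      (P.mu_pos r (k + 1)).le
    have a6 : 192 * P.D k / P.ℓ k ^ 2 * P.mu r (k + 1)
        = 2 * (96 * P.D k / P.ℓ k ^ 2 * P.mu r (k + 1)) := by ring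
    have a7 : 1 / (20000 * (P.Nl : ℝ) ^ (k + 1)) = 1 / 10000 * (1 / (2 * (P.Nl : ℝ) ^ (k + 1))) := by
      field_simp; ring
    have a8 := P.mu_pos r (k + 1)
    rw [a7]
    linarith

theorem mk_node (hm : 0 < m) (r k s j : ℕ) (h : j + s = k + 1) :
    Mk m (expand m (P.node (r + s) j)) (k + 1) (1 / (20000 * (P.Nl : ℝ) ^ (k + 1)))
      (fun x => dpsi (P.H (k + 1)) x.2) := by
  induction s generalizing j with
  | zero => rw [add_zero] at h; subst h; exact P.mk_base hm r k
  | succ s ih =>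
    rw [node, expand_append, ← add_assoc]
    refine Mk.append hm (forall_expand (P.pre_OK _ _)) ?_
      (Mk.of_not (forall_expand (forall_single ?_)))
    · rw [pre_succ, expand_blocks]
      refine Mk.blocks hm (fun i => forall_expand (forall_append (P.node_OK _ _)
        (forall_single (P.mid_OK _ _)))) fun i => ?_
      rw [expand_append]
      refine Mk.append hm (forall_expand (P.node_OK _ _)) (ih (j + 1) (by omega))
        (Mk.of_not (forall_expand (forall_single ?_)))
      rw [mid_lab]; simp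
    · simp only [last, Phase.lab, ne_eq, Option.some.injEq]
      omega

theorem mid_nl (k j : ℕ) : (P.mid k j).nl m = (P.mid k j).lin m := by
  unfold mid
  split_ifs <;> rfl

theorem S_nonneg (k : ℕ) : 0 ≤ P.S k := le_trans (by positivity) (P.S_ge k)

theorem run_node_le (hm : 0 < m) (hN : P.Nt = P.Nl) {q : ℝ≥0∞} (hq : 1 ≤ q) (hq' : q ≠ ⊤)
    (r k : ℕ) {u : X2 → ℝ} (hu : Cone u) :
    eLpNorm (run (Phase.nl m) (expand m (P.node r k)) u) q volume ≤ eLpNorm u q volume
      + ENNReal.ofReal (2 / (P.Nl : ℝ) ^ k * P.S k ^ (1 - 1 / q.toReal)) := by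
  have hNl : (0 : ℝ) < P.Nl := by exact_mod_cast P.Nl_pos
  have ok := forall_expand (m := m) (P.node_OK r k)
  have ok' := forall_expand (m := m) (P.pre_OK r k)
  have c1 := run_nl_cone hm ok hu
  have c2 := run_aff_cone hm ok Cone.zero
  have b1 := run_lin_bm (l := expand m (P.node r k)) hm hu.bm
  have c3 := run_lin_add_aff_sub hm ok hu hu.bm Cone.zero (Cone.zero.congr fun x => by simp)
  have a1 : eLpNorm (run (Phase.nl m) (expand m (P.node r k)) u) q volume
      ≤ eLpNorm (fun x => run (Phase.lin m) (expand m (P.node r k)) u x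
        + run (Phase.aff m) (expand m (P.node r k)) (fun _ => 0) x) q volume :=
    eLpNorm_mono (c1.abs_le c3)
  refine a1.trans ((eLpNorm_add_le b1.1.aestronglyMeasurable c2.bm.1.aestronglyMeasurable
    hq).trans (add_le_add (eLpNorm_run_lin_le hm hu.bm hq hq') ?_))
  set V := run (Phase.aff m) (expand m (P.pre r k)) (fun _ => 0) with hV
  have cV : Cone V := run_aff_cone hm ok' Cone.zero
  have pV : Per (P.M k) V := run_inv (fun Q hQ _ hv => Phase.aff_per
    (forall_expand (P.pre_fine r k) Q hQ) hv) fun _ _ _ => rfl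
  have mV : ∫ x, |V x| ≤ 2 / (P.Nl : ℝ) ^ k := by
    have := integral_abs_run_aff_le hm ok' Cone.zero
    rw [tot_mass_expand, P.tot_pre_src (fun _ _ => rfl) (fun _ _ => rfl)] at this
    refine this.trans (le_of_eq ?_)
    have hW := P.W_pos (k + r)
    simp only [abs_zero, integral_zero, zero_add, Phase.mass, amp, H, add_sub_cancel_left, hN,
      pow_add]
    field_simp
  have e : run (Phase.aff m) (expand m (P.node r k)) (fun _ => 0)
      = (heat ((P.last k).box m))^[2 * m] V := by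
    rw [node, expand_append, run_append, expand_single, run_replicate]
    rfl
  rw [e]
  refine eLpNorm_le_interp (cV.bm.heat_iter _ _) (P.S_nonneg k) (by positivity) (fun x => ?_) ?_
    hq hq'
  · have := abs_heat_iter_le cV.bm (P.M_pos k) pV
      (Phase.box_bounds (P := P.last k) hm (P.last_OK _).1 (P.last_OK _).2).1
      (n := 2 * m) (by omega) x
    rw [last, box_mul_sqrt hm (P.g_pos _)] at this
    exact this.trans (mul_le_mul (P.S_ge _) mV (integral_nonneg fun _ => abs_nonneg _)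
      (P.S_nonneg k))
  · have := integral_abs_run_lin_le (l := List.replicate (2 * m) (P.last k)) hm cV.bm
    rw [run_replicate] at this
    exact this.trans mV

theorem nb_node (hm : 0 < m) (hN : P.Nt = P.Nl) {q : ℝ≥0∞} (hq : 1 ≤ q) (hq' : q ≠ ⊤)
    (hW : ∀ k, 1 / P.W k ≤ 2 * P.S k) {B : ℕ → ℝ}
    (h1 : ∀ k, 2 / (P.Nl : ℝ) ^ k * P.S k ^ (1 - 1 / q.toReal) ≤ B k)
    (h2 : ∀ k, P.Nt * (2 / (P.Nl : ℝ) ^ (k + 1) * P.S (k + 1) ^ (1 - 1 / q.toReal)) + B (k + 1)
      ≤ B k) (r k : ℕ) :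
    Nb m q (expand m (P.node r k)) (ENNReal.ofReal (B k))
      (ENNReal.ofReal (2 / (P.Nl : ℝ) ^ k * P.S k ^ (1 - 1 / q.toReal))) := by
  have hNl : (0 : ℝ) < P.Nl := by exact_mod_cast P.Nl_pos
  have lastNb : ∀ k, Nb m q (expand m [P.last k]) 0 0 := fun k =>
    Nb.of_lin hm hq hq' (forall_expand (forall_single rfl))
  suffices h : ∃ b, b ≤ ENNReal.ofReal (B k) ∧
      Nb m q (expand m (P.pre r k)) (ENNReal.ofReal (B k)) b by
    obtain ⟨b, e1, e2⟩ := h
    have := e2.append hm (forall_expand (P.pre_OK r k)) (lastNb k) le_rfl (by rwa [add_zero])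
    rw [← expand_append] at this
    exact fun u hu => ⟨(this u hu).1, P.run_node_le hm hN hq hq' r k hu⟩
  induction r generalizing k with
  | zero =>
    refine ⟨_, ENNReal.ofReal_le_ofReal (h1 k), ?_⟩
    have h0 := P.y_pos k
    have h3 := P.y_le_H k
    have h4 : P.H k < 1 / 2 := by linarith [P.H_le' k]
    have hS := prof_cone (P.amp_pos k).le h0 h4
    have hW' := P.W_pos k
    have nS : eLpNorm (prof (P.amp k) (P.y k) (P.H k)) q volume
        ≤ ENNReal.ofReal (2 / (P.Nl : ℝ) ^ k * P.S k ^ (1 - 1 / q.toReal)) := by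
      refine eLpNorm_le_interp hS.bm (P.S_nonneg k) (by positivity) (fun x => ?_) ?_ hq hq'
      · refine (abs_prof_le (P.amp_pos k).le h0 h4 x).trans ?_
        calc P.amp k = 1 / P.W k * (1 / (P.Nl : ℝ) ^ k) := by unfold amp; field_simp
          _ ≤ 2 * P.S k * (1 / (P.Nl : ℝ) ^ k) := by gcongr; exact hW k
          _ = _ := by ring
      · rw [integral_abs_prof (P.amp_pos k).le h0 h3 h4, amp, H, add_sub_cancel_left]
        exact le_of_eq (by field_simp)
    have n1 : Nb m q (expand m [Phase.rest (P.D k - P.g k) none]) 0 0 :=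
      Nb.of_lin hm hq hq' (forall_expand (forall_single rfl))
    have n2 : Nb m q [Phase.src (P.amp k) (P.y k) (P.H k)]
        (ENNReal.ofReal (2 / (P.Nl : ℝ) ^ k * P.S k ^ (1 - 1 / q.toReal)))
        (ENNReal.ofReal (2 / (P.Nl : ℝ) ^ k * P.S k ^ (1 - 1 / q.toReal))) := by
      intro u hu
      have a : eLpNorm (raise (prof (P.amp k) (P.y k) (P.H k)) u) q volume ≤ eLpNorm u q volume
          + ENNReal.ofReal (2 / (P.Nl : ℝ) ^ k * P.S k ^ (1 - 1 / q.toReal)) :=
        (eLpNorm_mono ((raise_cone hS hu).abs_le (add_sub_raise hS hu))).trans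
          ((eLpNorm_add_le hu.bm.1.aestronglyMeasurable hS.bm.1.aestronglyMeasurable hq).trans
            (by gcongr))
      refine ⟨fun t _ => ?_, a⟩
      rw [traj]
      split_ifs
      · exact le_self_add
      · exact a
    have := n1.append hm (forall_expand (forall_single (P.pre_OK 0 k _ (by simp [pre])))) n2
      (B := ENNReal.ofReal (B k)) zero_le (by rw [zero_add]; exact ENNReal.ofReal_le_ofReal (h1 k))
    rw [zero_add] at this
    rw [pre, expand_cons, ← expand_single]
    exact this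
  | succ r ih =>
    obtain ⟨b, e1, e2⟩ := ih (k + 1)
    have n0 := e2.append hm (forall_expand (P.pre_OK r (k + 1))) (lastNb (k + 1)) le_rfl
      (by rwa [add_zero])
    rw [← expand_append] at n0
    have n1 : Nb m q (expand m (P.node r (k + 1))) (ENNReal.ofReal (B (k + 1)))
        (ENNReal.ofReal (2 / (P.Nl : ℝ) ^ (k + 1) * P.S (k + 1) ^ (1 - 1 / q.toReal))) :=
      fun u hu => ⟨(n0 u hu).1, P.run_node_le hm hN hq hq' r (k + 1) hu⟩
    have n2 : ∀ j, Nb m q (expand m (P.node r (k + 1) ++ [P.mid k j])) (ENNReal.ofReal (B (k + 1)))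
        (ENNReal.ofReal (2 / (P.Nl : ℝ) ^ (k + 1) * P.S (k + 1) ^ (1 - 1 / q.toReal))) := by
      intro j
      have := n1.append hm (forall_expand (P.node_OK r (k + 1)))
        (Nb.of_lin hm hq hq' (forall_expand (m := m) (forall_single (P.mid_nl k j)))) le_rfl
        (by rw [add_zero]; exact ENNReal.ofReal_le_ofReal (h1 _))
      rwa [add_zero, ← expand_append] at this
    have n3 := Nb.blocks (n := P.Nt) hm (fun j => forall_expand (forall_append
      (P.node_OK r (k + 1)) (forall_single (P.mid_OK k j)))) n2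
    have hS := P.S_nonneg (k + 1)
    have hb : 0 ≤ 2 / (P.Nl : ℝ) ^ (k + 1) * P.S (k + 1) ^ (1 - 1 / q.toReal) := by positivity
    have e3 : (P.Nt : ℝ≥0∞) * ENNReal.ofReal (2 / (P.Nl : ℝ) ^ (k + 1)
        * P.S (k + 1) ^ (1 - 1 / q.toReal)) + ENNReal.ofReal (B (k + 1))
        ≤ ENNReal.ofReal (B k) := by
      rw [← ENNReal.ofReal_natCast, ← ENNReal.ofReal_mul (by positivity),
        ← ENNReal.ofReal_add (by positivity) (hb.trans (h1 _))]
      exact ENNReal.ofReal_le_ofReal (h2 k)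
    refine ⟨_, le_self_add.trans e3, ?_⟩
    rw [pre_succ, expand_blocks]
    exact n3.mono e3 le_rfl

end Par

end AdvDiff
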