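import Mathlib
import Pool.Agent.Lib.MP_0c2f33_an.Defs

/-!
Fourier series toolkit on the torus used for the regularity half.
-/

open MeasureTheory Set UnitAddTorus Filter Topology
open scoped ENNReal ComplexConjugate

namespace AdvDiff.Neg

variable {d : ℕ}

theorem circle_vol : (volume : Measure UnitAddCircle) = AddCircle.haarAddCircle := by
  rw [AddCircle.volume_eq_smul_haarAddCircle]
  simp

instance circleProb : IsProbabilityMeasure (volume : Measure UnitAddCircle) := by
  rw [circle_vol]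
  infer_instance

instance circleNegInv : Measure.IsNegInvariant (volume : Measure UnitAddCircle) := by
  infer_instance

instance torProb : IsProbabilityMeasure (volume : Measure (Tor d)) := inferInstance

theorem tor_vol : (volume : Measure (Tor d))
    = Measure.pi fun _ : Fin d => (AddCircle.haarAddCircle : Measure UnitAddCircle) := by
  rw [volume_pi, circle_vol]

/-- Fourier coefficient. -/
noncomputable def co (f : Tor d → ℂ) (k : Fin d → ℤ) : ℂ := ∫ x, mFourier (-k) x * f x

/-- Sum of a Fourier series in the space of continuous functions. -/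
noncomputable def Ker (m : (Fin d → ℤ) → ℂ) : C(Tor d, ℂ) := ∑' k, m k • mFourier k

/-- Eigenvalue of minus the Laplacian. -/
noncomputable def lam (k : Fin d → ℤ) : ℝ := ∑ i, (2 * Real.pi * (k i : ℝ)) ^ 2

/-- Symbol of the heat semigroup. -/
noncomputable def hm (a : ℝ) (k : Fin d → ℤ) : ℂ := ((Real.exp (-(lam k * a)) : ℝ) : ℂ)

/-- Symbol of a first order derivative. -/
noncomputable def dm (i : Fin d) (k : Fin d → ℤ) : ℂ := 2 * Real.pi * Complex.I * (k i : ℂ)

/-- Projection from Euclidean space to the torus. -/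
noncomputable def pr (v : Fin d → ℝ) : Tor d := fun i => ((v i : ℝ) : UnitAddCircle)

/-- Time slice of a real function on the cylinder, as a complex function on the torus. -/
noncomputable def sl (f : ℝ × Tor d → ℝ) (t : ℝ) : Tor d → ℂ := fun x => ((f (t, x) : ℝ) : ℂ)

/-- Rapidly decreasing sequences. -/
def RD (m : (Fin d → ℤ) → ℂ) : Prop := ∀ n : ℕ, Summable fun k => (1 + lam k) ^ n * ‖m k‖

/-- Derivative along the `i`-th coordinate line at every point. -/
def HasLD {E : Type} [NormedAddCommGroup E] [NormedSpace ℝ E] (i : Fin d) (Φ Φ' : Tor d → E) :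
    Prop :=
  ∀ x, HasDerivAt (fun θ : ℝ => Φ (x + Pi.single i ((θ : ℝ) : UnitAddCircle))) (Φ' x) 0

theorem continuous_pr : Continuous (pr : (Fin d → ℝ) → Tor d) :=
  continuous_pi fun i => (AddCircle.continuous_mk' 1).comp (continuous_apply i)

theorem pr_add (v w : Fin d → ℝ) : pr (v + w) = pr v + pr w := by
  funext i
  simp [pr]

theorem pr_zero : pr (0 : Fin d → ℝ) = 0 := by
  funext i
  simp [pr]

theorem pr_neg (v : Fin d → ℝ) : pr (-v) = -pr v := by
  funext i
  simp [pr]

theorem pr_single (i : Fin d) (θ : ℝ) :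
    pr (θ • (Pi.single i (1 : ℝ) : Fin d → ℝ)) = Pi.single i ((θ : ℝ) : UnitAddCircle) := by
  funext j
  by_cases h : j = i
  · subst h
    simp [pr]
  · simp [pr, h]

theorem lam_nonneg (k : Fin d → ℤ) : 0 ≤ lam k := Finset.sum_nonneg fun _ _ => sq_nonneg _

theorem lam_neg (k : Fin d → ℤ) : lam (-k) = lam k := by
  simp [lam]

theorem hm_neg (a : ℝ) (k : Fin d → ℤ) : hm a (-k) = hm a k := by
  simp [hm, lam_neg]

theorem dm_neg (i : Fin d) (k : Fin d → ℤ) : dm i (-k) = -dm i k := by
  simp [dm]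

theorem hm_add (a b : ℝ) (k : Fin d → ℤ) : hm (a + b) k = hm a k * hm b k := by
  simp only [hm]
  rw [← Complex.ofReal_mul, ← Real.exp_add]
  congr 2
  ring

theorem hm_zero (k : Fin d → ℤ) : hm 0 k = 1 := by simp [hm]

theorem norm_hm (a : ℝ) (k : Fin d → ℤ) : ‖hm a k‖ = Real.exp (-(lam k * a)) := by
  rw [hm, Complex.norm_real, Real.norm_of_nonneg (Real.exp_pos _).le]

theorem norm_hm_le {a : ℝ} (ha : 0 ≤ a) (k : Fin d → ℤ) : ‖hm a k‖ ≤ 1 := by
  rw [norm_hm, Real.exp_le_one_iff]
  have := mul_nonneg (lam_nonneg k) ha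
  linarith

theorem sum_dm_sq (k : Fin d → ℤ) : ∑ i, dm i k * dm i k = -(lam k : ℂ) := by
  simp only [dm, lam]
  push_cast
  rw [← Finset.sum_neg_distrib]
  refine Finset.sum_congr rfl fun i _ => ?_
  linear_combination (2 * (Real.pi : ℂ) * (k i : ℂ)) ^ 2 * Complex.I_mul_I

theorem norm_dm_sq (i : Fin d) (k : Fin d → ℤ) : ‖dm i k‖ ^ 2 = (2 * Real.pi * (k i : ℝ)) ^ 2 := by
  have : dm i k = ((2 * Real.pi * (k i : ℝ) : ℝ) : ℂ) * Complex.I := by
    simp only [dm]
    push_cast
    ring
  rw [this, norm_mul, Complex.norm_I, mul_one, Complex.norm_real, Real.norm_eq_abs, sq_abs]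

theorem norm_dm_sq_le (i : Fin d) (k : Fin d → ℤ) : ‖dm i k‖ ^ 2 ≤ lam k := by
  rw [norm_dm_sq]
  exact Finset.single_le_sum (f := fun i => (2 * Real.pi * (k i : ℝ)) ^ 2)
    (fun _ _ => sq_nonneg _) (Finset.mem_univ i)

theorem norm_dm_le (i : Fin d) (k : Fin d → ℤ) : ‖dm i k‖ ≤ 1 + lam k := by
  have := norm_dm_sq_le i k
  nlinarith [norm_nonneg (dm i k), sq_nonneg (‖dm i k‖ - 1), lam_nonneg k]

theorem RD.summable {m : (Fin d → ℤ) → ℂ} (h : RD m) : Summable fun k => ‖m k‖ := by
  simpa using h 0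

theorem RD.of_le {m m' : (Fin d → ℤ) → ℂ} (h : RD m) {C : ℝ} (j : ℕ)
    (hle : ∀ k, ‖m' k‖ ≤ C * (1 + lam k) ^ j * ‖m k‖) : RD m' := fun n => by
  refine Summable.of_nonneg_of_le (fun k => by have := lam_nonneg k; positivity) (fun k => ?_)
    ((h (n + j)).mul_left C)
  have := lam_nonneg k
  calc (1 + lam k) ^ n * ‖m' k‖ ≤ (1 + lam k) ^ n * (C * (1 + lam k) ^ j * ‖m k‖) := by
        gcongr
        exact hle k
    _ = _ := by ring

theorem RD.mul_bdd {m c : (Fin d → ℤ) → ℂ} (h : RD m) {C : ℝ} (hc : ∀ k, ‖c k‖ ≤ C) :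
    RD fun k => m k * c k :=
  h.of_le (C := C) 0 fun k => by
    rw [norm_mul, pow_zero, mul_one, mul_comm]
    gcongr
    exact hc k

theorem RD.dm_mul {m : (Fin d → ℤ) → ℂ} (h : RD m) (i : Fin d) : RD fun k => dm i k * m k :=
  h.of_le (C := 1) 1 fun k => by
    rw [norm_mul, pow_one, one_mul]
    gcongr
    exact norm_dm_le i k

theorem RD.lam_mul {m : (Fin d → ℤ) → ℂ} (h : RD m) : RD fun k => (lam k : ℂ) * m k :=
  h.of_le (C := 1) 1 fun k => by
    rw [norm_mul, pow_one, one_mul, Complex.norm_real, Real.norm_of_nonneg (lam_nonneg k)]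
    gcongr
    linarith

theorem RD.add {m m' : (Fin d → ℤ) → ℂ} (h : RD m) (h' : RD m') : RD fun k => m k + m' k :=
  fun n => by
    refine Summable.of_nonneg_of_le (fun k => by have := lam_nonneg k; positivity) (fun k => ?_)
      ((h n).add (h' n))
    have := lam_nonneg k
    rw [← mul_add]
    gcongr
    exact norm_add_le _ _

theorem RD.neg {m : (Fin d → ℤ) → ℂ} (h : RD m) : RD fun k => -m k := fun n => by
  simpa using h n

theorem RD.sub {m m' : (Fin d → ℤ) → ℂ} (h : RD m) (h' : RD m') : RD fun k => m k - m' k := by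
  simpa [sub_eq_add_neg] using h.add h'.neg

theorem summable_prod_int {f : ℤ → ℝ} (h0 : ∀ n, 0 ≤ f n) (hf : Summable f) :
    Summable fun k : Fin d → ℤ => ∏ i, f (k i) := by
  classical
  refine summable_of_sum_le (c := (∑' n, f n) ^ d)
    (fun k => Finset.prod_nonneg fun i _ => h0 _) fun s => ?_
  let t : Finset ℤ := Finset.univ.biUnion fun i : Fin d => s.image fun k => k i
  have hsub : s ⊆ Fintype.piFinset fun _ : Fin d => t := by
    intro k hk
    simp only [Fintype.mem_piFinset, t, Finset.mem_biUnion, Finset.mem_univ, true_and,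
      Finset.mem_image]
    exact fun i => ⟨i, k, hk, rfl⟩
  calc ∑ k ∈ s, ∏ i, f (k i) ≤ ∑ k ∈ Fintype.piFinset fun _ : Fin d => t, ∏ i, f (k i) :=
        Finset.sum_le_sum_of_subset_of_nonneg hsub fun k _ _ => Finset.prod_nonneg fun i _ => h0 _
    _ = ∏ _i : Fin d, ∑ n ∈ t, f n := (Finset.prod_univ_sum (fun _ => t) (fun _ n => f n)).symm
    _ = (∑ n ∈ t, f n) ^ d := by simp
    _ ≤ _ := by
        gcongr
        · exact Finset.sum_nonneg fun n _ => h0 n
        · exact hf.sum_le_tsum t fun n _ => h0 n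

theorem summable_exp_sq {c : ℝ} (hc : 0 < c) :
    Summable fun n : ℤ => Real.exp (-(c * (n : ℝ) ^ 2)) := by
  have h : Summable fun n : ℕ => Real.exp (-(c * (n : ℝ) ^ 2)) := by
    refine Summable.of_nonneg_of_le (fun n => (Real.exp_pos _).le) (fun n => ?_)
      (Real.summable_exp_nat_mul_iff.mpr (show -c < 0 by linarith))
    rw [Real.exp_le_exp]
    have : (n : ℝ) ≤ (n : ℝ) ^ 2 := by exact_mod_cast Nat.le_self_pow two_ne_zero n
    nlinarith
  refine Summable.of_nat_of_neg ?_ ?_
  · simpa using h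
  · simpa using h

theorem RD_hm {a : ℝ} (ha : 0 < a) : RD (hm (d := d) a) := fun n => by
  have hs : Summable fun k : Fin d → ℤ => Real.exp (-(lam k * (a / 2))) := by
    have := summable_prod_int (d := d) (fun n => (Real.exp_pos _).le)
      (summable_exp_sq (c := (2 * Real.pi) ^ 2 * (a / 2)) (by positivity))
    refine this.congr fun k => ?_
    rw [← Real.exp_sum, lam, Finset.sum_mul, ← Finset.sum_neg_distrib]
    congr 1
    exact Finset.sum_congr rfl fun i _ => by ring
  refine Summable.of_nonneg_of_le (fun k => by have := lam_nonneg k; positivity) (fun k => ?_)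
    (hs.mul_left (Real.exp (a / 2) * (n.factorial / (a / 2) ^ n)))
  rw [norm_hm]
  have h0 := lam_nonneg k
  have h1 := Real.pow_div_factorial_le_exp ((1 + lam k) * (a / 2)) (by positivity) n
  have h2 : (1 + lam k) ^ n ≤ n.factorial / (a / 2) ^ n * Real.exp ((1 + lam k) * (a / 2)) := by
    rw [div_le_iff₀ (by positivity), mul_pow] at h1
    rw [div_mul_eq_mul_div, le_div_iff₀ (by positivity)]
    linarith
  calc (1 + lam k) ^ n * Real.exp (-(lam k * a))
      ≤ n.factorial / (a / 2) ^ n * Real.exp ((1 + lam k) * (a / 2)) * Real.exp (-(lam k * a)) := by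
        gcongr
    _ = _ := by
        rw [mul_assoc, ← Real.exp_add, mul_comm (Real.exp _), mul_assoc, ← Real.exp_add]
        congr 2
        ring

theorem mF_add (k : Fin d → ℤ) (x y : Tor d) :
    mFourier k (x + y) = mFourier k x * mFourier k y := by
  simp only [mFourier, ContinuousMap.coe_mk, Pi.add_apply, fourier_apply, zsmul_add,
    AddCircle.toCircle_add, Circle.coe_mul, Finset.prod_mul_distrib]

theorem mF_negpt (k : Fin d → ℤ) (y : Tor d) : mFourier k (-y) = mFourier (-k) y := by
  simp only [mFourier, ContinuousMap.coe_mk, Pi.neg_apply, fourier_apply, smul_neg, neg_smul]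

theorem mF_pr (k : Fin d → ℤ) (v : Fin d → ℝ) :
    mFourier k (pr v) = Complex.exp (∑ i, (v i : ℂ) * dm i k) := by
  simp only [mFourier, ContinuousMap.coe_mk, pr, fourier_coe_apply, Complex.exp_sum, dm]
  refine Finset.prod_congr rfl fun i _ => ?_
  congr 1
  push_cast
  ring

theorem norm_mF (k : Fin d → ℤ) (x : Tor d) : ‖mFourier k x‖ = 1 := by
  simp only [mFourier, fourier_apply, ContinuousMap.coe_mk, norm_prod, Circle.norm_coe,
    Finset.prod_const_one]

theorem hasSum_Ker {m : (Fin d → ℤ) → ℂ} (h : Summable fun k => ‖m k‖) :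
    HasSum (fun k => m k • mFourier k) (Ker m) :=
  (Summable.of_norm (by simpa only [norm_smul, mFourier_norm, mul_one] using h)).hasSum

theorem hasSum_Ker_apply {m : (Fin d → ℤ) → ℂ} (h : Summable fun k => ‖m k‖) (x : Tor d) :
    HasSum (fun k => m k * mFourier k x) (Ker m x) := by
  simpa only [map_smul] using! (ContinuousMap.evalCLM ℂ x).hasSum (hasSum_Ker h)

theorem norm_Ker_le {m : (Fin d → ℤ) → ℂ} (h : Summable fun k => ‖m k‖) :
    ‖Ker m‖ ≤ ∑' k, ‖m k‖ := by
  refine tsum_of_norm_bounded h.hasSum fun k => ?_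
  rw [norm_smul, mFourier_norm, mul_one]

theorem Ker_add {m m' : (Fin d → ℤ) → ℂ} (h : Summable fun k => ‖m k‖)
    (h' : Summable fun k => ‖m' k‖) : Ker (fun k => m k + m' k) = Ker m + Ker m' := by
  refine HasSum.tsum_eq ?_
  convert! (hasSum_Ker h).add (hasSum_Ker h') using 2
  exact ContinuousMap.ext fun x => by simp [add_mul]

theorem Ker_neg (m : (Fin d → ℤ) → ℂ) : Ker (fun k => -m k) = -Ker m := by
  rw [Ker, Ker, ← tsum_neg]
  exact tsum_congr fun k => ContinuousMap.ext fun x => by simp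

theorem Ker_sub {m m' : (Fin d → ℤ) → ℂ} (h : Summable fun k => ‖m k‖)
    (h' : Summable fun k => ‖m' k‖) : Ker (fun k => m k - m' k) = Ker m - Ker m' := by
  refine HasSum.tsum_eq ?_
  convert! (hasSum_Ker h).sub (hasSum_Ker h') using 2
  exact ContinuousMap.ext fun x => by simp [sub_mul]

theorem Ker_sum {ι : Type} (s : Finset ι) {m : ι → (Fin d → ℤ) → ℂ}
    (h : ∀ i, Summable fun k => ‖m i k‖) :
    Ker (fun k => ∑ i ∈ s, m i k) = ∑ i ∈ s, Ker (m i) := by
  refine HasSum.tsum_eq ?_
  convert! hasSum_sum fun i (_ : i ∈ s) => hasSum_Ker (h i) using 2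
  exact ContinuousMap.ext fun x => by simp [Finset.sum_mul]

theorem integrable_cmul {f : Tor d → ℂ} (hf : Integrable f) {g : Tor d → ℂ} (hg : Continuous g) :
    Integrable fun x => g x * f x := by
  obtain ⟨C, hC⟩ := (isCompact_univ.image hg.norm).bddAbove
  exact hf.bdd_mul (c := C) hg.aestronglyMeasurable
    (Eventually.of_forall fun x => hC ⟨x, mem_univ _, rfl⟩)

theorem integrable_cont {E : Type} [NormedAddCommGroup E] {g : Tor d → E} (hg : Continuous g) :
    Integrable g :=
  hg.integrable_of_hasCompactSupport (HasCompactSupport.of_compactSpace g)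

theorem norm_co_le (f : Tor d → ℂ) (k : Fin d → ℤ) : ‖co f k‖ ≤ ∫ x, ‖f x‖ := by
  refine (norm_integral_le_integral_norm _).trans (le_of_eq ?_)
  simp only [norm_mul, norm_mF, one_mul]

theorem RD.mul_co {m : (Fin d → ℤ) → ℂ} (h : RD m) (f : Tor d → ℂ) : RD fun k => m k * co f k :=
  h.mul_bdd (norm_co_le f)

theorem summable_mul_co {m : (Fin d → ℤ) → ℂ} (h : Summable fun k => ‖m k‖) (f : Tor d → ℂ) :
    Summable fun k => ‖m k * co f k‖ := by
  refine Summable.of_nonneg_of_le (fun k => norm_nonneg _) (fun k => ?_)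
    (h.mul_right (∫ x, ‖f x‖))
  rw [norm_mul]
  gcongr
  exact norm_co_le f k

theorem hasSum_integral_Ker_mul {m : (Fin d → ℤ) → ℂ} (h : Summable fun k => ‖m k‖)
    {f : Tor d → ℂ} (hf : Integrable f) :
    HasSum (fun k => m k * co f (-k)) (∫ x, Ker m x * f x) := by
  have h1 := hasSum_integral_of_summable_integral_norm (μ := (volume : Measure (Tor d)))
    (F := fun k x => m k * mFourier k x * f x)
    (fun k => integrable_cmul hf (by fun_prop))
    (by
      simp only [norm_mul, norm_mF, mul_one, integral_const_mul]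
      exact h.mul_right _)
  convert! h1 using 1
  · funext k
    simp only [co, neg_neg, mul_assoc, integral_const_mul]
  · refine integral_congr_ae (Eventually.of_forall fun x => ?_)
    exact ((hasSum_Ker_apply h x).mul_right (f x)).tsum_eq.symm

theorem co_mF (k l : Fin d → ℤ) : co (mFourier l) k = if k = l then 1 else 0 := by
  have h := (orthonormal_iff_ite.mp (orthonormal_mFourier (d := Fin d))) k l
  simp only [ContinuousMap.inner_toLp, ← mFourier_neg] at h
  rw [← h, co, tor_vol]
  refine integral_congr_ae (Eventually.of_forall fun x => ?_)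
  simp only [mul_comm]

theorem co_Ker {m : (Fin d → ℤ) → ℂ} (h : Summable fun k => ‖m k‖) (k : Fin d → ℤ) :
    co (Ker m) k = m k := by
  have h1 := hasSum_integral_Ker_mul h (f := mFourier (-k)) (integrable_cont (by fun_prop))
  have h2 : HasSum (fun l => m l * co (mFourier (-k)) (-l)) (m k) := by
    have := hasSum_single (f := fun l => m l * co (mFourier (-k)) (-l)) k
      (fun l hl => by simp [co_mF, hl])
    simpa [co_mF] using this
  rw [← h1.unique h2, co]
  simp only [mul_comm]

theorem Ker_conv {m : (Fin d → ℤ) → ℂ} (h : Summable fun k => ‖m k‖) {f : Tor d → ℂ}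
    (hf : Integrable f) (x : Tor d) :
    Ker (fun k => m k * co f k) x = ∫ y, Ker m (x - y) * f y := by
  have h1 := hasSum_integral_of_summable_integral_norm (μ := (volume : Measure (Tor d)))
    (F := fun k y => m k * mFourier k (x - y) * f y)
    (fun k => integrable_cmul hf (by fun_prop))
    (by
      simp only [norm_mul, norm_mF, mul_one, integral_const_mul]
      exact h.mul_right _)
  refine (hasSum_Ker_apply (summable_mul_co h f) x).unique ?_
  convert! h1 using 1
  · funext k
    simp only [co, sub_eq_add_neg, mF_add, mF_negpt, ← integral_const_mul, ← integral_mul_const]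
    refine integral_congr_ae (Eventually.of_forall fun y => ?_)
    simp only
    ring
  · refine integral_congr_ae (Eventually.of_forall fun y => ?_)
    exact ((hasSum_Ker_apply h (x - y)).mul_right (f y)).tsum_eq.symm

/-- Moving a multiplier from one factor to the other. -/
theorem integral_Ker_symm {m : (Fin d → ℤ) → ℂ} (h : Summable fun k => ‖m k‖) {f g : Tor d → ℂ}
    (hf : Integrable f) (hg : Integrable g) :
    ∫ x, Ker (fun k => m k * co f k) x * g x = ∫ x, Ker (fun k => m (-k) * co g k) x * f x := by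
  have h' : Summable fun k => ‖m (-k)‖ := (Equiv.neg _).summable_iff.mpr h
  have h1 := hasSum_integral_Ker_mul (summable_mul_co h f) hg
  have h2 := hasSum_integral_Ker_mul (summable_mul_co h' g) hf
  refine h1.unique ?_
  rw [← (Equiv.neg _).hasSum_iff] at h2
  convert h2 using 1
  funext k
  simp only [Function.comp, Equiv.neg_apply, neg_neg]
  ring

theorem hasDerivAt_mF (k : Fin d → ℤ) (x : Tor d) (v : Fin d → ℝ) (θ : ℝ) :
    HasDerivAt (fun θ : ℝ => mFourier k (x + pr (θ • v)))
      ((∑ i, (v i : ℂ) * dm i k) * mFourier k (x + pr (θ • v))) θ := by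
  have e : ∀ θ : ℝ, mFourier k (x + pr (θ • v))
      = mFourier k x * Complex.exp ((θ : ℂ) * ∑ i, (v i : ℂ) * dm i k) := fun θ => by
    rw [mF_add, mF_pr, Finset.mul_sum]
    congr 2
    refine Finset.sum_congr rfl fun i _ => ?_
    simp [mul_assoc]
  simp only [e]
  have h1 : HasDerivAt (fun θ : ℝ => (θ : ℂ) * ∑ i, (v i : ℂ) * dm i k)
      (∑ i, (v i : ℂ) * dm i k) θ := by
    simpa using (Complex.ofRealCLM.hasDerivAt (x := θ)).mul_const (∑ i, (v i : ℂ) * dm i k)
  convert! (h1.cexp).const_mul (mFourier k x) using 1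
  ring

theorem hasDerivAt_Ker {m : (Fin d → ℤ) → ℂ} (h : RD m) (x : Tor d) (v : Fin d → ℝ) (θ : ℝ) :
    HasDerivAt (fun θ : ℝ => Ker m (x + pr (θ • v)))
      (∑ i, (v i : ℂ) * Ker (fun k => dm i k * m k) (x + pr (θ • v))) θ := by
  have hu : Summable fun k => ∑ i, ‖(v i : ℂ)‖ * ‖dm i k * m k‖ :=
    summable_sum fun i _ => (h.dm_mul i).summable.mul_left _
  have h1 := hasDerivAt_tsum (𝕜 := ℝ) (y₀ := θ) hu
    (g := fun k θ => m k * mFourier k (x + pr (θ • v)))
    (g' := fun k θ => m k * ((∑ i, (v i : ℂ) * dm i k) * mFourier k (x + pr (θ • v))))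
    (fun k θ => (hasDerivAt_mF k x v θ).const_mul _)
    (fun k θ => by
      rw [← mul_assoc, norm_mul, norm_mF, mul_one, Finset.mul_sum]
      refine (norm_sum_le _ _).trans (le_of_eq (Finset.sum_congr rfl fun i _ => ?_))
      rw [← norm_mul]
      congr 1
      ring)
    (hasSum_Ker_apply h.summable _).summable θ
  convert! h1 using 1
  · funext θ
    exact (hasSum_Ker_apply h.summable _).tsum_eq.symm
  · refine (HasSum.tsum_eq ?_).symm
    have := hasSum_sum fun i (_ : i ∈ Finset.univ) =>
      (hasSum_Ker_apply (h.dm_mul i).summable (x + pr (θ • v))).mul_left (v i : ℂ)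
    convert! this using 1
    funext k
    rw [Finset.sum_mul, Finset.mul_sum]
    exact Finset.sum_congr rfl fun i _ => by ring

theorem hasLD_Ker {m : (Fin d → ℤ) → ℂ} (h : RD m) (i : Fin d) :
    HasLD i (Ker m) (Ker fun k => dm i k * m k) := fun x => by
  have h1 := hasDerivAt_Ker h x (Pi.single i 1) 0
  simp only [pr_single] at h1
  convert! h1 using 1
  rw [Finset.sum_eq_single i (fun j _ hj => by simp [hj]) (by simp)]
  simp

theorem HasLD.at {E : Type} [NormedAddCommGroup E] [NormedSpace ℝ E] {i : Fin d}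
    {Φ Φ' : Tor d → E} (h : HasLD i Φ Φ') (x : Tor d) (θ : ℝ) :
    HasDerivAt (fun θ : ℝ => Φ (x + Pi.single i ((θ : ℝ) : UnitAddCircle)))
      (Φ' (x + Pi.single i ((θ : ℝ) : UnitAddCircle))) θ := by
  have h1 := h (x + Pi.single i ((θ : ℝ) : UnitAddCircle))
  have h2 := HasDerivAt.comp_sub_const θ θ (f := fun s : ℝ =>
    Φ (x + Pi.single i ((θ : ℝ) : UnitAddCircle) + Pi.single i ((s : ℝ) : UnitAddCircle)))
    (by rw [sub_self]; exact h1)
  convert h2 using 2 with s
  rw [add_assoc, ← Pi.single_add, ← AddCircle.coe_add]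
  simp

theorem HasLD.integral_eq_zero {E : Type} [NormedAddCommGroup E] [NormedSpace ℝ E]
    [CompleteSpace E] {i : Fin d} {Φ Φ' : Tor d → E} (h : HasLD i Φ Φ') (hc : Continuous Φ)
    (hc' : Continuous Φ') : ∫ x, Φ' x = 0 := by
  obtain ⟨C, hC⟩ := (isCompact_univ.image hc'.norm).bddAbove
  have h1 := (hasDerivAt_integral_of_dominated_loc_of_deriv_le (μ := (volume : Measure (Tor d)))
    (F := fun (θ : ℝ) x => Φ (x + Pi.single i ((θ : ℝ) : UnitAddCircle)))
    (F' := fun (θ : ℝ) x => Φ' (x + Pi.single i ((θ : ℝ) : UnitAddCircle)))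
    (x₀ := 0) (s := univ) (bound := fun _ => C) univ_mem
    (Eventually.of_forall fun θ => Continuous.aestronglyMeasurable (by fun_prop))
    (integrable_cont (by fun_prop))
    (Continuous.aestronglyMeasurable (by fun_prop))
    (Eventually.of_forall fun x θ _ => hC ⟨_, mem_univ _, rfl⟩) (integrable_const C)
    (Eventually.of_forall fun x θ _ => h.at x θ)).2
  simp only [integral_add_right_eq_self] at h1
  exact h1.unique (hasDerivAt_const _ _)

theorem HasLD.mul {i : Fin d} {A : Type} [NormedRing A] [NormedAlgebra ℝ A]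
    {Φ Φ' Ψ Ψ' : Tor d → A} (h : HasLD i Φ Φ') (h' : HasLD i Ψ Ψ') :
    HasLD i (fun x => Φ x * Ψ x) (fun x => Φ' x * Ψ x + Φ x * Ψ' x) := fun x => by
  simpa using (h x).fun_mul (h' x)

theorem HasLD.re {i : Fin d} {Φ Φ' : Tor d → ℂ} (h : HasLD i Φ Φ') :
    HasLD i (fun x => (Φ x).re) (fun x => (Φ' x).re) := fun x =>
  Complex.reCLM.hasFDerivAt.comp_hasDerivAt 0 (h x)

theorem HasLD.ofReal {i : Fin d} {Φ Φ' : Tor d → ℝ} (h : HasLD i Φ Φ') :
    HasLD i (fun x => (Φ x : ℂ)) (fun x => (Φ' x : ℂ)) := fun x => (h x).ofReal_comp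

theorem HasLD.comp {i : Fin d} {Φ Φ' : Tor d → ℝ} (h : HasLD i Φ Φ') {G G' : ℝ → ℝ}
    (hG : ∀ z, HasDerivAt G (G' z) z) :
    HasLD i (fun x => G (Φ x)) (fun x => G' (Φ x) * Φ' x) := fun x => by
  have := (hG (Φ (x + Pi.single i (((0 : ℝ) : ℝ) : UnitAddCircle)))).comp 0 (h x)
  simpa [Function.comp_def] using this

theorem hasLD_mF (k : Fin d → ℤ) (i : Fin d) :
    HasLD i (mFourier k) (fun x => dm i k * mFourier k x) := fun x => by
  have h1 := hasDerivAt_mF k x (Pi.single i 1) 0
  simp only [pr_single] at h1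
  convert! h1 using 1
  rw [Finset.sum_eq_single i (fun j _ hj => by simp [hj]) (by simp)]
  simp

theorem HasLD.co_eq {i : Fin d} {Φ Φ' : Tor d → ℂ} (h : HasLD i Φ Φ') (hc : Continuous Φ)
    (hc' : Continuous Φ') (k : Fin d → ℤ) : co Φ' k = dm i k * co Φ k := by
  have h1 := ((hasLD_mF (-k) i).mul h).integral_eq_zero (by fun_prop) (by fun_prop)
  rw [integral_add (integrable_cont (by fun_prop)) (integrable_cont (by fun_prop))] at h1
  simp only [mul_assoc, integral_const_mul, dm_neg] at h1
  simp only [co]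
  linear_combination h1

theorem co_congr {f g : Tor d → ℂ} (h : f =ᵐ[volume] g) : co f = co g := by
  funext k
  refine integral_congr_ae ?_
  filter_upwards [h] with x hx
  rw [hx]

theorem co_sub {f g : Tor d → ℂ} (hf : Integrable f) (hg : Integrable g) (k : Fin d → ℤ) :
    co (fun x => f x - g x) k = co f k - co g k := by
  simp only [co, mul_sub]
  exact integral_sub (integrable_cmul hf (by fun_prop)) (integrable_cmul hg (by fun_prop))

theorem parseval {f g : Tor d → ℂ} (hf : MemLp f 2 volume) (hg : MemLp g 2 volume) :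
    HasSum (fun k => conj (co f k) * co g k) (∫ x, conj (f x) * g x) := by
  rw [tor_vol] at hf hg
  have h := hasSum_prod_mFourierCoeff (hf.toLp f) (hg.toLp g)
  have e : ∀ {f : Tor d → ℂ} (hf : MemLp f 2 (Measure.pi fun _ : Fin d =>
      (AddCircle.haarAddCircle : Measure UnitAddCircle))) (k : Fin d → ℤ),
      mFourierCoeff (hf.toLp f) k = co f k := fun {f} hf k => by
    rw [co, tor_vol]
    refine integral_congr_ae ?_
    filter_upwards [hf.coeFn_toLp] with x hx
    rw [hx, smul_eq_mul]
  simp only [e] at h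
  convert h using 1
  rw [tor_vol]
  refine integral_congr_ae ?_
  filter_upwards [hf.coeFn_toLp, hg.coeFn_toLp] with x hx hx'
  rw [hx, hx']

theorem parseval_sq {f : Tor d → ℂ} (hf : MemLp f 2 volume) :
    HasSum (fun k => ‖co f k‖ ^ 2) (∫ x, ‖f x‖ ^ 2) := by
  have h := parseval hf hf
  simp only [Complex.conj_mul', ← Complex.ofReal_pow, integral_complex_ofReal] at h
  exact_mod_cast h

theorem memLp_cont {E : Type} [NormedAddCommGroup E] {g : Tor d → E} (hg : Continuous g)
    (p : ℝ≥0∞) : MemLp g p volume :=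
  hg.memLp_of_hasCompactSupport (HasCompactSupport.of_compactSpace g)

/-- A divergence-free square integrable field is orthogonal to gradients. -/
theorem integral_div_free {B : Fin d → Tor d → ℝ} (hB : ∀ i, MemLp (B i) 2 volume)
    (hdiv : ∀ k, ∑ i, dm i k * co (fun x => (B i x : ℂ)) k = 0) {Φ : Tor d → ℝ}
    {Φ' : Fin d → Tor d → ℝ} (h : ∀ i, HasLD i Φ (Φ' i)) (hc : Continuous Φ)
    (hc' : ∀ i, Continuous (Φ' i)) : ∑ i, ∫ x, Φ' i x * B i x = 0 := by
  have h1 := hasSum_sum fun i (_ : i ∈ Finset.univ) =>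
    parseval (f := fun x => (Φ' i x : ℂ)) (g := fun x => (B i x : ℂ))
      (memLp_cont (by have := hc' i; fun_prop) 2) (hB i).ofReal
  have h2 : ∀ k, ∑ i, conj (co (fun x => (Φ' i x : ℂ)) k) * co (fun x => (B i x : ℂ)) k = 0 := by
    intro k
    have e : ∀ i, conj (dm i k) = -dm i k := fun i => by simp [dm, map_ofNat]
    have : ∀ i, co (fun x => (Φ' i x : ℂ)) k = dm i k * co (fun x => (Φ x : ℂ)) k := fun i =>
      (h i).ofReal.co_eq (by fun_prop) (by have := hc' i; fun_prop) k
    simp only [this, map_mul, e]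
    have h3 := hdiv k
    calc _ = -conj (co (fun x => (Φ x : ℂ)) k) * ∑ i, dm i k * co (fun x => (B i x : ℂ)) k := by
          rw [Finset.mul_sum]
          exact Finset.sum_congr rfl fun i _ => by ring
      _ = 0 := by rw [h3, mul_zero]
  simp only [h2] at h1
  have h4 := h1.unique hasSum_zero
  simp only [Complex.conj_ofReal, ← Complex.ofReal_mul, integral_complex_ofReal] at h4
  exact_mod_cast h4

end AdvDiff.Neg
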