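import Mathlib
import Pool.Agent.Lib.MP_0c2f33_an.NegKer

/-!
Young's inequality, Gaussian representation of the heat kernels and their `L¹` bounds.
-/

open MeasureTheory Set UnitAddTorus Filter Topology ProbabilityTheory
open scoped ENNReal ComplexConjugate

namespace AdvDiff.Neg

variable {d : ℕ}

theorem young {G : Type} [AddGroup G] [MeasurableSpace G] [MeasurableAdd₂ G] [MeasurableNeg G]
    (μ : Measure G) [SFinite μ] [μ.IsAddLeftInvariant] [μ.IsAddRightInvariant] [μ.IsNegInvariant]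
    {K F : G → ℝ≥0∞} (hK : Measurable K) (hF : AEMeasurable F μ) {r : ℝ} (hr : 1 ≤ r) :
    ∫⁻ x, (∫⁻ y, K (x - y) * F y ∂μ) ^ r ∂μ ≤ (∫⁻ y, K y ∂μ) ^ r * ∫⁻ y, F y ^ r ∂μ := by
  have r0 : 0 < r := by linarith
  have q0 : 0 ≤ 1 / r := by positivity
  have p0 : 0 ≤ 1 - 1 / r := by
    rw [sub_nonneg, div_le_one r0]
    exact hr
  have hs : Measurable fun z : G × G => z.1 - z.2 := by
    simp only [sub_eq_add_neg]
    fun_prop
  have h1 : ∀ x, (∫⁻ y, K (x - y) * F y ∂μ) ^ r
      ≤ (∫⁻ y, K y ∂μ) ^ (r - 1) * ∫⁻ y, K (x - y) * F y ^ r ∂μ := by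
    intro x
    have hKx : Measurable fun y => K (x - y) := hK.comp (hs.comp measurable_prodMk_left)
    have h2 := ENNReal.lintegral_mul_norm_pow_le (μ := μ) (f := fun y => K (x - y))
      (g := fun y => K (x - y) * F y ^ r) hKx.aemeasurable
      (hKx.aemeasurable.mul (hF.pow_const r)) p0 q0 (by ring)
    have e : ∀ y, K (x - y) ^ (1 - 1 / r) * (K (x - y) * F y ^ r) ^ (1 / r)
        = K (x - y) * F y := fun y => by
      rw [ENNReal.mul_rpow_of_nonneg _ _ q0, ← mul_assoc, ← ENNReal.rpow_add_of_nonneg _ _ p0 q0,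
        ← ENNReal.rpow_mul, mul_one_div_cancel r0.ne', sub_add_cancel, ENNReal.rpow_one,
        ENNReal.rpow_one]
    simp only [e, lintegral_sub_left_eq_self] at h2
    refine (ENNReal.rpow_le_rpow h2 r0.le).trans (le_of_eq ?_)
    rw [ENNReal.mul_rpow_of_nonneg _ _ r0.le, ← ENNReal.rpow_mul, ← ENNReal.rpow_mul,
      one_div_mul_cancel r0.ne', ENNReal.rpow_one]
    congr 2
    field_simp
  have hm : AEMeasurable (fun z : G × G => K (z.1 - z.2) * F z.2 ^ r) (μ.prod μ) :=
    (hK.comp hs).aemeasurable.mul (hF.pow_const r).comp_snd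
  calc _ ≤ ∫⁻ x, (∫⁻ y, K y ∂μ) ^ (r - 1) * ∫⁻ y, K (x - y) * F y ^ r ∂μ ∂μ := lintegral_mono h1
    _ = (∫⁻ y, K y ∂μ) ^ (r - 1) * ∫⁻ x, ∫⁻ y, K (x - y) * F y ^ r ∂μ ∂μ :=
        lintegral_const_mul'' _ hm.lintegral_prod_right'
    _ = (∫⁻ y, K y ∂μ) ^ (r - 1) * ∫⁻ y, (∫⁻ x, K x ∂μ) * F y ^ r ∂μ := by
        rw [lintegral_lintegral_swap hm]
        congr 1
        refine lintegral_congr fun y => ?_
        have hKy : Measurable fun x => K (x - y) := hK.comp (hs.comp measurable_prodMk_right)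
        rw [lintegral_mul_const _ hKy, lintegral_sub_right_eq_self]
    _ = _ := by
        rw [lintegral_const_mul'' _ (hF.pow_const r), ← mul_assoc]
        congr 1
        conv_rhs => rw [show r = (r - 1) + 1 by ring,
          ENNReal.rpow_add_of_nonneg _ _ (by linarith) zero_le_one, ENNReal.rpow_one]

/-- Fourier multiplier applied to a function. -/
noncomputable def S (m : (Fin d → ℤ) → ℂ) (f : Tor d → ℂ) : C(Tor d, ℂ) :=
  Ker fun k => m k * co f k

/-- The `L¹` norm of the kernel of a multiplier. -/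
noncomputable def N1 (m : (Fin d → ℤ) → ℂ) : ℝ≥0∞ := ∫⁻ x, ‖Ker m x‖ₑ

theorem hasLD_S {m : (Fin d → ℤ) → ℂ} (h : RD m) (f : Tor d → ℂ) (i : Fin d) :
    HasLD i (S m f) (S (fun k => dm i k * m k) f) := by
  simpa only [S, mul_assoc] using hasLD_Ker (h.mul_co f) i

theorem hasDerivAt_S {m : (Fin d → ℤ) → ℂ} (h : RD m) (f : Tor d → ℂ) (x : Tor d)
    (v : Fin d → ℝ) (θ : ℝ) :
    HasDerivAt (fun θ : ℝ => S m f (x + pr (θ • v)))
      (∑ i, (v i : ℂ) * S (fun k => dm i k * m k) f (x + pr (θ • v))) θ := by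
  simpa only [S, mul_assoc] using hasDerivAt_Ker (h.mul_co f) x v θ

theorem co_S {m : (Fin d → ℤ) → ℂ} (h : Summable fun k => ‖m k‖) (f : Tor d → ℂ)
    (k : Fin d → ℤ) : co (S m f) k = m k * co f k :=
  co_Ker (summable_mul_co h f) k

theorem enorm_S_le {m : (Fin d → ℤ) → ℂ} (h : Summable fun k => ‖m k‖) {f : Tor d → ℂ}
    (hf : Integrable f) (x : Tor d) : ‖S m f x‖ₑ ≤ ∫⁻ y, ‖Ker m (x - y)‖ₑ * ‖f y‖ₑ := by
  rw [S, Ker_conv h hf]
  refine (enorm_integral_le_lintegral_enorm _).trans (le_of_eq ?_)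
  simp only [enorm_mul]

theorem young_S {m : (Fin d → ℤ) → ℂ} (h : Summable fun k => ‖m k‖) {f : Tor d → ℂ}
    (hf : Integrable f) {r : ℝ≥0∞} (hr : 1 ≤ r) (hr' : r ≠ ⊤) :
    eLpNorm (S m f) r volume ≤ N1 m * eLpNorm f r volume := by
  have r0 : r ≠ 0 := (zero_lt_one.trans_le hr).ne'
  have r1 : 1 ≤ r.toReal := by
    rw [← ENNReal.toReal_one]
    exact ENNReal.toReal_mono hr' hr
  have rp : 0 < r.toReal := by linarith
  rw [eLpNorm_eq_lintegral_rpow_enorm_toReal r0 hr', eLpNorm_eq_lintegral_rpow_enorm_toReal r0 hr']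
  have h1 := young (volume : Measure (Tor d)) (K := fun x => ‖Ker m x‖ₑ) (F := fun y => ‖f y‖ₑ)
    (by fun_prop) hf.1.enorm r1
  have h2 : ∫⁻ x, ‖S m f x‖ₑ ^ r.toReal ≤ N1 m ^ r.toReal * ∫⁻ y, ‖f y‖ₑ ^ r.toReal :=
    (lintegral_mono fun x => ENNReal.rpow_le_rpow (enorm_S_le h hf x) rp.le).trans h1
  refine (ENNReal.rpow_le_rpow h2 (by positivity)).trans (le_of_eq ?_)
  rw [ENNReal.mul_rpow_of_nonneg _ _ (by positivity), ← ENNReal.rpow_mul,
    mul_one_div_cancel rp.ne', ENNReal.rpow_one]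

theorem sup_S {m : (Fin d → ℤ) → ℂ} (h : Summable fun k => ‖m k‖) {f : Tor d → ℂ}
    (hf : Integrable f) {C : ℝ≥0∞} (hC : ∀ y, ‖f y‖ₑ ≤ C) (x : Tor d) :
    ‖S m f x‖ₑ ≤ N1 m * C := by
  refine (enorm_S_le h hf x).trans ?_
  calc _ ≤ ∫⁻ y, ‖Ker m (x - y)‖ₑ * C := lintegral_mono fun y => by gcongr; exact hC y
    _ = _ := by
        rw [lintegral_mul_const _ (by fun_prop),
          lintegral_sub_left_eq_self (fun y => ‖Ker m y‖ₑ) x, N1]

theorem N1_mul {m m' : (Fin d → ℤ) → ℂ} (h : Summable fun k => ‖m k‖)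
    (h' : Summable fun k => ‖m' k‖) : N1 (fun k => m k * m' k) ≤ N1 m * N1 m' := by
  have h1 := young_S h (f := Ker m') (integrable_cont (by fun_prop)) le_rfl ENNReal.one_ne_top
  simp only [eLpNorm_one_eq_lintegral_enorm, S, co_Ker h'] at h1
  exact h1

/-- Standard Gaussian measure. -/
noncomputable def gam (d : ℕ) : Measure (Fin d → ℝ) := Measure.pi fun _ => gaussianReal 0 1

instance gamProb : IsProbabilityMeasure (gam d) := by
  unfold gam
  infer_instance

theorem exists_fn {α : Type} [MeasurableSpace α] (μ : Measure α) {π : α → Tor d}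
    (hπ : Measurable π) {H : α → ℂ} (hH : Integrable H μ) :
    ∃ L : C(Tor d, ℂ) →L[ℂ] ℂ, ∀ φ, L φ = ∫ y, φ (π y) * H y ∂μ := by
  have hi : ∀ φ : C(Tor d, ℂ), Integrable (fun y => φ (π y) * H y) μ := fun φ =>
    hH.bdd_mul (c := ‖φ‖) (φ.continuous.measurable.comp hπ).aestronglyMeasurable
      (Eventually.of_forall fun y => φ.norm_coe_le_norm _)
  let L : C(Tor d, ℂ) →ₗ[ℂ] ℂ :=
    { toFun := fun φ => ∫ y, φ (π y) * H y ∂μ
      map_add' := fun φ ψ => by
        simp only [ContinuousMap.add_apply, add_mul]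
        exact integral_add (hi φ) (hi ψ)
      map_smul' := fun c φ => by
        simp only [ContinuousMap.smul_apply, smul_eq_mul, mul_assoc, integral_const_mul,
          RingHom.id_apply] }
  refine ⟨L.mkContinuous (∫ y, ‖H y‖ ∂μ) fun φ => ?_, fun φ => rfl⟩
  rw [← integral_mul_const]
  refine norm_integral_le_of_norm_le (hH.norm.mul_const _) (Eventually.of_forall fun y => ?_)
  rw [norm_mul, mul_comm]
  gcongr
  exact φ.norm_coe_le_norm _

theorem gauss_rep {H : (Fin d → ℝ) → ℂ} (hH : Integrable H (gam d)) (ε : ℝ)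
    {m : (Fin d → ℤ) → ℂ} (hs : Summable fun k => ‖m k‖)
    (hm : ∀ k, m k = ∫ y, mFourier (-k) (pr (ε • y)) * H y ∂gam d) (φ : C(Tor d, ℂ)) :
    ∫ x, φ x * Ker m x = ∫ y, φ (pr (ε • y)) * H y ∂gam d := by
  obtain ⟨L1, h1⟩ := exists_fn (volume : Measure (Tor d)) measurable_id
    (H := Ker m) (integrable_cont (by fun_prop))
  obtain ⟨L2, h2⟩ := exists_fn (gam d) (π := fun y => pr (ε • y))
    (continuous_pr.comp (continuous_const_smul ε)).measurable hH
  have hd : Dense (Submodule.span ℂ (range (mFourier (d := Fin d))) : Set C(Tor d, ℂ)) :=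
    Submodule.dense_iff_topologicalClosure_eq_top.mpr span_mFourier_closure_eq_top
  have e : L1 = L2 := ContinuousLinearMap.ext_on hd (by
    rintro _ ⟨k, rfl⟩
    rw [h1, h2]
    have := co_Ker hs (-k)
    rw [hm, co, neg_neg] at this
    exact this)
  rw [← h2, ← e, h1]
  rfl

theorem N1_le_of_rep {H : (Fin d → ℝ) → ℂ} (hH : Integrable H (gam d)) (ε : ℝ)
    {m : (Fin d → ℤ) → ℂ} (hs : Summable fun k => ‖m k‖)
    (hm : ∀ k, m k = ∫ y, mFourier (-k) (pr (ε • y)) * H y ∂gam d) :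
    N1 m ≤ ENNReal.ofReal (∫ y, ‖H y‖ ∂gam d) := by
  rw [N1, ← ofReal_integral_norm_eq_lintegral_enorm (integrable_cont (by fun_prop))]
  refine ENNReal.ofReal_le_ofReal (le_of_forall_pos_le_add fun δ hδ => ?_)
  have hne : ∀ x, ((‖Ker m x‖ + δ : ℝ) : ℂ) ≠ 0 := fun x => by
    have : 0 < ‖Ker m x‖ + δ := by positivity
    exact_mod_cast this.ne'
  let φ : C(Tor d, ℂ) := ⟨fun x => conj (Ker m x) / ((‖Ker m x‖ + δ : ℝ) : ℂ),
    Continuous.div (by fun_prop) (by fun_prop) hne⟩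
  have hφ : ∀ x, ‖φ x‖ ≤ 1 := fun x => by
    have p : 0 < ‖Ker m x‖ + δ := by positivity
    simp only [φ, ContinuousMap.coe_mk, norm_div, Complex.norm_conj, Complex.norm_real,
      Real.norm_of_nonneg p.le]
    rw [div_le_one p]
    linarith
  have h1 : ∀ x, ‖Ker m x‖ ≤ (φ x * Ker m x).re + δ := fun x => by
    have p : 0 < ‖Ker m x‖ + δ := by positivity
    have e : φ x * Ker m x = ((‖Ker m x‖ ^ 2 / (‖Ker m x‖ + δ) : ℝ) : ℂ) := by
      simp only [φ, ContinuousMap.coe_mk]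
      rw [div_mul_eq_mul_div, Complex.conj_mul']
      push_cast
      rfl
    rw [e, Complex.ofReal_re, ← sub_le_iff_le_add, le_div_iff₀ p]
    nlinarith
  have hi : Integrable fun x => φ x * Ker m x := integrable_cont (by fun_prop)
  calc ∫ x, ‖Ker m x‖ ≤ ∫ x, ((φ x * Ker m x).re + δ) :=
        integral_mono (integrable_cont (by fun_prop)) (integrable_cont (by fun_prop)) h1
    _ = (∫ x, φ x * Ker m x).re + δ := by
        rw [integral_add (integrable_cont (by fun_prop)) (integrable_const _)]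
        congr 1
        · exact integral_re hi
        · simp
    _ ≤ _ := by
        gcongr
        rw [gauss_rep hH ε hs hm]
        refine (Complex.re_le_norm _).trans ?_
        refine norm_integral_le_of_norm_le hH.norm (Eventually.of_forall fun y => ?_)
        rw [norm_mul]
        exact mul_le_of_le_one_left (norm_nonneg _) (hφ _)

theorem gauss0 (z : ℂ) : ∫ y : ℝ, Complex.exp (z * y) ∂gaussianReal 0 1
    = Complex.exp (z ^ 2 / 2) := by
  have := complexMGF_id_gaussianReal (μ := 0) (v := 1) z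
  simpa [complexMGF] using this

theorem gauss1 (z : ℂ) : ∫ y : ℝ, (y : ℂ) * Complex.exp (z * y) ∂gaussianReal 0 1
    = z * Complex.exp (z ^ 2 / 2) := by
  have h1 := hasDerivAt_complexMGF (X := id) (μ := gaussianReal 0 1) (z := z) (by simp)
  have e : complexMGF id (gaussianReal 0 1) = fun z => Complex.exp (z ^ 2 / 2) := by
    funext z
    simpa [complexMGF] using gauss0 z
  rw [e] at h1
  have h2 : HasDerivAt (fun z : ℂ => Complex.exp (z ^ 2 / 2)) (z * Complex.exp (z ^ 2 / 2)) z := by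
    convert! ((hasDerivAt_pow 2 z).div_const 2).cexp using 1
    push_cast
    ring
  exact h1.unique h2

theorem mF_gauss (k : Fin d → ℤ) (ε : ℝ) (y : Fin d → ℝ) :
    mFourier (-k) (pr (ε • y)) = ∏ i, Complex.exp (-(ε * dm i k) * y i) := by
  rw [mF_pr, Complex.exp_sum]
  refine Finset.prod_congr rfl fun i _ => ?_
  congr 1
  simp only [Pi.smul_apply, smul_eq_mul, dm_neg]
  push_cast
  ring

theorem prod_exp_hm {a ε : ℝ} (h : ε ^ 2 = 2 * a) (k : Fin d → ℤ) :
    ∏ i, Complex.exp ((-(ε * dm i k)) ^ 2 / 2) = hm a k := by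
  rw [← Complex.exp_sum, hm, Complex.ofReal_exp]
  congr 1
  have h' : (ε : ℂ) ^ 2 = 2 * a := by exact_mod_cast h
  have := sum_dm_sq k
  calc ∑ i, (-(ε * dm i k)) ^ 2 / 2 = (ε : ℂ) ^ 2 / 2 * ∑ i, dm i k * dm i k := by
        rw [Finset.mul_sum]
        exact Finset.sum_congr rfl fun i _ => by ring
    _ = _ := by
        rw [this, h']
        push_cast
        ring

theorem hm_rep {a ε : ℝ} (h : ε ^ 2 = 2 * a) (k : Fin d → ℤ) :
    hm a k = ∫ y, mFourier (-k) (pr (ε • y)) * 1 ∂gam d := by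
  simp only [mul_one, mF_gauss, gam]
  rw [integral_fintype_prod_eq_prod (fun i (y : ℝ) => Complex.exp (-(ε * dm i k) * y))]
  simp only [gauss0]
  exact (prod_exp_hm h k).symm

theorem dm_hm_rep {a ε : ℝ} (h : ε ^ 2 = 2 * a) (hε : ε ≠ 0) (i : Fin d) (k : Fin d → ℤ) :
    dm i k * hm a k = ∫ y, mFourier (-k) (pr (ε • y)) * (-(ε : ℂ)⁻¹ * (y i : ℂ)) ∂gam d := by
  have e : ∀ y : Fin d → ℝ, mFourier (-k) (pr (ε • y)) * (-(ε : ℂ)⁻¹ * (y i : ℂ))
      = -(ε : ℂ)⁻¹ * ∏ j, (if j = i then (y j : ℂ) else 1) * Complex.exp (-(ε * dm j k) * y j) := by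
    intro y
    rw [Finset.prod_mul_distrib, Finset.prod_ite_eq', mF_gauss]
    simp only [Finset.mem_univ, if_true]
    ring
  simp only [e, integral_const_mul, gam]
  rw [integral_fintype_prod_eq_prod
    (fun j (y : ℝ) => (if j = i then (y : ℂ) else 1) * Complex.exp (-(ε * dm j k) * y))]
  have e2 : ∀ j, ∫ y : ℝ, (if j = i then (y : ℂ) else 1) * Complex.exp (-(ε * dm j k) * y)
      ∂gaussianReal 0 1
      = (if j = i then -(ε * dm j k) else 1) * Complex.exp ((-(ε * dm j k)) ^ 2 / 2) := by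
    intro j
    split_ifs
    · exact gauss1 _
    · simp only [one_mul, gauss0]
  simp only [e2]
  rw [Finset.prod_mul_distrib, Finset.prod_ite_eq', prod_exp_hm h]
  simp only [Finset.mem_univ, if_true]
  have : (ε : ℂ) ≠ 0 := by exact_mod_cast hε
  field_simp

theorem memLp_coord (i : Fin d) : MemLp (fun y : Fin d → ℝ => y i) 2 (gam d) :=
  (memLp_id_gaussianReal' (μ := 0) (v := 1) 2 (by simp)).comp_measurePreserving
    (measurePreserving_eval (fun _ : Fin d => gaussianReal 0 1) i)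

theorem integral_abs_coord (i : Fin d) : ∫ y, |y i| ∂gam d ≤ 1 := by
  have h2 : ∫ y, (y i) ^ 2 ∂gam d = 1 := by
    have h := variance_fun_id_gaussianReal (μ := 0) (v := 1)
    rw [variance_eq_integral measurable_id'.aemeasurable] at h
    simp only [integral_id_gaussianReal, sub_zero, NNReal.coe_one] at h
    rw [← h, gam]
    exact integral_comp_eval (μ := fun _ : Fin d => gaussianReal 0 1) (f := fun y : ℝ => y ^ 2)
      (by fun_prop)
  have i2 : Integrable (fun y : Fin d → ℝ => (y i) ^ 2) (gam d) := (memLp_coord i).integrable_sq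
  have i1 : Integrable (fun y : Fin d → ℝ => |y i|) (gam d) :=
    ((memLp_coord i).integrable one_le_two).abs
  calc ∫ y, |y i| ∂gam d ≤ ∫ y, (1 / 2 + 1 / 2 * (y i) ^ 2) ∂gam d :=
        integral_mono i1 ((integrable_const _).add (i2.const_mul _)) fun y => by
          have := sq_abs (y i)
          simp only
          nlinarith [sq_nonneg (|y i| - 1)]
    _ = 1 := by
        rw [integral_add (integrable_const _) (i2.const_mul _), integral_const_mul, h2]
        simp
        norm_num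

theorem N1_hm {a : ℝ} (ha : 0 < a) : N1 (hm (d := d) a) ≤ 1 := by
  have := N1_le_of_rep (d := d) (H := fun _ => 1) (integrable_const _) (Real.sqrt (2 * a))
    (RD_hm ha).summable (hm_rep (Real.sq_sqrt (by positivity)))
  simpa using this

theorem N1_d1 {a : ℝ} (ha : 0 < a) (i : Fin d) :
    N1 (fun k => dm i k * hm a k) ≤ ENNReal.ofReal (Real.sqrt a)⁻¹ := by
  have hε : 0 < Real.sqrt (2 * a) := Real.sqrt_pos.mpr (by positivity)
  have := N1_le_of_rep (d := d) (H := fun y => -((Real.sqrt (2 * a) : ℝ) : ℂ)⁻¹ * (y i : ℂ))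
    ((((memLp_coord i).integrable one_le_two).ofReal).const_mul _) (Real.sqrt (2 * a))
    ((RD_hm ha).dm_mul i).summable (dm_hm_rep (Real.sq_sqrt (by positivity)) hε.ne' i)
  refine this.trans (ENNReal.ofReal_le_ofReal ?_)
  simp only [norm_mul, norm_neg, norm_inv, Complex.norm_real, Real.norm_eq_abs, abs_of_pos hε,
    integral_const_mul]
  calc _ ≤ (Real.sqrt (2 * a))⁻¹ * 1 := by
        gcongr
        exact integral_abs_coord i
    _ ≤ _ := by
        rw [mul_one]
        gcongr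
        linarith

theorem N1_d2 {a : ℝ} (ha : 0 < a) (i j : Fin d) :
    N1 (fun k => dm j k * (dm i k * hm a k)) ≤ ENNReal.ofReal (2 / a) := by
  have h2 : 0 < a / 2 := by positivity
  have e : (fun k => dm j k * (dm i k * hm a k))
      = fun k => (dm j k * hm (a / 2) k) * (dm i k * hm (a / 2) k) := by
    funext k
    conv_lhs => rw [show a = a / 2 + a / 2 by ring, hm_add]
    ring
  rw [e]
  refine (N1_mul ((RD_hm h2).dm_mul j).summable ((RD_hm h2).dm_mul i).summable).trans ?_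
  refine (mul_le_mul' (N1_d1 h2 j) (N1_d1 h2 i)).trans (le_of_eq ?_)
  rw [← ENNReal.ofReal_mul (by positivity), ← mul_inv, Real.mul_self_sqrt h2.le, inv_div]

theorem N1_d3 {a : ℝ} (ha : 0 < a) (i j l : Fin d) :
    N1 (fun k => dm l k * (dm j k * (dm i k * hm a k)))
      ≤ ENNReal.ofReal (8 / (a * Real.sqrt a)) := by
  have h2 : 0 < a / 2 := by positivity
  have e : (fun k => dm l k * (dm j k * (dm i k * hm a k)))
      = fun k => (dm l k * hm (a / 2) k) * (dm j k * (dm i k * hm (a / 2) k)) := by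
    funext k
    conv_lhs => rw [show a = a / 2 + a / 2 by ring, hm_add]
    ring
  rw [e]
  refine (N1_mul ((RD_hm h2).dm_mul l).summable
    (((RD_hm h2).dm_mul i).dm_mul j).summable).trans ?_
  refine (mul_le_mul' (N1_d1 h2 l) (N1_d2 h2 i j)).trans ?_
  rw [← ENNReal.ofReal_mul (by positivity)]
  refine ENNReal.ofReal_le_ofReal ?_
  have s0 : 0 < Real.sqrt a := Real.sqrt_pos.mpr ha
  have s1 : Real.sqrt a / 2 ≤ Real.sqrt (a / 2) := by
    rw [Real.le_sqrt (by positivity) h2.le, div_pow, Real.sq_sqrt ha.le]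
    linarith
  calc (Real.sqrt (a / 2))⁻¹ * (2 / (a / 2)) ≤ (Real.sqrt a / 2)⁻¹ * (2 / (a / 2)) := by gcongr
    _ = _ := by
        field_simp
        norm_num

theorem S_hm_rep {a ε : ℝ} (ha : 0 < a) (h : ε ^ 2 = 2 * a) {g : Tor d → ℂ} (hg : Continuous g)
    (x : Tor d) : S (hm a) g x = ∫ y, g (x + pr (ε • y)) ∂gam d := by
  rw [S, Ker_conv (RD_hm ha).summable (integrable_cont hg)]
  have h1 := gauss_rep (d := d) (H := fun _ => 1) (integrable_const _) (-ε) (RD_hm ha).summable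
    (hm_rep (by rw [neg_sq, h])) ⟨fun y => g (x - y), by fun_prop⟩
  simp only [ContinuousMap.coe_mk, mul_one, neg_smul, pr_neg, sub_neg_eq_add] at h1
  rw [← h1, ← integral_sub_left_eq_self (fun y => g (x - y) * Ker (hm a) y) volume x]
  simp only [sub_sub_cancel, mul_comm]

/-- A moment of the Gaussian measure. -/
noncomputable def cL (d : ℕ) : ℝ≥0∞ := ∫⁻ y, ENNReal.ofReal (1 + (∑ j, |y j|) ^ 2) ∂gam d

theorem cL_ne_top : cL d ≠ ⊤ := by
  have h : MemLp (fun y : Fin d → ℝ => ∑ j, |y j|) 2 (gam d) :=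
    memLp_finsetSum _ fun j _ => (memLp_coord j).abs
  exact ((integrable_const (1 : ℝ)).add h.integrable_sq).lintegral_lt_top.ne

end AdvDiff.Neg
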