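import Mathlib
import Pool.Agent.Lib.MP_0c2f33_an.NegGauss

/-!
Truncation functions and one-dimensional estimates.
-/

open MeasureTheory Set Filter Topology
open scoped ENNReal

namespace AdvDiff.Neg

variable {d : ℕ}

/-- A smooth truncation `G` of the identity at height `M`, with primitive `β`. -/
structure Trunc (M : ℝ) (β G G' : ℝ → ℝ) : Prop where
  dβ : ∀ z, HasDerivAt β (G z) z
  dG : ∀ z, HasDerivAt G (G' z) z
  cG' : Continuous G'
  G'0 : ∀ z, 0 ≤ G' z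
  G'1 : ∀ z, G' z ≤ 1
  bG : ∀ z, |G z| ≤ M
  β0 : ∀ z, 0 ≤ β z
  β1 : ∀ z, β z ≤ z ^ 2
  e1 : ∀ z, |z - G z| ≤ |z|
  e2 : ∀ z, |z - G z| ≤ |z| ^ 3 / M ^ 2

theorem Trunc.cG {M : ℝ} {β G G' : ℝ → ℝ} (h : Trunc M β G G') : Continuous G :=
  continuous_iff_continuousAt.mpr fun z => (h.dG z).continuousAt

theorem Trunc.cβ {M : ℝ} {β G G' : ℝ → ℝ} (h : Trunc M β G G') : Continuous β :=
  continuous_iff_continuousAt.mpr fun z => (h.dβ z).continuousAt

theorem Trunc.lip {M : ℝ} {β G G' : ℝ → ℝ} (h : Trunc M β G G') (a b : ℝ) :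
    |G a - G b| ≤ |a - b| := by
  have := Convex.norm_image_sub_le_of_norm_hasDerivWithin_le (s := univ) (C := 1)
    (fun z _ => (h.dG z).hasDerivWithinAt)
    (fun z _ => by rw [Real.norm_of_nonneg (h.G'0 z)]; exact h.G'1 z) convex_univ
    (mem_univ b) (mem_univ a)
  simpa using this

theorem Trunc.lipβ {M : ℝ} {β G G' : ℝ → ℝ} (h : Trunc M β G G') (a b : ℝ) :
    |β a - β b| ≤ M * |a - b| :=
  Convex.norm_image_sub_le_of_norm_hasDerivWithin_le (s := univ) (C := M)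
    (fun z _ => (h.dβ z).hasDerivWithinAt) (fun z _ => h.bG z) convex_univ
    (mem_univ b) (mem_univ a)

theorem exists_trunc {M : ℝ} (hM : 0 < M) : ∃ β G G' : ℝ → ℝ, Trunc M β G G' := by
  let σ : ℝ → ℝ := fun z => Real.sqrt (1 + z ^ 2 / M ^ 2)
  have p : ∀ z : ℝ, 0 < 1 + z ^ 2 / M ^ 2 := fun z => by positivity
  have s2 : ∀ z, σ z ^ 2 = 1 + z ^ 2 / M ^ 2 := fun z => Real.sq_sqrt (p z).le
  have s1 : ∀ z, 1 ≤ σ z := fun z => Real.one_le_sqrt.mpr (le_add_of_nonneg_right (by positivity))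
  have s0 : ∀ z, 0 < σ z := fun z => zero_lt_one.trans_le (s1 z)
  have s3 : ∀ z, σ z ≤ 1 + z ^ 2 / M ^ 2 := fun z => by
    rw [← s2]
    nlinarith [s1 z]
  have dσ : ∀ z, HasDerivAt σ (z / (M ^ 2 * σ z)) z := fun z => by
    have h1 : HasDerivAt (fun z : ℝ => 1 + z ^ 2 / M ^ 2) (2 * z / M ^ 2) z := by
      simpa using ((hasDerivAt_pow 2 z).div_const (M ^ 2)).const_add 1
    convert! h1.sqrt (p z).ne' using 1
    have := (s0 z).ne'
    simp only [σ] at this ⊢
    field_simp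
  have cσ : Continuous σ := by
    simp only [σ]
    fun_prop
  have e0 : ∀ z, |z - z / σ z| = |z| * ((σ z - 1) / σ z) := fun z => by
    have := s0 z
    have := s1 z
    rw [show z - z / σ z = z * ((σ z - 1) / σ z) by field_simp, abs_mul,
      abs_of_nonneg (show 0 ≤ (σ z - 1) / σ z from div_nonneg (by linarith) (by linarith))]
  refine ⟨fun z => M ^ 2 * (σ z - 1), fun z => z / σ z, fun z => (σ z)⁻¹ ^ 3, ?_, ?_, ?_, ?_, ?_,
    ?_, ?_, ?_, ?_, ?_⟩
  · intro z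
    convert! ((dσ z).sub_const 1).const_mul (M ^ 2) using 1
    have := (s0 z).ne'
    field_simp
  · intro z
    convert! (hasDerivAt_id z).div (dσ z) (s0 z).ne' using 1
    have h0 := (s0 z).ne'
    have h2 : z ^ 2 = M ^ 2 * (σ z ^ 2 - 1) := by
      rw [s2]
      field_simp
      ring
    simp only [id]
    field_simp
    linear_combination h2
  · exact (cσ.inv₀ fun z => (s0 z).ne').pow 3
  · intro z
    have := s0 z
    positivity
  · intro z
    exact pow_le_one₀ (inv_nonneg.mpr (s0 z).le) (inv_le_one_of_one_le₀ (s1 z))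
  · intro z
    rw [abs_div, abs_of_pos (s0 z), div_le_iff₀ (s0 z)]
    refine abs_le_of_sq_le_sq' ?_ (mul_pos hM (s0 z)).le |>.2
    rw [sq_abs, mul_pow, s2]
    field_simp
    nlinarith
  · intro z
    have := s1 z
    exact mul_nonneg (by positivity) (by linarith)
  · intro z
    have h := s3 z
    calc M ^ 2 * (σ z - 1) ≤ M ^ 2 * (z ^ 2 / M ^ 2) := by gcongr; linarith
      _ = _ := by field_simp
  · intro z
    rw [e0]
    refine mul_le_of_le_one_right (abs_nonneg _) ?_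
    rw [div_le_one (s0 z)]
    linarith
  · intro z
    rw [e0]
    have h1 : (σ z - 1) / σ z ≤ z ^ 2 / M ^ 2 := by
      refine (div_le_self (by linarith [s1 z]) (s1 z)).trans ?_
      linarith [s3 z]
    calc |z| * ((σ z - 1) / σ z) ≤ |z| * (z ^ 2 / M ^ 2) := by gcongr
      _ = _ := by
          rw [← sq_abs z]
          ring

theorem amgm {κ : ℝ} (hκ : 0 < κ) (a b : ℝ) : a * b ≤ κ * a ^ 2 + b ^ 2 / (4 * κ) := by
  have : κ * a ^ 2 + b ^ 2 / (4 * κ) - a * b = (2 * κ * a - b) ^ 2 / (4 * κ) := by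
    field_simp
    ring
  have h : 0 ≤ (2 * κ * a - b) ^ 2 / (4 * κ) := by positivity
  linarith

theorem line_bound {M : ℝ} {β G G' : ℝ → ℝ} (hG : Trunc M β G G') {ω H : ℝ → ℝ}
    {V : Fin d → ℝ → ℝ} {Y : Fin d → ℝ} {i : Fin d}
    (hω : ∀ θ, HasDerivAt ω (∑ j, Y j * V j θ) θ) (hV : ∀ θ, HasDerivAt (V i) (H θ) θ)
    (cV : ∀ j, Continuous (V j)) (cH : Continuous H) {b₁ b₂ R κ : ℝ} (hκ : 0 < κ)
    (hb : |b₁| ≤ R) :
    |G (ω 1) - G (ω 0)| * |V i 0| * |b₁ + b₂|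
      ≤ (∫ θ in (0 : ℝ)..1, (2 * κ * (G' (ω θ) * ∑ j, V j θ ^ 2) + 2 * M * |b₂| * |H θ|))
        + ((∑ j, |Y j|) ^ 2 * R ^ 2 * V i 0 ^ 2 / (4 * κ)
          + M * (∑ j, |Y j|) * |V i 0| * b₂ ^ 2 / (2 * κ)) := by
  set L := ∑ j, |Y j| with hL
  have L0 : 0 ≤ L := Finset.sum_nonneg fun _ _ => abs_nonneg _
  have M0 : 0 ≤ M := (abs_nonneg _).trans (hG.bG 0)
  have R0 : 0 ≤ R := (abs_nonneg _).trans hb
  have cω : Continuous ω := continuous_iff_continuousAt.mpr fun θ => (hω θ).continuousAt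
  have cG' := hG.cG'
  let W : ℝ → ℝ := fun θ => Real.sqrt (∑ j, V j θ ^ 2)
  have W0 : ∀ θ, 0 ≤ W θ := fun θ => Real.sqrt_nonneg _
  have W2 : ∀ θ, W θ ^ 2 = ∑ j, V j θ ^ 2 := fun θ =>
    Real.sq_sqrt (Finset.sum_nonneg fun _ _ => sq_nonneg _)
  have WV : ∀ j θ, |V j θ| ≤ W θ := fun j θ => Real.abs_le_sqrt
    (Finset.single_le_sum (f := fun j => V j θ ^ 2) (fun _ _ => sq_nonneg _) (Finset.mem_univ j))
  have hYV : ∀ θ, |G' (ω θ) * ∑ j, Y j * V j θ| ≤ G' (ω θ) * (L * W θ) := fun θ => by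
    rw [abs_mul, abs_of_nonneg (hG.G'0 _)]
    gcongr
    · exact hG.G'0 _
    refine (Finset.abs_sum_le_sum_abs _ _).trans ?_
    rw [hL, Finset.sum_mul]
    refine Finset.sum_le_sum fun j _ => ?_
    rw [abs_mul]
    gcongr
    exact WV j θ
  set a := |G (ω 1) - G (ω 0)| with ha
  set Db := ∫ θ in (0 : ℝ)..1, G' (ω θ) * ∑ j, V j θ ^ 2 with hDb
  set del := ∫ θ in (0 : ℝ)..1, |H θ| with hdel
  have a0 : 0 ≤ a := abs_nonneg _
  have cD : Continuous fun θ => G' (ω θ) * ∑ j, V j θ ^ 2 := by fun_prop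
  have Db0 : 0 ≤ Db := intervalIntegral.integral_nonneg zero_le_one fun θ _ =>
    mul_nonneg (hG.G'0 _) (Finset.sum_nonneg fun _ _ => sq_nonneg _)
  have del0 : 0 ≤ del := intervalIntegral.integral_nonneg zero_le_one fun θ _ => abs_nonneg _
  have ftc : ∫ θ in (0 : ℝ)..1, G' (ω θ) * ∑ j, Y j * V j θ = G (ω 1) - G (ω 0) :=
    intervalIntegral.integral_eq_sub_of_hasDerivAt (f := fun θ => G (ω θ))
      (fun θ _ => (hG.dG (ω θ)).comp θ (hω θ)) (Continuous.intervalIntegrable (by fun_prop) _ _)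
  have key : ∀ (c : ℝ) (Φ : ℝ → ℝ), 0 ≤ c → Continuous Φ →
      (∀ θ ∈ Icc (0 : ℝ) 1, G' (ω θ) * (L * W θ) * c ≤ Φ θ) →
      a * c ≤ ∫ θ in (0 : ℝ)..1, Φ θ := by
    intro c Φ hc hΦ h
    rw [ha, ← ftc, ← abs_of_nonneg hc, ← abs_mul, ← intervalIntegral.integral_mul_const]
    refine (intervalIntegral.abs_integral_le_integral_abs zero_le_one).trans ?_
    refine intervalIntegral.integral_mono_on zero_le_one
      (Continuous.intervalIntegrable (by fun_prop) _ _) (hΦ.intervalIntegrable _ _) fun θ hθ => ?_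
    refine le_trans ?_ (h θ hθ)
    rw [abs_mul, abs_of_nonneg hc]
    gcongr
    exact hYV θ
  have hA : a * (|V i 0| * R) ≤ κ * Db + L ^ 2 * R ^ 2 * V i 0 ^ 2 / (4 * κ) := by
    refine (key (|V i 0| * R) (fun θ => κ * (G' (ω θ) * ∑ j, V j θ ^ 2)
      + L ^ 2 * R ^ 2 * V i 0 ^ 2 / (4 * κ)) (by positivity) (by fun_prop) fun θ _ => ?_).trans
      (le_of_eq ?_)
    · have h1 := amgm hκ (W θ) (L * (|V i 0| * R))
      have h2 : (L * (|V i 0| * R)) ^ 2 = L ^ 2 * R ^ 2 * V i 0 ^ 2 := by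
        rw [mul_pow, mul_pow, sq_abs]
        ring
      rw [h2, W2] at h1
      have h3 : 0 ≤ L ^ 2 * R ^ 2 * V i 0 ^ 2 / (4 * κ) := by positivity
      have h4 := hG.G'0 (ω θ)
      have h5 := hG.G'1 (ω θ)
      have h6 := mul_le_mul_of_nonneg_left h1 h4
      nlinarith
    · rw [intervalIntegral.integral_add (Continuous.intervalIntegrable (by fun_prop) _ _)
        (Continuous.intervalIntegrable (by fun_prop) _ _), intervalIntegral.integral_const_mul]
      simp [hDb]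
  set m := max (|V i 0| - del) 0 with hm
  have m0 : 0 ≤ m := le_max_right _ _
  have m1 : m ≤ |V i 0| := max_le (by linarith) (abs_nonneg _)
  have m2 : |V i 0| ≤ m + del := by
    have := le_max_left (|V i 0| - del) 0
    linarith
  have m3 : ∀ θ ∈ Icc (0 : ℝ) 1, m ≤ W θ := by
    intro θ hθ
    refine max_le ?_ (W0 θ)
    have h1 : ∫ x in (0 : ℝ)..θ, H x = V i θ - V i 0 :=
      intervalIntegral.integral_eq_sub_of_hasDerivAt (fun θ _ => hV θ)
        (cH.intervalIntegrable _ _)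
    have h2 : |V i θ - V i 0| ≤ del := by
      rw [← h1]
      refine (intervalIntegral.abs_integral_le_integral_abs hθ.1).trans ?_
      exact intervalIntegral.integral_mono_interval le_rfl hθ.1 hθ.2
        (Eventually.of_forall fun x => abs_nonneg _) (cH.abs.intervalIntegrable _ _)
    have h3 := abs_sub_abs_le_abs_sub (V i 0) (V i θ)
    rw [abs_sub_comm] at h3
    have := WV i θ
    linarith
  have hB1 : a * m ≤ L * Db := by
    refine (key m (fun θ => L * (G' (ω θ) * ∑ j, V j θ ^ 2)) m0 (by fun_prop)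
      fun θ hθ => ?_).trans (le_of_eq (intervalIntegral.integral_const_mul _ _))
    have h4 := hG.G'0 (ω θ)
    have := W0 θ
    calc G' (ω θ) * (L * W θ) * m ≤ G' (ω θ) * (L * W θ) * W θ := by
          gcongr
          exact m3 θ hθ
      _ = _ := by
          rw [← W2]
          ring
  have a2 : a ≤ 2 * M := by
    have h1 := abs_sub (G (ω 1)) (G (ω 0))
    have := hG.bG (ω 1)
    have := hG.bG (ω 0)
    linarith
  have hB2 : a * m ≤ 2 * M * |V i 0| := by gcongr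
  have hB : a * m * |b₂| ≤ κ * Db + M * L * |V i 0| * b₂ ^ 2 / (2 * κ) := by
    refine (abs_le_of_sq_le_sq' ?_ (by positivity)).2
    have h1 : (a * m * |b₂|) ^ 2 ≤ (L * Db) * (2 * M * |V i 0|) * b₂ ^ 2 := by
      rw [mul_pow, sq_abs, sq (a * m)]
      gcongr
    have h2 : (κ * Db + M * L * |V i 0| * b₂ ^ 2 / (2 * κ)) ^ 2
        - (L * Db) * (2 * M * |V i 0|) * b₂ ^ 2
        = (κ * Db - M * L * |V i 0| * b₂ ^ 2 / (2 * κ)) ^ 2 := by
      field_simp
      ring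
    nlinarith [sq_nonneg (κ * Db - M * L * |V i 0| * b₂ ^ 2 / (2 * κ))]
  have hI : ∫ θ in (0 : ℝ)..1, (2 * κ * (G' (ω θ) * ∑ j, V j θ ^ 2) + 2 * M * |b₂| * |H θ|)
      = 2 * κ * Db + 2 * M * |b₂| * del := by
    rw [intervalIntegral.integral_add (Continuous.intervalIntegrable (by fun_prop) _ _)
      (Continuous.intervalIntegrable (by fun_prop) _ _), intervalIntegral.integral_const_mul,
      intervalIntegral.integral_const_mul]
  rw [hI]
  have h1 : a * |V i 0| * |b₁ + b₂| ≤ a * |V i 0| * (R + |b₂|) := by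
    gcongr
    linarith [abs_add_le b₁ b₂]
  have h2 : a * |V i 0| * |b₂| ≤ a * (m + del) * |b₂| := by gcongr
  have h3 : a * del * |b₂| ≤ 2 * M * del * |b₂| := by gcongr
  nlinarith

theorem shift_bound {Φ : Tor d × (Fin d → ℝ) × ℝ → ℝ≥0∞} (hΦ : Measurable Φ) {A C : ℝ≥0∞}
    (h : ∀ y θ, ∫⁻ x, Φ (x, y, θ) ≤ A + ENNReal.ofReal (1 + (∑ j, |y j|) ^ 2) * C) :
    ∫⁻ x, ∫⁻ y, ∫⁻ θ in Ioc (0 : ℝ) 1, Φ (x, y, θ) ∂volume ∂gam d ≤ A + cL d * C := by
  have h1 : Measurable fun z : Tor d × (Fin d → ℝ) => ∫⁻ θ in Ioc (0 : ℝ) 1, Φ (z.1, z.2, θ) :=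
    Measurable.lintegral_prod_right'
      (f := fun w : (Tor d × (Fin d → ℝ)) × ℝ => Φ (w.1.1, w.1.2, w.2)) (by fun_prop)
  rw [lintegral_lintegral_swap (f := fun x y => ∫⁻ θ in Ioc (0 : ℝ) 1, Φ (x, y, θ))
    h1.aemeasurable]
  calc _ ≤ ∫⁻ y, (A + ENNReal.ofReal (1 + (∑ j, |y j|) ^ 2) * C) ∂gam d := by
        refine lintegral_mono fun y => ?_
        rw [lintegral_lintegral_swap (f := fun x θ => Φ (x, y, θ))
          (Measurable.aemeasurable (by fun_prop))]
        refine (lintegral_mono fun θ => h y θ).trans (le_of_eq ?_)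
        simp
    _ = _ := by
        rw [lintegral_add_left measurable_const, lintegral_mul_const _ (by fun_prop), cL]
        simp

theorem enn_amgm (a b : ℝ≥0∞) : a * b ≤ a ^ 2 + b ^ 2 := by
  rcases le_total a b with h | h
  · exact le_add_left (by rw [sq]; gcongr)
  · exact le_add_right (by rw [sq]; gcongr)

/-- Chain rule for a primitive of an integrable function. -/
theorem chain_primitive {M : ℝ} {β G G' : ℝ → ℝ} (hG : Trunc M β G G') {T c : ℝ} (hT : 0 ≤ T)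
    {h : ℝ → ℝ} (hh : IntegrableOn h (Ioo 0 T)) :
    -β c ≤ ∫ t in Ioo 0 T, G (c + ∫ τ in Ioo 0 t, h τ) * h t := by
  have hi : IntervalIntegrable h volume 0 T :=
    (intervalIntegrable_iff_integrableOn_Ioo_of_le hT).mpr hh
  have M0 : 0 ≤ M := (abs_nonneg _).trans (hG.bG 0)
  have ac := hi.absolutelyContinuousOnInterval_intervalIntegral (c := 0) (by simp)
  have ac2 : AbsolutelyContinuousOnInterval (fun t => β (c + ∫ τ in (0 : ℝ)..t, h τ)) 0 T := by
    unfold AbsolutelyContinuousOnInterval at ac ⊢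
    refine squeeze_zero (fun _ => Finset.sum_nonneg fun _ _ => dist_nonneg) (fun E => ?_)
      (by simpa using ac.const_mul M)
    rw [Finset.mul_sum]
    refine Finset.sum_le_sum fun i _ => ?_
    rw [Real.dist_eq, Real.dist_eq]
    refine (hG.lipβ _ _).trans (le_of_eq ?_)
    rw [add_sub_add_left_eq_sub]
  have h1 := ac2.integral_deriv_eq_sub
  have h2 : ∫ t in (0 : ℝ)..T, deriv (fun t => β (c + ∫ τ in (0 : ℝ)..t, h τ)) t
      = ∫ t in Ioo 0 T, G (c + ∫ τ in Ioo 0 t, h τ) * h t := by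
    rw [intervalIntegral.integral_of_le hT, integral_Ioc_eq_integral_Ioo]
    refine setIntegral_congr_ae measurableSet_Ioo ?_
    filter_upwards [hi.ae_hasDerivAt_integral] with t ht htT
    have h3 := ht (by rw [uIcc_of_le hT]; exact Ioo_subset_Icc_self htT) 0 (by simp)
    have h4 := (hG.dβ (c + ∫ τ in (0 : ℝ)..t, h τ)).comp t (h3.const_add c)
    rw [← integral_Ioc_eq_integral_Ioo, ← intervalIntegral.integral_of_le htT.1.le]
    exact h4.deriv
  rw [← h2, h1]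
  have := hG.β0 (c + ∫ τ in (0 : ℝ)..T, h τ)
  simp only [intervalIntegral.integral_same, add_zero]
  linarith

end AdvDiff.Neg
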