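import Mathlib
import Pool.Agent.Lib.MP_0c2f33_an.NegLine

/-!
The energy inequality on one time slice.
-/

open MeasureTheory Set UnitAddTorus Filter Topology
open scoped ENNReal

namespace AdvDiff.Neg

variable {d : ℕ}

/-- Real part of a Fourier multiplier applied to a real function. -/
noncomputable def Sr (m : (Fin d → ℤ) → ℂ) (f : Tor d → ℝ) (x : Tor d) : ℝ :=
  (S m (fun y => (f y : ℂ)) x).re

/-- The smoothed function. -/
noncomputable def W0 (s : ℝ) (f : Tor d → ℝ) : Tor d → ℝ := Sr (hm s) f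

/-- First derivatives of the smoothed function. -/
noncomputable def W1 (s : ℝ) (i : Fin d) (f : Tor d → ℝ) : Tor d → ℝ :=
  Sr (fun k => dm i k * hm s k) f

/-- Second derivatives of the smoothed function. -/
noncomputable def W2 (s : ℝ) (i j : Fin d) (f : Tor d → ℝ) : Tor d → ℝ :=
  Sr (fun k => dm j k * (dm i k * hm s k)) f

/-- Fourier coefficients of the right-hand side of the equation. -/
noncomputable def zeta (f : Tor d → ℝ) (B : Fin d → Tor d → ℝ) (k : Fin d → ℤ) : ℂ :=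
  -(lam k : ℂ) * co (fun x => (f x : ℂ)) k - ∑ l, dm l k * co (fun x => ((B l x * f x : ℝ) : ℂ)) k

/-- The smoothed right-hand side of the equation. -/
noncomputable def hh (s : ℝ) (f : Tor d → ℝ) (B : Fin d → Tor d → ℝ) (x : Tor d) : ℝ :=
  (Ker (fun k => hm s k * zeta f B k) x).re

/-- The dissipation density. -/
noncomputable def Dd (G' : ℝ → ℝ) (s : ℝ) (f : Tor d → ℝ) (x : Tor d) : ℝ :=
  G' (W0 s f x) * ∑ j, W1 s j f x ^ 2

@[fun_prop]
theorem continuous_Sr (m : (Fin d → ℤ) → ℂ) (f : Tor d → ℝ) : Continuous (Sr m f) := by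
  unfold Sr
  fun_prop

@[fun_prop]
theorem continuous_W0 (s : ℝ) (f : Tor d → ℝ) : Continuous (W0 s f) := continuous_Sr _ _

@[fun_prop]
theorem continuous_W1 (s : ℝ) (i : Fin d) (f : Tor d → ℝ) : Continuous (W1 s i f) :=
  continuous_Sr _ _

@[fun_prop]
theorem continuous_W2 (s : ℝ) (i j : Fin d) (f : Tor d → ℝ) : Continuous (W2 s i j f) :=
  continuous_Sr _ _

theorem continuous_Dd {G' : ℝ → ℝ} (h : Continuous G') (s : ℝ) (f : Tor d → ℝ) :
    Continuous (Dd G' s f) := by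
  unfold Dd
  fun_prop

theorem hasLD_Sr {m : (Fin d → ℤ) → ℂ} (h : RD m) (f : Tor d → ℝ) (i : Fin d) :
    HasLD i (Sr m f) (Sr (fun k => dm i k * m k) f) := (hasLD_S h _ i).re

theorem hasLD_W0 {s : ℝ} (hs : 0 < s) (f : Tor d → ℝ) (i : Fin d) :
    HasLD i (W0 s f) (W1 s i f) := hasLD_Sr (RD_hm hs) f i

theorem hasLD_W1 {s : ℝ} (hs : 0 < s) (f : Tor d → ℝ) (i j : Fin d) :
    HasLD j (W1 s i f) (W2 s i j f) := hasLD_Sr ((RD_hm hs).dm_mul i) f j

theorem hasDerivAt_Sr {m : (Fin d → ℤ) → ℂ} (h : RD m) (f : Tor d → ℝ) (x : Tor d)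
    (v : Fin d → ℝ) (θ : ℝ) :
    HasDerivAt (fun θ : ℝ => Sr m f (x + pr (θ • v)))
      (∑ i, v i * Sr (fun k => dm i k * m k) f (x + pr (θ • v))) θ := by
  have h1 := Complex.reCLM.hasFDerivAt.comp_hasDerivAt θ
    (hasDerivAt_S h (fun y => (f y : ℂ)) x v θ)
  convert! h1 using 1
  simp [Sr]

theorem intC {α : Type} [MeasurableSpace α] {μ : Measure α} {f : α → ℝ} (hf : Integrable f μ) :
    Integrable (fun x => (f x : ℂ)) μ := hf.ofReal

theorem enorm_re_le (z : ℂ) : ‖z.re‖ₑ ≤ ‖z‖ₑ := by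
  rw [← ofReal_norm, ← ofReal_norm]
  exact ENNReal.ofReal_le_ofReal (Complex.abs_re_le_norm z)

theorem eLpNorm_ofReal_c {α : Type} [MeasurableSpace α] (μ : Measure α) (f : α → ℝ) (r : ℝ≥0∞) :
    eLpNorm (fun y => (f y : ℂ)) r μ = eLpNorm f r μ :=
  eLpNorm_congr_norm_ae (Eventually.of_forall fun _ => Complex.norm_real _)

theorem eLpNorm_Sr_le_S (m : (Fin d → ℤ) → ℂ) (f : Tor d → ℝ) (r : ℝ≥0∞) :
    eLpNorm (Sr m f) r volume ≤ eLpNorm (S m fun y => (f y : ℂ)) r volume :=
  eLpNorm_mono_enorm fun _ => enorm_re_le _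

theorem young_Sr {m : (Fin d → ℤ) → ℂ} (h : Summable fun k => ‖m k‖) {f : Tor d → ℝ}
    (hf : Integrable f) {r : ℝ≥0∞} (hr : 1 ≤ r) (hr' : r ≠ ⊤) :
    eLpNorm (Sr m f) r volume ≤ N1 m * eLpNorm f r volume := by
  refine (eLpNorm_Sr_le_S m f r).trans ((young_S h (intC hf) hr hr').trans (le_of_eq ?_))
  rw [eLpNorm_ofReal_c]

theorem enorm_sq (x : ℝ) : ‖x‖ₑ ^ 2 = ENNReal.ofReal (x ^ 2) := by
  rw [Real.enorm_eq_ofReal_abs, ← ENNReal.ofReal_pow (abs_nonneg _), sq_abs]

theorem sq_eLp {α E : Type} [MeasurableSpace α] [NormedAddCommGroup E] (μ : Measure α)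
    (f : α → E) : eLpNorm f 2 μ ^ 2 = ∫⁻ x, ‖f x‖ₑ ^ 2 ∂μ := by
  have := eLpNorm_nnreal_pow_eq_lintegral (μ := μ) (f := f) (p := 2) two_ne_zero
  simpa using this

theorem hold {α : Type} [MeasurableSpace α] {μ : Measure α} {p q r : ℝ≥0∞}
    [ENNReal.HolderTriple p q r] {f g : α → ℝ} (hf : AEStronglyMeasurable f μ)
    (hg : AEStronglyMeasurable g μ) :
    eLpNorm (fun x => f x * g x) r μ ≤ eLpNorm f p μ * eLpNorm g q μ := by
  have := eLpNorm_le_eLpNorm_mul_eLpNorm_of_nnnorm (p := p) (q := q) (r := r) hf hg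
    (fun a b => a * b) 1 (Eventually.of_forall fun x => by simp)
  simpa using this

theorem hold1 {α : Type} [MeasurableSpace α] {μ : Measure α} {p q : ℝ≥0∞}
    [ENNReal.HolderTriple p q 1] {f g : α → ℝ} (hf : AEStronglyMeasurable f μ)
    (hg : AEStronglyMeasurable g μ) :
    ∫⁻ x, ‖f x‖ₑ * ‖g x‖ₑ ∂μ ≤ eLpNorm f p μ * eLpNorm g q μ := by
  have := hold (p := p) (q := q) (r := 1) hf hg
  simpa only [eLpNorm_one_eq_lintegral_enorm, enorm_mul] using this

theorem integrable_rmul {f g : Tor d → ℝ} (hf : Integrable f) (hg : Continuous g) :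
    Integrable fun x => g x * f x := by
  obtain ⟨C, hC⟩ := (isCompact_univ.image hg.norm).bddAbove
  exact hf.bdd_mul (c := C) hg.aestronglyMeasurable
    (Eventually.of_forall fun x => hC ⟨x, mem_univ _, rfl⟩)

theorem hh_eq {s : ℝ} (hs : 0 < s) (f : Tor d → ℝ) (B : Fin d → Tor d → ℝ) (x : Tor d) :
    hh s f B x = ∑ i, W2 s i i f x - ∑ l, W1 s l (fun x => B l x * f x) x := by
  have e : (fun k => hm s k * zeta f B k) = fun k =>
      (∑ i, dm i k * (dm i k * hm s k) * co (fun x => (f x : ℂ)) k)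
        - ∑ l, dm l k * hm s k * co (fun x => ((B l x * f x : ℝ) : ℂ)) k := by
    funext k
    rw [zeta, ← sum_dm_sq, mul_sub, Finset.sum_mul, Finset.mul_sum, Finset.mul_sum]
    congr 1 <;> exact Finset.sum_congr rfl fun i _ => by ring
  have s1 : ∀ i, Summable fun k => ‖dm i k * (dm i k * hm s k) * co (fun x => (f x : ℂ)) k‖ :=
    fun i => summable_mul_co (((RD_hm hs).dm_mul i).dm_mul i).summable _
  have s2 : ∀ l, Summable fun k =>
      ‖dm l k * hm s k * co (fun x => ((B l x * f x : ℝ) : ℂ)) k‖ :=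
    fun l => summable_mul_co ((RD_hm hs).dm_mul l).summable _
  rw [hh, e, Ker_sub, Ker_sum _ s1, Ker_sum _ s2]
  · simp [W1, W2, Sr, S]
  · exact Summable.of_nonneg_of_le (fun _ => norm_nonneg _) (fun k => norm_sum_le _ _)
      (summable_sum fun i _ => s1 i)
  · exact Summable.of_nonneg_of_le (fun _ => norm_nonneg _) (fun k => norm_sum_le _ _)
      (summable_sum fun i _ => s2 i)

theorem integral_W1_symm {s : ℝ} (hs : 0 < s) (l : Fin d) {F g : Tor d → ℝ} (hF : Integrable F)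
    (hg : Integrable g) : ∫ x, W1 s l F x * g x = -∫ x, W1 s l g x * F x := by
  have h := integral_Ker_symm ((RD_hm hs).dm_mul l).summable (intC hF) (intC hg)
  simp only [dm_neg, hm_neg, neg_mul, Ker_neg, ContinuousMap.neg_apply, integral_neg] at h
  have e : ∀ {F g : Tor d → ℝ}, Integrable g → ∫ x, W1 s l F x * g x
      = (∫ x, Ker (fun k => dm l k * hm s k * co (fun y => (F y : ℂ)) k) x * (g x : ℂ)).re := by
    intro F g hg
    have := integral_re (integrable_cmul (intC hg)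
      (Ker (fun k => dm l k * hm s k * co (fun y => (F y : ℂ)) k)).continuous)
    simp only [RCLike.re_to_complex, Complex.mul_re, Complex.ofReal_re, Complex.ofReal_im,
      mul_zero, sub_zero] at this
    exact this
  rw [e hg, e hF, ← Complex.neg_re]
  exact congrArg Complex.re h

theorem slice_identity {M : ℝ} {β G G' : ℝ → ℝ} (hG : Trunc M β G G') {s : ℝ} (hs : 0 < s)
    {f : Tor d → ℝ} {B : Fin d → Tor d → ℝ} (hB : ∀ i, MemLp (B i) 2 volume)
    (hBf : ∀ i, Integrable fun x => B i x * f x)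
    (hdiv : ∀ k, ∑ i, dm i k * co (fun x => (B i x : ℂ)) k = 0) :
    (∫ x, G (W0 s f x) * hh s f B x) + ∫ x, Dd G' s f x
      = ∑ i, ((∫ x, (f x - W0 s f x) * B i x * W1 s i (fun y => G (W0 s f y)) x)
        + ∫ x, (G (W0 s f x) - W0 s (fun y => G (W0 s f y)) x) * W1 s i f x * B i x) := by
  have cG := hG.cG
  have cG' := hG.cG'
  have cβ := hG.cβ
  set g : Tor d → ℝ := fun y => G (W0 s f y) with hg
  have cg : Continuous g := by fun_prop
  have iB : ∀ i, Integrable (B i) := fun i => (hB i).integrable one_le_two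
  have h1 : ∀ i, ∫ x, g x * W2 s i i f x = -∫ x, G' (W0 s f x) * W1 s i f x ^ 2 := by
    intro i
    have := (((hasLD_W0 hs f i).comp hG.dG).mul (hasLD_W1 hs f i i)).integral_eq_zero
      (by fun_prop) (by fun_prop)
    rw [integral_add (integrable_cont (by fun_prop)) (integrable_cont (by fun_prop))] at this
    simp only [sq, ← mul_assoc]
    linarith
  have h2 : ∀ l, ∫ x, g x * W1 s l (fun x => B l x * f x) x
      = -∫ x, W1 s l g x * (B l x * f x) := by
    intro l
    rw [← integral_W1_symm hs l (hBf l) (integrable_cont cg)]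
    simp only [mul_comm]
  have h3 : (∫ x, g x * hh s f B x) + ∫ x, Dd G' s f x
      = ∑ l, ∫ x, W1 s l g x * (B l x * f x) := by
    simp only [hh_eq hs, mul_sub, Finset.mul_sum, Dd]
    rw [integral_sub (integrable_cont (by fun_prop)) (integrable_cont (by fun_prop)),
      integral_finsetSum _ fun i _ => integrable_cont (by fun_prop),
      integral_finsetSum _ fun i _ => integrable_cont (by fun_prop),
      integral_finsetSum _ fun i _ => integrable_cont (by fun_prop)]
    simp only [h1, h2, Finset.sum_neg_distrib]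
    ring
  have d1 := integral_div_free hB hdiv
    (fun i => (hasLD_W0 hs f i).mul (hasLD_W0 hs g i)) (by fun_prop) (fun i => by fun_prop)
  have d2 := integral_div_free hB hdiv
    (fun i => (hasLD_W0 hs f i).comp hG.dβ) (by fun_prop) (fun i => by fun_prop)
  rw [h3, ← sub_zero (∑ l, _), ← d1, ← add_zero (_ - _), ← d2, ← Finset.sum_sub_distrib,
    ← Finset.sum_add_distrib]
  refine Finset.sum_congr rfl fun i _ => ?_
  have i1 : Integrable fun x => W1 s i g x * (B i x * f x) :=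
    integrable_rmul (hBf i) (by fun_prop)
  have i2 : Integrable fun x => (W1 s i f x * W0 s g x + W0 s f x * W1 s i g x) * B i x :=
    integrable_rmul (iB i) (by fun_prop)
  have i3 : Integrable fun x => G (W0 s f x) * W1 s i f x * B i x :=
    integrable_rmul (iB i) (by fun_prop)
  have i4 : Integrable fun x => (f x - W0 s f x) * B i x * W1 s i g x := by
    refine (i1.sub (integrable_rmul (iB i) (g := fun x => W0 s f x * W1 s i g x)
      (by fun_prop))).congr (Eventually.of_forall fun x => ?_)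
    simp only [Pi.sub_apply]
    ring
  have i5 : Integrable fun x => (G (W0 s f x) - W0 s g x) * W1 s i f x * B i x :=
    integrable_rmul (iB i) (by fun_prop)
  have i6 : Integrable fun x => W1 s i g x * (B i x * f x)
      - (W1 s i f x * W0 s g x + W0 s f x * W1 s i g x) * B i x := i1.sub i2
  rw [← integral_sub i1 i2, ← integral_add i6 i3, ← integral_add i4 i5]
  refine integral_congr_ae (Eventually.of_forall fun x => ?_)
  simp only
  ring

theorem T1_abs {p r : ℝ≥0∞} [ENNReal.HolderTriple r p 1] {v B₁ B₂ Q : Tor d → ℝ}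
    (hv : Measurable v) (hB₂ : Measurable B₂) (hQ : Measurable Q) {R κ c : ℝ} (hκ : 0 < κ)
    (hc : 0 ≤ c) (hR : ∀ x, |B₁ x| ≤ R) (hQc : ∀ x, |Q x| ≤ c) :
    ∫⁻ x, ‖v x * (B₁ x + B₂ x) * Q x‖ₑ
      ≤ ENNReal.ofReal κ * eLpNorm Q 2 volume ^ 2
        + ENNReal.ofReal (R ^ 2 / (4 * κ)) * eLpNorm v 2 volume ^ 2
        + ENNReal.ofReal c * (eLpNorm v r volume * eLpNorm B₂ p volume) := by
  have h1 : ∀ x, ‖v x * (B₁ x + B₂ x) * Q x‖ₑ ≤ ENNReal.ofReal κ * ‖Q x‖ₑ ^ 2
      + ENNReal.ofReal (R ^ 2 / (4 * κ)) * ‖v x‖ₑ ^ 2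
      + ENNReal.ofReal c * (‖v x‖ₑ * ‖B₂ x‖ₑ) := by
    intro x
    rw [enorm_sq, enorm_sq, ← enorm_mul, Real.enorm_eq_ofReal_abs, Real.enorm_eq_ofReal_abs,
      ← ENNReal.ofReal_mul hκ.le, ← ENNReal.ofReal_mul (by positivity), ← ENNReal.ofReal_mul hc,
      ← ENNReal.ofReal_add (by positivity) (by positivity),
      ← ENNReal.ofReal_add (by positivity) (by positivity)]
    refine ENNReal.ofReal_le_ofReal ?_
    have a1 := amgm hκ |Q x| (R * |v x|)
    rw [mul_pow, sq_abs, sq_abs] at a1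
    have R0 : 0 ≤ R := (abs_nonneg _).trans (hR x)
    have a2 : |v x * (B₁ x + B₂ x) * Q x| ≤ |v x| * (R + |B₂ x|) * |Q x| := by
      rw [abs_mul, abs_mul]
      gcongr
      linarith [abs_add_le (B₁ x) (B₂ x), hR x]
    have a3 : |v x| * |B₂ x| * |Q x| ≤ |v x| * |B₂ x| * c := by
      gcongr
      exact hQc x
    rw [abs_mul (v x) (B₂ x)]
    have e : R ^ 2 / (4 * κ) * v x ^ 2 = R ^ 2 * v x ^ 2 / (4 * κ) := by ring
    nlinarith
  refine (lintegral_mono h1).trans ?_
  rw [lintegral_add_left (by fun_prop), lintegral_add_left (by fun_prop),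
    lintegral_const_mul _ (by fun_prop), lintegral_const_mul _ (by fun_prop),
    lintegral_const_mul _ (by fun_prop), sq_eLp, sq_eLp]
  gcongr
  exact hold1 hv.aestronglyMeasurable hB₂.aestronglyMeasurable

theorem W1_G_sup {M : ℝ} {β G G' : ℝ → ℝ} (hG : Trunc M β G G') {s : ℝ} (hs : 0 < s)
    (f : Tor d → ℝ) (i : Fin d) (x : Tor d) :
    |W1 s i (fun y => G (W0 s f y)) x| ≤ (Real.sqrt s)⁻¹ * M := by
  have M0 : 0 ≤ M := (abs_nonneg _).trans (hG.bG 0)
  have cG := hG.cG
  have h := sup_S ((RD_hm hs).dm_mul i).summable (f := fun y => ((G (W0 s f y) : ℝ) : ℂ))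
    (integrable_cont (by fun_prop)) (C := ENNReal.ofReal M) (fun y => by
      rw [← ofReal_norm, Complex.norm_real]
      exact ENNReal.ofReal_le_ofReal (hG.bG _)) x
  have h2 := ((enorm_re_le _).trans h).trans (mul_le_mul_left (N1_d1 hs i) _)
  rw [← ENNReal.ofReal_mul (by positivity), Real.enorm_eq_ofReal_abs] at h2
  exact (ENNReal.ofReal_le_ofReal_iff (by positivity)).mp h2

theorem W1_G_two {M : ℝ} {β G G' : ℝ → ℝ} (hG : Trunc M β G G') {s : ℝ} (hs : 0 < s)
    (f : Tor d → ℝ) (i : Fin d) :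
    eLpNorm (W1 s i fun y => G (W0 s f y)) 2 volume
      ≤ eLpNorm (fun x => G' (W0 s f x) * W1 s i f x) 2 volume := by
  have cG := hG.cG
  have cG' := hG.cG'
  have e : W1 s i (fun y => G (W0 s f y)) = Sr (hm s) fun x => G' (W0 s f x) * W1 s i f x := by
    funext x
    simp only [W1, Sr, S]
    congr 3
    funext k
    have := (((hasLD_W0 hs f i).comp hG.dG).ofReal).co_eq (by fun_prop) (by fun_prop) k
    simp only [W1, Sr, S] at this
    rw [this]
    ring
  rw [e]
  refine (young_Sr (RD_hm hs).summable (integrable_cont (by fun_prop)) one_le_two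
    (by simp)).trans ?_
  exact mul_le_of_le_one_left' (N1_hm hs)

theorem sum_grad_le {M : ℝ} {β G G' : ℝ → ℝ} (hG : Trunc M β G G') (s : ℝ) (f : Tor d → ℝ) :
    ∑ i, eLpNorm (fun x => G' (W0 s f x) * W1 s i f x) 2 volume ^ 2
      ≤ ENNReal.ofReal (∫ x, Dd G' s f x) := by
  have cG' := hG.cG'
  have D0 : ∀ x, 0 ≤ Dd G' s f x := fun x =>
    mul_nonneg (hG.G'0 _) (Finset.sum_nonneg fun _ _ => sq_nonneg _)
  rw [ofReal_integral_eq_lintegral_ofReal (integrable_cont (continuous_Dd cG' s f))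
    (Eventually.of_forall D0)]
  simp only [sq_eLp, enorm_sq]
  rw [← lintegral_finsetSum _ fun i _ => by fun_prop]
  refine lintegral_mono fun x => ?_
  rw [← ENNReal.ofReal_sum_of_nonneg fun i _ => sq_nonneg _]
  refine ENNReal.ofReal_le_ofReal ?_
  rw [Dd, Finset.mul_sum]
  refine Finset.sum_le_sum fun i _ => ?_
  have := hG.G'0 (W0 s f x)
  have := hG.G'1 (W0 s f x)
  rw [mul_pow]
  gcongr
  nlinarith

end AdvDiff.Neg
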