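import Mathlib
import Pool.Agent.Lib.MP_0c2f33_an.NegSlice

/-!
The commutator estimate on one time slice.
-/

open MeasureTheory Set UnitAddTorus Filter Topology
open scoped ENNReal

namespace AdvDiff.Neg

variable {d : ℕ}

theorem W0_rep {s ε : ℝ} (hs : 0 < s) (h : ε ^ 2 = 2 * s) {g : Tor d → ℝ} (hg : Continuous g)
    (x : Tor d) : W0 s g x = ∫ y, g (x + pr (ε • y)) ∂gam d := by
  rw [W0, Sr, S_hm_rep hs h (by fun_prop), integral_complex_ofReal, Complex.ofReal_re]

theorem T2_point {M : ℝ} {β G G' : ℝ → ℝ} (hG : Trunc M β G G') {s ε : ℝ} (hs : 0 < s)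
    (hε : 0 ≤ ε) (f : Tor d → ℝ) (i : Fin d) {b₁ b₂ R κ : ℝ} (hκ : 0 < κ) (hb : |b₁| ≤ R)
    (x : Tor d) (y : Fin d → ℝ) :
    ‖(G (W0 s f (x + pr (ε • y))) - G (W0 s f x)) * W1 s i f x * (b₁ + b₂)‖ₑ
      ≤ ∫⁻ θ in Ioc (0 : ℝ) 1,
        (ENNReal.ofReal (2 * κ) * ENNReal.ofReal (Dd G' s f (x + pr (θ • ε • y)))
        + ENNReal.ofReal (1 + (∑ j, |y j|) ^ 2) *
          (∑ j, ENNReal.ofReal (2 * M * ε) * (‖W2 s i j f (x + pr (θ • ε • y))‖ₑ * ‖b₂‖ₑ)
            + ENNReal.ofReal (ε ^ 2 * R ^ 2 / (4 * κ)) * ‖W1 s i f x‖ₑ ^ 2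
            + ENNReal.ofReal (M * ε / (2 * κ)) * (‖b₂ * W1 s i f x‖ₑ * ‖b₂‖ₑ))) := by
  have M0 : 0 ≤ M := (abs_nonneg _).trans (hG.bG 0)
  have cG' := hG.cG'
  have cp := continuous_pr (d := d)
  have h1 := line_bound hG (ω := fun θ => W0 s f (x + pr (θ • ε • y)))
    (H := fun θ => ∑ j, (ε • y) j * W2 s i j f (x + pr (θ • ε • y)))
    (V := fun j θ => W1 s j f (x + pr (θ • ε • y))) (Y := ε • y) (i := i)
    (fun θ => hasDerivAt_Sr (RD_hm hs) f x (ε • y) θ)
    (fun θ => hasDerivAt_Sr ((RD_hm hs).dm_mul i) f x (ε • y) θ)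
    (fun j => by fun_prop) (by fun_prop) (b₂ := b₂) hκ hb
  simp only [one_smul, zero_smul, pr_zero, add_zero] at h1
  set L := ∑ j, |y j| with hL
  have L0 : 0 ≤ L := Finset.sum_nonneg fun _ _ => abs_nonneg _
  have hY : ∑ j, |(ε • y) j| = ε * L := by
    rw [hL, Finset.mul_sum]
    exact Finset.sum_congr rfl fun j _ => by
      rw [Pi.smul_apply, smul_eq_mul, abs_mul, abs_of_nonneg hε]
  rw [hY] at h1
  set c := (ε * L) ^ 2 * R ^ 2 * W1 s i f x ^ 2 / (4 * κ)
    + M * (ε * L) * |W1 s i f x| * b₂ ^ 2 / (2 * κ) with hc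
  set ψ : ℝ → ℝ := fun θ => 2 * κ * Dd G' s f (x + pr (θ • ε • y))
    + 2 * M * |b₂| * |∑ j, (ε • y) j * W2 s i j f (x + pr (θ • ε • y))| with hψ
  have cD := continuous_Dd cG' s f
  have cψ : Continuous ψ := by
    simp only [hψ]
    fun_prop
  have D0 : ∀ x, 0 ≤ Dd G' s f x := fun x =>
    mul_nonneg (hG.G'0 _) (Finset.sum_nonneg fun _ _ => sq_nonneg _)
  have h2 : |(G (W0 s f (x + pr (ε • y))) - G (W0 s f x)) * W1 s i f x * (b₁ + b₂)|
      ≤ ∫ θ in Ioc (0 : ℝ) 1, (ψ θ + c) := by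
    rw [← intervalIntegral.integral_of_le zero_le_one,
      intervalIntegral.integral_add (cψ.intervalIntegrable _ _) intervalIntegrable_const,
      abs_mul, abs_mul]
    simpa only [intervalIntegral.integral_const, sub_zero, one_smul] using! h1
  rw [Real.enorm_eq_ofReal_abs]
  refine (ENNReal.ofReal_le_ofReal h2).trans ?_
  rw [ofReal_integral_eq_lintegral_ofReal (f := fun θ => ψ θ + c)
    ((cψ.add continuous_const).integrableOn_Icc.mono_set Ioc_subset_Icc_self)
    (Eventually.of_forall fun θ => by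
      have := D0 (x + pr (θ • ε • y))
      simp only [hψ, hc, Pi.zero_apply]
      positivity)]
  refine lintegral_mono fun θ => ?_
  have l1 : L ≤ 1 + L ^ 2 := by nlinarith
  have h3 : ψ θ + c ≤ 2 * κ * Dd G' s f (x + pr (θ • ε • y)) + (1 + L ^ 2) *
      (∑ j, 2 * M * ε * (|W2 s i j f (x + pr (θ • ε • y))| * |b₂|)
        + ε ^ 2 * R ^ 2 / (4 * κ) * W1 s i f x ^ 2
        + M * ε / (2 * κ) * (|b₂ * W1 s i f x| * |b₂|)) := by
    have a1 : 2 * M * |b₂| * |∑ j, (ε • y) j * W2 s i j f (x + pr (θ • ε • y))|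
        ≤ (1 + L ^ 2) * ∑ j, 2 * M * ε * (|W2 s i j f (x + pr (θ • ε • y))| * |b₂|) := by
      refine (mul_le_mul_of_nonneg_left (Finset.abs_sum_le_sum_abs _ _) (by positivity)).trans ?_
      rw [Finset.mul_sum, Finset.mul_sum]
      refine Finset.sum_le_sum fun j _ => ?_
      have : |y j| ≤ 1 + L ^ 2 := (Finset.single_le_sum (f := fun j => |y j|)
        (fun _ _ => abs_nonneg _) (Finset.mem_univ j)).trans l1
      rw [Pi.smul_apply, smul_eq_mul, abs_mul, abs_mul, abs_of_nonneg hε]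
      calc _ = |y j| * (2 * M * ε * (|W2 s i j f (x + pr (θ • ε • y))| * |b₂|)) := by ring
        _ ≤ _ := by gcongr
    have a2 : (ε * L) ^ 2 * R ^ 2 * W1 s i f x ^ 2 / (4 * κ)
        ≤ (1 + L ^ 2) * (ε ^ 2 * R ^ 2 / (4 * κ) * W1 s i f x ^ 2) := by
      calc _ = L ^ 2 * (ε ^ 2 * R ^ 2 / (4 * κ) * W1 s i f x ^ 2) := by ring
        _ ≤ _ := by gcongr; linarith
    have a3 : M * (ε * L) * |W1 s i f x| * b₂ ^ 2 / (2 * κ)
        ≤ (1 + L ^ 2) * (M * ε / (2 * κ) * (|b₂ * W1 s i f x| * |b₂|)) := by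
      calc _ = L * (M * ε / (2 * κ) * (|b₂ * W1 s i f x| * |b₂|)) := by
            rw [abs_mul, ← sq_abs b₂]
            ring
        _ ≤ _ := by gcongr
    simp only [hψ, hc]
    linarith
  refine (ENNReal.ofReal_le_ofReal h3).trans (ENNReal.ofReal_add_le.trans ?_)
  rw [ENNReal.ofReal_mul (by positivity), ENNReal.ofReal_mul (p := 1 + L ^ 2) (by positivity)]
  gcongr
  refine ENNReal.ofReal_add_le.trans (add_le_add (ENNReal.ofReal_add_le.trans
    (add_le_add ?_ ?_)) ?_)
  · rw [ENNReal.ofReal_sum_of_nonneg fun j _ => by positivity]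
    refine Finset.sum_le_sum fun j _ => le_of_eq ?_
    rw [ENNReal.ofReal_mul (by positivity), ENNReal.ofReal_mul (abs_nonneg _),
      Real.enorm_eq_ofReal_abs, Real.enorm_eq_ofReal_abs]
  · rw [ENNReal.ofReal_mul (by positivity), enorm_sq]
  · rw [ENNReal.ofReal_mul (by positivity), ENNReal.ofReal_mul (abs_nonneg _),
      Real.enorm_eq_ofReal_abs, Real.enorm_eq_ofReal_abs]

theorem T2_bound {p q r : ℝ≥0∞} [ENNReal.HolderTriple r p 1] [ENNReal.HolderTriple p q r]
    {M : ℝ} {β G G' : ℝ → ℝ} (hG : Trunc M β G G') {s ε : ℝ} (hs : 0 < s)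
    (hε : 0 ≤ ε) (hεs : ε ^ 2 = 2 * s) (f : Tor d → ℝ) (i : Fin d) {B₁ B₂ : Tor d → ℝ}
    (hB₂ : Measurable B₂) {R κ : ℝ} (hκ : 0 < κ) (hR : ∀ x, |B₁ x| ≤ R) :
    ∫⁻ x, ‖(G (W0 s f x) - W0 s (fun y => G (W0 s f y)) x) * W1 s i f x * (B₁ x + B₂ x)‖ₑ
      ≤ ENNReal.ofReal (2 * κ) * ENNReal.ofReal (∫ x, Dd G' s f x) + cL d *
        (∑ j, ENNReal.ofReal (2 * M * ε) * (eLpNorm (W2 s i j f) r volume * eLpNorm B₂ p volume)
          + ENNReal.ofReal (ε ^ 2 * R ^ 2 / (4 * κ)) * eLpNorm (W1 s i f) 2 volume ^ 2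
          + ENNReal.ofReal (M * ε / (2 * κ)) *
            (eLpNorm B₂ p volume * eLpNorm (W1 s i f) q volume * eLpNorm B₂ p volume)) := by
  have cG := hG.cG
  have cG' := hG.cG'
  have cp := continuous_pr (d := d)
  have cD := continuous_Dd cG' s f
  have D0 : ∀ x, 0 ≤ Dd G' s f x := fun x =>
    mul_nonneg (hG.G'0 _) (Finset.sum_nonneg fun _ _ => sq_nonneg _)
  let Φ : Tor d × (Fin d → ℝ) × ℝ → ℝ≥0∞ := fun w =>
    ENNReal.ofReal (2 * κ) * ENNReal.ofReal (Dd G' s f (w.1 + pr (w.2.2 • ε • w.2.1)))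
      + ENNReal.ofReal (1 + (∑ j, |w.2.1 j|) ^ 2) *
        (∑ j, ENNReal.ofReal (2 * M * ε) *
            (‖W2 s i j f (w.1 + pr (w.2.2 • ε • w.2.1))‖ₑ * ‖B₂ w.1‖ₑ)
          + ENNReal.ofReal (ε ^ 2 * R ^ 2 / (4 * κ)) * ‖W1 s i f w.1‖ₑ ^ 2
          + ENNReal.ofReal (M * ε / (2 * κ)) * (‖B₂ w.1 * W1 s i f w.1‖ₑ * ‖B₂ w.1‖ₑ))
  have mz : Measurable fun w : Tor d × (Fin d → ℝ) × ℝ => w.1 + pr (w.2.2 • ε • w.2.1) :=
    Continuous.measurable (by fun_prop)
  have mD := cD.measurable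
  have m1 := (continuous_W1 s i f).measurable
  have m2 := fun j => (continuous_W2 s i j f).measurable
  have mΦ : Measurable Φ := by
    refine ((mD.comp mz).ennreal_ofReal.const_mul _).add (Measurable.mul (by fun_prop)
      (((Finset.measurable_sum _ fun j _ => ?_).add (by fun_prop)).add (by fun_prop)))
    exact (((m2 j).comp mz).enorm.mul (hB₂.comp measurable_fst).enorm).const_mul _
  refine le_trans (lintegral_mono fun x => ?_) (shift_bound mΦ fun y θ => ?_)
  · have e : (G (W0 s f x) - W0 s (fun y => G (W0 s f y)) x) * W1 s i f x * (B₁ x + B₂ x)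
        = -∫ y, (G (W0 s f (x + pr (ε • y))) - G (W0 s f x)) * W1 s i f x * (B₁ x + B₂ x)
          ∂gam d := by
      have i1 : Integrable (fun y => G (W0 s f (x + pr (ε • y)))) (gam d) :=
        (integrable_const M).mono' (Continuous.aestronglyMeasurable (by fun_prop))
          (Eventually.of_forall fun y => hG.bG _)
      rw [integral_mul_const, integral_mul_const, integral_sub i1 (integrable_const _),
        W0_rep hs hεs (by fun_prop : Continuous fun y => G (W0 s f y))]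
      simp only [integral_const, probReal_univ, one_smul]
      ring
    rw [e, enorm_neg]
    exact (enorm_integral_le_lintegral_enorm _).trans (lintegral_mono fun y =>
      T2_point hG hs hε f i hκ (hR x) x y)
  · have mt : Measurable fun x : Tor d => x + pr (θ • ε • y) := by fun_prop
    simp only [Φ]
    rw [lintegral_add_left (by fun_prop), lintegral_const_mul _ (by fun_prop),
      lintegral_add_right_eq_self (fun x => ENNReal.ofReal (Dd G' s f x)),
      ← ofReal_integral_eq_lintegral_ofReal (integrable_cont cD) (Eventually.of_forall D0),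
      lintegral_const_mul' _ _ ENNReal.ofReal_ne_top,
      lintegral_add_right _ (by fun_prop), lintegral_add_right _ (by fun_prop),
      lintegral_const_mul _ (by fun_prop), lintegral_const_mul _ (by fun_prop), sq_eLp,
      lintegral_finsetSum _ fun j _ => by have := m2 j; fun_prop]
    gcongr with j
    · rw [lintegral_const_mul' _ _ ENNReal.ofReal_ne_top]
      gcongr
      refine (hold1 (p := r) (q := p) ((m2 j).comp mt).aestronglyMeasurable
        hB₂.aestronglyMeasurable).trans (le_of_eq ?_)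
      congr 1
      exact eLpNorm_comp_measurePreserving (m2 j).aestronglyMeasurable
        (measurePreserving_add_right volume _)
    · refine (hold1 (p := r) (q := p) (hB₂.mul m1).aestronglyMeasurable
        hB₂.aestronglyMeasurable).trans ?_
      gcongr
      exact hold hB₂.aestronglyMeasurable m1.aestronglyMeasurable

/-- The bounded part of a number. -/
noncomputable def tr1 (R b : ℝ) : ℝ := if |b| ≤ R then b else 0

/-- The large part of a number. -/
noncomputable def tr2 (R b : ℝ) : ℝ := if |b| ≤ R then 0 else b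

theorem tr_add (R b : ℝ) : tr1 R b + tr2 R b = b := by
  unfold tr1 tr2
  split_ifs <;> simp

theorem tr1_le {R : ℝ} (hR : 0 ≤ R) (b : ℝ) : |tr1 R b| ≤ R := by
  unfold tr1
  split_ifs with h
  · exact h
  · simpa using hR

theorem measurable_tr2 (R : ℝ) : Measurable (tr2 R) :=
  Measurable.ite (measurableSet_le measurable_id.abs measurable_const) measurable_const
    measurable_id

/-- The remainder in the energy inequality. -/
noncomputable def Rem (p r U : ℝ≥0∞) (M R s : ℝ) (f : Tor d → ℝ) (B : Fin d → Tor d → ℝ) :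
    ℝ≥0∞ :=
  ENNReal.ofReal (R ^ 2) * eLpNorm (fun x => f x - W0 s f x) 2 volume ^ 2
    + ENNReal.ofReal (R ^ 2) * ∑ i, ENNReal.ofReal s * eLpNorm (W1 s i f) 2 volume ^ 2
    + (ENNReal.ofReal (M ^ 2) + ENNReal.ofReal M * U) *
      ∑ i, eLpNorm (fun x => tr2 R (B i x)) p volume ^ 2
    + ENNReal.ofReal s⁻¹ * eLpNorm (fun x => f x - W0 s f x) r volume ^ 2
    + ∑ i, ∑ j, ENNReal.ofReal s * eLpNorm (W2 s i j f) r volume ^ 2

theorem amgm2 {a b : ℝ} (ha : 0 ≤ a) (hb : 0 ≤ b) (X Y : ℝ≥0∞) :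
    ENNReal.ofReal (a * b) * (X * Y)
      ≤ ENNReal.ofReal (a ^ 2) * X ^ 2 + ENNReal.ofReal (b ^ 2) * Y ^ 2 := by
  have := enn_amgm (ENNReal.ofReal a * X) (ENNReal.ofReal b * Y)
  rw [mul_pow, mul_pow, ← ENNReal.ofReal_pow ha, ← ENNReal.ofReal_pow hb] at this
  refine le_trans (le_of_eq ?_) this
  rw [ENNReal.ofReal_mul ha]
  ring

theorem slice_bound (d : ℕ) : ∃ C : ℝ≥0∞, C ≠ ⊤ ∧ ∀ {p q r U : ℝ≥0∞}
    [ENNReal.HolderTriple r p 1] [ENNReal.HolderTriple p q r], 1 ≤ q → q ≠ ⊤ →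
    ∀ {M : ℝ} {β G G' : ℝ → ℝ}, Trunc M β G G' → ∀ {s R : ℝ}, 0 < s → 0 ≤ R →
    ∀ {f : Tor d → ℝ} {B : Fin d → Tor d → ℝ}, Measurable f → (∀ i, Measurable (B i)) →
    Integrable f → eLpNorm f q volume ≤ U → (∀ i, MemLp (B i) 2 volume) →
    (∀ i, Integrable fun x => B i x * f x) →
    (∀ k, ∑ i, dm i k * co (fun x => (B i x : ℂ)) k = 0) →
    ENNReal.ofReal ((∫ x, G (W0 s f x) * hh s f B x) + ∫ x, Dd G' s f x)
      ≤ ENNReal.ofReal ((∫ x, Dd G' s f x) / 2) + C * Rem p r U M R s f B := by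
  obtain ⟨κ, hκ, hκd⟩ : ∃ κ : ℝ, 0 < κ ∧ κ + d * (2 * κ) = 1 / 2 :=
    ⟨1 / (4 * d + 2), by positivity, by field_simp; ring⟩
  refine ⟨d * (ENNReal.ofReal κ⁻¹ + 2 + cL d * (d * 8 + ENNReal.ofReal κ⁻¹ + ENNReal.ofReal κ⁻¹)),
    ?_, ?_⟩
  · have := cL_ne_top (d := d)
    finiteness
  intro p q r U _ _ hq hq' M β G G' hG s R hs hR f B mf mB hf hU hB hBf hdiv
  have M0 : 0 ≤ M := (abs_nonneg _).trans (hG.bG 0)
  have s0 : 0 < Real.sqrt s := Real.sqrt_pos.mpr hs
  have ss : Real.sqrt s ^ 2 = s := Real.sq_sqrt hs.le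
  set ε := Real.sqrt (2 * s) with hε
  have ε0 : 0 ≤ ε := Real.sqrt_nonneg _
  have εs : ε ^ 2 = 2 * s := Real.sq_sqrt (by positivity)
  have ε2 : ε ≤ 2 * Real.sqrt s := abs_le_of_sq_le_sq' (by rw [εs, mul_pow, ss]; linarith)
    (by positivity) |>.2
  set e := ∫ x, Dd G' s f x with he
  have e0 : 0 ≤ e := integral_nonneg fun x =>
    mul_nonneg (hG.G'0 _) (Finset.sum_nonneg fun _ _ => sq_nonneg _)
  set Rm := Rem p r U M R s f B with hRm
  set φ : Fin d → ℝ≥0∞ := fun i => eLpNorm (fun x => tr2 R (B i x)) p volume with hφ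
  have single : ∀ (g : Fin d → ℝ≥0∞) (i : Fin d), g i ≤ ∑ i, g i := fun g i =>
    Finset.single_le_sum (f := g) (fun _ _ => zero_le) (Finset.mem_univ i)
  have r1 : ENNReal.ofReal (R ^ 2) * eLpNorm (fun x => f x - W0 s f x) 2 volume ^ 2 ≤ Rm :=
    le_add_right (le_add_right (le_add_right (le_add_right le_rfl)))
  have r2 : ∀ i, ENNReal.ofReal (R ^ 2) * (ENNReal.ofReal s * eLpNorm (W1 s i f) 2 volume ^ 2)
      ≤ Rm := fun i =>
    le_add_right (le_add_right (le_add_right (le_add_left (mul_le_mul_right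
      (single (fun i => ENNReal.ofReal s * eLpNorm (W1 s i f) 2 volume ^ 2) i) _))))
  have r3 : ∀ i, ENNReal.ofReal (M ^ 2) * φ i ^ 2 ≤ Rm := fun i =>
    le_add_right (le_add_right (le_add_left (mul_le_mul' (le_add_right le_rfl)
      (single (fun i => φ i ^ 2) i))))
  have r3' : ∀ i, ENNReal.ofReal M * U * φ i ^ 2 ≤ Rm := fun i =>
    le_add_right (le_add_right (le_add_left (mul_le_mul' (le_add_left le_rfl)
      (single (fun i => φ i ^ 2) i))))
  have r4 : ENNReal.ofReal s⁻¹ * eLpNorm (fun x => f x - W0 s f x) r volume ^ 2 ≤ Rm :=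
    le_add_right (le_add_left le_rfl)
  have r5 : ∀ i j, ENNReal.ofReal s * eLpNorm (W2 s i j f) r volume ^ 2 ≤ Rm := fun i j =>
    le_add_left ((single (fun j => ENNReal.ofReal s * eLpNorm (W2 s i j f) r volume ^ 2) j).trans
      (single (fun i => ∑ j, ENNReal.ofReal s * eLpNorm (W2 s i j f) r volume ^ 2) i))
  have mv : Measurable fun x => f x - W0 s f x := mf.sub (continuous_W0 s f).measurable
  have t1 : ∀ i, ENNReal.ofReal
      (∫ x, (f x - W0 s f x) * B i x * W1 s i (fun y => G (W0 s f y)) x)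
      ≤ ENNReal.ofReal κ * eLpNorm (fun x => G' (W0 s f x) * W1 s i f x) 2 volume ^ 2
        + (ENNReal.ofReal κ⁻¹ + 2) * Rm := by
    intro i
    have h := T1_abs (p := p) (r := r) (B₁ := fun x => tr1 R (B i x)) mv
      ((measurable_tr2 R).comp (mB i)) (continuous_W1 s i fun y => G (W0 s f y)).measurable hκ
      (by positivity) (fun x => tr1_le hR _) (W1_G_sup hG hs f i)
    simp only [Function.comp_def, tr_add] at h
    refine (Real.ofReal_le_enorm _).trans ((enorm_integral_le_lintegral_enorm _).trans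
      (h.trans ?_))
    rw [add_assoc, add_mul]
    refine add_le_add ?_ (add_le_add ?_ ?_)
    · gcongr
      exact W1_G_two hG hs f i
    · refine le_trans ?_ (mul_le_mul_right r1 _)
      rw [← mul_assoc, ← ENNReal.ofReal_mul (by positivity)]
      refine mul_le_mul_left (ENNReal.ofReal_le_ofReal ?_) _
      rw [div_le_iff₀ (by positivity)]
      field_simp
      nlinarith [sq_nonneg R]
    · refine (amgm2 (by positivity) M0 _ _).trans ?_
      rw [two_mul, inv_pow, ss]
      exact add_le_add r4 (r3 i)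
  have t2 : ∀ i, ENNReal.ofReal
      (∫ x, (G (W0 s f x) - W0 s (fun y => G (W0 s f y)) x) * W1 s i f x * B i x)
      ≤ ENNReal.ofReal (2 * κ) * ENNReal.ofReal e
        + cL d * (d * 8 + ENNReal.ofReal κ⁻¹ + ENNReal.ofReal κ⁻¹) * Rm := by
    intro i
    have h := T2_bound (p := p) (q := q) (r := r) hG hs ε0 εs f i (B₁ := fun x => tr1 R (B i x))
      ((measurable_tr2 R).comp (mB i)) hκ (fun x => tr1_le hR _)
    simp only [Function.comp_def, tr_add] at h
    refine (Real.ofReal_le_enorm _).trans ((enorm_integral_le_lintegral_enorm _).trans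
      (h.trans ?_))
    rw [mul_assoc (cL d), add_mul, add_mul]
    refine add_le_add le_rfl (mul_le_mul_right (add_le_add (add_le_add ?_ ?_) ?_) _)
    · calc _ ≤ ∑ _j : Fin d, 8 * Rm := Finset.sum_le_sum fun j _ => ?_
        _ = _ := by simp [mul_assoc]
      calc ENNReal.ofReal (2 * M * ε) * (eLpNorm (W2 s i j f) r volume * φ i)
          ≤ ENNReal.ofReal (4 * (Real.sqrt s * M)) * (eLpNorm (W2 s i j f) r volume * φ i) := by
            refine mul_le_mul_left (ENNReal.ofReal_le_ofReal ?_) _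
            nlinarith
        _ = 4 * (ENNReal.ofReal (Real.sqrt s * M) * (eLpNorm (W2 s i j f) r volume * φ i)) := by
            rw [ENNReal.ofReal_mul (by norm_num), mul_assoc]
            norm_num
        _ ≤ 4 * (Rm + Rm) := by
            gcongr
            refine (amgm2 s0.le M0 _ _).trans ?_
            rw [ss]
            exact add_le_add (r5 i j) (r3 i)
        _ = _ := by ring
    · refine le_trans ?_ (mul_le_mul_right (r2 i) _)
      rw [← mul_assoc, ← mul_assoc, ← ENNReal.ofReal_mul (by positivity),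
        ← ENNReal.ofReal_mul (by positivity)]
      refine mul_le_mul_left (ENNReal.ofReal_le_ofReal ?_) _
      rw [εs, div_le_iff₀ (by positivity)]
      field_simp
      nlinarith [sq_nonneg R]
    · refine le_trans ?_ (mul_le_mul_right (r3' i) _)
      have h1 : eLpNorm (W1 s i f) q volume ≤ ENNReal.ofReal (Real.sqrt s)⁻¹ * U :=
        (young_Sr ((RD_hm hs).dm_mul i).summable hf hq hq').trans (mul_le_mul' (N1_d1 hs i) hU)
      calc ENNReal.ofReal (M * ε / (2 * κ)) * (φ i * eLpNorm (W1 s i f) q volume * φ i)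
          ≤ ENNReal.ofReal (M * ε / (2 * κ)) *
            (φ i * (ENNReal.ofReal (Real.sqrt s)⁻¹ * U) * φ i) := by gcongr
        _ = ENNReal.ofReal (M * ε / (2 * κ) * (Real.sqrt s)⁻¹) * (U * φ i ^ 2) := by
            rw [ENNReal.ofReal_mul (by positivity)]
            ring
        _ ≤ ENNReal.ofReal (κ⁻¹ * M) * (U * φ i ^ 2) := by
            refine mul_le_mul_left (ENNReal.ofReal_le_ofReal ?_) _
            rw [← div_eq_mul_inv, div_le_iff₀ s0, div_le_iff₀ (by positivity)]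
            field_simp
            nlinarith
        _ = _ := by
            rw [ENNReal.ofReal_mul (by positivity)]
            ring
  rw [he, slice_identity hG hs hB hBf hdiv, ← he]
  calc _ ≤ ∑ i, (ENNReal.ofReal κ * eLpNorm (fun x => G' (W0 s f x) * W1 s i f x) 2 volume ^ 2
          + (ENNReal.ofReal κ⁻¹ + 2) * Rm + (ENNReal.ofReal (2 * κ) * ENNReal.ofReal e
          + cL d * (d * 8 + ENNReal.ofReal κ⁻¹ + ENNReal.ofReal κ⁻¹) * Rm)) := by
        refine Finset.le_sum_of_subadditive ENNReal.ofReal ENNReal.ofReal_zero.le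
          (fun _ _ => ENNReal.ofReal_add_le) _ _ |>.trans (Finset.sum_le_sum fun i _ => ?_)
        exact ENNReal.ofReal_add_le.trans (add_le_add (t1 i) (t2 i))
    _ = ENNReal.ofReal κ * ∑ i, eLpNorm (fun x => G' (W0 s f x) * W1 s i f x) 2 volume ^ 2
          + d * (ENNReal.ofReal (2 * κ) * ENNReal.ofReal e)
          + d * (ENNReal.ofReal κ⁻¹ + 2
            + cL d * (d * 8 + ENNReal.ofReal κ⁻¹ + ENNReal.ofReal κ⁻¹)) * Rm := by
        simp only [Finset.sum_add_distrib, Finset.sum_const, Finset.card_univ, Fintype.card_fin,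
          nsmul_eq_mul, ← Finset.mul_sum]
        ring
    _ ≤ ENNReal.ofReal κ * ENNReal.ofReal e + d * (ENNReal.ofReal (2 * κ) * ENNReal.ofReal e)
          + d * (ENNReal.ofReal κ⁻¹ + 2
            + cL d * (d * 8 + ENNReal.ofReal κ⁻¹ + ENNReal.ofReal κ⁻¹)) * Rm := by
        gcongr
        exact sum_grad_le hG s f
    _ = _ := by
        congr 1
        rw [← mul_assoc, ← add_mul, ← ENNReal.ofReal_natCast,
          ← ENNReal.ofReal_mul (Nat.cast_nonneg _),
          ← ENNReal.ofReal_add hκ.le (by positivity), hκd, ← ENNReal.ofReal_mul (by norm_num)]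
        congr 1
        ring

end AdvDiff.Neg
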