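import Mathlib
import Pool.Agent.Lib.MP_0c2f33_an.NegComm

/-!
Duhamel bounds on one time slice.
-/

open MeasureTheory Set UnitAddTorus Filter Topology
open scoped ENNReal

namespace AdvDiff.Neg

variable {d : ℕ}

theorem sm_co {α : Type} [MeasurableSpace α] {f : α × Tor d → ℝ} (hf : Measurable f)
    (k : Fin d → ℤ) : StronglyMeasurable fun t => co (fun x => (f (t, x) : ℂ)) k := by
  have : StronglyMeasurable fun z : α × Tor d => mFourier (-k) z.2 * (f z : ℂ) :=
    Measurable.stronglyMeasurable (by fun_prop)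
  exact this.integral_prod_right'

theorem sm_Ker {α : Type} [MeasurableSpace α] {a : α → (Fin d → ℤ) → ℂ}
    (h : ∀ k, StronglyMeasurable fun t => a t k) : StronglyMeasurable fun t => Ker (a t) :=
  StronglyMeasurable.tsum fun k => (h k).smul_const _

theorem meas_eval {α : Type} [MeasurableSpace α] {H : α → C(Tor d, ℂ)}
    (h : StronglyMeasurable H) : Measurable fun z : α × Tor d => H z.1 z.2 :=
  ((continuous_eval (F := C(Tor d, ℂ))).comp_stronglyMeasurable
    ((h.comp_measurable measurable_fst).prodMk measurable_snd.stronglyMeasurable)).measurable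

theorem meas_Sr {α : Type} [MeasurableSpace α] {f : α × Tor d → ℝ} (hf : Measurable f)
    (m : (Fin d → ℤ) → ℂ) : Measurable fun z : α × Tor d => Sr m (fun x => f (z.1, x)) z.2 :=
  Complex.measurable_re.comp (meas_eval (sm_Ker fun k => (sm_co hf k).const_mul (m k)))

theorem meas_eLp {α : Type} [MeasurableSpace α] {f : α × Tor d → ℝ} (hf : Measurable f)
    {p : ℝ≥0∞} (hp : p ≠ 0) (hp' : p ≠ ⊤) :
    Measurable fun t => eLpNorm (fun x => f (t, x)) p volume := by
  simp only [eLpNorm_eq_lintegral_rpow_enorm_toReal hp hp']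
  exact (Measurable.lintegral_prod_right' (f := fun z : α × Tor d => ‖f z‖ₑ ^ p.toReal)
    (by fun_prop)).pow_const _

theorem Ker_integral {α : Type} [MeasurableSpace α] {μ : Measure α} {a : α → (Fin d → ℤ) → ℂ}
    (h : ∀ k, StronglyMeasurable fun t => a t k) {c : (Fin d → ℤ) → ℝ} (hc : Summable c)
    {g : α → ℝ} (hg : Integrable g μ) (hb : ∀ᵐ t ∂μ, ∀ k, ‖a t k‖ ≤ c k * g t) :
    Integrable (fun t => Ker (a t)) μ ∧ (Summable fun k => ‖∫ t, a t k ∂μ‖) ∧
      ∫ t, Ker (a t) ∂μ = Ker fun k => ∫ t, a t k ∂μ := by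
  have h1 : ∀ k, Integrable (fun t => a t k) μ := fun k =>
    (hg.const_mul (c k)).mono' (h k).aestronglyMeasurable (hb.mono fun t ht => ht k)
  have h2 : Summable fun k => ∫ t, ‖a t k‖ ∂μ := by
    refine Summable.of_nonneg_of_le (fun k => integral_nonneg fun _ => norm_nonneg _)
      (fun k => ?_) (hc.mul_right (∫ t, g t ∂μ))
    rw [← integral_const_mul]
    exact integral_mono_ae (h1 k).norm (hg.const_mul _) (hb.mono fun t ht => ht k)
  refine ⟨?_, ?_, ?_⟩
  · refine (hg.const_mul (∑' k, c k)).mono' (sm_Ker h).aestronglyMeasurable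
      (hb.mono fun t ht => ?_)
    refine tsum_of_norm_bounded (hc.hasSum.mul_right (g t)) fun k => ?_
    rw [norm_smul, mFourier_norm, mul_one]
    exact ht k
  · exact Summable.of_nonneg_of_le (fun _ => norm_nonneg _)
      (fun k => norm_integral_le_integral_norm _) h2
  · have h3 := hasSum_integral_of_summable_integral_norm (μ := μ)
      (F := fun k t => a t k • mFourier k) (fun k => (h1 k).smul_const _)
      (by simpa only [norm_smul, mFourier_norm, mul_one] using h2)
    simp only [integral_smul_const] at h3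
    exact h3.tsum_eq.symm

theorem eLp_toLp {r : ℝ≥0∞} [Fact (1 ≤ r)] (h : C(Tor d, ℂ)) :
    ‖ContinuousMap.toLp (E := ℂ) r (volume : Measure (Tor d)) ℂ h‖ₑ = eLpNorm h r volume := by
  rw [Lp.enorm_def]
  exact eLpNorm_congr_ae (ContinuousMap.coeFn_toLp _ h)

theorem eLp_integral_le {α : Type} [MeasurableSpace α] {μ : Measure α} {H : α → C(Tor d, ℂ)}
    (hH : Integrable H μ) {r : ℝ≥0∞} (hr : 1 ≤ r) :
    eLpNorm (∫ t, H t ∂μ : C(Tor d, ℂ)) r volume ≤ ∫⁻ t, eLpNorm (H t) r volume ∂μ := by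
  have : Fact (1 ≤ r) := ⟨hr⟩
  rw [← eLp_toLp, ← ContinuousLinearMap.integral_comp_comm _ hH]
  refine (enorm_integral_le_lintegral_enorm _).trans (le_of_eq ?_)
  simp only [eLp_toLp]

theorem duhamel_slice {T t : ℝ} (ht : t ∈ Ioo 0 T) {f u₀ : Tor d → ℝ} (h0 : Integrable u₀)
    {F : Fin d → ℝ × Tor d → ℝ} (mF : ∀ l, Measurable (F l))
    (hF : ∀ l, Integrable (F l) (cyl d T))
    (hD : ∀ k, co (fun x => (f x : ℂ)) k = hm t k * co (fun x => (u₀ x : ℂ)) k
      - ∑ l, ∫ τ in Ioo (0 : ℝ) t, dm l k * hm (t - τ) k * co (sl (F l) τ) k)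
    {n : (Fin d → ℤ) → ℂ} (hn : RD n) {r : ℝ≥0∞} (hr : 1 ≤ r) (hr' : r ≠ ⊤) :
    eLpNorm (S n fun x => (f x : ℂ)) r volume
      ≤ N1 (fun k => n k * hm t k) * eLpNorm u₀ r volume
        + ∑ l, ∫⁻ τ in Ioo (0 : ℝ) t,
          N1 (fun k => dm l k * n k * hm (t - τ) k) * eLpNorm (fun x => F l (τ, x)) r volume := by
  have sub : Ioo (0 : ℝ) t ⊆ Ioo 0 T := Ioo_subset_Ioo_right ht.2.le
  have key : ∀ l, _ := fun l => Ker_integral (μ := volume.restrict (Ioo (0 : ℝ) t))
    (a := fun τ k => dm l k * n k * hm (t - τ) k * co (sl (F l) τ) k)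
    (fun k => StronglyMeasurable.mul (Measurable.stronglyMeasurable (by unfold hm; fun_prop))
      (sm_co (mF l) k)) (hn.dm_mul l).summable
    (g := fun τ => ∫ x, ‖F l (τ, x)‖)
    (IntegrableOn.mono_set (hF l).integral_norm_prod_left sub)
    (by
      filter_upwards [ae_restrict_mem measurableSet_Ioo] with τ hτ k
      rw [norm_mul, norm_mul]
      have h1 := norm_hm_le (sub_nonneg.mpr hτ.2.le) k
      have h2 := norm_co_le (sl (F l) τ) k
      simp only [sl, Complex.norm_real] at h2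
      calc _ ≤ ‖dm l k * n k‖ * 1 * ∫ x, ‖F l (τ, x)‖ := by gcongr
        _ = _ := by rw [mul_one])
  have r0 : RD fun k => n k * hm t k := hn.mul_bdd (norm_hm_le ht.1.le)
  have e : S n (fun x => (f x : ℂ)) = S (fun k => n k * hm t k) (fun x => (u₀ x : ℂ))
      - ∑ l, ∫ τ in Ioo (0 : ℝ) t,
        Ker fun k => dm l k * n k * hm (t - τ) k * co (sl (F l) τ) k := by
    simp only [fun l => (key l).2.2]
    rw [← Ker_sum _ fun l => (key l).2.1, S, S, ← Ker_sub (summable_mul_co r0.summable _)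
      (Summable.of_nonneg_of_le (fun _ => norm_nonneg _) (fun k => norm_sum_le _ _)
        (summable_sum fun l _ => (key l).2.1))]
    congr 1
    funext k
    rw [hD, mul_sub, Finset.mul_sum, mul_assoc]
    congr 1
    refine Finset.sum_congr rfl fun l _ => ?_
    rw [← integral_const_mul]
    congr 1
    funext τ
    ring
  rw [e, ContinuousMap.coe_sub, ContinuousMap.coe_sum]
  refine (eLpNorm_sub_le (Continuous.aestronglyMeasurable (by fun_prop))
    (Finset.aestronglyMeasurable_sum _ fun l _ => Continuous.aestronglyMeasurable (by fun_prop))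
    hr).trans (add_le_add ?_ ?_)
  · refine (young_S r0.summable (intC h0) hr hr').trans (le_of_eq ?_)
    rw [eLpNorm_ofReal_c]
  · refine (eLpNorm_sum_le (fun l _ => Continuous.aestronglyMeasurable (by fun_prop)) hr).trans
      (Finset.sum_le_sum fun l _ => (eLp_integral_le (key l).1 hr).trans ?_)
    refine lintegral_mono_ae ?_
    filter_upwards [ae_restrict_mem measurableSet_Ioo,
      ae_restrict_of_ae_restrict_of_subset sub (hF l).prod_right_ae] with τ hτ hτ'
    refine (young_S ((hn.dm_mul l).mul_bdd (norm_hm_le (sub_nonneg.mpr hτ.2.le))).summable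
      (intC hτ') hr hr').trans (le_of_eq ?_)
    rw [eLpNorm_ofReal_c]

theorem lint_k0 {σ : ℝ} (hσ : 0 < σ) :
    ∫⁻ t in Ioi (0 : ℝ), ENNReal.ofReal (2 / (σ + t)) ^ 2 = ENNReal.ofReal (4 / σ) := by
  have hd : ∀ t ∈ Ici (0 : ℝ), HasDerivAt (fun t => -4 * (σ + t)⁻¹) ((2 / (σ + t)) ^ 2) t := by
    intro t ht
    have p : σ + t ≠ 0 := by have := ht.out; positivity
    convert! (((hasDerivAt_id t).const_add σ).inv p).const_mul (-4) using 1
    simp only [id]
    field_simp
    ring
  have hl : Tendsto (fun t : ℝ => -4 * (σ + t)⁻¹) atTop (𝓝 0) := by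
    simpa using (tendsto_inv_atTop_zero.comp
      (tendsto_atTop_add_const_left atTop σ tendsto_id)).const_mul (-4)
  have h1 := integrableOn_Ioi_deriv_of_nonneg' hd (fun t _ => sq_nonneg _) hl
  have h2 := integral_Ioi_of_hasDerivAt_of_nonneg' hd (fun t _ => sq_nonneg _) hl
  rw [show 4 / σ = 0 - -4 * (σ + 0)⁻¹ by field_simp; ring, ← h2,
    ofReal_integral_eq_lintegral_ofReal h1 (Eventually.of_forall fun t => sq_nonneg _)]
  refine setLIntegral_congr_fun measurableSet_Ioi fun t ht => ?_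
  have := ht.out
  exact (ENNReal.ofReal_pow (by positivity) 2).symm

theorem lint_k1 {σ : ℝ} (hσ : 0 < σ) :
    ∫⁻ t in Ioi (0 : ℝ), ENNReal.ofReal (8 / ((σ + t) * Real.sqrt (σ + t)))
      = ENNReal.ofReal (16 / Real.sqrt σ) := by
  have hd : ∀ t ∈ Ici (0 : ℝ), HasDerivAt (fun t => -16 * (Real.sqrt (σ + t))⁻¹)
      (8 / ((σ + t) * Real.sqrt (σ + t))) t := by
    intro t ht
    have p : 0 < σ + t := by have := ht.out; positivity
    have p' : 0 < Real.sqrt (σ + t) := Real.sqrt_pos.mpr p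
    convert! ((((hasDerivAt_id t).const_add σ).sqrt p.ne').inv p'.ne').const_mul (-16) using 1
    simp only [id]
    rw [Real.sq_sqrt p.le]
    field_simp
    ring
  have hl : Tendsto (fun t : ℝ => -16 * (Real.sqrt (σ + t))⁻¹) atTop (𝓝 0) := by
    simpa using (tendsto_inv_atTop_zero.comp (Real.tendsto_sqrt_atTop.comp
      (tendsto_atTop_add_const_left atTop σ tendsto_id))).const_mul (-16)
  have nn : ∀ t ∈ Ioi (0 : ℝ), 0 ≤ 8 / ((σ + t) * Real.sqrt (σ + t)) := fun t ht => by
    have := ht.out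
    positivity
  have h1 := integrableOn_Ioi_deriv_of_nonneg' hd nn hl
  have h2 := integral_Ioi_of_hasDerivAt_of_nonneg' hd nn hl
  rw [show 16 / Real.sqrt σ = 0 - -16 * (Real.sqrt (σ + 0))⁻¹ by rw [add_zero]; ring, ← h2,
    ofReal_integral_eq_lintegral_ofReal h1
      ((ae_restrict_mem measurableSet_Ioi).mono fun t ht => nn t ht)]

theorem enn_add_sq (x y : ℝ≥0∞) : (x + y) ^ 2 ≤ 2 * x ^ 2 + 2 * y ^ 2 := by
  rcases eq_or_ne x ⊤ with rfl | hx
  · simp
  rcases eq_or_ne y ⊤ with rfl | hy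
  · simp
  lift x to NNReal using hx
  lift y to NNReal using hy
  have : ((x : ℝ) + y) ^ 2 ≤ 2 * (x : ℝ) ^ 2 + 2 * (y : ℝ) ^ 2 := by
    nlinarith [sq_nonneg ((x : ℝ) - y)]
  exact_mod_cast this

theorem hasDerivAt_hm (k : Fin d → ℤ) (a : ℝ) :
    HasDerivAt (fun a => hm a k) (-(lam k : ℂ) * hm a k) a := by
  have h1 : HasDerivAt (fun a : ℝ => Real.exp (-(lam k * a)))
      (Real.exp (-(lam k * a)) * -lam k) a := by
    simpa using ((hasDerivAt_id a).const_mul (lam k)).neg.exp
  convert! h1.ofReal_comp using 1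
  simp only [hm]
  push_cast
  ring

theorem hasDerivAt_S_hm {a : ℝ} (ha : 0 < a) (f : Tor d → ℂ) :
    HasDerivAt (fun a => S (hm a) f) (∑ i, S (fun k => dm i k * (dm i k * hm a k)) f) a := by
  have h2 : 0 < a / 2 := by positivity
  have h1 := hasDerivAt_tsum_of_isPreconnected (𝕜 := ℝ) (t := Ioi (a / 2)) (y₀ := a) (y := a)
    (summable_mul_co (RD_hm h2).lam_mul.summable f) isOpen_Ioi isPreconnected_Ioi
    (g := fun k a => (hm a k * co f k) • mFourier k)
    (g' := fun k a => (-(lam k : ℂ) * hm a k * co f k) • mFourier k)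
    (fun k a _ => ((hasDerivAt_hm k a).mul_const (co f k)).smul_const (mFourier k))
    (fun k y hy => by
      simp only [norm_smul, mFourier_norm, mul_one, norm_mul, norm_neg, norm_hm]
      have := lam_nonneg k
      have := hy.out
      gcongr)
    (by simpa using ha) (hasSum_Ker (summable_mul_co (RD_hm ha).summable f)).summable
    (by simpa using ha)
  convert! h1 using 1
  simp only [S]
  rw [← Ker_sum _ fun i => summable_mul_co (((RD_hm ha).dm_mul i).dm_mul i).summable f, Ker]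
  congr 1
  funext k
  rw [← sum_dm_sq, Finset.sum_mul, Finset.sum_mul]
  simp only [mul_assoc]

theorem step_bound {σ : ℝ} (hσ : 0 < σ) (f : Tor d → ℝ) {r θ : ℝ≥0∞} (hr : 1 ≤ r)
    (h : ∀ a, σ ≤ a → ∀ i,
      eLpNorm (S (fun k => dm i k * (dm i k * hm a k)) fun x => (f x : ℂ)) r volume ≤ θ) :
    eLpNorm (fun x => W0 σ f x - W0 (4 * σ) f x) r volume
      ≤ ENNReal.ofReal (3 * σ) * (d * θ) := by
  have : Fact (1 ≤ r) := ⟨hr⟩
  rcases eq_or_ne ((d : ℝ≥0∞) * θ) ⊤ with h0 | h0
  · rw [h0, ENNReal.mul_top (by simpa using hσ)]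
    exact le_top
  let L := (ContinuousMap.toLp (E := ℂ) r (volume : Measure (Tor d)) ℂ).restrictScalars ℝ
  have h1 := Convex.norm_image_sub_le_of_norm_hasDerivWithin_le (s := Ici σ)
    (f := fun a => L (S (hm a) fun x => (f x : ℂ)))
    (f' := fun a => L (∑ i, S (fun k => dm i k * (dm i k * hm a k)) fun x => (f x : ℂ)))
    (C := ((d : ℝ≥0∞) * θ).toReal)
    (fun a ha => (L.hasFDerivAt.comp_hasDerivAt a
      (hasDerivAt_S_hm (hσ.trans_le ha) _)).hasDerivWithinAt)
    (fun a ha => by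
      rw [← toReal_enorm]
      refine ENNReal.toReal_mono h0 ?_
      rw [map_sum]
      refine (enorm_sum_le _ _).trans ?_
      calc _ ≤ ∑ _i : Fin d, θ := Finset.sum_le_sum fun i _ => (eLp_toLp _).trans_le (h a ha i)
        _ = _ := by simp)
    (convex_Ici σ) (show 4 * σ ∈ Ici σ by simp; linarith) (self_mem_Ici (a := σ))
  rw [← map_sub] at h1
  have h2 : eLpNorm (fun x => W0 σ f x - W0 (4 * σ) f x) r volume
      ≤ ‖L ((S (hm σ) fun x => (f x : ℂ)) - S (hm (4 * σ)) fun x => (f x : ℂ))‖ₑ := by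
    refine le_trans (eLpNorm_mono_enorm fun x => ?_) (eLp_toLp _).ge
    refine le_trans (le_of_eq ?_) (enorm_re_le _)
    simp [W0, Sr]
  refine h2.trans ?_
  rw [← ofReal_norm]
  refine (ENNReal.ofReal_le_ofReal h1).trans (le_of_eq ?_)
  rw [mul_comm, ENNReal.ofReal_mul (norm_nonneg _), ENNReal.ofReal_toReal h0, Real.norm_eq_abs,
    abs_of_nonpos (by linarith)]
  congr 2
  ring

theorem tendsto_mult {ι : Type} {l : Filter ι} {m : ι → (Fin d → ℤ) → ℂ}
    (h1 : ∀ᶠ s in l, ∀ k, ‖m s k‖ ≤ 1) (h0 : ∀ k, Tendsto (fun s => m s k) l (𝓝 0))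
    {f : Tor d → ℂ} (hf : MemLp f 2 volume) {g : ι → Tor d → ℂ}
    (hg : ∀ᶠ s in l, MemLp (g s) 2 volume ∧ ∀ k, co (g s) k = m s k * co f k) :
    Tendsto (fun s => eLpNorm (g s) 2 volume ^ 2) l (𝓝 0) := by
  have h2 := tendsto_tsum_of_dominated_convergence (𝓕 := l)
    (f := fun s k => ‖m s k * co f k‖ ^ 2) (g := fun _ => 0) (parseval_sq hf).summable
    (fun k => by simpa using ((h0 k).mul_const (co f k)).norm.pow 2)
    (h1.mono fun s hs k => by
      rw [Real.norm_of_nonneg (sq_nonneg _), norm_mul]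
      gcongr
      exact mul_le_of_le_one_left (norm_nonneg _) (hs k))
  have h3 := ENNReal.tendsto_ofReal h2
  simp only [tsum_zero, ENNReal.ofReal_zero] at h3
  refine h3.congr' (hg.mono fun s hs => ?_)
  have h4 := parseval_sq hs.1
  simp only [hs.2] at h4
  simp only
  rw [h4.tsum_eq, sq_eLp, ofReal_integral_eq_lintegral_ofReal hs.1.norm.integrable_sq
    (Eventually.of_forall fun x => sq_nonneg _)]
  refine lintegral_congr fun x => ?_
  rw [ENNReal.ofReal_pow (norm_nonneg _), ofReal_norm]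

theorem tendsto_hm (k : Fin d → ℤ) : Tendsto (fun s => hm s k) (𝓝[>] 0) (𝓝 1) := by
  have := (hasDerivAt_hm k 0).continuousAt.tendsto
  rw [hm_zero] at this
  exact this.mono_left nhdsWithin_le_nhds

theorem tendsto_W0 {f : Tor d → ℝ} (hf : MemLp f 2 volume) :
    Tendsto (fun s => eLpNorm (fun x => f x - W0 s f x) 2 volume ^ 2) (𝓝[>] 0) (𝓝 0) := by
  have hc : MemLp (fun x => (f x : ℂ)) 2 volume := hf.ofReal
  have h := tendsto_mult (l := 𝓝[>] (0 : ℝ)) (m := fun s k => 1 - hm s k)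
    (g := fun s x => (f x : ℂ) - S (hm s) (fun y => (f y : ℂ)) x)
    (eventually_mem_nhdsWithin.mono fun s hs k => by
      have h1 := norm_hm_le (le_of_lt hs) k
      rw [norm_hm] at h1
      have h2 := Real.exp_pos (-(lam k * s))
      rw [hm, ← Complex.ofReal_one, ← Complex.ofReal_sub, Complex.norm_real, Real.norm_eq_abs,
        abs_le]
      constructor <;> linarith)
    (fun k => by simpa using (tendsto_hm k).const_sub 1) hc
    (eventually_mem_nhdsWithin.mono fun s hs => ⟨hc.sub (memLp_cont (by fun_prop) 2), fun k => by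
      rw [co_sub (hc.integrable one_le_two) (integrable_cont (by fun_prop)),
        co_S (RD_hm hs).summable]
      ring⟩)
  refine tendsto_of_tendsto_of_tendsto_of_le_of_le tendsto_const_nhds h (fun _ => zero_le)
    fun s => ?_
  refine pow_le_pow_left' (eLpNorm_mono_enorm fun x => ?_) 2
  refine le_trans (le_of_eq ?_) (enorm_re_le _)
  simp [W0, Sr]

theorem tendsto_W1 {f : Tor d → ℝ} (hf : MemLp f 2 volume) (i : Fin d) :
    Tendsto (fun s => ENNReal.ofReal s * eLpNorm (W1 s i f) 2 volume ^ 2) (𝓝[>] 0) (𝓝 0) := by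
  have hc : MemLp (fun x => (f x : ℂ)) 2 volume := hf.ofReal
  have h := tendsto_mult (l := 𝓝[>] (0 : ℝ))
    (m := fun s k => (Real.sqrt s : ℂ) * (dm i k * hm s k))
    (g := fun s x => (Real.sqrt s : ℂ) * S (fun k => dm i k * hm s k) (fun y => (f y : ℂ)) x)
    (eventually_mem_nhdsWithin.mono fun s hs k => by
      have hs' : 0 < s := hs
      refine (abs_le_of_sq_le_sq' ?_ zero_le_one).2
      rw [norm_mul, norm_mul, mul_pow, mul_pow, Complex.norm_real, Real.norm_eq_abs, sq_abs,
        Real.sq_sqrt hs'.le, norm_hm, one_pow]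
      have h1 := norm_dm_sq_le i k
      have h0 := mul_nonneg (lam_nonneg k) hs'.le
      have h2 := Real.add_one_le_exp (lam k * s)
      have h3 : Real.exp (-(lam k * s)) ≤ 1 := by
        rw [Real.exp_le_one_iff]
        linarith
      have h4 : lam k * s * Real.exp (-(lam k * s)) ≤ 1 := by
        rw [Real.exp_neg, ← div_eq_mul_inv, div_le_one (Real.exp_pos _)]
        linarith
      have h5 := Real.exp_pos (-(lam k * s))
      have h6 := lam_nonneg k
      calc s * (‖dm i k‖ ^ 2 * Real.exp (-(lam k * s)) ^ 2)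
          ≤ s * (lam k * (Real.exp (-(lam k * s)) * 1)) := by
            rw [sq (Real.exp _)]
            gcongr
        _ ≤ 1 := by linarith)
    (fun k => by
      have h1 : Tendsto (fun s : ℝ => (Real.sqrt s : ℂ)) (𝓝[>] 0) (𝓝 0) := by
        have : Continuous fun s : ℝ => (Real.sqrt s : ℂ) := by fun_prop
        simpa using (this.tendsto 0).mono_left nhdsWithin_le_nhds
      simpa using h1.mul ((tendsto_hm k).const_mul (dm i k))) hc
    (eventually_mem_nhdsWithin.mono fun s hs => ⟨memLp_cont (by fun_prop) 2, fun k => by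
      rw [mul_assoc, ← co_S ((RD_hm hs).dm_mul i).summable, co, co, ← integral_const_mul]
      congr 1
      funext x
      ring⟩)
  refine tendsto_of_tendsto_of_tendsto_of_le_of_le' tendsto_const_nhds h
    (Eventually.of_forall fun _ => zero_le) (eventually_mem_nhdsWithin.mono fun s hs => ?_)
  have hs' : 0 < s := hs
  simp only [sq_eLp]
  rw [← lintegral_const_mul' _ _ ENNReal.ofReal_ne_top]
  refine lintegral_mono fun x => ?_
  rw [enorm_mul, mul_pow, ← ofReal_norm (Real.sqrt s : ℂ), ← ENNReal.ofReal_pow (norm_nonneg _),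
    Complex.norm_real, Real.norm_eq_abs, sq_abs, Real.sq_sqrt hs'.le]
  gcongr
  exact enorm_re_le _

end AdvDiff.Neg
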