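import Mathlib
import Pool.Agent.Lib.MP_0c2f33_an.NegDuh

/-!
Estimates integrated in time.
-/

open MeasureTheory Set UnitAddTorus Filter Topology
open scoped ENNReal

namespace AdvDiff.Neg

variable {d : ℕ}

theorem exists_theta {T : ℝ} {u : ℝ × Tor d → ℝ} {u₀ : Tor d → ℝ} (h0 : Integrable u₀)
    {F : Fin d → ℝ × Tor d → ℝ} (mF : ∀ l, Measurable (F l))
    (hF : ∀ l, Integrable (F l) (cyl d T)) {r : ℝ≥0∞} (hr : 1 ≤ r) (hr' : r ≠ ⊤)
    (c0 : eLpNorm u₀ r volume ≠ ⊤)
    (hB : ∫⁻ τ in Ioo (0 : ℝ) T, (∑ l, eLpNorm (fun x => F l (τ, x)) r volume) ^ 2 ≠ ⊤)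
    (hD : ∀ᵐ t ∂(volume.restrict (Ioo (0 : ℝ) T)), ∀ k,
      co (sl u t) k = hm t k * co (fun x => (u₀ x : ℂ)) k
        - ∑ l, ∫ τ in Ioo (0 : ℝ) t, dm l k * hm (t - τ) k * co (sl (F l) τ) k) :
    ∃ A : ℝ≥0∞, A ≠ ⊤ ∧ ∀ σ : ℝ, 0 < σ → ∃ Θ : ℝ → ℝ≥0∞, Measurable Θ ∧
      ∫⁻ t in Ioo (0 : ℝ) T, ENNReal.ofReal σ * Θ t ^ 2 ≤ A ∧
      ∀ᵐ t ∂(volume.restrict (Ioo (0 : ℝ) T)), ∀ a, σ ≤ a → ∀ i j,
        eLpNorm (S (fun k => dm j k * (dm i k * hm a k)) (sl u t)) r volume ≤ Θ t := by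
  have r0 : r ≠ 0 := (zero_lt_one.trans_le hr).ne'
  set Bn : ℝ → ℝ≥0∞ := fun τ => ∑ l, eLpNorm (fun x => F l (τ, x)) r volume with hBn
  have mB : Measurable Bn := Finset.measurable_sum _ fun l _ => meas_eLp (mF l) r0 hr'
  refine ⟨2 * (4 * eLpNorm u₀ r volume ^ 2) + 2 * (256 * ∫⁻ τ in Ioo (0 : ℝ) T, Bn τ ^ 2),
    by finiteness, fun σ hσ => ?_⟩
  set K : ℝ → ℝ≥0∞ := (Ioi (0 : ℝ)).indicator
    fun a => ENNReal.ofReal (8 / ((σ + a) * Real.sqrt (σ + a))) with hK
  set Bf : ℝ → ℝ≥0∞ := (Ioo (0 : ℝ) T).indicator Bn with hBf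
  have mK : Measurable K := Measurable.indicator (by fun_prop) measurableSet_Ioi
  have mBf : Measurable Bf := mB.indicator measurableSet_Ioo
  have mC : Measurable fun t => ∫⁻ τ, K (t - τ) * Bf τ :=
    Measurable.lintegral_prod_right' (f := fun z : ℝ × ℝ => K (z.1 - z.2) * Bf z.2) (by fun_prop)
  refine ⟨fun t => ENNReal.ofReal (2 / (σ + t)) * eLpNorm u₀ r volume + ∫⁻ τ, K (t - τ) * Bf τ,
    by fun_prop, ?_, ?_⟩
  · have y := young (volume : Measure ℝ) mK mBf.aemeasurable (r := 2) one_le_two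
    simp only [ENNReal.rpow_ofNat] at y
    have e1 : ∫⁻ a, K a = ENNReal.ofReal (16 / Real.sqrt σ) := by
      rw [hK, lintegral_indicator measurableSet_Ioi, lint_k1 hσ]
    have e2 : ∫⁻ τ, Bf τ ^ 2 = ∫⁻ τ in Ioo (0 : ℝ) T, Bn τ ^ 2 := by
      rw [← lintegral_indicator measurableSet_Ioo]
      refine lintegral_congr fun τ => ?_
      by_cases h : τ ∈ Ioo (0 : ℝ) T <;> simp [hBf, h]
    rw [e1, e2] at y
    have s0 : 0 < Real.sqrt σ := Real.sqrt_pos.mpr hσ
    have a1 : ENNReal.ofReal σ * ENNReal.ofReal (4 / σ) = 4 := by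
      rw [← ENNReal.ofReal_mul hσ.le, mul_div_cancel₀ _ hσ.ne']
      norm_num
    have a2 : ENNReal.ofReal σ * ENNReal.ofReal (16 / Real.sqrt σ) ^ 2 = 256 := by
      rw [← ENNReal.ofReal_pow (by positivity), ← ENNReal.ofReal_mul hσ.le, div_pow,
        Real.sq_sqrt hσ.le, mul_div_cancel₀ _ hσ.ne']
      norm_num
    rw [lintegral_const_mul' _ _ ENNReal.ofReal_ne_top]
    calc _ ≤ ENNReal.ofReal σ * ∫⁻ t in Ioo (0 : ℝ) T,
          (2 * (ENNReal.ofReal (2 / (σ + t)) ^ 2 * eLpNorm u₀ r volume ^ 2)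
            + 2 * (∫⁻ τ, K (t - τ) * Bf τ) ^ 2) := by
          gcongr with t
          rw [← mul_pow]
          exact enn_add_sq _ _
      _ ≤ ENNReal.ofReal σ * (2 * (ENNReal.ofReal (4 / σ) * eLpNorm u₀ r volume ^ 2)
            + 2 * (ENNReal.ofReal (16 / Real.sqrt σ) ^ 2 * ∫⁻ τ in Ioo (0 : ℝ) T, Bn τ ^ 2)) := by
          rw [lintegral_add_left (by fun_prop), lintegral_const_mul _ (by fun_prop),
            lintegral_const_mul _ (by fun_prop), lintegral_mul_const _ (by fun_prop)]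
          gcongr
          · rw [← lint_k0 hσ]
            exact lintegral_mono_set Ioo_subset_Ioi_self
          · exact (setLIntegral_le_lintegral _ _).trans y
      _ = _ := by
          rw [← a1, ← a2]
          ring
  · filter_upwards [hD, ae_restrict_mem measurableSet_Ioo] with t hD ht a ha i j
    have a0 : 0 < a := hσ.trans_le ha
    have t0 := ht.1
    refine (duhamel_slice ht h0 mF hF hD (((RD_hm a0).dm_mul i).dm_mul j) hr hr').trans
      (add_le_add ?_ ?_)
    · gcongr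
      simp only [mul_assoc, ← hm_add]
      refine (N1_d2 (by positivity) i j).trans ?_
      gcongr
    · calc _ ≤ ∑ l, ∫⁻ τ in Ioo (0 : ℝ) t,
            K (t - τ) * eLpNorm (fun x => F l (τ, x)) r volume := by
            refine Finset.sum_le_sum fun l _ => setLIntegral_mono' measurableSet_Ioo
              fun τ hτ => ?_
            have p : 0 < t - τ := sub_pos.mpr hτ.2
            gcongr
            simp only [mul_assoc, ← hm_add]
            refine (N1_d3 (by positivity) i j l).trans ?_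
            rw [hK, indicator_of_mem (show t - τ ∈ Ioi (0 : ℝ) from p)]
            gcongr
        _ = ∫⁻ τ in Ioo (0 : ℝ) t, K (t - τ) * Bf τ := by
            rw [← lintegral_finsetSum _ fun l _ => by
              have := meas_eLp (mF l) r0 hr'
              fun_prop]
            refine setLIntegral_congr_fun measurableSet_Ioo fun τ hτ => ?_
            simp only [hBf, indicator_of_mem (Ioo_subset_Ioo_right ht.2.le hτ), hBn,
              Finset.mul_sum]
        _ ≤ _ := setLIntegral_le_lintegral _ _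

theorem meas_W0 {u : ℝ × Tor d → ℝ} (mu : Measurable u) (s : ℝ) :
    Measurable fun z : ℝ × Tor d => W0 s (fun x => u (z.1, x)) z.2 := meas_Sr mu _

theorem meas_W1 {u : ℝ × Tor d → ℝ} (mu : Measurable u) (s : ℝ) (i : Fin d) :
    Measurable fun z : ℝ × Tor d => W1 s i (fun x => u (z.1, x)) z.2 := meas_Sr mu _

theorem meas_W2 {u : ℝ × Tor d → ℝ} (mu : Measurable u) (s : ℝ) (i j : Fin d) :
    Measurable fun z : ℝ × Tor d => W2 s i j (fun x => u (z.1, x)) z.2 := meas_Sr mu _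

theorem meas_diff {u : ℝ × Tor d → ℝ} (mu : Measurable u) (s : ℝ) {p : ℝ≥0∞} (hp : p ≠ 0)
    (hp' : p ≠ ⊤) :
    Measurable fun t => eLpNorm (fun x => u (t, x) - W0 s (fun x => u (t, x)) x) p volume :=
  meas_eLp (mu.sub (meas_W0 mu s)) hp hp'

theorem memLp_slice {u : ℝ × Tor d → ℝ} (mu : Measurable u) {t : ℝ} {p U : ℝ≥0∞} (hU : U ≠ ⊤)
    (h : eLpNorm (fun x => u (t, x)) p volume ≤ U) : MemLp (fun x => u (t, x)) p volume :=
  ⟨(mu.comp measurable_prodMk_left).aestronglyMeasurable, h.trans_lt hU.lt_top⟩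

theorem time_W0 {T : ℝ} {u : ℝ × Tor d → ℝ} (mu : Measurable u) {U : ℝ≥0∞} (hU : U ≠ ⊤)
    (h : ∀ᵐ t ∂(volume.restrict (Ioo (0 : ℝ) T)), eLpNorm (fun x => u (t, x)) 2 volume ≤ U) :
    Tendsto (fun s => ∫⁻ t in Ioo (0 : ℝ) T,
      eLpNorm (fun x => u (t, x) - W0 s (fun x => u (t, x)) x) 2 volume ^ 2) (𝓝[>] 0) (𝓝 0) := by
  have := tendsto_lintegral_filter_of_dominated_convergence
    (μ := volume.restrict (Ioo (0 : ℝ) T)) (l := 𝓝[>] (0 : ℝ))
    (F := fun s t => eLpNorm (fun x => u (t, x) - W0 s (fun x => u (t, x)) x) 2 volume ^ 2)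
    (f := fun _ => 0) (fun _ => (U + U) ^ 2)
    (Eventually.of_forall fun s =>
      (meas_eLp (mu.sub (meas_W0 mu s)) two_ne_zero ENNReal.ofNat_ne_top).pow_const 2)
    (eventually_mem_nhdsWithin.mono fun s hs => h.mono fun t ht => by
      have hm := memLp_slice mu hU ht
      refine pow_le_pow_left' ((eLpNorm_sub_le hm.1 (continuous_W0 s _).aestronglyMeasurable
        one_le_two).trans (add_le_add ht ?_)) 2
      refine (young_Sr (RD_hm hs).summable (hm.integrable one_le_two) one_le_two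
        (by simp)).trans ?_
      exact (mul_le_of_le_one_left' (N1_hm hs)).trans ht)
    (by
      rw [lintegral_const]
      finiteness)
    (h.mono fun t ht => tendsto_W0 (memLp_slice mu hU ht))
  simpa using this

theorem W1_two_le {s : ℝ} (hs : 0 < s) {f : Tor d → ℝ} (hf : Integrable f) (i : Fin d) :
    ENNReal.ofReal s * eLpNorm (W1 s i f) 2 volume ^ 2 ≤ eLpNorm f 2 volume ^ 2 := by
  have h1 : eLpNorm (W1 s i f) 2 volume ≤ ENNReal.ofReal (Real.sqrt s)⁻¹ * eLpNorm f 2 volume :=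
    (young_Sr ((RD_hm hs).dm_mul i).summable hf one_le_two (by simp)).trans
      (mul_le_mul_left (N1_d1 hs i) _)
  calc _ ≤ ENNReal.ofReal s * (ENNReal.ofReal (Real.sqrt s)⁻¹ * eLpNorm f 2 volume) ^ 2 := by
        gcongr
    _ = _ := by
        rw [mul_pow, ← mul_assoc, ← ENNReal.ofReal_pow (by positivity),
          ← ENNReal.ofReal_mul hs.le, inv_pow, Real.sq_sqrt hs.le, mul_inv_cancel₀ hs.ne']
        simp

theorem time_W1 {T : ℝ} {u : ℝ × Tor d → ℝ} (mu : Measurable u) {U : ℝ≥0∞} (hU : U ≠ ⊤)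
    (h : ∀ᵐ t ∂(volume.restrict (Ioo (0 : ℝ) T)), eLpNorm (fun x => u (t, x)) 2 volume ≤ U)
    (i : Fin d) :
    Tendsto (fun s => ∫⁻ t in Ioo (0 : ℝ) T,
      ENNReal.ofReal s * eLpNorm (W1 s i fun x => u (t, x)) 2 volume ^ 2) (𝓝[>] 0) (𝓝 0) := by
  have := tendsto_lintegral_filter_of_dominated_convergence
    (μ := volume.restrict (Ioo (0 : ℝ) T)) (l := 𝓝[>] (0 : ℝ))
    (F := fun s t => ENNReal.ofReal s * eLpNorm (W1 s i fun x => u (t, x)) 2 volume ^ 2)
    (f := fun _ => 0) (fun _ => U ^ 2)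
    (Eventually.of_forall fun s =>
      ((meas_eLp (meas_W1 mu s i) two_ne_zero ENNReal.ofNat_ne_top).pow_const 2).const_mul _)
    (eventually_mem_nhdsWithin.mono fun s hs => h.mono fun t ht =>
      (W1_two_le hs ((memLp_slice mu hU ht).integrable one_le_two) i).trans
        (pow_le_pow_left' ht 2))
    (by
      rw [lintegral_const]
      finiteness)
    (h.mono fun t ht => tendsto_W1 (memLp_slice mu hU ht) i)
  simpa using this

theorem time_diff {T : ℝ} {u : ℝ × Tor d → ℝ} (mu : Measurable u) {U : ℝ≥0∞} (hU : U ≠ ⊤)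
    (h : ∀ᵐ t ∂(volume.restrict (Ioo (0 : ℝ) T)), eLpNorm (fun x => u (t, x)) 2 volume ≤ U)
    {r A : ℝ≥0∞} (hr : 1 ≤ r) (hr2 : r ≤ 2)
    (hΘ : ∀ σ : ℝ, 0 < σ → ∃ Θ : ℝ → ℝ≥0∞, Measurable Θ ∧
      ∫⁻ t in Ioo (0 : ℝ) T, ENNReal.ofReal σ * Θ t ^ 2 ≤ A ∧
      ∀ᵐ t ∂(volume.restrict (Ioo (0 : ℝ) T)), ∀ a, σ ≤ a → ∀ i j,
        eLpNorm (S (fun k => dm j k * (dm i k * hm a k)) (sl u t)) r volume ≤ Θ t)
    {s : ℝ} (hs : 0 < s) :
    ∫⁻ t in Ioo (0 : ℝ) T, ENNReal.ofReal s⁻¹ *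
      eLpNorm (fun x => u (t, x) - W0 s (fun x => u (t, x)) x) r volume ^ 2
      ≤ 2 * (9 * d ^ 2 * A) := by
  have ind : ∀ δ : ℝ, 0 < δ → ∀ m : ℕ, ∫⁻ t in Ioo (0 : ℝ) T, eLpNorm
      (fun x => W0 δ (fun x => u (t, x)) x - W0 (4 ^ m * δ) (fun x => u (t, x)) x) r volume ^ 2
      ≤ ENNReal.ofReal (4 ^ m * δ) * (9 * d ^ 2 * A) := by
    intro δ hδ m
    induction m with
    | zero => simp
    | succ m ih =>
      have hσ : 0 < 4 ^ m * δ := by positivity
      obtain ⟨Θ, mΘ, iΘ, bΘ⟩ := hΘ _ hσ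
      rw [show (4 : ℝ) ^ (m + 1) * δ = 4 * (4 ^ m * δ) by ring]
      set σ := 4 ^ m * δ
      calc _ ≤ ∫⁻ t in Ioo (0 : ℝ) T, (2 * eLpNorm (fun x => W0 δ (fun x => u (t, x)) x
              - W0 σ (fun x => u (t, x)) x) r volume ^ 2
            + 2 * (ENNReal.ofReal σ * (9 * d ^ 2)) * (ENNReal.ofReal σ * Θ t ^ 2)) := by
            refine lintegral_mono_ae (bΘ.mono fun t ht => ?_)
            have h1 := step_bound hσ (fun x => u (t, x)) hr fun a ha i => ht a ha i i
            have h2 := eLpNorm_add_le (μ := (volume : Measure (Tor d))) (p := r)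
              (f := fun x => W0 δ (fun x => u (t, x)) x - W0 σ (fun x => u (t, x)) x)
              (g := fun x => W0 σ (fun x => u (t, x)) x - W0 (4 * σ) (fun x => u (t, x)) x)
              (Continuous.aestronglyMeasurable (by fun_prop))
              (Continuous.aestronglyMeasurable (by fun_prop)) hr
            simp only [Pi.add_def, sub_add_sub_cancel] at h2
            refine (pow_le_pow_left' (h2.trans (add_le_add le_rfl h1)) 2).trans
              ((enn_add_sq _ _).trans (le_of_eq ?_))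
            rw [ENNReal.ofReal_mul (by norm_num), ENNReal.ofReal_ofNat]
            ring
        _ ≤ 2 * (ENNReal.ofReal σ * (9 * d ^ 2 * A))
            + 2 * (ENNReal.ofReal σ * (9 * d ^ 2)) * A := by
            rw [lintegral_add_right _ (by fun_prop), lintegral_const_mul' _ _ (by simp),
              lintegral_const_mul _ (by fun_prop)]
            gcongr
        _ = _ := by
            rw [ENNReal.ofReal_mul (p := 4) (by norm_num), ENNReal.ofReal_ofNat]
            ring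
  have lim : Tendsto (fun N : ℕ => s / 4 ^ N) atTop (𝓝[>] 0) := by
    refine tendsto_nhdsWithin_iff.mpr ⟨?_, Eventually.of_forall fun N => ?_⟩
    · exact tendsto_const_nhds.div_atTop (tendsto_pow_atTop_atTop_of_one_lt (by norm_num))
    · exact (by positivity : 0 < s / 4 ^ N)
  have lim2 := (ENNReal.Tendsto.const_mul (a := ENNReal.ofReal s⁻¹ * 2)
    ((time_W0 mu hU h).comp lim) (Or.inr (by finiteness))).add_const (2 * (9 * d ^ 2 * A))
  rw [mul_zero, zero_add] at lim2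
  refine ge_of_tendsto' lim2 fun N => ?_
  have hδ : 0 < s / 4 ^ N := by positivity
  have h3 := ind _ hδ N
  rw [mul_div_cancel₀ _ (by positivity)] at h3
  rw [lintegral_const_mul' _ _ ENNReal.ofReal_ne_top]
  calc _ ≤ ENNReal.ofReal s⁻¹ * ∫⁻ t in Ioo (0 : ℝ) T, (2 * eLpNorm
          (fun x => u (t, x) - W0 (s / 4 ^ N) (fun x => u (t, x)) x) 2 volume ^ 2
        + 2 * eLpNorm (fun x => W0 (s / 4 ^ N) (fun x => u (t, x)) x
          - W0 s (fun x => u (t, x)) x) r volume ^ 2) := by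
        gcongr with t
        have m1 : AEStronglyMeasurable
            (fun x => u (t, x) - W0 (s / 4 ^ N) (fun x => u (t, x)) x) volume :=
          ((mu.comp measurable_prodMk_left).sub (continuous_W0 _ _).measurable).aestronglyMeasurable
        have h2 := eLpNorm_add_le (μ := (volume : Measure (Tor d))) (p := r) m1
          (g := fun x => W0 (s / 4 ^ N) (fun x => u (t, x)) x - W0 s (fun x => u (t, x)) x)
          (Continuous.aestronglyMeasurable (by fun_prop)) hr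
        simp only [Pi.add_def, sub_add_sub_cancel] at h2
        exact (pow_le_pow_left' (h2.trans (add_le_add
          (eLpNorm_le_eLpNorm_of_exponent_le hr2 m1) le_rfl)) 2).trans (enn_add_sq _ _)
    _ ≤ ENNReal.ofReal s⁻¹ * (2 * (∫⁻ t in Ioo (0 : ℝ) T, eLpNorm
          (fun x => u (t, x) - W0 (s / 4 ^ N) (fun x => u (t, x)) x) 2 volume ^ 2)
        + 2 * (ENNReal.ofReal s * (9 * d ^ 2 * A))) := by
        rw [lintegral_add_left (((meas_diff mu _ two_ne_zero
          ENNReal.ofNat_ne_top).pow_const 2).const_mul 2), lintegral_const_mul' _ _ (by simp),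
          lintegral_const_mul' _ _ (by simp)]
        gcongr
    _ = _ := by
        have : ENNReal.ofReal s⁻¹ * ENNReal.ofReal s = 1 := by
          rw [← ENNReal.ofReal_mul (by positivity), inv_mul_cancel₀ hs.ne', ENNReal.ofReal_one]
        simp only [Function.comp]
        calc _ = ENNReal.ofReal s⁻¹ * 2 * (∫⁻ t in Ioo (0 : ℝ) T, eLpNorm
              (fun x => u (t, x) - W0 (s / 4 ^ N) (fun x => u (t, x)) x) 2 volume ^ 2)
            + 2 * (ENNReal.ofReal s⁻¹ * ENNReal.ofReal s * (9 * d ^ 2 * A)) := by ring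
          _ = _ := by rw [this, one_mul]

theorem enorm_tr2_le (R b : ℝ) : ‖tr2 R b‖ₑ ≤ ‖b‖ₑ := by
  unfold tr2
  split_ifs <;> simp

theorem slice_tr2 {f : Tor d → ℝ} (mf : Measurable f) {p : ℝ≥0∞} (hp : p ≠ 0) (hp' : p ≠ ⊤)
    (hf : eLpNorm f p volume ≠ ⊤) :
    Tendsto (fun R => eLpNorm (fun x => tr2 R (f x)) p volume ^ 2) atTop (𝓝 0) := by
  have p0 : 0 < p.toReal := ENNReal.toReal_pos hp hp'
  have h1 := tendsto_lintegral_filter_of_dominated_convergence
    (μ := (volume : Measure (Tor d))) (l := atTop)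
    (F := fun (R : ℝ) x => ‖tr2 R (f x)‖ₑ ^ p.toReal) (f := fun _ => 0)
    (fun x => ‖f x‖ₑ ^ p.toReal)
    (Eventually.of_forall fun R => ((measurable_tr2 R).comp mf).enorm.pow_const _)
    (Eventually.of_forall fun R => Eventually.of_forall fun x =>
      ENNReal.rpow_le_rpow (enorm_tr2_le _ _) p0.le)
    (lintegral_rpow_enorm_lt_top_of_eLpNorm_lt_top hp hp' hf.lt_top).ne
    (Eventually.of_forall fun x => tendsto_const_nhds.congr'
      ((eventually_ge_atTop |f x|).mono fun R hR => by simp [tr2, hR, p0]))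
  rw [lintegral_zero] at h1
  have h2 := ((ENNReal.continuous_rpow_const (y := 1 / p.toReal)).tendsto 0).comp h1
  rw [ENNReal.zero_rpow_of_pos (by positivity)] at h2
  have h3 := ENNReal.Tendsto.pow (n := 2) h2
  simp only [eLpNorm_eq_lintegral_rpow_enorm_toReal hp hp']
  simpa using h3

theorem time_tr2 {T : ℝ} {b : ℝ × Tor d → ℝ} (mb : Measurable b) {p : ℝ≥0∞} (hp : p ≠ 0)
    (hp' : p ≠ ⊤) (h : ∫⁻ t in Ioo (0 : ℝ) T, eLpNorm (fun x => b (t, x)) p volume ^ 2 ≠ ⊤) :
    Tendsto (fun R => ∫⁻ t in Ioo (0 : ℝ) T,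
      eLpNorm (fun x => tr2 R (b (t, x))) p volume ^ 2) atTop (𝓝 0) := by
  have := tendsto_lintegral_filter_of_dominated_convergence
    (μ := volume.restrict (Ioo (0 : ℝ) T)) (l := atTop)
    (F := fun (R : ℝ) t => eLpNorm (fun x => tr2 R (b (t, x))) p volume ^ 2)
    (f := fun _ => 0) (fun t => eLpNorm (fun x => b (t, x)) p volume ^ 2)
    (Eventually.of_forall fun R => (meas_eLp ((measurable_tr2 R).comp mb) hp hp').pow_const 2)
    (Eventually.of_forall fun R => Eventually.of_forall fun t =>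
      pow_le_pow_left' (eLpNorm_mono_enorm fun x => enorm_tr2_le _ _) 2) h
    ((ae_lt_top ((meas_eLp mb hp hp').pow_const 2) h).mono fun t ht =>
      slice_tr2 (mb.comp measurable_prodMk_left) hp hp' (ENNReal.pow_lt_top_iff.mp ht |>.resolve_right two_ne_zero).ne)
  simpa using this

end AdvDiff.Neg
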