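import Mathlib
import Pool.Agent.Lib.MP_0c2f33_an.NegTime

/-!
The energy bound, uniform in the truncation height.
-/

open MeasureTheory Set UnitAddTorus Filter Topology
open scoped ENNReal

namespace AdvDiff.Neg

variable {d : ℕ}

theorem energy_lower {T : ℝ} (hT : 0 < T) {u : ℝ × Tor d → ℝ} {b : Fin d → ℝ × Tor d → ℝ}
    {u₀ : Tor d → ℝ} (mu : Measurable u) (mb : ∀ l, Measurable (b l))
    (iu : Integrable u (cyl d T)) (iF : ∀ l, Integrable (fun z => b l z * u z) (cyl d T))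
    (h0 : MemLp u₀ 2 volume)
    (hO : ∀ᵐ t ∂(volume.restrict (Ioo (0 : ℝ) T)), ∀ k,
      co (sl u t) k = co (fun x => (u₀ x : ℂ)) k
        + ∫ τ in Ioo (0 : ℝ) t, zeta (fun x => u (τ, x)) (fun l x => b l (τ, x)) k)
    {M : ℝ} {β G G' : ℝ → ℝ} (hG : Trunc M β G G') {s : ℝ} (hs : 0 < s) :
    Integrable (fun t => ∫ x, G (W0 s (fun x => u (t, x)) x)
        * hh s (fun x => u (t, x)) (fun l x => b l (t, x)) x) (volume.restrict (Ioo (0 : ℝ) T)) ∧
      -(eLpNorm u₀ 2 volume ^ 2).toReal ≤ ∫ t in Ioo (0 : ℝ) T, ∫ x,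
        G (W0 s (fun x => u (t, x)) x) * hh s (fun x => u (t, x)) (fun l x => b l (t, x)) x := by
  have cG := hG.cG
  have cβ := hG.cβ
  have M0 : 0 ≤ M := (abs_nonneg _).trans (hG.bG 0)
  set a : ℝ → (Fin d → ℤ) → ℂ :=
    fun τ k => hm s k * zeta (fun x => u (τ, x)) (fun l x => b l (τ, x)) k with ha
  have ma : ∀ k, StronglyMeasurable fun τ => a τ k := fun k =>
    (((sm_co mu k).const_mul _).sub (Finset.stronglyMeasurable_fun_sum _ fun l _ =>
      (sm_co ((mb l).mul mu) k).const_mul _)).const_mul _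
  set g : ℝ → ℝ := fun τ => (∫ x, ‖u (τ, x)‖) + ∑ l, ∫ x, ‖b l (τ, x) * u (τ, x)‖ with hg
  have ig : Integrable g (volume.restrict (Ioo (0 : ℝ) T)) :=
    iu.integral_norm_prod_left.add (integrable_finsetSum _ fun l _ =>
      (iF l).integral_norm_prod_left)
  have hc : Summable fun k : Fin d → ℤ => (1 + lam k) * ‖hm s k‖ := by simpa using RD_hm hs 1
  have bd : ∀ τ k, ‖a τ k‖ ≤ (1 + lam k) * ‖hm s k‖ * g τ := by
    intro τ k
    have l0 := lam_nonneg k
    have h1 := norm_co_le (fun x => (u (τ, x) : ℂ)) k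
    have h2 := fun l => norm_co_le (fun x => ((b l (τ, x) * u (τ, x) : ℝ) : ℂ)) k
    simp only [Complex.norm_real] at h1 h2
    rw [ha, norm_mul, mul_comm (1 + lam k), mul_assoc]
    gcongr
    rw [zeta, hg, mul_add, Finset.mul_sum]
    refine (norm_sub_le _ _).trans (add_le_add ?_ ((norm_sum_le _ _).trans
      (Finset.sum_le_sum fun l _ => ?_)))
    · rw [norm_mul, norm_neg, Complex.norm_real, Real.norm_of_nonneg l0]
      gcongr
      linarith
    · rw [norm_mul]
      gcongr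
      · exact norm_dm_le l k
      · exact h2 l
  have iH := (Ker_integral ma hc ig (Eventually.of_forall bd)).1
  let ev : Tor d → C(Tor d, ℂ) →L[ℝ] ℝ := fun x => Complex.reCLM.comp (ContinuousMap.evalCLM ℝ x)
  have hev : ∀ τ x, hh s (fun x => u (τ, x)) (fun l x => b l (τ, x)) x = ev x (Ker (a τ)) :=
    fun τ x => rfl
  have rep : ∀ᵐ t ∂(volume.restrict (Ioo (0 : ℝ) T)), ∀ x, W0 s (fun x => u (t, x)) x
      = W0 s u₀ x + ∫ τ in Ioo (0 : ℝ) t, ev x (Ker (a τ)) := by
    filter_upwards [hO, ae_restrict_mem measurableSet_Ioo] with t hO ht x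
    have k := Ker_integral (μ := volume.restrict (Ioo (0 : ℝ) t)) ma hc
      (IntegrableOn.mono_set ig (Ioo_subset_Ioo_right ht.2.le)) (Eventually.of_forall bd)
    rw [ContinuousLinearMap.integral_comp_comm _ k.1, k.2.2]
    have e : S (hm s) (sl u t) = S (hm s) (fun x => (u₀ x : ℂ))
        + Ker fun k => ∫ τ in Ioo (0 : ℝ) t, a τ k := by
      rw [S, S, ← Ker_add (summable_mul_co (RD_hm hs).summable _) k.2.1]
      congr 1
      funext k
      rw [hO, mul_add, ha, integral_const_mul]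
    have e2 := congrArg (ev x) e
    rw [map_add] at e2
    exact e2
  have mh : Measurable fun z : ℝ × Tor d => ev z.2 (Ker (a z.1)) :=
    Complex.measurable_re.comp (meas_eval (sm_Ker ma))
  have iP : Integrable (fun z : ℝ × Tor d => G (W0 s (fun x => u (z.1, x)) z.2)
      * ev z.2 (Ker (a z.1))) ((volume.restrict (Ioo (0 : ℝ) T)).prod volume) := by
    refine ((iH.norm.const_mul M).comp_fst volume).mono'
      ((cG.measurable.comp (meas_W0 mu s)).mul mh).aestronglyMeasurable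
      (Eventually.of_forall fun z => ?_)
    rw [norm_mul]
    gcongr
    · exact hG.bG _
    · exact (Complex.abs_re_le_norm _).trans ((Ker (a z.1)).norm_coe_le_norm _)
  simp only [hev]
  refine ⟨iP.integral_prod_left, ?_⟩
  rw [integral_integral_swap iP]
  have i0 := h0.integrable one_le_two
  calc -(eLpNorm u₀ 2 volume ^ 2).toReal ≤ -∫ x, β (W0 s u₀ x) := by
        rw [neg_le_neg_iff]
        refine (ENNReal.ofReal_le_iff_le_toReal (ENNReal.pow_ne_top h0.2.ne)).mp ?_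
        rw [ofReal_integral_eq_lintegral_ofReal (integrable_cont (by fun_prop))
          (Eventually.of_forall fun x => hG.β0 _)]
        calc _ ≤ eLpNorm (W0 s u₀) 2 volume ^ 2 := by
              rw [sq_eLp]
              refine lintegral_mono fun x => ?_
              rw [enorm_sq]
              exact ENNReal.ofReal_le_ofReal (hG.β1 _)
          _ ≤ _ := pow_le_pow_left' ((young_Sr (RD_hm hs).summable i0 one_le_two
              (by simp)).trans (mul_le_of_le_one_left' (N1_hm hs))) 2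
    _ ≤ _ := by
        rw [← integral_neg]
        refine integral_mono (integrable_cont (by fun_prop)) iP.integral_prod_right fun x => ?_
        refine (chain_primitive hG hT.le (c := W0 s u₀ x) (h := fun τ => ev x (Ker (a τ)))
          ((ev x).integrable_comp iH)).trans (le_of_eq ?_)
        refine integral_congr_ae ?_
        filter_upwards [rep] with t ht
        rw [ht x]

theorem meas_Dd {G' : ℝ → ℝ} (h : Continuous G') {u : ℝ × Tor d → ℝ} (mu : Measurable u)
    (s : ℝ) : Measurable fun z : ℝ × Tor d => Dd G' s (fun x => u (z.1, x)) z.2 :=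
  (h.measurable.comp (meas_W0 mu s)).mul
    (Finset.measurable_sum _ fun j _ => (meas_W1 mu s j).pow_const 2)

theorem integrable_e {T : ℝ} {u : ℝ × Tor d → ℝ} (mu : Measurable u) {U : ℝ≥0∞} (hU : U ≠ ⊤)
    (h : ∀ᵐ t ∂(volume.restrict (Ioo (0 : ℝ) T)), eLpNorm (fun x => u (t, x)) 2 volume ≤ U)
    {M : ℝ} {β G G' : ℝ → ℝ} (hG : Trunc M β G G') {s : ℝ} (hs : 0 < s) :
    Integrable (fun t => ∫ x, Dd G' s (fun x => u (t, x)) x) (volume.restrict (Ioo (0 : ℝ) T)) := by
  have D0 : ∀ (f : Tor d → ℝ) x, 0 ≤ Dd G' s f x := fun f x =>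
    mul_nonneg (hG.G'0 _) (Finset.sum_nonneg fun _ _ => sq_nonneg _)
  refine ⟨(meas_Dd hG.cG' mu s).stronglyMeasurable.integral_prod_right'.aestronglyMeasurable, ?_⟩
  have s0 : ENNReal.ofReal s ≠ 0 := by simpa using hs
  have key : ∀ᵐ t ∂(volume.restrict (Ioo (0 : ℝ) T)), ‖∫ x, Dd G' s (fun x => u (t, x)) x‖ₑ
      ≤ ∑ _i : Fin d, (ENNReal.ofReal s)⁻¹ * U ^ 2 := by
    filter_upwards [h] with t ht
    refine (enorm_integral_le_lintegral_enorm _).trans ?_
    calc _ ≤ ∫⁻ x, ∑ i, ‖W1 s i (fun x => u (t, x)) x‖ₑ ^ 2 := by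
          refine lintegral_mono fun x => ?_
          simp only [enorm_sq]
          rw [← ENNReal.ofReal_sum_of_nonneg fun i _ => sq_nonneg _, Real.enorm_eq_ofReal (D0 _ _)]
          exact ENNReal.ofReal_le_ofReal (mul_le_of_le_one_left
            (Finset.sum_nonneg fun _ _ => sq_nonneg _) (hG.G'1 _))
      _ ≤ _ := by
          rw [lintegral_finsetSum _ fun i _ => by fun_prop]
          refine Finset.sum_le_sum fun i _ => ?_
          rw [← sq_eLp, ← ENNReal.mul_le_iff_le_inv s0 ENNReal.ofReal_ne_top]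
          exact (W1_two_le hs ((memLp_slice mu hU ht).integrable one_le_two) i).trans
            (pow_le_pow_left' ht 2)
  refine (lintegral_mono_ae key).trans_lt ?_
  rw [lintegral_const]
  have : (ENNReal.ofReal s)⁻¹ ≠ ⊤ := ENNReal.inv_ne_top.mpr s0
  simp only [Finset.sum_const, nsmul_eq_mul]
  finiteness

theorem rem_abs {μ : Measure ℝ} {f1 f4 : ℝ → ℝ≥0∞} {f2 f3 : Fin d → ℝ → ℝ≥0∞}
    {f5 : Fin d → Fin d → ℝ → ℝ≥0∞} (m1 : Measurable f1) (m2 : ∀ i, Measurable (f2 i))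
    (m3 : ∀ i, Measurable (f3 i)) (m4 : Measurable f4) (m5 : ∀ i j, Measurable (f5 i j))
    (a b c : ℝ≥0∞) :
    ∫⁻ t, (a * f1 t + b * ∑ i, f2 i t + c * ∑ i, f3 i t + f4 t + ∑ i, ∑ j, f5 i j t) ∂μ
      = a * ∫⁻ t, f1 t ∂μ + b * ∑ i, ∫⁻ t, f2 i t ∂μ + c * ∑ i, ∫⁻ t, f3 i t ∂μ
        + ∫⁻ t, f4 t ∂μ + ∑ i, ∑ j, ∫⁻ t, f5 i j t ∂μ := by
  rw [lintegral_add_left (by fun_prop), lintegral_add_left (by fun_prop),
    lintegral_add_left (by fun_prop), lintegral_add_left (by fun_prop),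
    lintegral_const_mul _ (by fun_prop), lintegral_const_mul _ (by fun_prop),
    lintegral_const_mul _ (by fun_prop), lintegral_finsetSum _ fun i _ => by fun_prop,
    lintegral_finsetSum _ fun i _ => by fun_prop, lintegral_finsetSum _ fun i _ => by fun_prop]
  congr 1
  exact Finset.sum_congr rfl fun i _ => lintegral_finsetSum _ fun j _ => by fun_prop

theorem rem_integral {T : ℝ} {u : ℝ × Tor d → ℝ} {b : Fin d → ℝ × Tor d → ℝ}
    (mu : Measurable u) (mb : ∀ l, Measurable (b l)) {p r U : ℝ≥0∞} (hp : p ≠ 0) (hp' : p ≠ ⊤)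
    (hr : r ≠ 0) (hr' : r ≠ ⊤) (M R s : ℝ) :
    ∫⁻ t in Ioo (0 : ℝ) T, Rem p r U M R s (fun x => u (t, x)) (fun l x => b l (t, x))
      = ENNReal.ofReal (R ^ 2) * (∫⁻ t in Ioo (0 : ℝ) T,
          eLpNorm (fun x => u (t, x) - W0 s (fun x => u (t, x)) x) 2 volume ^ 2)
        + ENNReal.ofReal (R ^ 2) * (∑ i, ∫⁻ t in Ioo (0 : ℝ) T,
          ENNReal.ofReal s * eLpNorm (W1 s i fun x => u (t, x)) 2 volume ^ 2)
        + (ENNReal.ofReal (M ^ 2) + ENNReal.ofReal M * U) * (∑ i, ∫⁻ t in Ioo (0 : ℝ) T,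
          eLpNorm (fun x => tr2 R (b i (t, x))) p volume ^ 2)
        + (∫⁻ t in Ioo (0 : ℝ) T, ENNReal.ofReal s⁻¹ *
          eLpNorm (fun x => u (t, x) - W0 s (fun x => u (t, x)) x) r volume ^ 2)
        + ∑ i, ∑ j, ∫⁻ t in Ioo (0 : ℝ) T,
          ENNReal.ofReal s * eLpNorm (W2 s i j fun x => u (t, x)) r volume ^ 2 := by
  have m1 := meas_diff mu s two_ne_zero ENNReal.ofNat_ne_top
  have m2 : ∀ i, Measurable fun t => eLpNorm (W1 s i fun x => u (t, x)) 2 volume := fun i =>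
    meas_eLp (meas_W1 mu s i) two_ne_zero ENNReal.ofNat_ne_top
  have m3 : ∀ i, Measurable fun t => eLpNorm (fun x => tr2 R (b i (t, x))) p volume := fun i =>
    meas_eLp ((measurable_tr2 R).comp (mb i)) hp hp'
  have m4 := meas_diff mu s hr hr'
  have m5 : ∀ i j, Measurable fun t => eLpNorm (W2 s i j fun x => u (t, x)) r volume :=
    fun i j => meas_eLp (meas_W2 mu s i j) hr hr'
  exact rem_abs (m1.pow_const 2) (fun i => ((m2 i).pow_const 2).const_mul _)
    (fun i => (m3 i).pow_const 2) ((m4.pow_const 2).const_mul _)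
    (fun i j => ((m5 i j).pow_const 2).const_mul _) _ _ _

theorem energy_bound {T : ℝ} (hT : 0 < T) {p q r U : ℝ≥0∞}
    [ENNReal.HolderTriple r p 1] [ENNReal.HolderTriple p q r] (hp2 : 2 ≤ p) (hp' : p ≠ ⊤)
    (hq2 : 2 ≤ q) (hq' : q ≠ ⊤) (hr2 : r ≤ 2) (hU : U ≠ ⊤)
    {u : ℝ × Tor d → ℝ} {b : Fin d → ℝ × Tor d → ℝ} {u₀ : Tor d → ℝ}
    (mu : Measurable u) (mb : ∀ l, Measurable (b l))
    (hu : ∀ᵐ t ∂(volume.restrict (Ioo (0 : ℝ) T)), eLpNorm (fun x => u (t, x)) q volume ≤ U)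
    (hb : ∀ l, ∫⁻ t in Ioo (0 : ℝ) T, eLpNorm (fun x => b l (t, x)) p volume ^ 2 ≠ ⊤)
    (iu : Integrable u (cyl d T)) (iF : ∀ l, Integrable (fun z => b l z * u z) (cyl d T))
    (h0 : MemLp u₀ 2 volume)
    (hO : ∀ᵐ t ∂(volume.restrict (Ioo (0 : ℝ) T)), ∀ k,
      co (sl u t) k = co (fun x => (u₀ x : ℂ)) k
        + ∫ τ in Ioo (0 : ℝ) t, zeta (fun x => u (τ, x)) (fun l x => b l (τ, x)) k)
    (hD : ∀ᵐ t ∂(volume.restrict (Ioo (0 : ℝ) T)), ∀ k,
      co (sl u t) k = hm t k * co (fun x => (u₀ x : ℂ)) k - ∑ l, ∫ τ in Ioo (0 : ℝ) t,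
        dm l k * hm (t - τ) k * co (sl (fun z => b l z * u z) τ) k)
    (hdiv : ∀ᵐ t ∂(volume.restrict (Ioo (0 : ℝ) T)), ∀ k, ∑ i, dm i k * co (sl (b i) t) k = 0) :
    ∃ K : ℝ, ∀ {M : ℝ} {β G G' : ℝ → ℝ}, Trunc M β G G' → ∀ᶠ s in 𝓝[>] (0 : ℝ),
      ∫⁻ t in Ioo (0 : ℝ) T, ENNReal.ofReal (∫ x, Dd G' s (fun x => u (t, x)) x)
        ≤ ENNReal.ofReal K := by
  have hr1 : 1 ≤ r := ENNReal.HolderConjugate.one_le r p
  have hr' : r ≠ ⊤ := ne_top_of_le_ne_top ENNReal.ofNat_ne_top hr2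
  have r0 : r ≠ 0 := (zero_lt_one.trans_le hr1).ne'
  have p0 : p ≠ 0 := (zero_lt_two.trans_le hp2).ne'
  have msl : ∀ {f : ℝ × Tor d → ℝ}, Measurable f → ∀ t, Measurable fun x => f (t, x) :=
    fun hf t => hf.comp measurable_prodMk_left
  have hu2 : ∀ᵐ t ∂(volume.restrict (Ioo (0 : ℝ) T)), eLpNorm (fun x => u (t, x)) 2 volume ≤ U :=
    hu.mono fun t ht => (eLpNorm_le_eLpNorm_of_exponent_le hq2
      (msl mu t).aestronglyMeasurable).trans ht
  have mbp : ∀ l, Measurable fun t => eLpNorm (fun x => b l (t, x)) p volume := fun l =>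
    meas_eLp (mb l) p0 hp'
  have hB : ∫⁻ τ in Ioo (0 : ℝ) T,
      (∑ l, eLpNorm (fun x => b l (τ, x) * u (τ, x)) r volume) ^ 2 ≠ ⊤ := by
    refine ne_top_of_le_ne_top (b := ∫⁻ τ in Ioo (0 : ℝ) T,
      d ^ 2 * U ^ 2 * ∑ l, eLpNorm (fun x => b l (τ, x)) p volume ^ 2) ?_
      (lintegral_mono_ae (hu.mono fun τ hτ => ?_))
    · rw [lintegral_const_mul _ (by fun_prop), lintegral_finsetSum _ fun l _ => by fun_prop]
      have : ∑ l, ∫⁻ t in Ioo (0 : ℝ) T, eLpNorm (fun x => b l (t, x)) p volume ^ 2 ≠ ⊤ :=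
        ENNReal.sum_ne_top.mpr fun l _ => hb l
      finiteness
    · set X := ∑ l, eLpNorm (fun x => b l (τ, x)) p volume ^ 2 with hX
      have h1 : ∀ l, eLpNorm (fun x => b l (τ, x) * u (τ, x)) r volume
          ≤ eLpNorm (fun x => b l (τ, x)) p volume * U := fun l =>
        (hold (p := p) (q := q) (msl (mb l) τ).aestronglyMeasurable
          (msl mu τ).aestronglyMeasurable).trans (by gcongr)
      have h2 : ∀ l l', eLpNorm (fun x => b l (τ, x)) p volume
          * eLpNorm (fun x => b l' (τ, x)) p volume ≤ X := by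
        intro l l'
        have a : ∀ l, eLpNorm (fun x => b l (τ, x)) p volume ^ 2 ≤ X := fun l =>
          Finset.single_le_sum (f := fun l => eLpNorm (fun x => b l (τ, x)) p volume ^ 2)
            (fun _ _ => zero_le) (Finset.mem_univ l)
        rcases le_total (eLpNorm (fun x => b l (τ, x)) p volume)
          (eLpNorm (fun x => b l' (τ, x)) p volume) with h | h
        · exact le_trans (by rw [sq]; gcongr) (a l')
        · exact le_trans (by rw [sq]; gcongr) (a l)
      rw [sq, Finset.sum_mul_sum]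
      calc _ ≤ ∑ _l : Fin d, ∑ _l' : Fin d, U ^ 2 * X := by
            refine Finset.sum_le_sum fun l _ => Finset.sum_le_sum fun l' _ => ?_
            refine (mul_le_mul' (h1 l) (h1 l')).trans ?_
            calc _ = U ^ 2 * (eLpNorm (fun x => b l (τ, x)) p volume
                  * eLpNorm (fun x => b l' (τ, x)) p volume) := by ring
              _ ≤ _ := mul_le_mul_right (h2 l l') _
        _ = _ := by
            simp only [Finset.sum_const, Finset.card_univ, Fintype.card_fin, nsmul_eq_mul]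
            ring
  obtain ⟨A, hA, hΘ⟩ := exists_theta (h0.integrable one_le_two) (fun l => (mb l).mul mu) iF hr1 hr'
    (h0.mono_exponent hr2).2.ne hB hD
  obtain ⟨C, hC, hS⟩ := slice_bound d
  set K1 : ℝ≥0∞ := C * (1 + 1 + 1 + 2 * (9 * d ^ 2 * A) + d * (d * A)) with hK1
  have K1t : K1 ≠ ⊤ := by
    rw [hK1]
    finiteness
  refine ⟨2 * (K1.toReal + (eLpNorm u₀ 2 volume ^ 2).toReal), fun {M β G G'} hG => ?_⟩
  have l3 := ENNReal.Tendsto.const_mul (a := ENNReal.ofReal (M ^ 2) + ENNReal.ofReal M * U)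
    (tendsto_finsetSum Finset.univ fun i _ => time_tr2 (mb i) p0 hp' (hb i))
    (Or.inr (by finiteness))
  simp only [Finset.sum_const_zero, mul_zero] at l3
  obtain ⟨R, hR3, hR⟩ := ((l3.eventually (ge_mem_nhds zero_lt_one)).and
    (eventually_ge_atTop (0 : ℝ))).exists
  have l1 := ENNReal.Tendsto.const_mul (a := ENNReal.ofReal (R ^ 2)) (time_W0 mu hU hu2)
    (Or.inr ENNReal.ofReal_ne_top)
  have l2 := ENNReal.Tendsto.const_mul (a := ENNReal.ofReal (R ^ 2))
    (tendsto_finsetSum Finset.univ fun i _ => time_W1 mu hU hu2 i) (Or.inr ENNReal.ofReal_ne_top)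
  simp only [Finset.sum_const_zero, mul_zero] at l1 l2
  filter_upwards [l1.eventually (ge_mem_nhds zero_lt_one), l2.eventually (ge_mem_nhds zero_lt_one),
    self_mem_nhdsWithin] with s h1 h2 hs
  have hs : 0 < s := hs
  have hRem : C * ∫⁻ t in Ioo (0 : ℝ) T,
      Rem p r U M R s (fun x => u (t, x)) (fun l x => b l (t, x)) ≤ K1 := by
    rw [rem_integral mu mb p0 hp' r0 hr', hK1]
    gcongr
    · exact time_diff mu hU hu2 hr1 hr2 hΘ hs
    · obtain ⟨Θ, -, iΘ, bΘ⟩ := hΘ s hs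
      calc _ ≤ ∑ _i : Fin d, ∑ _j : Fin d, A := by
            refine Finset.sum_le_sum fun i _ => Finset.sum_le_sum fun j _ => le_trans
              (lintegral_mono_ae (bΘ.mono fun t ht => ?_)) iΘ
            gcongr
            exact (eLpNorm_Sr_le_S _ _ _).trans (ht s le_rfl i j)
        _ = _ := by simp
  obtain ⟨iJ, hJ⟩ := energy_lower hT mu mb iu iF h0 hO hG hs
  have ie := integrable_e mu hU hu2 hG hs
  have e0 : ∀ t, 0 ≤ ∫ x, Dd G' s (fun x => u (t, x)) x := fun t => integral_nonneg fun x =>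
    mul_nonneg (hG.G'0 _) (Finset.sum_nonneg fun _ _ => sq_nonneg _)
  set J : ℝ → ℝ := fun t => ∫ x, G (W0 s (fun x => u (t, x)) x)
    * hh s (fun x => u (t, x)) (fun l x => b l (t, x)) x with hJdef
  set e : ℝ → ℝ := fun t => ∫ x, Dd G' s (fun x => u (t, x)) x with he
  have hfin : ∀ᵐ t ∂(volume.restrict (Ioo (0 : ℝ) T)), ∀ l,
      eLpNorm (fun x => b l (t, x)) p volume ^ 2 < ⊤ :=
    ae_all_iff.mpr fun l => ae_lt_top ((mbp l).pow_const 2) (hb l)
  have hFs : ∀ᵐ t ∂(volume.restrict (Ioo (0 : ℝ) T)), ∀ l,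
      Integrable fun x => b l (t, x) * u (t, x) := ae_all_iff.mpr fun l => (iF l).prod_right_ae
  have main : ENNReal.ofReal (∫ t in Ioo (0 : ℝ) T, (J t + e t))
      ≤ ENNReal.ofReal ((∫ t in Ioo (0 : ℝ) T, e t) / 2 + K1.toReal) := by
    calc _ ≤ ∫⁻ t in Ioo (0 : ℝ) T, ENNReal.ofReal (J t + e t) := by
          rw [integral_eq_lintegral_pos_part_sub_lintegral_neg_part
            (f := fun t => J t + e t) (iJ.add ie)]
          refine (ENNReal.ofReal_le_ofReal (sub_le_self _ ENNReal.toReal_nonneg)).trans ?_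
          exact ENNReal.ofReal_toReal_le
      _ ≤ ∫⁻ t in Ioo (0 : ℝ) T, (ENNReal.ofReal (e t / 2)
            + C * Rem p r U M R s (fun x => u (t, x)) (fun l x => b l (t, x))) := by
          refine lintegral_mono_ae ?_
          filter_upwards [hu, hu2, hfin, hFs, hdiv] with t a1 a2 a3 a4 a5
          exact hS (one_le_two.trans hq2) hq' hG hs hR (msl mu t) (fun l => msl (mb l) t)
            ((memLp_slice mu hU a2).integrable one_le_two) a1
            (fun l => MemLp.mono_exponent ⟨(msl (mb l) t).aestronglyMeasurable,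
              (ENNReal.pow_lt_top_iff.mp (a3 l)).resolve_right two_ne_zero⟩ hp2) a4 a5
      _ ≤ _ := by
          rw [lintegral_add_left' (ie.div_const 2).aemeasurable.ennreal_ofReal,
            lintegral_const_mul' _ _ hC, ← ofReal_integral_eq_lintegral_ofReal (ie.div_const 2)
              (Eventually.of_forall fun t => div_nonneg (e0 t) zero_le_two), integral_div,
            ENNReal.ofReal_add (div_nonneg (integral_nonneg e0) zero_le_two) ENNReal.toReal_nonneg,
            ENNReal.ofReal_toReal K1t]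
          gcongr
  rw [ENNReal.ofReal_le_ofReal_iff (add_nonneg (div_nonneg (integral_nonneg e0) zero_le_two)
    ENNReal.toReal_nonneg), integral_add iJ ie] at main
  rw [← ofReal_integral_eq_lintegral_ofReal ie (Eventually.of_forall e0)]
  refine ENNReal.ofReal_le_ofReal ?_
  linarith

end AdvDiff.Neg
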