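import Mathlib
import Pool.Agent.Lib.MP_0c2f33_an.NegKer

/-!
Smooth test functions and the Fourier-mode form of the weak equation.
-/

open MeasureTheory Set UnitAddTorus Filter Topology
open scoped ENNReal ComplexConjugate

namespace AdvDiff.Neg

variable {d : ℕ}

theorem o_quot :
    IsOpenQuotientMap (fun z : ℝ × (Fin d → ℝ) => ((z.1, pr z.2) : ℝ × Tor d)) :=
  IsOpenQuotientMap.id.prodMap
    (IsOpenQuotientMap.piMap fun _ : Fin d => QuotientAddGroup.isOpenQuotientMap_mk)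

theorem o_pr_surj (x : Tor d) : ∃ v, pr v = x := by
  obtain ⟨z, hz⟩ := (o_quot (d := d)).surjective ((0 : ℝ), x)
  exact ⟨z.2, congrArg Prod.snd hz⟩

/-- (1) smooth test functions: continuity and line derivatives. -/
theorem smooth_continuous {φ : ℝ × Tor d → ℝ} (hφ : Smooth φ) : Continuous φ :=
  (o_quot.continuous_comp_iff).mp hφ.continuous

theorem o_line {φ : ℝ × Tor d → ℝ} (hφ : Smooth φ) (i : Fin d) (t : ℝ) (v : Fin d → ℝ) :
    HasDerivAt (fun θ : ℝ => φ (t, pr v + Pi.single i ((θ : ℝ) : UnitAddCircle)))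
      (fderiv ℝ (fun z : ℝ × (Fin d → ℝ) => φ (z.1, pr z.2)) (t, v)
        ((0 : ℝ), (Pi.single i (1 : ℝ) : Fin d → ℝ))) 0 := by
  have hΦ : ContDiff ℝ ((⊤ : ℕ∞) : WithTop ℕ∞)
      (fun z : ℝ × (Fin d → ℝ) => φ (z.1, pr z.2)) := hφ
  have h1 : HasDerivAt (fun θ : ℝ => ((t, v + θ • (Pi.single i (1 : ℝ) : Fin d → ℝ)) :
      ℝ × (Fin d → ℝ))) ((0 : ℝ), (Pi.single i (1 : ℝ) : Fin d → ℝ)) 0 := by
    refine (hasDerivAt_const _ _).prodMk ?_
    simpa using ((hasDerivAt_id (0 : ℝ)).smul_const (Pi.single i (1 : ℝ) : Fin d → ℝ)).const_add v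
  have h2 := ((hΦ.differentiable (by simp)) (t, v)).hasFDerivAt
  have h3 := HasFDerivAt.comp_hasDerivAt_of_eq (0 : ℝ) h2 h1 (by simp)
  convert! h3 using 1
  funext θ
  simp only [Function.comp, pr_add, pr_single]

theorem smooth_continuous_dX {φ : ℝ × Tor d → ℝ} (hφ : Smooth φ) (i : Fin d) :
    Continuous (dX i φ) := by
  have hΦ : ContDiff ℝ ((⊤ : ℕ∞) : WithTop ℕ∞)
      (fun z : ℝ × (Fin d → ℝ) => φ (z.1, pr z.2)) := hφ
  refine (o_quot.continuous_comp_iff).mp ?_
  have h1 : Continuous fun w : ℝ × (Fin d → ℝ) =>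
      fderiv ℝ (fun z : ℝ × (Fin d → ℝ) => φ (z.1, pr z.2)) w
        ((0 : ℝ), (Pi.single i (1 : ℝ) : Fin d → ℝ)) :=
    (hΦ.continuous_fderiv (by simp)).clm_apply continuous_const
  convert h1 using 1
  funext w
  exact (o_line hφ i w.1 w.2).deriv

theorem smooth_hasLD {φ : ℝ × Tor d → ℝ} (hφ : Smooth φ) (i : Fin d) (t : ℝ) :
    HasLD i (fun x => φ (t, x)) (fun x => dX i φ (t, x)) := fun x => by
  obtain ⟨v, rfl⟩ := o_pr_surj x
  exact (o_line hφ i t v).differentiableAt.hasDerivAt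

theorem o_int_mode {T : ℝ} {f : ℝ × Tor d → ℝ} (hf : Integrable f (cyl d T))
    (k : Fin d → ℤ) :
    Integrable (fun z : ℝ × Tor d => mFourier (-k) z.2 * (f z : ℂ)) (cyl d T) :=
  hf.ofReal.bdd_mul (c := 1) (Continuous.aestronglyMeasurable (by fun_prop))
    (Eventually.of_forall fun z => (norm_mF _ _).le)

/-- (2) Fourier coefficients of time slices are integrable in time. -/
theorem integrable_co_sl {T : ℝ} {f : ℝ × Tor d → ℝ} (hf : Integrable f (cyl d T))
    (k : Fin d → ℤ) : Integrable (fun t => co (sl f t) k) (volume.restrict (Ioo (0 : ℝ) T)) :=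
  (o_int_mode hf k).integral_prod_left

theorem o_bdd {T : ℝ} {ρ : ℝ → ℂ} (hρ : Continuous ρ) :
    ∃ C, ∀ s ∈ Ioo (0 : ℝ) T, ‖ρ s‖ ≤ C := by
  obtain ⟨C, hC⟩ := (isCompact_Icc (a := (0 : ℝ)) (b := T)).exists_bound_of_continuousOn
    hρ.continuousOn
  exact ⟨C, fun s hs => hC s (Ioo_subset_Icc_self hs)⟩

theorem o_int_time {T : ℝ} {ρ a : ℝ → ℂ} (hρ : Continuous ρ)
    (ha : Integrable a (volume.restrict (Ioo (0 : ℝ) T))) :
    Integrable (fun s => ρ s * a s) (volume.restrict (Ioo (0 : ℝ) T)) := by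
  obtain ⟨C, hC⟩ := o_bdd (T := T) hρ
  exact ha.bdd_mul (c := C) hρ.aestronglyMeasurable
    ((ae_restrict_mem measurableSet_Ioo).mono hC)

theorem o_int_term {T : ℝ} {f : ℝ × Tor d → ℝ} (hf : Integrable f (cyl d T))
    (k : Fin d → ℤ) {ρ : ℝ → ℂ} (hρ : Continuous ρ) :
    Integrable (fun z : ℝ × Tor d => ρ z.1 * (mFourier (-k) z.2 * (f z : ℂ))) (cyl d T) := by
  obtain ⟨C, hC⟩ := o_bdd (T := T) hρ
  have h1 : ∀ᵐ z ∂(cyl d T), z.1 ∈ Ioo (0 : ℝ) T :=
    Measure.quasiMeasurePreserving_fst.ae (ae_restrict_mem measurableSet_Ioo)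
  exact (o_int_mode hf k).bdd_mul (c := C) (Continuous.aestronglyMeasurable (by fun_prop))
    (h1.mono fun z hz => hC _ hz)

theorem o_integral_term {T : ℝ} {f : ℝ × Tor d → ℝ} (hf : Integrable f (cyl d T))
    (k : Fin d → ℤ) {ρ : ℝ → ℂ} (hρ : Continuous ρ) :
    ∫ z, ρ z.1 * (mFourier (-k) z.2 * (f z : ℂ)) ∂(cyl d T)
      = ∫ s in Ioo (0 : ℝ) T, ρ s * co (sl f s) k := by
  have h := integral_prod _ (o_int_term hf k hρ)
  rw [cyl, h]
  simp only [integral_const_mul, co, sl]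

theorem o_supp {T : ℝ} {ψ : ℝ → ℝ} (hc : HasCompactSupport ψ) (hs : tsupport ψ ⊆ Ioo 0 T) :
    (∃ T' < T, ∀ s, T' ≤ s → ψ s = 0) ∧ ∃ a > (0 : ℝ), ∀ s, s ≤ a → ψ s = 0 := by
  rcases (tsupport ψ).eq_empty_or_nonempty with h | h
  · have h0 : ∀ s, ψ s = 0 := fun s => image_eq_zero_of_notMem_tsupport (by simp [h])
    exact ⟨⟨T - 1, by linarith, fun s _ => h0 s⟩, ⟨1, one_pos, fun s _ => h0 s⟩⟩
  · obtain ⟨M, hM⟩ := IsCompact.exists_isGreatest hc h
    obtain ⟨m, hm⟩ := IsCompact.exists_isLeast hc h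
    have h1 := (hs hM.1).2
    have h2 := (hs hm.1).1
    refine ⟨⟨(M + T) / 2, by linarith, fun s hs' => image_eq_zero_of_notMem_tsupport fun h' => ?_⟩,
      ⟨m / 2, by linarith, fun s hs' => image_eq_zero_of_notMem_tsupport fun h' => ?_⟩⟩
    · have := hM.2 h'
      linarith
    · have := hm.2 h'
      linarith

/-- Functions orthogonal to all interior test functions vanish. -/
theorem o_zero {T : ℝ} {w : ℝ → ℂ} (hw : Integrable w (volume.restrict (Ioo (0 : ℝ) T)))
    (h : ∀ ψ : ℝ → ℝ, ContDiff ℝ ((⊤ : ℕ∞) : WithTop ℕ∞) ψ → (∃ T' < T, ∀ s, T' ≤ s → ψ s = 0) →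
      (∃ a > (0 : ℝ), ∀ s, s ≤ a → ψ s = 0) → ∫ s in Ioo (0 : ℝ) T, (ψ s : ℂ) * w s = 0) :
    ∀ᵐ t ∂(volume.restrict (Ioo (0 : ℝ) T)), w t = 0 := by
  rw [ae_restrict_iff' measurableSet_Ioo]
  refine isOpen_Ioo.ae_eq_zero_of_integral_contDiff_smul_eq_zero
    (IntegrableOn.locallyIntegrableOn hw) fun ψ hψ hc hs => ?_
  obtain ⟨h1, h2⟩ := o_supp hc hs
  rw [← h ψ hψ h1 h2, setIntegral_eq_integral_of_forall_compl_eq_zero]
  · simp only [Complex.real_smul]
  · intro x hx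
    have : ψ x = 0 := image_eq_zero_of_notMem_tsupport fun h' => hx (hs h')
    simp [this]

theorem o_fubini {T : ℝ} {ρ z : ℝ → ℂ} (hρ : Integrable ρ (volume.restrict (Ioo (0 : ℝ) T)))
    (hz : Integrable z (volume.restrict (Ioo (0 : ℝ) T))) :
    Integrable (fun t => ρ t * ∫ s in Ioo (0 : ℝ) t, z s) (volume.restrict (Ioo (0 : ℝ) T)) ∧
    ∫ t in Ioo (0 : ℝ) T, ρ t * ∫ s in Ioo (0 : ℝ) t, z s
      = ∫ s in Ioo (0 : ℝ) T, (∫ t in Ioo s T, ρ t) * z s := by
  have hm : MeasurableSet {p : ℝ × ℝ | p.2 < p.1} := measurableSet_lt measurable_snd measurable_fst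
  have hF := (hρ.mul_prod hz).indicator hm
  have e1 : ∀ t ∈ Ioo (0 : ℝ) T, ∫ s in Ioo (0 : ℝ) T,
      indicator {p : ℝ × ℝ | p.2 < p.1} (fun p => ρ p.1 * z p.2) (t, s)
        = ρ t * ∫ s in Ioo (0 : ℝ) t, z s := by
    intro t ht
    have : (fun s => indicator {p : ℝ × ℝ | p.2 < p.1} (fun p => ρ p.1 * z p.2) (t, s))
        = indicator (Iio t) (fun s => ρ t * z s) := by
      funext s
      by_cases hs : s < t <;> simp [indicator, hs]
    rw [this, setIntegral_indicator measurableSet_Iio, integral_const_mul]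
    congr 3
    ext s
    simp only [mem_inter_iff, mem_Ioo, mem_Iio]
    constructor
    · exact fun h => ⟨h.1.1, h.2⟩
    · exact fun h => ⟨⟨h.1, h.2.trans ht.2⟩, h.2⟩
  have e2 : ∀ s ∈ Ioo (0 : ℝ) T, ∫ t in Ioo (0 : ℝ) T,
      indicator {p : ℝ × ℝ | p.2 < p.1} (fun p => ρ p.1 * z p.2) (t, s)
        = (∫ t in Ioo s T, ρ t) * z s := by
    intro s hs
    have : (fun t => indicator {p : ℝ × ℝ | p.2 < p.1} (fun p => ρ p.1 * z p.2) (t, s))
        = indicator (Ioi s) (fun t => ρ t * z s) := by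
      funext t
      by_cases ht : s < t <;> simp [indicator, ht]
    rw [this, setIntegral_indicator measurableSet_Ioi, integral_mul_const]
    congr 3
    ext t
    simp only [mem_inter_iff, mem_Ioo, mem_Ioi]
    constructor
    · exact fun h => ⟨h.2, h.1.2⟩
    · exact fun h => ⟨⟨hs.1.trans h.1, h.2⟩, h.1⟩
  refine ⟨hF.integral_prod_left.congr ((ae_restrict_mem measurableSet_Ioo).mono e1), ?_⟩
  rw [← setIntegral_congr_fun measurableSet_Ioo e1, ← setIntegral_congr_fun measurableSet_Ioo e2]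
  exact integral_integral_swap (f := fun t s =>
    indicator {p : ℝ × ℝ | p.2 < p.1} (fun p => ρ p.1 * z p.2) (t, s)) hF

/-- The lemma of du Bois-Reymond with an initial value. -/
theorem o_dbr {T : ℝ} (hT : 0 < T) {a z : ℝ → ℂ} {a0 : ℂ}
    (ha : Integrable a (volume.restrict (Ioo (0 : ℝ) T)))
    (hz : Integrable z (volume.restrict (Ioo (0 : ℝ) T)))
    (h : ∀ η : ℝ → ℝ, ContDiff ℝ ((⊤ : ℕ∞) : WithTop ℕ∞) η → (∃ T' < T, ∀ s, T' ≤ s → η s = 0) →
      (∫ s in Ioo (0 : ℝ) T, (((deriv η s : ℝ) : ℂ) * a s + (η s : ℂ) * z s))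
        + (η 0 : ℂ) * a0 = 0) :
    ∀ᵐ t ∂(volume.restrict (Ioo (0 : ℝ) T)), a t = a0 + ∫ τ in Ioo (0 : ℝ) t, z τ := by
  have hone : Integrable (fun _ : ℝ => (1 : ℂ)) (volume.restrict (Ioo (0 : ℝ) T)) :=
    integrable_const _
  have hZ : Integrable (fun t => ∫ s in Ioo (0 : ℝ) t, z s) (volume.restrict (Ioo (0 : ℝ) T)) := by
    simpa using (o_fubini hone hz).1
  have hc : Integrable (fun _ : ℝ => a0) (volume.restrict (Ioo (0 : ℝ) T)) := integrable_const _
  have key := o_zero (T := T) (w := fun t => a t - (a0 + ∫ τ in Ioo (0 : ℝ) t, z τ))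
    (ha.sub (hc.add hZ)) ?_
  · exact key.mono fun t ht => sub_eq_zero.mp ht
  intro ψ hψ ⟨T', hT', h0⟩ _
  have hψc : Continuous ψ := hψ.continuous
  have hψC : Continuous fun s => (ψ s : ℂ) := by fun_prop
  have hder : ∀ s, HasDerivAt (fun τ => ∫ x in τ..T, ψ x) (-ψ s) s := fun s =>
    intervalIntegral.integral_hasDerivAt_left (hψc.intervalIntegrable _ _)
      (hψc.stronglyMeasurableAtFilter _ _) hψc.continuousAt
  have hd : deriv (fun τ => ∫ x in τ..T, ψ x) = fun s => -ψ s := funext fun s => (hder s).deriv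
  have hη : ContDiff ℝ ((⊤ : ℕ∞) : WithTop ℕ∞) (fun τ => ∫ x in τ..T, ψ x) := by
    rw [contDiff_infty_iff_deriv, hd]
    exact ⟨fun s => (hder s).differentiableAt, hψ.neg⟩
  have hv : ∀ s, T' ≤ s → ∫ x in s..T, ψ x = 0 := fun s hs => by
    rw [intervalIntegral.integral_congr (g := fun _ => (0 : ℝ))]
    · simp
    · intro x hx
      refine h0 x (le_trans ?_ hx.1)
      exact le_inf hs hT'.le
  have h1 := h _ hη ⟨T', hT', hv⟩
  rw [hd] at h1
  have e : ∀ s, s ≤ T → (((∫ x in s..T, ψ x : ℝ)) : ℂ) = ∫ t in Ioo s T, (ψ t : ℂ) := fun s hs => by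
    rw [intervalIntegral.integral_of_le hs, integral_Ioc_eq_integral_Ioo, integral_complex_ofReal]
  have hψi : Integrable (fun s => (ψ s : ℂ)) (volume.restrict (Ioo (0 : ℝ) T)) := by
    simpa using o_int_time hψC hone
  obtain ⟨i1, i2⟩ := o_fubini hψi hz
  have hηC : Continuous fun s => (((∫ x in s..T, ψ x : ℝ)) : ℂ) :=
    Complex.continuous_ofReal.comp hη.continuous
  rw [integral_add (o_int_time (ρ := fun s => ((-ψ s : ℝ) : ℂ)) (by fun_prop) ha)
    (o_int_time hηC hz), e 0 hT.le,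
    setIntegral_congr_fun measurableSet_Ioo
      (f := fun s => (((∫ x in s..T, ψ x : ℝ)) : ℂ) * z s)
      (g := fun s => (∫ t in Ioo s T, (ψ t : ℂ)) * z s) (fun s hs => by simp only [e s hs.2.le]),
    ← i2] at h1
  simp only [mul_sub, mul_add]
  have i3 : Integrable (fun s => (ψ s : ℂ) * a0 + (ψ s : ℂ) * ∫ τ in Ioo (0 : ℝ) s, z τ)
      (volume.restrict (Ioo (0 : ℝ) T)) := (o_int_time hψC hc).add i1
  rw [integral_sub (o_int_time hψC ha) i3,
    integral_add (o_int_time hψC hc) i1, integral_mul_const]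
  simp only [Complex.ofReal_neg, neg_mul, integral_neg] at h1
  linear_combination -h1

/-- Product test function. -/
noncomputable def oTest (η : ℝ → ℝ) (c : ℂ) (k : Fin d → ℤ) (z : ℝ × Tor d) : ℝ :=
  η z.1 * (c * mFourier k z.2).re

theorem o_test_smooth {η : ℝ → ℝ} (hη : ContDiff ℝ ((⊤ : ℕ∞) : WithTop ℕ∞) η) (c : ℂ)
    (k : Fin d → ℤ) : Smooth (oTest η c k) := by
  change ContDiff ℝ _ (fun z : ℝ × (Fin d → ℝ) => η z.1 * (c * mFourier k (pr z.2)).re)
  simp only [mF_pr]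
  refine (hη.comp contDiff_fst).mul (Complex.reCLM.contDiff.comp (contDiff_const.mul ?_))
  refine (Complex.contDiff_exp (𝕜 := ℝ)).comp (ContDiff.sum fun i _ => ?_)
  exact (Complex.ofRealCLM.contDiff.comp ((contDiff_apply ℝ ℝ i).comp contDiff_snd)).mul
    contDiff_const

theorem o_test_dT (η : ℝ → ℝ) (c : ℂ) (k : Fin d → ℤ) :
    dT (oTest η c k) = oTest (deriv η) c k := by
  funext z
  simp only [dT, oTest, deriv_mul_const_field]

theorem o_test_dX (η : ℝ → ℝ) (c : ℂ) (k : Fin d → ℤ) (i : Fin d) :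
    dX i (oTest η c k) = oTest η (c * dm i k) k := by
  funext z
  have h1 : HasLD i (fun x => (c * mFourier k x).re) (fun x => (c * dm i k * mFourier k x).re) := by
    refine HasLD.re fun x => ?_
    simpa only [mul_assoc] using (hasLD_mF k i x).const_mul c
  exact ((h1 z.2).const_mul (η z.1)).deriv

theorem o_test_lap (η : ℝ → ℝ) (c : ℂ) (k : Fin d → ℤ) :
    lap (oTest η c k) = oTest η (c * -(lam k : ℂ)) k := by
  funext z
  simp only [lap, o_test_dX, oTest]
  rw [← Finset.mul_sum, ← Complex.re_sum, ← Finset.sum_mul, ← sum_dm_sq, Finset.mul_sum]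
  simp only [mul_assoc]

theorem o_re_zero {w : ℂ} (h : ∀ c : ℂ, (c * w).re = 0) : w = 0 := by
  have h1 := h 1
  have h2 := h Complex.I
  apply Complex.ext <;> simp_all

theorem o_integral_re {α : Type} [MeasurableSpace α] {μ : Measure α} {G : α → ℂ}
    (hG : Integrable G μ) (c : ℂ) : ∫ z, (c * G z).re ∂μ = (c * ∫ z, G z ∂μ).re := by
  rw [← integral_const_mul]
  exact Complex.reCLM.integral_comp_comm (hG.const_mul c)

/-- The weak equation tested against a Fourier mode. -/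
theorem o_weak {T : ℝ} {b : Fin d → ℝ × Tor d → ℝ} {u₀ : Tor d → ℝ}
    {u : ℝ × Tor d → ℝ} (hu : Integrable u (cyl d T))
    (hF : ∀ l, Integrable (fun z => b l z * u z) (cyl d T)) (h0 : Integrable u₀)
    (hsol : IsSolution T b u₀ u) (k : Fin d → ℤ) (η : ℝ → ℝ)
    (hη : ContDiff ℝ ((⊤ : ℕ∞) : WithTop ℕ∞) η) (hv : ∃ T' < T, ∀ s, T' ≤ s → η s = 0) :
    (∫ s in Ioo (0 : ℝ) T, (((deriv η s : ℝ) : ℂ) * co (sl u s) k + (η s : ℂ) *
      (-(lam k : ℂ) * co (sl u s) k - ∑ l, dm l k * co (sl (fun z => b l z * u z) s) k)))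
        + (η 0 : ℂ) * co (fun x => (u₀ x : ℂ)) k = 0 := by
  have hc : Continuous η := hη.continuous
  have hc' : Continuous (deriv η) := hη.continuous_deriv (by simp)
  have c1 : Continuous fun s => ((deriv η s : ℝ) : ℂ) - (η s : ℂ) * (lam k : ℂ) := by fun_prop
  have c2 : ∀ l, Continuous fun s => (η s : ℂ) * dm l k := fun l => by fun_prop
  have e1 : (∫ s in Ioo (0 : ℝ) T, (((deriv η s : ℝ) : ℂ) * co (sl u s) k + (η s : ℂ) *
      (-(lam k : ℂ) * co (sl u s) k - ∑ l, dm l k * co (sl (fun z => b l z * u z) s) k)))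
      = ∫ z, ((((deriv η z.1 : ℝ) : ℂ) - (η z.1 : ℂ) * (lam k : ℂ))
          * (mFourier (-k) z.2 * (u z : ℂ))
        - ∑ l, ((η z.1 : ℂ) * dm l k) * (mFourier (-k) z.2 * ((b l z * u z : ℝ) : ℂ)))
          ∂(cyl d T) := by
    rw [integral_sub (o_int_term hu k c1)
        (integrable_finsetSum _ fun l _ => o_int_term (hF l) k (c2 l)),
      integral_finsetSum _ fun l _ => o_int_term (hF l) k (c2 l), o_integral_term hu k c1,
      Finset.sum_congr rfl fun l _ => o_integral_term (hF l) k (c2 l),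
      ← integral_finsetSum _ fun l _ => o_int_time (c2 l) (integrable_co_sl (hF l) k),
      ← integral_sub (o_int_time c1 (integrable_co_sl hu k))
        (integrable_finsetSum _ fun l _ => o_int_time (c2 l) (integrable_co_sl (hF l) k))]
    refine integral_congr_ae (Eventually.of_forall fun s => ?_)
    simp only [mul_sub, Finset.mul_sum, mul_assoc]
    ring
  rw [e1]
  refine o_re_zero fun c => ?_
  obtain ⟨T', hT', hv⟩ := hv
  have h1 := hsol (oTest η c (-k)) ⟨o_test_smooth hη c _, T', hT', fun z hz => by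
    simp [oTest, hv z.1 hz]⟩
  have i3 : Integrable (fun z : ℝ × Tor d => (((deriv η z.1 : ℝ) : ℂ) - (η z.1 : ℂ) * (lam k : ℂ))
          * (mFourier (-k) z.2 * (u z : ℂ))
        - ∑ l, ((η z.1 : ℂ) * dm l k) * (mFourier (-k) z.2 * ((b l z * u z : ℝ) : ℂ)))
          (cyl d T) := (o_int_term hu k c1).sub
    (integrable_finsetSum _ fun l _ => o_int_term (hF l) k (c2 l))
  have i4 : Integrable fun x : Tor d => (η 0 : ℂ) * (mFourier (-k) x * (u₀ x : ℂ)) :=
    (integrable_cmul h0.ofReal (by fun_prop)).const_mul _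
  have e4 : (c * ((η 0 : ℂ) * co (fun x => (u₀ x : ℂ)) k)).re
      = ∫ x : Tor d, (c * ((η 0 : ℂ) * (mFourier (-k) x * (u₀ x : ℂ)))).re := by
    rw [o_integral_re i4, integral_const_mul]
    rfl
  rw [mul_add, Complex.add_re, ← o_integral_re i3, e4]
  refine Eq.trans ?_ h1
  congr 1
  · refine integral_congr_ae (Eventually.of_forall fun z => ?_)
    simp only [o_test_dT, o_test_dX, o_test_lap, oTest, lam_neg, dm_neg, mul_sub, Finset.mul_sum,
      Complex.sub_re, Complex.re_sum, mul_add, Pi.sub_apply]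
    have e2 : ∀ l, (c * ((η z.1 : ℂ) * dm l k * (mFourier (-k) z.2 * ((b l z * u z : ℝ) : ℂ)))).re
        = -(u z * (b l z * (η z.1 * (c * -dm l k * mFourier (-k) z.2).re))) := fun l => by
      have : c * ((η z.1 : ℂ) * dm l k * (mFourier (-k) z.2 * ((b l z * u z : ℝ) : ℂ)))
          = ((-(u z * (b l z * η z.1)) : ℝ) : ℂ) * (c * -dm l k * mFourier (-k) z.2) := by
        push_cast
        ring
      rw [this, Complex.re_ofReal_mul]
      ring
    have e3 : c * ((((deriv η z.1 : ℝ) : ℂ) - (η z.1 : ℂ) * (lam k : ℂ))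
        * (mFourier (-k) z.2 * (u z : ℂ)))
        = ((u z * deriv η z.1 : ℝ) : ℂ) * (c * mFourier (-k) z.2)
          + ((u z * η z.1 : ℝ) : ℂ) * (c * -(lam k : ℂ) * mFourier (-k) z.2) := by
      push_cast
      ring
    simp only [e2, e3, Complex.add_re, Complex.re_ofReal_mul, Finset.sum_neg_distrib]
    ring
  · refine integral_congr_ae (Eventually.of_forall fun x => ?_)
    simp only [oTest]
    have : c * ((η 0 : ℂ) * (mFourier (-k) x * (u₀ x : ℂ)))
        = ((u₀ x * η 0 : ℝ) : ℂ) * (c * mFourier (-k) x) := by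
      push_cast
      ring
    rw [this, Complex.re_ofReal_mul]
    ring

/-- (3) the equation mode by mode: integrated form and Duhamel form. -/
theorem fourier_ode {T : ℝ} (hT : 0 < T) {b : Fin d → ℝ × Tor d → ℝ} {u₀ : Tor d → ℝ}
    {u : ℝ × Tor d → ℝ} (hu : Integrable u (cyl d T))
    (hF : ∀ l, Integrable (fun z => b l z * u z) (cyl d T)) (h0 : Integrable u₀)
    (hsol : IsSolution T b u₀ u) :
    ∀ᵐ t ∂(volume.restrict (Ioo (0 : ℝ) T)), ∀ k : Fin d → ℤ,
      co (sl u t) k = co (fun x => (u₀ x : ℂ)) k + ∫ τ in Ioo (0 : ℝ) t,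
        (-(lam k : ℂ) * co (sl u τ) k - ∑ l, dm l k * co (sl (fun z => b l z * u z) τ) k) ∧
      co (sl u t) k = hm t k * co (fun x => (u₀ x : ℂ)) k - ∑ l, ∫ τ in Ioo (0 : ℝ) t,
        dm l k * hm (t - τ) k * co (sl (fun z => b l z * u z) τ) k := by
  rw [ae_all_iff]
  intro k
  have ia := integrable_co_sl hu k
  have iF := fun l => integrable_co_sl (hF l) k
  have iS : Integrable (fun τ => ∑ l, dm l k * co (sl (fun z => b l z * u z) τ) k)
      (volume.restrict (Ioo (0 : ℝ) T)) := integrable_finsetSum _ fun l _ => (iF l).const_mul _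
  have hw := o_weak hu hF h0 hsol k
  have h1 := o_dbr hT ia ((ia.const_mul _).sub iS) hw
  have cE : Continuous fun s : ℝ => ((Real.exp (lam k * s) : ℝ) : ℂ) := by fun_prop
  have h2 := o_dbr hT (a0 := co (fun x => (u₀ x : ℂ)) k) (o_int_time cE ia)
    (o_int_time cE iS.neg) (fun η hη ⟨T', hT', hv⟩ => by
      have hE : ContDiff ℝ ((⊤ : ℕ∞) : WithTop ℕ∞) fun s : ℝ => Real.exp (lam k * s) :=
        Real.contDiff_exp.comp (contDiff_const.mul contDiff_id)
      have h3 := hw (fun s => η s * Real.exp (lam k * s)) (hη.mul hE)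
        ⟨T', hT', fun s hs => by simp [hv s hs]⟩
      have hd : ∀ s, deriv (fun s => η s * Real.exp (lam k * s)) s
          = deriv η s * Real.exp (lam k * s) + η s * (Real.exp (lam k * s) * lam k) := fun s => by
        have a1 := ((hη.differentiable (by simp)) s).hasDerivAt
        have a2 : HasDerivAt (fun s : ℝ => Real.exp (lam k * s)) (Real.exp (lam k * s) * lam k) s := by
          simpa using ((hasDerivAt_id s).const_mul (lam k)).exp
        exact (a1.fun_mul a2).deriv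
      simp only [hd, mul_zero, Real.exp_zero, mul_one] at h3
      rw [← h3]
      congr 1
      refine integral_congr_ae (Eventually.of_forall fun s => ?_)
      simp only [Pi.neg_apply, Complex.ofReal_add, Complex.ofReal_mul]
      ring)
  filter_upwards [h1, h2, ae_restrict_mem measurableSet_Ioo] with t t1 t2 ht
  refine ⟨t1, ?_⟩
  have hsub : Ioo (0 : ℝ) t ⊆ Ioo 0 T := Ioo_subset_Ioo_right ht.2.le
  have cH : ∀ l, Continuous fun τ : ℝ => dm l k * hm (t - τ) k := fun l => by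
    simp only [hm]
    fun_prop
  have hE : ∀ τ, hm t k * ((Real.exp (lam k * τ) : ℝ) : ℂ) = hm (t - τ) k := fun τ => by
    simp only [hm]
    rw [← Complex.ofReal_mul, ← Real.exp_add]
    congr 2
    ring
  rw [← integral_finsetSum _ fun l _ =>
    IntegrableOn.mono_set (o_int_time (cH l) (iF l)) hsub]
  have t3 := congrArg (fun w => hm t k * w) t2
  simp only [← mul_assoc, hE, sub_self, hm_zero, one_mul, mul_add, ← integral_const_mul] at t3
  rw [t3, sub_eq_add_neg, ← integral_neg]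
  congr 1
  refine integral_congr_ae (Eventually.of_forall fun τ => ?_)
  simp only [Pi.neg_apply, mul_neg, Finset.mul_sum]
  congr 1
  exact Finset.sum_congr rfl fun l _ => by ring

/-- (4) divergence-free fields mode by mode. -/
theorem fourier_div {T : ℝ} {b : Fin d → ℝ × Tor d → ℝ}
    (hb : ∀ l, Integrable (b l) (cyl d T)) (hdiv : DivFree T b) :
    ∀ᵐ t ∂(volume.restrict (Ioo (0 : ℝ) T)), ∀ k : Fin d → ℤ,
      ∑ i, dm i k * co (sl (b i) t) k = 0 := by
  rw [ae_all_iff]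
  intro k
  have iF := fun l => integrable_co_sl (hb l) k
  refine o_zero (integrable_finsetSum _ fun l _ => (iF l).const_mul _) ?_
  intro ψ hψ ⟨T', hT', hv⟩ ⟨a, ha, hv'⟩
  have hc : Continuous ψ := hψ.continuous
  have c2 : ∀ l, Continuous fun s => (ψ s : ℂ) * dm l k := fun l => by fun_prop
  have e1 : ∫ s in Ioo (0 : ℝ) T, (ψ s : ℂ) * ∑ i, dm i k * co (sl (b i) s) k
      = ∫ z, ∑ l, ((ψ z.1 : ℂ) * dm l k) * (mFourier (-k) z.2 * (b l z : ℂ)) ∂(cyl d T) := by
    rw [integral_finsetSum _ fun l _ => o_int_term (hb l) k (c2 l),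
      Finset.sum_congr rfl fun l _ => o_integral_term (hb l) k (c2 l),
      ← integral_finsetSum _ fun l _ => o_int_time (c2 l) (iF l)]
    simp only [Finset.mul_sum, mul_assoc]
  rw [e1]
  refine o_re_zero fun c => ?_
  have h1 := hdiv (oTest ψ (-c) (-k)) ⟨⟨o_test_smooth hψ _ _, T', hT', fun z hz => by
    simp [oTest, hv z.1 hz]⟩, a, ha, fun z hz => by simp [oTest, hv' z.1 hz]⟩
  rw [← o_integral_re (integrable_finsetSum _ fun l _ => o_int_term (hb l) k (c2 l)), ← h1]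
  refine integral_congr_ae (Eventually.of_forall fun z => ?_)
  simp only [o_test_dX, oTest, dm_neg, Finset.mul_sum, Complex.re_sum]
  refine Finset.sum_congr rfl fun l _ => ?_
  have : c * ((ψ z.1 : ℂ) * dm l k * (mFourier (-k) z.2 * (b l z : ℂ)))
      = ((b l z * ψ z.1 : ℝ) : ℂ) * (-c * -dm l k * mFourier (-k) z.2) := by
    push_cast
    ring
  rw [this, Complex.re_ofReal_mul]
  ring

end AdvDiff.Neg
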