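import Mathlib
import Pool.Agent.Lib.MP_0c2f33_an.NegODE
import Pool.Agent.Lib.MP_0c2f33_an.NegEnergy

/-!
Every distributional solution is parabolic when `2 / p + 1 / q ≤ 1`.
-/

open MeasureTheory Set UnitAddTorus Filter Topology
open scoped ENNReal RealInnerProductSpace

namespace AdvDiff.Neg

variable {d : ℕ}

instance cylFinite (T : ℝ) : IsFiniteMeasure (cyl d T) := by
  unfold cyl
  infer_instance

theorem weak_cluster {H : Type} [NormedAddCommGroup H] [InnerProductSpace ℝ H] [CompleteSpace H]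
    {g : ℕ → H} {C : ℝ} (hg : ∀ n, ‖g n‖ ≤ C) :
    ∃ y : H, ∀ (φ : H) (L : ℝ), Tendsto (fun n => ⟪g n, φ⟫) atTop (𝓝 L) → ⟪y, φ⟫ = L := by
  obtain ⟨Λ, -, hΛ⟩ := (WeakDual.isCompact_closedBall (𝕜 := ℝ) (E := H) 0 C).exists_mapClusterPt
    (f := atTop) (u := fun n => StrongDual.toWeakDual (InnerProductSpace.toDual ℝ H (g n)))
    (by
      rw [le_principal_iff, mem_map]
      refine Eventually.of_forall fun n => ?_
      simpa using hg n)
  refine ⟨(InnerProductSpace.toDual ℝ H).symm (WeakDual.toStrongDual Λ), fun φ L hL => ?_⟩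
  rw [InnerProductSpace.toDual_symm_apply]
  have h1 := hΛ.continuousAt_comp (WeakDual.eval_continuous φ).continuousAt
  exact eq_of_nhds_neBot (ClusterPt.mono h1 hL)

theorem weak_limit {α : Type} [MeasurableSpace α] {μ : Measure α} {g : ℕ → α → ℝ}
    (mg : ∀ n, AEStronglyMeasurable (g n) μ) {K : ℝ≥0∞} (hK : K ≠ ⊤)
    (hg : ∀ n, eLpNorm (g n) 2 μ ^ 2 ≤ K) :
    ∃ y : α → ℝ, MemLp y 2 μ ∧ ∀ (φ : α → ℝ) (L : ℝ), MemLp φ 2 μ →
      Tendsto (fun n => ∫ z, g n z * φ z ∂μ) atTop (𝓝 L) → ∫ z, y z * φ z ∂μ = L := by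
  have h1 : ∀ n, eLpNorm (g n) 2 μ ≤ 1 + K := fun n =>
    le_trans (by simpa using enn_amgm 1 (eLpNorm (g n) 2 μ)) (add_le_add le_rfl (hg n))
  have hK' : 1 + K ≠ ⊤ := by finiteness
  have hm : ∀ n, MemLp (g n) 2 μ := fun n => ⟨mg n, (h1 n).trans_lt hK'.lt_top⟩
  obtain ⟨y, hy⟩ := weak_cluster (g := fun n => (hm n).toLp (g n)) (C := (1 + K).toReal)
    fun n => by
      rw [Lp.norm_toLp]
      exact ENNReal.toReal_mono hK' (h1 n)
  refine ⟨y, Lp.memLp y, fun φ L hφ hL => ?_⟩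
  rw [← hy (hφ.toLp φ) L (hL.congr fun n => ?_), L2.inner_def]
  · refine integral_congr_ae ?_
    filter_upwards [hφ.coeFn_toLp] with z hz
    rw [hz, real_inner_eq_re_inner ℝ]
    simp [mul_comm]
  · rw [L2.inner_def]
    refine integral_congr_ae ?_
    filter_upwards [hφ.coeFn_toLp, (hm n).coeFn_toLp] with z hz hz'
    rw [hz, hz', real_inner_eq_re_inner ℝ]
    simp [mul_comm]

theorem lint_cyl {T : ℝ} {f : ℝ × Tor d → ℝ} (mf : Measurable f) :
    eLpNorm f 2 (cyl d T) ^ 2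
      = ∫⁻ t in Ioo (0 : ℝ) T, eLpNorm (fun x => f (t, x)) 2 volume ^ 2 := by
  simp only [sq_eLp]
  exact lintegral_prod _ (mf.enorm.pow_const 2).aemeasurable

theorem integrable_cyl {T : ℝ} {f : ℝ × Tor d → ℝ} (mf : Measurable f) {r : ℝ≥0∞} (hr : 1 ≤ r)
    {g : ℝ → ℝ≥0∞} (hg : ∫⁻ t in Ioo (0 : ℝ) T, g t ≠ ⊤)
    (h : ∀ᵐ t ∂(volume.restrict (Ioo (0 : ℝ) T)), eLpNorm (fun x => f (t, x)) r volume ≤ g t) :
    Integrable f (cyl d T) := by
  refine ⟨mf.aestronglyMeasurable, ?_⟩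
  rw [HasFiniteIntegral, cyl, lintegral_prod _ mf.enorm.aemeasurable]
  refine (lintegral_mono_ae (h.mono fun t ht => le_trans ?_ ht)).trans_lt hg.lt_top
  rw [← eLpNorm_one_eq_lintegral_enorm]
  exact eLpNorm_le_eLpNorm_of_exponent_le hr
    (mf.comp measurable_prodMk_left).aestronglyMeasurable

theorem memLp_cyl_cont {T : ℝ} {φ : ℝ × Tor d → ℝ} (h : Continuous φ) : MemLp φ 2 (cyl d T) := by
  obtain ⟨C, hC⟩ := ((isCompact_Icc (a := (0 : ℝ)) (b := T)).prod
    (isCompact_univ (X := Tor d))).exists_bound_of_continuousOn h.continuousOn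
  refine MemLp.of_bound h.aestronglyMeasurable C ?_
  have : ∀ᵐ z ∂(cyl d T), z.1 ∈ Ioo (0 : ℝ) T :=
    Measure.quasiMeasurePreserving_fst.ae (ae_restrict_mem measurableSet_Ioo)
  exact this.mono fun z hz => hC z ⟨Ioo_subset_Icc_self hz, mem_univ _⟩

theorem tendsto_of_sq {X : ℕ → ℝ≥0∞} (h : Tendsto (fun n => X n ^ 2) atTop (𝓝 0)) :
    Tendsto X atTop (𝓝 0) := by
  have h2 := ((ENNReal.continuous_rpow_const (y := 1 / 2)).tendsto 0).comp h
  rw [ENNReal.zero_rpow_of_pos (by norm_num)] at h2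
  refine h2.congr fun n => ?_
  simp only [Function.comp]
  rw [← ENNReal.rpow_natCast, ← ENNReal.rpow_mul]
  norm_num

theorem parabolic_of_energy {T : ℝ} {u : ℝ × Tor d → ℝ} (mu : Measurable u) {U : ℝ≥0∞}
    (hU : U ≠ ⊤)
    (hu : ∀ᵐ t ∂(volume.restrict (Ioo (0 : ℝ) T)), eLpNorm (fun x => u (t, x)) 2 volume ≤ U)
    {K : ℝ} (hK : ∀ {M : ℝ} {β G G' : ℝ → ℝ}, Trunc M β G G' → ∀ᶠ s in 𝓝[>] (0 : ℝ),
      ∫⁻ t in Ioo (0 : ℝ) T, ENNReal.ofReal (∫ x, Dd G' s (fun x => u (t, x)) x)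
        ≤ ENNReal.ofReal K) : Parabolic T u := by
  have u2 : MemLp u 2 (cyl d T) := by
    refine ⟨mu.aestronglyMeasurable, (ENNReal.pow_lt_top_iff.mp ?_).resolve_right two_ne_zero⟩
    rw [lint_cyl mu]
    refine (lintegral_mono_ae (hu.mono fun t ht => pow_le_pow_left' ht 2)).trans_lt ?_
    rw [lintegral_const]
    finiteness
  refine ⟨u2, ?_⟩
  have ex : ∀ n : ℕ, ∃ (β G G' : ℝ → ℝ) (s : ℝ), Trunc (n + 1) β G G' ∧ 0 < s ∧
      ∫⁻ t in Ioo (0 : ℝ) T, ENNReal.ofReal (∫ x, Dd G' s (fun x => u (t, x)) x)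
        ≤ ENNReal.ofReal K ∧
      ∫⁻ t in Ioo (0 : ℝ) T, eLpNorm (fun x => u (t, x) - W0 s (fun x => u (t, x)) x) 2 volume ^ 2
        ≤ (n : ℝ≥0∞)⁻¹ := by
    intro n
    obtain ⟨β, G, G', hG⟩ := exists_trunc (M := n + 1) (by positivity)
    obtain ⟨s, h1, h2, h3⟩ := ((hK hG).and (((time_W0 mu hU hu).eventually
      (ge_mem_nhds (ENNReal.inv_pos.mpr (ENNReal.natCast_ne_top n)))).and self_mem_nhdsWithin)).exists
    exact ⟨β, G, G', s, hG, h3, h1, h2⟩
  choose β G G' s hG hs hE hW using ex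
  let w : ℕ → ℝ × Tor d → ℝ := fun n z => W0 (s n) (fun x => u (z.1, x)) z.2
  let g : Fin d → ℕ → ℝ × Tor d → ℝ := fun i n z =>
    G' n (w n z) * W1 (s n) i (fun x => u (z.1, x)) z.2
  have mw : ∀ n, Measurable (w n) := fun n => meas_W0 mu _
  have mv : ∀ n, Measurable fun z => G n (w n z) := fun n => (hG n).cG.measurable.comp (mw n)
  have mg : ∀ i n, Measurable (g i n) := fun i n =>
    ((hG n).cG'.measurable.comp (mw n)).mul (meas_W1 mu _ i)
  have bg : ∀ i n, eLpNorm (g i n) 2 (cyl d T) ^ 2 ≤ ENNReal.ofReal K := by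
    intro i n
    rw [lint_cyl (mg i n)]
    refine le_trans (lintegral_mono fun t => le_trans ?_
      (sum_grad_le (hG n) (s n) fun x => u (t, x))) (hE n)
    exact Finset.single_le_sum (f := fun i => eLpNorm (fun x => G' n (W0 (s n)
      (fun x => u (t, x)) x) * W1 (s n) i (fun x => u (t, x)) x) 2 volume ^ 2)
      (fun _ _ => zero_le) (Finset.mem_univ i)
  have g2 : ∀ i n, MemLp (g i n) 2 (cyl d T) := fun i n => ⟨(mg i n).aestronglyMeasurable,
    (ENNReal.pow_lt_top_iff.mp ((bg i n).trans_lt ENNReal.ofReal_lt_top)).resolve_right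
      two_ne_zero⟩
  have v2 : ∀ n, MemLp (fun z => G n (w n z)) 2 (cyl d T) := fun n =>
    MemLp.of_bound (mv n).aestronglyMeasurable _ (Eventually.of_forall fun z => (hG n).bG _)
  have c1 : Tendsto (fun n => ∫⁻ z, ‖u z - G n (u z)‖ₑ ^ 2 ∂cyl d T) atTop (𝓝 0) := by
    have := tendsto_lintegral_of_dominated_convergence (μ := cyl d T)
      (F := fun n z => ‖u z - G n (u z)‖ₑ ^ 2) (f := fun _ => 0) (fun z => ‖u z‖ₑ ^ 2)
      (fun n => (mu.sub ((hG n).cG.measurable.comp mu)).enorm.pow_const 2)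
      (fun n => Eventually.of_forall fun z => pow_le_pow_left' (by
        rw [Real.enorm_eq_ofReal_abs, Real.enorm_eq_ofReal_abs]
        exact ENNReal.ofReal_le_ofReal ((hG n).e1 _)) 2)
      (by
        rw [← sq_eLp]
        exact ENNReal.pow_ne_top u2.2.ne)
      (Eventually.of_forall fun z => by
        have a1 : Tendsto (fun n : ℕ => |u z| ^ 3 / ((n : ℝ) + 1) ^ 2) atTop (𝓝 0) :=
          tendsto_const_nhds.div_atTop ((tendsto_pow_atTop two_ne_zero).comp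
            (tendsto_atTop_add_const_right _ 1 tendsto_natCast_atTop_atTop))
        have a2 : Tendsto (fun n => u z - G n (u z)) atTop (𝓝 0) :=
          squeeze_zero_norm (fun n => (hG n).e2 _) a1
        simpa using ENNReal.Tendsto.pow (n := 2) a2.enorm)
    simpa using this
  have c2 : Tendsto (fun n => eLpNorm (fun z => u z - G n (w n z)) 2 (cyl d T)) atTop (𝓝 0) := by
    refine tendsto_of_sq ?_
    have a1 := (ENNReal.Tendsto.const_mul (a := 2) c1 (Or.inr ENNReal.ofNat_ne_top)).add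
      (ENNReal.Tendsto.const_mul (a := 2) ENNReal.tendsto_inv_nat_nhds_zero
        (Or.inr ENNReal.ofNat_ne_top))
    simp only [mul_zero, add_zero] at a1
    refine tendsto_of_tendsto_of_tendsto_of_le_of_le tendsto_const_nhds a1 (fun _ => zero_le)
      fun n => ?_
    have a2 := hW n
    have m1 : Measurable fun z => u z - w n z := mu.sub (mw n)
    rw [← lint_cyl m1, sq_eLp] at a2
    simp only
    rw [sq_eLp]
    calc _ ≤ ∫⁻ z, (2 * ‖u z - G n (u z)‖ₑ ^ 2 + 2 * ‖u z - w n z‖ₑ ^ 2) ∂cyl d T := by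
          refine lintegral_mono fun z => le_trans (pow_le_pow_left' ?_ 2) (enn_add_sq _ _)
          rw [show u z - G n (w n z) = (u z - G n (u z)) + (G n (u z) - G n (w n z)) by ring]
          refine (enorm_add_le _ _).trans (add_le_add le_rfl ?_)
          rw [Real.enorm_eq_ofReal_abs, Real.enorm_eq_ofReal_abs]
          exact ENNReal.ofReal_le_ofReal ((hG n).lip _ _)
      _ ≤ _ := by
          rw [lintegral_add_right _ ((m1.enorm.pow_const 2).const_mul 2),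
            lintegral_const_mul' _ _ ENNReal.ofNat_ne_top,
            lintegral_const_mul' _ _ ENNReal.ofNat_ne_top]
          gcongr
  choose y hy2 hy using fun i => weak_limit (fun n => (mg i n).aestronglyMeasurable)
    ENNReal.ofReal_ne_top (bg i)
  refine ⟨y, hy2, fun φ hφ i => ?_⟩
  have cφ := smooth_continuous hφ.1.1
  have cψ := smooth_continuous_dX hφ.1.1 i
  have φ2 := memLp_cyl_cont (T := T) cφ
  have ψ2 := memLp_cyl_cont (T := T) cψ
  have ibp : ∀ n, ∫ z, g i n z * φ z ∂cyl d T = -∫ z, G n (w n z) * dX i φ z ∂cyl d T := by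
    intro n
    have i1 : Integrable (fun z => g i n z * φ z) (cyl d T) := (g2 i n).integrable_mul φ2
    have i2 : Integrable (fun z => G n (w n z) * dX i φ z) (cyl d T) := (v2 n).integrable_mul ψ2
    rw [eq_neg_iff_add_eq_zero, ← integral_add i1 i2, cyl, integral_prod
      (fun z => g i n z * φ z + G n (w n z) * dX i φ z) (i1.add i2)]
    refine (integral_congr_ae (Eventually.of_forall fun t => ?_)).trans (integral_zero _ _)
    have cG := (hG n).cG
    have cG' := (hG n).cG'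
    exact (((hasLD_W0 (hs n) (fun x => u (t, x)) i).comp (hG n).dG).mul
      (smooth_hasLD hφ.1.1 i t)).integral_eq_zero (by fun_prop) (by fun_prop)
  have lim : Tendsto (fun n => ∫ z, G n (w n z) * dX i φ z ∂cyl d T) atTop
      (𝓝 (∫ z, u z * dX i φ z ∂cyl d T)) := by
    refine tendsto_integral_of_L1 _ (u2.integrable_mul ψ2).aestronglyMeasurable
      (Eventually.of_forall fun n => (v2 n).integrable_mul ψ2) ?_
    have a1 := ENNReal.Tendsto.mul_const (b := eLpNorm (dX i φ) 2 (cyl d T)) c2 (Or.inr ψ2.2.ne)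
    rw [zero_mul] at a1
    refine tendsto_of_tendsto_of_tendsto_of_le_of_le tendsto_const_nhds a1 (fun _ => zero_le)
      fun n => le_trans (le_of_eq (lintegral_congr fun z => ?_))
        (hold1 (mu.sub (mv n)).aestronglyMeasurable cψ.aestronglyMeasurable)
    rw [← enorm_mul, ← enorm_neg]
    congr 1
    simp only [Pi.mul_apply]
    ring
  rw [hy i φ (-∫ z, u z * dX i φ z ∂cyl d T) φ2 (by simpa only [ibp] using lim.neg), neg_neg]

theorem exists_exponents {p q : ℝ≥0∞} (hq2 : 2 ≤ q) (hpq : 2 * p⁻¹ + q⁻¹ ≤ 1) :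
    ∃ p₀ r : ℝ≥0∞, ENNReal.HolderTriple r p₀ 1 ∧ ENNReal.HolderTriple p₀ q r ∧ 2 ≤ p₀ ∧
      p₀ ≠ ⊤ ∧ r ≤ 2 ∧ p₀ ≤ p := by
  have q2 : q⁻¹ ≤ 2⁻¹ := ENNReal.inv_le_inv.mpr hq2
  have q1 : q⁻¹ < 1 := q2.trans_lt (by norm_num)
  set a := (1 - q⁻¹) / 2 with ha
  have a2 : a ≤ 2⁻¹ := by
    rw [ha, ← one_div 2]
    gcongr
    exact tsub_le_self
  have a0 : a ≠ 0 := by
    rw [ha]
    exact ENNReal.div_ne_zero.mpr ⟨(tsub_pos_iff_lt.mpr q1).ne', ENNReal.ofNat_ne_top⟩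
  have e : a + q⁻¹ + a = 1 := by
    rw [add_right_comm, ha, ENNReal.add_halves, tsub_add_cancel_of_le q1.le]
  refine ⟨a⁻¹, (a + q⁻¹)⁻¹, ⟨by simpa using e⟩, ⟨by simp⟩, ?_, ENNReal.inv_ne_top.mpr a0, ?_, ?_⟩
  · exact ENNReal.le_inv_iff_le_inv.mp a2
  · rw [ENNReal.inv_le_iff_inv_le]
    refine ENNReal.le_of_add_le_add_right (a := 2⁻¹) (by simp) ?_
    rw [ENNReal.inv_two_add_inv_two, ← e]
    gcongr
  · rw [ENNReal.inv_le_iff_inv_le, ha, ENNReal.le_div_iff_mul_le (by simp) (by simp), mul_comm]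
    exact ENNReal.le_sub_of_add_le_right q1.ne_top hpq

theorem parabolic_meas {T : ℝ} (hT : 0 < T) {p q : ℝ≥0∞} (hq2 : 2 ≤ q) (hqtop : q ≠ ⊤)
    (hpq : 2 * p⁻¹ + q⁻¹ ≤ 1) {b : Fin d → ℝ × Tor d → ℝ} {u₀ : Tor d → ℝ}
    {u : ℝ × Tor d → ℝ} (mb : ∀ i, Measurable (b i)) (mu : Measurable u)
    (hb : ∀ i, MemMixed T 2 p (b i)) (hdiv : DivFree T b) (h0 : MemLp u₀ q volume)
    (hu : MemMixed T ⊤ q u) (hsol : IsSolution T b u₀ u) : Parabolic T u := by
  obtain ⟨p₀, r, H1, H2, hp2, hp', hr2, hpp⟩ := exists_exponents hq2 hpq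
  have hr1 : 1 ≤ r := ENNReal.HolderConjugate.one_le r p₀
  have p0 : p₀ ≠ 0 := (zero_lt_two.trans_le hp2).ne'
  have msl : ∀ {f : ℝ × Tor d → ℝ}, Measurable f → ∀ t,
      AEStronglyMeasurable (fun x => f (t, x)) volume :=
    fun hf t => (hf.comp measurable_prodMk_left).aestronglyMeasurable
  set U := eLpNorm (fun t : ℝ => eLpNorm (fun x : Tor d => u (t, x)) q volume) ⊤
    (volume.restrict (Ioo (0 : ℝ) T)) with hUdef
  have hU : U ≠ ⊤ := hu.2.ne
  have huq : ∀ᵐ t ∂(volume.restrict (Ioo (0 : ℝ) T)),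
      eLpNorm (fun x => u (t, x)) q volume ≤ U := by
    rw [hUdef, eLpNorm_exponent_top]
    exact ae_le_eLpNormEssSup
      (f := fun t : ℝ => eLpNorm (fun x : Tor d => u (t, x)) q volume)
  have hu2 : ∀ᵐ t ∂(volume.restrict (Ioo (0 : ℝ) T)), eLpNorm (fun x => u (t, x)) 2 volume ≤ U :=
    huq.mono fun t ht => (eLpNorm_le_eLpNorm_of_exponent_le hq2 (msl mu t)).trans ht
  have hb2 : ∀ l, ∫⁻ t in Ioo (0 : ℝ) T, eLpNorm (fun x => b l (t, x)) p₀ volume ^ 2 ≠ ⊤ := by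
    intro l
    have h1 := lintegral_rpow_enorm_lt_top_of_eLpNorm_lt_top two_ne_zero ENNReal.ofNat_ne_top
      (hb l).2
    simp only [enorm_eq_self, ENNReal.toReal_ofNat, ENNReal.rpow_ofNat] at h1
    exact ne_top_of_le_ne_top h1.ne (lintegral_mono fun t =>
      pow_le_pow_left' (eLpNorm_le_eLpNorm_of_exponent_le hpp (msl (mb l) t)) 2)
  have hb1 : ∀ l, ∫⁻ t in Ioo (0 : ℝ) T,
      (1 + eLpNorm (fun x => b l (t, x)) p₀ volume ^ 2) ≠ ⊤ := by
    intro l
    rw [lintegral_add_left measurable_const, lintegral_const]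
    have := hb2 l
    finiteness
  have le1 : ∀ x : ℝ≥0∞, x ≤ 1 + x ^ 2 := fun x => by simpa using enn_amgm 1 x
  have iu : Integrable u (cyl d T) := integrable_cyl mu one_le_two (g := fun _ => U)
    (by rw [lintegral_const]; finiteness) hu2
  have ib : ∀ l, Integrable (b l) (cyl d T) := fun l => integrable_cyl (mb l)
    (one_le_two.trans hp2) (hb1 l) (Eventually.of_forall fun t => le1 _)
  have iF : ∀ l, Integrable (fun z => b l z * u z) (cyl d T) := fun l =>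
    integrable_cyl ((mb l).mul mu) hr1
      (g := fun t => (1 + eLpNorm (fun x => b l (t, x)) p₀ volume ^ 2) * U)
      (by
        rw [lintegral_mul_const' _ _ hU]
        exact ENNReal.mul_ne_top (hb1 l) hU)
      (huq.mono fun t ht => (hold (p := p₀) (q := q) (msl (mb l) t) (msl mu t)).trans
        (mul_le_mul' (le1 _) ht))
  have h02 := h0.mono_exponent hq2
  have ode := fourier_ode hT iu iF (h02.integrable one_le_two) hsol
  obtain ⟨K, hK⟩ := energy_bound hT hp2 hp' hq2 hqtop hr2 hU mu mb huq hb2 iu iF h02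
    (ode.mono fun t ht k => (ht k).1) (ode.mono fun t ht k => (ht k).2) (fourier_div ib hdiv)
  exact parabolic_of_energy mu hU hu2 hK

theorem memMixed_congr {T : ℝ} {r p : ℝ≥0∞} {f g : ℝ × Tor d → ℝ} (h : f =ᵐ[cyl d T] g)
    (hf : MemMixed T r p f) : MemMixed T r p g := by
  refine ⟨hf.1.congr h, lt_of_eq_of_lt (eLpNorm_congr_ae ?_) hf.2⟩
  filter_upwards [Measure.ae_ae_of_ae_prod h] with t ht
  exact (eLpNorm_congr_ae ht).symm

end AdvDiff.Neg

theorem AdvDiff.parabolic_of_le {d : ℕ} {T : ℝ} (hT : 0 < T) {p q : ℝ≥0∞} (hq2 : 2 ≤ q)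
    (hqtop : q ≠ ⊤)
    (hpq : 2 * p⁻¹ + q⁻¹ ≤ 1) {b : Fin d → ℝ × Tor d → ℝ} {u₀ : Tor d → ℝ} {u : ℝ × Tor d → ℝ}
    (hb : ∀ i, MemMixed T 2 p (b i)) (hdiv : DivFree T b) (h0 : MemLp u₀ q volume)
    (hu : MemMixed T ⊤ q u) (hsol : IsSolution T b u₀ u) : Parabolic T u := by
  have eu := hu.1.ae_eq_mk
  have eb : ∀ᵐ z ∂(cyl d T), ∀ i, b i z = (hb i).1.mk (b i) z :=
    ae_all_iff.mpr fun i => (hb i).1.ae_eq_mk
  obtain ⟨h1, g, hg, h2⟩ := Neg.parabolic_meas hT hq2 hqtop hpq (b := fun i => (hb i).1.mk (b i))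
    (u₀ := u₀) (u := hu.1.mk u) (fun i => (hb i).1.stronglyMeasurable_mk.measurable)
    hu.1.stronglyMeasurable_mk.measurable
    (fun i => Neg.memMixed_congr (hb i).1.ae_eq_mk (hb i))
    (fun φ hφ => by
      refine Eq.trans (integral_congr_ae ?_) (hdiv φ hφ)
      filter_upwards [eb] with z hz
      simp only [← hz])
    h0 (Neg.memMixed_congr eu hu)
    (fun φ hφ => by
      refine Eq.trans ?_ (hsol φ hφ)
      congr 1
      refine integral_congr_ae ?_
      filter_upwards [eb, eu] with z hz hz'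
      simp only [← hz, ← hz'])
  refine ⟨(memLp_congr_ae eu).mpr h1, g, hg, fun φ hφ i => ?_⟩
  rw [← h2 φ hφ i]
  refine integral_congr_ae ?_
  filter_upwards [eu] with z hz
  rw [← hz]
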