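import Mathlib

/-!
Parameters of the self-similar schedule.
-/

open Filter Topology

namespace AdvDiff

/-- Parameters of the schedule on the time interval `(0, T)` for a drift in `L² L^p`. At level `k`
the station is `[y k, y k + W k]`, a node lasts `D k`, flips last `τ k`, the final rest lasts
`g k`, margins are `ℓ k`, and cells have width `1 / M k`. -/
structure Par (T p : ℝ) where
  Nt : ℕ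
  Nl : ℕ
  W : ℕ → ℝ
  y : ℕ → ℝ
  ℓ : ℕ → ℝ
  g : ℕ → ℝ
  τ : ℕ → ℝ
  D : ℕ → ℝ
  κ : ℕ → ℝ
  lam : ℕ → ℝ
  ε : ℕ → ℝ
  S : ℕ → ℝ
  R : ℕ → ℝ
  M : ℕ → ℕ
  Nl_pos : 0 < Nl
  Nl_le : Nl ≤ Nt
  W_pos : ∀ k, 0 < W k
  y_pos : ∀ k, 0 < y k
  ℓ_pos : ∀ k, 0 < ℓ k
  g_pos : ∀ k, 0 < g k
  τ_pos : ∀ k, 0 < τ k
  D_pos : ∀ k, 0 < D k
  κ_pos : ∀ k, 0 < κ k
  κ_le : ∀ k, κ k ≤ 1
  lam_pos : ∀ k, 0 < lam k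
  R_nonneg : ∀ k, 0 ≤ R k
  M_pos : ∀ k, 0 < M k
  M_dvd : ∀ k, M k ∣ M (k + 1)
  D_eq : ∀ k, D k = Nt * (D (k + 1) + τ k) + g k
  D_le : ∀ k, D k ≤ 1 / 48
  D_lt : D 0 < T
  W_ge : ∀ k, Nl * (W (k + 1) + 4 * ℓ k) ≤ W k
  y_ge : ∀ k, y (k + 1) + W (k + 1) ≤ y k
  y_low : ∀ k, y (k + 1) + W (k + 1) ≤ 6 * (y (k + 1) - ℓ k)
  H_le : ∀ k, y k + W k ≤ 1 / 8
  S_ge : ∀ k, (1 + 2 / (M k * Real.sqrt (6 * g k))) * (1 + 2 / Real.sqrt (6 * g k)) ≤ S k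
  τ_le : ∀ k, 3 * τ k ≤ (y k + W k) ^ 2
  M_ge : ∀ k, 1 / (M k : ℝ) ≤ y k + W k
  loss : ∀ k, 192 * D k / ℓ k ^ 2 + 8 * S (k + 1) * κ k * (y k + W k) + 2 * lam k * S (k + 1)
    + 6 * τ k * (y k + W k) * (100 * (1 / κ k + 4 * (y k + W k) / ℓ k)) ^ 2
      * ((M k : ℝ) ^ 2 + 1 / ℓ k ^ 2) / lam k ≤ ε k
  ε_sum : ∀ n, ∑ k ∈ Finset.range n, ε k ≤ 1 / 2
  src_err : Tendsto (fun k => (Nt : ℝ) ^ k / (Nl : ℝ) ^ k * (y k + W k)) atTop (𝓝 0)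
  R_ge : ∀ k, Nt * (R (k + 1)
    + τ k * (4 / τ k * (y k + W k)) ^ 2 * (2 * (y k + W k)) ^ (2 / p)) ≤ R k
  R_lim : Tendsto (fun k => (Nt : ℝ) ^ k * R k) atTop (𝓝 0)
  D_sum : Summable fun k => (Nt : ℝ) ^ k * D k
  mark_lim : Tendsto (fun k => (Nt : ℝ) ^ k * g k / ((Nl : ℝ) ^ (2 * k) * (y k + W k) ^ 3))
    atTop atTop

end AdvDiff
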