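import Pool.Agent.Lib.MP_0c2f33_an.Defs

/-!
Interface between the two-dimensional approximate solutions and the passage to the limit.
-/

open MeasureTheory Set Filter Topology
open scoped ENNReal NNReal

namespace AdvDiff

/-- The two-dimensional torus as a product of two circles. -/
abbrev X2 : Type := UnitAddCircle × UnitAddCircle

/-- Bounded by `Λ` and `Λ`-Lipschitz on `[0,T] × X2`. -/
structure BLip (T Λ : ℝ) (f : ℝ × X2 → ℝ) : Prop where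
  cont : Continuous f
  bound : ∀ t ∈ Icc (0 : ℝ) T, ∀ x, |f (t, x)| ≤ Λ
  lip : ∀ t ∈ Icc (0 : ℝ) T, ∀ t' ∈ Icc (0 : ℝ) T, ∀ (x : X2) (s₁ s₂ : ℝ),
    |f (t', (x.1 + (s₁ : UnitAddCircle), x.2 + (s₂ : UnitAddCircle))) - f (t, x)|
      ≤ Λ * (|t' - t| + |s₁| + |s₂|)

/-- A test function on `ℝ × X2` with its derivatives, all bounded and Lipschitz on `[0,T]`. -/
structure TestData (T Λ : ℝ) (φ φt φx φy φxx φyy : ℝ × X2 → ℝ) : Prop where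
  h0 : BLip T Λ φ
  ht : BLip T Λ φt
  hx : BLip T Λ φx
  hy : BLip T Λ φy
  hxx : BLip T Λ φxx
  hyy : BLip T Λ φyy
  dt : ∀ t x, HasDerivAt (fun s : ℝ => φ (s, x)) (φt (t, x)) t
  dx : ∀ t (x : X2), HasDerivAt (fun s : ℝ => φ (t, (x.1 + (s : UnitAddCircle), x.2))) (φx (t, x)) 0
  dy : ∀ t (x : X2), HasDerivAt (fun s : ℝ => φ (t, (x.1, x.2 + (s : UnitAddCircle)))) (φy (t, x)) 0
  dxx : ∀ t (x : X2),
    HasDerivAt (fun s : ℝ => φx (t, (x.1 + (s : UnitAddCircle), x.2))) (φxx (t, x)) 0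
  dyy : ∀ t (x : X2),
    HasDerivAt (fun s : ℝ => φy (t, (x.1, x.2 + (s : UnitAddCircle)))) (φyy (t, x)) 0

/-- `cos (2 π y)` on the circle. -/
noncomputable def cosT (y : UnitAddCircle) : ℝ := (fourier 1 y).re

/-- `sin (2 π y)` on the circle. -/
noncomputable def sinT (y : UnitAddCircle) : ℝ := (fourier 1 y).im

/-- The profile `ψ_H (y) = - H^3 / (H^2 + 1 - cos (2 π y))`, of size `H` and width `H`. -/
noncomputable def psi (H : ℝ) (y : UnitAddCircle) : ℝ := -H ^ 3 / (H ^ 2 + 1 - cosT y)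

/-- The derivative of `ψ_H`. -/
noncomputable def dpsi (H : ℝ) (y : UnitAddCircle) : ℝ :=
  H ^ 3 * (2 * Real.pi * sinT y) / (H ^ 2 + 1 - cosT y) ^ 2

/-- Approximate solutions on `(0,T) × X2` with zero initial datum whose limits are not
parabolic. -/
structure Approx2D (T : ℝ) (p q : ℝ≥0∞) where
  u : ℕ → ℝ × X2 → ℝ
  b₁ : ℕ → ℝ × X2 → ℝ
  b₂ : ℕ → ℝ × X2 → ℝ
  C : ℝ≥0
  meas_u : ∀ n, Measurable (u n)
  meas_b₁ : ∀ n, Measurable (b₁ n)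
  meas_b₂ : ∀ n, Measurable (b₂ n)
  bdd_u : ∀ n, ∃ A : ℝ, ∀ z, |u n z| ≤ A
  bdd_b : ∀ n, ∃ A : ℝ, ∀ z, |b₁ n z| ≤ A ∧ |b₂ n z| ≤ A
  norm_u : ∀ n t, eLpNorm (fun x => u n (t, x)) q volume ≤ C
  stab : ∀ᵐ t ∂(volume.restrict (Ioo (0 : ℝ) T)), ∃ m, ∀ n, m ≤ n → ∀ x,
    b₁ n (t, x) = b₁ m (t, x) ∧ b₂ n (t, x) = b₂ m (t, x)
  tail : ∀ ε : ℝ≥0∞, 0 < ε → ∃ m₀, ∀ m n, m₀ ≤ m → m ≤ n →
    ∫⁻ t in Ioo (0 : ℝ) T, eLpNorm (fun x => b₁ n (t, x) - b₁ m (t, x)) p volume ^ 2 ≤ ε ∧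
    ∫⁻ t in Ioo (0 : ℝ) T, eLpNorm (fun x => b₂ n (t, x) - b₂ m (t, x)) p volume ^ 2 ≤ ε
  div : ∀ Λ φ φt φx φy φxx φyy, TestData T Λ φ φt φx φy φxx φyy → ∀ n, ∀ t ∈ Ioo (0 : ℝ) T,
    ∫ x, (b₁ n (t, x) * φx (t, x) + b₂ n (t, x) * φy (t, x)) = 0
  weak : ∀ Λ φ φt φx φy φxx φyy, TestData T Λ φ φt φx φy φxx φyy → (∀ x, φ (T, x) = 0) →
    Tendsto (fun n => ∫ t in Ioo (0 : ℝ) T, ∫ x, u n (t, x) *
      (φt (t, x) + (b₁ n (t, x) * φx (t, x) + b₂ n (t, x) * φy (t, x))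
        + (φxx (t, x) + φyy (t, x)))) atTop (𝓝 0)
  marks : ∀ K : ℝ, ∃ (G : Set ℝ) (H : ℝ), MeasurableSet G ∧ G ⊆ Ioo (0 : ℝ) T ∧ 0 < H ∧
    0 < (volume G).toReal ∧ ∀ᶠ n in atTop,
      K * Real.sqrt ((volume G).toReal * H ^ 3) ≤ ∫ t in G, ∫ x, u n (t, x) * dpsi H x.2

end AdvDiff
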