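import Pool.Agent.Lib.MP_0c2f33_an.Heat
import Pool.Agent.Lib.MP_0c2f33_an.Flip

/-!
Functions of the height: plateau functions, indicator profiles, the source operation.
-/

open MeasureTheory Set
open scoped ENNReal

namespace AdvDiff

theorem mir_mp : MeasurePreserving mir volume volume :=
  (MeasurePreserving.id (volume : Measure UnitAddCircle)).prod
    (Measure.measurePreserving_neg (volume : Measure UnitAddCircle))

theorem integral_comp_mp {f : X2 → X2} (hf : MeasurePreserving f volume volume) {v : X2 → ℝ}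
    (hv : Measurable v) : ∫ x, v (f x) = ∫ x, v x := by
  conv_rhs => rw [← hf.map_eq]
  rw [integral_map hf.measurable.aemeasurable hv.aestronglyMeasurable]

theorem fr_neg' (y : UnitAddCircle) : fr (-y) = 0 ∧ fr y = 0 ∨ fr (-y) = 1 - fr y ∧ 0 < fr y := by
  have h := fr_mem y
  have h1 : fr (-y) = Int.fract (-fr y) := by
    rw [← fr_coe, AddCircle.coe_neg, coe_fr]
  rcases h.1.eq_or_lt with h0 | h0
  · left
    rw [h1, ← h0]
    simp
  · right
    refine ⟨?_, h0⟩
    rw [h1, Int.fract_eq_iff]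
    refine ⟨by linarith [h.2], by linarith, -1, by push_cast; ring⟩

theorem fr_of_mem {s : ℝ} (h0 : 0 ≤ s) (h1 : s < 1) : fr (s : UnitAddCircle) = s := by
  rw [fr_coe, Int.fract_eq_self.2 ⟨h0, h1⟩]

theorem fr_of_norm_le {y : UnitAddCircle} {H : ℝ} (h : ‖y‖ ≤ H) : fr y ≤ H ∨ 1 / 2 ≤ fr y := by
  by_contra hc
  push Not at hc
  have h0 := (fr_mem y).1
  have h1 : ‖y‖ = |fr y| := by
    conv_lhs => rw [← coe_fr y]
    rw [AddCircle.norm_coe_eq_abs_iff (1 : ℝ) one_ne_zero, abs_of_nonneg h0, abs_one]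
    exact hc.2.le
  rw [h1, abs_of_nonneg h0] at h
  linarith [hc.1]

theorem integral_fr (θ : ℝ → ℝ) : ∫ y, θ (fr y) = ∫ s in (0 : ℝ)..1, θ s := by
  have := AddCircle.intervalIntegral_preimage 1 0 (fun y => θ (fr y))
  rw [zero_add] at this
  rw [← this, intervalIntegral.integral_of_le zero_le_one,
    intervalIntegral.integral_of_le zero_le_one, integral_Ioc_eq_integral_Ioo,
    integral_Ioc_eq_integral_Ioo]
  exact setIntegral_congr_fun measurableSet_Ioo fun s hs => by
    simp only [fr_of_mem hs.1.le hs.2]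

theorem integral_snd (F : UnitAddCircle → ℝ) : ∫ x : X2, F x.2 = ∫ y, F y := by
  have := integral_fun_snd (μ := (volume : Measure UnitAddCircle))
    (ν := (volume : Measure UnitAddCircle)) F
  rw [probReal_univ, one_smul] at this
  exact this

/-- A function of the height with values in `[0,1]` that vanishes on the lower half torus. -/
structure Up (θ : ℝ → ℝ) : Prop where
  meas : Measurable θ
  nonneg : ∀ s, 0 ≤ θ s
  le_one : ∀ s, θ s ≤ 1
  low : ∀ s, s ≤ 0 → θ s = 0
  high : ∀ s, 1 / 2 ≤ s → θ s = 0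

/-- The function `x ↦ θ (height of x)`. -/
noncomputable def upf (θ : ℝ → ℝ) (x : X2) : ℝ := θ (fr x.2)

theorem Up.bm {θ : ℝ → ℝ} (h : Up θ) : BM (upf θ) :=
  ⟨h.meas.comp (measurable_fr.comp measurable_snd), 1, fun x => by
    rw [upf, abs_of_nonneg (h.nonneg _)]; exact h.le_one _⟩

theorem Cone.nonneg_of_fr {v : X2 → ℝ} (hv : Cone v) {x : X2} (hx : fr x.2 ≤ 1 / 2) :
    0 ≤ v x := by
  have := hv.pos x.1 (fr x.2) ⟨(fr_mem _).1, hx⟩
  rwa [coe_fr] at this

theorem Cone.mul_nonneg_of {v w : X2 → ℝ} (hv : Cone v) (h0 : ∀ x, 0 ≤ w x)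
    (h1 : ∀ x : X2, 1 / 2 < fr x.2 → w x = 0) (x : X2) : 0 ≤ v x * w x := by
  by_cases hx : fr x.2 ≤ 1 / 2
  · exact mul_nonneg (hv.nonneg_of_fr hx) (h0 x)
  · rw [h1 x (not_le.1 hx), mul_zero]

theorem Cone.integral_mono_test {v w w' : X2 → ℝ} (hv : Cone v) (hw : BM w) (hw' : BM w')
    (h0 : ∀ x, w x ≤ w' x) (h1 : ∀ x : X2, 1 / 2 < fr x.2 → w x = w' x) :
    ∫ x, v x * w x ≤ ∫ x, v x * w' x := by
  refine integral_mono (hv.bm.mul hw).integrable (hv.bm.mul hw').integrable fun x => ?_
  have := hv.mul_nonneg_of (w := fun x => w' x - w x) (fun x => by linarith [h0 x])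
    (fun x hx => by rw [h1 x hx, sub_self]) x
  simp only
  linarith

theorem integral_mono_state {u v : X2 → ℝ} (hu : BM u) (hv : BM v)
    (h : Cone (fun x => u x - v x)) {θ : ℝ → ℝ} (hθ : Up θ) :
    ∫ x, v x * upf θ x ≤ ∫ x, u x * upf θ x := by
  refine integral_mono (hv.mul hθ.bm).integrable (hu.mul hθ.bm).integrable fun x => ?_
  have := h.mul_nonneg_of (w := upf θ) (fun x => hθ.nonneg _) (fun x hx => hθ.high _ hx.le) x
  simp only
  linarith

theorem Up.upf_add_mir_le {θ : ℝ → ℝ} (h : Up θ) (x : X2) :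
    upf θ x = 0 ∨ upf θ (mir x) = 0 := by
  simp only [upf, mir]
  rcases fr_neg' x.2 with ⟨_, h2⟩ | ⟨h1, _⟩
  · left; exact h.low _ h2.le
  · by_cases hx : 1 / 2 ≤ fr x.2
    · left; exact h.high _ hx
    · right; exact h.high _ (by rw [h1]; linarith)

theorem Up.upf_mir_upper {θ : ℝ → ℝ} (h : Up θ) (x₁ : UnitAddCircle) {s : ℝ}
    (hs : s ∈ Icc (0 : ℝ) (1 / 2)) : upf θ (mir (x₁, (s : UnitAddCircle))) = 0 := by
  simp only [upf, mir]
  have h1 := fr_of_mem hs.1 (by linarith [hs.2])
  rcases fr_neg' (s : UnitAddCircle) with ⟨h2, _⟩ | ⟨h2, _⟩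
  · exact h.low _ h2.le
  · exact h.high _ (by rw [h2, h1]; linarith [hs.2])

theorem Up.second_diff {θ : ℝ → ℝ} (h : Up θ) {Λ : ℝ}
    (h2 : ∀ s δ, |θ (s + δ) + θ (s - δ) - 2 * θ s| ≤ Λ * δ ^ 2) (x : X2) {δ : ℝ}
    (hδ : |δ| ≤ 1 / 4) :
    |upf θ (x + ey δ) + upf θ (x + ey (-δ)) - 2 * upf θ x| ≤ Λ * δ ^ 2 := by
  have key : ∀ u : ℝ, -(1 / 2) ≤ u → u < 1 → θ (fr (u : UnitAddCircle)) = θ u := by
    intro u h0 h1
    by_cases hu : 0 ≤ u
    · rw [fr_of_mem hu h1]
    · have : (u : UnitAddCircle) = ((u + 1 : ℝ) : UnitAddCircle) := by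
        rw [AddCircle.coe_add, AddCircle.coe_period, add_zero]
      rw [this, fr_of_mem (by linarith) (by linarith), h.high _ (by linarith),
        h.low _ (by linarith)]
  obtain ⟨u, hu0, hu1, hu⟩ : ∃ u : ℝ, -(1 / 4) ≤ u ∧ u < 3 / 4 ∧ (u : UnitAddCircle) = x.2 := by
    have hm := fr_mem x.2
    by_cases hx : fr x.2 < 3 / 4
    · exact ⟨fr x.2, by linarith [hm.1], hx, coe_fr _⟩
    · refine ⟨fr x.2 - 1, by linarith, by linarith [hm.2], ?_⟩
      rw [AddCircle.coe_sub, AddCircle.coe_period, sub_zero, coe_fr]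
  obtain ⟨d1, d2⟩ := abs_le.1 hδ
  simp only [upf, add_ey, ← hu, ← AddCircle.coe_add]
  rw [key _ (by linarith) (by linarith), key _ (by linarith) (by linarith),
    key _ (by linarith) (by linarith), ← sub_eq_add_neg]
  exact h2 u δ

/-- The square of the positive part. -/
noncomputable def pp (s : ℝ) : ℝ := max s 0 ^ 2

theorem pp_second (s δ : ℝ) :
    0 ≤ pp (s + δ) + pp (s - δ) - 2 * pp s ∧ pp (s + δ) + pp (s - δ) - 2 * pp s ≤ 2 * δ ^ 2 := by
  unfold pp
  rcases le_total s 0 with h | h <;> rcases le_total (s + δ) 0 with h1 | h1 <;>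
    rcases le_total (s - δ) 0 with h2 | h2 <;>
    simp only [max_eq_left, max_eq_right, h, h1, h2] <;> constructor <;> nlinarith [sq_nonneg δ]

/-- A step from `0` to `1` on `[0,1]` with bounded second differences. -/
noncomputable def ramp (s : ℝ) : ℝ := 2 * pp s - 4 * pp (s - 1 / 2) + 2 * pp (s - 1)

theorem ramp_second (s δ : ℝ) : |ramp (s + δ) + ramp (s - δ) - 2 * ramp s| ≤ 8 * δ ^ 2 := by
  have h1 := pp_second s δ
  have h2 := pp_second (s - 1 / 2) δ
  have h3 := pp_second (s - 1) δ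
  unfold ramp
  rw [show s + δ - 1 / 2 = s - 1 / 2 + δ by ring, show s - δ - 1 / 2 = s - 1 / 2 - δ by ring,
    show s + δ - 1 = s - 1 + δ by ring, show s - δ - 1 = s - 1 - δ by ring, abs_le]
  constructor <;> linarith

theorem ramp_low {s : ℝ} (h : s ≤ 0) : ramp s = 0 := by
  unfold ramp pp
  rw [max_eq_right h, max_eq_right (by linarith), max_eq_right (by linarith)]
  ring

theorem ramp_high {s : ℝ} (h : 1 ≤ s) : ramp s = 1 := by
  unfold ramp pp
  rw [max_eq_left (by linarith), max_eq_left (by linarith), max_eq_left (by linarith)]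
  ring

theorem ramp_mono {s t : ℝ} (h : s ≤ t) : 0 ≤ ramp t - ramp s ∧ ramp t - ramp s ≤ 2 * (t - s) := by
  unfold ramp pp
  rcases le_total s 0 with a1 | a1 <;> rcases le_total (s - 1 / 2) 0 with a2 | a2 <;>
    rcases le_total (s - 1) 0 with a3 | a3 <;> rcases le_total t 0 with b1 | b1 <;>
    rcases le_total (t - 1 / 2) 0 with b2 | b2 <;> rcases le_total (t - 1) 0 with b3 | b3 <;>
    simp only [max_eq_left, max_eq_right, a1, a2, a3, b1, b2, b3] <;> constructor <;> nlinarith

theorem continuous_ramp : Continuous ramp := by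
  unfold ramp pp
  fun_prop

/-- Equal to `1` on `[A, B]`, to `0` off `(A - l, B + l)`. -/
noncomputable def plat (A B l : ℝ) (s : ℝ) : ℝ := ramp ((s - A + l) / l) - ramp ((s - B) / l)

section plat

variable {A B l : ℝ}

theorem plat_nonneg (hl : 0 < l) (hAB : A ≤ B) (s : ℝ) : 0 ≤ plat A B l s :=
  (ramp_mono (div_le_div_of_nonneg_right (by linarith) hl.le)).1

theorem ramp_nonneg (s : ℝ) : 0 ≤ ramp s := by
  have := (ramp_mono (min_le_left s 0)).1
  rw [ramp_low (min_le_right s 0)] at this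
  linarith

theorem ramp_le_one (s : ℝ) : ramp s ≤ 1 := by
  have := (ramp_mono (le_max_left s 1)).1
  rw [ramp_high (le_max_right s 1)] at this
  linarith

theorem plat_le_one (s : ℝ) : plat A B l s ≤ 1 := by
  unfold plat
  linarith [ramp_nonneg ((s - B) / l), ramp_le_one ((s - A + l) / l)]

theorem plat_eq_one (hl : 0 < l) {s : ℝ} (h1 : A ≤ s) (h2 : s ≤ B) : plat A B l s = 1 := by
  unfold plat
  rw [ramp_high (by rw [le_div_iff₀ hl]; linarith),
    ramp_low (div_nonpos_of_nonpos_of_nonneg (by linarith) hl.le), sub_zero]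

theorem plat_low (hl : 0 < l) (hAB : A ≤ B) {s : ℝ} (h : s ≤ A - l) : plat A B l s = 0 := by
  unfold plat
  rw [ramp_low (div_nonpos_of_nonpos_of_nonneg (by linarith) hl.le),
    ramp_low (div_nonpos_of_nonpos_of_nonneg (by linarith) hl.le), sub_zero]

theorem plat_high (hl : 0 < l) (hAB : A ≤ B) {s : ℝ} (h : B + l ≤ s) : plat A B l s = 0 := by
  unfold plat
  rw [ramp_high (by rw [le_div_iff₀ hl]; linarith),
    ramp_high (by rw [le_div_iff₀ hl]; linarith), sub_self]

theorem plat_second (s δ : ℝ) :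
    |plat A B l (s + δ) + plat A B l (s - δ) - 2 * plat A B l s| ≤ 16 / l ^ 2 * δ ^ 2 := by
  have h1 := abs_le.1 (ramp_second ((s - A + l) / l) (δ / l))
  have h2 := abs_le.1 (ramp_second ((s - B) / l) (δ / l))
  unfold plat
  rw [show (s + δ - A + l) / l = (s - A + l) / l + δ / l by ring,
    show (s - δ - A + l) / l = (s - A + l) / l - δ / l by ring,
    show (s + δ - B) / l = (s - B) / l + δ / l by ring,
    show (s - δ - B) / l = (s - B) / l - δ / l by ring,
    show 16 / l ^ 2 * δ ^ 2 = 16 * (δ / l) ^ 2 by ring, abs_le]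
  constructor <;> linarith

theorem ramp_lip (s t : ℝ) : |ramp t - ramp s| ≤ 2 * |t - s| := by
  rcases le_total s t with h | h
  · have := ramp_mono h
    rw [abs_of_nonneg this.1, abs_of_nonneg (by linarith)]
    exact this.2
  · have := ramp_mono h
    rw [abs_sub_comm, abs_of_nonneg this.1, abs_sub_comm, abs_of_nonneg (by linarith)]
    exact this.2

theorem plat_lip (hl : 0 < l) (s t : ℝ) :
    |plat A B l t - plat A B l s| ≤ 4 / l * |t - s| := by
  have h1 := ramp_lip ((s - A + l) / l) ((t - A + l) / l)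
  have h2 := ramp_lip ((s - B) / l) ((t - B) / l)
  rw [show (t - A + l) / l - (s - A + l) / l = (t - s) / l by ring, abs_div, abs_of_pos hl] at h1
  rw [show (t - B) / l - (s - B) / l = (t - s) / l by ring, abs_div, abs_of_pos hl] at h2
  have h3 := abs_le.1 h1
  have h4 := abs_le.1 h2
  unfold plat
  rw [show 4 / l * |t - s| = 4 * (|t - s| / l) by ring, abs_le]
  constructor <;> linarith

theorem plat_up (hl : 0 < l) (hAB : A ≤ B) (h0 : 0 ≤ A - l) (h1 : B + l ≤ 1 / 2) :
    Up (plat A B l) :=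
  ⟨by have := continuous_ramp.measurable; unfold plat; fun_prop, plat_nonneg hl hAB, plat_le_one,
    fun _ hs => plat_low hl hAB (hs.trans h0), fun _ hs => plat_high hl hAB (h1.trans hs)⟩

end plat

/-- The indicator function of `[lo, hi]`. -/
noncomputable def ind (lo hi : ℝ) : ℝ → ℝ := (Icc lo hi).indicator 1

theorem ind_up {lo hi : ℝ} (h0 : 0 < lo) (h1 : hi < 1 / 2) : Up (ind lo hi) := by
  refine ⟨measurable_one.indicator measurableSet_Icc,
    fun s => indicator_nonneg (fun _ _ => zero_le_one) s,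
    fun s => indicator_le_self' (fun _ _ => zero_le_one) s, fun s hs => ?_, fun s hs => ?_⟩
  · exact indicator_of_notMem (fun h => by linarith [h.1]) _
  · exact indicator_of_notMem (fun h => by linarith [h.2]) _

theorem integral_upf_ind {lo hi : ℝ} (h0 : 0 < lo) (h : lo ≤ hi) (h1 : hi < 1 / 2) :
    ∫ x, upf (ind lo hi) x = hi - lo := by
  unfold upf
  rw [integral_snd (fun y => ind lo hi (fr y)), integral_fr,
    intervalIntegral.integral_of_le zero_le_one, ind,
    setIntegral_indicator measurableSet_Icc]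
  have : Ioc (0 : ℝ) 1 ∩ Icc lo hi = Icc lo hi :=
    inter_eq_right.2 fun s hs => ⟨by linarith [hs.1], by linarith [hs.2]⟩
  rw [this]
  simp [h]

/-- The odd source profile of height `A` on `± [lo, hi]`. -/
noncomputable def prof (A lo hi : ℝ) (x : X2) : ℝ :=
  A * (upf (ind lo hi) x - upf (ind lo hi) (mir x))

/-- Raise `v` to the profile `S` where `S > 0`, lower it where `S < 0`. -/
noncomputable def raise (S v : X2 → ℝ) (x : X2) : ℝ :=
  if 0 < S x then max (v x) (S x) else if S x < 0 then min (v x) (S x) else v x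

section source

variable {A lo hi : ℝ} {S u v : X2 → ℝ}

theorem prof_cone (hA : 0 ≤ A) (h0 : 0 < lo) (h1 : hi < 1 / 2) : Cone (prof A lo hi) := by
  have hu := ind_up h0 h1
  refine ⟨(hu.bm.sub (hu.bm.comp measurable_mir)).cmul A, fun x => ?_, fun x s hs => ?_⟩
  · simp only [prof, mir_mir']; ring
  · simp only [prof, hu.upf_mir_upper x hs, sub_zero]
    exact mul_nonneg hA (hu.nonneg _)

theorem abs_prof (hA : 0 ≤ A) (h0 : 0 < lo) (h1 : hi < 1 / 2) (x : X2) :
    |prof A lo hi x| = A * (upf (ind lo hi) x + upf (ind lo hi) (mir x)) := by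
  have hu := ind_up h0 h1
  rw [prof, abs_mul, abs_of_nonneg hA]
  congr 1
  rcases hu.upf_add_mir_le x with h | h
  · rw [h, zero_sub, abs_neg, zero_add]; exact abs_of_nonneg (hu.nonneg _)
  · rw [h, sub_zero, add_zero]; exact abs_of_nonneg (hu.nonneg _)

theorem abs_prof_le (hA : 0 ≤ A) (h0 : 0 < lo) (h1 : hi < 1 / 2) (x : X2) :
    |prof A lo hi x| ≤ A := by
  have hu := ind_up h0 h1
  rw [abs_prof hA h0 h1]
  refine mul_le_of_le_one_right hA ?_
  rcases hu.upf_add_mir_le x with h | h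
  · rw [h, zero_add]; exact hu.le_one _
  · rw [h, add_zero]; exact hu.le_one _

theorem integral_abs_prof (hA : 0 ≤ A) (h0 : 0 < lo) (h : lo ≤ hi) (h1 : hi < 1 / 2) :
    ∫ x, |prof A lo hi x| = 2 * (A * (hi - lo)) := by
  have hu := ind_up h0 h1
  simp_rw [abs_prof hA h0 h1]
  rw [integral_const_mul, integral_add hu.bm.integrable (hu.bm.comp measurable_mir).integrable,
    integral_comp_mp mir_mp hu.bm.1, integral_upf_ind h0 h h1]
  ring

theorem integral_prof_mul (h0 : 0 < lo) (h : lo ≤ hi) (h1 : hi < 1 / 2) :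
    ∫ x, prof A lo hi x * upf (ind lo hi) x = A * (hi - lo) := by
  have hu := ind_up h0 h1
  rw [← integral_upf_ind h0 h h1, ← integral_const_mul]
  congr 1
  funext x
  rw [prof]
  rcases hu.upf_add_mir_le x with h | h
  · rw [h]; simp
  · rw [h, sub_zero]
    by_cases hx : fr x.2 ∈ Icc lo hi
    · simp [upf, ind, hx]
    · simp [upf, ind, hx]

theorem prof_supp (x : X2) (hx : hi < ‖x.2‖) : prof A lo hi x = 0 := by
  have h1 := norm_le_fr x.2
  have h2 := norm_le_fr (-x.2)
  rw [norm_neg] at h2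
  simp only [prof, upf, mir, ind]
  rw [indicator_of_notMem (fun h => by linarith [h.2]),
    indicator_of_notMem (fun h => by linarith [h.2])]
  simp

theorem prof_per (M : ℕ) : Per M (prof A lo hi) := fun _ _ _ => rfl

theorem raise_bm (hS : BM S) (hv : BM v) : BM (raise S v) := by
  obtain ⟨hS1, B, hB⟩ := hS
  obtain ⟨hv1, C, hC⟩ := hv
  refine ⟨?_, max B C, fun x => ?_⟩
  · unfold raise
    refine Measurable.ite (measurableSet_lt measurable_const hS1) (hv1.max hS1)
      (Measurable.ite (measurableSet_lt hS1 measurable_const) (hv1.min hS1) hv1)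
  · have a := (hB x).trans (le_max_left B C)
    have b := (hC x).trans (le_max_right B C)
    unfold raise
    split_ifs
    · rcases max_choice (v x) (S x) with h | h <;> rwa [h]
    · rcases min_choice (v x) (S x) with h | h <;> rwa [h]
    · exact b

theorem abs_raise_le {B : ℝ} (hS : ∀ x, |S x| ≤ B) (hv : ∀ x, |v x| ≤ B) (x : X2) :
    |raise S v x| ≤ B := by
  have a := hS x
  have b := hv x
  unfold raise
  split_ifs
  · rcases max_choice (v x) (S x) with h | h <;> rwa [h]
  · rcases min_choice (v x) (S x) with h | h <;> rwa [h]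
  · exact b

theorem raise_odd (hS : ∀ x, S (mir x) = -S x) (hv : ∀ x, v (mir x) = -v x) (x : X2) :
    raise S v (mir x) = -raise S v x := by
  unfold raise
  rw [hS, hv]
  rcases lt_trichotomy (S x) 0 with h | h | h
  · rw [if_pos (by linarith), if_neg (by linarith), if_pos h, max_neg_neg]
  · simp [h]
  · rw [if_neg (by linarith), if_pos (by linarith), if_pos h, min_neg_neg]

theorem raise_upper (hS : Cone S) (x : UnitAddCircle) {s : ℝ} (hs : s ∈ Icc (0 : ℝ) (1 / 2))
    (hv : 0 ≤ v (x, (s : UnitAddCircle))) :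
    raise S v (x, (s : UnitAddCircle))
      = max (v (x, (s : UnitAddCircle))) (S (x, (s : UnitAddCircle))) := by
  have h := hS.pos x s hs
  unfold raise
  split_ifs with h1 h2
  · rfl
  · linarith
  · rw [max_eq_left (by linarith)]

theorem raise_cone (hS : Cone S) (hv : Cone v) : Cone (raise S v) :=
  ⟨raise_bm hS.bm hv.bm, raise_odd hS.odd hv.odd, fun x s hs => by
    rw [raise_upper hS x hs (hv.pos x s hs)]
    exact (hv.pos x s hs).trans (le_max_left _ _)⟩

theorem raise_sub_self (hS : Cone S) (hv : Cone v) : Cone (fun x => raise S v x - v x) :=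
  ⟨(raise_bm hS.bm hv.bm).sub hv.bm, fun x => by rw [raise_odd hS.odd hv.odd, hv.odd]; ring,
    fun x s hs => by
      rw [raise_upper hS x hs (hv.pos x s hs)]
      linarith [le_max_left (v (x, (s : UnitAddCircle))) (S (x, (s : UnitAddCircle)))]⟩

theorem raise_sub_prof (hS : Cone S) (hv : Cone v) : Cone (fun x => raise S v x - S x) :=
  ⟨(raise_bm hS.bm hv.bm).sub hS.bm, fun x => by rw [raise_odd hS.odd hv.odd, hS.odd]; ring,
    fun x s hs => by
      rw [raise_upper hS x hs (hv.pos x s hs)]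
      linarith [le_max_right (v (x, (s : UnitAddCircle))) (S (x, (s : UnitAddCircle)))]⟩

theorem add_sub_raise (hS : Cone S) (hv : Cone v) : Cone (fun x => v x + S x - raise S v x) :=
  ⟨(hv.bm.add hS.bm).sub (raise_bm hS.bm hv.bm),
    fun x => by rw [raise_odd hS.odd hv.odd, hv.odd, hS.odd]; ring,
    fun x s hs => by
      rw [raise_upper hS x hs (hv.pos x s hs)]
      have := max_le (show v (x, (s : UnitAddCircle)) ≤ v (x, s) + S (x, s) by
        linarith [hS.pos x s hs]) (show S (x, (s : UnitAddCircle)) ≤ v (x, s) + S (x, s) by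
        linarith [hv.pos x s hs])
      linarith⟩

theorem raise_mono (hS : Cone S) (hu : Cone u) (hv : Cone v) (h : Cone (fun x => u x - v x)) :
    Cone (fun x => raise S u x - raise S v x) :=
  ⟨(raise_bm hS.bm hu.bm).sub (raise_bm hS.bm hv.bm),
    fun x => by rw [raise_odd hS.odd hv.odd, raise_odd hS.odd hu.odd]; ring,
    fun x s hs => by
      rw [raise_upper hS x hs (hv.pos x s hs), raise_upper hS x hs (hu.pos x s hs)]
      have h1 := h.pos x s hs
      have := max_le_max_right (S (x, (s : UnitAddCircle)))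
        (show v (x, (s : UnitAddCircle)) ≤ u (x, s) by linarith)
      linarith⟩

theorem raise_per {M : ℕ} (hS : Per M S) (hv : Per M v) : Per M (raise S v) := by
  intro c hc x
  simp only [raise, hS c hc x, hv c hc x]

end source

end AdvDiff
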