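import Pool.Agent.Lib.MP_0c2f33_an.Heat

/-!
The smoothing estimate for iterated box averages.
-/

open MeasureTheory Set
open scoped ENNReal

namespace AdvDiff

/-- One step of the simple random walk with step `c` on the line. -/
noncomputable def walk (c : ℝ) (F : ℝ → ℝ) (s : ℝ) : ℝ := (F (s + c) + F (s - c)) / 2

section walk

variable {c : ℝ}

theorem walk_iter_add (n : ℕ) (F G : ℝ → ℝ) :
    (walk c)^[n] (fun s => F s + G s) = fun s => (walk c)^[n] F s + (walk c)^[n] G s := by
  induction n generalizing F G with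
  | zero => rfl
  | succ n ih =>
    simp only [Function.iterate_succ, Function.comp]
    rw [← ih]
    congr 1
    funext s
    simp only [walk]; ring

theorem walk_iter_cmul (n : ℕ) (k : ℝ) (F : ℝ → ℝ) :
    (walk c)^[n] (fun s => k * F s) = fun s => k * (walk c)^[n] F s := by
  induction n generalizing F with
  | zero => rfl
  | succ n ih =>
    simp only [Function.iterate_succ, Function.comp]
    rw [← ih]
    congr 1
    funext s
    simp only [walk]; ring

theorem walk_iter_const (n : ℕ) (k : ℝ) : (walk c)^[n] (fun _ => k) = fun _ => k := by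
  induction n with
  | zero => rfl
  | succ n ih =>
    simp only [Function.iterate_succ, Function.comp]
    rw [← ih]
    congr 1
    funext s
    rw [ih]
    simp only [walk]; ring

theorem walk_iter_mono (n : ℕ) {F G : ℝ → ℝ} (h : ∀ s, F s ≤ G s) (s : ℝ) :
    (walk c)^[n] F s ≤ (walk c)^[n] G s := by
  induction n generalizing F G with
  | zero => exact h s
  | succ n ih =>
    simp only [Function.iterate_succ, Function.comp]
    refine ih fun s => ?_
    simp only [walk]
    linarith [h (s + c), h (s - c)]

theorem walk_iter_sq (n : ℕ) (s : ℝ) :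
    (walk c)^[n] (fun s => s ^ 2) s = s ^ 2 + n * c ^ 2 := by
  induction n generalizing s with
  | zero => simp
  | succ n ih =>
    rw [Function.iterate_succ_apply', walk, ih, ih]
    push_cast; ring

theorem walk_score (n : ℕ) (F : ℝ → ℝ) (s : ℝ) :
    (walk c)^[n + 1] (fun s => s * F s) s = s * (walk c)^[n + 1] F s
      + (n + 1) * (c / 2) * (walk c)^[n] (fun s => F (s + c) - F (s - c)) s := by
  induction n generalizing F with
  | zero => simp [walk]; ring
  | succ n ih =>
    have h1 : walk c (fun s => s * F s)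
        = fun s => s * walk c F s + c / 2 * (F (s + c) - F (s - c)) := by
      funext s; simp only [walk]; ring
    have h2 : (fun s => walk c F (s + c) - walk c F (s - c))
        = walk c (fun s => F (s + c) - F (s - c)) := by
      funext s; simp only [walk, add_sub_cancel_right, sub_add_cancel]; ring
    rw [Function.iterate_succ_apply (walk c) (n + 1), h1, walk_iter_add, walk_iter_cmul]
    simp only []
    rw [ih, h2, ← Function.iterate_succ_apply (walk c) n,
      ← Function.iterate_succ_apply (walk c) (n + 1) F]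
    push_cast; ring

theorem walk_diff_le (hc : 0 < c) (n : ℕ) {Γ : ℝ → ℝ} {J : ℝ} (hJ : ∀ s, |Γ s| ≤ J) :
    (walk c)^[n] (fun s => Γ (s + c) - Γ (s - c)) 0 ≤ 2 * J / Real.sqrt (n + 1) := by
  have hJ0 : 0 ≤ J := (abs_nonneg _).trans (hJ 0)
  set r := Real.sqrt (n + 1) with hr
  have hr0 : 0 < r := Real.sqrt_pos.2 (by positivity)
  have hr2 : r ^ 2 = n + 1 := Real.sq_sqrt (by positivity)
  have h1 := walk_score (c := c) n Γ 0
  have h2 : (walk c)^[n + 1] (fun s => s * Γ s) 0
      ≤ (walk c)^[n + 1] (fun s => J / (2 * r * c) * s ^ 2 + J * (r * c) / 2) 0 := by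
    refine walk_iter_mono _ (fun s => ?_) 0
    have a1 : s * Γ s ≤ |s| * J := by
      refine (le_abs_self _).trans ?_
      rw [abs_mul]
      exact mul_le_mul_of_nonneg_left (hJ s) (abs_nonneg _)
    have a2 : |s| ≤ s ^ 2 / (2 * r * c) + r * c / 2 := by
      rw [← sq_abs s, div_add_div _ _ (by positivity) (by positivity), le_div_iff₀ (by positivity)]
      nlinarith [sq_nonneg (|s| - r * c), mul_pos hr0 hc]
    calc s * Γ s ≤ |s| * J := a1
      _ ≤ (s ^ 2 / (2 * r * c) + r * c / 2) * J := by gcongr
      _ = _ := by ring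
  rw [walk_iter_add, walk_iter_cmul, walk_iter_const] at h2
  simp only [walk_iter_sq] at h2
  rw [h1] at h2
  push_cast at h2
  rw [← hr2] at h2
  have h3 : J / (2 * r * c) * (0 ^ 2 + r ^ 2 * c ^ 2) + J * (r * c) / 2 = J * (r * c) := by
    field_simp; ring
  rw [h3, zero_mul, zero_add] at h2
  rw [le_div_iff₀ hr0]
  have h4 : r * c * ((walk c)^[n] (fun s => Γ (s + c) - Γ (s - c)) 0 * r)
      ≤ r * c * (2 * J) := by nlinarith
  exact le_of_mul_le_mul_left h4 (mul_pos hr0 hc)

end walk

section line

variable {e : ℝ →+ X2} {a c : ℝ} {g : X2 → ℝ}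

theorem BM.av_iter (he : Continuous e) (hg : BM g) (ν : Measure ℝ) [IsProbabilityMeasure ν]
    (n : ℕ) : BM ((AdvDiff.av e ν)^[n] g) := by
  induction n with
  | zero => exact hg
  | succ n ih => rw [Function.iterate_succ_apply']; exact ih.av he

theorem intervalIntegrable_line (he : Continuous e) (hg : BM g) (x : X2) (s t : ℝ) :
    IntervalIntegrable (fun u => g (x + e u)) volume s t := by
  obtain ⟨hm, A, hA⟩ := hg
  have := he.measurable
  refine (intervalIntegrable_const (c := A)).mono_fun
    (Measurable.aestronglyMeasurable (by fun_prop)) (Filter.Eventually.of_forall fun r => ?_)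
  simp only [Real.norm_eq_abs]
  exact (hA _).trans (le_abs_self _)

theorem av_line (he : Continuous e) (hg : BM g) (ha : 0 < a) (x : X2) (s : ℝ) :
    av e (unif a) g (x + e s) = (2 * a)⁻¹ * ∫ u in (s - a)..(s + a), g (x + e u) := by
  have hm := he.measurable
  have hg1 := hg.1
  have : (fun r : ℝ => g (x + e s + e r)) = fun r => (fun u => g (x + e u)) (s + r) := by
    funext r
    simp [add_assoc]
  rw [av, this, integral_unif ha (by fun_prop),
    intervalIntegral.integral_comp_add_left (fun u => g (x + e u)) s, ← sub_eq_add_neg]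

/-- The two-point average along the line. -/
noncomputable def walkX (e : ℝ →+ X2) (c : ℝ) (g : X2 → ℝ) (x : X2) : ℝ :=
  (g (x + e c) + g (x + e (-c))) / 2

theorem BM.walkX (hg : BM g) : BM (walkX e c g) := by
  have := ((hg.comp (f := fun x => x + e c) (by fun_prop)).add
    (hg.comp (f := fun x => x + e (-c)) (by fun_prop))).cmul (1 / 2)
  convert this using 2
  simp only [AdvDiff.walkX]; ring

theorem av_eq_walkX (he : Continuous e) (hg : BM g) (ha : 0 < a) :
    av e (unif a) g = walkX e (a / 2) (av e (unif (a / 2)) g) := by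
  funext x
  have h0 := av_line he hg ha x 0
  simp only [map_zero, add_zero, zero_sub, zero_add] at h0
  rw [h0, walkX, av_line he hg (half_pos ha), av_line he hg (half_pos ha),
    ← intervalIntegral.integral_add_adjacent_intervals (intervalIntegrable_line he hg x (-a) 0)
      (intervalIntegrable_line he hg x 0 a)]
  rw [show a / 2 - a / 2 = 0 by ring, show a / 2 + a / 2 = a by ring,
    show -(a / 2) - a / 2 = -a by ring, show -(a / 2) + a / 2 = 0 by ring]
  field_simp
  ring

theorem av_walkX (he : Continuous e) (hg : BM g) (ν : Measure ℝ) [IsProbabilityMeasure ν] :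
    av e ν (walkX e c g) = walkX e c (av e ν g) := by
  funext x
  simp only [av, walkX]
  rw [integral_div, ← integral_add (int_line he hg _) (int_line he hg _)]
  congr 2
  funext s
  rw [add_right_comm x (e s), add_right_comm x (e s)]

theorem av_walkX_iter (he : Continuous e) (hg : BM g) (ν : Measure ℝ) [IsProbabilityMeasure ν]
    (n : ℕ) : av e ν ((walkX e c)^[n] g) = (walkX e c)^[n] (av e ν g) := by
  induction n generalizing g with
  | zero => rfl
  | succ n ih => rw [Function.iterate_succ_apply, ih hg.walkX, av_walkX he hg,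
      Function.iterate_succ_apply]

theorem BM.walkX_iter (hg : BM g) (n : ℕ) : BM ((AdvDiff.walkX e c)^[n] g) := by
  induction n with
  | zero => exact hg
  | succ n ih => rw [Function.iterate_succ_apply']; exact ih.walkX

theorem av_iter_eq (he : Continuous e) (hg : BM g) (ha : 0 < a) (n : ℕ) :
    (av e (unif a))^[n] g = (walkX e (a / 2))^[n] ((av e (unif (a / 2)))^[n] g) := by
  induction n with
  | zero => rfl
  | succ n ih =>
    rw [Function.iterate_succ_apply', ih,
      av_eq_walkX he ((hg.av_iter he _ n).walkX_iter n) ha,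
      av_walkX_iter he (hg.av_iter he _ n), Function.iterate_succ_apply',
      Function.iterate_succ_apply']

theorem walkX_iter_line (n : ℕ) (x : X2) (s : ℝ) :
    (walkX e c)^[n] g (x + e s) = (walk c)^[n] (fun s => g (x + e s)) s := by
  induction n generalizing s with
  | zero => rfl
  | succ n ih =>
    rw [Function.iterate_succ_apply', Function.iterate_succ_apply', walkX, walk, ← ih, ← ih]
    simp [add_assoc, sub_eq_add_neg]

theorem period_integral_av (he : Continuous e) (hg : BM g) {P : ℝ} (hP : 0 < P)
    (hper : ∀ x, g (x + e P) = g x) (ν : Measure ℝ) [IsProbabilityMeasure ν] (x : X2) :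
    ∫ u in (0 : ℝ)..P, av e ν g (x + e u) = ∫ u in (0 : ℝ)..P, g (x + e u) := by
  have hm := he.measurable
  have hi : Integrable (Function.uncurry fun (u : ℝ) (s : ℝ) => g (x + e u + e s))
      ((volume.restrict (Ioc 0 P)).prod ν) :=
    hg.integrable_comp (f := fun z : ℝ × ℝ => x + e z.1 + e z.2) (by fun_prop)
  have hp : Function.Periodic (fun u => g (x + e u)) P := fun u => by
    simp only [map_add, ← add_assoc, hper]
  have h2 : ∀ s, ∫ u in Ioc 0 P, g (x + e u + e s) = ∫ u in (0 : ℝ)..P, g (x + e u) := by
    intro s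
    have h3 := hp.intervalIntegral_add_eq s 0
    rw [zero_add] at h3
    rw [← h3, ← intervalIntegral.integral_of_le hP.le]
    have := intervalIntegral.integral_comp_add_right (a := 0) (b := P) (fun u => g (x + e u)) s
    simp only [map_add, ← add_assoc, zero_add] at this
    rw [this, add_comm P s]
  rw [intervalIntegral.integral_of_le hP.le]
  simp only [av]
  rw [integral_integral_swap hi]
  simp [h2]

theorem line_smooth (he : Continuous e) (hg : BM g) (h0 : ∀ x, 0 ≤ g x) {P : ℝ} (hP : 0 < P)
    (hper : ∀ x, g (x + e P) = g x) (ha : 0 < a) (n : ℕ) (x : X2) :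
    (av e (unif a))^[n + 1] g x
      ≤ (1 / P + 2 / (a * Real.sqrt (n + 1))) * ∫ u in (0 : ℝ)..P, g (x + e u) := by
  set c := a / 2 with hc
  have hc0 : 0 < c := half_pos ha
  have key : ∀ m : ℕ, (∀ x, 0 ≤ (av e (unif c))^[m] g x) ∧
      (∀ x, (av e (unif c))^[m] g (x + e P) = (av e (unif c))^[m] g x) ∧
      ∫ u in (0 : ℝ)..P, (av e (unif c))^[m] g (x + e u) = ∫ u in (0 : ℝ)..P, g (x + e u) := by
    intro m
    induction m with
    | zero => exact ⟨h0, hper, rfl⟩
    | succ m ih =>
      obtain ⟨i1, i2, i3⟩ := ih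
      simp only [Function.iterate_succ_apply']
      refine ⟨av_nonneg i1, fun x => ?_, ?_⟩
      · simp only [av]
        congr 1
        funext s
        rw [← i2 (x + e s), add_right_comm]
      · rw [period_integral_av he (hg.av_iter he _ m) hP i2, i3]
  obtain ⟨k1, k2, k3⟩ := key n
  set g₁ := (av e (unif c))^[n] g with hg₁
  have b1 : BM g₁ := hg.av_iter he _ n
  set J := ∫ u in (0 : ℝ)..P, g (x + e u) with hJ
  have ii := intervalIntegrable_line he b1 x
  set Γ : ℝ → ℝ := fun s => (∫ u in (0 : ℝ)..s, g₁ (x + e u)) - s * (J / P) with hΓ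
  have hp : Function.Periodic (fun u => g₁ (x + e u)) P := fun u => by
    simp only [map_add, ← add_assoc, k2]
  have hΓp : Function.Periodic Γ P := fun s => by
    simp only [hΓ]
    rw [← intervalIntegral.integral_add_adjacent_intervals (ii 0 s) (ii s (s + P)),
      hp.intervalIntegral_add_eq s 0, zero_add, k3]
    field_simp
    ring
  have hJ0 : 0 ≤ J := intervalIntegral.integral_nonneg hP.le fun u _ => h0 _
  have hΓb : ∀ s, |Γ s| ≤ J := by
    intro s
    obtain ⟨y, hy, hy'⟩ := hΓp.exists_mem_Ico₀ hP s
    rw [hy']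
    have a1 : 0 ≤ ∫ u in (0 : ℝ)..y, g₁ (x + e u) :=
      intervalIntegral.integral_nonneg hy.1 fun u _ => k1 _
    have a2 : 0 ≤ ∫ u in y..P, g₁ (x + e u) :=
      intervalIntegral.integral_nonneg hy.2.le fun u _ => k1 _
    have a3 := intervalIntegral.integral_add_adjacent_intervals (ii 0 y) (ii y P)
    have a4 : 0 ≤ y * (J / P) := mul_nonneg hy.1 (by positivity)
    have a5 : y * (J / P) ≤ J := by
      calc y * (J / P) ≤ P * (J / P) := by gcongr; exact hy.2.le
        _ = J := by field_simp
    simp only [hΓ]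
    rw [abs_le]; constructor <;> linarith
  have hav : (fun s => av e (unif c) g₁ (x + e s))
      = fun s => J / P + 1 / a * (Γ (s + c) - Γ (s - c)) := by
    funext s
    rw [av_line he b1 hc0]
    simp only [hΓ]
    rw [← intervalIntegral.integral_add_adjacent_intervals (ii 0 (s - c)) (ii (s - c) (s + c)),
      hc]
    field_simp
    ring
  have h1 := walkX_iter_line (e := e) (c := c) (g := av e (unif c) g₁) (n + 1) x 0
  rw [map_zero, add_zero, hav, walk_iter_add, walk_iter_const, walk_iter_cmul] at h1
  rw [av_iter_eq he hg ha, Function.iterate_succ_apply' (av e (unif (a / 2))), ← hc, ← hg₁, h1]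
  have h2 := walk_diff_le hc0 (n + 1) hΓb
  have h3 : 2 * J / Real.sqrt ((n + 1 : ℕ) + 1) ≤ 2 * J / Real.sqrt (n + 1) := by
    refine div_le_div_of_nonneg_left (by positivity) (Real.sqrt_pos.2 (by positivity)) ?_
    exact Real.sqrt_le_sqrt (by push_cast; linarith)
  have h4 := mul_le_mul_of_nonneg_left (h2.trans h3) (show 0 ≤ 1 / a by positivity)
  have h5 : (1 / P + 2 / (a * Real.sqrt (n + 1))) * J
      = J / P + 1 / a * (2 * J / Real.sqrt (n + 1)) := by
    field_simp
  rw [h5]
  simp only []
  linarith

end line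

section plane

variable {a : ℝ} {f g : X2 → ℝ}

theorem BM.heat_iter (hf : BM f) (a : ℝ) (n : ℕ) : BM ((AdvDiff.heat a)^[n] f) := by
  induction n with
  | zero => exact hf
  | succ n ih => rw [Function.iterate_succ_apply']; exact ih.heat a

theorem av_iter_comm {e e' : ℝ →+ X2} (he : Continuous e) (he' : Continuous e') (hf : BM f)
    (n : ℕ) : av e (unif a) ((av e' (unif a))^[n] f) = (av e' (unif a))^[n] (av e (unif a) f) := by
  induction n generalizing f with
  | zero => rfl
  | succ n ih => rw [Function.iterate_succ_apply, ih (hf.av he'), av_comm he he' hf,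
      Function.iterate_succ_apply]

theorem heat_iter_eq (hf : BM f) (n : ℕ) :
    (heat a)^[n] f = (av ey (unif a))^[2 * n] ((av ex (unif a))^[2 * n] f) := by
  induction n with
  | zero => rfl
  | succ n ih =>
    have b := hf.av_iter cont_ex (unif a) (2 * n)
    rw [Function.iterate_succ_apply', ih, heat, av_iter_comm cont_ex cont_ey b,
      av_iter_comm cont_ex cont_ey (b.av cont_ex), show 2 * (n + 1) = 2 * n + 1 + 1 by ring]
    simp only [Function.iterate_succ_apply']

theorem av_iter_mono {e : ℝ →+ X2} (he : Continuous e) (hf : BM f) (hg : BM g)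
    (h : ∀ x, f x ≤ g x) (n : ℕ) (x : X2) :
    (av e (unif a))^[n] f x ≤ (av e (unif a))^[n] g x := by
  induction n generalizing x with
  | zero => exact h x
  | succ n ih =>
    simp only [Function.iterate_succ_apply']
    exact av_mono he (hf.av_iter he _ n) (hg.av_iter he _ n) ih x

theorem heat_iter_mono (hf : BM f) (hg : BM g) (h : ∀ x, f x ≤ g x) (n : ℕ) (x : X2) :
    (heat a)^[n] f x ≤ (heat a)^[n] g x := by
  rw [heat_iter_eq hf, heat_iter_eq hg]
  exact av_iter_mono cont_ey (hf.av_iter cont_ex _ _) (hg.av_iter cont_ex _ _)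
    (av_iter_mono cont_ex hf hg h _) _ x

theorem av_iter_cmul {e : ℝ →+ X2} (k : ℝ) (n : ℕ) :
    (av e (unif a))^[n] (fun x => k * f x) = fun x => k * (av e (unif a))^[n] f x := by
  induction n with
  | zero => rfl
  | succ n ih => simp only [Function.iterate_succ_apply', ih, av_cmul]

theorem integral_circle_line {F : UnitAddCircle → ℝ} (y : UnitAddCircle) :
    ∫ u in (0 : ℝ)..1, F (y + (u : UnitAddCircle)) = ∫ z, F z := by
  have := AddCircle.intervalIntegral_preimage 1 0 (fun z => F (y + z))
  rw [zero_add] at this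
  rw [this, integral_add_left_eq_self]

theorem heat_iter_nonneg_le (hf : BM f) (h0 : ∀ x, 0 ≤ f x) {M : ℕ} (hM : 0 < M) (hper : Per M f)
    (ha : 0 < a) {n : ℕ} (hn : 0 < n) (x : X2) :
    (heat a)^[n] f x ≤ (1 + 2 / (M * (a * Real.sqrt (2 * n)))) * (1 + 2 / (a * Real.sqrt (2 * n)))
      * ∫ x, f x := by
  obtain ⟨m, hm⟩ : ∃ m, 2 * n = m + 1 := ⟨2 * n - 1, by omega⟩
  have hm' : (2 * n : ℝ) = m + 1 := by exact_mod_cast hm
  have hM' : (0 : ℝ) < M := by exact_mod_cast hM
  set r := a * Real.sqrt (m + 1) with hr
  have hr0 : 0 < r := mul_pos ha (Real.sqrt_pos.2 (by positivity))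
  rw [heat_iter_eq hf, hm, hm']
  set fb : X2 → ℝ := fun x => ∫ z, f (z, x.2) with hfb
  have bfb : BM fb := by
    obtain ⟨hf1, A, hA⟩ := hf
    refine ⟨?_, A, fun x => ?_⟩
    · have : StronglyMeasurable (fun z : X2 × UnitAddCircle => f (z.2, z.1.2)) :=
        (hf1.comp (by fun_prop)).stronglyMeasurable
      exact this.integral_prod_right'.measurable
    · have := norm_integral_le_of_norm_le_const (μ := volume) (f := fun z => f (z, x.2)) (C := A)
        (Filter.Eventually.of_forall fun s => by rw [Real.norm_eq_abs]; exact hA _)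
      simpa using this
  have hP : ∀ x, f (x + ex (1 / M)) = f x := fun x => by
    rw [add_ex]
    refine hper _ ?_ x
    rw [← AddCircle.coe_nsmul, nsmul_eq_mul, mul_one_div_cancel hM'.ne', AddCircle.coe_period]
  have s1 : ∀ x, (av ex (unif a))^[m + 1] f x ≤ (1 + 2 / (M * r)) * fb x := by
    intro x
    have h1 := line_smooth cont_ex hf h0 (P := 1 / M) (by positivity) hP ha m x
    have hp : Function.Periodic (fun u => f (x + ex u)) (1 / M) := fun u => by
      simp only [map_add, ← add_assoc, hP]
    have h2 := hp.intervalIntegral_add_zsmul_eq (M : ℤ) 0 (intervalIntegrable_line cont_ex hf x)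
    have h3 := integral_circle_line (F := fun z => f (z, x.2)) x.1
    simp only [zero_add, zsmul_eq_mul, Int.cast_natCast, mul_one_div_cancel hM'.ne', add_ex] at h2
    rw [h2] at h3
    simp only [add_ex] at h1
    refine h1.trans (le_of_eq ?_)
    simp only [hfb]
    rw [← h3, ← hr]
    field_simp
  have s2 := av_iter_mono (a := a) cont_ey (hf.av_iter cont_ex _ (m + 1)) (bfb.cmul _) s1 (m + 1) x
  rw [av_iter_cmul] at s2
  refine s2.trans ?_
  rw [mul_assoc]
  refine mul_le_mul_of_nonneg_left ?_ (by positivity)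
  have s3 := line_smooth cont_ey bfb (fun x => integral_nonneg fun z => h0 _) one_pos
    (fun x => by simp only [hfb, add_ey, AddCircle.coe_period, add_zero]) ha m x
  have s4 : ∫ u in (0 : ℝ)..1, fb (x + ey u) = ∫ x, f x := by
    simp only [add_ey, hfb]
    rw [integral_circle_line (F := fun y => ∫ z, f (z, y)) x.2, Measure.volume_eq_prod,
      integral_prod_symm _ hf.integrable]
  rw [s4, one_div, inv_one] at s3
  exact s3

theorem heat_iter_neg (hf : BM f) (n : ℕ) :
    (heat a)^[n] (fun x => -f x) = fun x => -(heat a)^[n] f x := by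
  rw [heat_iter_eq hf, heat_iter_eq hf.neg]
  have := av_iter_cmul (a := a) (e := ex) (f := f) (-1) (2 * n)
  simp only [neg_mul, one_mul] at this
  rw [this]
  have := av_iter_cmul (a := a) (e := ey) (f := (av ex (unif a))^[2 * n] f) (-1) (2 * n)
  simpa only [neg_mul, one_mul] using this

/-- The smoothing estimate. -/
theorem abs_heat_iter_le (hf : BM f) {M : ℕ} (hM : 0 < M) (hper : Per M f)
    (ha : 0 < a) {n : ℕ} (hn : 0 < n) (x : X2) :
    |(heat a)^[n] f x| ≤ (1 + 2 / (M * (a * Real.sqrt (2 * n))))
      * (1 + 2 / (a * Real.sqrt (2 * n))) * ∫ x, |f x| := by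
  have h1 := heat_iter_nonneg_le hf.abs (fun x => abs_nonneg _) hM
    (fun c hc x => by simp only [hper c hc x]) ha hn x
  have h2 := heat_iter_mono (a := a) hf hf.abs (fun x => le_abs_self _) n x
  have h3 := heat_iter_mono (a := a) hf.neg hf.abs (fun x => neg_le_abs _) n x
  rw [heat_iter_neg hf] at h3
  rw [abs_le]
  constructor <;> linarith

end plane

end AdvDiff
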