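import Pool.Agent.Lib.MP_0c2f33_an.Profile
import Pool.Agent.Lib.MP_0c2f33_an.Smoothing

/-!
The splitting scheme: phases, steps, runs and trajectories.
-/

open MeasureTheory Set
open scoped ENNReal

namespace AdvDiff

/-- A phase of the schedule: pure diffusion, a flip of a band, or an instantaneous source. -/
inductive Phase
  | rest (D : ℝ) (lab : Option ℕ)
  | flip (τ : ℝ) (F : Band)
  | src (A lo hi : ℝ)

namespace Phase

/-- The duration of a phase. -/
def dur : Phase → ℝ
  | rest D _ => D
  | flip τ _ => τ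
  | src _ _ _ => 0

/-- The label of a phase. -/
def lab : Phase → Option ℕ
  | rest _ l => l
  | _ => none

/-- Admissible phases. -/
def OK : Phase → Prop
  | rest D _ => 0 < D ∧ D ≤ 1 / 48
  | flip τ _ => 0 < τ ∧ τ ≤ 1 / 48
  | src A lo hi => 0 ≤ A ∧ 0 < lo ∧ lo ≤ hi ∧ hi < 1 / 2

/-- First component of the drift. -/
noncomputable def b₁ : Phase → X2 → ℝ
  | flip τ F => fun x => -(4 / τ * F.W₁ x)
  | _ => fun _ => 0

/-- Second component of the drift. -/
noncomputable def b₂ : Phase → X2 → ℝ
  | flip τ F => fun x => -(4 / τ * F.W₂ x)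
  | _ => fun _ => 0

/-- The duration of one step. -/
noncomputable def sdur (m : ℕ) (P : Phase) : ℝ := P.dur / (2 * m)

/-- The radius of the box averages in one step. -/
noncomputable def box (m : ℕ) (P : Phase) : ℝ := Real.sqrt (3 * P.sdur m)

/-- The number of steps. -/
def cnt (m : ℕ) : Phase → ℕ
  | src _ _ _ => 1
  | _ => 2 * m

/-- One step of the linear evolution. -/
noncomputable def lin (m : ℕ) : Phase → (X2 → ℝ) → X2 → ℝ
  | rest D l => fun v => heat (box m (rest D l)) v
  | flip τ F => fun v => heat (box m (flip τ F)) (fun x => v (F.map (2 / m) x))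
  | src _ _ _ => fun v => v

/-- One step of the scheme. -/
noncomputable def nl (m : ℕ) : Phase → (X2 → ℝ) → X2 → ℝ
  | src A lo hi => fun v => raise (prof A lo hi) v
  | P => lin m P

/-- One step of the affine majorant. -/
noncomputable def aff (m : ℕ) : Phase → (X2 → ℝ) → X2 → ℝ
  | src A lo hi => fun v x => v x + prof A lo hi x
  | P => lin m P

/-- The mass of a source. -/
noncomputable def mass : Phase → ℝ
  | src A lo hi => 2 * (A * (hi - lo))
  | _ => 0

/-- The amplitude of a source is at most `B`. -/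
def Amp (B : ℝ) : Phase → Prop
  | src A _ _ => A ≤ B
  | _ => True

/-- The cells of a flip refine the cells of width `1 / M`. -/
def Fine (M : ℕ) : Phase → Prop
  | flip _ F => M ∣ F.M
  | _ => True

/-- A flip acts below height `H`. -/
def Below (H : ℝ) : Phase → Prop
  | flip _ F => F.β ≤ H
  | _ => True

theorem OK.dur_nonneg {P : Phase} (h : P.OK) : 0 ≤ P.dur := by
  cases P with
  | rest D l => exact h.1.le
  | flip τ F => exact h.1.le
  | src A lo hi => exact le_rfl

theorem OK.sdur_nonneg {P : Phase} (h : P.OK) (m : ℕ) : 0 ≤ P.sdur m :=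
  div_nonneg h.dur_nonneg (by positivity)

theorem cnt_mul_sdur {m : ℕ} (hm : 0 < m) (P : Phase) : P.cnt m * P.sdur m = P.dur := by
  have : (0 : ℝ) < m := by exact_mod_cast hm
  cases P <;> simp only [cnt, sdur, dur] <;> push_cast <;> field_simp
  simp

theorem box_sq {P : Phase} (h : P.OK) (m : ℕ) : P.box m ^ 2 = 3 * P.sdur m :=
  Real.sq_sqrt (by have := h.sdur_nonneg m; positivity)

theorem box_nonneg (m : ℕ) (P : Phase) : 0 ≤ P.box m := Real.sqrt_nonneg _

theorem sdur_le {m : ℕ} (hm : 0 < m) {P : Phase} (h : P.OK) : P.sdur m ≤ P.dur := by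
  have : (1 : ℝ) ≤ m := by exact_mod_cast hm
  exact div_le_self h.dur_nonneg (by linarith)

theorem box_bounds {m : ℕ} (hm : 0 < m) {P : Phase} (h0 : 0 < P.dur) (h1 : P.dur ≤ 1 / 48) :
    0 < P.box m ∧ P.box m ≤ 1 / 4 := by
  have hm' : (1 : ℝ) ≤ m := by exact_mod_cast hm
  have a : 0 < P.sdur m := div_pos h0 (by linarith)
  have b : P.sdur m ≤ P.dur := div_le_self h0.le (by linarith)
  refine ⟨Real.sqrt_pos.2 (by linarith), Real.sqrt_le_iff.2 ⟨by norm_num, by linarith⟩⟩

theorem two_div_bounds {m : ℕ} (hm : 0 < m) : (0 : ℝ) ≤ 2 / m ∧ (2 : ℝ) / m ≤ 2 := by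
  have hm' : (1 : ℝ) ≤ m := by exact_mod_cast hm
  exact ⟨by positivity, div_le_self (by norm_num) hm'⟩

section step

variable {m : ℕ} {P : Phase} {u v w : X2 → ℝ}

theorem lin_bm (hm : 0 < m) (hv : BM v) : BM (P.lin m v) := by
  cases P with
  | rest D l => exact hv.heat _
  | flip τ F =>
    exact (hv.comp (F.map_mp (two_div_bounds hm).1 (two_div_bounds hm).2).measurable).heat _
  | src A lo hi => exact hv

theorem cone_comp_map (F : Band) {h : ℝ} (h0 : 0 ≤ h) (h2 : h ≤ 2) (hv : Cone v) :
    Cone (fun x => v (F.map h x)) := by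
  refine ⟨hv.bm.comp (F.map_mp h0 h2).measurable, fun x => ?_, fun x s hs => ?_⟩
  · rw [F.map_mir h0 h2, hv.odd]
  · obtain ⟨s', hs', h'⟩ := F.map_upper h0 h2 x hs
    have := hv.pos (F.map h (x, s)).1 s' hs'
    rwa [← h'] at this

theorem lin_cone (hm : 0 < m) (hP : P.OK) (hv : Cone v) : Cone (P.lin m v) := by
  cases P with
  | rest D l =>
    have hb := box_bounds (P := rest D l) hm hP.1 hP.2
    exact hv.heat hb.1 hb.2
  | flip τ F =>
    have hb := box_bounds (P := flip τ F) hm hP.1 hP.2
    exact (cone_comp_map F (two_div_bounds hm).1 (two_div_bounds hm).2 hv).heat hb.1 hb.2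
  | src A lo hi => exact hv

theorem lin_sub (hm : 0 < m) (hv : BM v) (hw : BM w) :
    P.lin m (fun x => v x - w x) = fun x => P.lin m v x - P.lin m w x := by
  cases P with
  | rest D l => exact heat_sub hv hw
  | flip τ F =>
    have hm' := (F.map_mp (two_div_bounds hm).1 (two_div_bounds hm).2).measurable
    exact heat_sub (hv.comp hm') (hw.comp hm')
  | src A lo hi => rfl

theorem lin_add (hm : 0 < m) (hv : BM v) (hw : BM w) :
    P.lin m (fun x => v x + w x) = fun x => P.lin m v x + P.lin m w x := by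
  cases P with
  | rest D l => exact heat_add hv hw
  | flip τ F =>
    have hm' := (F.map_mp (two_div_bounds hm).1 (two_div_bounds hm).2).measurable
    exact heat_add (hv.comp hm') (hw.comp hm')
  | src A lo hi => rfl

theorem abs_lin_le {B : ℝ} (hB : ∀ x, |v x| ≤ B) (x : X2) : |P.lin m v x| ≤ B := by
  cases P with
  | rest D l => exact abs_heat_le hB x
  | flip τ F => exact abs_heat_le (fun x => hB _) x
  | src A lo hi => exact hB x

theorem eLpNorm_lin_le (hm : 0 < m) (hv : BM v) {q : ℝ≥0∞} (hq : 1 ≤ q) (hq' : q ≠ ⊤) :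
    eLpNorm (P.lin m v) q volume ≤ eLpNorm v q volume := by
  cases P with
  | rest D l => exact eLpNorm_heat_le hv hq hq'
  | flip τ F =>
    have hm' := F.map_mp (two_div_bounds hm).1 (two_div_bounds hm).2
    exact (eLpNorm_heat_le (hv.comp hm'.measurable) hq hq').trans
      (eLpNorm_comp_measurePreserving hv.1.aestronglyMeasurable hm').le
  | src A lo hi => exact le_rfl

theorem integral_abs_lin_le (hm : 0 < m) (hv : BM v) : ∫ x, |P.lin m v x| ≤ ∫ x, |v x| := by
  cases P with
  | rest D l => exact integral_abs_heat_le hv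
  | flip τ F =>
    have hm' := F.map_mp (two_div_bounds hm).1 (two_div_bounds hm).2
    exact (integral_abs_heat_le (hv.comp hm'.measurable)).trans
      (integral_comp_mp hm' hv.abs.1).le
  | src A lo hi => exact le_rfl

theorem lin_per {M : ℕ} (hP : P.Fine M) (hv : Per M v) : Per M (P.lin m v) := by
  cases P with
  | rest D l => exact hv.heat _
  | flip τ F =>
    refine Per.heat (fun c hc x => ?_) _
    obtain ⟨k, hk⟩ := hP
    rw [F.map_transl _ (by rw [hk, mul_comm, mul_smul, hc, smul_zero]), hv c hc]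
  | src A lo hi => exact hv

theorem nl_cone (hm : 0 < m) (hP : P.OK) (hv : Cone v) : Cone (P.nl m v) := by
  cases P with
  | rest D l => exact lin_cone hm hP hv
  | flip τ F => exact lin_cone hm hP hv
  | src A lo hi => exact raise_cone (prof_cone hP.1 hP.2.1 hP.2.2.2) hv

theorem aff_cone (hm : 0 < m) (hP : P.OK) (hv : Cone v) : Cone (P.aff m v) := by
  cases P with
  | rest D l => exact lin_cone hm hP hv
  | flip τ F => exact lin_cone hm hP hv
  | src A lo hi => exact hv.add (prof_cone hP.1 hP.2.1 hP.2.2.2)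

theorem nl_per {M : ℕ} (hP : P.Fine M) (hv : Per M v) : Per M (P.nl m v) := by
  cases P with
  | rest D l => exact lin_per hP hv
  | flip τ F => exact lin_per hP hv
  | src A lo hi => exact raise_per (prof_per M) hv

theorem aff_per {M : ℕ} (hP : P.Fine M) (hv : Per M v) : Per M (P.aff m v) := by
  cases P with
  | rest D l => exact lin_per hP hv
  | flip τ F => exact lin_per hP hv
  | src A lo hi => intro c hc x; simp only [aff, hv c hc x, prof_per M c hc x]

theorem lin_mono (hm : 0 < m) (hP : P.OK) (hu : BM u) (hv : BM v)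
    (h : Cone (fun x => u x - v x)) : Cone (fun x => P.lin m u x - P.lin m v x) := by
  rw [← lin_sub hm hu hv]
  exact lin_cone hm hP h

theorem nl_mono (hm : 0 < m) (hP : P.OK) (hu : Cone u) (hv : Cone v)
    (h : Cone (fun x => u x - v x)) : Cone (fun x => P.nl m u x - P.nl m v x) := by
  cases P with
  | rest D l => exact lin_mono hm hP hu.bm hv.bm h
  | flip τ F => exact lin_mono hm hP hu.bm hv.bm h
  | src A lo hi => exact raise_mono (prof_cone hP.1 hP.2.1 hP.2.2.2) hu hv h

theorem nl_sub_lin (hm : 0 < m) (hP : P.OK) (hu : Cone u) (hv : BM v)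
    (h : Cone (fun x => u x - v x)) : Cone (fun x => P.nl m u x - P.lin m v x) := by
  cases P with
  | rest D l => exact lin_mono hm hP hu.bm hv h
  | flip τ F => exact lin_mono hm hP hu.bm hv h
  | src A lo hi =>
    exact ((raise_sub_self (prof_cone hP.1 hP.2.1 hP.2.2.2) hu).add h).congr fun x => by
      simp only [nl, lin]; ring

theorem lin_add_aff_sub (hm : 0 < m) (hP : P.OK) (hu : Cone u) (hv : BM v) (hw : BM w)
    (h : Cone (fun x => v x + w x - u x)) :
    Cone (fun x => P.lin m v x + P.aff m w x - P.nl m u x) := by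
  have key : Cone (fun x => P.lin m v x + P.lin m w x - P.lin m u x) := by
    have := lin_mono hm hP (hv.add hw) hu.bm h
    rwa [lin_add hm hv hw] at this
  cases P with
  | rest D l => exact key
  | flip τ F => exact key
  | src A lo hi =>
    exact ((add_sub_raise (prof_cone hP.1 hP.2.1 hP.2.2.2) hu).add h).congr fun x => by
      simp only [nl, lin, aff]; ring

theorem abs_nl_le (hP : P.OK) {B : ℝ} (hA : P.Amp B) (hB : ∀ x, |v x| ≤ B) (x : X2) :
    |P.nl m v x| ≤ B := by
  cases P with
  | rest D l => exact abs_lin_le (P := rest D l) hB x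
  | flip τ F => exact abs_lin_le (P := flip τ F) hB x
  | src A lo hi =>
    exact abs_raise_le (fun x => (abs_prof_le hP.1 hP.2.1 hP.2.2.2 x).trans hA) hB x

theorem integral_abs_aff_le (hm : 0 < m) (hP : P.OK) (hv : BM v) :
    ∫ x, |P.aff m v x| ≤ (∫ x, |v x|) + P.mass := by
  cases P with
  | rest D l => exact (integral_abs_lin_le (P := rest D l) hm hv).trans (add_zero _).ge
  | flip τ F => exact (integral_abs_lin_le (P := flip τ F) hm hv).trans (add_zero _).ge
  | src A lo hi =>
    have hS := (prof_cone hP.1 hP.2.1 hP.2.2.2).bm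
    simp only [aff, mass]
    rw [← integral_abs_prof hP.1 hP.2.1 hP.2.2.1 hP.2.2.2,
      ← integral_add hv.abs.integrable hS.abs.integrable]
    exact integral_mono (hv.add hS).abs.integrable (hv.abs.add hS.abs).integrable
      fun x => abs_add_le _ _

theorem lin_static (hm : 0 < m) (hP : P.OK) {H : ℝ} (hH : P.Below H) (hv : BM v) {θ : ℝ → ℝ}
    (hθ : Up θ) (h0 : ∀ s, s ≤ H → θ s = 0) {Λ : ℝ} (hΛ : 0 ≤ Λ)
    (h2 : ∀ s δ, |θ (s + δ) + θ (s - δ) - 2 * θ s| ≤ Λ * δ ^ 2) :
    |(∫ x, P.lin m v x * upf θ x) - ∫ x, v x * upf θ x| ≤ 3 * Λ * P.sdur m * ∫ x, |v x| := by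
  have key : ∀ {v : X2 → ℝ}, BM v → 0 < P.dur → P.dur ≤ 1 / 48 →
      |(∫ x, heat (P.box m) v x * upf θ x) - ∫ x, v x * upf θ x|
        ≤ 3 * Λ * P.sdur m * ∫ x, |v x| := by
    intro v hv h1 h3
    have := heat_static (P.box_nonneg m) hv hθ.bm hΛ (fun x s => by simp [upf, ex])
      (fun x s hs => hθ.second_diff h2 x (hs.trans (box_bounds hm h1 h3).2))
    rw [box_sq hP] at this
    convert this using 2
    ring
  cases P with
  | rest D l => exact key hv hP.1 hP.2
  | flip τ F =>
    obtain ⟨a0, a2⟩ := two_div_bounds hm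
    have hm' := F.map_mp a0 a2
    have h3 := key (hv.comp hm'.measurable) hP.1 hP.2
    have hz : ∀ y : UnitAddCircle, ‖y‖ ≤ F.β → θ (fr y) = 0 := fun y hy => by
      rcases fr_of_norm_le hy with h | h
      · exact h0 _ (h.trans hH)
      · exact hθ.high _ h
    have h4 : ∀ x, upf θ (F.map (2 / m) x) = upf θ x := fun x => by
      rcases F.map_band a0 a2 x with h | ⟨h, h'⟩
      · rw [h]
      · rw [upf, upf, hz _ h, hz _ h']
    have h5 : ∫ x, v (F.map (2 / m) x) * upf θ x = ∫ x, v x * upf θ x := by
      rw [← integral_comp_mp hm' (hv.mul hθ.bm).1]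
      simp only [h4]
    rw [h5, integral_comp_mp hm' hv.abs.1] at h3
    exact h3
  | src A lo hi =>
    simp only [lin, sub_self, abs_zero, sdur, dur, zero_div, mul_zero, zero_mul, le_refl]

end step

end Phase

/-- Apply the steps of a list one after the other. -/
def run (f : Phase → (X2 → ℝ) → X2 → ℝ) (l : List Phase) (v : X2 → ℝ) : X2 → ℝ :=
  l.foldl (fun v P => f P v) v

/-- The list of steps of a list of phases. -/
def expand (m : ℕ) (l : List Phase) : List Phase :=
  l.flatMap fun P => List.replicate (P.cnt m) P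

/-- The total duration. -/
def tot (d : Phase → ℝ) (l : List Phase) : ℝ := (l.map d).sum

/-- The phase that is active at time `t`. -/
noncomputable def look (d : Phase → ℝ) : List Phase → ℝ → Phase
  | [], _ => Phase.rest 0 none
  | P :: l, t => if t < d P then P else look d l (t - d P)

/-- The state of the scheme at time `t`. -/
noncomputable def traj (m : ℕ) : List Phase → (X2 → ℝ) → ℝ → X2 → ℝ
  | [], v, _ => v
  | P :: l, v, t => if t < P.sdur m then v else traj m l (P.nl m v) (t - P.sdur m)

section lists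

variable {f : Phase → (X2 → ℝ) → X2 → ℝ} {d : Phase → ℝ} {m : ℕ} {l l₁ l₂ : List Phase}
  {u v w : X2 → ℝ}

@[simp] theorem run_nil : run f [] v = v := rfl

@[simp] theorem run_cons (P : Phase) : run f (P :: l) v = run f l (f P v) := rfl

theorem run_append : run f (l₁ ++ l₂) v = run f l₂ (run f l₁ v) := List.foldl_append

theorem run_replicate (P : Phase) (n : ℕ) : run f (List.replicate n P) v = (f P)^[n] v := by
  induction n generalizing v with
  | zero => rfl
  | succ n ih => rw [List.replicate_succ, run_cons, ih, Function.iterate_succ_apply]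

@[simp] theorem expand_nil : expand m [] = [] := rfl

theorem expand_append : expand m (l₁ ++ l₂) = expand m l₁ ++ expand m l₂ := List.flatMap_append

theorem expand_cons (P : Phase) :
    expand m (P :: l) = List.replicate (P.cnt m) P ++ expand m l := List.flatMap_cons

theorem expand_single (P : Phase) : expand m [P] = List.replicate (P.cnt m) P := by
  rw [expand_cons, expand_nil, List.append_nil]

theorem forall_expand {Q : Phase → Prop} (h : ∀ P ∈ l, Q P) : ∀ P ∈ expand m l, Q P := by
  intro P hP
  obtain ⟨P', h1, h2⟩ := List.mem_flatMap.1 hP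
  rw [List.eq_of_mem_replicate h2]
  exact h P' h1

@[simp] theorem tot_nil : tot d [] = 0 := rfl

@[simp] theorem tot_cons (P : Phase) : tot d (P :: l) = d P + tot d l := by simp [tot]

theorem tot_append : tot d (l₁ ++ l₂) = tot d l₁ + tot d l₂ := by simp [tot]

theorem tot_replicate (P : Phase) (n : ℕ) : tot d (List.replicate n P) = n * d P := by
  simp [tot]

theorem tot_nonneg (h : ∀ P ∈ l, 0 ≤ d P) : 0 ≤ tot d l := by
  induction l with
  | nil => exact le_rfl
  | cons P l ih =>
    rw [tot_cons]
    exact add_nonneg (h P (by simp)) (ih fun Q hQ => h Q (by simp [hQ]))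

theorem tot_expand (hm : 0 < m) : tot (Phase.sdur m) (expand m l) = tot Phase.dur l := by
  induction l with
  | nil => rfl
  | cons P l ih => rw [expand_cons, tot_append, tot_replicate, ih, tot_cons, Phase.cnt_mul_sdur hm]

theorem tot_mass_expand : tot Phase.mass (expand m l) = tot Phase.mass l := by
  induction l with
  | nil => rfl
  | cons P l ih =>
    rw [expand_cons, tot_append, tot_replicate, ih, tot_cons]
    cases P <;> simp [Phase.cnt, Phase.mass]

theorem look_append (h : ∀ P ∈ l₁, 0 ≤ d P) {t : ℝ} (ht : 0 ≤ t) :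
    look d (l₁ ++ l₂) t = if t < tot d l₁ then look d l₁ t else look d l₂ (t - tot d l₁) := by
  induction l₁ generalizing t with
  | nil => simp [ht]
  | cons P l ih =>
    have h1 := tot_nonneg (d := d) (l := l) fun Q hQ => h Q (by simp [hQ])
    simp only [List.cons_append, look, tot_cons]
    by_cases hP : t < d P
    · rw [if_pos hP, if_pos hP, if_pos (by linarith)]
    · rw [if_neg hP, if_neg hP, ih (fun Q hQ => h Q (by simp [hQ])) (by linarith)]
      by_cases h2 : t - d P < tot d l
      · rw [if_pos h2, if_pos (by linarith)]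
      · rw [if_neg h2, if_neg (by linarith), sub_sub]

theorem look_replicate (P : Phase) (n : ℕ) {t : ℝ} (h0 : 0 ≤ t) (ht : t < n * d P) :
    look d (List.replicate n P) t = P := by
  induction n generalizing t with
  | zero => simp at ht; linarith
  | succ n ih =>
    rw [List.replicate_succ, look]
    split_ifs with h
    · rfl
    · exact ih (by linarith) (by push_cast at ht; linarith)

theorem look_expand (hm : 0 < m) (h : ∀ P ∈ l, P.OK) {t : ℝ} (ht : 0 ≤ t) :
    look (Phase.sdur m) (expand m l) t = look Phase.dur l t := by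
  induction l generalizing t with
  | nil => rfl
  | cons P l ih =>
    have hP := h P (by simp)
    rw [expand_cons, look_append (fun Q hQ => by
      rw [List.eq_of_mem_replicate hQ]; exact hP.sdur_nonneg m) ht, tot_replicate,
      Phase.cnt_mul_sdur hm, look]
    split_ifs with h1
    · exact look_replicate P _ ht (by rwa [Phase.cnt_mul_sdur hm])
    · exact ih (fun Q hQ => h Q (by simp [hQ])) (by linarith)

theorem look_of_ge (h : ∀ P ∈ l, 0 ≤ d P) {t : ℝ} (ht : tot d l ≤ t) :
    look d l t = Phase.rest 0 none := by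
  have := look_append (l₂ := []) h ((tot_nonneg h).trans ht)
  rw [List.append_nil, if_neg (not_lt.2 ht)] at this
  exact this

theorem look_mem (t : ℝ) : look d l t ∈ l ∨ look d l t = Phase.rest 0 none := by
  induction l generalizing t with
  | nil => right; rfl
  | cons P l ih =>
    rw [look]
    split_ifs
    · left; simp
    · rcases ih (t - d P) with h | h
      · left; simp [h]
      · right; exact h

theorem traj_append (h : ∀ P ∈ l₁, P.OK) {t : ℝ} (ht : 0 ≤ t) :
    traj m (l₁ ++ l₂) v t = if t < tot (Phase.sdur m) l₁ then traj m l₁ v t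
      else traj m l₂ (run (Phase.nl m) l₁ v) (t - tot (Phase.sdur m) l₁) := by
  induction l₁ generalizing t v with
  | nil => simp [ht]
  | cons P l ih =>
    have h1 := tot_nonneg (d := Phase.sdur m) (l := l)
      fun Q hQ => (h Q (by simp [hQ])).sdur_nonneg m
    simp only [List.cons_append, traj, tot_cons, run_cons]
    by_cases hP : t < P.sdur m
    · rw [if_pos hP, if_pos hP, if_pos (by linarith)]
    · rw [if_neg hP, if_neg hP, ih (fun Q hQ => h Q (by simp [hQ])) (by linarith)]
      by_cases h2 : t - P.sdur m < tot (Phase.sdur m) l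
      · rw [if_pos h2, if_pos (by linarith)]
      · rw [if_neg h2, if_neg (by linarith), sub_sub]

theorem traj_prefix (t : ℝ) : ∃ l', l' <+: l ∧ traj m l v t = run (Phase.nl m) l' v := by
  induction l generalizing t v with
  | nil => exact ⟨[], List.prefix_rfl, rfl⟩
  | cons P l ih =>
    rw [traj]
    split_ifs
    · exact ⟨[], List.nil_prefix, rfl⟩
    · obtain ⟨l', h1, h2⟩ := ih (v := P.nl m v) (t - P.sdur m)
      exact ⟨P :: l', (List.prefix_cons_inj P).2 h1, h2⟩

theorem measurable_look {Y Z : Type*} [MeasurableSpace Y] [MeasurableSpace Z]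
    {F : Phase → ℝ × Y → Z} (hF : ∀ P, Measurable (F P)) (c : ℝ) :
    Measurable fun z : ℝ × Y => F (look d l (z.1 - c)) z := by
  induction l generalizing c with
  | nil => exact hF _
  | cons P l ih =>
    have : (fun z : ℝ × Y => F (look d (P :: l) (z.1 - c)) z) = fun z =>
        if z.1 - c < d P then F P z else F (look d l (z.1 - (c + d P))) z := by
      funext z
      rw [look, ← sub_sub]
      split_ifs <;> rfl
    rw [this]
    exact Measurable.ite (measurableSet_lt (by fun_prop) measurable_const) (hF P) (ih _)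

theorem run_inv {Q : (X2 → ℝ) → Prop} (h : ∀ P ∈ l, ∀ v, Q v → Q (f P v)) (hv : Q v) :
    Q (run f l v) := by
  induction l generalizing v with
  | nil => exact hv
  | cons P l ih => exact ih (fun P' hP' => h P' (by simp [hP'])) (h P (by simp) v hv)

theorem run_nl_cone (hm : 0 < m) (h : ∀ P ∈ l, P.OK) (hv : Cone v) :
    Cone (run (Phase.nl m) l v) :=
  run_inv (fun P hP _ hv => Phase.nl_cone hm (h P hP) hv) hv

theorem run_lin_cone (hm : 0 < m) (h : ∀ P ∈ l, P.OK) (hv : Cone v) :
    Cone (run (Phase.lin m) l v) :=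
  run_inv (fun P hP _ hv => Phase.lin_cone hm (h P hP) hv) hv

theorem run_aff_cone (hm : 0 < m) (h : ∀ P ∈ l, P.OK) (hv : Cone v) :
    Cone (run (Phase.aff m) l v) :=
  run_inv (fun P hP _ hv => Phase.aff_cone hm (h P hP) hv) hv

theorem run_lin_bm (hm : 0 < m) (hv : BM v) : BM (run (Phase.lin m) l v) :=
  run_inv (fun _ _ _ hv => Phase.lin_bm hm hv) hv

theorem run_nl_mono (hm : 0 < m) (h : ∀ P ∈ l, P.OK) (hu : Cone u) (hv : Cone v)
    (huv : Cone (fun x => u x - v x)) :
    Cone (fun x => run (Phase.nl m) l u x - run (Phase.nl m) l v x) := by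
  induction l generalizing u v with
  | nil => exact huv
  | cons P l ih =>
    have hP := h P (by simp)
    exact ih (fun P' hP' => h P' (by simp [hP'])) (Phase.nl_cone hm hP hu)
      (Phase.nl_cone hm hP hv) (Phase.nl_mono hm hP hu hv huv)

theorem run_nl_sub_lin (hm : 0 < m) (h : ∀ P ∈ l, P.OK) (hu : Cone u) (hv : BM v)
    (huv : Cone (fun x => u x - v x)) :
    Cone (fun x => run (Phase.nl m) l u x - run (Phase.lin m) l v x) := by
  induction l generalizing u v with
  | nil => exact huv
  | cons P l ih =>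
    have hP := h P (by simp)
    exact ih (fun P' hP' => h P' (by simp [hP'])) (Phase.nl_cone hm hP hu)
      (Phase.lin_bm hm hv) (Phase.nl_sub_lin hm hP hu hv huv)

theorem run_lin_add_aff_sub (hm : 0 < m) (h : ∀ P ∈ l, P.OK) (hu : Cone u) (hv : BM v)
    (hw : Cone w) (huv : Cone (fun x => v x + w x - u x)) :
    Cone (fun x => run (Phase.lin m) l v x + run (Phase.aff m) l w x
      - run (Phase.nl m) l u x) := by
  induction l generalizing u v w with
  | nil => exact huv
  | cons P l ih =>
    have hP := h P (by simp)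
    exact ih (fun P' hP' => h P' (by simp [hP'])) (Phase.nl_cone hm hP hu)
      (Phase.lin_bm hm hv) (Phase.aff_cone hm hP hw) (Phase.lin_add_aff_sub hm hP hu hv hw.bm huv)

theorem eLpNorm_run_lin_le (hm : 0 < m) (hv : BM v) {q : ℝ≥0∞} (hq : 1 ≤ q) (hq' : q ≠ ⊤) :
    eLpNorm (run (Phase.lin m) l v) q volume ≤ eLpNorm v q volume := by
  induction l generalizing v with
  | nil => exact le_rfl
  | cons P l ih => exact (ih (Phase.lin_bm hm hv)).trans (Phase.eLpNorm_lin_le hm hv hq hq')

theorem integral_abs_run_lin_le (hm : 0 < m) (hv : BM v) :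
    ∫ x, |run (Phase.lin m) l v x| ≤ ∫ x, |v x| := by
  induction l generalizing v with
  | nil => exact le_rfl
  | cons P l ih => exact (ih (Phase.lin_bm hm hv)).trans (Phase.integral_abs_lin_le hm hv)

theorem integral_abs_run_aff_le (hm : 0 < m) (h : ∀ P ∈ l, P.OK) (hv : Cone v) :
    ∫ x, |run (Phase.aff m) l v x| ≤ (∫ x, |v x|) + tot Phase.mass l := by
  induction l generalizing v with
  | nil => simp
  | cons P l ih =>
    have hP := h P (by simp)
    have h1 := ih (fun P' hP' => h P' (by simp [hP'])) (Phase.aff_cone hm hP hv)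
    have h2 := Phase.integral_abs_aff_le hm hP hv.bm
    rw [run_cons, tot_cons]
    linarith

theorem run_lin_static (hm : 0 < m) (h : ∀ P ∈ l, P.OK) {H : ℝ} (hH : ∀ P ∈ l, P.Below H)
    (hv : BM v) {θ : ℝ → ℝ} (hθ : Up θ) (h0 : ∀ s, s ≤ H → θ s = 0) {Λ : ℝ} (hΛ : 0 ≤ Λ)
    (h2 : ∀ s δ, |θ (s + δ) + θ (s - δ) - 2 * θ s| ≤ Λ * δ ^ 2) :
    (∫ x, v x * upf θ x) - 3 * Λ * tot (Phase.sdur m) l * ∫ x, |v x|
      ≤ ∫ x, run (Phase.lin m) l v x * upf θ x := by
  induction l generalizing v with
  | nil => simp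
  | cons P l ih =>
    have hP := h P (by simp)
    have h3 := ih (fun P' hP' => h P' (by simp [hP'])) (fun P' hP' => hH P' (by simp [hP']))
      (Phase.lin_bm (P := P) hm hv)
    have h4 := (abs_le.1 (Phase.lin_static hm hP (hH P (by simp)) hv hθ h0 hΛ h2)).1
    have h5 := Phase.integral_abs_lin_le (P := P) hm hv
    have h6 : 0 ≤ 3 * Λ * tot (Phase.sdur m) l := by
      have := tot_nonneg (d := Phase.sdur m) (l := l)
        fun Q hQ => (h Q (by simp [hQ])).sdur_nonneg m
      positivity
    have h7 := mul_le_mul_of_nonneg_left h5 h6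
    rw [run_cons, tot_cons]
    linarith

theorem traj_cone (hm : 0 < m) (h : ∀ P ∈ l, P.OK) (hv : Cone v) (t : ℝ) :
    Cone (traj m l v t) := by
  obtain ⟨l', h1, h2⟩ := traj_prefix (m := m) (l := l) (v := v) t
  rw [h2]
  exact run_nl_cone hm (fun P hP => h P (h1.subset hP)) hv

theorem abs_traj_le (h : ∀ P ∈ l, P.OK) {B : ℝ} (hA : ∀ P ∈ l, P.Amp B) (hv : ∀ x, |v x| ≤ B)
    (t : ℝ) (x : X2) : |traj m l v t x| ≤ B := by
  obtain ⟨l', h1, h2⟩ := traj_prefix (m := m) (l := l) (v := v) t
  rw [h2]
  exact run_inv (Q := fun v => ∀ x, |v x| ≤ B)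
    (fun P hP _ hv => Phase.abs_nl_le (h P (h1.subset hP)) (hA P (h1.subset hP)) hv) hv x

theorem measurable_traj (hm : 0 < m) (h : ∀ P ∈ l, P.OK) (hv : Cone v) (c : ℝ) :
    Measurable fun z : ℝ × X2 => traj m l v (z.1 - c) z.2 := by
  induction l generalizing c v with
  | nil => exact hv.bm.1.comp measurable_snd
  | cons P l ih =>
    have : (fun z : ℝ × X2 => traj m (P :: l) v (z.1 - c) z.2) = fun z =>
        if z.1 - c < P.sdur m then v z.2 else traj m l (P.nl m v) (z.1 - (c + P.sdur m)) z.2 := by
      funext z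
      rw [traj, ← sub_sub]
      split_ifs <;> rfl
    rw [this]
    exact Measurable.ite (measurableSet_lt (by fun_prop) measurable_const)
      (hv.bm.1.comp measurable_snd)
      (ih (fun P' hP' => h P' (by simp [hP'])) (Phase.nl_cone hm (h P (by simp)) hv) _)

end lists

end AdvDiff
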