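import Pool.Agent.Lib.MP_0c2f33_an.FlipDefs

/-!
The rotation along concentric squares in the plane.
-/

open MeasureTheory Set

namespace AdvDiff

/-- The quarter turn. -/
def rot (w : ℝ × ℝ) : ℝ × ℝ := (-w.2, w.1)

/-- The inverse quarter turn. -/
def rotI (w : ℝ × ℝ) : ℝ × ℝ := (w.2, -w.1)

theorem rotI_rot (w : ℝ × ℝ) : rotI (rot w) = w := by simp [rot, rotI]

theorem rot_rotI (w : ℝ × ℝ) : rot (rotI w) = w := by simp [rot, rotI]

theorem rot_rot (w : ℝ × ℝ) : rot (rot w) = -w := by ext <;> simp [rot]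

theorem rad_rot (w : ℝ × ℝ) : rad (rot w) = rad w := by simp [rot, rad, max_comm]

theorem rad_nonneg (w : ℝ × ℝ) : 0 ≤ rad w := le_trans (abs_nonneg _) (le_max_left _ _)

theorem rad_lt_one {w : ℝ × ℝ} : rad w < 1 ↔ |w.1| < 1 ∧ |w.2| < 1 := by simp [rad]

theorem continuous_rad : Continuous rad := by
  unfold rad; fun_prop

section sectors

variable {h : ℝ}

theorem sqRot_A {w : ℝ × ℝ} (hw : |w.2| ≤ w.1) :
    sqRot h w = (min w.1 (2 * w.1 - w.2 - h * w.1), min w.1 (w.2 + h * w.1)) := by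
  simp [sqRot, hw]

theorem sqRot_B (h0 : 0 ≤ h) (h2 : h ≤ 2) {w : ℝ × ℝ} (hw : |w.1| ≤ w.2) :
    sqRot h w = (max (-w.2) (w.1 - h * w.2), min w.2 (2 * w.2 + w.1 - h * w.2)) := by
  by_cases hA : |w.2| ≤ w.1
  · obtain ⟨a, b⟩ := w
    simp only at hw hA ⊢
    have e : a = b := le_antisymm ((le_abs_self a).trans hw) ((le_abs_self b).trans hA)
    subst e
    have ha : 0 ≤ a := (abs_nonneg a).trans hw
    have h1 : 0 ≤ h * a := mul_nonneg h0 ha
    have h3 : h * a ≤ 2 * a := mul_le_mul_of_nonneg_right h2 ha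
    rw [sqRot_A (w := (a, a)) hA]
    simp only
    rw [min_eq_right (by linarith), min_eq_left (by linarith), max_eq_right (by linarith),
      min_eq_left (by linarith)]
    congr 1; ring
  · simp [sqRot, hA, hw]

theorem sqRot_C (h0 : 0 ≤ h) (h2 : h ≤ 2) {w : ℝ × ℝ} (hw : |w.2| ≤ -w.1) :
    sqRot h w = (max w.1 (2 * w.1 - w.2 - h * w.1), max w.1 (w.2 + h * w.1)) := by
  by_cases hB : |w.1| ≤ w.2
  · obtain ⟨a, b⟩ := w
    simp only at hw hB ⊢
    have e : a = -b := by
      have := (neg_le_abs a).trans hB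
      have := (le_abs_self b).trans hw
      linarith
    subst e
    have hb : 0 ≤ b := (abs_nonneg _).trans hB
    have h1 : 0 ≤ h * b := mul_nonneg h0 hb
    have h3 : h * b ≤ 2 * b := mul_le_mul_of_nonneg_right h2 hb
    rw [sqRot_B h0 h2 (w := (-b, b)) hB]
    simp only
    rw [max_eq_left (by linarith), min_eq_right (by linarith), max_eq_left (by linarith),
      max_eq_right (by linarith)]
    congr 1; ring
  · by_cases hA : |w.2| ≤ w.1
    · exfalso
      apply hB
      have h1 := abs_nonneg w.2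
      have e1 : w.1 = 0 := by linarith
      have e2 : w.2 = 0 := by rw [e1] at hA; exact abs_nonpos_iff.1 hA
      simp [e1, e2]
    · simp [sqRot, hA, hB, hw]

theorem sqRot_D (h0 : 0 ≤ h) (h2 : h ≤ 2) {w : ℝ × ℝ} (hw : |w.1| ≤ -w.2) :
    sqRot h w = (min (-w.2) (w.1 - h * w.2), max w.2 (2 * w.2 + w.1 - h * w.2)) := by
  by_cases hA : |w.2| ≤ w.1
  · obtain ⟨a, b⟩ := w
    simp only at hw hA ⊢
    have e : b = -a := by
      have := (neg_le_abs b).trans hA
      have := (le_abs_self a).trans hw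
      linarith
    subst e
    have ha : 0 ≤ a := (abs_nonneg _).trans hA
    have h1 : 0 ≤ h * a := mul_nonneg h0 ha
    have h3 : h * a ≤ 2 * a := mul_le_mul_of_nonneg_right h2 ha
    rw [sqRot_A (w := (a, -a)) hA]
    simp only
    rw [min_eq_left (by linarith), min_eq_right (by linarith), min_eq_left (by linarith),
      max_eq_right (by linarith)]
    congr 1 <;> ring
  by_cases hC : |w.2| ≤ -w.1
  · obtain ⟨a, b⟩ := w
    simp only at hw hC ⊢
    have e : b = a := by
      have := (neg_le_abs b).trans hC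
      have := (neg_le_abs a).trans hw
      linarith
    subst e
    have ha : 0 ≤ -b := (abs_nonneg _).trans hC
    have h1 : 0 ≤ h * -b := mul_nonneg h0 ha
    have h3 : h * -b ≤ 2 * -b := mul_le_mul_of_nonneg_right h2 ha
    rw [sqRot_C h0 h2 (w := (b, b)) hC]
    simp only
    rw [max_eq_right (by linarith), max_eq_left (by linarith), min_eq_right (by linarith),
      max_eq_left (by linarith)]
    congr 1; ring
  by_cases hB : |w.1| ≤ w.2
  · exfalso
    apply hA
    have h1 := abs_nonneg w.1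
    have e1 : w.2 = 0 := by linarith
    have e2 : w.1 = 0 := by rw [e1] at hB; exact abs_nonpos_iff.1 hB
    simp [e1, e2]
  · simp [sqRot, hA, hB, hC]

theorem sector_cases (w : ℝ × ℝ) :
    |w.2| ≤ w.1 ∨ |w.1| ≤ w.2 ∨ |w.2| ≤ -w.1 ∨ |w.1| ≤ -w.2 := by
  rcases le_total |w.2| |w.1| with h | h
  · rcases abs_cases w.1 with ⟨e, _⟩ | ⟨e, _⟩
    · left; rwa [e] at h
    · right; right; left; rwa [e] at h
  · rcases abs_cases w.2 with ⟨e, _⟩ | ⟨e, _⟩
    · right; left; rwa [e] at h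
    · right; right; right; rwa [e] at h

theorem sector_ind {P : ℝ × ℝ → Prop} (hA : ∀ w : ℝ × ℝ, |w.2| ≤ w.1 → P w)
    (hrot : ∀ w, P w → P (rot w)) (w : ℝ × ℝ) : P w := by
  rcases sector_cases w with h | h | h | h
  · exact hA w h
  · rw [← rot_rotI w]
    exact hrot _ (hA _ (by simpa [rotI] using h))
  · rw [← rot_rotI w, ← rot_rotI (rotI w)]
    exact hrot _ (hrot _ (hA _ (by simpa [rotI] using h)))
  · rw [← rot_rotI w, ← rot_rotI (rotI w), ← rot_rotI (rotI (rotI w))]
    exact hrot _ (hrot _ (hrot _ (hA _ (by simpa [rotI] using h))))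

theorem sqRot_rot (h0 : 0 ≤ h) (h2 : h ≤ 2) (w : ℝ × ℝ) :
    sqRot h (rot w) = rot (sqRot h w) := by
  rcases sector_cases w with hw | hw | hw | hw
  · rw [sqRot_A hw, sqRot_B h0 h2 (w := rot w) (by simpa [rot] using hw)]
    simp only [rot, Prod.mk.injEq]
    constructor
    · rw [← max_neg_neg]; congr 1; ring
    · congr 1
  · rw [sqRot_B h0 h2 hw, sqRot_C h0 h2 (w := rot w) (by simpa [rot] using hw)]
    simp only [rot, Prod.mk.injEq]
    constructor
    · rw [← max_neg_neg]; congr 1; ring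
    · congr 1; ring
  · rw [sqRot_C h0 h2 hw, sqRot_D h0 h2 (w := rot w) (by simpa [rot] using hw)]
    simp only [rot, Prod.mk.injEq]
    constructor
    · rw [← min_neg_neg]; congr 1; ring
    · congr 1
  · rw [sqRot_D h0 h2 hw, sqRot_A (w := rot w) (by simpa [rot] using hw)]
    simp only [rot, Prod.mk.injEq]
    constructor
    · rw [← min_neg_neg]; congr 1; ring
    · congr 1; ring

theorem sqRot_A0 {w : ℝ × ℝ} (hw : |w.2| ≤ w.1) (hc : w.2 + h * w.1 ≤ w.1) :
    sqRot h w = (w.1, w.2 + h * w.1) := by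
  rw [sqRot_A hw, min_eq_left (by linarith), min_eq_right hc]

theorem sqRot_A1 {w : ℝ × ℝ} (hw : |w.2| ≤ w.1) (hc : w.1 ≤ w.2 + h * w.1) :
    sqRot h w = (2 * w.1 - w.2 - h * w.1, w.1) := by
  rw [sqRot_A hw, min_eq_right (by linarith), min_eq_left hc]

theorem rad_of_A {w : ℝ × ℝ} (hw : |w.2| ≤ w.1) : rad w = w.1 := by
  have : 0 ≤ w.1 := (abs_nonneg _).trans hw
  rw [rad, abs_of_nonneg this, max_eq_left hw]

theorem rad_of_B {w : ℝ × ℝ} (hw : |w.1| ≤ w.2) : rad w = w.2 := by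
  have : 0 ≤ w.2 := (abs_nonneg _).trans hw
  rw [rad, abs_of_nonneg this, max_eq_right hw]

theorem rad_sqRot (h0 : 0 ≤ h) (h2 : h ≤ 2) (w : ℝ × ℝ) : rad (sqRot h w) = rad w := by
  induction w using sector_ind with
  | hA w hw =>
    have ha : 0 ≤ w.1 := (abs_nonneg _).trans hw
    have h1 : 0 ≤ h * w.1 := mul_nonneg h0 ha
    have h3 : h * w.1 ≤ 2 * w.1 := mul_le_mul_of_nonneg_right h2 ha
    have h4 := abs_le.1 hw
    rw [rad_of_A hw]
    rcases le_total (w.2 + h * w.1) w.1 with hc | hc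
    · rw [sqRot_A0 hw hc, rad_of_A]
      exact abs_le.2 ⟨by simp only; linarith, hc⟩
    · rw [sqRot_A1 hw hc, rad_of_B]
      exact abs_le.2 ⟨by simp only; linarith, by simp only; linarith⟩
  | hrot w ih => rw [sqRot_rot h0 h2, rad_rot, rad_rot, ih]

theorem sqRot_add {t : ℝ} (h0 : 0 ≤ h) (t0 : 0 ≤ t) (h2 : t + h ≤ 2) (w : ℝ × ℝ) :
    sqRot t (sqRot h w) = sqRot (t + h) w := by
  induction w using sector_ind with
  | hA w hw =>
    have ha : 0 ≤ w.1 := (abs_nonneg _).trans hw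
    have h1 : 0 ≤ h * w.1 := mul_nonneg h0 ha
    have h1' : 0 ≤ t * w.1 := mul_nonneg t0 ha
    have h3 : (t + h) * w.1 ≤ 2 * w.1 := mul_le_mul_of_nonneg_right h2 ha
    have h3' : (t + h) * w.1 = t * w.1 + h * w.1 := by ring
    have h4 := abs_le.1 hw
    rcases le_total (w.2 + h * w.1) w.1 with hc | hc
    · rw [sqRot_A0 hw hc, sqRot_A (w := (w.1, w.2 + h * w.1))
        (abs_le.2 ⟨by simp only; linarith, hc⟩), sqRot_A hw]
      simp only [Prod.mk.injEq]
      constructor <;> congr 1 <;> ring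
    · rw [sqRot_A1 hw hc, sqRot_B t0 (by linarith) (w := (2 * w.1 - w.2 - h * w.1, w.1))
        (abs_le.2 ⟨by simp only; linarith, by simp only; linarith⟩),
        sqRot_A1 hw (by linarith)]
      simp only [Prod.mk.injEq]
      constructor
      · rw [max_eq_right (by linarith)]; ring
      · rw [min_eq_left (by linarith)]
  | hrot w ih =>
    rw [sqRot_rot h0 (by linarith), sqRot_rot t0 (by linarith), ih,
      sqRot_rot (by linarith) h2]

theorem sqRot_zero (w : ℝ × ℝ) : sqRot 0 w = w := by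
  induction w using sector_ind with
  | hA w hw =>
    rw [sqRot_A0 hw (by have := abs_le.1 hw; linarith)]; simp
  | hrot w ih => rw [sqRot_rot le_rfl (by norm_num), ih]

theorem sqRot_two (w : ℝ × ℝ) : sqRot 2 w = rot w := by
  induction w using sector_ind with
  | hA w hw =>
    rw [sqRot_A1 hw (by have := abs_le.1 hw; linarith)]; simp [rot]
  | hrot w ih => rw [sqRot_rot (by norm_num) le_rfl, ih]

theorem sqRot_sub (h0 : 0 ≤ h) (h2 : h ≤ 2) (w : ℝ × ℝ) :
    |(sqRot h w).1 - w.1| ≤ h * rad w ∧ |(sqRot h w).2 - w.2| ≤ h * rad w := by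
  induction w using sector_ind with
  | hA w hw =>
    have ha : 0 ≤ w.1 := (abs_nonneg _).trans hw
    have h1 : 0 ≤ h * w.1 := mul_nonneg h0 ha
    have h4 := abs_le.1 hw
    rw [rad_of_A hw]
    rcases le_total (w.2 + h * w.1) w.1 with hc | hc
    · rw [sqRot_A0 hw hc]
      exact ⟨by simpa using h1, abs_le.2 ⟨by simp only; linarith, by simp only; linarith⟩⟩
    · rw [sqRot_A1 hw hc]
      exact ⟨abs_le.2 ⟨by simp only; linarith, by simp only; linarith⟩,
        abs_le.2 ⟨by simp only; linarith, by simp only; linarith⟩⟩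
  | hrot w ih =>
    rw [sqRot_rot h0 h2, rad_rot]
    refine ⟨?_, ih.1⟩
    have : (rot (sqRot h w)).1 - (rot w).1 = -((sqRot h w).2 - w.2) := by simp [rot]; ring
    rw [this, abs_neg]; exact ih.2

theorem sqVel_le (w : ℝ × ℝ) : |(sqVel w).1| ≤ rad w ∧ |(sqVel w).2| ≤ rad w := by
  unfold sqVel
  split_ifs
  · exact ⟨by simpa using rad_nonneg w, le_max_left _ _⟩
  · exact ⟨by simp [rad], by simpa using rad_nonneg w⟩

theorem sqVel_rot {w : ℝ × ℝ} (hw : |w.1| ≠ |w.2|) : sqVel (rot w) = rot (sqVel w) := by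
  unfold sqVel
  by_cases h : |w.2| ≤ |w.1|
  · have : ¬ |w.1| ≤ |w.2| := fun h' => hw (le_antisymm h' h)
    simp [rot, h, this]
  · have : |w.1| ≤ |w.2| := le_of_lt (not_le.1 h)
    simp [rot, h, this]

theorem sqRot_free (h0 : 0 ≤ h) (h2 : h ≤ 2) (w : ℝ × ℝ) (hw : h * rad w < |(|w.1| - |w.2|)|) :
    sqRot h w = (w.1 + h * (sqVel w).1, w.2 + h * (sqVel w).2) ∧
      sqVel (sqRot h w) = sqVel w ∧ |(sqRot h w).1| ≠ |(sqRot h w).2| := by
  induction w using sector_ind with
  | hA w hA =>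
    have ha : 0 ≤ w.1 := (abs_nonneg _).trans hA
    have h1 : 0 ≤ h * w.1 := mul_nonneg h0 ha
    have h4 := abs_le.1 hA
    rw [rad_of_A hA, abs_of_nonneg ha, abs_of_nonneg (sub_nonneg.2 hA)] at hw
    have h5 := le_abs_self w.2
    have h6 := neg_abs_le w.2
    have hlt : |w.2 + h * w.1| < w.1 := abs_lt.2 ⟨by linarith, by linarith⟩
    rw [sqRot_A0 hA (by linarith)]
    have hv : sqVel w = (0, w.1) := by simp [sqVel, abs_of_nonneg ha, hA]
    refine ⟨by simp [hv], ?_, ?_⟩
    · rw [hv]; simp [sqVel, abs_of_nonneg ha, hlt.le]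
    · simp only [abs_of_nonneg ha]; exact hlt.ne'
  | hrot w ih =>
    have hw' : h * rad w < |(|w.1| - |w.2|)| := by
      rw [rad_rot] at hw
      simpa [rot, abs_sub_comm] using hw
    have hne : |w.1| ≠ |w.2| := by
      intro e
      rw [e, sub_self, abs_zero] at hw'
      exact absurd hw' (not_lt.2 (mul_nonneg h0 (rad_nonneg w)))
    obtain ⟨e1, e2, e3⟩ := ih hw'
    rw [sqRot_rot h0 h2, sqVel_rot e3, sqVel_rot hne, e2]
    refine ⟨?_, rfl, ?_⟩
    · rw [e1]; simp [rot]; ring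
    · simpa [rot] using e3.symm

theorem min_close {a b a' b' e : ℝ} (h1 : |a - a'| ≤ e) (h2 : |b - b'| ≤ e) :
    |min a b - min a' b'| ≤ e :=
  (abs_min_sub_min_le_max a b a' b').trans (max_le h1 h2)

/-- Both coordinates differ by at most `d`. -/
def Near (d : ℝ) (w w' : ℝ × ℝ) : Prop := |w.1 - w'.1| ≤ d ∧ |w.2 - w'.2| ≤ d

theorem Near.rot {d : ℝ} {w w' : ℝ × ℝ} (h : Near d w w') : Near d (rot w) (rot w') := by
  refine ⟨?_, h.1⟩
  have : (AdvDiff.rot w).1 - (AdvDiff.rot w').1 = -(w.2 - w'.2) := by simp [AdvDiff.rot]; ring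
  rw [this, abs_neg]; exact h.2

theorem Near.rotI {d : ℝ} {w w' : ℝ × ℝ} (h : Near d w w') : Near d (rotI w) (rotI w') := by
  refine ⟨h.2, ?_⟩
  have : (AdvDiff.rotI w).2 - (AdvDiff.rotI w').2 = -(w.1 - w'.1) := by simp [AdvDiff.rotI]; ring
  rw [this, abs_neg]; exact h.1

theorem Near.symm {d : ℝ} {w w' : ℝ × ℝ} (h : Near d w w') : Near d w' w :=
  ⟨by rw [abs_sub_comm]; exact h.1, by rw [abs_sub_comm]; exact h.2⟩

theorem Near.trans {d e : ℝ} {w w' w'' : ℝ × ℝ} (h : Near d w w') (h' : Near e w' w'') :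
    Near (d + e) w w'' :=
  ⟨(abs_sub_le _ _ _).trans (add_le_add h.1 h'.1), (abs_sub_le _ _ _).trans (add_le_add h.2 h'.2)⟩

theorem Near.mono {d e : ℝ} {w w' : ℝ × ℝ} (h : Near d w w') (hde : d ≤ e) : Near e w w' :=
  ⟨h.1.trans hde, h.2.trans hde⟩

theorem near_AA (h0 : 0 ≤ h) (h2 : h ≤ 2) {d : ℝ} {w w' : ℝ × ℝ} (hw : |w.2| ≤ w.1)
    (hw' : |w'.2| ≤ w'.1) (hd : Near d w w') : Near (5 * d) (sqRot h w) (sqRot h w') := by
  rw [sqRot_A hw, sqRot_A hw']
  have hd0 : 0 ≤ d := (abs_nonneg _).trans hd.1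
  have h1 := abs_le.1 hd.1
  have h3 := abs_le.1 hd.2
  have h4 : |h * w.1 - h * w'.1| ≤ 2 * d := by
    rw [← mul_sub, abs_mul, abs_of_nonneg h0]
    exact mul_le_mul h2 hd.1 (abs_nonneg _) (by norm_num)
  have h5 := abs_le.1 h4
  constructor <;> apply min_close <;> apply abs_le.2 <;> constructor <;> linarith

theorem near_BB (h0 : 0 ≤ h) (h2 : h ≤ 2) {d : ℝ} {w w' : ℝ × ℝ} (hw : |w.1| ≤ w.2)
    (hw' : |w'.1| ≤ w'.2) (hd : Near d w w') : Near (5 * d) (sqRot h w) (sqRot h w') := by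
  rw [← rot_rotI w, ← rot_rotI w', sqRot_rot h0 h2, sqRot_rot h0 h2]
  exact (near_AA h0 h2 (by simpa [rotI] using hw) (by simpa [rotI] using hw') hd.rotI).rot

theorem near_AB (h0 : 0 ≤ h) (h2 : h ≤ 2) {d : ℝ} {w w' : ℝ × ℝ} (hw : |w.2| ≤ w.1)
    (hw' : |w'.1| ≤ w'.2) (hd : Near d w w') : Near (25 * d) (sqRot h w) (sqRot h w') := by
  have ha : 0 ≤ w.1 := (abs_nonneg _).trans hw
  have h1 := abs_le.1 hd.1
  have h3 := abs_le.1 hd.2
  have h4 := abs_le.1 hw
  have h5 := abs_le.1 hw'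
  have n1 : Near (2 * d) w (w.1, w.1) :=
    ⟨abs_le.2 ⟨by simp only; linarith, by simp only; linarith⟩,
      abs_le.2 ⟨by simp only; linarith, by simp only; linarith⟩⟩
  have n2 : Near (3 * d) (w.1, w.1) w' :=
    ⟨abs_le.2 ⟨by simp only; linarith, by simp only; linarith⟩,
      abs_le.2 ⟨by simp only; linarith, by simp only; linarith⟩⟩
  have z : |w.1| ≤ w.1 := (abs_of_nonneg ha).le
  exact ((near_AA h0 h2 hw (w' := (w.1, w.1)) z n1).trans
    (near_BB h0 h2 (w := (w.1, w.1)) z hw' n2)).mono (by linarith)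

theorem near_sqRot (h0 : 0 ≤ h) (h2 : h ≤ 2) {d : ℝ} (w : ℝ × ℝ) :
    ∀ w', Near d w w' → Near (25 * d) (sqRot h w) (sqRot h w') := by
  induction w using sector_ind with
  | hA w hw =>
    intro w' hd
    have hd0 : 0 ≤ d := (abs_nonneg _).trans hd.1
    rcases sector_cases w' with hw' | hw' | hw' | hw'
    · exact (near_AA h0 h2 hw hw' hd).mono (by linarith)
    · exact near_AB h0 h2 hw hw' hd
    · have h1 := abs_le.1 hd.1
      have ha : 0 ≤ w.1 := (abs_nonneg _).trans hw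
      have hb : 0 ≤ -w'.1 := (abs_nonneg _).trans hw'
      have r1 : rad (sqRot h w) ≤ d := by rw [rad_sqRot h0 h2, rad_of_A hw]; linarith
      have r2 : rad (sqRot h w') ≤ d := by
        rw [rad_sqRot h0 h2, rad, abs_of_nonpos (by linarith), max_eq_left hw']; linarith
      simp only [rad, max_le_iff] at r1 r2
      exact ⟨(abs_sub _ _).trans (by linarith [r1.1, r2.1]),
        (abs_sub _ _).trans (by linarith [r1.2, r2.2])⟩
    · have := near_AB h0 h2 (w := rot w') (w' := rot w) (by simpa [rot] using hw')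
        (by simpa [rot] using hw) hd.symm.rot
      rw [sqRot_rot h0 h2, sqRot_rot h0 h2] at this
      have := this.rotI
      rw [rotI_rot, rotI_rot] at this
      exact this.symm
  | hrot w ih =>
    intro w' hd
    have := ih (rotI w') (by have := hd.rotI; rwa [rotI_rot] at this)
    rw [← rot_rotI w', sqRot_rot h0 h2, sqRot_rot h0 h2]
    exact this.rot

theorem near_rad {d : ℝ} {w w' : ℝ × ℝ} (hd : Near d w w') : |rad w - rad w'| ≤ d := by
  refine (abs_max_sub_max_le_max _ _ _ _).trans (max_le ?_ ?_)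
  · exact (abs_abs_sub_abs_le_abs_sub _ _).trans hd.1
  · exact (abs_abs_sub_abs_le_abs_sub _ _).trans hd.2

theorem continuous_sqRot (h0 : 0 ≤ h) (h2 : h ≤ 2) : Continuous (sqRot h) := by
  have : LipschitzWith 25 (sqRot h) := by
    refine LipschitzWith.of_dist_le_mul fun w w' => ?_
    have := near_sqRot h0 h2 (d := dist w w') w w'
      ⟨by rw [← Real.dist_eq, Prod.dist_eq]; exact le_max_left _ _,
       by rw [← Real.dist_eq, Prod.dist_eq]; exact le_max_right _ _⟩
    rw [Prod.dist_eq (x := sqRot h w), Real.dist_eq, Real.dist_eq]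
    exact max_le this.1 this.2
  exact this.continuous

/-- Iterates of the small step. -/
theorem sqRot_iter {m : ℕ} (hm : 0 < m) {j : ℕ} (hj : j ≤ m) (w : ℝ × ℝ) :
    (sqRot (2 / m))^[j] w = sqRot (2 * j / m) w := by
  have hm' : (0 : ℝ) < m := by exact_mod_cast hm
  induction j with
  | zero => simp [sqRot_zero]
  | succ j ih =>
    have hj' : ((j + 1 : ℕ) : ℝ) ≤ m := by exact_mod_cast hj
    have e : (2 : ℝ) / m + 2 * j / m = 2 * ((j + 1 : ℕ) : ℝ) / m := by push_cast; ring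
    rw [Function.iterate_succ_apply', ih (by omega), sqRot_add (by positivity) (by positivity), e]
    rw [e, div_le_iff₀ hm']; linarith

theorem sqRot_iter_m {m : ℕ} (hm : 0 < m) (w : ℝ × ℝ) : (sqRot (2 / m))^[m] w = rot w := by
  have hm' : (m : ℝ) ≠ 0 := by exact_mod_cast hm.ne'
  rw [sqRot_iter hm le_rfl, mul_div_assoc, div_self hm', mul_one, sqRot_two]

theorem sqRot_iter_two {m : ℕ} (hm : 0 < m) (w : ℝ × ℝ) : (sqRot (2 / m))^[2 * m] w = -w := by
  rw [two_mul, Function.iterate_add_apply, sqRot_iter_m hm, sqRot_iter_m hm, rot_rot]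

theorem near_iter {m : ℕ} (hm : 0 < m) {j : ℕ} (hj : j ≤ 2 * m) {d : ℝ} {w w' : ℝ × ℝ}
    (hd : Near d w w') : Near (25 * d) ((sqRot (2 / m))^[j] w) ((sqRot (2 / m))^[j] w') := by
  have hm' : (0 : ℝ) < m := by exact_mod_cast hm
  have key : ∀ i ≤ m, ∀ v v' : ℝ × ℝ, Near d v v' →
      Near (25 * d) ((sqRot (2 / m))^[i] v) ((sqRot (2 / m))^[i] v') := by
    intro i hi v v' hv
    have hi' : (i : ℝ) ≤ m := by exact_mod_cast hi
    rw [sqRot_iter hm hi, sqRot_iter hm hi]
    exact near_sqRot (by positivity) (by rw [div_le_iff₀ hm']; linarith) v v' hv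
  rcases le_total j m with h | h
  · exact key j h w w' hd
  · obtain ⟨i, rfl⟩ := Nat.exists_eq_add_of_le' h
    rw [Function.iterate_add_apply, Function.iterate_add_apply, sqRot_iter_m hm, sqRot_iter_m hm]
    exact key i (by omega) _ _ hd.rot

theorem rad_iter (h0 : 0 ≤ h) (h2 : h ≤ 2) (j : ℕ) (w : ℝ × ℝ) :
    rad ((sqRot h)^[j] w) = rad w := by
  induction j with
  | zero => rfl
  | succ j ih => rw [Function.iterate_succ_apply', rad_sqRot h0 h2, ih]

end sectors

section measure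

theorem mp_rot : MeasurePreserving rot (volume : Measure (ℝ × ℝ)) volume := by
  have h1 : MeasurePreserving (Prod.map (fun t : ℝ => -t) (id : ℝ → ℝ))
      (volume : Measure (ℝ × ℝ)) volume :=
    (Measure.measurePreserving_neg volume).prod (MeasurePreserving.id volume)
  exact h1.comp Measure.measurePreserving_swap

theorem mp_rotI : MeasurePreserving rotI (volume : Measure (ℝ × ℝ)) volume := by
  have h1 : MeasurePreserving (Prod.map (id : ℝ → ℝ) (fun t : ℝ => -t))
      (volume : Measure (ℝ × ℝ)) volume :=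
    (MeasurePreserving.id volume).prod (Measure.measurePreserving_neg volume)
  exact h1.comp Measure.measurePreserving_swap

theorem mp_shear (c : ℝ) : MeasurePreserving (fun w : ℝ × ℝ => (w.1, w.2 + c * w.1))
    (volume : Measure (ℝ × ℝ)) volume :=
  MeasurePreserving.skew_product (MeasurePreserving.id (volume : Measure ℝ))
    (g := fun a b : ℝ => b + c * a) (by fun_prop)
    (Filter.Eventually.of_forall fun a => map_add_right_eq_self volume (c * a))

/-- `f` does not increase the measure of measurable subsets of `s`. -/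
def Good (f : ℝ × ℝ → ℝ × ℝ) (s : Set (ℝ × ℝ)) : Prop :=
  ∀ B, MeasurableSet B → B ⊆ s → volume (f '' B) ≤ volume B

theorem Good.union {f : ℝ × ℝ → ℝ × ℝ} {s t : Set (ℝ × ℝ)} (hs : MeasurableSet s)
    (h1 : Good f s) (h2 : Good f t) : Good f (s ∪ t) := by
  intro B hB hBs
  calc volume (f '' B) = volume (f '' (B ∩ s) ∪ f '' (B \ s)) := by
        rw [← image_union, inter_union_sdiff]
    _ ≤ volume (f '' (B ∩ s)) + volume (f '' (B \ s)) := measure_union_le _ _
    _ ≤ volume (B ∩ s) + volume (B \ s) := by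
        refine add_le_add (h1 _ (hB.inter hs) inter_subset_right) (h2 _ (hB.diff hs) ?_)
        intro x hx
        exact (hBs hx.1).resolve_left hx.2
    _ = volume B := measure_inter_add_sdiff B hs

theorem good_of_inv {f S : ℝ × ℝ → ℝ × ℝ} {s : Set (ℝ × ℝ)}
    (hS : MeasurePreserving S volume volume) (hf : ∀ x ∈ s, S (f x) = x) : Good f s := by
  intro B hB hBs
  rw [← hS.measure_preimage hB.nullMeasurableSet]
  refine measure_mono ?_
  rintro _ ⟨x, hx, rfl⟩
  show S (f x) ∈ B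
  rwa [hf x (hBs hx)]

theorem measure_preimage_le' {f : ℝ × ℝ → ℝ × ℝ} (hf : MeasurePreserving f volume volume)
    (s : Set (ℝ × ℝ)) : volume (f ⁻¹' s) ≤ volume s := by
  have := Measure.le_map_apply (μ := volume) hf.measurable.aemeasurable s
  rwa [hf.map_eq] at this

theorem Good.rot {h : ℝ} (h0 : 0 ≤ h) (h2 : h ≤ 2) {s : Set (ℝ × ℝ)} (hs : Good (sqRot h) s) :
    Good (sqRot h) (rotI ⁻¹' s) := by
  intro B hB hBs
  calc volume (sqRot h '' B) ≤ volume (rotI ⁻¹' (sqRot h '' (AdvDiff.rot ⁻¹' B))) := by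
        refine measure_mono ?_
        rintro _ ⟨x, hx, rfl⟩
        refine ⟨rotI x, by simpa [rot_rotI] using hx, ?_⟩
        conv_rhs => rw [← rot_rotI x, sqRot_rot h0 h2, rotI_rot]
    _ ≤ volume (sqRot h '' (AdvDiff.rot ⁻¹' B)) := measure_preimage_le' mp_rotI _
    _ ≤ volume (AdvDiff.rot ⁻¹' B) := by
        refine hs _ (mp_rot.measurable hB) fun x hx => ?_
        have := hBs hx
        rwa [mem_preimage, rotI_rot] at this
    _ = volume B := mp_rot.measure_preimage hB.nullMeasurableSet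

theorem good_A (h : ℝ) : Good (sqRot h) {w | |w.2| ≤ w.1} := by
  have e : {w : ℝ × ℝ | |w.2| ≤ w.1} = {w : ℝ × ℝ | |w.2| ≤ w.1 ∧ w.2 + h * w.1 ≤ w.1} ∪
      {w : ℝ × ℝ | |w.2| ≤ w.1 ∧ w.1 ≤ w.2 + h * w.1} := by
    ext w
    simp only [mem_ofPred_eq, mem_union, ← and_or_left, le_total, and_true]
  rw [e]
  refine Good.union ?_ ?_ ?_
  · have m1 : MeasurableSet {w : ℝ × ℝ | |w.2| ≤ w.1} :=
      measurableSet_le (by fun_prop) (by fun_prop)
    have m2 : MeasurableSet {w : ℝ × ℝ | w.2 + h * w.1 ≤ w.1} :=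
      measurableSet_le (by fun_prop) (by fun_prop)
    exact m1.inter m2
  · refine good_of_inv (mp_shear (-h)) fun x hx => ?_
    rw [sqRot_A0 hx.1 hx.2]
    ext <;> simp
  · refine good_of_inv ((mp_shear (2 - h)).comp mp_rotI) fun x hx => ?_
    rw [sqRot_A1 hx.1 hx.2]
    ext
    · simp [rotI]
    · simp [rotI]; ring

theorem good_univ {h : ℝ} (h0 : 0 ≤ h) (h2 : h ≤ 2) : Good (sqRot h) univ := by
  have mA : MeasurableSet {w : ℝ × ℝ | |w.2| ≤ w.1} := measurableSet_le (by fun_prop) (by fun_prop)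
  have g0 := good_A h
  have g1 := g0.rot h0 h2
  have g2 := g1.rot h0 h2
  have g3 := g2.rot h0 h2
  have m1 := mp_rotI.measurable mA
  have m2 := mp_rotI.measurable m1
  have := g0.union mA (g1.union m1 (g2.union m2 g3))
  intro B hB _
  refine this B hB fun w _ => ?_
  rcases sector_cases w with hw | hw | hw | hw
  · left; exact hw
  · right; left; simpa [rotI] using hw
  · right; right; left; simpa [rotI] using hw
  · right; right; right; simpa [rotI] using hw

theorem sqRot_preimage_le {h : ℝ} (h0 : 0 ≤ h) (h2 : h ≤ 2) {B : Set (ℝ × ℝ)}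
    (hB : MeasurableSet B) : volume (sqRot h ⁻¹' B) ≤ volume B := by
  calc volume (sqRot h ⁻¹' B) ≤ volume (rot ⁻¹' (sqRot (2 - h) '' B)) := by
        refine measure_mono fun x hx => ⟨sqRot h x, hx, ?_⟩
        rw [sqRot_add h0 (by linarith) (by linarith), sub_add_cancel, sqRot_two]
    _ ≤ volume (sqRot (2 - h) '' B) := measure_preimage_le' mp_rot _
    _ ≤ volume B := good_univ (by linarith) (by linarith) B hB (subset_univ _)

/-- An invertible diagonal affine map scales Lebesgue measure. -/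
theorem exists_map_affine {a c : ℝ} (ha : a ≠ 0) (hc : c ≠ 0) (b d : ℝ) :
    ∃ k : ENNReal, Measure.map (fun p : ℝ × ℝ => (a * p.1 + b, c * p.2 + d)) volume
      = k • (volume : Measure (ℝ × ℝ)) := by
  have one : ∀ {a : ℝ}, a ≠ 0 → ∀ b : ℝ, Measure.map (fun t : ℝ => a * t + b) volume
      = ENNReal.ofReal |a⁻¹| • (volume : Measure ℝ) := by
    intro a ha b
    have : (fun t : ℝ => a * t + b) = (fun t => t + b) ∘ (fun t => a * t) := rfl
    rw [this, ← Measure.map_map (by fun_prop) (by fun_prop), Real.map_volume_mul_left ha,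
      Measure.map_smul, map_add_right_eq_self]
  refine ⟨ENNReal.ofReal |a⁻¹| * ENNReal.ofReal |c⁻¹|, ?_⟩
  have := Measure.map_prod_map (volume : Measure ℝ) (volume : Measure ℝ)
    (f := fun t : ℝ => a * t + b) (g := fun t : ℝ => c * t + d) (by fun_prop) (by fun_prop)
  rw [one ha, one hc] at this
  rw [Measure.volume_eq_prod]
  refine Eq.trans this.symm ?_
  rw [Measure.prod_smul_left, Measure.prod_smul_right, smul_smul]

theorem conj_preimage_le {h : ℝ} (h0 : 0 ≤ h) (h2 : h ≤ 2) {a c : ℝ} (ha : a ≠ 0) (hc : c ≠ 0)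
    (b d : ℝ) {B : Set (ℝ × ℝ)} (hB : MeasurableSet B) :
    volume {p : ℝ × ℝ | (((sqRot h (a * p.1 + b, c * p.2 + d)).1 - b) / a,
      ((sqRot h (a * p.1 + b, c * p.2 + d)).2 - d) / c) ∈ B} ≤ volume B := by
  obtain ⟨k, hk⟩ := exists_map_affine ha hc b d
  set A : ℝ × ℝ → ℝ × ℝ := fun p => (a * p.1 + b, c * p.2 + d) with hA
  set Ai : ℝ × ℝ → ℝ × ℝ := fun q => ((q.1 - b) / a, (q.2 - d) / c) with hAi
  have mA : Measurable A := by fun_prop
  have mAi : Measurable Ai := by fun_prop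
  have ms := (continuous_sqRot h0 h2).measurable
  have key : ∀ S, MeasurableSet S → volume (A ⁻¹' S) = k * volume S := by
    intro S hS
    rw [← Measure.map_apply mA hS, hk]; simp
  calc volume (A ⁻¹' (sqRot h ⁻¹' (Ai ⁻¹' B))) = k * volume (sqRot h ⁻¹' (Ai ⁻¹' B)) :=
        key _ (ms (mAi hB))
    _ ≤ k * volume (Ai ⁻¹' B) := mul_le_mul' le_rfl (sqRot_preimage_le h0 h2 (mAi hB))
    _ = volume (A ⁻¹' (Ai ⁻¹' B)) := (key _ (mAi hB)).symm
    _ = volume B := by
        congr 1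
        ext p
        simp only [mem_preimage, hA, hAi, add_sub_cancel_right, mul_div_cancel_left₀ _ ha,
          mul_div_cancel_left₀ _ hc]

end measure

end AdvDiff
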