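import Pool.Agent.Lib.MP_0c2f33_an.Tree

/-!
Tracking the mass through the schedule.
-/

open MeasureTheory Set
open scoped ENNReal

namespace AdvDiff

theorem flip_iter {m : ℕ} (hm : 0 < m) {τ : ℝ} (F : Band) {v : X2 → ℝ} (hv : BM v)
    {χ : ℕ → X2 → ℝ} {l L₁ L₂ : ℝ} (hl : 0 < l) (hχ : ∀ j, χ (j + 1) = χ j ∘ F.map (2 / m))
    (hb : ∀ j, BM (χ j)) (h0 : ∀ j (x : X2), F.β < ‖x.2‖ → χ j x = 0) {n : ℕ}
    (h1 : ∀ j ≤ n, ∀ x s, |χ j (x + ex s) - χ j x| ≤ L₁ * |s|)
    (h2 : ∀ j ≤ n, ∀ x s, |χ j (x + ey s) - χ j x| ≤ L₂ * |s|) :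
    (∫ x, v x * χ 0 x)
      - l / 2 * ((∫ x, v x ^ 2) - ∫ x, ((Phase.flip τ F).lin m)^[n] v x ^ 2)
      - n * (1 / l * ((L₁ ^ 2 + L₂ ^ 2) * (Phase.flip τ F).box m ^ 2
        * (F.β + (Phase.flip τ F).box m)))
      ≤ ∫ x, ((Phase.flip τ F).lin m)^[n] v x * χ n x := by
  induction n with
  | zero => simp
  | succ n ih =>
    have ih' := ih (fun j hj => h1 j (by omega)) (fun j hj => h2 j (by omega))
    have hm' := F.map_mp (Phase.two_div_bounds hm).1 (Phase.two_div_bounds hm).2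
    have bn : BM (((Phase.flip τ F).lin m)^[n] v) := by
      rw [← run_replicate]; exact run_lin_bm hm hv
    set w := ((Phase.flip τ F).lin m)^[n] v
    have e := heat_energy ((Phase.flip τ F).box_nonneg m) (bn.comp hm'.measurable) (hb (n + 1))
      hl (F.hα.trans F.hαβ.le) (h1 _ le_rfl) (h2 _ le_rfl) (h0 _)
    have e1 : ∫ x, w (F.map (2 / m) x) * χ (n + 1) x = ∫ x, w x * χ n x := by
      rw [hχ]
      exact integral_comp_mp hm' (bn.mul (hb n)).1
    rw [e1, integral_comp_mp hm' bn.sq.1] at e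
    rw [Function.iterate_succ_apply']
    change _ - l / 2 * (_ - ∫ x, heat _ (fun x => w (F.map (2 / m) x)) x ^ 2) - _
      ≤ ∫ x, heat _ (fun x => w (F.map (2 / m) x)) x * χ (n + 1) x
    push_cast
    linarith

theorem blocks_split {n j : ℕ} (hj : j < n) (f : ℕ → List Phase) :
    ∃ tl, blocks n f = blocks j f ++ f j ++ tl ∧ ∀ P ∈ tl, ∃ i, j < i ∧ i < n ∧ P ∈ f i := by
  induction n with
  | zero => omega
  | succ n ih =>
    rcases Nat.lt_succ_iff_lt_or_eq.1 hj with h | rfl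
    · obtain ⟨tl, h1, h2⟩ := ih h
      refine ⟨tl ++ f n, by rw [blocks_succ, h1, List.append_assoc], fun P hP => ?_⟩
      rcases List.mem_append.1 hP with h3 | h3
      · obtain ⟨i, a, b, c⟩ := h2 P h3
        exact ⟨i, a, by omega, c⟩
      · exact ⟨n, h, by omega, h3⟩
    · exact ⟨[], by rw [blocks_succ, List.append_nil], by simp⟩

theorem lin_rest_iter (m : ℕ) (D : ℝ) (l : Option ℕ) (n : ℕ) (v : X2 → ℝ) :
    ((Phase.rest D l).lin m)^[n] v = (heat ((Phase.rest D l).box m))^[n] v := rfl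

theorem box_mul_sqrt {m : ℕ} (hm : 0 < m) {D : ℝ} (hD : 0 < D) (l : Option ℕ) :
    (Phase.rest D l).box m * Real.sqrt (2 * (2 * m : ℕ)) = Real.sqrt (6 * D) := by
  have hm' : (0 : ℝ) < m := by exact_mod_cast hm
  rw [Phase.box, ← Real.sqrt_mul (by simp only [Phase.sdur, Phase.dur]; positivity)]
  congr 1
  simp only [Phase.sdur, Phase.dur]
  push_cast
  field_simp
  ring

namespace Par

variable {T p : ℝ} (P : Par T p) {m : ℕ}

/-- The guaranteed mass in the station of a node of depth `r` and level `k`. -/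
noncomputable def mu : ℕ → ℕ → ℝ
  | 0, k => P.amp k * P.W k
  | r + 1, k => P.Nl * mu r (k + 1) * (1 - P.ε k)

theorem loss_parts (k : ℕ) : 0 ≤ P.S (k + 1) ∧ 192 * P.D k / P.ℓ k ^ 2 ≤ P.ε k := by
  have hS : 0 ≤ P.S (k + 1) := le_trans (by positivity) (P.S_ge (k + 1))
  refine ⟨hS, le_trans ?_ (P.loss k)⟩
  have h1 := P.κ_pos k
  have h2 : 0 < P.y k + P.W k := P.H_pos k
  have h3 := P.lam_pos k
  have h4 := P.τ_pos k
  have a : 0 ≤ 8 * P.S (k + 1) * P.κ k * (P.y k + P.W k) := by positivity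
  have b : 0 ≤ 2 * P.lam k * P.S (k + 1) := by positivity
  have c : 0 ≤ 6 * P.τ k * (P.y k + P.W k)
      * (100 * (1 / P.κ k + 4 * (P.y k + P.W k) / P.ℓ k)) ^ 2
      * ((P.M k : ℝ) ^ 2 + 1 / P.ℓ k ^ 2) / P.lam k := by positivity
  linarith

theorem ε_nonneg (k : ℕ) : 0 ≤ P.ε k :=
  le_trans (by have := P.D_pos k; positivity) (P.loss_parts k).2

theorem ε_le (k : ℕ) : P.ε k ≤ 1 / 2 :=
  (Finset.single_le_sum (f := P.ε) (fun i _ => P.ε_nonneg i)
    (Finset.self_mem_range_succ k)).trans (P.ε_sum (k + 1))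

theorem mu_pos (r k : ℕ) : 0 < P.mu r k := by
  induction r generalizing k with
  | zero => exact mul_pos (P.amp_pos k) (P.W_pos k)
  | succ r ih =>
    have h2 : (0 : ℝ) < P.Nl := by exact_mod_cast P.Nl_pos
    exact mul_pos (mul_pos h2 (ih _)) (by linarith [P.ε_le k])

theorem mu_ge' (r k : ℕ) :
    1 - ∑ i ∈ Finset.Ico k (k + r), P.ε i ≤ (P.Nl : ℝ) ^ k * P.mu r k := by
  have h2 : (0 : ℝ) < P.Nl := by exact_mod_cast P.Nl_pos
  induction r generalizing k with
  | zero =>
    have := P.W_pos k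
    simp only [mu, amp, add_zero, Finset.Ico_self, Finset.sum_empty, sub_zero]
    exact le_of_eq (by field_simp)
  | succ r ih =>
    have h1 := ih (k + 1)
    have h3 : ∑ i ∈ Finset.Ico k (k + (r + 1)), P.ε i
        = P.ε k + ∑ i ∈ Finset.Ico (k + 1) (k + 1 + r), P.ε i := by
      rw [Finset.sum_eq_sum_Ico_succ_bot (by omega), show k + (r + 1) = k + 1 + r by ring]
    have h4 : 0 ≤ ∑ i ∈ Finset.Ico (k + 1) (k + 1 + r), P.ε i :=
      Finset.sum_nonneg fun i _ => P.ε_nonneg i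
    have h5 := mul_le_mul_of_nonneg_right h1 (show 0 ≤ 1 - P.ε k by linarith [P.ε_le k])
    have h6 := mul_nonneg h4 (P.ε_nonneg k)
    rw [h3, mu]
    calc _ ≤ (1 - ∑ i ∈ Finset.Ico (k + 1) (k + 1 + r), P.ε i) * (1 - P.ε k) := by linarith
      _ ≤ _ := h5
      _ = _ := by ring

theorem mu_ge (r k : ℕ) : 1 / (2 * (P.Nl : ℝ) ^ k) ≤ P.mu r k := by
  have h2 : (0 : ℝ) < P.Nl := by exact_mod_cast P.Nl_pos
  have h1 := P.mu_ge' r k
  have h3 : ∑ i ∈ Finset.Ico k (k + r), P.ε i ≤ 1 / 2 :=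
    (Finset.sum_le_sum_of_subset_of_nonneg (fun i hi => by
      simp only [Finset.mem_Ico, Finset.mem_range] at hi ⊢; exact hi.2)
      fun i _ _ => P.ε_nonneg i).trans (P.ε_sum (k + r))
  rw [div_le_iff₀ (by positivity)]
  linarith

/-- A periodic minorant of the output of a node, with mass `μ` in the station. -/
structure Seed (k : ℕ) (μ : ℝ) (w : X2 → ℝ) : Prop where
  cone : Cone w
  per : Per (P.M k) w
  l1 : ∫ x, |w x| ≤ 2 * μ
  mass : μ ≤ ∫ x, w x * upf (ind (P.y k) (P.H k)) x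

theorem ind_up' (k : ℕ) : Up (ind (P.y k) (P.H k)) :=
  ind_up (P.y_pos k) (by linarith [P.H_le' k])

/-- The plateau around the station of level `k + 1`. -/
noncomputable def platA (k : ℕ) : ℝ → ℝ := plat (P.y (k + 1)) (P.H (k + 1)) (P.ℓ k)

/-- The plateau around the `j`-th slot at level `k`. -/
noncomputable def platB (k j : ℕ) : ℝ → ℝ :=
  plat (P.top k j - P.W (k + 1) - 2 * P.ℓ k) (P.top k j) (P.ℓ k)

theorem platA_up (k : ℕ) : Up (P.platA k) :=
  plat_up (P.ℓ_pos k) (P.y_le_H _) (by linarith [P.ℓ_lt k])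
    (by linarith [P.ℓ_lt k, P.H_le' (k + 1), P.y_le_H (k + 1)])

theorem platB_up {k j : ℕ} (hj : j < P.Nl) : Up (P.platB k j) :=
  plat_up (P.ℓ_pos k) (by linarith [P.ℓ_pos k, P.W_pos (k + 1)])
    (by linarith [P.top_ge (k := k) hj, P.y_pos k]) (by linarith [P.top_le k j, P.H_le' k])

variable {P}

theorem Seed.rest {k : ℕ} {μ : ℝ} {w : X2 → ℝ} (hm : 0 < m)
    (h : P.Seed (k + 1) μ w) {n : ℕ} (hn : n ≤ 2 * m) :
    μ - 96 * P.D k / P.ℓ k ^ 2 * μ
      ≤ ∫ x, run (Phase.lin m) (List.replicate n (P.last (k + 1))) w x * upf (P.platA k) x := by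
  have hℓ := P.ℓ_pos k
  have h1 := run_lin_static (l := List.replicate n (P.last (k + 1))) (H := 0) hm
    (fun Q hQ => by rw [List.eq_of_mem_replicate hQ]; exact P.last_OK _)
    (fun Q hQ => by rw [List.eq_of_mem_replicate hQ]; trivial) h.cone.bm (P.platA_up k)
    (P.platA_up k).low (Λ := 16 / P.ℓ k ^ 2) (by positivity) plat_second
  have h2 : ∫ x, w x * upf (ind (P.y (k + 1)) (P.H (k + 1))) x
      ≤ ∫ x, w x * upf (P.platA k) x := by
    refine h.cone.integral_mono_test (P.ind_up' _).bm (P.platA_up k).bm (fun x => ?_)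
      (fun x hx => by rw [upf, upf, (P.ind_up' _).high _ hx.le, (P.platA_up k).high _ hx.le])
    by_cases hx : fr x.2 ∈ Icc (P.y (k + 1)) (P.H (k + 1))
    · rw [upf, upf, platA, plat_eq_one hℓ hx.1 hx.2]
      exact (P.ind_up' _).le_one _
    · rw [upf, ind, indicator_of_notMem hx]
      exact (P.platA_up k).nonneg _
  have h3 : tot (Phase.sdur m) (List.replicate n (P.last (k + 1))) ≤ P.D k := by
    rw [tot_replicate]
    have a : (n : ℝ) ≤ (P.last (k + 1)).cnt m := by exact_mod_cast hn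
    have b := mul_le_mul_of_nonneg_right a ((P.last_OK (k + 1)).sdur_nonneg m)
    rw [Phase.cnt_mul_sdur hm, last_dur] at b
    linarith [P.D_facts k, P.D_facts (k + 1), P.D_pos (k + 2), P.τ_pos k, P.τ_pos (k + 1),
      P.g_pos k]
  have h4 : 3 * (16 / P.ℓ k ^ 2) * tot (Phase.sdur m) (List.replicate n (P.last (k + 1)))
      * ∫ x, |w x| ≤ 3 * (16 / P.ℓ k ^ 2) * P.D k * (2 * μ) := by
    have := P.D_pos k
    gcongr
    exact h.l1
  have h5 : 3 * (16 / P.ℓ k ^ 2) * P.D k * (2 * μ) = 96 * P.D k / P.ℓ k ^ 2 * μ := by ring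
  linarith [h.mass]

theorem Seed.child {k j : ℕ} {μ : ℝ} {w : X2 → ℝ} (hm : 0 < m) (hμ : 0 < μ)
    (h : P.Seed (k + 1) μ w) (hj : j < P.Nl) {tl : List Phase} (h1 : ∀ Q ∈ tl, Q.OK)
    (h2 : ∀ Q ∈ tl, Q.Below (P.top k j - P.W (k + 1) - 3 * P.ℓ k))
    (h3 : tot (Phase.sdur m) tl ≤ P.D k) :
    μ * (1 - P.ε k) ≤ ∫ x, run (Phase.lin m)
      (expand m [P.last (k + 1)] ++ (expand m [P.mid k j] ++ tl)) w x * upf (P.platB k j) x := by
  have hℓ := P.ℓ_pos k
  have hS := (P.loss_parts k).1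
  have hH := P.H_pos k
  have hκ := P.κ_pos k
  have hlam := P.lam_pos k
  set F := P.band k j hj with hF
  have hmid : P.mid k j = Phase.flip (P.τ k) F := dif_pos hj
  have hOK : (Phase.flip (P.τ k) F).OK := hmid ▸ P.mid_OK k j
  have hβH : F.β ≤ P.H k := by change P.top k j ≤ _; linarith [P.top_le k j]
  have hβ0 : 0 ≤ F.β := F.hα.trans F.hαβ.le
  have hgap : P.H (k + 1) + P.ℓ k ≤ F.β := by
    change _ ≤ P.top k j
    linarith [P.top_ge (k := k) hj, P.H_succ_le k, P.W_pos (k + 1)]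
  have hgap2 : P.ℓ k ≤ F.β - F.α := by
    change _ ≤ F.β - (P.y (k + 1) - P.ℓ k)
    linarith [P.y_le_H (k + 1)]
  rw [run_append, run_append, expand_single, expand_single, hmid]
  set w₁ := run (Phase.lin m) (List.replicate ((P.last (k + 1)).cnt m) (P.last (k + 1))) w
    with hw₁
  have c₁ : Cone w₁ := run_lin_cone hm
    (fun Q hQ => by rw [List.eq_of_mem_replicate hQ]; exact P.last_OK _) h.cone
  have l₁ : ∫ x, |w₁ x| ≤ 2 * μ := (integral_abs_run_lin_le hm h.cone.bm).trans h.l1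
  have a₁ : μ - 96 * P.D k / P.ℓ k ^ 2 * μ ≤ ∫ x, w₁ x * upf (P.platA k) x :=
    h.rest hm le_rfl
  have s₁ : ∀ x, |w₁ x| ≤ P.S (k + 1) * (2 * μ) := by
    intro x
    have := abs_heat_iter_le h.cone.bm (P.M_pos (k + 1)) h.per
      (Phase.box_bounds (P := P.last (k + 1)) hm (P.last_OK _).1 (P.last_OK _).2).1
      (n := 2 * m) (by omega) x
    rw [last, box_mul_sqrt hm (P.g_pos _)] at this
    rw [hw₁, run_replicate, last]
    refine this.trans (mul_le_mul (P.S_ge _) h.l1 (integral_nonneg fun _ => abs_nonneg _) hS)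
  obtain ⟨χ, hχ, hχm, hχ01, hχ0, hχl, hχv, hχe⟩ := F.flip_test (θ := P.platA k)
    (L := 4 / P.ℓ k) (by positivity) hκ (P.κ_le k) (P.platA_up k).nonneg (P.platA_up k).le_one
    (fun s s' => plat_lip hℓ s s') (fun s hs => by
      rcases hs with hs | hs
      · exact plat_low hℓ (P.y_le_H _) hs
      · exact plat_high hℓ (P.y_le_H _) (hgap.trans hs)) hm
  have bχ : ∀ j, BM (χ j) := fun j => ⟨hχm j, 1, fun x => by
    rw [abs_of_nonneg (hχ01 j x).1]; exact (hχ01 j x).2⟩
  have a₂ : (∫ x, w₁ x * upf (P.platA k) x) - 8 * P.S (k + 1) * P.κ k * P.H k * μ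
      ≤ ∫ x, w₁ x * χ 0 x := by
    have := abs_integral_le_of_supp (f := fun x => w₁ x * upf (P.platA k) x - w₁ x * χ 0 x)
      (A := P.S (k + 1) * (2 * μ)) (by positivity) hχv (fun x => ?_) (fun x hx => ?_)
    · rw [integral_sub (c₁.bm.mul (P.platA_up k).bm).integrable (c₁.bm.mul (bχ 0)).integrable]
        at this
      have h5 := (abs_le.1 this).2
      have h6 : P.S (k + 1) * (2 * μ) * (4 * P.κ k * F.β)
          ≤ P.S (k + 1) * (2 * μ) * (4 * P.κ k * P.H k) := by gcongr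
      linarith
    · rw [← mul_sub, abs_mul]
      refine (mul_le_of_le_one_right (abs_nonneg _) ?_).trans (s₁ x)
      have b1 := (P.platA_up k).nonneg (fr x.2)
      have b2 := (P.platA_up k).le_one (fr x.2)
      rw [upf, abs_le]
      constructor <;> linarith [(hχ01 0 x).1, (hχ01 0 x).2]
    · simp only [mem_ofPred_eq, not_not] at hx
      rw [upf, hx, sub_self]
  set Q := 100 * (1 / P.κ k + 4 * P.H k / P.ℓ k) with hQ
  have hQ' : 100 * (1 / P.κ k + 4 / P.ℓ k * (F.β - F.α)) ≤ Q := by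
    have : 4 / P.ℓ k * (F.β - F.α) ≤ 4 / P.ℓ k * P.H k := by
      gcongr; linarith [F.hα]
    rw [hQ, show 4 * P.H k / P.ℓ k = 4 / P.ℓ k * P.H k by ring]
    linarith
  have hQ0 : 0 ≤ Q := by positivity
  have a₃ := flip_iter hm (τ := P.τ k) F c₁.bm (l := P.lam k / μ) (L₁ := Q * P.M k)
    (L₂ := Q / P.ℓ k) (by positivity) hχ bχ hχ0 (n := 2 * m)
    (fun i hi x s => by
      rw [add_ex]
      refine (hχl i hi x s).1.trans (mul_le_mul_of_nonneg_right ?_ (abs_nonneg _))
      have : (F.M : ℝ) = P.M k := rfl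
      rw [this, mul_right_comm]
      gcongr)
    (fun i hi x s => by
      rw [add_ey]
      refine (hχl i hi x s).2.trans (mul_le_mul_of_nonneg_right ?_ (abs_nonneg _))
      gcongr)
  rw [← run_replicate] at a₃
  set w₂ := run (Phase.lin m) (List.replicate (2 * m) (Phase.flip (P.τ k) F)) w₁ with hw₂
  have c₂ : Cone w₂ := run_lin_cone hm
    (fun Q hQ => by rw [List.eq_of_mem_replicate hQ]; exact hOK) c₁
  have l₂ : ∫ x, |w₂ x| ≤ 2 * μ := (integral_abs_run_lin_le hm c₁.bm).trans l₁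
  have e₁ : ∫ x, w₁ x ^ 2 ≤ P.S (k + 1) * (2 * μ) * (2 * μ) := by
    have := abs_integral_mul_le c₁.bm c₁.bm s₁
    simp only [← pow_two] at this
    refine (le_abs_self _).trans (this.trans ?_)
    gcongr
  have e₂ : 0 ≤ ∫ x, w₂ x ^ 2 := integral_nonneg fun _ => sq_nonneg _
  have e₃ : P.lam k / μ / 2 * ((∫ x, w₁ x ^ 2) - ∫ x, w₂ x ^ 2)
      ≤ 2 * P.lam k * P.S (k + 1) * μ := by
    calc _ ≤ P.lam k / μ / 2 * (P.S (k + 1) * (2 * μ) * (2 * μ)) := by
          gcongr; linarith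
      _ = _ := by field_simp
  have hbox : (Phase.flip (P.τ k) F).box m ≤ P.H k := by
    refine Real.sqrt_le_iff.2 ⟨hH.le, le_trans ?_ (P.τ_le k)⟩
    have := Phase.sdur_le hm hOK
    change _ ≤ P.τ k at this
    linarith
  have e₄ : ((2 * m : ℕ) : ℝ) * (1 / (P.lam k / μ) * (((Q * P.M k) ^ 2 + (Q / P.ℓ k) ^ 2)
      * (Phase.flip (P.τ k) F).box m ^ 2 * (F.β + (Phase.flip (P.τ k) F).box m)))
      ≤ 6 * P.τ k * P.H k * Q ^ 2 * ((P.M k : ℝ) ^ 2 + 1 / P.ℓ k ^ 2) / P.lam k * μ := by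
    have b1 := Phase.cnt_mul_sdur hm (Phase.flip (P.τ k) F)
    change ((2 * m : ℕ) : ℝ) * _ = P.τ k at b1
    have b0 := P.τ_pos k
    rw [Phase.box_sq hOK]
    calc _ = μ / P.lam k * ((Q * P.M k) ^ 2 + (Q / P.ℓ k) ^ 2)
          * (3 * (((2 * m : ℕ) : ℝ) * (Phase.flip (P.τ k) F).sdur m))
          * (F.β + (Phase.flip (P.τ k) F).box m) := by field_simp
      _ ≤ μ / P.lam k * ((Q * P.M k) ^ 2 + (Q / P.ℓ k) ^ 2) * (3 * P.τ k) * (2 * P.H k) := by
          rw [b1]; gcongr; linarith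
      _ = _ := by field_simp; ring
  have a₄ : ∫ x, w₂ x * χ (2 * m) x ≤ ∫ x, w₂ x * upf (P.platB k j) x := by
    have key : ∀ x : X2, P.platA k (F.α + F.β - fr x.2) ≠ 0 →
        F.β - P.W (k + 1) - 2 * P.ℓ k ≤ fr x.2 ∧ fr x.2 ≤ F.β := by
      intro x hx
      have hα : F.α = P.y (k + 1) - P.ℓ k := rfl
      constructor
      · by_contra hc
        exact hx (plat_high hℓ (P.y_le_H _) (by unfold H; linarith))
      · by_contra hc
        exact hx (plat_low hℓ (P.y_le_H _) (by linarith))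
    refine c₂.integral_mono_test (bχ _) (P.platB_up hj).bm (fun x => ?_) (fun x hx => ?_)
    · by_cases hx : P.platA k (F.α + F.β - fr x.2) = 0
      · exact (hχe x).trans (hx.le.trans ((P.platB_up hj).nonneg _))
      · exact (hχ01 _ x).2.trans (plat_eq_one hℓ (key x hx).1 (key x hx).2).ge
    · rw [upf, (P.platB_up hj).high _ hx.le]
      refine le_antisymm ((hχe x).trans (le_of_eq ?_)) (hχ01 _ x).1
      by_contra hc
      linarith [(key x hc).2, F.hβ]
  have a₅ := run_lin_static hm h1 h2 c₂.bm (P.platB_up hj)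
    (fun s hs => plat_low hℓ (by linarith [P.W_pos (k + 1)]) (by linarith))
    (Λ := 16 / P.ℓ k ^ 2) (by positivity) plat_second
  have e₅ : 3 * (16 / P.ℓ k ^ 2) * tot (Phase.sdur m) tl * ∫ x, |w₂ x|
      ≤ 96 * P.D k / P.ℓ k ^ 2 * μ := by
    have := P.D_pos k
    calc _ ≤ 3 * (16 / P.ℓ k ^ 2) * P.D k * (2 * μ) := by gcongr
      _ = _ := by ring
  have hl := mul_le_mul_of_nonneg_right (P.loss k) hμ.le
  change (192 * P.D k / P.ℓ k ^ 2 + 8 * P.S (k + 1) * P.κ k * P.H k + 2 * P.lam k * P.S (k + 1)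
    + 6 * P.τ k * P.H k * Q ^ 2 * ((P.M k : ℝ) ^ 2 + 1 / P.ℓ k ^ 2) / P.lam k) * μ
    ≤ P.ε k * μ at hl
  have h192 : 192 * P.D k / P.ℓ k ^ 2 * μ = 2 * (96 * P.D k / P.ℓ k ^ 2 * μ) := by ring
  change _ ≤ ∫ x, run (Phase.lin m) tl w₂ x * upf (P.platB k j) x
  linarith

theorem sum_platB_le (k : ℕ) (s : ℝ) :
    ∑ j ∈ Finset.range P.Nl, P.platB k j s ≤ ind (P.y k) (P.H k) s := by
  have hℓ := P.ℓ_pos k
  have hW := P.W_pos (k + 1)
  have lo : ∀ j, s ≤ P.top k j - P.W (k + 1) - 3 * P.ℓ k → P.platB k j s = 0 := fun j h =>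
    plat_low hℓ (by linarith) (by linarith)
  have hi : ∀ j, P.top k j + P.ℓ k ≤ s → P.platB k j s = 0 := fun j h =>
    plat_high hℓ (by linarith) h
  by_cases h : ∀ j ∈ Finset.range P.Nl, P.platB k j s = 0
  · rw [Finset.sum_eq_zero h]
    exact (P.ind_up' k).nonneg s
  · push Not at h
    obtain ⟨j, hj, h0⟩ := h
    have h1 : P.top k j - P.W (k + 1) - 3 * P.ℓ k < s := not_le.1 fun h => h0 (lo j h)
    have h2 : s < P.top k j + P.ℓ k := not_le.1 fun h => h0 (hi j h)
    rw [Finset.sum_eq_single_of_mem j hj fun i _ hij => ?_]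
    · have : s ∈ Icc (P.y k) (P.H k) :=
        ⟨by linarith [P.top_ge (k := k) (Finset.mem_range.1 hj)], by linarith [P.top_le k j]⟩
      rw [ind, indicator_of_mem this]
      exact plat_le_one s
    · rcases lt_or_gt_of_ne hij with h | h
      · exact lo i (by linarith [P.top_anti (k := k) h])
      · exact hi i (by linarith [P.top_anti (k := k) h])

theorem seed_of_mass {k : ℕ} {μ : ℝ} (hμ : 0 < μ) {U : X2 → ℝ} (hU : Cone U)
    (hper : Per (P.M k) U) (h : μ ≤ ∫ x, U x * upf (ind (P.y k) (P.H k)) x) :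
    ∃ w, P.Seed k μ w ∧ Cone (fun x => U x - w x) := by
  have hu := P.ind_up' k
  set c := ∫ x, U x * upf (ind (P.y k) (P.H k)) x with hc
  have hc0 : 0 < c := hμ.trans_le h
  set θ := upf (ind (P.y k) (P.H k)) with hθ
  have bθ : BM θ := hu.bm
  have bθ' : BM (fun x => θ (mir x)) := bθ.comp measurable_mir
  have t0 : ∀ x, 0 ≤ θ x := fun x => hu.nonneg _
  have t1 : ∀ x, θ x + θ (mir x) ≤ 1 := fun x => by
    rcases hu.upf_add_mir_le x with h | h
    · rw [hθ, h, zero_add]; exact hu.le_one _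
    · rw [hθ, h, add_zero]; exact hu.le_one _
  have even : ∀ {e : X2 → ℝ}, BM e → (∀ x, e (mir x) = e x) → (∀ x, 0 ≤ e x) →
      Cone (fun x => U x * e x) := fun be h1 h2 =>
    ⟨hU.bm.mul be, fun x => by rw [hU.odd, h1]; ring,
      fun x s hs => mul_nonneg (hU.pos x s hs) (h2 _)⟩
  have hq : 0 ≤ μ / c := by positivity
  have hq1 : μ / c ≤ 1 := (div_le_one hc0).2 h
  have pos : ∀ x, 0 ≤ U x * θ x := hU.mul_nonneg_of t0 fun x hx => hu.high _ hx.le
  refine ⟨fun x => U x * (μ / c * (θ x + θ (mir x))), ⟨even ((bθ.add bθ').cmul _)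
    (fun x => by rw [mir_mir', add_comm]) fun x => mul_nonneg hq (add_nonneg (t0 _) (t0 _)),
    fun d hd x => ?_, ?_, ?_⟩, ?_⟩
  · rw [hper d hd x]; rfl
  · have e1 : ∀ x, |U x * (μ / c * (θ x + θ (mir x)))|
        = μ / c * (U x * θ x + U (mir x) * θ (mir x)) := by
      intro x
      have a := pos x
      have b := pos (mir x)
      rcases hu.upf_add_mir_le x with h | h
      · change θ x = 0 at h
        rw [hU.odd] at b ⊢
        rw [h, zero_add, mul_zero, zero_add, mul_left_comm, abs_mul, abs_of_nonneg hq,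
          abs_of_nonpos (by linarith)]
        ring
      · change θ (mir x) = 0 at h
        rw [h, add_zero, mul_zero, add_zero, mul_left_comm, abs_mul, abs_of_nonneg hq,
          abs_of_nonneg a]
    simp_rw [e1]
    rw [integral_const_mul, integral_add (hU.bm.mul bθ).integrable
      ((hU.bm.mul bθ).comp measurable_mir).integrable, integral_comp_mp mir_mp (hU.bm.mul bθ).1,
      ← hc]
    exact le_of_eq (by field_simp; ring)
  · have e1 : ∀ x, U x * (μ / c * (θ x + θ (mir x))) * θ x = μ / c * (U x * θ x) := by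
      intro x
      rcases hu.upf_add_mir_le x with h | h
      · change θ x = 0 at h
        rw [h]; ring
      · change θ (mir x) = 0 at h
        rw [h]
        by_cases hx : fr x.2 ∈ Icc (P.y k) (P.H k)
        · simp [hθ, upf, ind, hx]; ring
        · simp [hθ, upf, ind, hx]
    simp_rw [← hθ, e1]
    rw [integral_const_mul, ← hc]
    exact le_of_eq (by field_simp)
  · refine (even ((BM.const 1).sub ((bθ.add bθ').cmul (μ / c)))
      (fun x => by rw [mir_mir', add_comm]) fun x => ?_).congr fun x => by ring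
    have := mul_le_mul hq1 (t1 x) (add_nonneg (t0 _) (t0 _)) zero_le_one
    linarith

theorem exists_seed (hm : 0 < m) (r k : ℕ) : ∃ w, P.Seed k (P.mu r k) w ∧
    ∀ u, Cone u → Cone (fun x => run (Phase.nl m) (expand m (P.pre r k)) u x - w x) := by
  induction r generalizing k with
  | zero =>
    have h0 := P.y_pos k
    have h1 := P.y_le_H k
    have h2 : P.H k < 1 / 2 := by linarith [P.H_le' k]
    have hS := prof_cone (P.amp_pos k).le h0 h2
    refine ⟨prof (P.amp k) (P.y k) (P.H k), ⟨hS, prof_per _, ?_, ?_⟩, fun u hu => ?_⟩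
    · rw [integral_abs_prof (P.amp_pos k).le h0 h1 h2, mu, H, add_sub_cancel_left]
    · rw [integral_prof_mul h0 h1 h2, mu, H, add_sub_cancel_left]
    · rw [pre, expand_cons, expand_single, run_append]
      refine raise_sub_prof hS (run_nl_cone hm (fun Q hQ => ?_) hu)
      rw [List.eq_of_mem_replicate hQ]
      exact P.pre_OK 0 k _ (by simp [pre])
  | succ r ih =>
    obtain ⟨w, hw, hw'⟩ := ih (k + 1)
    have hOK := forall_expand (m := m) (P.pre_OK (r + 1) k)
    set U := run (Phase.nl m) (expand m (P.pre (r + 1) k)) (fun _ => 0) with hU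
    have cU : Cone U := run_nl_cone hm hOK Cone.zero
    have pU : Per (P.M k) U := run_inv (fun Q hQ _ hv => Phase.nl_per
      (forall_expand (P.pre_fine (r + 1) k) Q hQ) hv) fun _ _ _ => rfl
    have child : ∀ j ∈ Finset.range P.Nl, P.mu r (k + 1) * (1 - P.ε k)
        ≤ ∫ x, U x * upf (P.platB k j) x := by
      intro j hj
      have hj' := Finset.mem_range.1 hj
      obtain ⟨tl, e1, e2⟩ := blocks_split (hj'.trans_le P.Nl_le)
        fun j => P.node r (k + 1) ++ [P.mid k j]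
      rw [← pre_succ] at e1
      set bl := blocks j fun j => P.node r (k + 1) ++ [P.mid k j]
      have e3 : P.pre (r + 1) k
          = bl ++ (P.pre r (k + 1) ++ ([P.last (k + 1)] ++ ([P.mid k j] ++ tl))) := by
        rw [e1, node]; simp only [List.append_assoc]
      have ok := P.pre_OK (r + 1) k
      rw [e3] at ok
      have ok1 : ∀ Q ∈ bl, Q.OK := fun Q hQ => ok Q (by simp [hQ])
      have ok2 : ∀ Q ∈ [P.last (k + 1)] ++ ([P.mid k j] ++ tl), Q.OK := fun Q hQ =>
        ok Q (List.mem_append_right _ (List.mem_append_right _ hQ))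
      have ok3 : ∀ Q ∈ tl, Q.OK := fun Q hQ => ok Q (by simp [hQ])
      have c1 := run_nl_cone hm (forall_expand (m := m) ok1) Cone.zero
      have c2 := run_nl_cone hm (forall_expand (m := m) (P.pre_OK r (k + 1))) c1
      have c3 := run_nl_sub_lin hm (forall_expand (m := m) ok2) c2 hw.cone.bm (hw' _ c1)
      rw [← run_append, ← run_append, ← expand_append, ← expand_append, ← e3, ← hU] at c3
      refine le_trans ?_ (integral_mono_state cU.bm (run_lin_bm hm hw.cone.bm) c3 (P.platB_up hj'))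
      rw [expand_append, expand_append]
      refine hw.child hm (P.mu_pos _ _) hj' (forall_expand ok3) (forall_expand fun Q hQ => ?_) ?_
      · obtain ⟨i, i1, -, i3⟩ := e2 Q hQ
        rcases List.mem_append.1 i3 with h | h
        · have := P.node_below r (k + 1) Q h
          cases Q with
          | rest D l => trivial
          | flip τ F => exact le_trans this ((P.H_succ_le k).trans (P.top_ge hj'))
          | src A lo hi => trivial
        · rw [List.mem_singleton.1 h, mid]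
          split_ifs
          · change P.top k i ≤ _
            linarith [P.top_anti (k := k) i1, P.ℓ_pos k]
          · trivial
      · rw [tot_expand hm]
        have t1 := P.tot_pre (r + 1) k
        rw [e1, tot_append] at t1
        have t2 := tot_nonneg (d := Phase.dur) (l := bl ++ (P.node r (k + 1) ++ [P.mid k j]))
          fun Q hQ => (P.pre_OK (r + 1) k Q (by rw [e1]; exact List.mem_append_left _ hQ)).dur_nonneg
        linarith [P.g_pos k]
    have h1 : P.mu (r + 1) k ≤ ∫ x, U x * upf (ind (P.y k) (P.H k)) x := by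
      have a := Finset.sum_le_sum child
      rw [Finset.sum_const, Finset.card_range, nsmul_eq_mul, ← integral_finsetSum _ fun j hj =>
        (cU.bm.mul (P.platB_up (Finset.mem_range.1 hj)).bm).integrable] at a
      rw [mu, mul_assoc]
      refine a.trans (integral_mono (integrable_finsetSum _ fun j hj =>
        (cU.bm.mul (P.platB_up (Finset.mem_range.1 hj)).bm).integrable)
        (cU.bm.mul (P.ind_up' k).bm).integrable fun x => ?_)
      simp only
      rw [← Finset.mul_sum]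
      have := cU.mul_nonneg_of (w := fun x => upf (ind (P.y k) (P.H k)) x
          - ∑ j ∈ Finset.range P.Nl, upf (P.platB k j) x)
        (fun x => sub_nonneg.2 (sum_platB_le k _)) (fun x hx => by
          have : ∑ j ∈ Finset.range P.Nl, upf (P.platB k j) x = 0 := Finset.sum_eq_zero
            fun j hj => (P.platB_up (Finset.mem_range.1 hj)).high _ hx.le
          rw [this, upf, (P.ind_up' k).high _ hx.le, sub_zero]) x
      linarith
    obtain ⟨w', s1, s2⟩ := seed_of_mass (P.mu_pos _ _) cU pU h1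
    refine ⟨w', s1, fun u hu => ?_⟩
    have := run_nl_mono hm hOK hu Cone.zero (hu.congr fun x => sub_zero _)
    exact (this.add s2).congr fun x => by rw [hU]; ring

end Par

end AdvDiff
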