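import Pool.Agent.Lib.MP_0c2f33_an.Scheme
import Pool.Agent.Lib.MP_0c2f33_an.Par

/-!
The self-similar schedule.
-/

open MeasureTheory Set
open scoped ENNReal

namespace AdvDiff

/-- Concatenation of the blocks `f 0, …, f (n - 1)`. -/
def blocks (n : ℕ) (f : ℕ → List Phase) : List Phase := (List.range n).flatMap f

theorem blocks_zero (f : ℕ → List Phase) : blocks 0 f = [] := rfl

theorem blocks_succ (n : ℕ) (f : ℕ → List Phase) : blocks (n + 1) f = blocks n f ++ f n := by
  simp [blocks, List.range_succ, List.flatMap_append]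

theorem forall_blocks {n : ℕ} {f : ℕ → List Phase} {Q : Phase → Prop}
    (h : ∀ j < n, ∀ P ∈ f j, Q P) : ∀ P ∈ blocks n f, Q P := by
  intro P hP
  obtain ⟨j, h1, h2⟩ := List.mem_flatMap.1 hP
  exact h j (List.mem_range.1 h1) P h2

theorem tot_blocks (d : Phase → ℝ) (n : ℕ) (f : ℕ → List Phase) :
    tot d (blocks n f) = ∑ j ∈ Finset.range n, tot d (f j) := by
  induction n with
  | zero => rfl
  | succ n ih => rw [blocks_succ, tot_append, ih, Finset.sum_range_succ]

theorem forall_append {l₁ l₂ : List Phase} {Q : Phase → Prop} (h₁ : ∀ P ∈ l₁, Q P)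
    (h₂ : ∀ P ∈ l₂, Q P) : ∀ P ∈ l₁ ++ l₂, Q P := by
  intro P hP
  rcases List.mem_append.1 hP with h | h
  · exact h₁ P h
  · exact h₂ P h

theorem forall_single {P₀ : Phase} {Q : Phase → Prop} (h : Q P₀) : ∀ P ∈ [P₀], Q P := by
  intro P hP
  rw [List.mem_singleton.1 hP]
  exact h

namespace Par

variable {T p : ℝ} (P : Par T p)

/-- The top of the station of level `k`. -/
def H (k : ℕ) : ℝ := P.y k + P.W k

/-- The amplitude of the sources at level `k`. -/
noncomputable def amp (k : ℕ) : ℝ := 1 / ((P.Nl : ℝ) ^ k * P.W k)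

/-- The top of the band used for the `j`-th flip at level `k`. -/
def top (k j : ℕ) : ℝ := P.H k - P.ℓ k - j * (P.W (k + 1) + 4 * P.ℓ k)

theorem H_pos (k : ℕ) : 0 < P.H k := add_pos (P.y_pos k) (P.W_pos k)

theorem H_le' (k : ℕ) : P.H k ≤ 1 / 8 := P.H_le k

theorem H_succ_le (k : ℕ) : P.H (k + 1) ≤ P.y k := P.y_ge k

theorem y_le_H (k : ℕ) : P.y k ≤ P.H k := le_add_of_nonneg_right (P.W_pos k).le

theorem ℓ_lt (k : ℕ) : P.ℓ k < P.y (k + 1) := by
  have h1 := P.y_low k
  have h2 : 0 < P.y (k + 1) + P.W (k + 1) := P.H_pos (k + 1)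
  linarith

theorem amp_pos (k : ℕ) : 0 < P.amp k := by
  have h1 := P.W_pos k
  have h2 : (0 : ℝ) < P.Nl := by exact_mod_cast P.Nl_pos
  unfold amp
  positivity

theorem top_le (k j : ℕ) : P.top k j + P.ℓ k ≤ P.H k := by
  have h1 := P.W_pos (k + 1)
  have h2 := P.ℓ_pos k
  have : 0 ≤ (j : ℝ) * (P.W (k + 1) + 4 * P.ℓ k) := by positivity
  unfold top
  linarith

theorem top_ge {k j : ℕ} (hj : j < P.Nl) :
    P.y k ≤ P.top k j - P.W (k + 1) - 3 * P.ℓ k := by
  have h1 := P.W_pos (k + 1)
  have h2 := P.ℓ_pos k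
  have h3 := P.W_ge k
  have h4 : (j : ℝ) + 1 ≤ P.Nl := by exact_mod_cast hj
  have h5 := mul_le_mul_of_nonneg_right h4 (show 0 ≤ P.W (k + 1) + 4 * P.ℓ k by positivity)
  unfold top H
  linarith

theorem top_anti {k i j : ℕ} (hj : j < i) :
    P.top k i ≤ P.top k j - P.W (k + 1) - 4 * P.ℓ k := by
  have h1 := P.W_pos (k + 1)
  have h2 := P.ℓ_pos k
  have h4 : (j : ℝ) + 1 ≤ i := by exact_mod_cast hj
  have h5 := mul_le_mul_of_nonneg_right h4 (show 0 ≤ P.W (k + 1) + 4 * P.ℓ k by positivity)
  unfold top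
  linarith

/-- The band of the `j`-th flip at level `k`. -/
def band (k j : ℕ) (hj : j < P.Nl) : Band where
  M := P.M k
  α := P.y (k + 1) - P.ℓ k
  β := P.top k j
  hM := P.M_pos k
  hα := by linarith [P.ℓ_lt k]
  hαβ := by
    linarith [P.top_ge (k := k) hj, P.H_succ_le k, P.y_le_H (k + 1), P.W_pos (k + 1), P.ℓ_pos k]
  hβ := by linarith [P.top_le k j, P.H_le' k, P.ℓ_pos k]

/-- The phase that follows the `j`-th child of a node of level `k`. -/
def mid (k j : ℕ) : Phase :=
  if hj : j < P.Nl then Phase.flip (P.τ k) (P.band k j hj) else Phase.rest (P.τ k) none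

/-- The final rest of a node of level `k`. -/
def last (k : ℕ) : Phase := Phase.rest (P.g k) (some k)

/-- A node of level `k` and depth `r` without its final rest. -/
noncomputable def pre : ℕ → ℕ → List Phase
  | 0, k => [Phase.rest (P.D k - P.g k) none, Phase.src (P.amp k) (P.y k) (P.H k)]
  | r + 1, k => blocks P.Nt fun j => (pre r (k + 1) ++ [P.last (k + 1)]) ++ [P.mid k j]

/-- A node of level `k` and depth `r`. -/
noncomputable def node (r k : ℕ) : List Phase := P.pre r k ++ [P.last k]

theorem pre_succ (r k : ℕ) :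
    P.pre (r + 1) k = blocks P.Nt fun j => P.node r (k + 1) ++ [P.mid k j] := rfl

theorem one_le_Nt : (1 : ℝ) ≤ P.Nt := by exact_mod_cast P.Nl_pos.trans_le P.Nl_le

theorem D_facts (k : ℕ) : P.D (k + 1) + P.τ k + P.g k ≤ P.D k := by
  have h1 := P.D_eq k
  have h2 := mul_le_mul_of_nonneg_right P.one_le_Nt
    (add_pos (P.D_pos (k + 1)) (P.τ_pos k)).le
  linarith

theorem mid_OK (k j : ℕ) : (P.mid k j).OK := by
  have h : 0 < P.τ k ∧ P.τ k ≤ 1 / 48 :=
    ⟨P.τ_pos k, by linarith [P.D_facts k, P.D_le k, P.D_pos (k + 1), P.g_pos k]⟩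
  unfold mid
  split_ifs <;> exact h

theorem last_OK (k : ℕ) : (P.last k).OK :=
  ⟨P.g_pos k, by linarith [P.D_facts k, P.D_le k, P.D_pos (k + 1), P.τ_pos k]⟩

theorem mid_dur (k j : ℕ) : (P.mid k j).dur = P.τ k := by
  unfold mid
  split_ifs <;> rfl

theorem last_dur (k : ℕ) : (P.last k).dur = P.g k := rfl

/-- Induction principle for properties of all phases of a node. -/
theorem forall_pre {Q : ℕ → Phase → Prop} (mono : ∀ k Ph, Q (k + 1) Ph → Q k Ph)
    (h0 : ∀ k, Q k (Phase.rest (P.D k - P.g k) none))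
    (h1 : ∀ k, Q k (Phase.src (P.amp k) (P.y k) (P.H k))) (h2 : ∀ k, Q k (P.last k))
    (h3 : ∀ k j, Q k (P.mid k j)) (r k : ℕ) : ∀ Ph ∈ P.pre r k, Q k Ph := by
  induction r generalizing k with
  | zero =>
    intro Ph hP
    simp only [pre, List.mem_cons, List.not_mem_nil, or_false] at hP
    rcases hP with rfl | rfl
    · exact h0 k
    · exact h1 k
  | succ r ih =>
    exact forall_blocks fun j _ => forall_append (forall_append
      (fun Ph hP => mono k Ph (ih (k + 1) Ph hP)) (forall_single (mono k _ (h2 _))))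
      (forall_single (h3 k j))

theorem pre_OK (r k : ℕ) : ∀ Ph ∈ P.pre r k, Ph.OK :=
  P.forall_pre (Q := fun _ Ph => Ph.OK) (fun _ _ h => h)
    (fun k => ⟨by linarith [P.D_facts k, P.D_pos (k + 1), P.τ_pos k],
      by linarith [P.D_le k, P.g_pos k]⟩)
    (fun k => ⟨(P.amp_pos k).le, P.y_pos k, P.y_le_H k, by linarith [P.H_le' k]⟩)
    P.last_OK P.mid_OK r k

theorem node_OK (r k : ℕ) : ∀ Ph ∈ P.node r k, Ph.OK :=
  forall_append (P.pre_OK r k) (forall_single (P.last_OK k))

theorem pre_fine (r k : ℕ) : ∀ Ph ∈ P.pre r k, Ph.Fine (P.M k) :=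
  P.forall_pre (Q := fun k Ph => Ph.Fine (P.M k))
    (fun k Ph h => by
      cases Ph with
      | rest D l => trivial
      | flip τ F => exact (P.M_dvd k).trans h
      | src A lo hi => trivial)
    (fun _ => trivial) (fun _ => trivial) (fun _ => trivial)
    (fun k j => by
      unfold mid
      split_ifs
      · exact dvd_rfl
      · trivial) r k

theorem pre_below (r k : ℕ) : ∀ Ph ∈ P.pre r k, Ph.Below (P.H k) :=
  P.forall_pre (Q := fun k Ph => Ph.Below (P.H k))
    (fun k Ph h => by
      cases Ph with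
      | rest D l => trivial
      | flip τ F => exact le_trans h ((P.H_succ_le k).trans (P.y_le_H k))
      | src A lo hi => trivial)
    (fun _ => trivial) (fun _ => trivial) (fun _ => trivial)
    (fun k j => by
      unfold mid
      split_ifs
      · change P.top k j ≤ P.H k
        linarith [P.top_le k j, P.ℓ_pos k]
      · trivial) r k

theorem node_below (r k : ℕ) : ∀ Ph ∈ P.node r k, Ph.Below (P.H k) :=
  forall_append (P.pre_below r k) (forall_single trivial)

theorem tot_pre (r k : ℕ) : tot Phase.dur (P.pre r k) = P.D k - P.g k := by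
  induction r generalizing k with
  | zero => simp [pre, Phase.dur]
  | succ r ih =>
    rw [pre, tot_blocks]
    simp only [tot_append, ih, tot_cons, tot_nil, mid_dur, last_dur, Finset.sum_const,
      Finset.card_range, nsmul_eq_mul]
    rw [P.D_eq k]
    ring

theorem tot_node (r k : ℕ) : tot Phase.dur (P.node r k) = P.D k := by
  simp [node, tot_append, tot_pre, last, Phase.dur]

theorem node_amp {B : ℝ} (r k : ℕ) (h : P.amp (k + r) ≤ B) : ∀ Ph ∈ P.node r k, Ph.Amp B := by
  refine forall_append ?_ (forall_single trivial)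
  induction r generalizing k with
  | zero =>
    intro Ph hP
    simp only [pre, List.mem_cons, List.not_mem_nil, or_false] at hP
    rcases hP with rfl | rfl
    · trivial
    · exact h
  | succ r ih =>
    refine forall_blocks fun j _ => forall_append (forall_append
      (ih (k + 1) (by rwa [show k + 1 + r = k + (r + 1) by ring])) (forall_single trivial))
      (forall_single ?_)
    unfold mid
    split_ifs <;> trivial

/-- A quantity carried only by the sources is counted once per leaf. -/
theorem tot_pre_src {d : Phase → ℝ} (h1 : ∀ D l, d (Phase.rest D l) = 0)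
    (h2 : ∀ τ F, d (Phase.flip τ F) = 0) (r k : ℕ) :
    tot d (P.pre r k)
      = (P.Nt : ℝ) ^ r * d (Phase.src (P.amp (k + r)) (P.y (k + r)) (P.H (k + r))) := by
  induction r generalizing k with
  | zero => simp [pre, h1]
  | succ r ih =>
    have h3 : ∀ j, d (P.mid k j) = 0 := fun j => by
      unfold mid
      split_ifs
      · exact h2 _ _
      · exact h1 _ _
    rw [pre, tot_blocks]
    simp only [tot_append, ih, tot_cons, tot_nil, last, h1, h3, Finset.sum_const,
      Finset.card_range, nsmul_eq_mul, add_zero]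
    rw [show k + 1 + r = k + (r + 1) by ring]
    ring

end Par

end AdvDiff
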