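import Pool.Agent.Lib.MP_0c2f33_an.Avg

/-!
The uniform law on `[-a, a]` and the box averages.
-/

open MeasureTheory Set
open scoped ENNReal

namespace AdvDiff

/-- The uniform law on `[-1, 1]`. -/
noncomputable def unif1 : Measure ℝ := (2⁻¹ : ℝ≥0∞) • volume.restrict (Icc (-1 : ℝ) 1)

instance probUnif1 : IsProbabilityMeasure unif1 :=
  ⟨by
    simp only [unif1, Measure.smul_apply, Measure.restrict_apply_univ, Real.volume_Icc,
      smul_eq_mul]
    rw [show (1 : ℝ) - -1 = 2 by norm_num, ENNReal.ofReal_ofNat]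
    exact ENNReal.inv_mul_cancel (by norm_num) (by norm_num)⟩

/-- The uniform law on `[-a, a]`. -/
noncomputable def unif (a : ℝ) : Measure ℝ := unif1.map (fun s => a * s)

instance probUnif (a : ℝ) : IsProbabilityMeasure (unif a) :=
  Measure.isProbabilityMeasure_map (by fun_prop)

theorem integral_unif1 (f : ℝ → ℝ) : ∫ s, f s ∂unif1 = 2⁻¹ * ∫ s in (-1 : ℝ)..1, f s := by
  rw [unif1, integral_smul_measure, intervalIntegral.integral_of_le (by norm_num),
    integral_Icc_eq_integral_Ioc]
  simp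

theorem integral_unif' (a : ℝ) {f : ℝ → ℝ} (hf : Measurable f) :
    ∫ s, f s ∂unif a = 2⁻¹ * ∫ s in (-1 : ℝ)..1, f (a * s) := by
  rw [unif, integral_map (by fun_prop) hf.aestronglyMeasurable, integral_unif1]

theorem integral_unif {a : ℝ} (ha : 0 < a) {f : ℝ → ℝ} (hf : Measurable f) :
    ∫ s, f s ∂unif a = (2 * a)⁻¹ * ∫ s in (-a)..a, f s := by
  rw [integral_unif' a hf, intervalIntegral.integral_comp_mul_left f ha.ne']
  simp only [mul_neg, mul_one, smul_eq_mul]
  rw [mul_inv, mul_assoc]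

theorem unif_neg (a : ℝ) : (unif a).map (fun s => -s) = unif a := by
  have h1 : unif1.map (fun s => -s) = unif1 := by
    rw [unif1, Measure.map_smul]
    congr 1
    have := (Measure.measurePreserving_neg (volume : Measure ℝ)).restrict_preimage
      (s := Icc (-1 : ℝ) 1) measurableSet_Icc
    have h2 : (Neg.neg ⁻¹' Icc (-1 : ℝ) 1) = Icc (-1 : ℝ) 1 := by
      ext s; simp only [mem_preimage, mem_Icc]; constructor <;> rintro ⟨_, _⟩ <;>
        constructor <;> linarith
    rw [h2] at this
    exact this.map_eq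
  rw [unif, Measure.map_map (by fun_prop) (by fun_prop)]
  conv_rhs => rw [← h1, Measure.map_map (by fun_prop) (by fun_prop)]
  congr 1
  funext s
  simp

theorem ae_unif {a : ℝ} (ha : 0 ≤ a) : ∀ᵐ s ∂unif a, |s| ≤ a := by
  rw [unif, ae_map_iff (by fun_prop) (measurableSet_le (by fun_prop) measurable_const)]
  refine Measure.ae_smul_measure ?_ _
  filter_upwards [ae_restrict_mem measurableSet_Icc] with s hs
  rw [abs_mul, abs_of_nonneg ha]
  exact mul_le_of_le_one_right ha (abs_le.2 hs)

theorem integral_sq_unif (a : ℝ) : ∫ s, s ^ 2 ∂unif a = a ^ 2 / 3 := by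
  rw [integral_unif' a (by fun_prop)]
  simp only [mul_pow]
  rw [intervalIntegral.integral_const_mul, integral_pow]
  ring

theorem integral_id_unif (a : ℝ) : ∫ s, s ∂unif a = 0 := by
  rw [integral_unif' a (by fun_prop), intervalIntegral.integral_const_mul, integral_id]
  ring

/-- The horizontal direction. -/
noncomputable def ex : ℝ →+ X2 where
  toFun s := ((s : UnitAddCircle), 0)
  map_zero' := by simp
  map_add' s t := by simp

/-- The vertical direction. -/
noncomputable def ey : ℝ →+ X2 where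
  toFun s := (0, (s : UnitAddCircle))
  map_zero' := by simp
  map_add' s t := by simp

theorem add_ex (x : X2) (s : ℝ) : x + ex s = (x.1 + (s : UnitAddCircle), x.2) := by
  ext <;> simp [ex]

theorem add_ey (x : X2) (s : ℝ) : x + ey s = (x.1, x.2 + (s : UnitAddCircle)) := by
  ext <;> simp [ey]

theorem cont_ex : Continuous ex :=
  (AddCircle.continuous_mk' 1).prodMk continuous_const

theorem cont_ey : Continuous ey :=
  continuous_const.prodMk (AddCircle.continuous_mk' 1)

theorem norm_coe_le' (s : ℝ) : ‖(s : UnitAddCircle)‖ ≤ |s| := by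
  have := QuotientAddGroup.norm_mk_le_norm (S := AddSubgroup.zmultiples (1 : ℝ)) (m := s)
  simpa using this

theorem norm_ex_le (s : ℝ) : ‖(ex s).2‖ ≤ |s| := by simp [ex]

theorem norm_ey_le (s : ℝ) : ‖(ey s).2‖ ≤ |s| := norm_coe_le' s

theorem volume_band {r : ℝ} : volume {x : X2 | ‖x.2‖ ≤ r} ≤ ENNReal.ofReal (2 * r) := by
  have : {x : X2 | ‖x.2‖ ≤ r} = univ ×ˢ Metric.closedBall (0 : UnitAddCircle) r := by
    ext x; simp
  rw [this, Measure.volume_eq_prod, Measure.prod_prod, measure_univ, one_mul,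
    AddCircle.volume_closedBall]
  exact ENNReal.ofReal_le_ofReal (min_le_right _ _)

theorem measurableSet_band (r : ℝ) : MeasurableSet {x : X2 | ‖x.2‖ ≤ r} :=
  measurableSet_le (by fun_prop) measurable_const

/-- The integral of a function bounded by `A` that vanishes off a set of measure `≤ m`. -/
theorem abs_integral_le_of_supp {f : X2 → ℝ} {A m : ℝ} (hm : 0 ≤ m) {S : Set X2}
    (hS : volume S ≤ ENNReal.ofReal m) (hA : ∀ x, |f x| ≤ A) (h0 : ∀ x, x ∉ S → f x = 0) :
    |∫ x, f x| ≤ A * m := by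
  have hA0 : 0 ≤ A := (abs_nonneg _).trans (hA 0)
  set S' := toMeasurable volume S
  have hS' : volume S' ≤ ENNReal.ofReal m := by rwa [measure_toMeasurable]
  have h1 : ∫ x, f x = ∫ x in S', f x :=
    (setIntegral_eq_integral_of_forall_compl_eq_zero fun x hx =>
      h0 x fun hx' => hx (subset_toMeasurable _ _ hx')).symm
  rw [h1, ← Real.norm_eq_abs]
  refine (norm_setIntegral_le_of_norm_le_const (C := A) (measure_lt_top _ _)
    fun x _ => hA x).trans ?_
  refine mul_le_mul_of_nonneg_left ?_ hA0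
  exact ENNReal.toReal_le_of_le_ofReal hm hS'

section box

variable {e : ℝ →+ X2} {a : ℝ} {v w : X2 → ℝ}

/-- The Dirichlet form of a Lipschitz function supported in a band. -/
theorem dirichlet_le (he : Continuous e) (he2 : ∀ s, ‖(e s).2‖ ≤ |s|) (ha : 0 ≤ a) (hw : BM w)
    {L β : ℝ} (hβ : 0 ≤ β) (hL : ∀ x s, |w (x + e s) - w x| ≤ L * |s|)
    (h0 : ∀ x : X2, β < ‖x.2‖ → w x = 0) :
    (∫ x, w x ^ 2) - ∫ x, av e (unif a) w x ^ 2 ≤ L ^ 2 * a ^ 2 * (2 * (β + a)) := by
  rw [← integral_av (ν := unif a) he hw.sq,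
    ← integral_sub (hw.sq.av he).integrable (hw.av he).sq.integrable]
  refine (le_abs_self _).trans (abs_integral_le_of_supp (by positivity)
    (volume_band (r := β + a)) (fun x => ?_) (fun x hx => ?_))
  · rw [abs_of_nonneg (by linarith [sq_av_le (ν := unif a) he hw x])]
    refine (av_var_le he hw x (w x)).trans ?_
    have : ∀ᵐ s ∂unif a, ‖(w (x + e s) - w x) ^ 2‖ ≤ L ^ 2 * a ^ 2 := by
      filter_upwards [ae_unif ha] with s hs
      rw [Real.norm_eq_abs, abs_pow, ← mul_pow]
      refine pow_le_pow_left₀ (abs_nonneg _) ((hL x s).trans ?_) 2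
      have hL0 : 0 ≤ L := by
        have := hL x 1
        simp only [abs_one, mul_one] at this
        exact (abs_nonneg _).trans this
      exact mul_le_mul_of_nonneg_left hs hL0
    have h2 := norm_integral_le_of_norm_le_const this
    simp only [probReal_univ, mul_one] at h2
    exact (le_abs_self _).trans h2
  · simp only [mem_ofPred_eq, not_le] at hx
    have hz : ∀ᵐ s ∂unif a, w (x + e s) = 0 := by
      filter_upwards [ae_unif ha] with s hs
      apply h0
      have h1 : ‖x.2‖ ≤ ‖(x + e s).2‖ + ‖(e s).2‖ := by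
        have : x.2 = (x + e s).2 - (e s).2 := by simp
        conv_lhs => rw [this]
        exact norm_sub_le _ _
      linarith [he2 s]
    have h1 : av e (unif a) w x = 0 := by
      rw [av, integral_congr_ae hz]; simp
    have h2 : av e (unif a) (fun x => w x ^ 2) x = 0 := by
      rw [av, integral_congr_ae (g := fun _ => 0) (hz.mono fun s hs => by simp [hs])]; simp
    rw [h1, h2]; simp

theorem av_symm (x : X2) :
    av e (unif a) v x = ∫ s, v (x + e (-s)) ∂unif a := by
  rw [av]
  conv_lhs => rw [← unif_neg a]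
  exact (MeasurableEquiv.neg ℝ).measurableEmbedding.integral_map (fun s => v (x + e s))

/-- A bound on second differences controls the box average. -/
theorem abs_av_sub_le (he : Continuous e) (ha : 0 ≤ a) (hv : BM v) {Λ : ℝ} (hΛ : 0 ≤ Λ) (x : X2)
    (h : ∀ s, |s| ≤ a → |v (x + e s) + v (x + e (-s)) - 2 * v x| ≤ Λ * s ^ 2) :
    |av e (unif a) v x - v x| ≤ Λ * a ^ 2 / 2 := by
  have hm := he.measurable
  have i1 := int_line (ν := unif a) he hv x
  have i2 : Integrable (fun s => v (x + e (-s))) (unif a) := hv.integrable_comp (by fun_prop)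
  have h1 : ∫ s, (v (x + e s) + v (x + e (-s)) - 2 * v x) ∂unif a
      = 2 * (av e (unif a) v x - v x) := by
    have i12 : Integrable (fun s => v (x + e s) + v (x + e (-s))) (unif a) := i1.add i2
    rw [integral_sub i12 (integrable_const _), integral_add i1 i2, ← av_symm x]
    simp only [integral_const, probReal_univ, smul_eq_mul, one_mul]
    rw [av]; ring
  have h2 : ∀ᵐ s ∂unif a, ‖v (x + e s) + v (x + e (-s)) - 2 * v x‖ ≤ Λ * a ^ 2 := by
    filter_upwards [ae_unif ha] with s hs
    refine (h s hs).trans (mul_le_mul_of_nonneg_left ?_ hΛ)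
    rw [← sq_abs]
    exact pow_le_pow_left₀ (abs_nonneg _) hs 2
  have h3 := norm_integral_le_of_norm_le_const h2
  rw [h1, Real.norm_eq_abs, abs_mul] at h3
  simp only [probReal_univ, mul_one, abs_two] at h3
  linarith

theorem abs_av_sub_le_lip (he : Continuous e) (ha : 0 ≤ a) (hv : BM v) {Λ : ℝ} (hΛ : 0 ≤ Λ)
    (x : X2) (h : ∀ s, |v (x + e s) - v x| ≤ Λ * |s|) :
    |av e (unif a) v x - v x| ≤ Λ * a := by
  have h1 : ∫ s, (v (x + e s) - v x) ∂unif a = av e (unif a) v x - v x := by
    rw [integral_sub (int_line he hv x) (integrable_const _)]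
    simp [av]
  have h2 : ∀ᵐ s ∂unif a, ‖v (x + e s) - v x‖ ≤ Λ * a := by
    filter_upwards [ae_unif ha] with s hs
    exact (h s).trans (mul_le_mul_of_nonneg_left hs hΛ)
  have h3 := norm_integral_le_of_norm_le_const h2
  rw [h1] at h3
  simpa using h3

theorem taylor1 {F G : ℝ → ℝ} {Λ : ℝ} (hF : ∀ s, HasDerivAt F (G s) s) (s : ℝ)
    (hG : ∀ r, |r| ≤ |s| → |G r - G 0| ≤ Λ) : |F s - F 0 - s * G 0| ≤ Λ * |s| := by
  have h1 : ∀ r ∈ Icc (-|s|) |s|, HasDerivWithinAt (fun r => F r - r * G 0) (G r - G 0)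
      (Icc (-|s|) |s|) r := fun r _ =>
    ((hF r).sub (by simpa using (hasDerivAt_id r).mul_const (G 0))).hasDerivWithinAt
  have h2 := (convex_Icc (-|s|) |s|).norm_image_sub_le_of_norm_hasDerivWithin_le h1
    (C := Λ) (fun r hr => hG r (abs_le.2 hr)) (x := 0) (y := s)
    ⟨by linarith [abs_nonneg s], abs_nonneg s⟩ ⟨neg_abs_le s, le_abs_self s⟩
  simp only [zero_mul, sub_zero, Real.norm_eq_abs] at h2
  convert h2 using 2
  ring

theorem taylor2 {F G J : ℝ → ℝ} {Λ : ℝ} (hΛ : 0 ≤ Λ) (hF : ∀ s, HasDerivAt F (G s) s)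
    (hG : ∀ s, HasDerivAt G (J s) s) (hJ : ∀ r, |J r - J 0| ≤ Λ * |r|) (s : ℝ) :
    |F s - F 0 - s * G 0 - s ^ 2 / 2 * J 0| ≤ Λ * |s| ^ 3 := by
  have h1 : ∀ r, HasDerivAt (fun r => F r - r ^ 2 / 2 * J 0) (G r - r * J 0) r := by
    intro r
    refine (hF r).sub ?_
    have := ((hasDerivAt_pow 2 r).div_const 2).mul_const (J 0)
    refine this.congr_deriv ?_
    simp
  have h2 := taylor1 (Λ := Λ * |s| ^ 2) h1 s (fun r hr => ?_)
  · simp only [zero_mul, sub_zero] at h2
    calc _ = |F s - s ^ 2 / 2 * J 0 - (F 0 - 0 ^ 2 / 2 * J 0) - s * G 0| := by congr 1; ring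
      _ ≤ Λ * |s| ^ 2 * |s| := h2
      _ = _ := by ring
  · have h3 := taylor1 (Λ := Λ * |r|) hG r (fun r' hr' =>
      (hJ r').trans (mul_le_mul_of_nonneg_left hr' hΛ))
    calc _ = |G r - G 0 - r * J 0| := by congr 1; ring
      _ ≤ Λ * |r| * |r| := h3
      _ = Λ * |r| ^ 2 := by ring
      _ ≤ _ := by gcongr

theorem hasDerivAt_line {F G : X2 → ℝ}
    (hF : ∀ x, HasDerivAt (fun s => F (x + e s)) (G x) 0) (x : X2) (s : ℝ) :
    HasDerivAt (fun s => F (x + e s)) (G (x + e s)) s := by
  have h1 := hF (x + e s)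
  have h2 : (fun r => F (x + e r)) = fun r => (fun r => F (x + e s + e r)) (r - s) := by
    funext r
    simp only [map_sub]
    congr 1
    abel
  rw [h2]
  exact HasDerivAt.comp_sub_const s s (by simpa using h1)

/-- Second order Taylor expansion of the box average. -/
theorem av_taylor (he : Continuous e) (ha : 0 ≤ a) {F G J : X2 → ℝ} (hv : BM F) {Λ : ℝ}
    (hΛ : 0 ≤ Λ) (hF : ∀ x, HasDerivAt (fun s => F (x + e s)) (G x) 0)
    (hG : ∀ x, HasDerivAt (fun s => G (x + e s)) (J x) 0)
    (hJ : ∀ x s, |J (x + e s) - J x| ≤ Λ * |s|) (x : X2) :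
    |av e (unif a) F x - F x - a ^ 2 / 6 * J x| ≤ Λ * a ^ 3 := by
  have i1 := int_line (ν := unif a) he hv x
  have i2 : Integrable (fun s : ℝ => s) (unif a) :=
    Integrable.of_bound (by fun_prop) a (ae_unif ha)
  have i3 : Integrable (fun s : ℝ => s ^ 2) (unif a) :=
    Integrable.of_bound (by fun_prop) (a ^ 2) ((ae_unif ha).mono fun s hs => by
      rw [Real.norm_eq_abs, abs_pow]; gcongr)
  have h1 : ∫ s, (F (x + e s) - F x - s * G x - s ^ 2 * (J x / 2)) ∂unif a
      = av e (unif a) F x - F x - a ^ 2 / 6 * J x := by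
    have j1 : Integrable (fun s => F (x + e s) - F x) (unif a) := i1.sub (integrable_const _)
    have j2 : Integrable (fun s => F (x + e s) - F x - s * G x) (unif a) :=
      j1.sub (i2.mul_const _)
    rw [integral_sub j2 (i3.mul_const _), integral_sub j1 (i2.mul_const _),
      integral_sub i1 (integrable_const _), integral_mul_const, integral_mul_const,
      integral_id_unif, integral_sq_unif]
    simp only [integral_const, probReal_univ, smul_eq_mul, one_mul]
    rw [av]; ring
  have h2 : ∀ᵐ s ∂unif a, ‖F (x + e s) - F x - s * G x - s ^ 2 * (J x / 2)‖ ≤ Λ * a ^ 3 := by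
    filter_upwards [ae_unif ha] with s hs
    have := taylor2 hΛ (hasDerivAt_line hF x) (hasDerivAt_line hG x)
      (J := fun s => J (x + e s)) (fun r => by simpa using hJ x r) s
    simp only [map_zero, add_zero] at this
    rw [Real.norm_eq_abs]
    calc _ = |F (x + e s) - F x - s * G x - s ^ 2 / 2 * J x| := by congr 1; ring
      _ ≤ Λ * |s| ^ 3 := this
      _ ≤ _ := by gcongr
  have h3 := norm_integral_le_of_norm_le_const h2
  rw [h1] at h3
  simpa using h3

end box

end AdvDiff
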