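import Pool.Agent.Lib.MP_0c2f33_an.Scheme

/-!
Consistency of the scheme with the weak formulation.
-/

open MeasureTheory Set
open scoped ENNReal

namespace AdvDiff

theorem taylor_one_sided {F G : ℝ → ℝ} {C t h : ℝ} (hh : 0 ≤ h) (hF : ∀ s, HasDerivAt F (G s) s)
    (hG : ∀ r ∈ Icc t (t + h), |G r - G t| ≤ C) : |F (t + h) - F t - h * G t| ≤ C * h := by
  have h1 : ∀ r ∈ Icc t (t + h), HasDerivWithinAt (fun r => F r - r * G t) (G r - G t)
      (Icc t (t + h)) r := fun r _ =>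
    ((hF r).sub (by simpa using (hasDerivAt_id r).mul_const (G t))).hasDerivWithinAt
  have h2 := (convex_Icc t (t + h)).norm_image_sub_le_of_norm_hasDerivWithin_le h1
    (C := C) hG (x := t) (y := t + h) ⟨le_rfl, by linarith⟩ ⟨by linarith, le_rfl⟩
  simp only [Real.norm_eq_abs, add_sub_cancel_left, abs_of_nonneg hh] at h2
  convert h2 using 2
  ring

theorem abs_integral_le_const_add {f : X2 → ℝ} (hf : BM f) {A C m : ℝ} (hC : 0 ≤ C) (hm : 0 ≤ m)
    {Z : Set X2} (hZ : MeasurableSet Z) (hZ' : volume Z ≤ ENNReal.ofReal m)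
    (h1 : ∀ x, |f x| ≤ A + C) (h2 : ∀ x, x ∉ Z → |f x| ≤ A) : |∫ x, f x| ≤ A + C * m := by
  have hi : Integrable (Z.indicator fun _ : X2 => C) := (integrable_const C).indicator hZ
  refine abs_integral_le_integral_abs.trans ((integral_mono hf.abs.integrable
    ((integrable_const A).add hi) fun x => ?_).trans ?_)
  · by_cases hx : x ∈ Z
    · simpa [hx] using h1 x
    · simpa [hx] using h2 x hx
  · rw [integral_add' (integrable_const A) hi, integral_indicator hZ]
    simp only [integral_const, probReal_univ, smul_eq_mul, one_mul, measureReal_restrict_apply_univ]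
    have : volume.real Z ≤ m := ENNReal.toReal_le_of_le_ofReal hm hZ'
    nlinarith

theorem ii_of_bound {F : ℝ × X2 → ℝ} (hF : Measurable F) {a b C : ℝ} (hab : a ≤ b)
    (h : ∀ t ∈ Icc a b, ∀ x, |F (t, x)| ≤ C) :
    IntervalIntegrable (fun t => ∫ x, F (t, x)) volume a b := by
  rw [intervalIntegrable_iff_integrableOn_Icc_of_le hab]
  refine Integrable.of_bound
    hF.stronglyMeasurable.integral_prod_right'.aestronglyMeasurable C ?_
  filter_upwards [ae_restrict_mem measurableSet_Icc] with t ht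
  have := norm_integral_le_of_norm_le_const (μ := volume) (f := fun x => F (t, x)) (C := C)
    (Filter.Eventually.of_forall fun x => h t ht x)
  simpa using this

theorem BLip.bm {T Λ : ℝ} {f : ℝ × X2 → ℝ} (h : BLip T Λ f) (t : ℝ) : BM (fun x => f (t, x)) :=
  BM.of_cont (h.cont.comp (by fun_prop))

theorem BLip.space {T Λ : ℝ} {f : ℝ × X2 → ℝ} (h : BLip T Λ f) {t : ℝ} (ht : t ∈ Icc 0 T)
    (x : X2) (s₁ s₂ : ℝ) :
    |f (t, (x.1 + (s₁ : UnitAddCircle), x.2 + (s₂ : UnitAddCircle))) - f (t, x)|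
      ≤ Λ * (|s₁| + |s₂|) := by
  simpa using h.lip t ht t ht x s₁ s₂

theorem BLip.lx {T Λ : ℝ} {f : ℝ × X2 → ℝ} (h : BLip T Λ f) {t : ℝ} (ht : t ∈ Icc 0 T)
    (x : X2) (s : ℝ) : |f (t, x + ex s) - f (t, x)| ≤ Λ * |s| := by
  simpa [add_ex] using h.space ht x s 0

theorem BLip.ly {T Λ : ℝ} {f : ℝ × X2 → ℝ} (h : BLip T Λ f) {t : ℝ} (ht : t ∈ Icc 0 T)
    (x : X2) (s : ℝ) : |f (t, x + ey s) - f (t, x)| ≤ Λ * |s| := by
  simpa [add_ey] using h.space ht x 0 s

theorem BLip.time {T Λ : ℝ} {f : ℝ × X2 → ℝ} (h : BLip T Λ f) {t t' : ℝ} (ht : t ∈ Icc 0 T)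
    (ht' : t' ∈ Icc 0 T) (x : X2) : |f (t', x) - f (t, x)| ≤ Λ * |t' - t| := by
  simpa using h.lip t ht t' ht' x 0 0

namespace Phase

/-- A bound for the drift. -/
noncomputable def vel : Phase → ℝ
  | flip τ _ => 4 / τ
  | _ => 0

/-- The error made by a source. -/
noncomputable def serr : Phase → ℝ
  | src A lo hi => 2 * (A * (hi - lo)) * hi
  | _ => 0

theorem measurable_b₁ (P : Phase) : Measurable P.b₁ := by
  cases P with
  | rest D l => exact measurable_const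
  | flip τ F => exact (F.measurable_W₁.const_mul _).neg
  | src A lo hi => exact measurable_const

theorem measurable_b₂ (P : Phase) : Measurable P.b₂ := by
  cases P with
  | rest D l => exact measurable_const
  | flip τ F => exact (F.measurable_W₂.const_mul _).neg
  | src A lo hi => exact measurable_const

theorem abs_b_le {P : Phase} (hP : P.OK) (x : X2) : |P.b₁ x| ≤ P.vel ∧ |P.b₂ x| ≤ P.vel := by
  cases P with
  | rest D l => simp [b₁, b₂, vel]
  | flip τ F =>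
    have h0 : 0 < 4 / τ := by have := hP.1; positivity
    have hM : (1 : ℝ) ≤ F.M := by exact_mod_cast F.hM
    simp only [b₁, b₂, vel, abs_neg, abs_mul, abs_of_pos h0]
    exact ⟨mul_le_of_le_one_right h0.le ((F.abs_W₁_le x).trans ((div_le_one (by linarith)).2 hM)),
      mul_le_of_le_one_right h0.le ((F.abs_W₂_le x).trans (by linarith [F.hβ]))⟩
  | src A lo hi => simp [b₁, b₂, vel]

end Phase

variable {T Λ : ℝ} {φ φt φx φy φxx φyy : ℝ × X2 → ℝ}

namespace TestData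

theorem nonneg (hφ : TestData T Λ φ φt φx φy φxx φyy) {t : ℝ} (ht : t ∈ Icc 0 T) : 0 ≤ Λ :=
  (abs_nonneg _).trans (hφ.h0.bound t ht 0)

theorem taylor_space (hφ : TestData T Λ φ φt φx φy φxx φyy) {t : ℝ} (ht : t ∈ Icc 0 T) (x : X2)
    {d₁ d₂ δ : ℝ} (h₁ : |d₁| ≤ δ) (h₂ : |d₂| ≤ δ) :
    |φ (t, (x.1 + (d₁ : UnitAddCircle), x.2 + (d₂ : UnitAddCircle))) - φ (t, x)
      - (d₁ * φx (t, x) + d₂ * φy (t, x))| ≤ 3 * Λ * δ ^ 2 := by
  have hΛ := hφ.nonneg ht
  have hδ : 0 ≤ δ := (abs_nonneg _).trans h₁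
  have a1 := taylor1 (Λ := Λ * δ) (hasDerivAt_line (e := ex) (F := fun x => φ (t, x))
    (G := fun x => φx (t, x)) (fun x => by simpa only [add_ex] using hφ.dx t x) x) d₁
    fun r hr => by
      simp only [map_zero, add_zero]
      exact (hφ.hx.lx ht x r).trans (by gcongr; exact hr.trans h₁)
  have a2 := taylor1 (Λ := Λ * δ) (hasDerivAt_line (e := ey) (F := fun x => φ (t, x))
    (G := fun x => φy (t, x)) (fun x => by simpa only [add_ey] using hφ.dy t x) (x + ex d₁)) d₂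
    fun r hr => by
      simp only [map_zero, add_zero]
      exact (hφ.hy.ly ht _ r).trans (by gcongr; exact hr.trans h₂)
  have a3 : |d₂ * (φy (t, x + ex d₁) - φy (t, x))| ≤ δ * (Λ * δ) := by
    rw [abs_mul]
    exact mul_le_mul h₂ ((hφ.hy.lx ht x d₁).trans (by gcongr)) (abs_nonneg _) hδ
  simp only [map_zero, add_zero] at a1 a2
  have e : x + ex d₁ + ey d₂ = (x.1 + (d₁ : UnitAddCircle), x.2 + (d₂ : UnitAddCircle)) := by
    rw [add_ey, add_ex]
  rw [e] at a2
  have b1 := abs_le.1 (a1.trans (mul_le_mul_of_nonneg_left h₁ (by positivity)))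
  have b2 := abs_le.1 (a2.trans (mul_le_mul_of_nonneg_left h₂ (by positivity)))
  have b3 := abs_le.1 a3
  rw [abs_le]
  constructor <;> nlinarith

theorem move_point (hφ : TestData T Λ φ φt φx φy φxx φyy) {V h a t : ℝ} (hh : 0 ≤ h)
    (ha : 0 ≤ a) (ha2 : a ^ 2 = 3 * h) (ht : 0 ≤ t) (hT : t + h ≤ T) (hV : 0 ≤ V) (x y : X2)
    {d₁ d₂ β₁ β₂ : ℝ} (e : y = (x.1 + (d₁ : UnitAddCircle), x.2 + (d₂ : UnitAddCircle)))
    (q₁ : |d₁| ≤ h * V) (q₂ : |d₂| ≤ h * V) (p₁ : |β₁| ≤ V) (p₂ : |β₂| ≤ V) :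
    |av ex (unif a) (av ex (unif a) (av ey (unif a) (av ey (unif a) fun x => φ (t + h, x)))) x
      - (φ (t, y) + h * (φt (t, y) + (β₁ * φx (t, y) + β₂ * φy (t, y))
        + (φxx (t, y) + φyy (t, y))))|
        ≤ Λ * (6 * a ^ 3 + 7 * (1 + V) ^ 2 * h ^ 2) + 4 * Λ * h * V ∧
      (d₁ = -(h * β₁) → d₂ = -(h * β₂) →
    |av ex (unif a) (av ex (unif a) (av ey (unif a) (av ey (unif a) fun x => φ (t + h, x)))) x
      - (φ (t, y) + h * (φt (t, y) + (β₁ * φx (t, y) + β₂ * φy (t, y))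
        + (φxx (t, y) + φyy (t, y))))|
        ≤ Λ * (6 * a ^ 3 + 7 * (1 + V) ^ 2 * h ^ 2)) := by
  have t0 : t ∈ Icc 0 T := ⟨ht, by linarith⟩
  have t1 : t + h ∈ Icc 0 T := ⟨by linarith, hT⟩
  have hΛ := hφ.nonneg t0
  have E1 := heat_taylor ha (hφ.h0.bm (t + h)) (hφ.hxx.bm _) (hφ.hyy.bm _) hΛ
    (fun x => by simpa only [add_ex] using hφ.dx (t + h) x)
    (fun x => by simpa only [add_ex] using hφ.dxx (t + h) x)
    (fun x => by simpa only [add_ey] using hφ.dy (t + h) x)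
    (fun x => by simpa only [add_ey] using hφ.dyy (t + h) x)
    (hφ.hxx.lx t1) (hφ.hyy.lx t1) (hφ.hyy.ly t1) x
  rw [ha2, show 3 * h / 3 = h by ring] at E1
  generalize av ex (unif a) (av ex (unif a) (av ey (unif a) (av ey (unif a)
    fun x => φ (t + h, x)))) x = f at E1 ⊢
  have E2 := taylor_one_sided (C := Λ * h) hh (fun s => hφ.dt s x) fun r hr =>
    (hφ.ht.time t0 ⟨ht.trans hr.1, hr.2.trans hT⟩ x).trans (by
      rw [abs_of_nonneg (by linarith [hr.1])]; gcongr; linarith [hr.2])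
  have E3 := hφ.taylor_space t0 x q₁ q₂
  rw [← e] at E3
  have sp : ∀ {g : ℝ × X2 → ℝ}, BLip T Λ g → |g (t, y) - g (t, x)| ≤ Λ * (2 * (h * V)) :=
    fun hg => by
      rw [e]
      exact (hg.space t0 x d₁ d₂).trans (mul_le_mul_of_nonneg_left (by linarith) hΛ)
  have st : ∀ {g : ℝ × X2 → ℝ}, BLip T Λ g →
      |h * (g (t, y) - g (t + h, x))| ≤ h * (Λ * (h + 2 * (h * V))) := fun hg => by
    rw [abs_mul, abs_of_nonneg hh, e]
    refine mul_le_mul_of_nonneg_left ((hg.lip _ t1 _ t0 x d₁ d₂).trans ?_) hh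
    rw [show t - (t + h) = -h by ring, abs_neg, abs_of_nonneg hh]
    exact mul_le_mul_of_nonneg_left (by linarith) hΛ
  have E4 : |h * (φt (t, y) - φt (t, x))| ≤ h * (Λ * (2 * (h * V))) := by
    rw [abs_mul, abs_of_nonneg hh]; exact mul_le_mul_of_nonneg_left (sp hφ.ht) hh
  have E5 := st hφ.hxx
  have E6 := st hφ.hyy
  obtain ⟨R, hR⟩ : ∃ R, R = d₁ * φx (t, x) + d₂ * φy (t, x)
    + h * (β₁ * φx (t, y) + β₂ * φy (t, y)) := ⟨_, rfl⟩
  have main : |f - (φ (t, y) + h * (φt (t, y) + (β₁ * φx (t, y) + β₂ * φy (t, y))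
        + (φxx (t, y) + φyy (t, y))))|
      ≤ Λ * (6 * a ^ 3 + (3 + 6 * V + 3 * V ^ 2) * h ^ 2) + |R| := by
    have c1 := abs_le.1 E1
    have c2 := abs_le.1 E2
    have c3 := abs_le.1 E3
    have c4 := abs_le.1 E4
    have c5 := abs_le.1 E5
    have c6 := abs_le.1 E6
    have c7 := le_abs_self R
    have c8 := neg_abs_le R
    rw [abs_le]
    constructor <;> linarith [c1.1, c1.2, c2.1, c2.2, c3.1, c3.2, c4.1, c4.2, c5.1, c5.2,
      c6.1, c6.2]
  have pr : ∀ {p q P Q : ℝ}, |p| ≤ P → |q| ≤ Q → |p * q| ≤ P * Q :=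
    fun hp hq => by
      rw [abs_mul]; exact mul_le_mul hp hq (abs_nonneg _) ((abs_nonneg _).trans hp)
  have hh' : |h| ≤ h := (abs_of_nonneg hh).le
  have hx : 0 ≤ Λ * h ^ 2 := by positivity
  have hx1 : 0 ≤ Λ * h ^ 2 * V := by positivity
  have hx2 : 0 ≤ Λ * h ^ 2 * V ^ 2 := by positivity
  constructor
  · have r1 := abs_le.1 (pr q₁ (hφ.hx.bound t t0 x))
    have r2 := abs_le.1 (pr q₂ (hφ.hy.bound t t0 x))
    have r3 := abs_le.1 (pr hh' (pr p₁ (hφ.hx.bound t t0 y)))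
    have r4 := abs_le.1 (pr hh' (pr p₂ (hφ.hy.bound t t0 y)))
    have r5 : |R| ≤ 4 * Λ * h * V := by
      rw [abs_le, hR]
      constructor <;> linarith [r1.1, r1.2, r2.1, r2.2, r3.1, r3.2, r4.1, r4.2]
    linarith
  · intro z1 z2
    have r3 := abs_le.1 (pr hh' (pr p₁ (sp hφ.hx)))
    have r4 := abs_le.1 (pr hh' (pr p₂ (sp hφ.hy)))
    have r5 : |R| ≤ 4 * Λ * h ^ 2 * V ^ 2 := by
      rw [abs_le, hR, z1, z2]
      constructor <;> linarith [r3.1, r3.2, r4.1, r4.2]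
    linarith

theorem move_step (hφ : TestData T Λ φ φt φx φy φxx φyy) {Ψ : X2 → X2}
    (hΨ : MeasurePreserving Ψ volume volume) {b₁ b₂ : X2 → ℝ} (m₁ : Measurable b₁)
    (m₂ : Measurable b₂) {V h a t B ζ : ℝ} (hb : ∀ x, |b₁ x| ≤ V ∧ |b₂ x| ≤ V) (hh : 0 ≤ h)
    (ha : 0 ≤ a) (ha2 : a ^ 2 = 3 * h) (ht : 0 ≤ t) (hT : t + h ≤ T) (hζ : 0 ≤ ζ)
    {Z : Set X2} (hZ : MeasurableSet Z) (hZ' : volume Z ≤ ENNReal.ofReal ζ)
    (hd : ∀ x : X2, ∃ d₁ d₂ : ℝ,
      Ψ x = (x.1 + (d₁ : UnitAddCircle), x.2 + (d₂ : UnitAddCircle)) ∧ |d₁| ≤ h * V ∧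
      |d₂| ≤ h * V ∧ (x ∉ Z → d₁ = -(h * b₁ x) ∧ d₂ = -(h * b₂ x) ∧ b₁ (Ψ x) = b₁ x ∧
        b₂ (Ψ x) = b₂ x))
    {v : X2 → ℝ} (hv : BM v) (hB : ∀ x, |v x| ≤ B) :
    |(∫ x, heat a (fun x => v (Ψ x)) x * φ (t + h, x)) - (∫ x, v x * φ (t, x))
      - ∫ s in t..(t + h), ∫ x, v x * (φt (s, x) + (b₁ x * φx (s, x) + b₂ x * φy (s, x))
        + (φxx (s, x) + φyy (s, x)))|
      ≤ B * Λ * (6 * a ^ 3 + 10 * (1 + V) ^ 2 * h ^ 2 + 4 * h * V * ζ) := by
  have t0 : t ∈ Icc 0 T := ⟨ht, by linarith⟩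
  have t1 : t + h ∈ Icc 0 T := ⟨by linarith, hT⟩
  have hΛ := hφ.nonneg t0
  have hV : 0 ≤ V := (abs_nonneg _).trans (hb 0).1
  have hB0 : 0 ≤ B := (abs_nonneg _).trans (hB 0)
  have bb₁ : BM b₁ := ⟨m₁, V, fun x => (hb x).1⟩
  have bb₂ : BM b₂ := ⟨m₂, V, fun x => (hb x).2⟩
  set L : ℝ → X2 → ℝ := fun s x => φt (s, x) + (b₁ x * φx (s, x) + b₂ x * φy (s, x))
    + (φxx (s, x) + φyy (s, x)) with hL
  have bL : ∀ s, BM (L s) := fun s => ((hφ.ht.bm s).add ((bb₁.mul (hφ.hx.bm s)).add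
    (bb₂.mul (hφ.hy.bm s)))).add ((hφ.hxx.bm s).add (hφ.hyy.bm s))
  have bv := hv.comp hΨ.measurable
  have b0 := hφ.h0.bm (t + h)
  rw [integral_heat_mul bv b0]
  set f := av ex (unif a) (av ex (unif a) (av ey (unif a) (av ey (unif a)
    fun x => φ (t + h, x)))) with hf
  have bf : BM f := (((b0.av cont_ey).av cont_ey).av cont_ex).av cont_ex
  have bg : BM fun x => φ (t, x) + h * L t x := (hφ.h0.bm t).add ((bL t).cmul h)
  have key : ∀ x : X2, |f x - (φ (t, Ψ x) + h * L t (Ψ x))|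
        ≤ Λ * (6 * a ^ 3 + 7 * (1 + V) ^ 2 * h ^ 2) + 4 * Λ * h * V ∧
      (x ∉ Z → |f x - (φ (t, Ψ x) + h * L t (Ψ x))|
        ≤ Λ * (6 * a ^ 3 + 7 * (1 + V) ^ 2 * h ^ 2)) := by
    intro x
    obtain ⟨d₁, d₂, e, q₁, q₂, q₃⟩ := hd x
    have := hφ.move_point hh ha ha2 ht hT hV x (Ψ x) e q₁ q₂ (hb (Ψ x)).1 (hb (Ψ x)).2
    refine ⟨this.1, fun hx => ?_⟩
    obtain ⟨z1, z2, z3, z4⟩ := q₃ hx
    exact this.2 (by rw [z3, z1]) (by rw [z4, z2])
  have I1 : |(∫ x, v (Ψ x) * f x) - ∫ x, v x * (φ (t, x) + h * L t x)|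
      ≤ B * (Λ * (6 * a ^ 3 + 7 * (1 + V) ^ 2 * h ^ 2)) + B * (4 * Λ * h * V) * ζ := by
    rw [← integral_comp_mp hΨ (hv.mul bg).1, ← integral_sub (bv.mul bf).integrable
      ((hv.mul bg).comp hΨ.measurable).integrable]
    refine abs_integral_le_const_add ((bv.mul bf).sub ((hv.mul bg).comp hΨ.measurable))
      (by positivity) hζ hZ hZ' (fun x => ?_) (fun x hx => ?_)
    · rw [← mul_sub, abs_mul, ← mul_add]
      exact mul_le_mul (hB _) (key x).1 (abs_nonneg _) hB0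
    · rw [← mul_sub, abs_mul]
      exact mul_le_mul (hB _) ((key x).2 hx) (abs_nonneg _) hB0
  have I2 : ∫ x, v x * (φ (t, x) + h * L t x)
      = (∫ x, v x * φ (t, x)) + h * ∫ x, v x * L t x := by
    rw [← integral_const_mul, ← integral_add (hv.mul (hφ.h0.bm t)).integrable
      ((hv.mul (bL t)).cmul h).integrable]
    congr 1; funext x; ring
  have I3 : |(∫ s in t..(t + h), ∫ x, v x * L s x) - h * ∫ x, v x * L t x|
      ≤ B * (Λ * h * (3 + 2 * V)) * h := by
    have lip : ∀ s ∈ Icc t (t + h), ∀ x, |L s x - L t x| ≤ Λ * h * (3 + 2 * V) := by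
      intro s hs x
      have tm : ∀ {g : ℝ × X2 → ℝ}, BLip T Λ g → |g (s, x) - g (t, x)| ≤ Λ * h := fun hg =>
        (hg.time t0 ⟨ht.trans hs.1, hs.2.trans hT⟩ x).trans (by
          rw [abs_of_nonneg (by linarith [hs.1])]; gcongr; linarith [hs.2])
      have c1 := abs_le.1 (tm hφ.ht)
      have c2 := abs_le.1 (tm hφ.hxx)
      have c3 := abs_le.1 (tm hφ.hyy)
      have c4 : |b₁ x * (φx (s, x) - φx (t, x))| ≤ V * (Λ * h) := by
        rw [abs_mul]; exact mul_le_mul (hb x).1 (tm hφ.hx) (abs_nonneg _) hV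
      have c5 : |b₂ x * (φy (s, x) - φy (t, x))| ≤ V * (Λ * h) := by
        rw [abs_mul]; exact mul_le_mul (hb x).2 (tm hφ.hy) (abs_nonneg _) hV
      have c4' := abs_le.1 c4
      have c5' := abs_le.1 c5
      simp only [hL]
      rw [abs_le]
      constructor <;> linarith [c1.1, c1.2, c2.1, c2.2, c3.1, c3.2, c4'.1, c4'.2, c5'.1, c5'.2]
    obtain ⟨C, hC⟩ := (bL t).2
    have ii : IntervalIntegrable (fun s => ∫ x, v x * L s x) volume t (t + h) := by
      refine ii_of_bound (F := fun z => v z.2 * L z.1 z.2) ?_ (by linarith)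
        (C := B * (C + Λ * h * (3 + 2 * V))) fun s hs x => ?_
      · have := hv.1
        have := hφ.ht.cont.measurable
        have := hφ.hx.cont.measurable
        have := hφ.hy.cont.measurable
        have := hφ.hxx.cont.measurable
        have := hφ.hyy.cont.measurable
        simp only [hL]
        fun_prop
      · rw [abs_mul]
        refine mul_le_mul (hB x) ?_ (abs_nonneg _) hB0
        have := abs_sub_abs_le_abs_sub (L s x) (L t x)
        linarith [lip s hs x, hC x]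
    have e : h * ∫ x, v x * L t x = ∫ _ in t..(t + h), ∫ x, v x * L t x := by simp
    rw [e, ← intervalIntegral.integral_sub ii intervalIntegrable_const]
    have := intervalIntegral.norm_integral_le_of_norm_le_const (a := t) (b := t + h)
      (f := fun s => (∫ x, v x * L s x) - ∫ x, v x * L t x) (C := B * (Λ * h * (3 + 2 * V)))
      fun s hs => by
        rw [uIoc_of_le (by linarith)] at hs
        rw [← integral_sub (hv.mul (bL s)).integrable (hv.mul (bL t)).integrable]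
        have := norm_integral_le_of_norm_le_const (μ := volume)
          (f := fun x => v x * L s x - v x * L t x) (C := B * (Λ * h * (3 + 2 * V)))
          (Filter.Eventually.of_forall fun x => by
            rw [← mul_sub, Real.norm_eq_abs, abs_mul]
            exact mul_le_mul (hB x) (lip s ⟨hs.1.le, hs.2⟩ x) (abs_nonneg _) hB0)
        simpa using this
    rwa [add_sub_cancel_left, abs_of_nonneg hh] at this
  rw [I2] at I1
  have J1 := abs_le.1 I1
  have J3 := abs_le.1 I3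
  have hx : 0 ≤ B * Λ * h ^ 2 * V := by positivity
  have hx2 : 0 ≤ B * Λ * h ^ 2 * V ^ 2 := by positivity
  change |_ - _ - ∫ s in t..(t + h), ∫ x, v x * L s x| ≤ _
  rw [abs_le]
  constructor <;> linarith [J1.1, J1.2, J3.1, J3.2]

theorem src_step (hφ : TestData T Λ φ φt φx φy φxx φyy) {t : ℝ} (ht : t ∈ Icc 0 T)
    {A lo hi : ℝ} (hP : (Phase.src A lo hi).OK) {v : X2 → ℝ} (hv : Cone v) :
    |(∫ x, raise (prof A lo hi) v x * φ (t, x)) - ∫ x, v x * φ (t, x)|
      ≤ Λ * (2 * (A * (hi - lo)) * hi) := by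
  obtain ⟨hA, h0, h1, h2⟩ := hP
  have hΛ := hφ.nonneg ht
  have hS := prof_cone hA h0 h2
  have c1 := raise_sub_self hS hv
  have c2 : ∀ x, |raise (prof A lo hi) v x - v x| ≤ |prof A lo hi x| :=
    c1.abs_le ((add_sub_raise hS hv).congr fun x => by ring)
  have b0 := hφ.h0.bm t
  rw [← integral_sub ((raise_cone hS hv).bm.mul b0).integrable (hv.bm.mul b0).integrable]
  simp_rw [← sub_mul]
  set d := fun x => raise (prof A lo hi) v x - v x with hd
  have e1 : ∫ x, d x * φ (t, x) = -∫ x, d x * φ (t, mir x) := by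
    rw [← integral_comp_mp mir_mp (c1.bm.mul b0).1, ← integral_neg]
    congr 1; funext x
    rw [c1.odd, neg_mul]
  have e2 : 2 * ∫ x, d x * φ (t, x) = ∫ x, d x * (φ (t, x) - φ (t, mir x)) := by
    simp_rw [mul_sub]
    rw [integral_sub (c1.bm.mul b0).integrable (c1.bm.mul (b0.comp measurable_mir)).integrable]
    linarith
  have e3 : |∫ x, d x * (φ (t, x) - φ (t, mir x))| ≤ ∫ x, Λ * (2 * hi) * |prof A lo hi x| := by
    refine abs_integral_le_integral_abs.trans (integral_mono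
      (c1.bm.mul (b0.sub (b0.comp measurable_mir))).abs.integrable (hS.bm.abs.cmul _).integrable
      fun x => ?_)
    simp only
    by_cases hx : hi < ‖x.2‖
    · have := c2 x
      rw [prof_supp x hx, abs_zero, abs_nonpos_iff] at this
      simp [hd, this, prof_supp x hx]
    · rw [abs_mul, mul_comm]
      refine mul_le_mul ?_ (c2 x) (abs_nonneg _) (by have := h0.trans_le h1; positivity)
      obtain ⟨s, hs1, hs2⟩ : ∃ s : ℝ, (s : UnitAddCircle) = x.2 ∧ |s| = ‖x.2‖ := by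
        obtain ⟨s, hs, h | h⟩ := circle_cases x.2
        · refine ⟨s, h.symm, ?_⟩
          rw [h, eq_comm, AddCircle.norm_coe_eq_abs_iff (1 : ℝ) one_ne_zero, abs_of_nonneg hs.1,
            abs_one]
          exact hs.2
        · refine ⟨-s, by rw [h, AddCircle.coe_neg], ?_⟩
          rw [h, norm_neg, abs_neg, eq_comm, AddCircle.norm_coe_eq_abs_iff (1 : ℝ) one_ne_zero,
            abs_of_nonneg hs.1, abs_one]
          exact hs.2
      have := hφ.h0.ly ht x (-(2 * s))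
      have e : x + ey (-(2 * s)) = mir x := by
        rw [add_ey, mir, ← hs1, ← AddCircle.coe_add, ← AddCircle.coe_neg]
        congr 2; ring
      rw [e, abs_sub_comm, abs_neg, abs_mul, hs2, abs_two] at this
      exact this.trans (by gcongr; exact not_lt.1 hx)
  rw [integral_const_mul, integral_abs_prof hA h0 h1 h2, ← e2, abs_mul, abs_two] at e3
  linarith

theorem div_zero (hφ : TestData T Λ φ φt φx φy φxx φyy) {t : ℝ} (ht : t ∈ Icc 0 T)
    (P : Phase) : ∫ x, (P.b₁ x * φx (t, x) + P.b₂ x * φy (t, x)) = 0 := by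
  cases P with
  | rest D l => simp [Phase.b₁, Phase.b₂]
  | src A lo hi => simp [Phase.b₁, Phase.b₂]
  | flip τ F =>
    have hΛ := hφ.nonneg ht
    have hM : (1 : ℝ) ≤ F.M := by exact_mod_cast F.hM
    have w1 : ∀ x, |F.W₁ x| ≤ 1 := fun x =>
      (F.abs_W₁_le x).trans ((div_le_one (by linarith)).2 hM)
    have w2 : ∀ x, |F.W₂ x| ≤ 1 := fun x => (F.abs_W₂_le x).trans (by linarith [F.hβ])
    have bW : BM fun x => F.W₁ x * φx (t, x) + F.W₂ x * φy (t, x) :=
      (BM.mul ⟨F.measurable_W₁, 1, w1⟩ (hφ.hx.bm t)).add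
        (BM.mul ⟨F.measurable_W₂, 1, w2⟩ (hφ.hy.bm t))
    have b0 := hφ.h0.bm t
    set I := ∫ x, (F.W₁ x * φx (t, x) + F.W₂ x * φy (t, x)) with hI
    have key : ∀ σ, 0 < σ → σ ≤ 2 → |I| ≤ 67 * Λ * σ := by
      intro σ h0 h2
      obtain ⟨Z, hZ, hZ', hd⟩ := F.map_consistent h0.le h2
      have mp := F.map_mp h0.le h2
      have b1 := (b0.comp mp.measurable).sub b0
      have := abs_integral_le_const_add (b1.sub (bW.cmul σ)) (A := 3 * Λ * σ ^ 2)
        (C := 4 * Λ * σ) (by positivity) (by positivity) hZ hZ' (fun x => ?_) (fun x hx => ?_)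
      · rw [integral_sub b1.integrable (bW.cmul σ).integrable, integral_sub
          (b0.comp mp.measurable).integrable b0.integrable, integral_comp_mp mp b0.1, sub_self,
          zero_sub, abs_neg, integral_const_mul, abs_mul, abs_of_pos h0, ← hI] at this
        refine le_of_mul_le_mul_left (this.trans (le_of_eq ?_)) h0
        ring
      · obtain ⟨d₁, d₂, e, q₁, q₂, -⟩ := hd x
        have E := abs_le.1 (hφ.taylor_space ht x q₁ q₂)
        rw [← e] at E
        have pr : ∀ {p q P Q : ℝ}, |p| ≤ P → |q| ≤ Q → -(P * Q) ≤ p * q ∧ p * q ≤ P * Q :=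
          fun hp hq => abs_le.1 (by
            rw [abs_mul]; exact mul_le_mul hp hq (abs_nonneg _) ((abs_nonneg _).trans hp))
        have r1 := pr q₁ (hφ.hx.bound t ht x)
        have r2 := pr q₂ (hφ.hy.bound t ht x)
        have r3 := pr (w1 x) (hφ.hx.bound t ht x)
        have r4 := pr (w2 x) (hφ.hy.bound t ht x)
        rw [abs_le]; constructor <;> nlinarith
      · obtain ⟨d₁, d₂, e, q₁, q₂, q₃⟩ := hd x
        obtain ⟨z1, z2, -, -⟩ := q₃ hx
        have E := hφ.taylor_space ht x q₁ q₂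
        rw [← e, z1, z2] at E
        convert E using 2
        ring
    have I0 : I = 0 := by
      by_contra hne
      have hpos := abs_pos.2 hne
      have h1 := key (min 2 (|I| / (67 * Λ + 1))) (lt_min two_pos (by positivity)) (min_le_left _ _)
      have h2 : 67 * Λ * min 2 (|I| / (67 * Λ + 1)) ≤ 67 * Λ * (|I| / (67 * Λ + 1)) := by
        gcongr; exact min_le_right _ _
      have h3 : 67 * Λ * (|I| / (67 * Λ + 1)) < |I| := by
        rw [mul_div_assoc', div_lt_iff₀ (by positivity)]; nlinarith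
      linarith
    have : (fun x => (Phase.flip τ F).b₁ x * φx (t, x) + (Phase.flip τ F).b₂ x * φy (t, x))
        = fun x => -(4 / τ) * (F.W₁ x * φx (t, x) + F.W₂ x * φy (t, x)) := by
      funext x; simp only [Phase.b₁, Phase.b₂]; ring
    rw [this, integral_const_mul, ← hI, I0, mul_zero]

end TestData

end AdvDiff
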